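import Pool.Agent.VPass.ArfLoc

/-!
# The Arf bit is an invariant of long virtual knots up to pass equivalence

MODULE ArfInv.  By `smap_fill` the decorated code of `fill C t` is `fill C' s`, where the words `s`
only depend on `t` and on the order of the holes, and `C'` is the same for `t'`; then `lsum_fill`.
The words `s i`, `s' i` have the same parity of marks.  The remaining identity is a finite check:
all orders of the holes (permutations of `finRange k`), all states before the holes, and the
parameters of the move (for injective `c`, the sum over the labels `c 0, c 1, ...`): see `ArfLoc`.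
-/

namespace VPass

lemma loc_nil {k : ℕ} {l : List (Fin k)} {st : Fin k → Bool} {t : Fin k → List Ltr} {c : ℕ}
    (ht : ∀ i, t i = []) : loc l st t c = 0 := by
  apply loc_eq_zero
  intro hc
  obtain ⟨i, a, ha, _⟩ := mem_labs.1 hc
  rw [ht i] at ha
  simp at ha

lemma fin_sw_nil {k : ℕ} {l : List (Fin k)} {t : Fin k → List Ltr} {i : Fin k} {s : Bool}
    (ht : ∀ i, t i = []) : fin dstep s (sw l t i) = s := by
  simp [sw, ht, smap, fin]

lemma eq_vec1 {α : Type*} (f : Fin 1 → α) : f = ![f 0] := by
  funext i; fin_cases i; rfl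
lemma eq_vec2 {α : Type*} (f : Fin 2 → α) : f = ![f 0, f 1] := by
  funext i; fin_cases i <;> rfl
lemma eq_vec3 {α : Type*} (f : Fin 3 → α) : f = ![f 0, f 1, f 2] := by
  funext i; fin_cases i <;> rfl
lemma eq_vec4 {α : Type*} (f : Fin 4 → α) : f = ![f 0, f 1, f 2, f 3] := by
  funext i; fin_cases i <;> rfl

theorem arf_r1 {C : List (Ltr ⊕ Fin 1)} (c : ℕ) (o s : Bool) (hC : IsTmpl C)
    (h : Fresh C ![[⟨c, o, s⟩, ⟨c, !o, s⟩]]) (h' : Fresh C ![[]]) :
    arf (mk (fill C ![[⟨c, o, s⟩, ⟨c, !o, s⟩]])) = arf (mk (fill C ![[]])) := by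
  obtain ⟨f, hf, hfc⟩ := exists_extend ![c] (fun i j _ => Subsingleton.elim i j)
  have h0 : f 0 = c := hfc 0
  have := arf_fill_of_loc_relab (n := 1) hC h h' 0 hf ![[⟨0, o, s⟩, ⟨0, !o, s⟩]] ![[]]
    (by intro i; fin_cases i; simp [Ltr.relab, h0]) (by intro i; fin_cases i; rfl)
    (by intro i; fin_cases i; simp) (by intro i; fin_cases i; simp)
    (by
      intro l hl i s0
      rw [arf_perm_one hl, r1_check_fin, fin_sw_nil (by intro i; fin_cases i; rfl)])
    (by
      intro l hl st
      rw [arf_perm_one hl, eq_vec1 st]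
      simp only [Finset.sum_range_succ, Finset.sum_range_zero, r1_check,
        loc_nil (t := ![[]]) (by intro i; fin_cases i; rfl), add_zero])
  simpa using this

theorem arf_r2 {C : List (Ltr ⊕ Fin 2)} (c d : ℕ) (hcd : c ≠ d) (o s dir : Bool) (hC : IsTmpl C)
    (h : Fresh C ![[⟨c, o, s⟩, ⟨d, o, !s⟩],
          if dir then [⟨c, !o, s⟩, ⟨d, !o, !s⟩] else [⟨d, !o, !s⟩, ⟨c, !o, s⟩]])
    (h' : Fresh C ![[], []]) :
    arf (mk (fill C ![[⟨c, o, s⟩, ⟨d, o, !s⟩],
          if dir then [⟨c, !o, s⟩, ⟨d, !o, !s⟩] else [⟨d, !o, !s⟩, ⟨c, !o, s⟩]])) =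
      arf (mk (fill C ![[], []])) := by
  obtain ⟨f, hf, hfc⟩ := exists_extend ![c, d] (by
    intro i j e
    fin_cases i <;> fin_cases j <;> simp_all)
  have h0 : f 0 = c := hfc 0
  have h1 : f 1 = d := hfc 1
  have := arf_fill_of_loc_relab (n := 2) hC h h' 0 hf
    ![[⟨0, o, s⟩, ⟨1, o, !s⟩],
      if dir then [⟨0, !o, s⟩, ⟨1, !o, !s⟩] else [⟨1, !o, !s⟩, ⟨0, !o, s⟩]] ![[], []]
    (by intro i; fin_cases i <;> cases dir <;> simp [Ltr.relab, h0, h1])
    (by intro i; fin_cases i <;> rfl)
    (by intro i; fin_cases i <;> cases dir <;> simp) (by intro i; fin_cases i <;> simp)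
    (by
      intro l hl i s0
      obtain ⟨a, b, rfl, hab⟩ := arf_perm_two hl
      rw [r2_check_fin _ _ _ _ _ hab, fin_sw_nil (by intro i; fin_cases i <;> rfl)])
    (by
      intro l hl st
      obtain ⟨a, b, rfl, hab⟩ := arf_perm_two hl
      rw [eq_vec2 st]
      simp only [Finset.sum_range_succ, Finset.sum_range_zero, zero_add,
        loc_nil (t := ![[], []]) (by intro i; fin_cases i <;> rfl), add_zero]
      exact r2_check _ _ _ _ _ hab _ _)
  simpa using this

theorem arf_r3 {C : List (Ltr ⊕ Fin 3)} (c : Fin 3 → ℕ) (hc : Function.Injective c)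
    (o ov : Fin 3 → Bool) (hv : ¬ (ov 0 = ov 1 ∧ ov 1 = ov 2)) (hC : IsTmpl C)
    (h : Fresh C (triWord c o ov)) (h' : Fresh C (fun i => (triWord c o ov i).reverse)) :
    arf (mk (fill C (triWord c o ov))) =
      arf (mk (fill C (fun i => (triWord c o ov i).reverse))) := by
  obtain ⟨f, hf, hfc⟩ := exists_extend c hc
  have h0 : f 0 = c 0 := hfc 0
  have h1 : f 1 = c 1 := hfc 1
  have h2 : f 2 = c 2 := hfc 2
  have key : ∀ i, triWord c o ov i =
      (triWord Fin.val ![o 0, o 1, o 2] ![ov 0, ov 1, ov 2] i).map (Ltr.relab f) := by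
    intro i
    rw [← eq_vec3 o, ← eq_vec3 ov]
    simp only [triWord]
    split_ifs <;> simp only [List.map_cons, List.map_nil, Ltr.relab, hfc]
  have := arf_fill_of_loc_relab (n := 3) hC h h' 0 hf
    (triWord Fin.val ![o 0, o 1, o 2] ![ov 0, ov 1, ov 2])
    (fun i => (triWord Fin.val ![o 0, o 1, o 2] ![ov 0, ov 1, ov 2] i).reverse)
    key (by intro i; rw [key, List.map_reverse])
    (by
      intro i a ha
      simp only [triWord] at ha
      split_ifs at ha <;>
      · simp only [List.mem_cons, List.not_mem_nil, or_false] at ha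
        rcases ha with rfl | rfl <;> exact Fin.isLt _)
    (by
      intro i a ha
      simp only [triWord, List.mem_reverse] at ha
      split_ifs at ha <;>
      · simp only [List.mem_cons, List.not_mem_nil, or_false] at ha
        rcases ha with rfl | rfl <;> exact Fin.isLt _)
    (by
      intro l hl i s0
      obtain ⟨a, b, c, rfl, hab⟩ := arf_perm_three hl
      exact r3_check_fin _ _ _ _ _ _ hv _ _ _ hab _ _)
    (by
      intro l hl st
      obtain ⟨a, b, c, rfl, hab⟩ := arf_perm_three hl
      rw [eq_vec3 st]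
      simp only [Finset.sum_range_succ, Finset.sum_range_zero, zero_add, add_zero]
      exact r3_check _ _ _ _ _ _ hv _ _ _ hab _ _ _)
  simpa using this

theorem arf_mk_rmove {k : ℕ} {C : List (Ltr ⊕ Fin k)} {t t' : Fin k → List Ltr} (hC : IsTmpl C)
    (h : Fresh C t) (h' : Fresh C t') (m : RMove t t') :
    arf (mk (fill C t)) = arf (mk (fill C t')) := by
  cases m with
  | r1 c o s => exact arf_r1 c o s hC h h'
  | r2 c d hcd o s dir => exact arf_r2 c d hcd o s dir hC h h'
  | r3 c hc o ov hv => exact arf_r3 c hc o ov hv hC h h'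

theorem arf_pass_true {C : List (Ltr ⊕ Fin 4)} (c : Fin 4 → ℕ) (hc : Function.Injective c)
    (left above : Bool) (hC : IsTmpl C) (h : Fresh C (passWord c true left above))
    (h' : Fresh C (passWord c false left above)) :
    arf (mk (fill C (passWord c true left above))) =
      arf (mk (fill C (passWord c false left above))) := by
  obtain ⟨f, hf, hfc⟩ := exists_extend c hc
  have key : ∀ up i, passWord c up left above i =
      (passWord Fin.val up left above i).map (Ltr.relab f) := by
    intro up i
    fin_cases i <;> cases left <;> cases above <;>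
      simp only [passWord, List.map_cons, List.map_nil, List.map_reverse, Ltr.relab, hfc,
        if_true, Bool.false_eq_true, if_false]
  have hlt : ∀ up, ∀ i, ∀ a ∈ passWord Fin.val up left above i, a.lab < 4 := by
    intro up i a ha
    fin_cases i <;> cases left <;> cases above <;>
      simp only [passWord, if_true, Bool.false_eq_true, if_false, List.mem_reverse,
        List.mem_cons, List.not_mem_nil, or_false] at ha <;>
      (rcases ha with rfl | rfl <;> exact Fin.isLt _)
  have := arf_fill_of_loc_relab (n := 4) hC h h' 0 hf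
    (passWord Fin.val true left above) (passWord Fin.val false left above)
    (key true) (key false) (hlt true) (hlt false)
    (by
      intro l hl i s0
      obtain ⟨a, b, c, d, rfl, hab⟩ := arf_perm_four hl
      exact pass_check_fin _ _ _ _ _ _ hab _ _)
    (by
      intro l hl st
      obtain ⟨a, b, c, d, rfl, hab⟩ := arf_perm_four hl
      rw [eq_vec4 st]
      simp only [Finset.sum_range_succ, Finset.sum_range_zero, zero_add, add_zero]
      exact pass_check _ _ _ _ _ _ hab _ _ _ _)
  simpa using this

theorem arf_mk_pmove {C : List (Ltr ⊕ Fin 4)} {t t' : Fin 4 → List Ltr} (hC : IsTmpl C)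
    (h : Fresh C t) (h' : Fresh C t') (m : PMove t t') :
    arf (mk (fill C t)) = arf (mk (fill C t')) := by
  cases m with
  | pass c hc up left above =>
    cases up
    · exact (arf_pass_true c hc left above hC h' h).symm
    · exact arf_pass_true c hc left above hC h h'

theorem arf_mk_relab {f : ℕ → ℕ} (hf : Function.Injective f) (w : List Ltr) :
    arf (mk (w.map (Ltr.relab f))) = arf (mk w) := by
  rw [mk_eq, mk_eq]
  have := smap_relab hf [] w
  simp only [List.map_nil] at this
  rw [this]
  exact lsum_map DLtr.lab dstep arfφ DLtr.lab dstep arfφ (DLtr.relab f) f hf (fun _ => rfl)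
    (fun _ _ => rfl) (fun l => arfφ_relab l) false _

theorem arf_mk_leq {w w' : List Ltr} (h : LEq w w') : arf (mk w) = arf (mk w') := by
  induction h with
  | rel _ _ h =>
    cases h with
    | reid hC h h' m => exact arf_mk_rmove hC h h' m
    | pass hC h h' m => exact arf_mk_pmove hC h h' m
    | relab f hf => exact (arf_mk_relab hf _).symm
  | refl _ => rfl
  | symm _ _ _ ih => exact ih.symm
  | trans _ _ _ _ _ ih1 ih2 => exact ih1.trans ih2

theorem arf_mk_addT (w : List Ltr) : arf (mk (addT w)) = arf (mk w) + 1 := by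
  rw [← arf_mk_relab (f := (· + 3)) (fun x y e => by simpa using e) w]
  set v := w.map (Ltr.relab (· + 3)) with hv
  have hlab : ∀ b ∈ v, 3 ≤ b.lab := by
    intro b hb
    obtain ⟨a, _, rfl⟩ := List.mem_map.1 hb
    simp
  set C : List (Ltr ⊕ Fin 1) := Sum.inr 0 :: v.map Sum.inl with hCdef
  have e1 : fill C ![tref 0 1 2] = addT w := by
    simp only [hCdef, fill_cons_inr, fill_map_inl]
    rfl
  have e2 : fill C ![[]] = v := by
    simp only [hCdef, fill_cons_inr, fill_map_inl]
    rfl
  have hC : IsTmpl C := by
    unfold IsTmpl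
    simp only [hCdef, holes_cons_inr, holes_map_inl]
    exact List.Perm.refl _
  have hmem : ∀ b, Sum.inl b ∈ C → b ∈ v := by
    intro b hb
    simpa [hCdef] using hb
  have hT : ∀ i, ∀ a ∈ (![tref 0 1 2] : Fin 1 → List Ltr) i, a.lab < 3 := by
    intro i a ha
    fin_cases i
    simp only [tref] at ha
    fin_cases ha <;> decide
  have := arf_fill_of_loc_relab (n := 3) hC (t := ![tref 0 1 2]) (t' := ![[]])
    (by
      intro i a ha b hb e
      have := hT i a ha
      have := hlab b (hmem b hb)
      omega)
    (by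
      intro i a ha
      fin_cases i
      simp at ha)
    1 Function.injective_id ![tref 0 1 2] ![[]]
    (by
      intro i
      fin_cases i
      rfl)
    (by intro i; fin_cases i; rfl)
    hT (by intro i; fin_cases i; simp)
    (by
      intro l hl i s0
      rw [arf_perm_one hl, tref_check_fin, fin_sw_nil (by intro i; fin_cases i; rfl)])
    (by
      intro l hl st
      rw [arf_perm_one hl, eq_vec1 st]
      simp only [Finset.sum_range_succ, Finset.sum_range_zero, zero_add, tref_check,
        loc_nil (t := ![[]]) (by intro i; fin_cases i; rfl)])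
  rw [e1, e2] at this
  exact this

end VPass
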