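import Pool.Agent.VPass.Psi

/-!
# The Arf bit under local moves: reduction to finite checks

Part of MODULE ArfInv.  By `smap_fill` the decorated code of `fill C t` is `fill C' s`, where the words `s`
only depend on `t` and on the order of the holes, and `C'` is the same for `t'`; then `lsum_fill`.
The words `s i`, `s' i` have the same parity of marks.  The remaining identity is a finite check:
all orders of the holes (permutations of `finRange k`), all states before the holes, and the
parameters of the move (for injective `c`, the sum over the labels `c 0, c 1, ...`).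
(Verified by computer on random codes, no hypothesis `IsCode` is needed.)
-/

namespace VPass

/-- The letter of the decorated flat code of a letter. -/
def mkf (seen : Bool) (a : Ltr) : DLtr := ⟨a.lab, a.tail, if seen then a.ov else !a.ov⟩

lemma mk_eq (w : List Ltr) : mk w = smap Ltr.lab mkf [] w := rfl

/-- Relabelling of a decorated letter. -/
def DLtr.relab (f : ℕ → ℕ) (a : DLtr) : DLtr := ⟨f a.lab, a.tail, a.mark⟩

lemma mem_smap_lab {l : List ℕ} {w : List Ltr} {x : DLtr} (h : x ∈ smap Ltr.lab mkf l w) :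
    ∃ a ∈ w, a.lab = x.lab := by
  induction w generalizing l with
  | nil => simp [smap] at h
  | cons a w ih =>
    simp only [smap, List.mem_cons] at h
    rcases h with rfl | h
    · exact ⟨a, by simp, rfl⟩
    · obtain ⟨b, hb, e⟩ := ih h
      exact ⟨b, by simp [hb], e⟩

lemma mem_scan {σ α : Type*} {δ : σ → α → σ} {s : σ} {w : List α} {x : σ × α}
    (h : x ∈ scan δ s w) : x.2 ∈ w := by
  induction w generalizing s with
  | nil => simp [scan] at h
  | cons a w ih =>
    simp only [scan, List.mem_cons] at h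
    rcases h with rfl | h
    · simp
    · exact List.mem_cons_of_mem _ (ih h)

/-- `smap` commutes with relabelling. -/
lemma smap_relab {f : ℕ → ℕ} (hf : Function.Injective f) (l : List ℕ) (w : List Ltr) :
    smap Ltr.lab mkf (l.map f) (w.map (Ltr.relab f)) =
      (smap Ltr.lab mkf l w).map (DLtr.relab f) := by
  induction w generalizing l with
  | nil => rfl
  | cons a w ih =>
    have e : (f a.lab ∈ l.map f) = (a.lab ∈ l) := by
      simp [hf.eq_iff]
    have := ih (a.lab :: l)
    simp only [List.map_cons] at this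
    simp only [List.map_cons, smap, relab_lab, this]
    congr 1
    simp only [e]
    rfl

lemma scan_relab {f : ℕ → ℕ} (s : Bool) (w : List DLtr) :
    scan dstep s (w.map (DLtr.relab f)) = (scan dstep s w).map (Prod.map id (DLtr.relab f)) := by
  induction w generalizing s with
  | nil => rfl
  | cons a w ih =>
    have := ih (dstep s a)
    simp only [List.map_cons, scan]
    rw [show dstep s (DLtr.relab f a) = dstep s a from rfl, this]
    rfl

lemma fin_relab {f : ℕ → ℕ} (s : Bool) (w : List DLtr) :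
    fin dstep s (w.map (DLtr.relab f)) = fin dstep s w := by
  induction w generalizing s with
  | nil => rfl
  | cons a w ih => exact ih (dstep s a)

lemma arfφ_relab {f : ℕ → ℕ} (l : List (Bool × DLtr)) :
    arfφ (l.map (Prod.map id (DLtr.relab f))) = arfφ l := by
  rcases l with _ | ⟨x, _ | ⟨y, _ | ⟨z, l⟩⟩⟩ <;> rfl

/-- The words of the decorated code of a filled template. -/
def sw {k : ℕ} (l : List (Fin k)) (t : Fin k → List Ltr) (i : Fin k) : List DLtr :=
  smap Ltr.lab mkf (before Ltr.lab t l i) (t i)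

/-- The local contribution of the label `c` to the Arf bit. -/
def loc {k : ℕ} (l : List (Fin k)) (st : Fin k → Bool) (t : Fin k → List Ltr) (c : ℕ) : ZMod 2 :=
  arfφ (l.flatMap (fun i => (scan dstep (st i) (sw l t i)).filter (fun x => x.2.lab = c)))

lemma loc_eq_zero {k : ℕ} {l : List (Fin k)} {st : Fin k → Bool} {t : Fin k → List Ltr} {c : ℕ}
    (hc : c ∉ labs t) : loc l st t c = 0 := by
  have : l.flatMap (fun i => (scan dstep (st i) (sw l t i)).filter (fun x => x.2.lab = c)) = [] := by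
    rw [List.flatMap_eq_nil_iff]
    intro i _
    rw [List.filter_eq_nil_iff]
    intro x hx
    have := mem_scan hx
    obtain ⟨a, ha, e⟩ := mem_smap_lab this
    simp only [decide_eq_true_eq]
    intro e2
    exact hc (mem_labs.2 ⟨i, a, ha, by rw [e, e2]⟩)
  rw [loc, this]
  rfl

lemma before_relab {k : ℕ} (f : ℕ → ℕ) (t : Fin k → List Ltr) (l : List (Fin k)) (i : Fin k) :
    before Ltr.lab (fun i => (t i).map (Ltr.relab f)) l i = (before Ltr.lab t l i).map f := by
  simp only [before, List.map_flatMap, List.map_map]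
  congr 1

lemma sw_relab {k : ℕ} {f : ℕ → ℕ} (hf : Function.Injective f) (l : List (Fin k))
    (t : Fin k → List Ltr) (i : Fin k) :
    sw l (fun i => (t i).map (Ltr.relab f)) i = (sw l t i).map (DLtr.relab f) := by
  unfold sw
  rw [before_relab, smap_relab hf]

lemma loc_relab {k : ℕ} {f : ℕ → ℕ} (hf : Function.Injective f) (l : List (Fin k))
    (st : Fin k → Bool) (t : Fin k → List Ltr) (c : ℕ) :
    loc l st (fun i => (t i).map (Ltr.relab f)) (f c) = loc l st t c := by
  unfold loc
  rw [← arfφ_relab (f := f) (l.flatMap (fun i => (scan dstep (st i) (sw l t i)).filter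
    (fun x => decide (x.2.lab = c))))]
  congr 1
  rw [List.map_flatMap]
  congr 1
  funext i
  rw [sw_relab hf, scan_relab, List.filter_map]
  congr 1
  apply List.filter_congr
  intro x _
  simp [DLtr.relab, hf.eq_iff]

lemma labs_relab {k : ℕ} (f : ℕ → ℕ) (t : Fin k → List Ltr) :
    labs (fun i => (t i).map (Ltr.relab f)) = (labs t).image f := by
  ext c
  simp only [mem_labs, Finset.mem_image, List.mem_map]
  constructor
  · rintro ⟨i, a, ⟨b, hb, rfl⟩, rfl⟩
    exact ⟨b.lab, ⟨i, b, hb, rfl⟩, rfl⟩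
  · rintro ⟨_, ⟨i, b, hb, rfl⟩, rfl⟩
    exact ⟨i, _, ⟨b, hb, rfl⟩, rfl⟩

/-- Reduction of the invariance to a local identity. -/
theorem arf_fill_of_loc {k : ℕ} {C : List (Ltr ⊕ Fin k)} {t t' : Fin k → List Ltr}
    (hC : IsTmpl C) (h : Fresh C t) (h' : Fresh C t') (ε : ZMod 2)
    (hfin : ∀ l : List (Fin k), l.Perm (List.finRange k) → ∀ i s,
      fin dstep s (sw l t i) = fin dstep s (sw l t' i))
    (H : ∀ l : List (Fin k), l.Perm (List.finRange k) → ∀ st : Fin k → Bool,
      ∑ c ∈ labs t ∪ labs t', loc l st t c = ∑ c ∈ labs t ∪ labs t', loc l st t' c + ε) :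
    arf (mk (fill C t)) = arf (mk (fill C t')) + ε := by
  obtain ⟨C', hh, hm, e1, e2⟩ := smap_fill Ltr.lab mkf hC (t := t)
    (fun i a ha b hb => h i a ha b hb)
  have e2' := e2 t' (fun i a ha b hb => h' i a ha b hb)
  rw [mk_eq, mk_eq, e1, e2']
  have hC' : IsTmpl C' := by unfold IsTmpl; rw [hh]; exact hC
  refine lsum_fill DLtr.lab dstep arfφ rfl (k := k) (C := C')
    (t := fun i => sw (holes C) t i) (t' := fun i => sw (holes C) t' i)
    (fun i s => hfin _ hC i s) (labs t ∪ labs t') ?_ ?_ ?_ ε ?_ hC' false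
  · intro i a ha
    obtain ⟨b, hb, e⟩ := mem_smap_lab ha
    exact Finset.mem_union_left _ (mem_labs.2 ⟨i, b, hb, e⟩)
  · intro i a ha
    obtain ⟨b, hb, e⟩ := mem_smap_lab ha
    exact Finset.mem_union_right _ (mem_labs.2 ⟨i, b, hb, e⟩)
  · intro b hb hc
    obtain ⟨a, ha, s, rfl⟩ := hm b hb
    rcases Finset.mem_union.1 hc with hc | hc
    · exact fresh_iff.1 h a ha hc
    · exact fresh_iff.1 h' a ha hc
  · intro st
    rw [hh]
    exact H _ hC st

/-- Extension of an injective map defined on `Fin n`. -/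
lemma exists_extend {n : ℕ} (c : Fin n → ℕ) (hc : Function.Injective c) :
    ∃ f : ℕ → ℕ, Function.Injective f ∧ ∀ i : Fin n, f i = c i := by
  obtain ⟨M, hM⟩ : ∃ M, ∀ i, c i < M :=
    ⟨Finset.univ.sup c + 1, fun i => Nat.lt_succ_of_le (Finset.le_sup (f := c) (Finset.mem_univ i))⟩
  refine ⟨fun x => if hx : x < n then c ⟨x, hx⟩ else x + M, ?_, fun i => by simp⟩
  intro x y e
  dsimp only at e
  split_ifs at e with h1 h2 h2
  · have := hc e
    simpa using this
  · have := hM ⟨x, h1⟩; omega
  · have := hM ⟨y, h2⟩; omega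
  · omega

/-- Reduction to the labels `0, 1, ..., n - 1`. -/
theorem arf_fill_of_loc_relab {k n : ℕ} {C : List (Ltr ⊕ Fin k)} {t t' : Fin k → List Ltr}
    (hC : IsTmpl C) (h : Fresh C t) (h' : Fresh C t') (ε : ZMod 2)
    {f : ℕ → ℕ} (hf : Function.Injective f) (u u' : Fin k → List Ltr)
    (hu : ∀ i, t i = (u i).map (Ltr.relab f)) (hu' : ∀ i, t' i = (u' i).map (Ltr.relab f))
    (hn : ∀ i, ∀ a ∈ u i, a.lab < n) (hn' : ∀ i, ∀ a ∈ u' i, a.lab < n)
    (hfin : ∀ l : List (Fin k), l.Perm (List.finRange k) → ∀ i s,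
      fin dstep s (sw l u i) = fin dstep s (sw l u' i))
    (H : ∀ l : List (Fin k), l.Perm (List.finRange k) → ∀ st : Fin k → Bool,
      ∑ c ∈ Finset.range n, loc l st u c = ∑ c ∈ Finset.range n, loc l st u' c + ε) :
    arf (mk (fill C t)) = arf (mk (fill C t')) + ε := by
  obtain rfl : t = fun i => (u i).map (Ltr.relab f) := funext hu
  obtain rfl : t' = fun i => (u' i).map (Ltr.relab f) := funext hu'
  refine arf_fill_of_loc hC h h' ε ?_ ?_
  · intro l hl i s
    rw [sw_relab hf, sw_relab hf, fin_relab, fin_relab]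
    exact hfin l hl i s
  · intro l hl st
    rw [labs_relab, labs_relab, ← Finset.image_union, Finset.sum_image (fun x _ y _ e => hf e),
      Finset.sum_image (fun x _ y _ e => hf e)]
    simp only [loc_relab hf]
    have hsub : labs u ∪ labs u' ⊆ Finset.range n := by
      intro c hc
      rcases Finset.mem_union.1 hc with hc | hc
      · obtain ⟨i, a, ha, rfl⟩ := mem_labs.1 hc
        exact Finset.mem_range.2 (hn i a ha)
      · obtain ⟨i, a, ha, rfl⟩ := mem_labs.1 hc
        exact Finset.mem_range.2 (hn' i a ha)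
    rw [Finset.sum_subset hsub, Finset.sum_subset hsub]
    · exact H l hl st
    · intro c _ hc
      exact loc_eq_zero (fun hc' => hc (Finset.mem_union_right _ hc'))
    · intro c _ hc
      exact loc_eq_zero (fun hc' => hc (Finset.mem_union_left _ hc'))

lemma arf_perm_one {l : List (Fin 1)} (h : l.Perm (List.finRange 1)) : l = [0] := by
  have hl := h.length_eq
  simp only [List.length_finRange] at hl
  obtain ⟨a, rfl⟩ := List.length_eq_one_iff.1 hl
  rw [Subsingleton.elim a 0]

lemma arf_perm_two {l : List (Fin 2)} (h : l.Perm (List.finRange 2)) :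
    ∃ a b, l = [a, b] ∧ [a, b].Nodup := by
  have hl := h.length_eq
  simp only [List.length_finRange] at hl
  obtain ⟨a, b, rfl⟩ := List.length_eq_two.1 hl
  exact ⟨a, b, rfl, h.nodup_iff.2 (List.nodup_finRange 2)⟩

lemma arf_perm_three {l : List (Fin 3)} (h : l.Perm (List.finRange 3)) :
    ∃ a b c, l = [a, b, c] ∧ [a, b, c].Nodup := by
  have hl := h.length_eq
  simp only [List.length_finRange] at hl
  obtain ⟨a, b, c, rfl⟩ := List.length_eq_three.1 hl
  exact ⟨a, b, c, rfl, h.nodup_iff.2 (List.nodup_finRange 3)⟩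

lemma arf_perm_four {l : List (Fin 4)} (h : l.Perm (List.finRange 4)) :
    ∃ a b c d, l = [a, b, c, d] ∧ [a, b, c, d].Nodup := by
  have hl := h.length_eq
  simp only [List.length_finRange] at hl
  rcases l with _ | ⟨a, l⟩
  · simp at hl
  · obtain ⟨b, c, d, rfl⟩ := List.length_eq_three.1 (by simpa using hl)
    exact ⟨a, b, c, d, rfl, h.nodup_iff.2 (List.nodup_finRange 4)⟩

set_option maxRecDepth 100000 in
theorem pass_check : ∀ (left above : Bool) (a b c d : Fin 4), [a, b, c, d].Nodup →
    ∀ s0 s1 s2 s3 : Bool,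
    loc [a, b, c, d] ![s0, s1, s2, s3] (passWord Fin.val true left above) 0 +
    loc [a, b, c, d] ![s0, s1, s2, s3] (passWord Fin.val true left above) 1 +
    loc [a, b, c, d] ![s0, s1, s2, s3] (passWord Fin.val true left above) 2 +
    loc [a, b, c, d] ![s0, s1, s2, s3] (passWord Fin.val true left above) 3 =
    loc [a, b, c, d] ![s0, s1, s2, s3] (passWord Fin.val false left above) 0 +
    loc [a, b, c, d] ![s0, s1, s2, s3] (passWord Fin.val false left above) 1 +
    loc [a, b, c, d] ![s0, s1, s2, s3] (passWord Fin.val false left above) 2 +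
    loc [a, b, c, d] ![s0, s1, s2, s3] (passWord Fin.val false left above) 3 := by
  decide +kernel

set_option maxRecDepth 100000 in
theorem pass_check_fin : ∀ (left above : Bool) (a b c d : Fin 4), [a, b, c, d].Nodup →
    ∀ (i : Fin 4) (s : Bool), fin dstep s (sw [a, b, c, d] (passWord Fin.val true left above) i) =
      fin dstep s (sw [a, b, c, d] (passWord Fin.val false left above) i) := by
  decide +kernel

set_option maxRecDepth 100000 in
theorem r3_check : ∀ (o0 o1 o2 v0 v1 v2 : Bool), ¬ (v0 = v1 ∧ v1 = v2) →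
    ∀ (a b c : Fin 3), [a, b, c].Nodup → ∀ s0 s1 s2 : Bool,
    loc [a, b, c] ![s0, s1, s2] (triWord Fin.val ![o0, o1, o2] ![v0, v1, v2]) 0 +
    loc [a, b, c] ![s0, s1, s2] (triWord Fin.val ![o0, o1, o2] ![v0, v1, v2]) 1 +
    loc [a, b, c] ![s0, s1, s2] (triWord Fin.val ![o0, o1, o2] ![v0, v1, v2]) 2 =
    loc [a, b, c] ![s0, s1, s2]
      (fun i => (triWord Fin.val ![o0, o1, o2] ![v0, v1, v2] i).reverse) 0 +
    loc [a, b, c] ![s0, s1, s2]
      (fun i => (triWord Fin.val ![o0, o1, o2] ![v0, v1, v2] i).reverse) 1 +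
    loc [a, b, c] ![s0, s1, s2]
      (fun i => (triWord Fin.val ![o0, o1, o2] ![v0, v1, v2] i).reverse) 2 := by
  decide +kernel

set_option maxRecDepth 100000 in
theorem r3_check_fin : ∀ (o0 o1 o2 v0 v1 v2 : Bool), ¬ (v0 = v1 ∧ v1 = v2) →
    ∀ (a b c : Fin 3), [a, b, c].Nodup → ∀ (i : Fin 3) (s : Bool),
    fin dstep s (sw [a, b, c] (triWord Fin.val ![o0, o1, o2] ![v0, v1, v2]) i) =
    fin dstep s (sw [a, b, c]
      (fun i => (triWord Fin.val ![o0, o1, o2] ![v0, v1, v2] i).reverse) i) := by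
  decide +kernel

set_option maxRecDepth 100000 in
theorem r2_check : ∀ (o s dir : Bool) (a b : Fin 2), [a, b].Nodup → ∀ s0 s1 : Bool,
    loc [a, b] ![s0, s1] ![[⟨0, o, s⟩, ⟨1, o, !s⟩],
      if dir then [⟨0, !o, s⟩, ⟨1, !o, !s⟩] else [⟨1, !o, !s⟩, ⟨0, !o, s⟩]] 0 +
    loc [a, b] ![s0, s1] ![[⟨0, o, s⟩, ⟨1, o, !s⟩],
      if dir then [⟨0, !o, s⟩, ⟨1, !o, !s⟩] else [⟨1, !o, !s⟩, ⟨0, !o, s⟩]] 1 = 0 := by
  decide +kernel

set_option maxRecDepth 100000 in
theorem r2_check_fin : ∀ (o s dir : Bool) (a b : Fin 2), [a, b].Nodup → ∀ (i : Fin 2) (s0 : Bool),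
    fin dstep s0 (sw [a, b] ![[⟨0, o, s⟩, ⟨1, o, !s⟩],
      if dir then [⟨0, !o, s⟩, ⟨1, !o, !s⟩] else [⟨1, !o, !s⟩, ⟨0, !o, s⟩]] i) = s0 := by
  decide +kernel

set_option maxRecDepth 100000 in
theorem r1_check : ∀ (o s s0 : Bool),
    loc [0] ![s0] ![[⟨0, o, s⟩, ⟨0, !o, s⟩]] 0 = 0 := by
  decide +kernel

set_option maxRecDepth 100000 in
theorem r1_check_fin : ∀ (o s s0 : Bool) (i : Fin 1),
    fin dstep s0 (sw [0] ![[⟨0, o, s⟩, ⟨0, !o, s⟩]] i) = s0 := by
  decide +kernel

set_option maxRecDepth 100000 in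
theorem tref_check : ∀ (s0 : Bool),
    loc [0] ![s0] ![tref 0 1 2] 0 + loc [0] ![s0] ![tref 0 1 2] 1 +
      loc [0] ![s0] ![tref 0 1 2] 2 = 1 := by
  decide +kernel

set_option maxRecDepth 100000 in
theorem tref_check_fin : ∀ (s0 : Bool) (i : Fin 1),
    fin dstep s0 (sw [0] ![tref 0 1 2] i) = s0 := by
  decide +kernel

end VPass
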