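import Pool.Agent.VPass.Defs

/-!
# Calculus of interchangeable tangles
-/

namespace VPass

open List

section Fill

variable {α : Type*} {k k' : ℕ}

@[simp] lemma fill_nil (t : Fin k → List α) : fill [] t = [] := rfl

@[simp] lemma fill_cons_inl (a : α) (C : List (α ⊕ Fin k)) (t : Fin k → List α) :
    fill (Sum.inl a :: C) t = a :: fill C t := rfl

@[simp] lemma fill_cons_inr (i : Fin k) (C : List (α ⊕ Fin k)) (t : Fin k → List α) :
    fill (Sum.inr i :: C) t = t i ++ fill C t := rfl

@[simp] lemma fill_append (C C' : List (α ⊕ Fin k)) (t : Fin k → List α) :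
    fill (C ++ C') t = fill C t ++ fill C' t := by
  simp [fill]

@[simp] lemma fill_map_inl (w : List α) (t : Fin k → List α) :
    fill (w.map Sum.inl) t = w := by
  induction w with
  | nil => rfl
  | cons a w ih => simp [ih]

@[simp] lemma holes_nil : holes ([] : List (α ⊕ Fin k)) = [] := rfl

@[simp] lemma holes_cons_inl (a : α) (C : List (α ⊕ Fin k)) :
    holes (Sum.inl a :: C) = holes C := by simp [holes]

@[simp] lemma holes_cons_inr (i : Fin k) (C : List (α ⊕ Fin k)) :
    holes (Sum.inr i :: C) = i :: holes C := by simp [holes]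

@[simp] lemma holes_append (C C' : List (α ⊕ Fin k)) :
    holes (C ++ C') = holes C ++ holes C' := by simp [holes]

@[simp] lemma holes_map_inl (w : List α) :
    holes (w.map (Sum.inl : α → α ⊕ Fin k)) = [] := by
  induction w with
  | nil => rfl
  | cons a w ih => simp [ih]

/-- Composition of templates: a template whose holes are filled with templates. -/
def comp (C : List (α ⊕ Fin k')) (D : Fin k' → List (α ⊕ Fin k)) : List (α ⊕ Fin k) :=
  C.flatMap (Sum.elim (fun a => [Sum.inl a]) D)

@[simp] lemma comp_nil (D : Fin k' → List (α ⊕ Fin k)) : comp [] D = [] := rfl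

@[simp] lemma comp_cons_inl (a : α) (C : List (α ⊕ Fin k')) (D : Fin k' → List (α ⊕ Fin k)) :
    comp (Sum.inl a :: C) D = Sum.inl a :: comp C D := rfl

@[simp] lemma comp_cons_inr (i : Fin k') (C : List (α ⊕ Fin k')) (D : Fin k' → List (α ⊕ Fin k)) :
    comp (Sum.inr i :: C) D = D i ++ comp C D := rfl

lemma fill_comp (C : List (α ⊕ Fin k')) (D : Fin k' → List (α ⊕ Fin k)) (t : Fin k → List α) :
    fill (comp C D) t = fill C (fun j => fill (D j) t) := by
  induction C with
  | nil => rfl
  | cons x C ih => cases x <;> simp [ih]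

lemma holes_comp (C : List (α ⊕ Fin k')) (D : Fin k' → List (α ⊕ Fin k)) :
    holes (comp C D) = (holes C).flatMap (fun j => holes (D j)) := by
  induction C with
  | nil => rfl
  | cons x C ih => cases x <;> simp [ih]

lemma mem_comp_inl {C : List (α ⊕ Fin k')} {D : Fin k' → List (α ⊕ Fin k)} {b : α}
    (h : Sum.inl b ∈ comp C D) : Sum.inl b ∈ C ∨ ∃ j, Sum.inl b ∈ D j := by
  induction C with
  | nil => simp at h
  | cons x C ih =>
    cases x with
    | inl a =>
      simp only [comp_cons_inl, mem_cons, Sum.inl.injEq] at h ⊢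
      rcases h with h | h
      · exact Or.inl (Or.inl h)
      · rcases ih h with h | h
        · exact Or.inl (Or.inr h)
        · exact Or.inr h
    | inr i =>
      simp only [comp_cons_inr, mem_append] at h
      rcases h with h | h
      · exact Or.inr ⟨i, h⟩
      · rcases ih h with h | h
        · exact Or.inl (by simp [h])
        · exact Or.inr h

lemma IsTmpl.comp {C : List (α ⊕ Fin k')} (hC : IsTmpl C) {D : Fin k' → List (α ⊕ Fin k)}
    (hD : ((List.finRange k').flatMap (fun j => holes (D j))).Perm (List.finRange k)) :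
    IsTmpl (comp C D) := by
  unfold IsTmpl
  rw [holes_comp]
  exact (hC.flatMap_right _).trans hD

/-- mapping the letters of a template -/
def tmap {β : Type*} (f : α → β) (C : List (α ⊕ Fin k)) : List (β ⊕ Fin k) :=
  C.map (Sum.map f id)

lemma fill_tmap {β : Type*} (f : α → β) (C : List (α ⊕ Fin k)) (t : Fin k → List α) :
    fill (tmap f C) (fun i => (t i).map f) = (fill C t).map f := by
  induction C with
  | nil => rfl
  | cons x C ih =>
    cases x
    · simp only [tmap, map_cons, Sum.map_inl, fill_cons_inl] at ih ⊢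
      rw [ih]
    · simp only [tmap, map_cons, Sum.map_inr, id_eq, fill_cons_inr, map_append] at ih ⊢
      rw [ih]

lemma holes_tmap {β : Type*} (f : α → β) (C : List (α ⊕ Fin k)) :
    holes (tmap f C) = holes C := by
  induction C with
  | nil => rfl
  | cons x C ih => cases x <;> simp_all [tmap]

lemma IsTmpl.tmap {β : Type*} (f : α → β) {C : List (α ⊕ Fin k)} (hC : IsTmpl C) :
    IsTmpl (tmap f C) := by
  unfold IsTmpl; rw [holes_tmap]; exact hC

end Fill

lemma LEq.refl (w : List Ltr) : LEq w w := Relation.EqvGen.refl _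
lemma LEq.symm {w w' : List Ltr} (h : LEq w w') : LEq w' w := Relation.EqvGen.symm _ _ h
lemma LEq.trans {w w' w'' : List Ltr} (h : LEq w w') (h' : LEq w' w'') : LEq w w'' :=
  Relation.EqvGen.trans _ _ _ h h'
lemma LStep.leq {w w' : List Ltr} (h : LStep w w') : LEq w w' := Relation.EqvGen.rel _ _ h

lemma PassEq.refl (w : List Ltr) : PassEq w w := Relation.EqvGen.refl _
lemma PassEq.symm {w w' : List Ltr} (h : PassEq w w') : PassEq w' w := Relation.EqvGen.symm _ _ h
lemma PassEq.trans {w w' w'' : List Ltr} (h : PassEq w w') (h' : PassEq w' w'') : PassEq w w'' :=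
  Relation.EqvGen.trans _ _ _ h h'
lemma LEq.passEq {w w' : List Ltr} (h : LEq w w') : PassEq w w' :=
  Relation.EqvGen.mono (fun _ _ h => Step.long h) _ _ h

lemma LEq.relab {f : ℕ → ℕ} (hf : Function.Injective f) (w : List Ltr) :
    LEq w (w.map (Ltr.relab f)) := (LStep.relab f hf w).leq

@[simp] lemma relab_lab (f : ℕ → ℕ) (a : Ltr) : (a.relab f).lab = f a.lab := rfl

/-- The labels of a family of words are in `S`. -/
def LabIn {k : ℕ} (S : Finset ℕ) (t : Fin k → List Ltr) : Prop := ∀ i, ∀ a ∈ t i, a.lab ∈ S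

/-- The finite set of labels of a family of words. -/
def labs {k : ℕ} (t : Fin k → List Ltr) : Finset ℕ :=
  Finset.univ.biUnion (fun i => ((t i).map Ltr.lab).toFinset)

lemma mem_labs {k : ℕ} {t : Fin k → List Ltr} {c : ℕ} :
    c ∈ labs t ↔ ∃ i, ∃ a ∈ t i, a.lab = c := by
  simp [labs]

lemma labIn_labs {k : ℕ} (t : Fin k → List Ltr) : LabIn (labs t) t := fun i a ha =>
  mem_labs.2 ⟨i, a, ha, rfl⟩

lemma fresh_iff {k : ℕ} {C : List (Ltr ⊕ Fin k)} {t : Fin k → List Ltr} :
    Fresh C t ↔ ∀ b, Sum.inl b ∈ C → b.lab ∉ labs t := by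
  constructor
  · intro h b hb hc
    obtain ⟨i, a, ha, hac⟩ := mem_labs.1 hc
    exact h i a ha b hb hac.symm
  · intro h i a ha b hb e
    exact h b hb (mem_labs.2 ⟨i, a, ha, e.symm⟩)

/-- Two families of words are interchangeable: in every template whose labels are disjoint from
theirs, they give equivalent codes. -/
def TEq {k : ℕ} (t t' : Fin k → List Ltr) : Prop :=
  ∀ C : List (Ltr ⊕ Fin k), IsTmpl C → Fresh C t → Fresh C t' → LEq (fill C t) (fill C t')

lemma TEq.refl {k : ℕ} (t : Fin k → List Ltr) : TEq t t := fun _ _ _ _ => LEq.refl _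
lemma TEq.symm {k : ℕ} {t t' : Fin k → List Ltr} (h : TEq t t') : TEq t' t :=
  fun C hC h1 h2 => (h C hC h2 h1).symm

lemma RMove.teq {k : ℕ} {t t' : Fin k → List Ltr} (h : RMove t t') : TEq t t' :=
  fun _ hC h1 h2 => (LStep.reid hC h1 h2 h).leq
lemma PMove.teq {t t' : Fin 4 → List Ltr} (h : PMove t t') : TEq t t' :=
  fun _ hC h1 h2 => (LStep.pass hC h1 h2 h).leq

/-- The relabelling which is the identity on `S` and adds `M` elsewhere. -/
def shiftOff (S : Finset ℕ) (M : ℕ) (x : ℕ) : ℕ := if x ∈ S then x else x + M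

lemma shiftOff_inj {S : Finset ℕ} {M : ℕ} (h : ∀ x ∈ S, x < M) :
    Function.Injective (shiftOff S M) := by
  intro x y e
  unfold shiftOff at e
  split_ifs at e with h1 h2 h2
  · exact e
  · have := h x h1; omega
  · have := h y h2; omega
  · omega

lemma map_relab_eq {S : Finset ℕ} {f : ℕ → ℕ} (hf : ∀ x ∈ S, f x = x) {w : List Ltr}
    (hw : ∀ a ∈ w, a.lab ∈ S) : w.map (Ltr.relab f) = w := by
  conv_rhs => rw [← List.map_id w]
  apply List.map_congr_left
  intro a ha
  ext <;> simp [Ltr.relab, hf _ (hw a ha)]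

/-- Key lemma: to compare two fillings of a template it is allowed to move the labels of the
template away from any finite set. -/
lemma leq_of_shift {k : ℕ} {t t' : Fin k → List Ltr} {C : List (Ltr ⊕ Fin k)}
    (N : ℕ)
    (H : ∀ M, N ≤ M → (∀ x ∈ labs t ∪ labs t', x < M) →
      LEq (fill (tmap (Ltr.relab (shiftOff (labs t ∪ labs t') M)) C) t)
        (fill (tmap (Ltr.relab (shiftOff (labs t ∪ labs t') M)) C) t')) :
    LEq (fill C t) (fill C t') := by
  set S := labs t ∪ labs t' with hS
  obtain ⟨M, hM⟩ : ∃ M, N ≤ M ∧ ∀ x ∈ S, x < M := by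
    refine ⟨max N (S.sup id + 1), le_max_left _ _, fun x hx => ?_⟩
    have : x ≤ S.sup id := Finset.le_sup (f := id) hx
    exact lt_of_lt_of_le (Nat.lt_succ_of_le this) (le_max_right _ _)
  have hinj := shiftOff_inj hM.2
  have hid : ∀ x ∈ S, shiftOff S M x = x := fun x hx => by simp [shiftOff, hx]
  have e1 : (fill C t).map (Ltr.relab (shiftOff S M)) =
      fill (tmap (Ltr.relab (shiftOff S M)) C) t := by
    rw [← fill_tmap]
    congr 1
    funext i
    exact map_relab_eq hid (fun a ha => Finset.mem_union_left _ (labIn_labs t i a ha))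
  have e2 : (fill C t').map (Ltr.relab (shiftOff S M)) =
      fill (tmap (Ltr.relab (shiftOff S M)) C) t' := by
    rw [← fill_tmap]
    congr 1
    funext i
    exact map_relab_eq hid (fun a ha => Finset.mem_union_right _ (labIn_labs t' i a ha))
  have := H M hM.1 hM.2
  rw [← e1, ← e2] at this
  exact ((LEq.relab hinj _).trans this).trans (LEq.relab hinj _).symm

lemma mem_tmap_inl {k : ℕ} {C : List (Ltr ⊕ Fin k)} {f : Ltr → Ltr} {b : Ltr}
    (h : Sum.inl b ∈ tmap f C) : ∃ a, Sum.inl a ∈ C ∧ f a = b := by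
  unfold tmap at h
  obtain ⟨x, hx, e⟩ := List.mem_map.1 h
  cases x with
  | inl a => exact ⟨a, hx, by simpa using e⟩
  | inr i => simp at e

lemma TEq.trans {k : ℕ} {t t' t'' : Fin k → List Ltr} (h : TEq t t') (h' : TEq t' t'') :
    TEq t t'' := by
  intro C hC h1 h2
  refine leq_of_shift ((labs t').sup id + 1) (fun M hN hM => ?_)
  set S := labs t ∪ labs t''
  have hlab : ∀ b, Sum.inl b ∈ tmap (Ltr.relab (shiftOff S M)) C → M ≤ b.lab := by
    intro b hb
    obtain ⟨a, ha, rfl⟩ := mem_tmap_inl hb
    have : a.lab ∉ S := by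
      simp only [S, Finset.mem_union, not_or]
      exact ⟨fresh_iff.1 h1 a ha, fresh_iff.1 h2 a ha⟩
    simp [shiftOff, this]
  have hT : IsTmpl (tmap (Ltr.relab (shiftOff S M)) C) := hC.tmap _
  have f1 : Fresh (tmap (Ltr.relab (shiftOff S M)) C) t := by
    rw [fresh_iff]; intro b hb hc
    have := hM _ (Finset.mem_union_left _ hc); have := hlab b hb; omega
  have f3 : Fresh (tmap (Ltr.relab (shiftOff S M)) C) t'' := by
    rw [fresh_iff]; intro b hb hc
    have := hM _ (Finset.mem_union_right _ hc); have := hlab b hb; omega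
  have f2 : Fresh (tmap (Ltr.relab (shiftOff S M)) C) t' := by
    rw [fresh_iff]; intro b hb hc
    have h3 : b.lab ≤ (labs t').sup id := Finset.le_sup (f := id) hc
    have := hlab b hb; omega
  exact (h _ hT f1 f2).trans (h' _ hT f2 f3)

/-- Interchangeable families remain so inside larger families. -/
lemma TEq.lift {k k' : ℕ} {s s' : Fin k → List Ltr} (h : TEq s s')
    (D : Fin k' → List (Ltr ⊕ Fin k))
    (hD : ((List.finRange k').flatMap (fun j => holes (D j))).Perm (List.finRange k))
    (h1 : ∀ j, Fresh (D j) s) (h2 : ∀ j, Fresh (D j) s') :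
    TEq (fun j => fill (D j) s) (fun j => fill (D j) s') := by
  intro C hC f1 f2
  rw [← fill_comp, ← fill_comp]
  have hall : ∀ i : Fin k, ∃ j, i ∈ holes (D j) := by
    intro i
    have : i ∈ (List.finRange k').flatMap (fun j => holes (D j)) :=
      hD.mem_iff.2 (List.mem_finRange i)
    obtain ⟨j, _, hj⟩ := List.mem_flatMap.1 this
    exact ⟨j, hj⟩
  have hmem : ∀ (E : List (Ltr ⊕ Fin k)) (u : Fin k → List Ltr) (i : Fin k), i ∈ holes E →
      ∀ a ∈ u i, a ∈ fill E u := by
    intro E u i hi a ha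
    induction E with
    | nil => simp at hi
    | cons x E ih =>
      cases x with
      | inl b => simp only [holes_cons_inl] at hi; simp [ih hi]
      | inr l =>
        simp only [holes_cons_inr, List.mem_cons] at hi
        rcases hi with rfl | hi
        · simp [ha]
        · simp [ih hi]
  apply h _ (hC.comp hD)
  · intro i a ha b hb
    rcases mem_comp_inl hb with hb | ⟨j, hb⟩
    · obtain ⟨j, hj⟩ := hall i
      exact f1 j a (hmem _ _ i hj a ha) b hb
    · exact h1 j i a ha b hb
  · intro i a ha b hb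
    rcases mem_comp_inl hb with hb | ⟨j, hb⟩
    · obtain ⟨j, hj⟩ := hall i
      exact f2 j a (hmem _ _ i hj a ha) b hb
    · exact h2 j i a ha b hb

/-- Version of `TEq.lift` convenient for explicit computations. -/
lemma TEq.lift' {k k' : ℕ} {s s' : Fin k → List Ltr} (h : TEq s s')
    (D : Fin k' → List (Ltr ⊕ Fin k)) (u u' : Fin k' → List Ltr)
    (hD : ((List.finRange k').flatMap (fun j => holes (D j))).Perm (List.finRange k))
    (h1 : ∀ j, Fresh (D j) s) (h2 : ∀ j, Fresh (D j) s')
    (e1 : ∀ j, fill (D j) s = u j) (e2 : ∀ j, fill (D j) s' = u' j) : TEq u u' := by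
  have := h.lift D hD h1 h2
  rwa [funext e1, funext e2] at this

/-- Relabelling of interchangeable families. -/
lemma TEq.relab {k : ℕ} {t t' : Fin k → List Ltr} (h : TEq t t') {f : ℕ → ℕ}
    (hf : Set.InjOn f (labs t ∪ labs t' : Finset ℕ)) :
    TEq (fun i => (t i).map (Ltr.relab f)) (fun i => (t' i).map (Ltr.relab f)) := by
  classical
  intro C hC h1 h2
  set S := labs t ∪ labs t' with hS
  obtain ⟨M, hM⟩ : ∃ M, ∀ x ∈ S, x < M :=
    ⟨S.sup id + 1, fun x hx => Nat.lt_succ_of_le (Finset.le_sup (f := id) hx)⟩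
  -- inverse relabelling
  let g : ℕ → ℕ := fun x => if hx : ∃ i ∈ S, f i = x then hx.choose else x + M
  have hg : ∀ i ∈ S, g (f i) = i := by
    intro i hi
    have hx : ∃ j ∈ S, f j = f i := ⟨i, hi, rfl⟩
    simp only [g, dif_pos hx]
    exact hf (Finset.mem_coe.2 hx.choose_spec.1) (Finset.mem_coe.2 hi) hx.choose_spec.2
  have hgS : ∀ x, (∃ i ∈ S, f i = x) → g x ∈ S := by
    rintro x ⟨i, hi, rfl⟩; rw [hg i hi]; exact hi
  have hgn : ∀ x, (¬ ∃ i ∈ S, f i = x) → g x = x + M := by
    intro x hx; simp only [g, dif_neg hx]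
  have hinj : Function.Injective g := by
    intro x y e
    by_cases hx : ∃ i ∈ S, f i = x
    · obtain ⟨i, hi, rfl⟩ := hx
      by_cases hy : ∃ i ∈ S, f i = y
      · obtain ⟨j, hj, rfl⟩ := hy
        rw [hg i hi, hg j hj] at e; rw [e]
      · rw [hg i hi, hgn y hy] at e
        have := hM i hi; omega
    · by_cases hy : ∃ i ∈ S, f i = y
      · obtain ⟨j, hj, rfl⟩ := hy
        rw [hg j hj, hgn x hx] at e
        have := hM j hj; omega
      · rw [hgn x hx, hgn y hy] at e; omega
  have key : ∀ u : Fin k → List Ltr, (∀ c ∈ labs u, c ∈ S) →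
      (fill C (fun i => (u i).map (Ltr.relab f))).map (Ltr.relab g) =
        fill (tmap (Ltr.relab g) C) u := by
    intro u hu
    rw [← fill_tmap]
    congr 1
    funext i
    rw [List.map_map]
    conv_rhs => rw [← List.map_id (u i)]
    apply List.map_congr_left
    intro a ha
    have : a.lab ∈ S := hu _ (labIn_labs u i a ha)
    ext <;> simp [Ltr.relab, hg _ this]
  have k1 := key t (fun c hc => Finset.mem_union_left _ hc)
  have k2 := key t' (fun c hc => Finset.mem_union_right _ hc)
  have hCl : ∀ b, Sum.inl b ∈ C → (¬ ∃ i ∈ S, f i = b.lab) := by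
    rintro b hb ⟨i, hi, e⟩
    rcases Finset.mem_union.1 hi with hi | hi
    · obtain ⟨j, a, ha, rfl⟩ := mem_labs.1 hi
      exact h1 j (a.relab f) (List.mem_map.2 ⟨a, ha, rfl⟩) b hb e.symm
    · obtain ⟨j, a, ha, rfl⟩ := mem_labs.1 hi
      exact h2 j (a.relab f) (List.mem_map.2 ⟨a, ha, rfl⟩) b hb e.symm
  have hlab : ∀ b, Sum.inl b ∈ tmap (Ltr.relab g) C → M ≤ b.lab := by
    intro b hb
    obtain ⟨a, ha, rfl⟩ := mem_tmap_inl hb
    simp only [relab_lab, hgn _ (hCl a ha)]; omega
  have f1 : Fresh (tmap (Ltr.relab g) C) t := by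
    rw [fresh_iff]; intro b hb hc
    have := hM _ (Finset.mem_union_left _ hc); have := hlab b hb; omega
  have f2 : Fresh (tmap (Ltr.relab g) C) t' := by
    rw [fresh_iff]; intro b hb hc
    have := hM _ (Finset.mem_union_right _ hc); have := hlab b hb; omega
  have := h _ (hC.tmap _) f1 f2
  rw [← k1, ← k2] at this
  exact ((LEq.relab hinj _).trans this).trans (LEq.relab hinj _).symm

/-- Equivalent codes remain equivalent after adding a word in front whose labels are disjoint. -/
lemma LEq.map_relab {w w' : List Ltr} (h : LEq w w') {f : ℕ → ℕ} (hf : Function.Injective f) :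
    LEq (w.map (Ltr.relab f)) (w'.map (Ltr.relab f)) :=
  ((LEq.relab hf w).symm.trans h).trans (LEq.relab hf w')

/-- The word of a local right-handed trefoil. -/
def tref (a b c : ℕ) : List Ltr :=
  [⟨a, true, true⟩, ⟨b, false, true⟩, ⟨c, true, true⟩, ⟨a, false, true⟩, ⟨b, true, true⟩,
    ⟨c, false, true⟩]

/-- Switching a crossing. -/
def Ltr.flip (a : Ltr) : Ltr := ⟨a.lab, !a.ov, !a.pos⟩

/-- The leg of a clasp on its first strand; `t` is the side of the second strand on which the clasp
is (`true` = left), `σ` is the sign of the two crossings `d`, `e` of the clasp; the flat arrow of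
`d` goes from the first to the second strand, that of `e` from the second to the first. -/
def legP (d e : ℕ) (t σ : Bool) : List Ltr :=
  if t then [⟨d, σ, σ⟩, ⟨e, !σ, σ⟩] else [⟨e, !σ, σ⟩, ⟨d, σ, σ⟩]

/-- The leg of a clasp on its second strand; `s` is the side of the first strand. -/
def legQ (d e : ℕ) (s σ : Bool) : List Ltr :=
  if s then [⟨e, σ, σ⟩, ⟨d, !σ, σ⟩] else [⟨d, !σ, σ⟩, ⟨e, σ, σ⟩]

end VPass
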