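import Pool.Agent.VPass.Basic

/-!
# Gauss codes are preserved by the moves

MODULE Code.  `ctx C` = the letters of the template.  If every crossing of `t` has exactly two
letters, forming a pair in whatever order the words are read (`Balanced`), and the labels of `C` are
fresh, then `fill C t` is a Gauss code iff `ctx C` is: for a label of `t` the filtered list is
`(holes C).flatMap (filter of t i)`, for the others it is the filter of `ctx C`.
All words of `RMove` and `PMove` are balanced (finite check over the permutations of `finRange k`;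
for `r3`, `pass` use injectivity of `c`).
-/

namespace VPass

/-- The letters of a template. -/
def ctx {α : Type*} {k : ℕ} (C : List (α ⊕ Fin k)) : List α := C.filterMap Sum.getLeft?

def Balanced {k : ℕ} (t : Fin k → List Ltr) : Prop :=
  ∀ c ∈ labs t, ∀ l : List (Fin k), l.Perm (List.finRange k) →
    ∃ o s, l.flatMap (fun i => (t i).filter (fun a => a.lab = c)) = [⟨c, o, s⟩, ⟨c, !o, s⟩]

@[simp] lemma code_ctx_nil {α : Type*} {k : ℕ} : ctx ([] : List (α ⊕ Fin k)) = [] := rfl

@[simp] lemma code_ctx_cons_inl {α : Type*} {k : ℕ} (a : α) (C : List (α ⊕ Fin k)) :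
    ctx (Sum.inl a :: C) = a :: ctx C := by simp [ctx]

@[simp] lemma code_ctx_cons_inr {α : Type*} {k : ℕ} (i : Fin k) (C : List (α ⊕ Fin k)) :
    ctx (Sum.inr i :: C) = ctx C := by simp [ctx]

lemma code_filter_fill_none {k : ℕ} (C : List (Ltr ⊕ Fin k)) (t : Fin k → List Ltr) (p : Ltr → Bool)
    (h : ∀ i, (t i).filter p = []) : (fill C t).filter p = (ctx C).filter p := by
  induction C with
  | nil => rfl
  | cons x C ih =>
    cases x with
    | inl a =>
      rw [fill_cons_inl, code_ctx_cons_inl, List.filter_cons, List.filter_cons, ih]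
    | inr i =>
      rw [fill_cons_inr, code_ctx_cons_inr, List.filter_append, h i, List.nil_append, ih]

lemma code_filter_fill_all {k : ℕ} (C : List (Ltr ⊕ Fin k)) (t : Fin k → List Ltr) (p : Ltr → Bool)
    (h : ∀ b, Sum.inl b ∈ C → p b = false) :
    (fill C t).filter p = (holes C).flatMap (fun i => (t i).filter p) ∧
      (ctx C).filter p = [] := by
  induction C with
  | nil => exact ⟨rfl, rfl⟩
  | cons x C ih =>
    have ih' := ih (fun b hb => h b (List.mem_cons_of_mem _ hb))
    cases x with
    | inl a =>
      have ha : p a = false := h a List.mem_cons_self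
      rw [fill_cons_inl, code_ctx_cons_inl, holes_cons_inl, List.filter_cons, List.filter_cons, ih'.1,
        ih'.2, ha]
      exact ⟨rfl, rfl⟩
    | inr i =>
      rw [fill_cons_inr, code_ctx_cons_inr, holes_cons_inr, List.filter_append, ih'.1, ih'.2]
      exact ⟨rfl, rfl⟩

theorem isCode_fill_iff {k : ℕ} {C : List (Ltr ⊕ Fin k)} {t : Fin k → List Ltr} (hC : IsTmpl C)
    (h : Fresh C t) (hb : Balanced t) : IsCode (fill C t) ↔ IsCode (ctx C) := by
  have hfresh := fresh_iff.1 h
  have h1 : ∀ c, c ∈ labs t → (fill C t).filter (fun a => a.lab = c) =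
      (holes C).flatMap (fun i => (t i).filter (fun a => a.lab = c)) ∧
      (ctx C).filter (fun a => a.lab = c) = [] := by
    intro c hc
    apply code_filter_fill_all
    intro b hb'
    simp only [decide_eq_false_iff_not]
    rintro rfl
    exact hfresh b hb' hc
  have h2 : ∀ c, c ∉ labs t → (fill C t).filter (fun a => a.lab = c) =
      (ctx C).filter (fun a => a.lab = c) := by
    intro c hc
    apply code_filter_fill_none
    intro i
    rw [List.filter_eq_nil_iff]
    intro a ha
    simp only [decide_eq_true_eq]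
    intro e
    exact hc (mem_labs.2 ⟨i, a, ha, e⟩)
  constructor
  · intro H c
    by_cases hc : c ∈ labs t
    · exact Or.inl (h1 c hc).2
    · rw [← h2 c hc]; exact H c
  · intro H c
    by_cases hc : c ∈ labs t
    · right
      rw [(h1 c hc).1]
      exact hb c hc _ hC
    · rw [h2 c hc]; exact H c

lemma code_flatMap_eq_nil {k : ℕ} {β : Type*} (l : List (Fin k)) (f : Fin k → List β)
    (h : ∀ m ∈ l, f m = []) : l.flatMap f = [] := by
  rw [List.flatMap_eq_nil_iff]; exact h

lemma code_flatMap_pair {k : ℕ} {β : Type*} (l : List (Fin k)) (hl : l.Perm (List.finRange k))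
    (f : Fin k → List β) {i j : Fin k} (hij : i ≠ j) {a b : β} (hi : f i = [a]) (hj : f j = [b])
    (h0 : ∀ m, m ≠ i → m ≠ j → f m = []) : l.flatMap f = [a, b] ∨ l.flatMap f = [b, a] := by
  have hnd : l.Nodup := hl.nodup_iff.2 (List.nodup_finRange k)
  have hmi : i ∈ l := hl.mem_iff.2 (List.mem_finRange i)
  have hmj : j ∈ l := hl.mem_iff.2 (List.mem_finRange j)
  obtain ⟨s, t, rfl⟩ := List.append_of_mem hmi
  rw [List.nodup_append] at hnd
  obtain ⟨hs, ht, hst⟩ := hnd
  have his : i ∉ s := fun h => hst i h i List.mem_cons_self rfl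
  rw [List.nodup_cons] at ht
  rcases List.mem_append.1 hmj with hj' | hj'
  · right
    obtain ⟨s1, s2, rfl⟩ := List.append_of_mem hj'
    rw [List.nodup_append] at hs
    obtain ⟨hs1, hs2, hs12⟩ := hs
    rw [List.nodup_cons] at hs2
    have e1 : s1.flatMap f = [] := code_flatMap_eq_nil _ _ (fun m hm => h0 m
      (fun e => his (by rw [← e]; exact List.mem_append_left _ hm))
      (fun e => hs12 m hm j List.mem_cons_self e))
    have e2 : s2.flatMap f = [] := code_flatMap_eq_nil _ _ (fun m hm => h0 m
      (fun e => his (by rw [← e]; exact List.mem_append_right _ (List.mem_cons_of_mem _ hm)))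
      (fun e => hs2.1 (by rw [← e]; exact hm)))
    have e3 : t.flatMap f = [] := code_flatMap_eq_nil _ _ (fun m hm => h0 m
      (fun e => ht.1 (by rw [← e]; exact hm))
      (fun e => hst j hj' m (List.mem_cons_of_mem _ hm) e.symm))
    simp [List.flatMap_append, List.flatMap_cons, e1, e2, e3, hi, hj]
  · left
    have hj'' : j ∈ t := by
      rcases List.mem_cons.1 hj' with h | h
      · exact absurd h.symm hij
      · exact h
    obtain ⟨t1, t2, rfl⟩ := List.append_of_mem hj''
    have htn := ht.2
    rw [List.nodup_append] at htn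
    obtain ⟨hs1, hs2, hs12⟩ := htn
    rw [List.nodup_cons] at hs2
    have e1 : s.flatMap f = [] := code_flatMap_eq_nil _ _ (fun m hm => h0 m
      (fun e => his (by rw [← e]; exact hm))
      (fun e => hst m hm j hj' e))
    have e2 : t1.flatMap f = [] := code_flatMap_eq_nil _ _ (fun m hm => h0 m
      (fun e => ht.1 (by rw [← e]; exact List.mem_append_left _ hm))
      (fun e => hs12 m hm j List.mem_cons_self e))
    have e3 : t2.flatMap f = [] := code_flatMap_eq_nil _ _ (fun m hm => h0 m
      (fun e => ht.1 (by rw [← e]; exact List.mem_append_right _ (List.mem_cons_of_mem _ hm)))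
      (fun e => hs2.1 (by rw [← e]; exact hm)))
    simp [List.flatMap_append, List.flatMap_cons, e1, e2, e3, hi, hj]

lemma code_flatMap_single {k : ℕ} {β : Type*} (l : List (Fin k)) (hl : l.Perm (List.finRange k))
    (f : Fin k → List β) {i : Fin k} (h0 : ∀ m, m ≠ i → f m = []) : l.flatMap f = f i := by
  have hnd : l.Nodup := hl.nodup_iff.2 (List.nodup_finRange k)
  have hmi : i ∈ l := hl.mem_iff.2 (List.mem_finRange i)
  obtain ⟨s, t, rfl⟩ := List.append_of_mem hmi
  rw [List.nodup_append] at hnd
  obtain ⟨hs, ht, hst⟩ := hnd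
  rw [List.nodup_cons] at ht
  have e1 : s.flatMap f = [] := code_flatMap_eq_nil _ _ (fun m hm => h0 m
    (fun e => hst m hm i List.mem_cons_self e))
  have e2 : t.flatMap f = [] := code_flatMap_eq_nil _ _ (fun m hm => h0 m
    (fun e => ht.1 (by rw [← e]; exact hm)))
  simp [List.flatMap_append, List.flatMap_cons, e1, e2]

lemma balanced_of_pairs {k : ℕ} {t : Fin k → List Ltr}
    (H : ∀ c ∈ labs t, ∃ i j : Fin k, ∃ o s, i ≠ j ∧
      (t i).filter (fun a => a.lab = c) = [⟨c, o, s⟩] ∧
      (t j).filter (fun a => a.lab = c) = [⟨c, !o, s⟩] ∧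
      ∀ m, m ≠ i → m ≠ j → (t m).filter (fun a => a.lab = c) = []) : Balanced t := by
  intro c hc l hl
  obtain ⟨i, j, o, s, hij, hi, hj, h0⟩ := H c hc
  rcases code_flatMap_pair l hl (fun i => (t i).filter (fun a => a.lab = c)) hij hi hj h0 with h | h
  · exact ⟨o, s, h⟩
  · refine ⟨!o, s, ?_⟩
    rw [Bool.not_not]
    exact h

lemma code_balanced_nil {k : ℕ} {t : Fin k → List Ltr} (h : ∀ i, t i = []) : Balanced t := by
  intro c hc
  obtain ⟨i, a, ha, _⟩ := mem_labs.1 hc
  rw [h i] at ha
  simp at ha

lemma code_fin3_ne_succ (j : Fin 3) : j ≠ j + 1 := by revert j; decide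

lemma triWord_filter {c : Fin 3 → ℕ} (hc : Function.Injective c) (o ov : Fin 3 → Bool)
    (i j : Fin 3) : (triWord c o ov i).filter (fun a => a.lab = c j) =
      (if i = j then [⟨c j, ov j, triPos o ov j⟩]
        else if i = j + 1 then [⟨c j, !(ov j), triPos o ov j⟩] else []) := by
  have h01 : c 0 ≠ c 1 := fun h => absurd (hc h) (by decide)
  have h02 : c 0 ≠ c 2 := fun h => absurd (hc h) (by decide)
  have h12 : c 1 ≠ c 2 := fun h => absurd (hc h) (by decide)
  have e02 : (0 : Fin 3) + 2 = 2 := rfl
  have e12 : (1 : Fin 3) + 2 = 0 := rfl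
  have e22 : (2 : Fin 3) + 2 = 1 := rfl
  have e01 : (0 : Fin 3) + 1 = 1 := rfl
  have e11 : (1 : Fin 3) + 1 = 2 := rfl
  have e21 : (2 : Fin 3) + 1 = 0 := rfl
  fin_cases i <;> fin_cases j <;>
    simp only [triWord, Fin.zero_eta, Fin.mk_one, Fin.reduceFinMk, Fin.isValue, e02, e12, e22,
      e01, e11, e21] <;>
    split_ifs <;>
    simp_all [h01.symm, h02.symm, h12.symm]

lemma triWord_mem {c : Fin 3 → ℕ} {o ov : Fin 3 → Bool} {i : Fin 3} {a : Ltr}
    (h : a ∈ triWord c o ov i) : ∃ j, a.lab = c j := by
  unfold triWord at h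
  simp only at h
  split_ifs at h
  · simp only [List.mem_cons, List.not_mem_nil, or_false] at h
    rcases h with rfl | rfl
    · exact ⟨_, rfl⟩
    · exact ⟨_, rfl⟩
  · simp only [List.mem_cons, List.not_mem_nil, or_false] at h
    rcases h with rfl | rfl
    · exact ⟨_, rfl⟩
    · exact ⟨_, rfl⟩

lemma tri_balanced {c : Fin 3 → ℕ} (hc : Function.Injective c) (o ov : Fin 3 → Bool) :
    Balanced (triWord c o ov) := by
  apply balanced_of_pairs
  intro c' hc'
  obtain ⟨i, a, ha, rfl⟩ := mem_labs.1 hc'
  obtain ⟨j, hj⟩ := triWord_mem ha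
  rw [hj]
  refine ⟨j, j + 1, ov j, triPos o ov j, ?_, ?_, ?_, ?_⟩
  · exact code_fin3_ne_succ j
  · rw [triWord_filter hc, if_pos rfl]
  · rw [triWord_filter hc, if_neg (code_fin3_ne_succ j).symm, if_pos rfl]
  · intro m h1 h2
    rw [triWord_filter hc, if_neg h1, if_neg h2]

lemma tri_balanced_rev {c : Fin 3 → ℕ} (hc : Function.Injective c) (o ov : Fin 3 → Bool) :
    Balanced (fun i => (triWord c o ov i).reverse) := by
  apply balanced_of_pairs
  intro c' hc'
  obtain ⟨i, a, ha, rfl⟩ := mem_labs.1 hc'
  obtain ⟨j, hj⟩ := triWord_mem (List.mem_reverse.1 ha)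
  rw [hj]
  refine ⟨j, j + 1, ov j, triPos o ov j, ?_, ?_, ?_, ?_⟩
  · exact code_fin3_ne_succ j
  · rw [List.filter_reverse, triWord_filter hc, if_pos rfl]; rfl
  · rw [List.filter_reverse, triWord_filter hc, if_neg (code_fin3_ne_succ j).symm, if_pos rfl]; rfl
  · intro m h1 h2
    rw [List.filter_reverse, triWord_filter hc, if_neg h1, if_neg h2]; rfl

theorem RMove.balanced {k : ℕ} {t t' : Fin k → List Ltr} (h : RMove t t') :
    Balanced t ∧ Balanced t' := by
  cases h with
  | r1 c o s =>
    refine ⟨?_, code_balanced_nil (fun i => by fin_cases i; rfl)⟩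
    intro c' hc' l hl
    obtain ⟨i, a, ha, rfl⟩ := mem_labs.1 hc'
    fin_cases i
    have hac : a.lab = c := by
      simp only [Fin.zero_eta, Fin.isValue, Matrix.cons_val_fin_one, List.mem_cons,
        List.not_mem_nil, or_false] at ha
      rcases ha with rfl | rfl <;> rfl
    rw [hac]
    refine ⟨o, s, ?_⟩
    rw [code_flatMap_single (i := 0) l hl _ (fun m hm => absurd (Subsingleton.elim m 0) hm)]
    simp
  | r2 c d h o s dir =>
    refine ⟨?_, code_balanced_nil (fun i => by fin_cases i <;> rfl)⟩
    apply balanced_of_pairs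
    intro c' hc'
    have hcd : c' = c ∨ c' = d := by
      obtain ⟨i, a, ha, rfl⟩ := mem_labs.1 hc'
      fin_cases i <;> cases dir <;> simp at ha <;> rcases ha with rfl | rfl <;> simp
    rcases hcd with rfl | rfl
    · refine ⟨0, 1, o, s, by decide, ?_, ?_, ?_⟩
      · simp [h.symm]
      · cases dir <;> simp [h.symm]
      · intro m h1 h2; fin_cases m <;> simp_all
    · refine ⟨0, 1, o, !s, by decide, ?_, ?_, ?_⟩
      · simp [h]
      · cases dir <;> simp [h]
      · intro m h1 h2; fin_cases m <;> simp_all
  | r3 c hc o ov h => exact ⟨tri_balanced hc o ov, tri_balanced_rev hc o ov⟩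

lemma pass_balanced {c : Fin 4 → ℕ} (hc : Function.Injective c) (up left above : Bool) :
    Balanced (passWord c up left above) := by
  have h01 : c 0 ≠ c 1 := fun h => absurd (hc h) (by decide)
  have h02 : c 0 ≠ c 2 := fun h => absurd (hc h) (by decide)
  have h03 : c 0 ≠ c 3 := fun h => absurd (hc h) (by decide)
  have h12 : c 1 ≠ c 2 := fun h => absurd (hc h) (by decide)
  have h13 : c 1 ≠ c 3 := fun h => absurd (hc h) (by decide)
  have h23 : c 2 ≠ c 3 := fun h => absurd (hc h) (by decide)
  apply balanced_of_pairs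
  intro c' hc'
  have hj : ∃ j, c' = c j := by
    obtain ⟨i, a, ha, rfl⟩ := mem_labs.1 hc'
    fin_cases i <;> cases left <;> cases above <;> simp [passWord] at ha <;>
      rcases ha with rfl | rfl <;> exact ⟨_, rfl⟩
  obtain ⟨j, rfl⟩ := hj
  fin_cases j
  · refine ⟨0, 2, up, up, by decide, ?_, ?_, ?_⟩
    · cases left <;> simp [passWord, h01.symm, h02.symm, h03.symm]
    · cases above <;> simp [passWord, h01.symm, h02.symm, h03.symm]
    · intro m h1 h2
      fin_cases m <;> cases left <;> cases above <;>
        simp_all [passWord, h01.symm, h02.symm, h03.symm]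
  · refine ⟨0, 3, up, !up, by decide, ?_, ?_, ?_⟩
    · cases left <;> simp [passWord, h01, h12.symm, h13.symm]
    · cases above <;> simp [passWord, h01, h12.symm, h13.symm]
    · intro m h1 h2
      fin_cases m <;> cases left <;> cases above <;>
        simp_all [passWord, h01, h12.symm, h13.symm]
  · refine ⟨1, 3, up, up, by decide, ?_, ?_, ?_⟩
    · cases left <;> simp [passWord, h02, h12, h23.symm]
    · cases above <;> simp [passWord, h02, h12, h23.symm]
    · intro m h1 h2
      fin_cases m <;> cases left <;> cases above <;>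
        simp_all [passWord, h02, h12, h23.symm]
  · refine ⟨1, 2, up, !up, by decide, ?_, ?_, ?_⟩
    · cases left <;> simp [passWord, h03, h13, h23]
    · cases above <;> simp [passWord, h03, h13, h23]
    · intro m h1 h2
      fin_cases m <;> cases left <;> cases above <;>
        simp_all [passWord, h03, h13, h23]

theorem PMove.balanced {t t' : Fin 4 → List Ltr} (h : PMove t t') :
    Balanced t ∧ Balanced t' := by
  cases h with
  | pass c hc up left above => exact ⟨pass_balanced hc _ _ _, pass_balanced hc _ _ _⟩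

lemma code_filter_relab {f : ℕ → ℕ} (hf : Function.Injective f) (w : List Ltr) (c : ℕ) :
    (w.map (Ltr.relab f)).filter (fun a => a.lab = f c) =
      (w.filter (fun a => a.lab = c)).map (Ltr.relab f) := by
  rw [List.filter_map]
  congr 1
  apply List.filter_congr
  intro a _
  simp [hf.eq_iff]

lemma isCode_relab_iff {f : ℕ → ℕ} (hf : Function.Injective f) (w : List Ltr) :
    IsCode w ↔ IsCode (w.map (Ltr.relab f)) := by
  constructor
  · intro H c
    by_cases hc : ∃ c0, f c0 = c
    · obtain ⟨c0, rfl⟩ := hc
      rw [code_filter_relab hf]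
      rcases H c0 with h | ⟨o, s, h⟩
      · left; rw [h]; rfl
      · right; rw [h]; exact ⟨o, s, rfl⟩
    · left
      rw [List.filter_eq_nil_iff]
      intro a ha
      obtain ⟨b, _, rfl⟩ := List.mem_map.1 ha
      simp only [relab_lab, decide_eq_true_eq]
      exact fun e => hc ⟨_, e⟩
  · intro H c
    rcases H (f c) with h | ⟨o, s, h⟩
    · left
      rw [code_filter_relab hf] at h
      exact List.map_eq_nil_iff.1 h
    · right
      rw [code_filter_relab hf] at h
      refine ⟨o, s, ?_⟩
      have hinj : Function.Injective (Ltr.relab f) := by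
        intro a b e
        have h1 : f a.lab = f b.lab := congrArg Ltr.lab e
        have h2 : a.ov = b.ov := by
          have : (Ltr.relab f a).ov = (Ltr.relab f b).ov := by rw [e]
          exact this
        have h3 : a.pos = b.pos := by
          have : (Ltr.relab f a).pos = (Ltr.relab f b).pos := by rw [e]
          exact this
        exact Ltr.ext (hf h1) h2 h3
      apply hinj.list_map
      rw [h]; rfl

lemma LStep.isCode_iff {w w' : List Ltr} (h : LStep w w') : IsCode w ↔ IsCode w' := by
  cases h with
  | reid hC h h' m =>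
    rw [isCode_fill_iff hC h m.balanced.1, isCode_fill_iff hC h' m.balanced.2]
  | pass hC h h' m =>
    rw [isCode_fill_iff hC h m.balanced.1, isCode_fill_iff hC h' m.balanced.2]
  | relab f hf w => exact isCode_relab_iff hf w

theorem LEq.isCode_iff {w w' : List Ltr} (h : LEq w w') : IsCode w ↔ IsCode w' := by
  induction h with
  | rel _ _ h => exact h.isCode_iff
  | refl _ => exact Iff.rfl
  | symm _ _ _ ih => exact ih.symm
  | trans _ _ _ _ _ ih1 ih2 => exact ih1.trans ih2

lemma isCode_rot_iff (a : Ltr) (w : List Ltr) : IsCode (a :: w) ↔ IsCode (w ++ [a]) := by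
  apply forall_congr'
  intro c
  by_cases hc : a.lab = c
  · have e1 : (a :: w).filter (fun a => a.lab = c) = a :: w.filter (fun a => a.lab = c) := by
      simp [List.filter_cons, hc]
    have e2 : (w ++ [a]).filter (fun a => a.lab = c) = w.filter (fun a => a.lab = c) ++ [a] := by
      simp [List.filter_append, hc]
    rw [e1, e2]
    constructor
    · rintro (h | ⟨o, s, h⟩)
      · simp at h
      · right
        rw [List.cons.injEq] at h
        refine ⟨!o, s, ?_⟩
        rw [h.2, h.1, Bool.not_not]; rfl
    · rintro (h | ⟨o, s, h⟩)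
      · simp at h
      · right
        have e : ([⟨c, o, s⟩, ⟨c, !o, s⟩] : List Ltr) = [⟨c, o, s⟩] ++ [⟨c, !o, s⟩] := rfl
        rw [e] at h
        have h' := List.append_inj' h rfl
        refine ⟨!o, s, ?_⟩
        rw [h'.1, Bool.not_not]
        rw [List.cons.injEq] at h'
        rw [h'.2.1]
  · have e1 : (a :: w).filter (fun a => a.lab = c) = w.filter (fun a => a.lab = c) := by
      simp [List.filter_cons, hc]
    have e2 : (w ++ [a]).filter (fun a => a.lab = c) = w.filter (fun a => a.lab = c) := by
      simp [List.filter_append, hc]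
    rw [e1, e2]

theorem PassEq.isCode_iff {w w' : List Ltr} (h : PassEq w w') : IsCode w ↔ IsCode w' := by
  induction h with
  | rel _ _ h =>
    cases h with
    | long h => exact h.isCode_iff
    | rot a w => exact isCode_rot_iff a w
  | refl _ => exact Iff.rfl
  | symm _ _ _ ih => exact ih.symm
  | trans _ _ _ _ _ ih1 ih2 => exact ih1.trans ih2

end VPass
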