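import Pool.Agent.VPass.Defs

/-!
# Decorated flat diagrams

The objects of the classification: a based flat Gauss diagram together with a cycle modulo 2 on its
underlying curve (an element of the first homology of the Carter surface) and a bit.

A cycle is a function on the edges of the diagram (the arcs between consecutive letters) with values
in `Bool`; it jumps at both letters of a crossing or at none of them.  It is given by its value `h`
on the base edge and by the marks of the letters (`mark = true`: the cycle jumps).
-/

namespace VPass

/-- Local sums over the crossings: the letters are read from left to right while a state is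
updated; `scan` lists the letters together with the state before them. -/
def scan {σ α : Type*} (δ : σ → α → σ) : σ → List α → List (σ × α)
  | _, [] => []
  | s, a :: w => (s, a) :: scan δ (δ s a) w

/-- The final state. -/
def fin {σ α : Type*} (δ : σ → α → σ) (s : σ) (w : List α) : σ := w.foldl δ s

/-- The sum over all labels `c` of the value of `φ` on the list of the letters with label `c`. -/
def lsum {σ α : Type*} (lab : α → ℕ) (δ : σ → α → σ) (φ : List (σ × α) → ZMod 2) (s : σ)
    (w : List α) : ZMod 2 :=
  ∑ c ∈ (w.map lab).toFinset, φ ((scan δ s w).filter (fun x => lab x.2 = c))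

/-- A boolean as an element of `ZMod 2`. -/
def bz (b : Bool) : ZMod 2 := if b then 1 else 0

/-- The update of the value of the cycle of a decorated flat code. -/
def dstep (h : Bool) (a : DLtr) : Bool := xor h a.mark

/-- The contribution of a crossing, with letters `x`, `y` in this order, to the Arf bit; the first
components are the values of the cycle before the letters. -/
def arfφ : List (Bool × DLtr) → ZMod 2
  | [x, y] =>
    if x.2.mark then
      (if x.2.tail then bz (!x.1 && !y.1) else bz (x.1 && y.1))
    else bz (!x.1 && y.1)
  | _ => 0

/-- The Arf bit of a decorated flat code (value `false` of the cycle on the base edge). -/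
def arf (w : List DLtr) : ZMod 2 := lsum DLtr.lab dstep arfφ false w

/-- The update for two cycles on the same flat code; the second cycle has the marks `a.2`. -/
def dstep2 (s : Bool × Bool) (a : DLtr × Bool) : Bool × Bool := (xor s.1 a.1.mark, xor s.2 a.2)

/-- The contribution of a crossing to the intersection number of two cycles: `x` is the letter of
the tail strand, `y` that of the head strand; it is
`H(head, after) G(tail, after) + H(tail, before) G(head, before)`. -/
def dotPair (x y : (Bool × Bool) × (DLtr × Bool)) : ZMod 2 :=
  bz (xor y.1.1 y.2.1.mark && xor x.1.2 x.2.2) + bz (x.1.1 && y.1.2)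

def dotφ : List ((Bool × Bool) × (DLtr × Bool)) → ZMod 2
  | [x, y] => if x.2.1.tail then dotPair x y else dotPair y x
  | _ => 0

/-- The intersection number modulo 2 of the cycles given by the marks of `w` and the value `h` on
the base edge, and by the marks `m` and the value `g`. -/
def dot (w : List DLtr) (h : Bool) (m : DLtr → Bool) (g : Bool) : ZMod 2 :=
  lsum (fun a : DLtr × Bool => a.1.lab) dstep2 dotφ (h, g) (w.map (fun a => (a, m a)))

/-- The word of strand `i` of a flat triangle, as in `triWord`, with arbitrary marks. -/
def triDWord (c : Fin 3 → ℕ) (o m : Fin 3 → Bool) (i : Fin 3) : List DLtr :=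
  let p : DLtr := ⟨c (i + 2), !(o (i + 2) == o i), m (i + 2)⟩
  let n : DLtr := ⟨c i, o i == o (i + 1), m i⟩
  if o i then [p, n] else [n, p]

/-- The flat Reidemeister moves.  The cycle does not turn at the crossings which are created or
removed, and the third move has no condition on heights. -/
inductive FMove : {k : ℕ} → (Fin k → List DLtr) → (Fin k → List DLtr) → Prop
  | r1 (c : ℕ) (t : Bool) : FMove (k := 1) ![[⟨c, t, false⟩, ⟨c, !t, false⟩]] ![[]]
  | r2 (c d : ℕ) (h : c ≠ d) (t dir : Bool) :
      FMove (k := 2)
        ![[⟨c, t, false⟩, ⟨d, !t, false⟩],
          if dir then [⟨c, !t, false⟩, ⟨d, t, false⟩] else [⟨d, t, false⟩, ⟨c, !t, false⟩]]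
        ![[], []]
  | r3 (c : Fin 3 → ℕ) (hc : Function.Injective c) (o m : Fin 3 → Bool) :
      FMove (triDWord c o m) (fun i => (triDWord c o m i).reverse)

def DFresh {k : ℕ} (C : List (DLtr ⊕ Fin k)) (t : Fin k → List DLtr) : Prop :=
  ∀ i, ∀ a ∈ t i, ∀ b, Sum.inl b ∈ C → b.lab ≠ a.lab

/-- A letter of a flat code together with the colours of the two sides of the edge before it and
of the edge after it. -/
structure CLtr where
  a : DLtr
  inL : Bool
  inR : Bool
  outL : Bool
  outR : Bool
deriving DecidableEq

/-- The colours are constant at the four corners of a crossing with tail letter `x` and head letter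
`y`. -/
def CornerOK (x y : CLtr) : Prop :=
  x.outL = y.outR ∧ y.outL = x.inL ∧ x.inR = y.inL ∧ y.inR = x.outR

/-- A colouring of the faces (the components of the boundary of a neighbourhood of the curve), given
by the colours of the two sides of all edges. -/
def IsColouring (A : List CLtr) : Prop :=
  List.IsChain (fun x y => x.outL = y.inL ∧ x.outR = y.inR) (A ++ A.take 1) ∧
  ∀ x ∈ A, ∀ y ∈ A, x.a.lab = y.a.lab → x.a.tail = true → y.a.tail = false → CornerOK x y

/-- The boundary of the coloured faces turns at the letter. -/
def CLtr.jump (x : CLtr) : Bool := xor (xor x.inL x.inR) (xor x.outL x.outR)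

/-- The decoration after adding the boundary of the coloured faces to the cycle. -/
def CLtr.add (x : CLtr) : DLtr := ⟨x.a.lab, x.a.tail, xor x.a.mark x.jump⟩

/-- The value of the boundary of the coloured faces on the base edge. -/
def baseVal : List CLtr → Bool
  | [] => false
  | x :: _ => xor x.inL x.inR

/-- The equivalence of decorated flat diagrams is generated by these steps. -/
inductive DStep : Deco → Deco → Prop
  /-- flat Reidemeister moves away from the base point -/
  | flat {k : ℕ} {C : List (DLtr ⊕ Fin k)} {t t' : Fin k → List DLtr} (hC : IsTmpl C)
      (h1 : DFresh C t) (h2 : DFresh C t') (m : FMove t t') (h : Bool) (β : ZMod 2) :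
      DStep ⟨fill C t, h, β⟩ ⟨fill C t', h, β⟩
  /-- renaming of the crossings -/
  | relab (f : ℕ → ℕ) (hf : Function.Injective f) (w : List DLtr) (h : Bool) (β : ZMod 2) :
      DStep ⟨w, h, β⟩ ⟨w.map (fun a => ⟨f a.lab, a.tail, a.mark⟩), h, β⟩
  /-- the boundary of a union of faces is added to the cycle -/
  | face (A : List CLtr) (hA : IsColouring A) (h : Bool) (β : ZMod 2) :
      DStep ⟨A.map CLtr.a, h, β⟩ ⟨A.map CLtr.add, xor h (baseVal A), β⟩
  /-- the curve itself is added to the cycle -/
  | curve (w : List DLtr) (h : Bool) (β : ZMod 2) :
      DStep ⟨w, h, β⟩ ⟨w, !h, β + dot w h (fun _ => false) true⟩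
  /-- the base point is moved past a letter `a`: the lobe from the new base point to the other
  letter of the crossing is added to the cycle -/
  | rot (a : DLtr) (w : List DLtr) (h : Bool) (β : ZMod 2) :
      DStep ⟨a :: w, h, β⟩
        ⟨(w ++ [a]).map (fun b => ⟨b.lab, b.tail, xor b.mark (b.lab = a.lab)⟩), !(xor h a.mark),
          β + dot (a :: w) h (fun b => b.lab = a.lab) false⟩

/-- Equivalence of decorated flat diagrams. -/
def DEq : Deco → Deco → Prop := Relation.EqvGen DStep

/-- Apply `f` to all letters of a code, telling it whether the label of the letter has already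
occurred (in the list `s` or before the letter). -/
def smap {α β : Type*} (lab : α → ℕ) (f : Bool → α → β) : List ℕ → List α → List β
  | _, [] => []
  | s, a :: w => f (decide (lab a ∈ s)) a :: smap lab f (lab a :: s) w

/-- The flat code of a Gauss code.  A crossing is ascending if its first letter passes under (so
that its second letter passes over); the two letters of the ascending crossings are marked. -/
def mk (w : List Ltr) : List DLtr :=
  smap Ltr.lab (fun seen a => ⟨a.lab, a.tail, if seen then a.ov else !a.ov⟩) [] w

/-- The invariant: the flat diagram, the cycle which turns at the ascending crossings (zero on the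
base edge), and the Arf bit. -/
def dec (w : List Ltr) : Deco := ⟨mk w, false, arf (mk w)⟩

end VPass
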