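import Mathlib

/-!
# Pass equivalence of virtual knots (MP_e7a171_gt): definitions

A virtual knot diagram is recorded by its Gauss code, read from a base point: a list of letters,
one letter for every passage through a classical crossing.
-/

namespace VPass

/-- A letter of a Gauss code: the label of the crossing, whether the strand passes over, and the
sign of the crossing (`true` is a positive crossing). -/
@[ext] structure Ltr where
  lab : ℕ
  ov : Bool
  pos : Bool
deriving DecidableEq

/-- The flat arrow of a crossing points from its tail to its head; the head strand crosses the tail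
strand from right to left.  The tail is the over strand exactly at positive crossings. -/
def Ltr.tail (a : Ltr) : Bool := a.ov == a.pos

def Ltr.relab (f : ℕ → ℕ) (a : Ltr) : Ltr := ⟨f a.lab, a.ov, a.pos⟩

/-- Substitution of the words `t i` for the holes `i` of a template `C`. -/
def fill {α : Type*} {k : ℕ} (C : List (α ⊕ Fin k)) (t : Fin k → List α) : List α :=
  C.flatMap (Sum.elim (fun a => [a]) t)

/-- The holes of a template, in order. -/
def holes {α : Type*} {k : ℕ} (C : List (α ⊕ Fin k)) : List (Fin k) :=
  C.filterMap Sum.getRight?

/-- In a template every hole occurs exactly once. -/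
def IsTmpl {α : Type*} {k : ℕ} (C : List (α ⊕ Fin k)) : Prop :=
  (holes C).Perm (List.finRange k)

/-- A Gauss code: every label occurs never, or exactly twice, once over and once under, with the
same sign. -/
def IsCode (w : List Ltr) : Prop :=
  ∀ c, w.filter (fun a => a.lab = c) = [] ∨
    ∃ o s, w.filter (fun a => a.lab = c) = [⟨c, o, s⟩, ⟨c, !o, s⟩]

/-- The sign of the crossing `i` of a triangle: its strands `i` and `i + 1` have directions
`o i`, `o (i + 1)` with respect to the counterclockwise orientation of the triangle, and `ov i`
says whether strand `i` passes over strand `i + 1`. -/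
def triPos (o ov : Fin 3 → Bool) (i : Fin 3) : Bool := (o i == o (i + 1)) == ov i

/-- The word of strand `i` of a triangle (see `LMove.r3`). -/
def triWord (c : Fin 3 → ℕ) (o ov : Fin 3 → Bool) (i : Fin 3) : List Ltr :=
  let p : Ltr := ⟨c (i + 2), !(ov (i + 2)), triPos o ov (i + 2)⟩
  let n : Ltr := ⟨c i, ov i, triPos o ov i⟩
  if o i then [p, n] else [n, p]

/-- The words of the four strands of two crossing bands (see `LMove.pass`). -/
def passWord (c : Fin 4 → ℕ) (up left above : Bool) (i : Fin 4) : List Ltr :=
  let L (j : Fin 4) (o : Bool) : Ltr := ⟨c j, o, if j = 0 ∨ j = 2 then up else !up⟩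
  let a := [L 0 up, L 1 up]
  let a' := [L 2 up, L 3 up]
  let b := [L 3 (!up), L 0 (!up)]
  let b' := [L 1 (!up), L 2 (!up)]
  match i with
  | 0 => if left then a else a.reverse
  | 1 => if left then a' else a'.reverse
  | 2 => if above then b else b.reverse
  | 3 => if above then b' else b'.reverse

/-- The local moves, as replacements of the words read along the strands in a disc. -/
inductive RMove : {k : ℕ} → (Fin k → List Ltr) → (Fin k → List Ltr) → Prop
  /-- first Reidemeister move: an isolated crossing is removed -/
  | r1 (c : ℕ) (o s : Bool) :
      RMove (k := 1) ![[⟨c, o, s⟩, ⟨c, !o, s⟩]] ![[]]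
  /-- second Reidemeister move: two crossings of opposite signs, adjacent on both strands, with the
  same strand over, are removed; `dir` says whether the two strands are parallel -/
  | r2 (c d : ℕ) (h : c ≠ d) (o s dir : Bool) :
      RMove (k := 2)
        ![[⟨c, o, s⟩, ⟨d, o, !s⟩],
          if dir then [⟨c, !o, s⟩, ⟨d, !o, !s⟩] else [⟨d, !o, !s⟩, ⟨c, !o, s⟩]]
        ![[], []]
  /-- third Reidemeister move: the strands `0, 1, 2` bound a triangle, in this order
  counterclockwise; crossing `i` is that of the strands `i` and `i + 1`; strand `i` runs
  counterclockwise along its side iff `o i`; strand `i` is over strand `i + 1` iff `ov i`, and the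
  three heights are not cyclic.  The move reverses the three words. -/
  | r3 (c : Fin 3 → ℕ) (hc : Function.Injective c) (o ov : Fin 3 → Bool)
      (h : ¬ (ov 0 = ov 1 ∧ ov 1 = ov 2)) :
      RMove (triWord c o ov) (fun i => (triWord c o ov i).reverse)

/-- The pass move: a horizontal band with strands `0` (to the east) and `1` (to the west) crosses a
vertical band with strands `2` (to the north) and `3` (to the south); the horizontal band is over
iff `up`; `left`: strand `2` is to the left of strand `3`; `above`: strand `0` is above strand `1`.
The move switches the four crossings. -/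
inductive PMove : (Fin 4 → List Ltr) → (Fin 4 → List Ltr) → Prop
  | pass (c : Fin 4 → ℕ) (hc : Function.Injective c) (up left above : Bool) :
      PMove (passWord c up left above) (passWord c (!up) left above)

/-- The labels of a family of words do not occur in the template. -/
def Fresh {k : ℕ} (C : List (Ltr ⊕ Fin k)) (t : Fin k → List Ltr) : Prop :=
  ∀ i, ∀ a ∈ t i, ∀ b, Sum.inl b ∈ C → b.lab ≠ a.lab

/-- One step of the equivalence of Gauss codes of *long* virtual knots. -/
inductive LStep : List Ltr → List Ltr → Prop
  | reid {k : ℕ} {C : List (Ltr ⊕ Fin k)} {t t' : Fin k → List Ltr} (hC : IsTmpl C)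
      (h : Fresh C t) (h' : Fresh C t') (m : RMove t t') : LStep (fill C t) (fill C t')
  | pass {C : List (Ltr ⊕ Fin 4)} {t t' : Fin 4 → List Ltr} (hC : IsTmpl C)
      (h : Fresh C t) (h' : Fresh C t') (m : PMove t t') : LStep (fill C t) (fill C t')
  | relab (f : ℕ → ℕ) (hf : Function.Injective f) (w : List Ltr) :
      LStep w (w.map (Ltr.relab f))

/-- Pass equivalence of long virtual knots. -/
def LEq : List Ltr → List Ltr → Prop := Relation.EqvGen LStep

/-- One step of the pass equivalence of virtual knots: moreover the base point may be moved. -/
inductive Step : List Ltr → List Ltr → Prop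
  | long {w w' : List Ltr} (h : LStep w w') : Step w w'
  | rot (a : Ltr) (w : List Ltr) : Step (a :: w) (w ++ [a])

/-- Pass equivalence of virtual knots. -/
def PassEq : List Ltr → List Ltr → Prop := Relation.EqvGen Step

/-! ## Decorated flat diagrams -/

/-- A letter of a decorated flat diagram: the label of the crossing, whether the strand is the tail
of the flat arrow, and whether the decorating cycle turns at the crossing. -/
@[ext] structure DLtr where
  lab : ℕ
  tail : Bool
  mark : Bool
deriving DecidableEq

/-- A decorated flat diagram: a flat Gauss code with marks, the value of the cycle on the base edge,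
and a bit. -/
@[ext] structure Deco where
  w : List DLtr
  h : Bool
  β : ZMod 2

def IsDCode (w : List DLtr) : Prop :=
  ∀ c, w.filter (fun a => a.lab = c) = [] ∨
    ∃ t m, w.filter (fun a => a.lab = c) = [⟨c, t, m⟩, ⟨c, !t, m⟩]

end VPass
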