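import Pool.Agent.VPass.Tref

/-!
# Macros modulo local trefoils (generated)

MODULE Delta: parallel clasp flips and the `Δ`-move are trivial up to local trefoils.
-/

namespace VPass

/-! ### Checking chains modulo local trefoils -/

/-- Boolean form of `Balanced`. -/
def balB {k : ℕ} (t : Fin k → List Ltr) : Bool :=
  (List.finRange k).all (fun i => (t i).all (fun x =>
    match (List.finRange k).flatMap (fun j => (t j).filter (fun a => a.lab = x.lab)) with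
    | [a, b] => a.lab == x.lab && b.lab == x.lab && b.pos == a.pos && b.ov == !a.ov
    | _ => false))

lemma perm_two {α : Type*} {v : List α} {a b : α} (h : v.Perm [a, b]) : v = [a, b] ∨ v = [b, a] := by
  have hl := h.length_eq
  match v, hl, h with
  | [x, y], _, h =>
    have h1 : x = a ∨ x = b := by simpa using h.subset (List.mem_cons_self)
    rcases h1 with rfl | rfl
    · left
      have := List.perm_singleton.1 ((List.perm_cons x).1 h)
      rw [this]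
    · right
      have h2 := h.trans (List.Perm.swap x a [])
      have := List.perm_singleton.1 ((List.perm_cons x).1 h2)
      rw [this]

lemma tmpl_no_hole {α : Type*} {k : ℕ} {C : List (α ⊕ Fin k)} (h0 : holes C = []) :
    ∃ v : List α, C = v.map Sum.inl := by
  induction C with
  | nil => exact ⟨[], rfl⟩
  | cons x C ih =>
    cases x with
    | inl a =>
      rw [holes_cons_inl] at h0
      obtain ⟨v, rfl⟩ := ih h0
      exact ⟨a :: v, rfl⟩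
    | inr i => simp at h0

lemma balanced_of_balB {k : ℕ} {t : Fin k → List Ltr} (h : balB t = true) : Balanced t := by
  intro c hc l hl
  obtain ⟨i, x, hx, rfl⟩ := mem_labs.1 hc
  have h1 := List.all_eq_true.1 (List.all_eq_true.1 h i (List.mem_finRange i)) x hx
  have hp : (l.flatMap (fun j => (t j).filter (fun a => a.lab = x.lab))).Perm
      ((List.finRange k).flatMap (fun j => (t j).filter (fun a => a.lab = x.lab))) :=
    hl.flatMap_right _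
  revert h1 hp
  generalize (List.finRange k).flatMap (fun j => (t j).filter (fun a => a.lab = x.lab)) = u
  generalize l.flatMap (fun j => (t j).filter (fun a => a.lab = x.lab)) = v
  intro h1 hp
  match u, h1, hp with
  | [a, b], h1, hp =>
    simp only [Bool.and_eq_true, beq_iff_eq] at h1
    obtain ⟨⟨⟨h2, h3⟩, h4⟩, h5⟩ := h1
    have hb : b = ⟨x.lab, !a.ov, a.pos⟩ := by
      ext
      · exact h3
      · rw [h5]
      · rw [h4]
    have ha : a = ⟨x.lab, a.ov, a.pos⟩ := by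
      ext
      · exact h2
      · rfl
      · rfl
    rcases perm_two hp with e | e
    · exact ⟨a.ov, a.pos, by rw [e, hb]; congr 1⟩
    · refine ⟨!a.ov, a.pos, ?_⟩
      rw [e, hb, Bool.not_not]
      congr 1
      rw [← ha]

theorem TEqM.byE {k k' : ℕ} {s s' : Fin k → List Ltr} (h : TEq s s')
    (D : Fin k' → List (Ltr ⊕ Fin k)) {u u' : Fin k' → List Ltr}
    (hc : (liftOK s s' D u u' && (balB u && balB u')) = true) : TEqM u u' := by
  simp only [Bool.and_eq_true] at hc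
  exact (TEq.by h D hc.1).toM (balanced_of_balB hc.2.1) (balanced_of_balB hc.2.2)

theorem TEqM.by {k k' : ℕ} {s s' : Fin k → List Ltr} (h : TEqM s s')
    (D : Fin k' → List (Ltr ⊕ Fin k)) {u u' : Fin k' → List Ltr}
    (hc : (liftOK s s' D u u' && (balB u && balB u')) = true) : TEqM u u' := by
  simp only [Bool.and_eq_true] at hc
  obtain ⟨h1, h2, h3, h4, h5⟩ := liftOK_iff hc.1
  exact h.lift' D u u' h1 h2 h3 h4 h5 (balanced_of_balB hc.2.1) (balanced_of_balB hc.2.2)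

theorem TEqM.swpE (a b : ℕ) {k : ℕ} {t t' : Fin k → List Ltr}
    (h : (swpOK a b t t' && (balB t && balB t')) = true) : TEqM t t' := by
  simp only [Bool.and_eq_true] at h
  exact (TEq.swp a b h.1).toM (balanced_of_balB h.2.1) (balanced_of_balB h.2.2)

lemma TEqM.ext {k n : ℕ} {t t' : Fin k → List Ltr} (h : TEqM t t') {c : Fin n → ℕ}
    (hc : Function.Injective c) (h1 : labB n t = true) (h2 : labB n t' = true) :
    TEqM (fun i => (t i).map (Ltr.relab (extv c))) (fun i => (t' i).map (Ltr.relab (extv c))) := by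
  apply h.relab
  apply extv_injOn hc
  intro x hx
  rcases Finset.mem_union.1 hx with hx | hx
  · exact labB_iff h1 x hx
  · exact labB_iff h2 x hx

/-- Local trefoils disappear. -/
theorem tref_gone (c : Fin 3 → ℕ) (hc : Function.Injective c) :
    TEqM ![tref (c 0) (c 1) (c 2)] ![[]] := by
  have n01 : c 0 ≠ c 1 := fun h => absurd (hc h) (by decide)
  have n12 : c 1 ≠ c 2 := fun h => absurd (hc h) (by decide)
  have n02 : c 0 ≠ c 2 := fun h => absurd (hc h) (by decide)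
  refine ⟨balanced_tref n01 n12 n02, balanced_of_balB (by decide), ?_⟩
  intro C hC h1 h2 h3
  right
  obtain ⟨u, v, rfl⟩ : ∃ u v : List Ltr,
      C = u.map Sum.inl ++ (Sum.inr 0 : Ltr ⊕ Fin 1) :: v.map Sum.inl := by
    have h0 := tref_perm_finRange_one hC
    clear hC h1 h2 h3
    induction C with
    | nil => simp at h0
    | cons x C ih =>
      cases x with
      | inl a =>
        rw [holes_cons_inl] at h0
        obtain ⟨u, v, rfl⟩ := ih h0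
        exact ⟨a :: u, v, by simp⟩
      | inr i =>
        have hi : i = 0 := Subsingleton.elim _ _
        subst hi
        rw [holes_cons_inr] at h0
        have h0 : holes C = [] := by simpa using h0
        refine ⟨[], ?_⟩
        obtain ⟨v, rfl⟩ := tmpl_no_hole h0
        exact ⟨v, by simp⟩
  have e1 : fill (u.map Sum.inl ++ (Sum.inr 0 : Ltr ⊕ Fin 1) :: v.map Sum.inl)
      ![tref (c 0) (c 1) (c 2)] = u ++ tref (c 0) (c 1) (c 2) ++ v := by simp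
  have e2 : fill (u.map Sum.inl ++ (Sum.inr 0 : Ltr ⊕ Fin 1) :: v.map Sum.inl)
      (![[]] : Fin 1 → List Ltr) = u ++ v := by simp
  have e3 : ctx (u.map Sum.inl ++ (Sum.inr 0 : Ltr ⊕ Fin 1) :: v.map Sum.inl) = u ++ v := by
    have : ∀ (u : List Ltr) (C : List (Ltr ⊕ Fin 1)), ctx (u.map Sum.inl ++ C) = u ++ ctx C := by
      intro u C
      induction u with
      | nil => rfl
      | cons a u ih => simp [ih]
    rw [this, code_ctx_cons_inr, tref_ctx_map_inl]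
  rw [e1, e2]
  rw [e3] at h3
  apply slide h3 n01 n12 n02
  intro x hx
  have hx' : Sum.inl x ∈ (u.map Sum.inl ++ (Sum.inr 0 : Ltr ⊕ Fin 1) :: v.map Sum.inl) := by
    simpa using hx
  have hl := fresh_iff.1 h1 x hx'
  rw [labs_tref] at hl
  simp only [Finset.mem_insert, Finset.mem_singleton, not_or] at hl
  exact hl

/-! ### Parallel clasps -/

theorem flipPar_f : TEqM ![[⟨1, false, true⟩, ⟨0, true, true⟩], [⟨1, true, true⟩, ⟨0, false, true⟩]]
    ![[⟨1, true, false⟩, ⟨0, false, false⟩], [⟨1, false, false⟩, ⟨0, true, false⟩]] := by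
  refine TEqM.trans (t' := ![[⟨2, false, true⟩, ⟨3, false, false⟩, ⟨1, false, true⟩, ⟨0, true, true⟩, ⟨2, true, true⟩, ⟨3, true, false⟩], [⟨1, true, true⟩, ⟨0, false, true⟩]])
    (TEqM.byE ((RMove.r2 2 3 (by decide) false true true).teq).symm ![[Sum.inr 0, Sum.inl ⟨1, false, true⟩, Sum.inl ⟨0, true, true⟩, Sum.inr 1], [Sum.inl ⟨1, true, true⟩, Sum.inl ⟨0, false, true⟩]] (by decide +kernel)) ?_
  refine TEqM.trans (t' := ![[⟨2, false, true⟩, ⟨3, false, false⟩, ⟨1, false, true⟩, ⟨0, true, true⟩, ⟨2, true, true⟩, ⟨3, true, false⟩, ⟨4, true, false⟩, ⟨5, true, true⟩], [⟨5, false, true⟩, ⟨4, false, false⟩, ⟨1, true, true⟩, ⟨0, false, true⟩]])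
    (TEqM.byE ((RMove.r2 4 5 (by decide) true false false).teq).symm ![[Sum.inl ⟨2, false, true⟩, Sum.inl ⟨3, false, false⟩, Sum.inl ⟨1, false, true⟩, Sum.inl ⟨0, true, true⟩, Sum.inl ⟨2, true, true⟩, Sum.inl ⟨3, true, false⟩, Sum.inr 0], [Sum.inr 1, Sum.inl ⟨1, true, true⟩, Sum.inl ⟨0, false, true⟩]] (by decide +kernel)) ?_
  refine TEqM.trans (t' := ![[⟨2, false, true⟩, ⟨3, true, true⟩, ⟨1, true, false⟩, ⟨0, true, true⟩, ⟨2, true, true⟩, ⟨3, false, true⟩, ⟨4, false, true⟩, ⟨5, true, true⟩], [⟨5, false, true⟩, ⟨4, true, true⟩, ⟨1, false, false⟩, ⟨0, false, true⟩]])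
    (TEqM.byE (flipTri ![1, 4, 3] (by decide) ![true, false, false] ![false, false, true] (by decide)) ![[Sum.inl ⟨2, false, true⟩, Sum.inr 0, Sum.inl ⟨0, true, true⟩, Sum.inl ⟨2, true, true⟩, Sum.inr 2, Sum.inl ⟨5, true, true⟩], [Sum.inl ⟨5, false, true⟩, Sum.inr 1, Sum.inl ⟨0, false, true⟩]] (by decide +kernel)) ?_
  refine TEqM.trans (t' := ![[⟨2, false, true⟩, ⟨3, true, true⟩, ⟨2, true, true⟩, ⟨3, false, true⟩, ⟨4, false, true⟩, ⟨5, true, true⟩], [⟨5, false, true⟩, ⟨4, true, true⟩]])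
    (TEqM.byE (RMove.r2 1 0 (by decide) true false true).teq ![[Sum.inl ⟨2, false, true⟩, Sum.inl ⟨3, true, true⟩, Sum.inr 0, Sum.inl ⟨2, true, true⟩, Sum.inl ⟨3, false, true⟩, Sum.inl ⟨4, false, true⟩, Sum.inl ⟨5, true, true⟩], [Sum.inl ⟨5, false, true⟩, Sum.inl ⟨4, true, true⟩, Sum.inr 1]] (by decide +kernel)) ?_
  refine TEqM.trans (t' := ![[⟨2, false, true⟩, ⟨3, true, true⟩, ⟨2, true, true⟩, ⟨3, false, true⟩, ⟨1, false, true⟩, ⟨5, true, true⟩], [⟨5, false, true⟩, ⟨1, true, true⟩]])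
    (TEqM.swpE 4 1 (by decide +kernel)) ?_
  refine TEqM.trans (t' := ![[⟨2, false, true⟩, ⟨3, true, true⟩, ⟨2, true, true⟩, ⟨3, false, true⟩, ⟨1, false, true⟩, ⟨0, true, true⟩], [⟨0, false, true⟩, ⟨1, true, true⟩]])
    (TEqM.swpE 5 0 (by decide +kernel)) ?_
  refine TEqM.trans (t' := ![[⟨2, false, true⟩, ⟨3, true, true⟩, ⟨2, true, true⟩, ⟨3, false, true⟩, ⟨1, true, false⟩, ⟨0, false, false⟩], [⟨0, true, false⟩, ⟨1, false, false⟩]])
    (TEqM.byE (flipClasp ![0, 1] (by decide) false true) ![[Sum.inl ⟨2, false, true⟩, Sum.inl ⟨3, true, true⟩, Sum.inl ⟨2, true, true⟩, Sum.inl ⟨3, false, true⟩, Sum.inr 0], [Sum.inr 1]] (by decide +kernel)) ?_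
  refine TEqM.trans (t' := ![[⟨2, false, true⟩, ⟨3, true, true⟩, ⟨2, true, true⟩, ⟨3, false, true⟩, ⟨4, true, true⟩, ⟨5, false, true⟩, ⟨4, false, true⟩, ⟨5, true, true⟩, ⟨6, true, true⟩, ⟨7, false, true⟩, ⟨6, false, true⟩, ⟨7, true, true⟩, ⟨1, true, false⟩, ⟨0, false, false⟩], [⟨0, true, false⟩, ⟨1, false, false⟩]])
    (TEqM.byE (kay_kay ![4, 5, 6, 7] (by decide)).symm ![[Sum.inl ⟨2, false, true⟩, Sum.inl ⟨3, true, true⟩, Sum.inl ⟨2, true, true⟩, Sum.inl ⟨3, false, true⟩, Sum.inr 0, Sum.inl ⟨1, true, false⟩, Sum.inl ⟨0, false, false⟩], [Sum.inl ⟨0, true, false⟩, Sum.inl ⟨1, false, false⟩]] (by decide +kernel)) ?_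
  refine TEqM.trans (t' := ![[⟨2, true, true⟩, ⟨3, false, true⟩, ⟨4, true, true⟩, ⟨2, false, true⟩, ⟨3, true, true⟩, ⟨4, false, true⟩, ⟨6, true, true⟩, ⟨7, false, true⟩, ⟨6, false, true⟩, ⟨7, true, true⟩, ⟨1, true, false⟩, ⟨0, false, false⟩], [⟨0, true, false⟩, ⟨1, false, false⟩]])
    (TEqM.byE (kay'_kay ![2, 3, 4, 5] (by decide)) ![[Sum.inr 0, Sum.inl ⟨6, true, true⟩, Sum.inl ⟨7, false, true⟩, Sum.inl ⟨6, false, true⟩, Sum.inl ⟨7, true, true⟩, Sum.inl ⟨1, true, false⟩, Sum.inl ⟨0, false, false⟩], [Sum.inl ⟨0, true, false⟩, Sum.inl ⟨1, false, false⟩]] (by decide +kernel)) ?_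
  refine TEqM.trans (t' := ![[⟨6, true, true⟩, ⟨7, false, true⟩, ⟨6, false, true⟩, ⟨7, true, true⟩, ⟨1, true, false⟩, ⟨0, false, false⟩], [⟨0, true, false⟩, ⟨1, false, false⟩]])
    (TEqM.by (tref_gone ![2, 3, 4] (by decide)) ![[Sum.inr 0, Sum.inl ⟨6, true, true⟩, Sum.inl ⟨7, false, true⟩, Sum.inl ⟨6, false, true⟩, Sum.inl ⟨7, true, true⟩, Sum.inl ⟨1, true, false⟩, Sum.inl ⟨0, false, false⟩], [Sum.inl ⟨0, true, false⟩, Sum.inl ⟨1, false, false⟩]] (by decide +kernel)) ?_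
  refine TEqM.trans (t' := ![[⟨6, true, true⟩, ⟨2, true, false⟩, ⟨3, true, true⟩, ⟨7, false, true⟩, ⟨6, false, true⟩, ⟨7, true, true⟩, ⟨1, true, false⟩, ⟨0, false, false⟩], [⟨0, true, false⟩, ⟨1, false, false⟩, ⟨3, false, true⟩, ⟨2, false, false⟩]])
    (TEqM.byE ((RMove.r2 2 3 (by decide) true false false).teq).symm ![[Sum.inl ⟨6, true, true⟩, Sum.inr 0, Sum.inl ⟨7, false, true⟩, Sum.inl ⟨6, false, true⟩, Sum.inl ⟨7, true, true⟩, Sum.inl ⟨1, true, false⟩, Sum.inl ⟨0, false, false⟩], [Sum.inl ⟨0, true, false⟩, Sum.inl ⟨1, false, false⟩, Sum.inr 1]] (by decide +kernel)) ?_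
  refine TEqM.trans (t' := ![[⟨6, true, true⟩, ⟨2, true, false⟩, ⟨3, false, false⟩, ⟨7, true, false⟩, ⟨6, false, true⟩, ⟨7, false, false⟩, ⟨1, false, true⟩, ⟨0, false, false⟩], [⟨0, true, false⟩, ⟨1, true, true⟩, ⟨3, true, false⟩, ⟨2, false, false⟩]])
    (TEqM.byE (flipTri ![1, 7, 3] (by decide) ![false, false, false] ![false, true, true] (by decide)) ![[Sum.inl ⟨6, true, true⟩, Sum.inl ⟨2, true, false⟩, Sum.inr 2, Sum.inl ⟨6, false, true⟩, Sum.inr 1, Sum.inl ⟨0, false, false⟩], [Sum.inl ⟨0, true, false⟩, Sum.inr 0, Sum.inl ⟨2, false, false⟩]] (by decide +kernel)) ?_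
  refine TEqM.trans (t' := ![[⟨6, true, true⟩, ⟨2, true, false⟩, ⟨3, false, false⟩, ⟨7, true, false⟩, ⟨6, false, true⟩, ⟨7, false, false⟩], [⟨3, true, false⟩, ⟨2, false, false⟩]])
    (TEqM.byE (RMove.r2 0 1 (by decide) true false false).teq ![[Sum.inl ⟨6, true, true⟩, Sum.inl ⟨2, true, false⟩, Sum.inl ⟨3, false, false⟩, Sum.inl ⟨7, true, false⟩, Sum.inl ⟨6, false, true⟩, Sum.inl ⟨7, false, false⟩, Sum.inr 1], [Sum.inr 0, Sum.inl ⟨3, true, false⟩, Sum.inl ⟨2, false, false⟩]] (by decide +kernel)) ?_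
  refine TEqM.trans (t' := ![[⟨6, true, true⟩, ⟨2, true, false⟩, ⟨3, false, false⟩, ⟨7, true, false⟩, ⟨0, true, false⟩, ⟨1, true, true⟩, ⟨6, false, true⟩, ⟨7, false, false⟩], [⟨3, true, false⟩, ⟨2, false, false⟩, ⟨1, false, true⟩, ⟨0, false, false⟩]])
    (TEqM.byE ((RMove.r2 0 1 (by decide) true false false).teq).symm ![[Sum.inl ⟨6, true, true⟩, Sum.inl ⟨2, true, false⟩, Sum.inl ⟨3, false, false⟩, Sum.inl ⟨7, true, false⟩, Sum.inr 0, Sum.inl ⟨6, false, true⟩, Sum.inl ⟨7, false, false⟩], [Sum.inl ⟨3, true, false⟩, Sum.inl ⟨2, false, false⟩, Sum.inr 1]] (by decide +kernel)) ?_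
  refine TEqM.trans (t' := ![[⟨6, false, false⟩, ⟨2, false, true⟩, ⟨3, false, false⟩, ⟨7, true, false⟩, ⟨0, true, false⟩, ⟨1, false, false⟩, ⟨6, true, false⟩, ⟨7, false, false⟩], [⟨3, true, false⟩, ⟨2, true, true⟩, ⟨1, true, false⟩, ⟨0, false, false⟩]])
    (TEqM.byE (flipTri ![1, 2, 6] (by decide) ![false, false, false] ![true, false, true] (by decide)) ![[Sum.inr 2, Sum.inl ⟨3, false, false⟩, Sum.inl ⟨7, true, false⟩, Sum.inl ⟨0, true, false⟩, Sum.inr 0, Sum.inl ⟨7, false, false⟩], [Sum.inl ⟨3, true, false⟩, Sum.inr 1, Sum.inl ⟨0, false, false⟩]] (by decide +kernel)) ?_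
  refine TEqM.trans (t' := ![[⟨6, false, false⟩, ⟨7, true, false⟩, ⟨0, true, false⟩, ⟨1, false, false⟩, ⟨6, true, false⟩, ⟨7, false, false⟩], [⟨1, true, false⟩, ⟨0, false, false⟩]])
    (TEqM.byE (RMove.r2 2 3 (by decide) false true false).teq ![[Sum.inl ⟨6, false, false⟩, Sum.inr 0, Sum.inl ⟨7, true, false⟩, Sum.inl ⟨0, true, false⟩, Sum.inl ⟨1, false, false⟩, Sum.inl ⟨6, true, false⟩, Sum.inl ⟨7, false, false⟩], [Sum.inr 1, Sum.inl ⟨1, true, false⟩, Sum.inl ⟨0, false, false⟩]] (by decide +kernel)) ?_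
  refine TEqM.trans (t' := ![[⟨6, false, false⟩, ⟨7, true, false⟩, ⟨0, true, false⟩, ⟨1, false, false⟩, ⟨6, true, false⟩, ⟨7, false, false⟩, ⟨2, false, true⟩, ⟨3, false, false⟩], [⟨1, true, false⟩, ⟨0, false, false⟩, ⟨2, true, true⟩, ⟨3, true, false⟩]])
    (TEqM.byE ((RMove.r2 2 3 (by decide) false true true).teq).symm ![[Sum.inl ⟨6, false, false⟩, Sum.inl ⟨7, true, false⟩, Sum.inl ⟨0, true, false⟩, Sum.inl ⟨1, false, false⟩, Sum.inl ⟨6, true, false⟩, Sum.inl ⟨7, false, false⟩, Sum.inr 0], [Sum.inl ⟨1, true, false⟩, Sum.inl ⟨0, false, false⟩, Sum.inr 1]] (by decide +kernel)) ?_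
  refine TEqM.trans (t' := ![[⟨6, false, false⟩, ⟨7, false, true⟩, ⟨0, false, true⟩, ⟨1, false, false⟩, ⟨6, true, false⟩, ⟨7, true, true⟩, ⟨2, true, false⟩, ⟨3, false, false⟩], [⟨1, true, false⟩, ⟨0, true, true⟩, ⟨2, false, false⟩, ⟨3, true, false⟩]])
    (TEqM.byE (flipTri ![0, 7, 2] (by decide) ![false, false, true] ![false, true, false] (by decide)) ![[Sum.inl ⟨6, false, false⟩, Sum.inr 1, Sum.inl ⟨1, false, false⟩, Sum.inl ⟨6, true, false⟩, Sum.inr 2, Sum.inl ⟨3, false, false⟩], [Sum.inl ⟨1, true, false⟩, Sum.inr 0, Sum.inl ⟨3, true, false⟩]] (by decide +kernel)) ?_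
  refine TEqM.trans (t' := ![[⟨6, false, false⟩, ⟨7, false, true⟩, ⟨6, true, false⟩, ⟨7, true, true⟩, ⟨2, true, false⟩, ⟨3, false, false⟩], [⟨2, false, false⟩, ⟨3, true, false⟩]])
    (TEqM.byE (RMove.r2 0 1 (by decide) false true false).teq ![[Sum.inl ⟨6, false, false⟩, Sum.inl ⟨7, false, true⟩, Sum.inr 0, Sum.inl ⟨6, true, false⟩, Sum.inl ⟨7, true, true⟩, Sum.inl ⟨2, true, false⟩, Sum.inl ⟨3, false, false⟩], [Sum.inr 1, Sum.inl ⟨2, false, false⟩, Sum.inl ⟨3, true, false⟩]] (by decide +kernel)) ?_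
  refine TEqM.trans (t' := ![[⟨2, true, false⟩, ⟨3, false, false⟩], [⟨2, false, false⟩, ⟨3, true, false⟩]])
    (TEqM.byE (RMove.r2 6 7 (by decide) true false true).teq ![[Sum.inr 1, Sum.inr 0, Sum.inl ⟨2, true, false⟩, Sum.inl ⟨3, false, false⟩], [Sum.inl ⟨2, false, false⟩, Sum.inl ⟨3, true, false⟩]] (by decide +kernel)) ?_
  refine TEqM.trans (t' := ![[⟨1, true, false⟩, ⟨3, false, false⟩], [⟨1, false, false⟩, ⟨3, true, false⟩]])
    (TEqM.swpE 2 1 (by decide +kernel)) ?_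
  exact (TEqM.swpE 3 0 (by decide +kernel))

theorem flipPar_t : TEqM ![[⟨0, true, true⟩, ⟨1, false, true⟩], [⟨0, false, true⟩, ⟨1, true, true⟩]]
    ![[⟨0, false, false⟩, ⟨1, true, false⟩], [⟨0, true, false⟩, ⟨1, false, false⟩]] := by
  refine TEqM.trans (t' := ![[⟨2, true, true⟩, ⟨3, true, false⟩, ⟨0, true, true⟩, ⟨1, false, true⟩, ⟨2, false, true⟩, ⟨3, false, false⟩], [⟨0, false, true⟩, ⟨1, true, true⟩]])
    (TEqM.byE ((RMove.r2 2 3 (by decide) true true true).teq).symm ![[Sum.inr 0, Sum.inl ⟨0, true, true⟩, Sum.inl ⟨1, false, true⟩, Sum.inr 1], [Sum.inl ⟨0, false, true⟩, Sum.inl ⟨1, true, true⟩]] (by decide +kernel)) ?_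
  refine TEqM.trans (t' := ![[⟨2, true, true⟩, ⟨3, true, false⟩, ⟨0, true, true⟩, ⟨1, false, true⟩, ⟨2, false, true⟩, ⟨3, false, false⟩, ⟨4, false, false⟩, ⟨5, false, true⟩], [⟨5, true, true⟩, ⟨4, true, false⟩, ⟨0, false, true⟩, ⟨1, true, true⟩]])
    (TEqM.byE ((RMove.r2 4 5 (by decide) false false false).teq).symm ![[Sum.inl ⟨2, true, true⟩, Sum.inl ⟨3, true, false⟩, Sum.inl ⟨0, true, true⟩, Sum.inl ⟨1, false, true⟩, Sum.inl ⟨2, false, true⟩, Sum.inl ⟨3, false, false⟩, Sum.inr 0], [Sum.inr 1, Sum.inl ⟨0, false, true⟩, Sum.inl ⟨1, true, true⟩]] (by decide +kernel)) ?_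
  refine TEqM.trans (t' := ![[⟨2, true, true⟩, ⟨3, false, true⟩, ⟨0, false, false⟩, ⟨1, false, true⟩, ⟨2, false, true⟩, ⟨3, true, true⟩, ⟨4, true, true⟩, ⟨5, false, true⟩], [⟨5, true, true⟩, ⟨4, false, true⟩, ⟨0, true, false⟩, ⟨1, true, true⟩]])
    (TEqM.byE (flipTri ![0, 3, 4] (by decide) ![true, false, true] ![false, true, false] (by decide)) ![[Sum.inl ⟨2, true, true⟩, Sum.inr 1, Sum.inl ⟨1, false, true⟩, Sum.inl ⟨2, false, true⟩, Sum.inr 2, Sum.inl ⟨5, false, true⟩], [Sum.inl ⟨5, true, true⟩, Sum.inr 0, Sum.inl ⟨1, true, true⟩]] (by decide +kernel)) ?_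
  refine TEqM.trans (t' := ![[⟨2, true, true⟩, ⟨3, false, true⟩, ⟨2, false, true⟩, ⟨3, true, true⟩, ⟨4, true, true⟩, ⟨5, false, true⟩], [⟨5, true, true⟩, ⟨4, false, true⟩]])
    (TEqM.byE (RMove.r2 0 1 (by decide) true false true).teq ![[Sum.inl ⟨2, true, true⟩, Sum.inl ⟨3, false, true⟩, Sum.inr 1, Sum.inl ⟨2, false, true⟩, Sum.inl ⟨3, true, true⟩, Sum.inl ⟨4, true, true⟩, Sum.inl ⟨5, false, true⟩], [Sum.inl ⟨5, true, true⟩, Sum.inl ⟨4, false, true⟩, Sum.inr 0]] (by decide +kernel)) ?_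
  refine TEqM.trans (t' := ![[⟨2, true, true⟩, ⟨3, false, true⟩, ⟨2, false, true⟩, ⟨3, true, true⟩, ⟨0, true, true⟩, ⟨5, false, true⟩], [⟨5, true, true⟩, ⟨0, false, true⟩]])
    (TEqM.swpE 4 0 (by decide +kernel)) ?_
  refine TEqM.trans (t' := ![[⟨2, true, true⟩, ⟨3, false, true⟩, ⟨2, false, true⟩, ⟨3, true, true⟩, ⟨0, true, true⟩, ⟨1, false, true⟩], [⟨1, true, true⟩, ⟨0, false, true⟩]])
    (TEqM.swpE 5 1 (by decide +kernel)) ?_
  refine TEqM.trans (t' := ![[⟨2, true, true⟩, ⟨3, false, true⟩, ⟨2, false, true⟩, ⟨3, true, true⟩, ⟨0, false, false⟩, ⟨1, true, false⟩], [⟨1, false, false⟩, ⟨0, true, false⟩]])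
    (TEqM.byE (flipClasp ![0, 1] (by decide) true true) ![[Sum.inl ⟨2, true, true⟩, Sum.inl ⟨3, false, true⟩, Sum.inl ⟨2, false, true⟩, Sum.inl ⟨3, true, true⟩, Sum.inr 0], [Sum.inr 1]] (by decide +kernel)) ?_
  refine TEqM.trans (t' := ![[⟨2, true, true⟩, ⟨3, false, true⟩, ⟨2, false, true⟩, ⟨3, true, true⟩, ⟨4, false, true⟩, ⟨5, true, true⟩, ⟨4, true, true⟩, ⟨5, false, true⟩, ⟨6, false, true⟩, ⟨7, true, true⟩, ⟨6, true, true⟩, ⟨7, false, true⟩, ⟨0, false, false⟩, ⟨1, true, false⟩], [⟨1, false, false⟩, ⟨0, true, false⟩]])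
    (TEqM.byE (kay'_kay' ![4, 5, 6, 7] (by decide)).symm ![[Sum.inl ⟨2, true, true⟩, Sum.inl ⟨3, false, true⟩, Sum.inl ⟨2, false, true⟩, Sum.inl ⟨3, true, true⟩, Sum.inr 0, Sum.inl ⟨0, false, false⟩, Sum.inl ⟨1, true, false⟩], [Sum.inl ⟨1, false, false⟩, Sum.inl ⟨0, true, false⟩]] (by decide +kernel)) ?_
  refine TEqM.trans (t' := ![[⟨2, true, true⟩, ⟨3, false, true⟩, ⟨4, true, true⟩, ⟨2, false, true⟩, ⟨3, true, true⟩, ⟨4, false, true⟩, ⟨6, false, true⟩, ⟨7, true, true⟩, ⟨6, true, true⟩, ⟨7, false, true⟩, ⟨0, false, false⟩, ⟨1, true, false⟩], [⟨1, false, false⟩, ⟨0, true, false⟩]])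
    (TEqM.byE (kay_kay' ![2, 3, 4, 5] (by decide)) ![[Sum.inr 0, Sum.inl ⟨6, false, true⟩, Sum.inl ⟨7, true, true⟩, Sum.inl ⟨6, true, true⟩, Sum.inl ⟨7, false, true⟩, Sum.inl ⟨0, false, false⟩, Sum.inl ⟨1, true, false⟩], [Sum.inl ⟨1, false, false⟩, Sum.inl ⟨0, true, false⟩]] (by decide +kernel)) ?_
  refine TEqM.trans (t' := ![[⟨6, false, true⟩, ⟨7, true, true⟩, ⟨6, true, true⟩, ⟨7, false, true⟩, ⟨0, false, false⟩, ⟨1, true, false⟩], [⟨1, false, false⟩, ⟨0, true, false⟩]])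
    (TEqM.by (tref_gone ![2, 3, 4] (by decide)) ![[Sum.inr 0, Sum.inl ⟨6, false, true⟩, Sum.inl ⟨7, true, true⟩, Sum.inl ⟨6, true, true⟩, Sum.inl ⟨7, false, true⟩, Sum.inl ⟨0, false, false⟩, Sum.inl ⟨1, true, false⟩], [Sum.inl ⟨1, false, false⟩, Sum.inl ⟨0, true, false⟩]] (by decide +kernel)) ?_
  refine TEqM.trans (t' := ![[⟨6, false, true⟩, ⟨2, false, false⟩, ⟨3, false, true⟩, ⟨7, true, true⟩, ⟨6, true, true⟩, ⟨7, false, true⟩, ⟨0, false, false⟩, ⟨1, true, false⟩], [⟨1, false, false⟩, ⟨0, true, false⟩, ⟨3, true, true⟩, ⟨2, true, false⟩]])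
    (TEqM.byE ((RMove.r2 2 3 (by decide) false false false).teq).symm ![[Sum.inl ⟨6, false, true⟩, Sum.inr 0, Sum.inl ⟨7, true, true⟩, Sum.inl ⟨6, true, true⟩, Sum.inl ⟨7, false, true⟩, Sum.inl ⟨0, false, false⟩, Sum.inl ⟨1, true, false⟩], [Sum.inl ⟨1, false, false⟩, Sum.inl ⟨0, true, false⟩, Sum.inr 1]] (by decide +kernel)) ?_
  refine TEqM.trans (t' := ![[⟨6, false, true⟩, ⟨2, false, false⟩, ⟨3, true, false⟩, ⟨7, false, false⟩, ⟨6, true, true⟩, ⟨7, true, false⟩, ⟨0, true, true⟩, ⟨1, true, false⟩], [⟨1, false, false⟩, ⟨0, false, true⟩, ⟨3, false, false⟩, ⟨2, true, false⟩]])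
    (TEqM.byE (flipTri ![0, 3, 7] (by decide) ![true, true, true] ![false, true, true] (by decide)) ![[Sum.inl ⟨6, false, true⟩, Sum.inl ⟨2, false, false⟩, Sum.inr 2, Sum.inl ⟨6, true, true⟩, Sum.inr 0, Sum.inl ⟨1, true, false⟩], [Sum.inl ⟨1, false, false⟩, Sum.inr 1, Sum.inl ⟨2, true, false⟩]] (by decide +kernel)) ?_
  refine TEqM.trans (t' := ![[⟨6, false, true⟩, ⟨2, false, false⟩, ⟨3, true, false⟩, ⟨7, false, false⟩, ⟨6, true, true⟩, ⟨7, true, false⟩], [⟨3, false, false⟩, ⟨2, true, false⟩]])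
    (TEqM.byE (RMove.r2 0 1 (by decide) true true false).teq ![[Sum.inl ⟨6, false, true⟩, Sum.inl ⟨2, false, false⟩, Sum.inl ⟨3, true, false⟩, Sum.inl ⟨7, false, false⟩, Sum.inl ⟨6, true, true⟩, Sum.inl ⟨7, true, false⟩, Sum.inr 0], [Sum.inr 1, Sum.inl ⟨3, false, false⟩, Sum.inl ⟨2, true, false⟩]] (by decide +kernel)) ?_
  refine TEqM.trans (t' := ![[⟨6, false, true⟩, ⟨2, false, false⟩, ⟨3, true, false⟩, ⟨7, false, false⟩, ⟨0, false, false⟩, ⟨1, false, true⟩, ⟨6, true, true⟩, ⟨7, true, false⟩], [⟨3, false, false⟩, ⟨2, true, false⟩, ⟨1, true, true⟩, ⟨0, true, false⟩]])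
    (TEqM.byE ((RMove.r2 0 1 (by decide) false false false).teq).symm ![[Sum.inl ⟨6, false, true⟩, Sum.inl ⟨2, false, false⟩, Sum.inl ⟨3, true, false⟩, Sum.inl ⟨7, false, false⟩, Sum.inr 0, Sum.inl ⟨6, true, true⟩, Sum.inl ⟨7, true, false⟩], [Sum.inl ⟨3, false, false⟩, Sum.inl ⟨2, true, false⟩, Sum.inr 1]] (by decide +kernel)) ?_
  refine TEqM.trans (t' := ![[⟨6, true, false⟩, ⟨2, true, true⟩, ⟨3, true, false⟩, ⟨7, false, false⟩, ⟨0, false, false⟩, ⟨1, true, false⟩, ⟨6, false, false⟩, ⟨7, true, false⟩], [⟨3, false, false⟩, ⟨2, false, true⟩, ⟨1, false, false⟩, ⟨0, true, false⟩]])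
    (TEqM.byE (flipTri ![1, 6, 2] (by decide) ![true, true, true] ![true, true, false] (by decide)) ![[Sum.inr 2, Sum.inl ⟨3, true, false⟩, Sum.inl ⟨7, false, false⟩, Sum.inl ⟨0, false, false⟩, Sum.inr 1, Sum.inl ⟨7, true, false⟩], [Sum.inl ⟨3, false, false⟩, Sum.inr 0, Sum.inl ⟨0, true, false⟩]] (by decide +kernel)) ?_
  refine TEqM.trans (t' := ![[⟨6, true, false⟩, ⟨7, false, false⟩, ⟨0, false, false⟩, ⟨1, true, false⟩, ⟨6, false, false⟩, ⟨7, true, false⟩], [⟨1, false, false⟩, ⟨0, true, false⟩]])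
    (TEqM.byE (RMove.r2 2 3 (by decide) true true false).teq ![[Sum.inl ⟨6, true, false⟩, Sum.inr 0, Sum.inl ⟨7, false, false⟩, Sum.inl ⟨0, false, false⟩, Sum.inl ⟨1, true, false⟩, Sum.inl ⟨6, false, false⟩, Sum.inl ⟨7, true, false⟩], [Sum.inr 1, Sum.inl ⟨1, false, false⟩, Sum.inl ⟨0, true, false⟩]] (by decide +kernel)) ?_
  refine TEqM.trans (t' := ![[⟨6, true, false⟩, ⟨7, false, false⟩, ⟨0, false, false⟩, ⟨1, true, false⟩, ⟨6, false, false⟩, ⟨7, true, false⟩, ⟨2, true, true⟩, ⟨3, true, false⟩], [⟨1, false, false⟩, ⟨0, true, false⟩, ⟨2, false, true⟩, ⟨3, false, false⟩]])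
    (TEqM.byE ((RMove.r2 2 3 (by decide) true true true).teq).symm ![[Sum.inl ⟨6, true, false⟩, Sum.inl ⟨7, false, false⟩, Sum.inl ⟨0, false, false⟩, Sum.inl ⟨1, true, false⟩, Sum.inl ⟨6, false, false⟩, Sum.inl ⟨7, true, false⟩, Sum.inr 0], [Sum.inl ⟨1, false, false⟩, Sum.inl ⟨0, true, false⟩, Sum.inr 1]] (by decide +kernel)) ?_
  refine TEqM.trans (t' := ![[⟨6, true, false⟩, ⟨7, true, true⟩, ⟨0, true, true⟩, ⟨1, true, false⟩, ⟨6, false, false⟩, ⟨7, false, true⟩, ⟨2, false, false⟩, ⟨3, true, false⟩], [⟨1, false, false⟩, ⟨0, false, true⟩, ⟨2, true, false⟩, ⟨3, false, false⟩]])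
    (TEqM.byE (flipTri ![0, 2, 7] (by decide) ![true, true, false] ![false, false, true] (by decide)) ![[Sum.inl ⟨6, true, false⟩, Sum.inr 0, Sum.inl ⟨1, true, false⟩, Sum.inl ⟨6, false, false⟩, Sum.inr 2, Sum.inl ⟨3, true, false⟩], [Sum.inl ⟨1, false, false⟩, Sum.inr 1, Sum.inl ⟨3, false, false⟩]] (by decide +kernel)) ?_
  refine TEqM.trans (t' := ![[⟨6, true, false⟩, ⟨7, true, true⟩, ⟨6, false, false⟩, ⟨7, false, true⟩, ⟨2, false, false⟩, ⟨3, true, false⟩], [⟨2, true, false⟩, ⟨3, false, false⟩]])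
    (TEqM.byE (RMove.r2 0 1 (by decide) true true false).teq ![[Sum.inl ⟨6, true, false⟩, Sum.inl ⟨7, true, true⟩, Sum.inr 0, Sum.inl ⟨6, false, false⟩, Sum.inl ⟨7, false, true⟩, Sum.inl ⟨2, false, false⟩, Sum.inl ⟨3, true, false⟩], [Sum.inr 1, Sum.inl ⟨2, true, false⟩, Sum.inl ⟨3, false, false⟩]] (by decide +kernel)) ?_
  refine TEqM.trans (t' := ![[⟨2, false, false⟩, ⟨3, true, false⟩], [⟨2, true, false⟩, ⟨3, false, false⟩]])
    (TEqM.byE (RMove.r2 6 7 (by decide) true false true).teq ![[Sum.inr 0, Sum.inr 1, Sum.inl ⟨2, false, false⟩, Sum.inl ⟨3, true, false⟩], [Sum.inl ⟨2, true, false⟩, Sum.inl ⟨3, false, false⟩]] (by decide +kernel)) ?_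
  refine TEqM.trans (t' := ![[⟨0, false, false⟩, ⟨3, true, false⟩], [⟨0, true, false⟩, ⟨3, false, false⟩]])
    (TEqM.swpE 2 0 (by decide +kernel)) ?_
  exact (TEqM.swpE 3 1 (by decide +kernel))

/-- Up to local trefoils the two crossings of a clasp of two parallel edges may be switched. -/
theorem flipPar (c : Fin 2 → ℕ) (hc : Function.Injective c) (t σ : Bool) :
    TEqM ![legP (c 0) (c 1) t σ, legQ (c 0) (c 1) (!t) σ]
      ![legP (c 0) (c 1) t (!σ), legQ (c 0) (c 1) (!t) (!σ)] := by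
  have key : ∀ u : Bool, (fun i => ((![legP 0 1 t u, legQ 0 1 (!t) u] : Fin 2 → List Ltr) i).map
      (Ltr.relab (extv c))) = ![legP (c 0) (c 1) t u, legQ (c 0) (c 1) (!t) u] := by
    intro u; funext i; fin_cases i <;> cases t <;> cases u <;> rfl
  have h : TEqM ![legP 0 1 t σ, legQ 0 1 (!t) σ] ![legP 0 1 t (!σ), legQ 0 1 (!t) (!σ)] := by
    cases t <;> cases σ
    · exact flipPar_f.symm
    · exact flipPar_f
    · exact flipPar_t.symm
    · exact flipPar_t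
  have := h.ext hc (by cases t <;> cases σ <;> decide) (by cases t <;> cases σ <;> decide)
  rwa [key, key] at this

/-- Up to local trefoils the two crossings of a clasp may be switched. -/
theorem flipAny (c : Fin 2 → ℕ) (hc : Function.Injective c) (t s σ σ' : Bool) :
    TEqM ![legP (c 0) (c 1) t σ, legQ (c 0) (c 1) s σ]
      ![legP (c 0) (c 1) t σ', legQ (c 0) (c 1) s σ'] := by
  have n01 : c 0 ≠ c 1 := fun h => absurd (hc h) (by decide)
  have hb : ∀ u, Balanced ![legP (c 0) (c 1) t u, legQ (c 0) (c 1) s u] := by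
    intro u
    apply balanced_of_balB
    cases t <;> cases s <;> cases u <;> simp [balB, legP, legQ, List.finRange_succ, n01, n01.symm]
  have h1 : TEqM ![legP (c 0) (c 1) t σ, legQ (c 0) (c 1) s σ]
      ![legP (c 0) (c 1) t (!σ), legQ (c 0) (c 1) s (!σ)] := by
    rcases Bool.eq_or_eq_not s t with rfl | rfl
    · exact (flipClasp c hc _ _).toM (hb _) (hb _)
    · exact flipPar c hc _ _
  rcases Bool.eq_or_eq_not σ' σ with rfl | rfl
  · exact (TEq.refl _).toM (hb _) (hb _)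
  · exact h1

/-! ### The `Δ`-move -/

theorem delta_fff_f : TEqM ![[⟨0, false, false⟩, ⟨2, true, false⟩], [⟨1, false, false⟩, ⟨0, true, false⟩], [⟨2, false, false⟩, ⟨1, true, false⟩]]
    ![[⟨2, true, false⟩, ⟨0, false, false⟩], [⟨0, true, false⟩, ⟨1, false, false⟩], [⟨1, true, false⟩, ⟨2, false, false⟩]] := by
  refine TEqM.trans (t' := ![[⟨3, true, true⟩, ⟨4, true, false⟩, ⟨0, false, false⟩, ⟨2, true, false⟩], [⟨1, false, false⟩, ⟨3, false, true⟩, ⟨4, false, false⟩, ⟨0, true, false⟩], [⟨2, false, false⟩, ⟨1, true, false⟩]])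
    (TEqM.byE ((RMove.r2 3 4 (by decide) true true true).teq).symm ![[Sum.inr 0, Sum.inl ⟨0, false, false⟩, Sum.inl ⟨2, true, false⟩], [Sum.inl ⟨1, false, false⟩, Sum.inr 1, Sum.inl ⟨0, true, false⟩], [Sum.inl ⟨2, false, false⟩, Sum.inl ⟨1, true, false⟩]] (by decide +kernel)) ?_
  refine TEqM.trans (t' := ![[⟨3, true, true⟩, ⟨4, false, true⟩, ⟨0, true, true⟩, ⟨2, true, false⟩], [⟨1, false, false⟩, ⟨3, false, true⟩, ⟨4, true, true⟩, ⟨0, false, true⟩], [⟨2, false, false⟩, ⟨1, true, false⟩]])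
    (TEqM.by (flipPar ![0, 4] (by decide) false false) ![[Sum.inl ⟨3, true, true⟩, Sum.inr 0, Sum.inl ⟨2, true, false⟩], [Sum.inl ⟨1, false, false⟩, Sum.inl ⟨3, false, true⟩, Sum.inr 1], [Sum.inl ⟨2, false, false⟩, Sum.inl ⟨1, true, false⟩]] (by decide +kernel)) ?_
  refine TEqM.trans (t' := ![[⟨5, true, false⟩, ⟨6, true, true⟩, ⟨3, true, true⟩, ⟨4, false, true⟩, ⟨0, true, true⟩, ⟨2, true, false⟩], [⟨1, false, false⟩, ⟨3, false, true⟩, ⟨4, true, true⟩, ⟨0, false, true⟩], [⟨2, false, false⟩, ⟨1, true, false⟩, ⟨6, false, true⟩, ⟨5, false, false⟩]])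
    (TEqM.byE ((RMove.r2 5 6 (by decide) true false false).teq).symm ![[Sum.inr 0, Sum.inl ⟨3, true, true⟩, Sum.inl ⟨4, false, true⟩, Sum.inl ⟨0, true, true⟩, Sum.inl ⟨2, true, false⟩], [Sum.inl ⟨1, false, false⟩, Sum.inl ⟨3, false, true⟩, Sum.inl ⟨4, true, true⟩, Sum.inl ⟨0, false, true⟩], [Sum.inl ⟨2, false, false⟩, Sum.inl ⟨1, true, false⟩, Sum.inr 1]] (by decide +kernel)) ?_
  refine TEqM.trans (t' := ![[⟨5, true, false⟩, ⟨6, false, false⟩, ⟨3, false, false⟩, ⟨4, false, true⟩, ⟨0, true, true⟩, ⟨2, true, false⟩], [⟨1, true, true⟩, ⟨3, true, false⟩, ⟨4, true, true⟩, ⟨0, false, true⟩], [⟨2, false, false⟩, ⟨1, false, true⟩, ⟨6, true, false⟩, ⟨5, false, false⟩]])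
    (TEqM.byE (flipTri ![1, 3, 6] (by decide) ![false, true, false] ![true, false, true] (by decide)) ![[Sum.inl ⟨5, true, false⟩, Sum.inr 2, Sum.inl ⟨4, false, true⟩, Sum.inl ⟨0, true, true⟩, Sum.inl ⟨2, true, false⟩], [Sum.inr 1, Sum.inl ⟨4, true, true⟩, Sum.inl ⟨0, false, true⟩], [Sum.inl ⟨2, false, false⟩, Sum.inr 0, Sum.inl ⟨5, false, false⟩]] (by decide +kernel)) ?_
  refine TEqM.trans (t' := ![[⟨5, true, false⟩, ⟨6, false, false⟩, ⟨0, true, true⟩, ⟨2, true, false⟩], [⟨1, true, true⟩, ⟨0, false, true⟩], [⟨2, false, false⟩, ⟨1, false, true⟩, ⟨6, true, false⟩, ⟨5, false, false⟩]])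
    (TEqM.byE (RMove.r2 3 4 (by decide) true false true).teq ![[Sum.inl ⟨5, true, false⟩, Sum.inl ⟨6, false, false⟩, Sum.inr 1, Sum.inl ⟨0, true, true⟩, Sum.inl ⟨2, true, false⟩], [Sum.inl ⟨1, true, true⟩, Sum.inr 0, Sum.inl ⟨0, false, true⟩], [Sum.inl ⟨2, false, false⟩, Sum.inl ⟨1, false, true⟩, Sum.inl ⟨6, true, false⟩, Sum.inl ⟨5, false, false⟩]] (by decide +kernel)) ?_
  refine TEqM.trans (t' := ![[⟨5, true, false⟩, ⟨6, false, false⟩, ⟨2, true, false⟩, ⟨0, true, true⟩], [⟨0, false, true⟩, ⟨1, true, true⟩], [⟨1, false, true⟩, ⟨2, false, false⟩, ⟨6, true, false⟩, ⟨5, false, false⟩]])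
    (TEqM.byE (RMove.r3 ![0, 1, 2] (by decide) ![false, false, false] ![true, true, false] (by decide)).teq ![[Sum.inl ⟨5, true, false⟩, Sum.inl ⟨6, false, false⟩, Sum.inr 0], [Sum.inr 1], [Sum.inr 2, Sum.inl ⟨6, true, false⟩, Sum.inl ⟨5, false, false⟩]] (by decide +kernel)) ?_
  refine TEqM.trans (t' := ![[⟨5, true, false⟩, ⟨6, false, false⟩, ⟨2, false, true⟩, ⟨0, false, false⟩], [⟨0, true, false⟩, ⟨1, false, false⟩], [⟨1, true, false⟩, ⟨2, true, true⟩, ⟨6, true, false⟩, ⟨5, false, false⟩]])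
    (TEqM.byE (flipTri ![0, 1, 2] (by decide) ![true, true, true] ![true, true, false] (by decide)) ![[Sum.inl ⟨5, true, false⟩, Sum.inl ⟨6, false, false⟩, Sum.inr 0], [Sum.inr 1], [Sum.inr 2, Sum.inl ⟨6, true, false⟩, Sum.inl ⟨5, false, false⟩]] (by decide +kernel)) ?_
  refine TEqM.trans (t' := ![[⟨5, true, false⟩, ⟨0, false, false⟩], [⟨0, true, false⟩, ⟨1, false, false⟩], [⟨1, true, false⟩, ⟨5, false, false⟩]])
    (TEqM.byE (RMove.r2 2 6 (by decide) true true false).teq ![[Sum.inl ⟨5, true, false⟩, Sum.inr 1, Sum.inl ⟨0, false, false⟩], [Sum.inl ⟨0, true, false⟩, Sum.inl ⟨1, false, false⟩], [Sum.inl ⟨1, true, false⟩, Sum.inr 0, Sum.inl ⟨5, false, false⟩]] (by decide +kernel)) ?_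
  exact (TEqM.swpE 5 2 (by decide +kernel))

theorem delta_fff_t : TEqM ![[⟨0, true, true⟩, ⟨2, false, true⟩], [⟨1, true, true⟩, ⟨0, false, true⟩], [⟨2, true, true⟩, ⟨1, false, true⟩]]
    ![[⟨2, false, true⟩, ⟨0, true, true⟩], [⟨0, false, true⟩, ⟨1, true, true⟩], [⟨1, false, true⟩, ⟨2, true, true⟩]] := by
  refine TEqM.trans (t' := ![[⟨3, false, false⟩, ⟨4, false, true⟩, ⟨0, true, true⟩, ⟨2, false, true⟩], [⟨1, true, true⟩, ⟨3, true, false⟩, ⟨4, true, true⟩, ⟨0, false, true⟩], [⟨2, true, true⟩, ⟨1, false, true⟩]])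
    (TEqM.byE ((RMove.r2 3 4 (by decide) false false true).teq).symm ![[Sum.inr 0, Sum.inl ⟨0, true, true⟩, Sum.inl ⟨2, false, true⟩], [Sum.inl ⟨1, true, true⟩, Sum.inr 1, Sum.inl ⟨0, false, true⟩], [Sum.inl ⟨2, true, true⟩, Sum.inl ⟨1, false, true⟩]] (by decide +kernel)) ?_
  refine TEqM.trans (t' := ![[⟨3, false, false⟩, ⟨4, true, false⟩, ⟨0, false, false⟩, ⟨2, false, true⟩], [⟨1, true, true⟩, ⟨3, true, false⟩, ⟨4, false, false⟩, ⟨0, true, false⟩], [⟨2, true, true⟩, ⟨1, false, true⟩]])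
    (TEqM.by (flipPar ![0, 4] (by decide) false true) ![[Sum.inl ⟨3, false, false⟩, Sum.inr 0, Sum.inl ⟨2, false, true⟩], [Sum.inl ⟨1, true, true⟩, Sum.inl ⟨3, true, false⟩, Sum.inr 1], [Sum.inl ⟨2, true, true⟩, Sum.inl ⟨1, false, true⟩]] (by decide +kernel)) ?_
  refine TEqM.trans (t' := ![[⟨5, true, false⟩, ⟨6, true, true⟩, ⟨3, false, false⟩, ⟨4, true, false⟩, ⟨0, false, false⟩, ⟨2, false, true⟩], [⟨1, true, true⟩, ⟨3, true, false⟩, ⟨4, false, false⟩, ⟨0, true, false⟩], [⟨2, true, true⟩, ⟨1, false, true⟩, ⟨6, false, true⟩, ⟨5, false, false⟩]])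
    (TEqM.byE ((RMove.r2 5 6 (by decide) true false false).teq).symm ![[Sum.inr 0, Sum.inl ⟨3, false, false⟩, Sum.inl ⟨4, true, false⟩, Sum.inl ⟨0, false, false⟩, Sum.inl ⟨2, false, true⟩], [Sum.inl ⟨1, true, true⟩, Sum.inl ⟨3, true, false⟩, Sum.inl ⟨4, false, false⟩, Sum.inl ⟨0, true, false⟩], [Sum.inl ⟨2, true, true⟩, Sum.inl ⟨1, false, true⟩, Sum.inr 1]] (by decide +kernel)) ?_
  refine TEqM.trans (t' := ![[⟨5, true, false⟩, ⟨3, false, false⟩, ⟨6, true, true⟩, ⟨4, true, false⟩, ⟨0, false, false⟩, ⟨2, false, true⟩], [⟨3, true, false⟩, ⟨1, true, true⟩, ⟨4, false, false⟩, ⟨0, true, false⟩], [⟨2, true, true⟩, ⟨6, false, true⟩, ⟨1, false, true⟩, ⟨5, false, false⟩]])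
    (TEqM.byE (RMove.r3 ![1, 3, 6] (by decide) ![false, true, false] ![false, true, true] (by decide)).teq ![[Sum.inl ⟨5, true, false⟩, Sum.inr 2, Sum.inl ⟨4, true, false⟩, Sum.inl ⟨0, false, false⟩, Sum.inl ⟨2, false, true⟩], [Sum.inr 1, Sum.inl ⟨4, false, false⟩, Sum.inl ⟨0, true, false⟩], [Sum.inl ⟨2, true, true⟩, Sum.inr 0, Sum.inl ⟨5, false, false⟩]] (by decide +kernel)) ?_
  refine TEqM.trans (t' := ![[⟨5, false, true⟩, ⟨3, true, true⟩, ⟨6, true, true⟩, ⟨4, true, false⟩, ⟨0, false, false⟩, ⟨2, false, true⟩], [⟨3, false, true⟩, ⟨1, false, false⟩, ⟨4, false, false⟩, ⟨0, true, false⟩], [⟨2, true, true⟩, ⟨6, false, true⟩, ⟨1, true, false⟩, ⟨5, true, true⟩]])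
    (TEqM.byE (flipTri ![1, 5, 3] (by decide) ![true, true, true] ![true, false, false] (by decide)) ![[Sum.inr 2, Sum.inl ⟨6, true, true⟩, Sum.inl ⟨4, true, false⟩, Sum.inl ⟨0, false, false⟩, Sum.inl ⟨2, false, true⟩], [Sum.inr 0, Sum.inl ⟨4, false, false⟩, Sum.inl ⟨0, true, false⟩], [Sum.inl ⟨2, true, true⟩, Sum.inl ⟨6, false, true⟩, Sum.inr 1]] (by decide +kernel)) ?_
  refine TEqM.trans (t' := ![[⟨5, false, true⟩, ⟨3, true, true⟩, ⟨6, false, false⟩, ⟨4, false, true⟩, ⟨0, false, false⟩, ⟨2, false, true⟩], [⟨3, false, true⟩, ⟨1, true, true⟩, ⟨4, true, true⟩, ⟨0, true, false⟩], [⟨2, true, true⟩, ⟨6, true, false⟩, ⟨1, false, true⟩, ⟨5, true, true⟩]])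
    (TEqM.byE (flipTri ![1, 6, 4] (by decide) ![false, false, true] ![false, false, true] (by decide)) ![[Sum.inl ⟨5, false, true⟩, Sum.inl ⟨3, true, true⟩, Sum.inr 2, Sum.inl ⟨0, false, false⟩, Sum.inl ⟨2, false, true⟩], [Sum.inl ⟨3, false, true⟩, Sum.inr 0, Sum.inl ⟨0, true, false⟩], [Sum.inl ⟨2, true, true⟩, Sum.inr 1, Sum.inl ⟨5, true, true⟩]] (by decide +kernel)) ?_
  refine TEqM.trans (t' := ![[⟨5, false, true⟩, ⟨3, true, true⟩, ⟨6, false, false⟩, ⟨2, false, true⟩], [⟨3, false, true⟩, ⟨1, true, true⟩], [⟨2, true, true⟩, ⟨6, true, false⟩, ⟨1, false, true⟩, ⟨5, true, true⟩]])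
    (TEqM.byE (RMove.r2 4 0 (by decide) false true true).teq ![[Sum.inl ⟨5, false, true⟩, Sum.inl ⟨3, true, true⟩, Sum.inl ⟨6, false, false⟩, Sum.inr 0, Sum.inl ⟨2, false, true⟩], [Sum.inl ⟨3, false, true⟩, Sum.inl ⟨1, true, true⟩, Sum.inr 1], [Sum.inl ⟨2, true, true⟩, Sum.inl ⟨6, true, false⟩, Sum.inl ⟨1, false, true⟩, Sum.inl ⟨5, true, true⟩]] (by decide +kernel)) ?_
  refine TEqM.trans (t' := ![[⟨5, false, true⟩, ⟨3, true, true⟩], [⟨3, false, true⟩, ⟨1, true, true⟩], [⟨1, false, true⟩, ⟨5, true, true⟩]])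
    (TEqM.byE (RMove.r2 2 6 (by decide) true true false).teq ![[Sum.inl ⟨5, false, true⟩, Sum.inl ⟨3, true, true⟩, Sum.inr 1], [Sum.inl ⟨3, false, true⟩, Sum.inl ⟨1, true, true⟩], [Sum.inr 0, Sum.inl ⟨1, false, true⟩, Sum.inl ⟨5, true, true⟩]] (by decide +kernel)) ?_
  refine TEqM.trans (t' := ![[⟨2, false, true⟩, ⟨3, true, true⟩], [⟨3, false, true⟩, ⟨1, true, true⟩], [⟨1, false, true⟩, ⟨2, true, true⟩]])
    (TEqM.swpE 5 2 (by decide +kernel)) ?_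
  exact (TEqM.swpE 3 0 (by decide +kernel))

theorem delta_fft_f : TEqM ![[⟨0, false, false⟩, ⟨2, true, true⟩], [⟨1, false, true⟩, ⟨0, true, false⟩], [⟨1, true, true⟩, ⟨2, false, true⟩]]
    ![[⟨2, true, true⟩, ⟨0, false, false⟩], [⟨0, true, false⟩, ⟨1, false, true⟩], [⟨2, false, true⟩, ⟨1, true, true⟩]] := by
  refine TEqM.trans (t' := ![[⟨3, false, false⟩, ⟨4, false, true⟩, ⟨0, false, false⟩, ⟨2, true, true⟩], [⟨1, false, true⟩, ⟨0, true, false⟩], [⟨3, true, false⟩, ⟨4, true, true⟩, ⟨1, true, true⟩, ⟨2, false, true⟩]])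
    (TEqM.byE ((RMove.r2 3 4 (by decide) false false true).teq).symm ![[Sum.inr 0, Sum.inl ⟨0, false, false⟩, Sum.inl ⟨2, true, true⟩], [Sum.inl ⟨1, false, true⟩, Sum.inl ⟨0, true, false⟩], [Sum.inr 1, Sum.inl ⟨1, true, true⟩, Sum.inl ⟨2, false, true⟩]] (by decide +kernel)) ?_
  refine TEqM.trans (t' := ![[⟨3, false, false⟩, ⟨4, true, false⟩, ⟨0, true, true⟩, ⟨2, true, true⟩], [⟨1, true, false⟩, ⟨0, false, true⟩], [⟨3, true, false⟩, ⟨4, false, false⟩, ⟨1, false, false⟩, ⟨2, false, true⟩]])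
    (TEqM.byE (flipTri ![0, 4, 1] (by decide) ![true, false, true] ![true, false, true] (by decide)) ![[Sum.inl ⟨3, false, false⟩, Sum.inr 1, Sum.inl ⟨2, true, true⟩], [Sum.inr 0], [Sum.inl ⟨3, true, false⟩, Sum.inr 2, Sum.inl ⟨2, false, true⟩]] (by decide +kernel)) ?_
  refine TEqM.trans (t' := ![[⟨3, true, true⟩, ⟨4, false, true⟩, ⟨0, true, true⟩, ⟨2, true, true⟩], [⟨1, true, false⟩, ⟨0, false, true⟩], [⟨3, false, true⟩, ⟨4, true, true⟩, ⟨1, false, false⟩, ⟨2, false, true⟩]])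
    (TEqM.by (flipPar ![3, 4] (by decide) true false) ![[Sum.inr 0, Sum.inl ⟨0, true, true⟩, Sum.inl ⟨2, true, true⟩], [Sum.inl ⟨1, true, false⟩, Sum.inl ⟨0, false, true⟩], [Sum.inr 1, Sum.inl ⟨1, false, false⟩, Sum.inl ⟨2, false, true⟩]] (by decide +kernel)) ?_
  refine TEqM.trans (t' := ![[⟨3, true, true⟩, ⟨4, false, true⟩, ⟨0, false, false⟩, ⟨2, false, false⟩], [⟨1, false, true⟩, ⟨0, true, false⟩], [⟨3, false, true⟩, ⟨4, true, true⟩, ⟨1, true, true⟩, ⟨2, true, false⟩]])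
    (TEqM.byE (flipTri ![0, 1, 2] (by decide) ![false, false, true] ![true, true, false] (by decide)) ![[Sum.inl ⟨3, true, true⟩, Sum.inl ⟨4, false, true⟩, Sum.inr 0], [Sum.inr 1], [Sum.inl ⟨3, false, true⟩, Sum.inl ⟨4, true, true⟩, Sum.inr 2]] (by decide +kernel)) ?_
  refine TEqM.trans (t' := ![[⟨3, true, true⟩, ⟨4, false, true⟩, ⟨2, false, false⟩, ⟨0, false, false⟩], [⟨0, true, false⟩, ⟨1, false, true⟩], [⟨3, false, true⟩, ⟨4, true, true⟩, ⟨2, true, false⟩, ⟨1, true, true⟩]])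
    (TEqM.byE (RMove.r3 ![0, 1, 2] (by decide) ![false, false, true] ![false, false, true] (by decide)).teq ![[Sum.inl ⟨3, true, true⟩, Sum.inl ⟨4, false, true⟩, Sum.inr 0], [Sum.inr 1], [Sum.inl ⟨3, false, true⟩, Sum.inl ⟨4, true, true⟩, Sum.inr 2]] (by decide +kernel)) ?_
  refine TEqM.trans (t' := ![[⟨3, true, true⟩, ⟨0, false, false⟩], [⟨0, true, false⟩, ⟨1, false, true⟩], [⟨3, false, true⟩, ⟨1, true, true⟩]])
    (TEqM.byE (RMove.r2 4 2 (by decide) false true true).teq ![[Sum.inl ⟨3, true, true⟩, Sum.inr 0, Sum.inl ⟨0, false, false⟩], [Sum.inl ⟨0, true, false⟩, Sum.inl ⟨1, false, true⟩], [Sum.inl ⟨3, false, true⟩, Sum.inr 1, Sum.inl ⟨1, true, true⟩]] (by decide +kernel)) ?_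
  exact (TEqM.swpE 3 2 (by decide +kernel))

theorem delta_fft_t : TEqM ![[⟨0, true, true⟩, ⟨2, false, false⟩], [⟨1, true, false⟩, ⟨0, false, true⟩], [⟨1, false, false⟩, ⟨2, true, false⟩]]
    ![[⟨2, false, false⟩, ⟨0, true, true⟩], [⟨0, false, true⟩, ⟨1, true, false⟩], [⟨2, true, false⟩, ⟨1, false, false⟩]] := by
  refine TEqM.trans (t' := ![[⟨3, true, true⟩, ⟨4, true, false⟩, ⟨0, true, true⟩, ⟨2, false, false⟩], [⟨1, true, false⟩, ⟨0, false, true⟩], [⟨3, false, true⟩, ⟨4, false, false⟩, ⟨1, false, false⟩, ⟨2, true, false⟩]])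
    (TEqM.byE ((RMove.r2 3 4 (by decide) true true true).teq).symm ![[Sum.inr 0, Sum.inl ⟨0, true, true⟩, Sum.inl ⟨2, false, false⟩], [Sum.inl ⟨1, true, false⟩, Sum.inl ⟨0, false, true⟩], [Sum.inr 1, Sum.inl ⟨1, false, false⟩, Sum.inl ⟨2, true, false⟩]] (by decide +kernel)) ?_
  refine TEqM.trans (t' := ![[⟨3, true, true⟩, ⟨4, false, true⟩, ⟨0, false, false⟩, ⟨2, false, false⟩], [⟨1, false, true⟩, ⟨0, true, false⟩], [⟨3, false, true⟩, ⟨4, true, true⟩, ⟨1, true, true⟩, ⟨2, true, false⟩]])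
    (TEqM.byE (flipTri ![0, 4, 1] (by decide) ![true, false, true] ![false, true, false] (by decide)) ![[Sum.inl ⟨3, true, true⟩, Sum.inr 1, Sum.inl ⟨2, false, false⟩], [Sum.inr 0], [Sum.inl ⟨3, false, true⟩, Sum.inr 2, Sum.inl ⟨2, true, false⟩]] (by decide +kernel)) ?_
  refine TEqM.trans (t' := ![[⟨3, false, false⟩, ⟨4, true, false⟩, ⟨0, false, false⟩, ⟨2, false, false⟩], [⟨1, false, true⟩, ⟨0, true, false⟩], [⟨3, true, false⟩, ⟨4, false, false⟩, ⟨1, true, true⟩, ⟨2, true, false⟩]])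
    (TEqM.by (flipPar ![3, 4] (by decide) true true) ![[Sum.inr 0, Sum.inl ⟨0, false, false⟩, Sum.inl ⟨2, false, false⟩], [Sum.inl ⟨1, false, true⟩, Sum.inl ⟨0, true, false⟩], [Sum.inr 1, Sum.inl ⟨1, true, true⟩, Sum.inl ⟨2, true, false⟩]] (by decide +kernel)) ?_
  refine TEqM.trans (t' := ![[⟨3, false, false⟩, ⟨4, true, false⟩, ⟨0, true, true⟩, ⟨2, true, true⟩], [⟨1, true, false⟩, ⟨0, false, true⟩], [⟨3, true, false⟩, ⟨4, false, false⟩, ⟨1, false, false⟩, ⟨2, false, true⟩]])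
    (TEqM.byE (flipTri ![0, 1, 2] (by decide) ![false, false, true] ![false, false, true] (by decide)) ![[Sum.inl ⟨3, false, false⟩, Sum.inl ⟨4, true, false⟩, Sum.inr 0], [Sum.inr 1], [Sum.inl ⟨3, true, false⟩, Sum.inl ⟨4, false, false⟩, Sum.inr 2]] (by decide +kernel)) ?_
  refine TEqM.trans (t' := ![[⟨3, false, false⟩, ⟨4, true, false⟩, ⟨2, true, true⟩, ⟨0, true, true⟩], [⟨0, false, true⟩, ⟨1, true, false⟩], [⟨3, true, false⟩, ⟨4, false, false⟩, ⟨2, false, true⟩, ⟨1, false, false⟩]])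
    (TEqM.byE (RMove.r3 ![0, 1, 2] (by decide) ![false, false, true] ![true, true, false] (by decide)).teq ![[Sum.inl ⟨3, false, false⟩, Sum.inl ⟨4, true, false⟩, Sum.inr 0], [Sum.inr 1], [Sum.inl ⟨3, true, false⟩, Sum.inl ⟨4, false, false⟩, Sum.inr 2]] (by decide +kernel)) ?_
  refine TEqM.trans (t' := ![[⟨3, false, false⟩, ⟨0, true, true⟩], [⟨0, false, true⟩, ⟨1, true, false⟩], [⟨3, true, false⟩, ⟨1, false, false⟩]])
    (TEqM.byE (RMove.r2 4 2 (by decide) true false true).teq ![[Sum.inl ⟨3, false, false⟩, Sum.inr 0, Sum.inl ⟨0, true, true⟩], [Sum.inl ⟨0, false, true⟩, Sum.inl ⟨1, true, false⟩], [Sum.inl ⟨3, true, false⟩, Sum.inr 1, Sum.inl ⟨1, false, false⟩]] (by decide +kernel)) ?_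
  exact (TEqM.swpE 3 2 (by decide +kernel))

theorem delta_ftf_f : TEqM ![[⟨0, false, true⟩, ⟨2, true, false⟩], [⟨0, true, true⟩, ⟨1, false, true⟩], [⟨2, false, false⟩, ⟨1, true, true⟩]]
    ![[⟨2, true, false⟩, ⟨0, false, true⟩], [⟨1, false, true⟩, ⟨0, true, true⟩], [⟨1, true, true⟩, ⟨2, false, false⟩]] := by
  refine TEqM.trans (t' := ![[⟨3, true, false⟩, ⟨4, true, true⟩, ⟨0, false, true⟩, ⟨2, true, false⟩], [⟨3, false, false⟩, ⟨4, false, true⟩, ⟨0, true, true⟩, ⟨1, false, true⟩], [⟨2, false, false⟩, ⟨1, true, true⟩]])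
    (TEqM.byE ((RMove.r2 3 4 (by decide) true false true).teq).symm ![[Sum.inr 0, Sum.inl ⟨0, false, true⟩, Sum.inl ⟨2, true, false⟩], [Sum.inr 1, Sum.inl ⟨0, true, true⟩, Sum.inl ⟨1, false, true⟩], [Sum.inl ⟨2, false, false⟩, Sum.inl ⟨1, true, true⟩]] (by decide +kernel)) ?_
  refine TEqM.trans (t' := ![[⟨3, true, false⟩, ⟨4, false, false⟩, ⟨0, true, false⟩, ⟨2, true, false⟩], [⟨3, false, false⟩, ⟨4, true, false⟩, ⟨0, false, false⟩, ⟨1, false, true⟩], [⟨2, false, false⟩, ⟨1, true, true⟩]])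
    (TEqM.by (flipPar ![0, 4] (by decide) false true) ![[Sum.inl ⟨3, true, false⟩, Sum.inr 1, Sum.inl ⟨2, true, false⟩], [Sum.inl ⟨3, false, false⟩, Sum.inr 0, Sum.inl ⟨1, false, true⟩], [Sum.inl ⟨2, false, false⟩, Sum.inl ⟨1, true, true⟩]] (by decide +kernel)) ?_
  refine TEqM.trans (t' := ![[⟨3, true, false⟩, ⟨4, false, false⟩, ⟨0, false, true⟩, ⟨2, false, true⟩], [⟨3, false, false⟩, ⟨4, true, false⟩, ⟨0, true, true⟩, ⟨1, true, false⟩], [⟨2, true, true⟩, ⟨1, false, false⟩]])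
    (TEqM.byE (flipTri ![0, 1, 2] (by decide) ![false, true, false] ![true, false, false] (by decide)) ![[Sum.inl ⟨3, true, false⟩, Sum.inl ⟨4, false, false⟩, Sum.inr 0], [Sum.inl ⟨3, false, false⟩, Sum.inl ⟨4, true, false⟩, Sum.inr 1], [Sum.inr 2]] (by decide +kernel)) ?_
  refine TEqM.trans (t' := ![[⟨3, true, false⟩, ⟨4, false, false⟩, ⟨2, false, true⟩, ⟨0, false, true⟩], [⟨3, false, false⟩, ⟨4, true, false⟩, ⟨1, true, false⟩, ⟨0, true, true⟩], [⟨1, false, false⟩, ⟨2, true, true⟩]])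
    (TEqM.byE (RMove.r3 ![0, 1, 2] (by decide) ![false, true, false] ![false, true, true] (by decide)).teq ![[Sum.inl ⟨3, true, false⟩, Sum.inl ⟨4, false, false⟩, Sum.inr 0], [Sum.inl ⟨3, false, false⟩, Sum.inl ⟨4, true, false⟩, Sum.inr 1], [Sum.inr 2]] (by decide +kernel)) ?_
  refine TEqM.trans (t' := ![[⟨3, true, false⟩, ⟨4, true, true⟩, ⟨2, true, false⟩, ⟨0, false, true⟩], [⟨3, false, false⟩, ⟨4, false, true⟩, ⟨1, false, true⟩, ⟨0, true, true⟩], [⟨1, true, true⟩, ⟨2, false, false⟩]])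
    (TEqM.byE (flipTri ![1, 4, 2] (by decide) ![false, false, true] ![false, true, false] (by decide)) ![[Sum.inl ⟨3, true, false⟩, Sum.inr 2, Sum.inl ⟨0, false, true⟩], [Sum.inl ⟨3, false, false⟩, Sum.inr 1, Sum.inl ⟨0, true, true⟩], [Sum.inr 0]] (by decide +kernel)) ?_
  exact (TEqM.byE (RMove.r2 3 4 (by decide) true false true).teq ![[Sum.inr 0, Sum.inl ⟨2, true, false⟩, Sum.inl ⟨0, false, true⟩], [Sum.inr 1, Sum.inl ⟨1, false, true⟩, Sum.inl ⟨0, true, true⟩], [Sum.inl ⟨1, true, true⟩, Sum.inl ⟨2, false, false⟩]] (by decide +kernel))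

theorem delta_ftf_t : TEqM ![[⟨0, true, false⟩, ⟨2, false, true⟩], [⟨0, false, false⟩, ⟨1, true, false⟩], [⟨2, true, true⟩, ⟨1, false, false⟩]]
    ![[⟨2, false, true⟩, ⟨0, true, false⟩], [⟨1, true, false⟩, ⟨0, false, false⟩], [⟨1, false, false⟩, ⟨2, true, true⟩]] := by
  refine TEqM.trans (t' := ![[⟨3, false, true⟩, ⟨4, false, false⟩, ⟨0, true, false⟩, ⟨2, false, true⟩], [⟨3, true, true⟩, ⟨4, true, false⟩, ⟨0, false, false⟩, ⟨1, true, false⟩], [⟨2, true, true⟩, ⟨1, false, false⟩]])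
    (TEqM.byE ((RMove.r2 3 4 (by decide) false true true).teq).symm ![[Sum.inr 0, Sum.inl ⟨0, true, false⟩, Sum.inl ⟨2, false, true⟩], [Sum.inr 1, Sum.inl ⟨0, false, false⟩, Sum.inl ⟨1, true, false⟩], [Sum.inl ⟨2, true, true⟩, Sum.inl ⟨1, false, false⟩]] (by decide +kernel)) ?_
  refine TEqM.trans (t' := ![[⟨3, false, true⟩, ⟨4, true, true⟩, ⟨0, false, true⟩, ⟨2, false, true⟩], [⟨3, true, true⟩, ⟨4, false, true⟩, ⟨0, true, true⟩, ⟨1, true, false⟩], [⟨2, true, true⟩, ⟨1, false, false⟩]])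
    (TEqM.by (flipPar ![0, 4] (by decide) false false) ![[Sum.inl ⟨3, false, true⟩, Sum.inr 1, Sum.inl ⟨2, false, true⟩], [Sum.inl ⟨3, true, true⟩, Sum.inr 0, Sum.inl ⟨1, true, false⟩], [Sum.inl ⟨2, true, true⟩, Sum.inl ⟨1, false, false⟩]] (by decide +kernel)) ?_
  refine TEqM.trans (t' := ![[⟨3, false, true⟩, ⟨4, true, true⟩, ⟨0, true, false⟩, ⟨2, true, false⟩], [⟨3, true, true⟩, ⟨4, false, true⟩, ⟨0, false, false⟩, ⟨1, false, true⟩], [⟨2, false, false⟩, ⟨1, true, true⟩]])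
    (TEqM.byE (flipTri ![0, 1, 2] (by decide) ![false, true, false] ![false, true, true] (by decide)) ![[Sum.inl ⟨3, false, true⟩, Sum.inl ⟨4, true, true⟩, Sum.inr 0], [Sum.inl ⟨3, true, true⟩, Sum.inl ⟨4, false, true⟩, Sum.inr 1], [Sum.inr 2]] (by decide +kernel)) ?_
  refine TEqM.trans (t' := ![[⟨3, false, true⟩, ⟨4, true, true⟩, ⟨2, true, false⟩, ⟨0, true, false⟩], [⟨3, true, true⟩, ⟨4, false, true⟩, ⟨1, false, true⟩, ⟨0, false, false⟩], [⟨1, true, true⟩, ⟨2, false, false⟩]])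
    (TEqM.byE (RMove.r3 ![0, 1, 2] (by decide) ![false, true, false] ![true, false, false] (by decide)).teq ![[Sum.inl ⟨3, false, true⟩, Sum.inl ⟨4, true, true⟩, Sum.inr 0], [Sum.inl ⟨3, true, true⟩, Sum.inl ⟨4, false, true⟩, Sum.inr 1], [Sum.inr 2]] (by decide +kernel)) ?_
  refine TEqM.trans (t' := ![[⟨3, false, true⟩, ⟨4, false, false⟩, ⟨2, false, true⟩, ⟨0, true, false⟩], [⟨3, true, true⟩, ⟨4, true, false⟩, ⟨1, true, false⟩, ⟨0, false, false⟩], [⟨1, false, false⟩, ⟨2, true, true⟩]])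
    (TEqM.byE (flipTri ![1, 4, 2] (by decide) ![false, false, true] ![true, false, true] (by decide)) ![[Sum.inl ⟨3, false, true⟩, Sum.inr 2, Sum.inl ⟨0, true, false⟩], [Sum.inl ⟨3, true, true⟩, Sum.inr 1, Sum.inl ⟨0, false, false⟩], [Sum.inr 0]] (by decide +kernel)) ?_
  exact (TEqM.byE (RMove.r2 3 4 (by decide) false true true).teq ![[Sum.inr 0, Sum.inl ⟨2, false, true⟩, Sum.inl ⟨0, true, false⟩], [Sum.inr 1, Sum.inl ⟨1, true, false⟩, Sum.inl ⟨0, false, false⟩], [Sum.inl ⟨1, false, false⟩, Sum.inl ⟨2, true, true⟩]] (by decide +kernel))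

theorem delta_ftt_f : TEqM ![[⟨0, false, true⟩, ⟨2, true, true⟩], [⟨0, true, true⟩, ⟨1, false, false⟩], [⟨1, true, false⟩, ⟨2, false, true⟩]]
    ![[⟨2, true, true⟩, ⟨0, false, true⟩], [⟨1, false, false⟩, ⟨0, true, true⟩], [⟨2, false, true⟩, ⟨1, true, false⟩]] := by
  refine TEqM.trans (t' := ![[⟨3, true, false⟩, ⟨4, true, true⟩, ⟨0, false, true⟩, ⟨2, true, true⟩], [⟨3, false, false⟩, ⟨4, false, true⟩, ⟨0, true, true⟩, ⟨1, false, false⟩], [⟨1, true, false⟩, ⟨2, false, true⟩]])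
    (TEqM.byE ((RMove.r2 3 4 (by decide) true false true).teq).symm ![[Sum.inr 0, Sum.inl ⟨0, false, true⟩, Sum.inl ⟨2, true, true⟩], [Sum.inr 1, Sum.inl ⟨0, true, true⟩, Sum.inl ⟨1, false, false⟩], [Sum.inl ⟨1, true, false⟩, Sum.inl ⟨2, false, true⟩]] (by decide +kernel)) ?_
  refine TEqM.trans (t' := ![[⟨3, true, false⟩, ⟨4, false, false⟩, ⟨0, true, false⟩, ⟨2, true, true⟩], [⟨3, false, false⟩, ⟨4, true, false⟩, ⟨0, false, false⟩, ⟨1, false, false⟩], [⟨1, true, false⟩, ⟨2, false, true⟩]])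
    (TEqM.by (flipPar ![0, 4] (by decide) false true) ![[Sum.inl ⟨3, true, false⟩, Sum.inr 1, Sum.inl ⟨2, true, true⟩], [Sum.inl ⟨3, false, false⟩, Sum.inr 0, Sum.inl ⟨1, false, false⟩], [Sum.inl ⟨1, true, false⟩, Sum.inl ⟨2, false, true⟩]] (by decide +kernel)) ?_
  refine TEqM.trans (t' := ![[⟨3, true, false⟩, ⟨4, false, false⟩, ⟨0, false, true⟩, ⟨2, false, false⟩], [⟨3, false, false⟩, ⟨4, true, false⟩, ⟨0, true, true⟩, ⟨1, true, true⟩], [⟨1, false, true⟩, ⟨2, true, false⟩]])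
    (TEqM.byE (flipTri ![0, 1, 2] (by decide) ![false, true, true] ![true, false, false] (by decide)) ![[Sum.inl ⟨3, true, false⟩, Sum.inl ⟨4, false, false⟩, Sum.inr 0], [Sum.inl ⟨3, false, false⟩, Sum.inl ⟨4, true, false⟩, Sum.inr 1], [Sum.inr 2]] (by decide +kernel)) ?_
  refine TEqM.trans (t' := ![[⟨3, true, false⟩, ⟨4, false, false⟩, ⟨2, false, false⟩, ⟨0, false, true⟩], [⟨3, false, false⟩, ⟨4, true, false⟩, ⟨1, true, true⟩, ⟨0, true, true⟩], [⟨2, true, false⟩, ⟨1, false, true⟩]])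
    (TEqM.byE (RMove.r3 ![0, 1, 2] (by decide) ![false, true, true] ![false, true, true] (by decide)).teq ![[Sum.inl ⟨3, true, false⟩, Sum.inl ⟨4, false, false⟩, Sum.inr 0], [Sum.inl ⟨3, false, false⟩, Sum.inl ⟨4, true, false⟩, Sum.inr 1], [Sum.inr 2]] (by decide +kernel)) ?_
  refine TEqM.trans (t' := ![[⟨3, true, false⟩, ⟨4, true, true⟩, ⟨2, true, true⟩, ⟨0, false, true⟩], [⟨3, false, false⟩, ⟨4, false, true⟩, ⟨1, false, false⟩, ⟨0, true, true⟩], [⟨2, false, true⟩, ⟨1, true, false⟩]])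
    (TEqM.byE (flipTri ![1, 4, 2] (by decide) ![true, false, true] ![false, true, false] (by decide)) ![[Sum.inl ⟨3, true, false⟩, Sum.inr 2, Sum.inl ⟨0, false, true⟩], [Sum.inl ⟨3, false, false⟩, Sum.inr 1, Sum.inl ⟨0, true, true⟩], [Sum.inr 0]] (by decide +kernel)) ?_
  exact (TEqM.byE (RMove.r2 3 4 (by decide) true false true).teq ![[Sum.inr 0, Sum.inl ⟨2, true, true⟩, Sum.inl ⟨0, false, true⟩], [Sum.inr 1, Sum.inl ⟨1, false, false⟩, Sum.inl ⟨0, true, true⟩], [Sum.inl ⟨2, false, true⟩, Sum.inl ⟨1, true, false⟩]] (by decide +kernel))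

theorem delta_ftt_t : TEqM ![[⟨0, true, false⟩, ⟨2, false, false⟩], [⟨0, false, false⟩, ⟨1, true, true⟩], [⟨1, false, true⟩, ⟨2, true, false⟩]]
    ![[⟨2, false, false⟩, ⟨0, true, false⟩], [⟨1, true, true⟩, ⟨0, false, false⟩], [⟨2, true, false⟩, ⟨1, false, true⟩]] := by
  refine TEqM.trans (t' := ![[⟨3, false, true⟩, ⟨4, false, false⟩, ⟨0, true, false⟩, ⟨2, false, false⟩], [⟨3, true, true⟩, ⟨4, true, false⟩, ⟨0, false, false⟩, ⟨1, true, true⟩], [⟨1, false, true⟩, ⟨2, true, false⟩]])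
    (TEqM.byE ((RMove.r2 3 4 (by decide) false true true).teq).symm ![[Sum.inr 0, Sum.inl ⟨0, true, false⟩, Sum.inl ⟨2, false, false⟩], [Sum.inr 1, Sum.inl ⟨0, false, false⟩, Sum.inl ⟨1, true, true⟩], [Sum.inl ⟨1, false, true⟩, Sum.inl ⟨2, true, false⟩]] (by decide +kernel)) ?_
  refine TEqM.trans (t' := ![[⟨3, false, true⟩, ⟨4, true, true⟩, ⟨0, false, true⟩, ⟨2, false, false⟩], [⟨3, true, true⟩, ⟨4, false, true⟩, ⟨0, true, true⟩, ⟨1, true, true⟩], [⟨1, false, true⟩, ⟨2, true, false⟩]])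
    (TEqM.by (flipPar ![0, 4] (by decide) false false) ![[Sum.inl ⟨3, false, true⟩, Sum.inr 1, Sum.inl ⟨2, false, false⟩], [Sum.inl ⟨3, true, true⟩, Sum.inr 0, Sum.inl ⟨1, true, true⟩], [Sum.inl ⟨1, false, true⟩, Sum.inl ⟨2, true, false⟩]] (by decide +kernel)) ?_
  refine TEqM.trans (t' := ![[⟨3, false, true⟩, ⟨4, true, true⟩, ⟨0, true, false⟩, ⟨2, true, true⟩], [⟨3, true, true⟩, ⟨4, false, true⟩, ⟨0, false, false⟩, ⟨1, false, false⟩], [⟨1, true, false⟩, ⟨2, false, true⟩]])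
    (TEqM.byE (flipTri ![0, 1, 2] (by decide) ![false, true, true] ![false, true, true] (by decide)) ![[Sum.inl ⟨3, false, true⟩, Sum.inl ⟨4, true, true⟩, Sum.inr 0], [Sum.inl ⟨3, true, true⟩, Sum.inl ⟨4, false, true⟩, Sum.inr 1], [Sum.inr 2]] (by decide +kernel)) ?_
  refine TEqM.trans (t' := ![[⟨3, false, true⟩, ⟨4, true, true⟩, ⟨2, true, true⟩, ⟨0, true, false⟩], [⟨3, true, true⟩, ⟨4, false, true⟩, ⟨1, false, false⟩, ⟨0, false, false⟩], [⟨2, false, true⟩, ⟨1, true, false⟩]])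
    (TEqM.byE (RMove.r3 ![0, 1, 2] (by decide) ![false, true, true] ![true, false, false] (by decide)).teq ![[Sum.inl ⟨3, false, true⟩, Sum.inl ⟨4, true, true⟩, Sum.inr 0], [Sum.inl ⟨3, true, true⟩, Sum.inl ⟨4, false, true⟩, Sum.inr 1], [Sum.inr 2]] (by decide +kernel)) ?_
  refine TEqM.trans (t' := ![[⟨3, false, true⟩, ⟨4, false, false⟩, ⟨2, false, false⟩, ⟨0, true, false⟩], [⟨3, true, true⟩, ⟨4, true, false⟩, ⟨1, true, true⟩, ⟨0, false, false⟩], [⟨2, true, false⟩, ⟨1, false, true⟩]])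
    (TEqM.byE (flipTri ![1, 4, 2] (by decide) ![true, false, true] ![true, false, true] (by decide)) ![[Sum.inl ⟨3, false, true⟩, Sum.inr 2, Sum.inl ⟨0, true, false⟩], [Sum.inl ⟨3, true, true⟩, Sum.inr 1, Sum.inl ⟨0, false, false⟩], [Sum.inr 0]] (by decide +kernel)) ?_
  exact (TEqM.byE (RMove.r2 3 4 (by decide) false true true).teq ![[Sum.inr 0, Sum.inl ⟨2, false, false⟩, Sum.inl ⟨0, true, false⟩], [Sum.inr 1, Sum.inl ⟨1, true, true⟩, Sum.inl ⟨0, false, false⟩], [Sum.inl ⟨2, true, false⟩, Sum.inl ⟨1, false, true⟩]] (by decide +kernel))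

theorem delta_tff_f : TEqM ![[⟨2, true, true⟩, ⟨0, false, true⟩], [⟨1, false, false⟩, ⟨0, true, true⟩], [⟨2, false, true⟩, ⟨1, true, false⟩]]
    ![[⟨0, false, true⟩, ⟨2, true, true⟩], [⟨0, true, true⟩, ⟨1, false, false⟩], [⟨1, true, false⟩, ⟨2, false, true⟩]] := by
  refine TEqM.trans (t' := ![[⟨3, true, false⟩, ⟨4, true, true⟩, ⟨2, true, true⟩, ⟨0, false, true⟩], [⟨3, false, false⟩, ⟨4, false, true⟩, ⟨1, false, false⟩, ⟨0, true, true⟩], [⟨2, false, true⟩, ⟨1, true, false⟩]])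
    (TEqM.byE ((RMove.r2 3 4 (by decide) true false true).teq).symm ![[Sum.inr 0, Sum.inl ⟨2, true, true⟩, Sum.inl ⟨0, false, true⟩], [Sum.inr 1, Sum.inl ⟨1, false, false⟩, Sum.inl ⟨0, true, true⟩], [Sum.inl ⟨2, false, true⟩, Sum.inl ⟨1, true, false⟩]] (by decide +kernel)) ?_
  refine TEqM.trans (t' := ![[⟨3, true, false⟩, ⟨4, false, false⟩, ⟨2, false, false⟩, ⟨0, false, true⟩], [⟨3, false, false⟩, ⟨4, true, false⟩, ⟨1, true, true⟩, ⟨0, true, true⟩], [⟨2, true, false⟩, ⟨1, false, true⟩]])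
    (TEqM.byE (flipTri ![1, 4, 2] (by decide) ![true, false, true] ![true, false, true] (by decide)) ![[Sum.inl ⟨3, true, false⟩, Sum.inr 2, Sum.inl ⟨0, false, true⟩], [Sum.inl ⟨3, false, false⟩, Sum.inr 1, Sum.inl ⟨0, true, true⟩], [Sum.inr 0]] (by decide +kernel)) ?_
  refine TEqM.trans (t' := ![[⟨3, false, true⟩, ⟨4, true, true⟩, ⟨2, false, false⟩, ⟨0, false, true⟩], [⟨3, true, true⟩, ⟨4, false, true⟩, ⟨1, true, true⟩, ⟨0, true, true⟩], [⟨2, true, false⟩, ⟨1, false, true⟩]])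
    (TEqM.by (flipPar ![3, 4] (by decide) true false) ![[Sum.inr 1, Sum.inl ⟨2, false, false⟩, Sum.inl ⟨0, false, true⟩], [Sum.inr 0, Sum.inl ⟨1, true, true⟩, Sum.inl ⟨0, true, true⟩], [Sum.inl ⟨2, true, false⟩, Sum.inl ⟨1, false, true⟩]] (by decide +kernel)) ?_
  refine TEqM.trans (t' := ![[⟨3, false, true⟩, ⟨4, true, true⟩, ⟨2, true, true⟩, ⟨0, true, false⟩], [⟨3, true, true⟩, ⟨4, false, true⟩, ⟨1, false, false⟩, ⟨0, false, false⟩], [⟨2, false, true⟩, ⟨1, true, false⟩]])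
    (TEqM.byE (flipTri ![0, 1, 2] (by decide) ![true, false, false] ![false, true, true] (by decide)) ![[Sum.inl ⟨3, false, true⟩, Sum.inl ⟨4, true, true⟩, Sum.inr 0], [Sum.inl ⟨3, true, true⟩, Sum.inl ⟨4, false, true⟩, Sum.inr 1], [Sum.inr 2]] (by decide +kernel)) ?_
  refine TEqM.trans (t' := ![[⟨3, false, true⟩, ⟨4, true, true⟩, ⟨0, true, false⟩, ⟨2, true, true⟩], [⟨3, true, true⟩, ⟨4, false, true⟩, ⟨0, false, false⟩, ⟨1, false, false⟩], [⟨1, true, false⟩, ⟨2, false, true⟩]])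
    (TEqM.byE (RMove.r3 ![0, 1, 2] (by decide) ![true, false, false] ![true, false, false] (by decide)).teq ![[Sum.inl ⟨3, false, true⟩, Sum.inl ⟨4, true, true⟩, Sum.inr 0], [Sum.inl ⟨3, true, true⟩, Sum.inl ⟨4, false, true⟩, Sum.inr 1], [Sum.inr 2]] (by decide +kernel)) ?_
  refine TEqM.trans (t' := ![[⟨3, false, true⟩, ⟨2, true, true⟩], [⟨3, true, true⟩, ⟨1, false, false⟩], [⟨1, true, false⟩, ⟨2, false, true⟩]])
    (TEqM.byE (RMove.r2 4 0 (by decide) false true true).teq ![[Sum.inl ⟨3, false, true⟩, Sum.inr 1, Sum.inl ⟨2, true, true⟩], [Sum.inl ⟨3, true, true⟩, Sum.inr 0, Sum.inl ⟨1, false, false⟩], [Sum.inl ⟨1, true, false⟩, Sum.inl ⟨2, false, true⟩]] (by decide +kernel)) ?_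
  exact (TEqM.swpE 3 0 (by decide +kernel))

theorem delta_tff_t : TEqM ![[⟨2, false, false⟩, ⟨0, true, false⟩], [⟨1, true, true⟩, ⟨0, false, false⟩], [⟨2, true, false⟩, ⟨1, false, true⟩]]
    ![[⟨0, true, false⟩, ⟨2, false, false⟩], [⟨0, false, false⟩, ⟨1, true, true⟩], [⟨1, false, true⟩, ⟨2, true, false⟩]] := by
  refine TEqM.trans (t' := ![[⟨3, false, true⟩, ⟨4, false, false⟩, ⟨2, false, false⟩, ⟨0, true, false⟩], [⟨3, true, true⟩, ⟨4, true, false⟩, ⟨1, true, true⟩, ⟨0, false, false⟩], [⟨2, true, false⟩, ⟨1, false, true⟩]])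
    (TEqM.byE ((RMove.r2 3 4 (by decide) false true true).teq).symm ![[Sum.inr 0, Sum.inl ⟨2, false, false⟩, Sum.inl ⟨0, true, false⟩], [Sum.inr 1, Sum.inl ⟨1, true, true⟩, Sum.inl ⟨0, false, false⟩], [Sum.inl ⟨2, true, false⟩, Sum.inl ⟨1, false, true⟩]] (by decide +kernel)) ?_
  refine TEqM.trans (t' := ![[⟨3, false, true⟩, ⟨4, true, true⟩, ⟨2, true, true⟩, ⟨0, true, false⟩], [⟨3, true, true⟩, ⟨4, false, true⟩, ⟨1, false, false⟩, ⟨0, false, false⟩], [⟨2, false, true⟩, ⟨1, true, false⟩]])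
    (TEqM.byE (flipTri ![1, 4, 2] (by decide) ![true, false, true] ![false, true, false] (by decide)) ![[Sum.inl ⟨3, false, true⟩, Sum.inr 2, Sum.inl ⟨0, true, false⟩], [Sum.inl ⟨3, true, true⟩, Sum.inr 1, Sum.inl ⟨0, false, false⟩], [Sum.inr 0]] (by decide +kernel)) ?_
  refine TEqM.trans (t' := ![[⟨3, true, false⟩, ⟨4, false, false⟩, ⟨2, true, true⟩, ⟨0, true, false⟩], [⟨3, false, false⟩, ⟨4, true, false⟩, ⟨1, false, false⟩, ⟨0, false, false⟩], [⟨2, false, true⟩, ⟨1, true, false⟩]])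
    (TEqM.by (flipPar ![3, 4] (by decide) true true) ![[Sum.inr 1, Sum.inl ⟨2, true, true⟩, Sum.inl ⟨0, true, false⟩], [Sum.inr 0, Sum.inl ⟨1, false, false⟩, Sum.inl ⟨0, false, false⟩], [Sum.inl ⟨2, false, true⟩, Sum.inl ⟨1, true, false⟩]] (by decide +kernel)) ?_
  refine TEqM.trans (t' := ![[⟨3, true, false⟩, ⟨4, false, false⟩, ⟨2, false, false⟩, ⟨0, false, true⟩], [⟨3, false, false⟩, ⟨4, true, false⟩, ⟨1, true, true⟩, ⟨0, true, true⟩], [⟨2, true, false⟩, ⟨1, false, true⟩]])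
    (TEqM.byE (flipTri ![0, 1, 2] (by decide) ![true, false, false] ![true, false, false] (by decide)) ![[Sum.inl ⟨3, true, false⟩, Sum.inl ⟨4, false, false⟩, Sum.inr 0], [Sum.inl ⟨3, false, false⟩, Sum.inl ⟨4, true, false⟩, Sum.inr 1], [Sum.inr 2]] (by decide +kernel)) ?_
  refine TEqM.trans (t' := ![[⟨3, true, false⟩, ⟨4, false, false⟩, ⟨0, false, true⟩, ⟨2, false, false⟩], [⟨3, false, false⟩, ⟨4, true, false⟩, ⟨0, true, true⟩, ⟨1, true, true⟩], [⟨1, false, true⟩, ⟨2, true, false⟩]])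
    (TEqM.byE (RMove.r3 ![0, 1, 2] (by decide) ![true, false, false] ![false, true, true] (by decide)).teq ![[Sum.inl ⟨3, true, false⟩, Sum.inl ⟨4, false, false⟩, Sum.inr 0], [Sum.inl ⟨3, false, false⟩, Sum.inl ⟨4, true, false⟩, Sum.inr 1], [Sum.inr 2]] (by decide +kernel)) ?_
  refine TEqM.trans (t' := ![[⟨3, true, false⟩, ⟨2, false, false⟩], [⟨3, false, false⟩, ⟨1, true, true⟩], [⟨1, false, true⟩, ⟨2, true, false⟩]])
    (TEqM.byE (RMove.r2 4 0 (by decide) true false true).teq ![[Sum.inl ⟨3, true, false⟩, Sum.inr 1, Sum.inl ⟨2, false, false⟩], [Sum.inl ⟨3, false, false⟩, Sum.inr 0, Sum.inl ⟨1, true, true⟩], [Sum.inl ⟨1, false, true⟩, Sum.inl ⟨2, true, false⟩]] (by decide +kernel)) ?_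
  exact (TEqM.swpE 3 0 (by decide +kernel))

theorem delta_tft_f : TEqM ![[⟨2, true, false⟩, ⟨0, false, true⟩], [⟨1, false, true⟩, ⟨0, true, true⟩], [⟨1, true, true⟩, ⟨2, false, false⟩]]
    ![[⟨0, false, true⟩, ⟨2, true, false⟩], [⟨0, true, true⟩, ⟨1, false, true⟩], [⟨2, false, false⟩, ⟨1, true, true⟩]] := by
  refine TEqM.trans (t' := ![[⟨3, true, false⟩, ⟨4, true, true⟩, ⟨2, true, false⟩, ⟨0, false, true⟩], [⟨3, false, false⟩, ⟨4, false, true⟩, ⟨1, false, true⟩, ⟨0, true, true⟩], [⟨1, true, true⟩, ⟨2, false, false⟩]])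
    (TEqM.byE ((RMove.r2 3 4 (by decide) true false true).teq).symm ![[Sum.inr 0, Sum.inl ⟨2, true, false⟩, Sum.inl ⟨0, false, true⟩], [Sum.inr 1, Sum.inl ⟨1, false, true⟩, Sum.inl ⟨0, true, true⟩], [Sum.inl ⟨1, true, true⟩, Sum.inl ⟨2, false, false⟩]] (by decide +kernel)) ?_
  refine TEqM.trans (t' := ![[⟨3, true, false⟩, ⟨4, false, false⟩, ⟨2, false, true⟩, ⟨0, false, true⟩], [⟨3, false, false⟩, ⟨4, true, false⟩, ⟨1, true, false⟩, ⟨0, true, true⟩], [⟨1, false, false⟩, ⟨2, true, true⟩]])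
    (TEqM.byE (flipTri ![1, 4, 2] (by decide) ![false, false, true] ![true, false, true] (by decide)) ![[Sum.inl ⟨3, true, false⟩, Sum.inr 2, Sum.inl ⟨0, false, true⟩], [Sum.inl ⟨3, false, false⟩, Sum.inr 1, Sum.inl ⟨0, true, true⟩], [Sum.inr 0]] (by decide +kernel)) ?_
  refine TEqM.trans (t' := ![[⟨3, false, true⟩, ⟨4, true, true⟩, ⟨2, false, true⟩, ⟨0, false, true⟩], [⟨3, true, true⟩, ⟨4, false, true⟩, ⟨1, true, false⟩, ⟨0, true, true⟩], [⟨1, false, false⟩, ⟨2, true, true⟩]])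
    (TEqM.by (flipPar ![3, 4] (by decide) true false) ![[Sum.inr 1, Sum.inl ⟨2, false, true⟩, Sum.inl ⟨0, false, true⟩], [Sum.inr 0, Sum.inl ⟨1, true, false⟩, Sum.inl ⟨0, true, true⟩], [Sum.inl ⟨1, false, false⟩, Sum.inl ⟨2, true, true⟩]] (by decide +kernel)) ?_
  refine TEqM.trans (t' := ![[⟨3, false, true⟩, ⟨4, true, true⟩, ⟨2, true, false⟩, ⟨0, true, false⟩], [⟨3, true, true⟩, ⟨4, false, true⟩, ⟨1, false, true⟩, ⟨0, false, false⟩], [⟨1, true, true⟩, ⟨2, false, false⟩]])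
    (TEqM.byE (flipTri ![0, 1, 2] (by decide) ![true, false, true] ![false, true, true] (by decide)) ![[Sum.inl ⟨3, false, true⟩, Sum.inl ⟨4, true, true⟩, Sum.inr 0], [Sum.inl ⟨3, true, true⟩, Sum.inl ⟨4, false, true⟩, Sum.inr 1], [Sum.inr 2]] (by decide +kernel)) ?_
  refine TEqM.trans (t' := ![[⟨3, false, true⟩, ⟨4, true, true⟩, ⟨0, true, false⟩, ⟨2, true, false⟩], [⟨3, true, true⟩, ⟨4, false, true⟩, ⟨0, false, false⟩, ⟨1, false, true⟩], [⟨2, false, false⟩, ⟨1, true, true⟩]])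
    (TEqM.byE (RMove.r3 ![0, 1, 2] (by decide) ![true, false, true] ![true, false, false] (by decide)).teq ![[Sum.inl ⟨3, false, true⟩, Sum.inl ⟨4, true, true⟩, Sum.inr 0], [Sum.inl ⟨3, true, true⟩, Sum.inl ⟨4, false, true⟩, Sum.inr 1], [Sum.inr 2]] (by decide +kernel)) ?_
  refine TEqM.trans (t' := ![[⟨3, false, true⟩, ⟨2, true, false⟩], [⟨3, true, true⟩, ⟨1, false, true⟩], [⟨2, false, false⟩, ⟨1, true, true⟩]])
    (TEqM.byE (RMove.r2 4 0 (by decide) false true true).teq ![[Sum.inl ⟨3, false, true⟩, Sum.inr 1, Sum.inl ⟨2, true, false⟩], [Sum.inl ⟨3, true, true⟩, Sum.inr 0, Sum.inl ⟨1, false, true⟩], [Sum.inl ⟨2, false, false⟩, Sum.inl ⟨1, true, true⟩]] (by decide +kernel)) ?_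
  exact (TEqM.swpE 3 0 (by decide +kernel))

theorem delta_tft_t : TEqM ![[⟨2, false, true⟩, ⟨0, true, false⟩], [⟨1, true, false⟩, ⟨0, false, false⟩], [⟨1, false, false⟩, ⟨2, true, true⟩]]
    ![[⟨0, true, false⟩, ⟨2, false, true⟩], [⟨0, false, false⟩, ⟨1, true, false⟩], [⟨2, true, true⟩, ⟨1, false, false⟩]] := by
  refine TEqM.trans (t' := ![[⟨3, false, true⟩, ⟨4, false, false⟩, ⟨2, false, true⟩, ⟨0, true, false⟩], [⟨3, true, true⟩, ⟨4, true, false⟩, ⟨1, true, false⟩, ⟨0, false, false⟩], [⟨1, false, false⟩, ⟨2, true, true⟩]])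
    (TEqM.byE ((RMove.r2 3 4 (by decide) false true true).teq).symm ![[Sum.inr 0, Sum.inl ⟨2, false, true⟩, Sum.inl ⟨0, true, false⟩], [Sum.inr 1, Sum.inl ⟨1, true, false⟩, Sum.inl ⟨0, false, false⟩], [Sum.inl ⟨1, false, false⟩, Sum.inl ⟨2, true, true⟩]] (by decide +kernel)) ?_
  refine TEqM.trans (t' := ![[⟨3, false, true⟩, ⟨4, true, true⟩, ⟨2, true, false⟩, ⟨0, true, false⟩], [⟨3, true, true⟩, ⟨4, false, true⟩, ⟨1, false, true⟩, ⟨0, false, false⟩], [⟨1, true, true⟩, ⟨2, false, false⟩]])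
    (TEqM.byE (flipTri ![1, 4, 2] (by decide) ![false, false, true] ![false, true, false] (by decide)) ![[Sum.inl ⟨3, false, true⟩, Sum.inr 2, Sum.inl ⟨0, true, false⟩], [Sum.inl ⟨3, true, true⟩, Sum.inr 1, Sum.inl ⟨0, false, false⟩], [Sum.inr 0]] (by decide +kernel)) ?_
  refine TEqM.trans (t' := ![[⟨3, true, false⟩, ⟨4, false, false⟩, ⟨2, true, false⟩, ⟨0, true, false⟩], [⟨3, false, false⟩, ⟨4, true, false⟩, ⟨1, false, true⟩, ⟨0, false, false⟩], [⟨1, true, true⟩, ⟨2, false, false⟩]])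
    (TEqM.by (flipPar ![3, 4] (by decide) true true) ![[Sum.inr 1, Sum.inl ⟨2, true, false⟩, Sum.inl ⟨0, true, false⟩], [Sum.inr 0, Sum.inl ⟨1, false, true⟩, Sum.inl ⟨0, false, false⟩], [Sum.inl ⟨1, true, true⟩, Sum.inl ⟨2, false, false⟩]] (by decide +kernel)) ?_
  refine TEqM.trans (t' := ![[⟨3, true, false⟩, ⟨4, false, false⟩, ⟨2, false, true⟩, ⟨0, false, true⟩], [⟨3, false, false⟩, ⟨4, true, false⟩, ⟨1, true, false⟩, ⟨0, true, true⟩], [⟨1, false, false⟩, ⟨2, true, true⟩]])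
    (TEqM.byE (flipTri ![0, 1, 2] (by decide) ![true, false, true] ![true, false, false] (by decide)) ![[Sum.inl ⟨3, true, false⟩, Sum.inl ⟨4, false, false⟩, Sum.inr 0], [Sum.inl ⟨3, false, false⟩, Sum.inl ⟨4, true, false⟩, Sum.inr 1], [Sum.inr 2]] (by decide +kernel)) ?_
  refine TEqM.trans (t' := ![[⟨3, true, false⟩, ⟨4, false, false⟩, ⟨0, false, true⟩, ⟨2, false, true⟩], [⟨3, false, false⟩, ⟨4, true, false⟩, ⟨0, true, true⟩, ⟨1, true, false⟩], [⟨2, true, true⟩, ⟨1, false, false⟩]])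
    (TEqM.byE (RMove.r3 ![0, 1, 2] (by decide) ![true, false, true] ![false, true, true] (by decide)).teq ![[Sum.inl ⟨3, true, false⟩, Sum.inl ⟨4, false, false⟩, Sum.inr 0], [Sum.inl ⟨3, false, false⟩, Sum.inl ⟨4, true, false⟩, Sum.inr 1], [Sum.inr 2]] (by decide +kernel)) ?_
  refine TEqM.trans (t' := ![[⟨3, true, false⟩, ⟨2, false, true⟩], [⟨3, false, false⟩, ⟨1, true, false⟩], [⟨2, true, true⟩, ⟨1, false, false⟩]])
    (TEqM.byE (RMove.r2 4 0 (by decide) true false true).teq ![[Sum.inl ⟨3, true, false⟩, Sum.inr 1, Sum.inl ⟨2, false, true⟩], [Sum.inl ⟨3, false, false⟩, Sum.inr 0, Sum.inl ⟨1, true, false⟩], [Sum.inl ⟨2, true, true⟩, Sum.inl ⟨1, false, false⟩]] (by decide +kernel)) ?_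
  exact (TEqM.swpE 3 0 (by decide +kernel))

theorem delta_ttf_f : TEqM ![[⟨2, true, true⟩, ⟨0, false, false⟩], [⟨0, true, false⟩, ⟨1, false, true⟩], [⟨2, false, true⟩, ⟨1, true, true⟩]]
    ![[⟨0, false, false⟩, ⟨2, true, true⟩], [⟨1, false, true⟩, ⟨0, true, false⟩], [⟨1, true, true⟩, ⟨2, false, true⟩]] := by
  refine TEqM.trans (t' := ![[⟨3, false, false⟩, ⟨4, false, true⟩, ⟨2, true, true⟩, ⟨0, false, false⟩], [⟨0, true, false⟩, ⟨1, false, true⟩], [⟨3, true, false⟩, ⟨4, true, true⟩, ⟨2, false, true⟩, ⟨1, true, true⟩]])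
    (TEqM.byE ((RMove.r2 3 4 (by decide) false false true).teq).symm ![[Sum.inr 0, Sum.inl ⟨2, true, true⟩, Sum.inl ⟨0, false, false⟩], [Sum.inl ⟨0, true, false⟩, Sum.inl ⟨1, false, true⟩], [Sum.inr 1, Sum.inl ⟨2, false, true⟩, Sum.inl ⟨1, true, true⟩]] (by decide +kernel)) ?_
  refine TEqM.trans (t' := ![[⟨3, false, false⟩, ⟨4, true, false⟩, ⟨2, false, false⟩, ⟨0, false, false⟩], [⟨0, true, false⟩, ⟨1, false, true⟩], [⟨3, true, false⟩, ⟨4, false, false⟩, ⟨2, true, false⟩, ⟨1, true, true⟩]])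
    (TEqM.by (flipPar ![2, 4] (by decide) false true) ![[Sum.inl ⟨3, false, false⟩, Sum.inr 0, Sum.inl ⟨0, false, false⟩], [Sum.inl ⟨0, true, false⟩, Sum.inl ⟨1, false, true⟩], [Sum.inl ⟨3, true, false⟩, Sum.inr 1, Sum.inl ⟨1, true, true⟩]] (by decide +kernel)) ?_
  refine TEqM.trans (t' := ![[⟨3, false, false⟩, ⟨4, true, false⟩, ⟨2, true, true⟩, ⟨0, true, true⟩], [⟨0, false, true⟩, ⟨1, true, false⟩], [⟨3, true, false⟩, ⟨4, false, false⟩, ⟨2, false, true⟩, ⟨1, false, false⟩]])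
    (TEqM.byE (flipTri ![0, 1, 2] (by decide) ![true, true, false] ![false, false, true] (by decide)) ![[Sum.inl ⟨3, false, false⟩, Sum.inl ⟨4, true, false⟩, Sum.inr 0], [Sum.inr 1], [Sum.inl ⟨3, true, false⟩, Sum.inl ⟨4, false, false⟩, Sum.inr 2]] (by decide +kernel)) ?_
  refine TEqM.trans (t' := ![[⟨3, false, false⟩, ⟨4, true, false⟩, ⟨0, true, true⟩, ⟨2, true, true⟩], [⟨1, true, false⟩, ⟨0, false, true⟩], [⟨3, true, false⟩, ⟨4, false, false⟩, ⟨1, false, false⟩, ⟨2, false, true⟩]])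
    (TEqM.byE (RMove.r3 ![0, 1, 2] (by decide) ![true, true, false] ![true, true, false] (by decide)).teq ![[Sum.inl ⟨3, false, false⟩, Sum.inl ⟨4, true, false⟩, Sum.inr 0], [Sum.inr 1], [Sum.inl ⟨3, true, false⟩, Sum.inl ⟨4, false, false⟩, Sum.inr 2]] (by decide +kernel)) ?_
  refine TEqM.trans (t' := ![[⟨3, false, false⟩, ⟨4, false, true⟩, ⟨0, false, false⟩, ⟨2, true, true⟩], [⟨1, false, true⟩, ⟨0, true, false⟩], [⟨3, true, false⟩, ⟨4, true, true⟩, ⟨1, true, true⟩, ⟨2, false, true⟩]])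
    (TEqM.byE (flipTri ![0, 4, 1] (by decide) ![true, false, true] ![false, true, false] (by decide)) ![[Sum.inl ⟨3, false, false⟩, Sum.inr 1, Sum.inl ⟨2, true, true⟩], [Sum.inr 0], [Sum.inl ⟨3, true, false⟩, Sum.inr 2, Sum.inl ⟨2, false, true⟩]] (by decide +kernel)) ?_
  exact (TEqM.byE (RMove.r2 3 4 (by decide) true false true).teq ![[Sum.inr 1, Sum.inl ⟨0, false, false⟩, Sum.inl ⟨2, true, true⟩], [Sum.inl ⟨1, false, true⟩, Sum.inl ⟨0, true, false⟩], [Sum.inr 0, Sum.inl ⟨1, true, true⟩, Sum.inl ⟨2, false, true⟩]] (by decide +kernel))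

theorem delta_ttf_t : TEqM ![[⟨2, false, false⟩, ⟨0, true, true⟩], [⟨0, false, true⟩, ⟨1, true, false⟩], [⟨2, true, false⟩, ⟨1, false, false⟩]]
    ![[⟨0, true, true⟩, ⟨2, false, false⟩], [⟨1, true, false⟩, ⟨0, false, true⟩], [⟨1, false, false⟩, ⟨2, true, false⟩]] := by
  refine TEqM.trans (t' := ![[⟨3, true, true⟩, ⟨4, true, false⟩, ⟨2, false, false⟩, ⟨0, true, true⟩], [⟨0, false, true⟩, ⟨1, true, false⟩], [⟨3, false, true⟩, ⟨4, false, false⟩, ⟨2, true, false⟩, ⟨1, false, false⟩]])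
    (TEqM.byE ((RMove.r2 3 4 (by decide) true true true).teq).symm ![[Sum.inr 0, Sum.inl ⟨2, false, false⟩, Sum.inl ⟨0, true, true⟩], [Sum.inl ⟨0, false, true⟩, Sum.inl ⟨1, true, false⟩], [Sum.inr 1, Sum.inl ⟨2, true, false⟩, Sum.inl ⟨1, false, false⟩]] (by decide +kernel)) ?_
  refine TEqM.trans (t' := ![[⟨3, true, true⟩, ⟨4, false, true⟩, ⟨2, true, true⟩, ⟨0, true, true⟩], [⟨0, false, true⟩, ⟨1, true, false⟩], [⟨3, false, true⟩, ⟨4, true, true⟩, ⟨2, false, true⟩, ⟨1, false, false⟩]])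
    (TEqM.by (flipPar ![2, 4] (by decide) false false) ![[Sum.inl ⟨3, true, true⟩, Sum.inr 0, Sum.inl ⟨0, true, true⟩], [Sum.inl ⟨0, false, true⟩, Sum.inl ⟨1, true, false⟩], [Sum.inl ⟨3, false, true⟩, Sum.inr 1, Sum.inl ⟨1, false, false⟩]] (by decide +kernel)) ?_
  refine TEqM.trans (t' := ![[⟨3, true, true⟩, ⟨4, false, true⟩, ⟨2, false, false⟩, ⟨0, false, false⟩], [⟨0, true, false⟩, ⟨1, false, true⟩], [⟨3, false, true⟩, ⟨4, true, true⟩, ⟨2, true, false⟩, ⟨1, true, true⟩]])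
    (TEqM.byE (flipTri ![0, 1, 2] (by decide) ![true, true, false] ![true, true, false] (by decide)) ![[Sum.inl ⟨3, true, true⟩, Sum.inl ⟨4, false, true⟩, Sum.inr 0], [Sum.inr 1], [Sum.inl ⟨3, false, true⟩, Sum.inl ⟨4, true, true⟩, Sum.inr 2]] (by decide +kernel)) ?_
  refine TEqM.trans (t' := ![[⟨3, true, true⟩, ⟨4, false, true⟩, ⟨0, false, false⟩, ⟨2, false, false⟩], [⟨1, false, true⟩, ⟨0, true, false⟩], [⟨3, false, true⟩, ⟨4, true, true⟩, ⟨1, true, true⟩, ⟨2, true, false⟩]])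
    (TEqM.byE (RMove.r3 ![0, 1, 2] (by decide) ![true, true, false] ![false, false, true] (by decide)).teq ![[Sum.inl ⟨3, true, true⟩, Sum.inl ⟨4, false, true⟩, Sum.inr 0], [Sum.inr 1], [Sum.inl ⟨3, false, true⟩, Sum.inl ⟨4, true, true⟩, Sum.inr 2]] (by decide +kernel)) ?_
  refine TEqM.trans (t' := ![[⟨3, true, true⟩, ⟨4, true, false⟩, ⟨0, true, true⟩, ⟨2, false, false⟩], [⟨1, true, false⟩, ⟨0, false, true⟩], [⟨3, false, true⟩, ⟨4, false, false⟩, ⟨1, false, false⟩, ⟨2, true, false⟩]])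
    (TEqM.byE (flipTri ![0, 4, 1] (by decide) ![true, false, true] ![true, false, true] (by decide)) ![[Sum.inl ⟨3, true, true⟩, Sum.inr 1, Sum.inl ⟨2, false, false⟩], [Sum.inr 0], [Sum.inl ⟨3, false, true⟩, Sum.inr 2, Sum.inl ⟨2, true, false⟩]] (by decide +kernel)) ?_
  exact (TEqM.byE (RMove.r2 3 4 (by decide) false true true).teq ![[Sum.inr 1, Sum.inl ⟨0, true, true⟩, Sum.inl ⟨2, false, false⟩], [Sum.inl ⟨1, true, false⟩, Sum.inl ⟨0, false, true⟩], [Sum.inr 0, Sum.inl ⟨1, false, false⟩, Sum.inl ⟨2, true, false⟩]] (by decide +kernel))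

theorem delta_ttt_f : TEqM ![[⟨2, true, false⟩, ⟨0, false, false⟩], [⟨0, true, false⟩, ⟨1, false, false⟩], [⟨1, true, false⟩, ⟨2, false, false⟩]]
    ![[⟨0, false, false⟩, ⟨2, true, false⟩], [⟨1, false, false⟩, ⟨0, true, false⟩], [⟨2, false, false⟩, ⟨1, true, false⟩]] := by
  refine TEqM.trans (t' := ![[⟨3, false, false⟩, ⟨4, false, true⟩, ⟨2, true, false⟩, ⟨0, false, false⟩], [⟨0, true, false⟩, ⟨1, false, false⟩, ⟨4, true, true⟩, ⟨3, true, false⟩], [⟨1, true, false⟩, ⟨2, false, false⟩]])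
    (TEqM.byE ((RMove.r2 3 4 (by decide) false false false).teq).symm ![[Sum.inr 0, Sum.inl ⟨2, true, false⟩, Sum.inl ⟨0, false, false⟩], [Sum.inl ⟨0, true, false⟩, Sum.inl ⟨1, false, false⟩, Sum.inr 1], [Sum.inl ⟨1, true, false⟩, Sum.inl ⟨2, false, false⟩]] (by decide +kernel)) ?_
  refine TEqM.trans (t' := ![[⟨3, false, false⟩, ⟨5, false, true⟩, ⟨6, false, false⟩, ⟨4, false, true⟩, ⟨2, true, false⟩, ⟨0, false, false⟩], [⟨0, true, false⟩, ⟨1, false, false⟩, ⟨4, true, true⟩, ⟨3, true, false⟩], [⟨5, true, true⟩, ⟨6, true, false⟩, ⟨1, true, false⟩, ⟨2, false, false⟩]])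
    (TEqM.byE ((RMove.r2 5 6 (by decide) false true true).teq).symm ![[Sum.inl ⟨3, false, false⟩, Sum.inr 0, Sum.inl ⟨4, false, true⟩, Sum.inl ⟨2, true, false⟩, Sum.inl ⟨0, false, false⟩], [Sum.inl ⟨0, true, false⟩, Sum.inl ⟨1, false, false⟩, Sum.inl ⟨4, true, true⟩, Sum.inl ⟨3, true, false⟩], [Sum.inr 1, Sum.inl ⟨1, true, false⟩, Sum.inl ⟨2, false, false⟩]] (by decide +kernel)) ?_
  refine TEqM.trans (t' := ![[⟨3, false, false⟩, ⟨5, false, true⟩, ⟨6, true, true⟩, ⟨4, true, false⟩, ⟨2, true, false⟩, ⟨0, false, false⟩], [⟨0, true, false⟩, ⟨1, true, true⟩, ⟨4, false, false⟩, ⟨3, true, false⟩], [⟨5, true, true⟩, ⟨6, false, true⟩, ⟨1, false, true⟩, ⟨2, false, false⟩]])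
    (TEqM.byE (flipTri ![1, 6, 4] (by decide) ![false, false, true] ![false, true, false] (by decide)) ![[Sum.inl ⟨3, false, false⟩, Sum.inl ⟨5, false, true⟩, Sum.inr 2, Sum.inl ⟨2, true, false⟩, Sum.inl ⟨0, false, false⟩], [Sum.inl ⟨0, true, false⟩, Sum.inr 0, Sum.inl ⟨3, true, false⟩], [Sum.inl ⟨5, true, true⟩, Sum.inr 1, Sum.inl ⟨2, false, false⟩]] (by decide +kernel)) ?_
  refine TEqM.trans (t' := ![[⟨3, false, false⟩, ⟨5, true, false⟩, ⟨6, false, false⟩, ⟨4, true, false⟩, ⟨2, true, false⟩, ⟨0, false, false⟩], [⟨0, true, false⟩, ⟨1, true, true⟩, ⟨4, false, false⟩, ⟨3, true, false⟩], [⟨5, false, false⟩, ⟨6, true, false⟩, ⟨1, false, true⟩, ⟨2, false, false⟩]])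
    (TEqM.by (flipPar ![5, 6] (by decide) true true) ![[Sum.inl ⟨3, false, false⟩, Sum.inr 1, Sum.inl ⟨4, true, false⟩, Sum.inl ⟨2, true, false⟩, Sum.inl ⟨0, false, false⟩], [Sum.inl ⟨0, true, false⟩, Sum.inl ⟨1, true, true⟩, Sum.inl ⟨4, false, false⟩, Sum.inl ⟨3, true, false⟩], [Sum.inr 0, Sum.inl ⟨1, false, true⟩, Sum.inl ⟨2, false, false⟩]] (by decide +kernel)) ?_
  refine TEqM.trans (t' := ![[⟨3, false, false⟩, ⟨5, true, false⟩, ⟨6, false, false⟩, ⟨4, false, true⟩, ⟨2, false, true⟩, ⟨0, false, false⟩], [⟨0, true, false⟩, ⟨1, false, false⟩, ⟨4, true, true⟩, ⟨3, true, false⟩], [⟨5, false, false⟩, ⟨6, true, false⟩, ⟨1, true, false⟩, ⟨2, true, true⟩]])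
    (TEqM.byE (flipTri ![1, 4, 2] (by decide) ![false, true, true] ![false, false, true] (by decide)) ![[Sum.inl ⟨3, false, false⟩, Sum.inl ⟨5, true, false⟩, Sum.inl ⟨6, false, false⟩, Sum.inr 2, Sum.inl ⟨0, false, false⟩], [Sum.inl ⟨0, true, false⟩, Sum.inr 1, Sum.inl ⟨3, true, false⟩], [Sum.inl ⟨5, false, false⟩, Sum.inl ⟨6, true, false⟩, Sum.inr 0]] (by decide +kernel)) ?_
  refine TEqM.trans (t' := ![[⟨3, false, false⟩, ⟨5, true, false⟩, ⟨6, false, false⟩, ⟨2, false, true⟩, ⟨4, false, true⟩, ⟨0, false, false⟩], [⟨0, true, false⟩, ⟨4, true, true⟩, ⟨1, false, false⟩, ⟨3, true, false⟩], [⟨5, false, false⟩, ⟨6, true, false⟩, ⟨2, true, true⟩, ⟨1, true, false⟩]])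
    (TEqM.byE (RMove.r3 ![1, 4, 2] (by decide) ![false, true, true] ![true, true, false] (by decide)).teq ![[Sum.inl ⟨3, false, false⟩, Sum.inl ⟨5, true, false⟩, Sum.inl ⟨6, false, false⟩, Sum.inr 2, Sum.inl ⟨0, false, false⟩], [Sum.inl ⟨0, true, false⟩, Sum.inr 1, Sum.inl ⟨3, true, false⟩], [Sum.inl ⟨5, false, false⟩, Sum.inl ⟨6, true, false⟩, Sum.inr 0]] (by decide +kernel)) ?_
  refine TEqM.trans (t' := ![[⟨3, false, false⟩, ⟨5, true, false⟩, ⟨4, false, true⟩, ⟨0, false, false⟩], [⟨0, true, false⟩, ⟨4, true, true⟩, ⟨1, false, false⟩, ⟨3, true, false⟩], [⟨5, false, false⟩, ⟨1, true, false⟩]])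
    (TEqM.byE (RMove.r2 6 2 (by decide) true false true).teq ![[Sum.inl ⟨3, false, false⟩, Sum.inl ⟨5, true, false⟩, Sum.inr 1, Sum.inl ⟨4, false, true⟩, Sum.inl ⟨0, false, false⟩], [Sum.inl ⟨0, true, false⟩, Sum.inl ⟨4, true, true⟩, Sum.inl ⟨1, false, false⟩, Sum.inl ⟨3, true, false⟩], [Sum.inl ⟨5, false, false⟩, Sum.inr 0, Sum.inl ⟨1, true, false⟩]] (by decide +kernel)) ?_
  refine TEqM.trans (t' := ![[⟨3, false, false⟩, ⟨5, true, false⟩], [⟨1, false, false⟩, ⟨3, true, false⟩], [⟨5, false, false⟩, ⟨1, true, false⟩]])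
    (TEqM.byE (RMove.r2 0 4 (by decide) true false false).teq ![[Sum.inl ⟨3, false, false⟩, Sum.inl ⟨5, true, false⟩, Sum.inr 1], [Sum.inr 0, Sum.inl ⟨1, false, false⟩, Sum.inl ⟨3, true, false⟩], [Sum.inl ⟨5, false, false⟩, Sum.inl ⟨1, true, false⟩]] (by decide +kernel)) ?_
  refine TEqM.trans (t' := ![[⟨0, false, false⟩, ⟨5, true, false⟩], [⟨1, false, false⟩, ⟨0, true, false⟩], [⟨5, false, false⟩, ⟨1, true, false⟩]])
    (TEqM.swpE 3 0 (by decide +kernel)) ?_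
  exact (TEqM.swpE 5 2 (by decide +kernel))

theorem delta_ttt_t : TEqM ![[⟨2, false, true⟩, ⟨0, true, true⟩], [⟨0, false, true⟩, ⟨1, true, true⟩], [⟨1, false, true⟩, ⟨2, true, true⟩]]
    ![[⟨0, true, true⟩, ⟨2, false, true⟩], [⟨1, true, true⟩, ⟨0, false, true⟩], [⟨2, true, true⟩, ⟨1, false, true⟩]] := by
  refine TEqM.trans (t' := ![[⟨3, false, false⟩, ⟨4, false, true⟩, ⟨2, false, true⟩, ⟨0, true, true⟩], [⟨0, false, true⟩, ⟨1, true, true⟩, ⟨4, true, true⟩, ⟨3, true, false⟩], [⟨1, false, true⟩, ⟨2, true, true⟩]])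
    (TEqM.byE ((RMove.r2 3 4 (by decide) false false false).teq).symm ![[Sum.inr 0, Sum.inl ⟨2, false, true⟩, Sum.inl ⟨0, true, true⟩], [Sum.inl ⟨0, false, true⟩, Sum.inl ⟨1, true, true⟩, Sum.inr 1], [Sum.inl ⟨1, false, true⟩, Sum.inl ⟨2, true, true⟩]] (by decide +kernel)) ?_
  refine TEqM.trans (t' := ![[⟨3, false, false⟩, ⟨5, true, false⟩, ⟨6, true, true⟩, ⟨4, false, true⟩, ⟨2, false, true⟩, ⟨0, true, true⟩], [⟨0, false, true⟩, ⟨1, true, true⟩, ⟨4, true, true⟩, ⟨3, true, false⟩], [⟨5, false, false⟩, ⟨6, false, true⟩, ⟨1, false, true⟩, ⟨2, true, true⟩]])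
    (TEqM.byE ((RMove.r2 5 6 (by decide) true false true).teq).symm ![[Sum.inl ⟨3, false, false⟩, Sum.inr 0, Sum.inl ⟨4, false, true⟩, Sum.inl ⟨2, false, true⟩, Sum.inl ⟨0, true, true⟩], [Sum.inl ⟨0, false, true⟩, Sum.inl ⟨1, true, true⟩, Sum.inl ⟨4, true, true⟩, Sum.inl ⟨3, true, false⟩], [Sum.inr 1, Sum.inl ⟨1, false, true⟩, Sum.inl ⟨2, true, true⟩]] (by decide +kernel)) ?_
  refine TEqM.trans (t' := ![[⟨3, false, false⟩, ⟨5, true, false⟩, ⟨4, false, true⟩, ⟨6, true, true⟩, ⟨2, false, true⟩, ⟨0, true, true⟩], [⟨0, false, true⟩, ⟨4, true, true⟩, ⟨1, true, true⟩, ⟨3, true, false⟩], [⟨5, false, false⟩, ⟨1, false, true⟩, ⟨6, false, true⟩, ⟨2, true, true⟩]])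
    (TEqM.byE (RMove.r3 ![1, 6, 4] (by decide) ![false, false, true] ![true, false, false] (by decide)).teq ![[Sum.inl ⟨3, false, false⟩, Sum.inl ⟨5, true, false⟩, Sum.inr 2, Sum.inl ⟨2, false, true⟩, Sum.inl ⟨0, true, true⟩], [Sum.inl ⟨0, false, true⟩, Sum.inr 0, Sum.inl ⟨3, true, false⟩], [Sum.inl ⟨5, false, false⟩, Sum.inr 1, Sum.inl ⟨2, true, true⟩]] (by decide +kernel)) ?_
  refine TEqM.trans (t' := ![[⟨3, false, false⟩, ⟨5, true, false⟩, ⟨4, false, true⟩, ⟨6, false, false⟩, ⟨2, true, false⟩, ⟨0, true, true⟩], [⟨0, false, true⟩, ⟨4, true, true⟩, ⟨1, true, true⟩, ⟨3, true, false⟩], [⟨5, false, false⟩, ⟨1, false, true⟩, ⟨6, true, false⟩, ⟨2, false, false⟩]])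
    (TEqM.by (flipPar ![2, 6] (by decide) false true) ![[Sum.inl ⟨3, false, false⟩, Sum.inl ⟨5, true, false⟩, Sum.inl ⟨4, false, true⟩, Sum.inr 1, Sum.inl ⟨0, true, true⟩], [Sum.inl ⟨0, false, true⟩, Sum.inl ⟨4, true, true⟩, Sum.inl ⟨1, true, true⟩, Sum.inl ⟨3, true, false⟩], [Sum.inl ⟨5, false, false⟩, Sum.inl ⟨1, false, true⟩, Sum.inr 0]] (by decide +kernel)) ?_
  refine TEqM.trans (t' := ![[⟨3, true, true⟩, ⟨5, false, true⟩, ⟨4, false, true⟩, ⟨6, false, false⟩, ⟨2, true, false⟩, ⟨0, true, true⟩], [⟨0, false, true⟩, ⟨4, true, true⟩, ⟨1, false, false⟩, ⟨3, false, true⟩], [⟨5, true, true⟩, ⟨1, true, false⟩, ⟨6, true, false⟩, ⟨2, false, false⟩]])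
    (TEqM.byE (flipTri ![1, 5, 3] (by decide) ![false, false, false] ![true, false, false] (by decide)) ![[Sum.inr 2, Sum.inl ⟨4, false, true⟩, Sum.inl ⟨6, false, false⟩, Sum.inl ⟨2, true, false⟩, Sum.inl ⟨0, true, true⟩], [Sum.inl ⟨0, false, true⟩, Sum.inl ⟨4, true, true⟩, Sum.inr 0], [Sum.inr 1, Sum.inl ⟨6, true, false⟩, Sum.inl ⟨2, false, false⟩]] (by decide +kernel)) ?_
  refine TEqM.trans (t' := ![[⟨3, true, true⟩, ⟨5, false, true⟩, ⟨4, true, false⟩, ⟨6, true, true⟩, ⟨2, true, false⟩, ⟨0, true, true⟩], [⟨0, false, true⟩, ⟨4, false, false⟩, ⟨1, true, true⟩, ⟨3, false, true⟩], [⟨5, true, true⟩, ⟨1, false, true⟩, ⟨6, false, true⟩, ⟨2, false, false⟩]])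
    (TEqM.byE (flipTri ![1, 6, 4] (by decide) ![true, true, false] ![false, true, false] (by decide)) ![[Sum.inl ⟨3, true, true⟩, Sum.inl ⟨5, false, true⟩, Sum.inr 2, Sum.inl ⟨2, true, false⟩, Sum.inl ⟨0, true, true⟩], [Sum.inl ⟨0, false, true⟩, Sum.inr 0, Sum.inl ⟨3, false, true⟩], [Sum.inl ⟨5, true, true⟩, Sum.inr 1, Sum.inl ⟨2, false, false⟩]] (by decide +kernel)) ?_
  refine TEqM.trans (t' := ![[⟨3, true, true⟩, ⟨5, false, true⟩, ⟨4, true, false⟩, ⟨0, true, true⟩], [⟨0, false, true⟩, ⟨4, false, false⟩, ⟨1, true, true⟩, ⟨3, false, true⟩], [⟨5, true, true⟩, ⟨1, false, true⟩]])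
    (TEqM.byE (RMove.r2 6 2 (by decide) false true true).teq ![[Sum.inl ⟨3, true, true⟩, Sum.inl ⟨5, false, true⟩, Sum.inl ⟨4, true, false⟩, Sum.inr 1, Sum.inl ⟨0, true, true⟩], [Sum.inl ⟨0, false, true⟩, Sum.inl ⟨4, false, false⟩, Sum.inl ⟨1, true, true⟩, Sum.inl ⟨3, false, true⟩], [Sum.inl ⟨5, true, true⟩, Sum.inl ⟨1, false, true⟩, Sum.inr 0]] (by decide +kernel)) ?_
  refine TEqM.trans (t' := ![[⟨3, true, true⟩, ⟨5, false, true⟩], [⟨1, true, true⟩, ⟨3, false, true⟩], [⟨5, true, true⟩, ⟨1, false, true⟩]])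
    (TEqM.byE (RMove.r2 0 4 (by decide) false true false).teq ![[Sum.inl ⟨3, true, true⟩, Sum.inl ⟨5, false, true⟩, Sum.inr 1], [Sum.inr 0, Sum.inl ⟨1, true, true⟩, Sum.inl ⟨3, false, true⟩], [Sum.inl ⟨5, true, true⟩, Sum.inl ⟨1, false, true⟩]] (by decide +kernel)) ?_
  refine TEqM.trans (t' := ![[⟨0, true, true⟩, ⟨5, false, true⟩], [⟨1, true, true⟩, ⟨0, false, true⟩], [⟨5, true, true⟩, ⟨1, false, true⟩]])
    (TEqM.swpE 3 0 (by decide +kernel)) ?_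
  exact (TEqM.swpE 5 2 (by decide +kernel))

theorem delta_c (o : Fin 3 → Bool) (v : Bool) :
    TEqM (triWord ![0, 1, 2] o (fun _ => v)) (fun i => (triWord ![0, 1, 2] o (fun _ => v) i).reverse) := by
  have e : ∀ u : Fin 3 → Bool, u = ![u 0, u 1, u 2] := by
    intro u; funext i; fin_cases i <;> rfl
  have ew : ∀ w : Fin 3 → List Ltr, w = ![w 0, w 1, w 2] := by
    intro u; funext i; fin_cases i <;> rfl
  rw [e o]
  generalize o 0 = o0
  generalize o 1 = o1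
  generalize o 2 = o2
  rw [ew (triWord _ _ _), ew (fun i => (_ : List Ltr))]
  cases o0 <;> cases o1 <;> cases o2 <;> cases v
  · exact delta_fff_f
  · exact delta_fff_t
  · exact delta_fft_f
  · exact delta_fft_t
  · exact delta_ftf_f
  · exact delta_ftf_t
  · exact delta_ftt_f
  · exact delta_ftt_t
  · exact delta_tff_f
  · exact delta_tff_t
  · exact delta_tft_f
  · exact delta_tft_t
  · exact delta_ttf_f
  · exact delta_ttf_t
  · exact delta_ttt_f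
  · exact delta_ttt_t

/-- The `Δ`-move (third Reidemeister move with cyclic heights). -/
theorem delta_move (c : Fin 3 → ℕ) (hc : Function.Injective c) (o : Fin 3 → Bool) (v : Bool) :
    TEqM (triWord c o (fun _ => v)) (fun i => (triWord c o (fun _ => v) i).reverse) := by
  have key : (fun i => (triWord ![0, 1, 2] o (fun _ => v) i).map
      (Ltr.relab (extv c))) = triWord c o (fun _ => v) := by
    funext i; fin_cases i <;> simp [triWord] <;> split_ifs <;> simp [Ltr.relab, extv]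
  have key2 : (fun i => ((triWord ![0, 1, 2] o (fun _ => v) i).reverse).map
      (Ltr.relab (extv c))) = (fun i => (triWord c o (fun _ => v) i).reverse) := by
    funext i
    rw [List.map_reverse, congrFun key i]
  have hl : labB 3 (triWord ![0, 1, 2] o (fun _ => v)) = true := by
    simp only [labB, List.all_eq_true, decide_eq_true_eq, List.mem_finRange, true_imp_iff]
    intro i
    fin_cases i <;> simp [triWord] <;> split_ifs <;> simp
  have hl2 : labB 3 (fun i => (triWord ![0, 1, 2] o (fun _ => v) i).reverse) = true := by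
    simp only [labB, List.all_eq_true, decide_eq_true_eq, List.mem_finRange, true_imp_iff]
    intro i
    fin_cases i <;> simp [triWord] <;> split_ifs <;> simp
  have := (delta_c o v).ext hc hl hl2
  rwa [key, key2] at this

end VPass
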