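import Pool.Agent.VPass.Walk

/-!
# Addition of the boundary of a union of faces: the identities

MODULE FaceId.  All sums over the crossings are sums over the scan of the coloured code with the
state `H` (the cycle of the marks, `false` on the base edge).  For every crossing the difference of
the Arf terms is the cost plus (for `m = baseVal A`) `m` times the intersection term with the curve,
plus the sum over the four half edges of `R + m R + H L`; the latter sum telescopes.
-/

namespace VPass

/-- The defect of a region crossing change at a crossing: `x` tail letter, `y` head letter, `s`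
the sign of the crossing, `d = L + R` the boundary of the coloured faces. -/
def costPair (s : Bool) (x y : CLtr) : ZMod 2 :=
  if s then bz ((xor x.inL x.inR) && !(xor y.outL y.outR))
  else bz (!(xor x.inL x.inR) && (xor y.outL y.outR))

/-- The contribution of a crossing with letters `x`, `y` in this order. -/
def costφ : List (Unit × CLtr) → ZMod 2
  | [x, y] =>
    if x.2.a.tail then costPair (x.2.a.tail == !x.2.a.mark) x.2 y.2
    else costPair (x.2.a.tail == !x.2.a.mark) y.2 x.2
  | _ => 0

/-- The defect of the region crossing change. -/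
def cost (A : List CLtr) : ZMod 2 := lsum (fun x : CLtr => x.a.lab) (fun s _ => s) costφ () A

lemma faceId_smap (s : List ℕ) (A : List CLtr) :
    smap DLtr.lab (fun seen a =>
      let ov := if seen then a.mark else !a.mark
      (⟨a.lab, ov, a.tail == ov⟩ : Ltr)) s (A.map CLtr.add) =
    flipBy A (smap DLtr.lab (fun seen a =>
      let ov := if seen then a.mark else !a.mark
      (⟨a.lab, ov, a.tail == ov⟩ : Ltr)) s (A.map CLtr.a)) := by
  induction A generalizing s with
  | nil => rfl
  | cons x A ih =>
    rw [List.map_cons, List.map_cons, smap, smap]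
    unfold flipBy
    rw [List.zipWith_cons_cons]
    have e1 : (CLtr.add x).lab = x.a.lab := rfl
    rw [e1, ih]
    congr 1
    generalize decide (x.a.lab ∈ s) = b
    obtain ⟨⟨l, t, m⟩, iL, iR, oL, oR⟩ := x
    simp only [CLtr.add, CLtr.jump, Ltr.flip]
    cases b <;> cases t <;> cases m <;> cases iL <;> cases iR <;> cases oL <;> cases oR <;> rfl

theorem real_add {A : List CLtr} (_ : IsColouring A) (_ : IsDCode (A.map CLtr.a)) :
    real (A.map CLtr.add) = flipBy A (real (A.map CLtr.a)) :=
  faceId_smap [] A

/-- the sum over a list, sorted by labels -/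
lemma faceId_sum_labels {α : Type*} (lab : α → ℕ) (F : α → ZMod 2) (Z : List α) (S : Finset ℕ)
    (hS : ∀ z ∈ Z, lab z ∈ S) :
    ∑ c ∈ S, ((Z.filter (fun z => lab z = c)).map F).sum = (Z.map F).sum := by
  induction Z with
  | nil => simp
  | cons z Z ih =>
    have h1 := ih (fun z' hz' => hS z' (List.mem_cons_of_mem _ hz'))
    rw [List.map_cons, List.sum_cons, ← h1]
    have h2 : ∀ c ∈ S, (((z :: Z).filter (fun z => lab z = c)).map F).sum =
        (if lab z = c then F z else 0) + ((Z.filter (fun z => lab z = c)).map F).sum := by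
      intro c _
      by_cases h : lab z = c
      · rw [List.filter_cons_of_pos (by simpa using h), if_pos h, List.map_cons, List.sum_cons]
      · rw [List.filter_cons_of_neg (by simpa using h), if_neg h, zero_add]
    rw [Finset.sum_congr rfl h2, Finset.sum_add_distrib, Finset.sum_ite_eq,
      if_pos (hS z List.mem_cons_self)]

/-- the state of the common scan -/
def fstep (h : Bool) (x : CLtr) : Bool := xor h x.a.mark

/-- the function on the edges -/
def gfun (m H L R : Bool) : ZMod 2 := bz R + bz (m && R) + bz (H && L)

def Tfun (m : Bool) (z : Bool × CLtr) : ZMod 2 :=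
  gfun m z.1 z.2.inL z.2.inR + gfun m (xor z.1 z.2.a.mark) z.2.outL z.2.outR

def T2fun (z : Bool × CLtr) : ZMod 2 := bz z.2.inR + bz z.2.outR

def CRel (x y : CLtr) : Prop := x.outL = y.inL ∧ x.outR = y.inR

/-- telescoping -/
lemma faceId_tele (g : Bool → Bool → Bool → ZMod 2) (y : CLtr) (A : List CLtr) (s : Bool)
    (h : List.IsChain CRel (A ++ [y])) :
    ((scan fstep s A).map (fun z => g z.1 z.2.inL z.2.inR +
      g (xor z.1 z.2.a.mark) z.2.outL z.2.outR)).sum =
    g s ((A ++ [y]).head (by simp)).inL ((A ++ [y]).head (by simp)).inR +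
      g (fin fstep s A) y.inL y.inR := by
  have h2 : ∀ u : ZMod 2, u + u = 0 := by decide
  induction A generalizing s with
  | nil => simp [scan, fin, h2]
  | cons x A ih =>
    have hx : List.IsChain CRel (A ++ [y]) := h.tail
    have hr : CRel x ((A ++ [y]).head (by simp)) := by
      cases A with
      | nil =>
        simp only [List.cons_append, List.nil_append, List.isChain_cons_cons] at h
        exact h.1
      | cons x' A =>
        simp only [List.cons_append, List.isChain_cons_cons] at h
        exact h.1
    have := ih (fstep s x) hx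
    rw [scan, List.map_cons, List.sum_cons, this]
    have e : fin fstep s (x :: A) = fin fstep (fstep s x) A := rfl
    rw [e]
    simp only [List.cons_append, List.head_cons]
    rw [← hr.1, ← hr.2]
    have e2 : fstep s x = xor s x.a.mark := rfl
    rw [e2]
    generalize g (xor s x.a.mark) x.outL x.outR = u
    generalize g s x.inL x.inR = v
    generalize g (fin fstep (xor s x.a.mark) A) y.inL y.inR = w
    revert u v w
    decide

lemma faceId_scan_a (s : Bool) (A : List CLtr) :
    scan dstep s (A.map CLtr.a) = (scan fstep s A).map (fun z => (z.1, z.2.a)) := by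
  induction A generalizing s with
  | nil => rfl
  | cons x A ih => rw [List.map_cons, scan, scan, List.map_cons, ih]; rfl

lemma faceId_scan_unit (A : List CLtr) (s : Bool) :
    scan (fun s (_ : CLtr) => s) () A = (scan fstep s A).map (fun z => ((), z.2)) := by
  induction A generalizing s with
  | nil => rfl
  | cons x A ih => rw [scan, scan, List.map_cons, ih (fstep s x)]

lemma faceId_scan_dot (A : List CLtr) (s : Bool) :
    scan dstep2 (s, true) ((A.map CLtr.a).map (fun a => (a, (fun _ => false) a))) =
      (scan fstep s A).map (fun z => ((z.1, true), (z.2.a, false))) := by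
  induction A generalizing s with
  | nil => rfl
  | cons x A ih =>
    rw [List.map_cons, List.map_cons, scan, scan, List.map_cons, ← ih]
    simp [dstep2, fstep]

/-- the state of the new code -/
lemma faceId_scan_add (m : Bool) (A : List CLtr) (s : Bool)
    (h : List.IsChain CRel A) :
    scan dstep (xor (xor s (baseVal A)) m) (A.map CLtr.add) =
      (scan fstep s A).map (fun z => (xor (xor z.1 (xor z.2.inL z.2.inR)) m, z.2.add)) := by
  induction A generalizing s with
  | nil => rfl
  | cons x A ih =>
    rw [List.map_cons, scan, scan, List.map_cons]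
    have hb : dstep (xor (xor s (baseVal (x :: A))) m) x.add =
        xor (xor (fstep s x) (xor x.outL x.outR)) m := by
      simp only [dstep, baseVal, CLtr.add, CLtr.jump, fstep]
      generalize x.a.mark = b0
      generalize x.inL = b1
      generalize x.inR = b2
      generalize x.outL = b3
      generalize x.outR = b4
      clear ih h
      revert s m b0 b1 b2 b3 b4
      decide
    congr 1
    cases A with
    | nil => rfl
    | cons x' A =>
      rw [hb, ← ih (fstep s x) h.tail]
      have hr : CRel x x' := by
        rw [List.isChain_cons_cons] at h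
        exact h.1
      rw [hr.1, hr.2]
      rfl

lemma faceId_local {t μ : Bool} (H1 H2 m : Bool) {c : ℕ} {x y : CLtr}
    (hx : x.a = ⟨c, t, μ⟩) (hy : y.a = ⟨c, !t, μ⟩)
    (hc : CornerOK (if t then x else y) (if t then y else x)) :
    arfφ [(xor (xor H1 (xor x.inL x.inR)) m, x.add), (xor (xor H2 (xor y.inL y.inR)) m, y.add)] =
      arfφ [(H1, x.a), (H2, y.a)] + costφ [((), x), ((), y)] +
      (if m then dotφ [((H1, true), (x.a, false)), ((H2, true), (y.a, false))] else 0) +
      (Tfun m (H1, x) + (Tfun m (H2, y) + 0)) := by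
  obtain ⟨⟨xl, xt, xm⟩, xiL, xiR, xoL, xoR⟩ := x
  obtain ⟨⟨yl, yt, ym⟩, yiL, yiR, yoL, yoR⟩ := y
  simp only [DLtr.mk.injEq] at hx hy
  obtain ⟨rfl, rfl, rfl⟩ := hx
  obtain ⟨rfl, rfl, rfl⟩ := hy
  obtain ⟨h1, h2, h3, h4⟩ := hc
  cases xt
  · simp only [Bool.false_eq_true, if_false] at h1 h2 h3 h4
    subst h1 h2 h3 h4
    cases ym <;> cases H1 <;> cases H2 <;> cases m <;> cases yoL <;> cases xoL <;> cases xiR <;>
      cases yiR <;> rfl
  · simp only [if_true] at h1 h2 h3 h4
    subst h1 h2 h3 h4
    cases ym <;> cases H1 <;> cases H2 <;> cases m <;> cases yoL <;> cases xoL <;> cases xiR <;>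
      cases yiR <;> rfl

lemma faceId_local2 {t μ : Bool} (H1 H2 m : Bool) {c : ℕ} {x y : CLtr}
    (hx : x.a = ⟨c, t, μ⟩) (hy : y.a = ⟨c, !t, μ⟩)
    (hc : CornerOK (if t then x else y) (if t then y else x)) :
    dotφ [((xor (xor H1 (xor x.inL x.inR)) m, true), (x.add, false)),
        ((xor (xor H2 (xor y.inL y.inR)) m, true), (y.add, false))] =
      dotφ [((H1, true), (x.a, false)), ((H2, true), (y.a, false))] +
      (T2fun (H1, x) + (T2fun (H2, y) + 0)) := by
  obtain ⟨⟨xl, xt, xm⟩, xiL, xiR, xoL, xoR⟩ := x
  obtain ⟨⟨yl, yt, ym⟩, yiL, yiR, yoL, yoR⟩ := y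
  simp only [DLtr.mk.injEq] at hx hy
  obtain ⟨rfl, rfl, rfl⟩ := hx
  obtain ⟨rfl, rfl, rfl⟩ := hy
  obtain ⟨h1, h2, h3, h4⟩ := hc
  cases xt
  · simp only [Bool.false_eq_true, if_false] at h1 h2 h3 h4
    subst h1 h2 h3 h4
    change bz (xor (xor (xor H1 (xor yiR xiR)) m) (xor ym (xor (xor yiR xiR) (xor xoL yoL))) && xor true false) +
      bz (xor (xor H2 (xor xoL yiR)) m && true) = bz (xor H1 ym && xor true false) + bz (H2 && true) +
      (bz xiR + bz yoL + (bz yiR + bz xiR + 0))
    clear yl
    revert ym H1 H2 m yoL xoL xiR yiR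
    decide
  · simp only [if_true] at h1 h2 h3 h4
    subst h1 h2 h3 h4
    change bz (xor (xor (xor H2 (xor xiR yiR)) m) (xor ym (xor (xor xiR yiR) (xor yoL xoL))) && xor true false) +
      bz (xor (xor H1 (xor yoL xiR)) m && true) = bz (xor H2 ym && xor true false) + bz (H1 && true) +
      (bz xiR + bz yiR + (bz yiR + bz xoL + 0))
    clear yl
    revert ym H1 H2 m yoL xoL xiR yiR
    decide

lemma faceId_scan_snd (s : Bool) (A : List CLtr) : (scan fstep s A).map (fun z => z.2) = A := by
  induction A generalizing s with
  | nil => rfl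
  | cons x A ih => rw [scan, List.map_cons, ih]

/-- the two letters of a crossing -/
lemma faceId_pair {A : List CLtr} (hA : IsColouring A) (hD : IsDCode (A.map CLtr.a)) (s : Bool) {c : ℕ}
    (hc : c ∈ (A.map (fun x => x.a.lab)).toFinset) :
    ∃ (t μ H1 H2 : Bool) (x y : CLtr),
      (scan fstep s A).filter (fun z => z.2.a.lab = c) = [(H1, x), (H2, y)] ∧
      x.a = ⟨c, t, μ⟩ ∧ y.a = ⟨c, !t, μ⟩ ∧ CornerOK (if t then x else y) (if t then y else x) := by
  have h1 : ((scan fstep s A).filter (fun z => z.2.a.lab = c)).map (fun z => z.2.a) =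
      (A.map CLtr.a).filter (fun a => a.lab = c) := by
    conv_rhs => rw [← faceId_scan_snd s A, List.map_map, List.filter_map]
    rfl
  rw [List.mem_toFinset, List.mem_map] at hc
  obtain ⟨x0, hx0, hx0c⟩ := hc
  rcases hD c with h | ⟨t, μ, h⟩
  · exfalso
    rw [List.filter_eq_nil_iff] at h
    exact h x0.a (List.mem_map.mpr ⟨x0, hx0, rfl⟩) (by simpa using hx0c)
  · rw [h] at h1
    generalize hZ : (scan fstep s A).filter (fun z => z.2.a.lab = c) = Z at h1
    match Z, h1 with
    | [], h1 => simp at h1
    | [z], h1 => simp at h1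
    | z1 :: z2 :: z3 :: Z, h1 => simp at h1
    | [(H1, x), (H2, y)], h1 =>
      simp only [List.map_cons, List.map_nil, List.cons.injEq, and_true] at h1
      obtain ⟨hx, hy⟩ := h1
      refine ⟨t, μ, H1, H2, x, y, rfl, hx, hy, ?_⟩
      have mx : x ∈ A := by
        have : (H1, x) ∈ (scan fstep s A).filter (fun z => z.2.a.lab = c) := by rw [hZ]; simp
        rw [← faceId_scan_snd s A]
        exact List.mem_map.mpr ⟨(H1, x), (List.mem_filter.mp this).1, rfl⟩
      have my : y ∈ A := by
        have : (H2, y) ∈ (scan fstep s A).filter (fun z => z.2.a.lab = c) := by rw [hZ]; simp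
        rw [← faceId_scan_snd s A]
        exact List.mem_map.mpr ⟨(H2, y), (List.mem_filter.mp this).1, rfl⟩
      cases t
      · exact hA.2 y my x mx (by rw [hx, hy]) (by rw [hy]; rfl) (by rw [hx])
      · exact hA.2 x mx y my (by rw [hx, hy]) (by rw [hx]) (by rw [hy]; rfl)

/-- a sum of an even function over the scan telescopes -/
lemma faceId_tele' (g : Bool → Bool → Bool → ZMod 2) {A : List CLtr} (hA : IsColouring A)
    (hD : IsDCode (A.map CLtr.a)) (s : Bool) :
    ((scan fstep s A).map (fun z => g z.1 z.2.inL z.2.inR +
      g (xor z.1 z.2.a.mark) z.2.outL z.2.outR)).sum = 0 := by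
  have h2 : ∀ u : ZMod 2, u + u = 0 := by decide
  -- the sum of the marks
  have hm : ((scan fstep s A).map (fun z => bz z.2.a.mark)).sum = 0 := by
    rw [← faceId_sum_labels (fun z : Bool × CLtr => z.2.a.lab) (fun z => bz z.2.a.mark)
      (scan fstep s A) (A.map (fun x => x.a.lab)).toFinset]
    · apply Finset.sum_eq_zero
      intro c hc
      obtain ⟨t, μ, H1, H2, x, y, h, hx, hy, -⟩ := faceId_pair hA hD s hc
      rw [h]
      simp [hx, hy, h2]
    · intro z hz
      rw [List.mem_toFinset, List.mem_map]
      exact ⟨z.2, lsum_mem_scan fstep hz, rfl⟩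
  have hfin : ∀ (A : List CLtr) (s : Bool), bz (fin fstep s A) =
      bz s + ((scan fstep s A).map (fun z => bz z.2.a.mark)).sum := by
    intro A
    induction A with
    | nil => intro s; simp [fin, scan]
    | cons x A ih =>
      intro s
      have e : fin fstep s (x :: A) = fin fstep (fstep s x) A := rfl
      rw [e, ih, scan, List.map_cons, List.sum_cons, ← add_assoc]
      congr 1
      simp only [fstep]
      generalize x.a.mark = b
      clear * -
      revert s b
      decide
  have hinj : ∀ u v : Bool, bz u = bz v → u = v := by decide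
  cases A with
  | nil => rfl
  | cons x A =>
    have hch : List.IsChain CRel ((x :: A) ++ [x]) := hA.1
    rw [faceId_tele g x (x :: A) s hch]
    have : fin fstep s (x :: A) = s := by
      apply hinj
      rw [hfin, hm, add_zero]
    rw [this]
    exact h2 _

/-- The main identity (verified by computer). -/
theorem nbit_face {A : List CLtr} (hA : IsColouring A) (hD : IsDCode (A.map CLtr.a)) (h : Bool)
    (β : ZMod 2) :
    nbit ⟨A.map CLtr.add, xor h (baseVal A), β⟩ = nbit ⟨A.map CLtr.a, h, β⟩ + cost A := by
  set m : Bool := baseVal A with hm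
  set S : Finset ℕ := (A.map (fun x => x.a.lab)).toFinset with hS
  set Z : List (Bool × CLtr) := scan fstep false A with hZ
  have hchain : List.IsChain CRel A := by
    have := hA.1
    exact (List.isChain_append.mp this).1
  have hZS : ∀ z ∈ Z, z.2.a.lab ∈ S := by
    intro z hz
    rw [hS, List.mem_toFinset, List.mem_map]
    exact ⟨z.2, lsum_mem_scan fstep hz, rfl⟩
  have e1 : arf (A.map CLtr.a) = ∑ c ∈ S, arfφ ((Z.filter (fun z => z.2.a.lab = c)).map
      (fun z => (z.1, z.2.a))) := by
    unfold arf lsum
    rw [faceId_scan_a, List.map_map]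
    apply Finset.sum_congr rfl
    intro c _
    rw [List.filter_map]
    rfl
  have hbase : xor (xor false (baseVal A)) m = false := by
    rw [← hm]; cases m <;> rfl
  have e2 : arf (A.map CLtr.add) = ∑ c ∈ S, arfφ ((Z.filter (fun z => z.2.a.lab = c)).map
      (fun z => (xor (xor z.1 (xor z.2.inL z.2.inR)) m, z.2.add))) := by
    have h0 := faceId_scan_add m A false hchain
    rw [hbase] at h0
    unfold arf lsum
    rw [h0, List.map_map]
    apply Finset.sum_congr rfl
    intro c _
    rw [List.filter_map]
    rfl
  have e3 : cost A = ∑ c ∈ S, costφ ((Z.filter (fun z => z.2.a.lab = c)).map (fun z => ((), z.2))) := by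
    unfold cost lsum
    rw [faceId_scan_unit A false]
    apply Finset.sum_congr rfl
    intro c _
    rw [List.filter_map]
    rfl
  have e4 : dot (A.map CLtr.a) false (fun _ => false) true =
      ∑ c ∈ S, dotφ ((Z.filter (fun z => z.2.a.lab = c)).map
        (fun z => ((z.1, true), (z.2.a, false)))) := by
    unfold dot lsum
    rw [faceId_scan_dot, List.map_map, List.map_map]
    apply Finset.sum_congr rfl
    intro c _
    rw [List.filter_map]
    rfl
  have hdot2 : ∀ (w : List DLtr) (s : Bool), scan dstep2 (s, true) (w.map (fun a => (a, (fun _ => false) a))) =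
      (scan dstep s w).map (fun z => ((z.1, true), (z.2, false))) := by
    intro w
    induction w with
    | nil => intro s; rfl
    | cons x w ih =>
      intro s
      rw [List.map_cons, scan, scan, List.map_cons, ← ih]
      simp [dstep2, dstep]
  have e5 : dot (A.map CLtr.add) false (fun _ => false) true =
      ∑ c ∈ S, dotφ ((Z.filter (fun z => z.2.a.lab = c)).map
        (fun z => ((xor (xor z.1 (xor z.2.inL z.2.inR)) m, true), (z.2.add, false)))) := by
    have h0 := faceId_scan_add m A false hchain
    rw [hbase] at h0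
    unfold dot lsum
    rw [hdot2, h0, List.map_map, List.map_map, List.map_map]
    apply Finset.sum_congr rfl
    intro c _
    rw [List.filter_map]
    rfl
  have t1 : ∑ c ∈ S, ((Z.filter (fun z => z.2.a.lab = c)).map (Tfun m)).sum = 0 := by
    rw [faceId_sum_labels (fun z : Bool × CLtr => z.2.a.lab) (Tfun m) Z S hZS]
    exact faceId_tele' (gfun m) hA hD false
  have t2 : ∑ c ∈ S, ((Z.filter (fun z => z.2.a.lab = c)).map T2fun).sum = 0 := by
    rw [faceId_sum_labels (fun z : Bool × CLtr => z.2.a.lab) T2fun Z S hZS]
    exact faceId_tele' (fun _ _ R => bz R) hA hD false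
  have k1 : arf (A.map CLtr.add) = arf (A.map CLtr.a) + cost A +
      (if m then dot (A.map CLtr.a) false (fun _ => false) true else 0) := by
    have hif : (if m then dot (A.map CLtr.a) false (fun _ => false) true else 0) =
        ∑ c ∈ S, (if m then dotφ ((Z.filter (fun z => z.2.a.lab = c)).map
          (fun z => ((z.1, true), (z.2.a, false)))) else 0) := by
      rw [e4]
      split_ifs
      · rfl
      · simp
    rw [hif, e1, e2, e3]
    refine Eq.trans ?_ (add_zero _)
    refine Eq.trans ?_ (congrArg₂ HAdd.hAdd rfl t1)
    rw [← Finset.sum_add_distrib, ← Finset.sum_add_distrib, ← Finset.sum_add_distrib]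
    apply Finset.sum_congr rfl
    intro c hc
    obtain ⟨t, μ, H1, H2, x, y, hf, hx, hy, hco⟩ := faceId_pair hA hD false hc
    rw [← hZ] at hf
    rw [hf]
    exact faceId_local H1 H2 m hx hy hco
  have k2 : dot (A.map CLtr.add) false (fun _ => false) true =
      dot (A.map CLtr.a) false (fun _ => false) true := by
    rw [e4, e5]
    refine Eq.trans ?_ (add_zero _)
    refine Eq.trans ?_ (congrArg₂ HAdd.hAdd rfl t2)
    rw [← Finset.sum_add_distrib]
    apply Finset.sum_congr rfl
    intro c hc
    obtain ⟨t, μ, H1, H2, x, y, hf, hx, hy, hco⟩ := faceId_pair hA hD false hc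
    rw [← hZ] at hf
    rw [hf]
    exact faceId_local2 H1 H2 m hx hy hco
  unfold nbit
  simp only
  rw [k1, k2]
  generalize dot (A.map CLtr.a) false (fun _ => false) true = u
  generalize arf (A.map CLtr.a) = v
  generalize cost A = w
  clear_value m
  clear * -
  revert u v w β h m
  decide

end VPass
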