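import Pool.Agent.VPass.FwdRest

/-!
# Local face moves

MODULE FwdLoc.  The coloured words are extended by the colour `false` on the template; the result is
a colouring.
-/

namespace VPass

/-- a letter with the colour `false` on all four sides -/
def faceLocal_ext (a : DLtr) : CLtr := ⟨a, false, false, false, false⟩

lemma faceLocal_add_ext (a : DLtr) : (faceLocal_ext a).add = a := by
  simp [faceLocal_ext, CLtr.add, CLtr.jump]

/-- chain condition, and no colours at the outer edges -/
def FLGood (l : List CLtr) : Prop :=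
  List.IsChain (fun x y : CLtr => x.outL = y.inL ∧ x.outR = y.inR) l ∧
    (∀ x ∈ l.head?, x.inL = false ∧ x.inR = false) ∧
    (∀ x ∈ l.getLast?, x.outL = false ∧ x.outR = false)

lemma FLGood.nil : FLGood [] := by
  refine ⟨List.IsChain.nil, ?_, ?_⟩ <;> simp

lemma FLGood.append {l l' : List CLtr} (h : FLGood l) (h' : FLGood l') : FLGood (l ++ l') := by
  refine ⟨?_, ?_, ?_⟩
  · rw [List.isChain_append]
    refine ⟨h.1, h'.1, fun x hx y hy => ?_⟩
    have h1 := h.2.2 x hx
    have h2 := h'.2.1 y hy
    exact ⟨by rw [h1.1, h2.1], by rw [h1.2, h2.2]⟩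
  · intro x hx
    cases l with
    | nil => exact h'.2.1 x (by simpa using hx)
    | cons a l => exact h.2.1 x (by simpa using hx)
  · intro x hx
    rw [List.getLast?_append] at hx
    cases hl : l'.getLast? with
    | none =>
      rw [hl] at hx
      exact h.2.2 x (by simpa using hx)
    | some y =>
      rw [hl] at hx
      exact h'.2.2 x (by rw [hl]; simpa using hx)

lemma FLGood.ext (a : DLtr) : FLGood [faceLocal_ext a] := by
  refine ⟨List.IsChain.singleton _, ?_, ?_⟩ <;>
    · intro x hx
      simp at hx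
      subst hx
      exact ⟨rfl, rfl⟩

lemma FLGood.fill {k : ℕ} (C : List (DLtr ⊕ Fin k)) {T : Fin k → List CLtr}
    (hT : ∀ i, FLGood (T i)) : FLGood (fill (tmap faceLocal_ext C) T) := by
  induction C with
  | nil => exact FLGood.nil
  | cons y C ih =>
    cases y with
    | inl a => exact (FLGood.ext a).append ih
    | inr i => exact (hT i).append ih

lemma faceLocal_mem {k : ℕ} {C : List (DLtr ⊕ Fin k)} {T : Fin k → List CLtr} {x : CLtr}
    (hx : x ∈ fill (tmap faceLocal_ext C) T) :
    (∃ a, Sum.inl a ∈ C ∧ x = faceLocal_ext a) ∨ ∃ i, x ∈ T i := by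
  induction C with
  | nil => exact absurd hx (by simp [tmap])
  | cons y C ih =>
    cases y with
    | inl a =>
      have hx' : x ∈ faceLocal_ext a :: fill (tmap faceLocal_ext C) T := hx
      rw [List.mem_cons] at hx'
      rcases hx' with h | h
      · exact Or.inl ⟨a, List.mem_cons_self, h⟩
      · rcases ih h with ⟨b, hb, e⟩ | h
        · exact Or.inl ⟨b, List.mem_cons_of_mem _ hb, e⟩
        · exact Or.inr h
    | inr i =>
      have hx' : x ∈ T i ++ fill (tmap faceLocal_ext C) T := hx
      rw [List.mem_append] at hx'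
      rcases hx' with h | h
      · exact Or.inr ⟨i, h⟩
      · rcases ih h with ⟨b, hb, e⟩ | h
        · exact Or.inl ⟨b, List.mem_cons_of_mem _ hb, e⟩
        · exact Or.inr h

lemma faceLocal_tmap {k : ℕ} (C : List (DLtr ⊕ Fin k)) (g : CLtr → DLtr)
    (hg : ∀ a, g (faceLocal_ext a) = a) : tmap g (tmap faceLocal_ext C) = C := by
  induction C with
  | nil => rfl
  | cons y C ih =>
    unfold tmap at ih
    cases y with
    | inl a => simp only [tmap, List.map_cons, Sum.map_inl, hg, ih]
    | inr i => simp only [tmap, List.map_cons, Sum.map_inr, id_eq, ih]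

lemma FLGood.chain_take {A : List CLtr} (h : FLGood A) :
    List.IsChain (fun x y : CLtr => x.outL = y.inL ∧ x.outR = y.inR) (A ++ A.take 1) := by
  rw [List.isChain_append]
  refine ⟨h.1, ?_, ?_⟩
  · cases A with
    | nil => exact List.IsChain.nil
    | cons a A => simp
  · intro x hx y hy
    have h1 := h.2.2 x hx
    have h2 := h.2.1 y (by cases A <;> simpa using hy)
    exact ⟨by rw [h1.1, h2.1], by rw [h1.2, h2.2]⟩

lemma FLGood.baseVal {A : List CLtr} (h : FLGood A) : baseVal A = false := by
  cases A with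
  | nil => rfl
  | cons a A =>
    have h1 := h.2.1 a (by simp)
    simp [VPass.baseVal, h1.1, h1.2]

/-- Local face moves: inside a template, the marks of the words are changed by the boundary of
coloured faces which do not meet the outer edges. -/
theorem face_local {k : ℕ} {C : List (DLtr ⊕ Fin k)} (_hC : IsTmpl C) (T : Fin k → List CLtr)
    (h1 : DFresh C (fun i => (T i).map CLtr.a))
    (hchain : ∀ i, List.IsChain (fun x y => x.outL = y.inL ∧ x.outR = y.inR) (T i))
    (hfirst : ∀ i, ∀ x ∈ (T i).head?, x.inL = false ∧ x.inR = false)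
    (hlast : ∀ i, ∀ x ∈ (T i).getLast?, x.outL = false ∧ x.outR = false)
    (hcorner : ∀ i j, ∀ x ∈ T i, ∀ y ∈ T j, x.a.lab = y.a.lab → x.a.tail = true →
      y.a.tail = false → CornerOK x y) (h : Bool) (β : ZMod 2) :
    DStep ⟨fill C (fun i => (T i).map CLtr.a), h, β⟩
      ⟨fill C (fun i => (T i).map CLtr.add), h, β⟩ := by
  have hgood : FLGood (fill (tmap faceLocal_ext C) T) :=
    FLGood.fill C (fun i => ⟨hchain i, hfirst i, hlast i⟩)
  have hcol : IsColouring (fill (tmap faceLocal_ext C) T) := by
    refine ⟨hgood.chain_take, ?_⟩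
    intro x hx y hy hxy htx hty
    rcases faceLocal_mem hx with ⟨a, ha, rfl⟩ | ⟨i, hi⟩
    · rcases faceLocal_mem hy with ⟨b, hb, rfl⟩ | ⟨j, hj⟩
      · exact ⟨rfl, rfl, rfl, rfl⟩
      · exact absurd hxy (h1 j y.a (List.mem_map.2 ⟨y, hj, rfl⟩) a ha)
    · rcases faceLocal_mem hy with ⟨b, hb, rfl⟩ | ⟨j, hj⟩
      · exact absurd hxy.symm (h1 i x.a (List.mem_map.2 ⟨x, hi, rfl⟩) b hb)
      · exact hcorner i j x hi y hj hxy htx hty
  have key := DStep.face _ hcol h β
  rw [hgood.baseVal, ← fill_tmap, ← fill_tmap, faceLocal_tmap C CLtr.a (fun _ => rfl),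
    faceLocal_tmap C CLtr.add faceLocal_add_ext, Bool.xor_false] at key
  exact key

end VPass
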