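import Pool.Agent.VPass.RotStep
import Pool.Agent.VPass.FaceId

/-!
# Addition of the boundary of a union of faces

MODULE FaceStep.  The identities are in FaceId.lean.  If both sides of the base edge are uncoloured
this is `weak_rcc`; if both are coloured we pass to the complementary colouring; otherwise the base
point is moved to an edge whose sides have the same colour, and if there is no such edge nothing
is to be done.
-/

namespace VPass

/-- the change of the marks of a coloured letter at the label `c` -/
def rgc (c : ℕ) (x : CLtr) : CLtr := ⟨rg c x.a, x.inL, x.inR, x.outL, x.outR⟩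

/-- the coloured code after moving the base point past the first letter -/
def rotc (x : CLtr) (B : List CLtr) : List CLtr := (B ++ [x]).map (rgc x.a.lab)

/-- the complementary colouring -/
def comc (x : CLtr) : CLtr := ⟨x.a, !x.inL, !x.inR, !x.outL, !x.outR⟩

lemma chain_map_crel (g : CLtr → CLtr)
    (hg : ∀ x y, (x.outL = y.inL ∧ x.outR = y.inR) →
      ((g x).outL = (g y).inL ∧ (g x).outR = (g y).inR)) (L : List CLtr)
    (h : List.IsChain (fun x y : CLtr => x.outL = y.inL ∧ x.outR = y.inR) L) :
    List.IsChain (fun x y : CLtr => x.outL = y.inL ∧ x.outR = y.inR) (L.map g) := by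
  rw [List.isChain_map]
  exact h.imp hg

lemma isColouring_comc {A : List CLtr} (hA : IsColouring A) : IsColouring (A.map comc) := by
  refine ⟨?_, ?_⟩
  · have e : A.map comc ++ (A.map comc).take 1 = (A ++ A.take 1).map comc := by
      rw [List.map_append, List.map_take]
    rw [e]
    apply chain_map_crel _ _ _ hA.1
    rintro x y ⟨h1, h2⟩
    simp [comc, h1, h2]
  · intro x' hx y' hy hl ht1 ht2
    rw [List.mem_map] at hx hy
    obtain ⟨x, hx, rfl⟩ := hx
    obtain ⟨y, hy, rfl⟩ := hy
    obtain ⟨h1, h2, h3, h4⟩ := hA.2 x hx y hy hl ht1 ht2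
    simp only [CornerOK, comc]
    exact ⟨congrArg Bool.not h1, congrArg Bool.not h2, congrArg Bool.not h3, congrArg Bool.not h4⟩

lemma isColouring_rotc {x : CLtr} {B : List CLtr} (hA : IsColouring (x :: B)) :
    IsColouring (rotc x B) := by
  refine ⟨?_, ?_⟩
  · have e : rotc x B ++ (rotc x B).take 1 = ((B ++ [x]) ++ (B ++ [x]).take 1).map (rgc x.a.lab) := by
      rw [rotc, List.map_append (l₁ := B ++ [x]), List.map_take]
    rw [e]
    apply chain_map_crel
    · rintro x y ⟨h1, h2⟩
      exact ⟨h1, h2⟩
    · have h := hA.1
      cases B with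
      | nil => simpa using h
      | cons b B =>
        simp only [List.take_succ_cons, List.take_zero, List.cons_append,
          List.isChain_cons_cons] at h ⊢
        rw [List.append_assoc, List.singleton_append]
        have h2 := h.2
        rw [show b :: (B ++ [x, b]) = (b :: (B ++ [x])) ++ [b] by simp]
        rw [List.isChain_append]
        refine ⟨h2, by simp, ?_⟩
        intro u hu v hv
        rw [show b :: (B ++ [x]) = (b :: B) ++ [x] by simp, List.getLast?_append] at hu
        simp only [List.getLast?_singleton, Option.some_or, Option.mem_def, Option.some.injEq,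
          List.head?_cons] at hu hv
        subst hu hv
        exact h.1
  · intro x' hx y' hy hl ht1 ht2
    rw [rotc, List.mem_map] at hx hy
    obtain ⟨x1, hx, rfl⟩ := hx
    obtain ⟨y1, hy, rfl⟩ := hy
    have m1 : x1 ∈ x :: B := by
      rw [List.mem_append, List.mem_singleton] at hx
      rw [List.mem_cons]; tauto
    have m2 : y1 ∈ x :: B := by
      rw [List.mem_append, List.mem_singleton] at hy
      rw [List.mem_cons]; tauto
    exact hA.2 x1 m1 y1 m2 hl ht1 ht2

lemma cost_eq (A : List CLtr) (S : Finset ℕ) (hS : ∀ x ∈ A, x.a.lab ∈ S) :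
    cost A = ∑ c ∈ S, costφ ((A.filter (fun x => x.a.lab = c)).map (fun x => ((), x))) := by
  have hP : scan (fun s (_ : CLtr) => s) () A = A.map (fun x => ((), x)) := by
    clear hS
    induction A with
    | nil => rfl
    | cons x A ih => rw [scan, ih]; rfl
  unfold cost
  rw [lsum_eq_sum (fun x : CLtr => x.a.lab) (fun s _ => s) costφ rfl () A S hS _ hP]
  apply Finset.sum_congr rfl
  intro c _
  rw [List.filter_map]
  rfl

/-- the two letters of a crossing -/
lemma face_pair {A : List CLtr} (hA : IsColouring A) (hD : IsDCode (A.map CLtr.a)) (c : ℕ) :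
    A.filter (fun x => x.a.lab = c) = [] ∨
    ∃ (t μ : Bool) (x y : CLtr), A.filter (fun x => x.a.lab = c) = [x, y] ∧
      x.a = ⟨c, t, μ⟩ ∧ y.a = ⟨c, !t, μ⟩ ∧ CornerOK (if t then x else y) (if t then y else x) := by
  have h1 : (A.filter (fun x => x.a.lab = c)).map CLtr.a =
      (A.map CLtr.a).filter (fun a => a.lab = c) := by
    rw [List.filter_map]
    rfl
  rcases hD c with h | ⟨t, μ, h⟩
  · left
    rw [h] at h1
    exact List.map_eq_nil_iff.1 h1
  · right
    rw [h] at h1
    generalize hZ : A.filter (fun x => x.a.lab = c) = Z at h1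
    match Z, h1 with
    | [], h1 => simp at h1
    | [z], h1 => simp at h1
    | z1 :: z2 :: z3 :: Z, h1 => simp at h1
    | [x, y], h1 =>
      simp only [List.map_cons, List.map_nil, List.cons.injEq, and_true] at h1
      obtain ⟨hx, hy⟩ := h1
      refine ⟨t, μ, x, y, rfl, hx, hy, ?_⟩
      have mx : x ∈ A := by
        have : x ∈ A.filter (fun x => x.a.lab = c) := by rw [hZ]; simp
        exact (List.mem_filter.mp this).1
      have my : y ∈ A := by
        have : y ∈ A.filter (fun x => x.a.lab = c) := by rw [hZ]; simp
        exact (List.mem_filter.mp this).1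
      cases t
      · exact hA.2 y my x mx (by rw [hx, hy]) (by rw [hy]; rfl) (by rw [hx])
      · exact hA.2 x mx y my (by rw [hx, hy]) (by rw [hx]) (by rw [hy]; rfl)

lemma isDCode_add {A : List CLtr} (hA : IsColouring A) (hD : IsDCode (A.map CLtr.a)) :
    IsDCode (A.map CLtr.add) := by
  intro c
  have h1 : (A.map CLtr.add).filter (fun a => a.lab = c) =
      (A.filter (fun x => x.a.lab = c)).map CLtr.add := by
    rw [List.filter_map]
    rfl
  rcases face_pair hA hD c with h | ⟨t, μ, x, y, h, hx, hy, hc⟩
  · left
    rw [h1, h]
    rfl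
  · right
    rw [h1, h]
    have hj : x.jump = y.jump := by
      obtain ⟨a, xiL, xiR, xoL, xoR⟩ := x
      obtain ⟨b, yiL, yiR, yoL, yoR⟩ := y
      cases t
      · obtain ⟨h1, h2, h3, h4⟩ := hc
        simp only [Bool.false_eq_true, if_false] at h1 h2 h3 h4
        subst h1 h2 h3 h4
        simp only [CLtr.jump]
        cases yoL <;> cases xoL <;> cases xiR <;> cases yiR <;> rfl
      · obtain ⟨h1, h2, h3, h4⟩ := hc
        simp only [if_true] at h1 h2 h3 h4
        subst h1 h2 h3 h4
        simp only [CLtr.jump]
        cases yoL <;> cases xoL <;> cases xiR <;> cases yiR <;> rfl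
    refine ⟨t, xor μ x.jump, ?_⟩
    simp only [List.map_cons, List.map_nil, CLtr.add, hx, hy, ← hj]

/-- The statement for the realisations. -/
def FaceEq (A : List CLtr) : Prop :=
  (cost A = 0 → PassEq (real (A.map CLtr.a)) (real (A.map CLtr.add))) ∧
  (cost A = 1 → PassEq (real (A.map CLtr.a)) (addT (real (A.map CLtr.add))))

lemma map_real_pair (s : List ℕ) (A : List CLtr) :
    (smap DLtr.lab (fun seen a =>
      let ov := if seen then a.mark else !a.mark
      (⟨a.lab, ov, a.tail == ov⟩ : Ltr)) s (A.map CLtr.a)).map (fun a => (a.lab, a.tail)) =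
    A.map (fun x => (x.a.lab, x.a.tail)) := by
  induction A generalizing s with
  | nil => rfl
  | cons x A ih =>
    rw [List.map_cons, smap, List.map_cons, List.map_cons, ih]
    congr 1
    obtain ⟨⟨l, t, m⟩, iL, iR, oL, oR⟩ := x
    simp only [Ltr.tail]
    generalize decide (l ∈ s) = b
    cases b <;> cases t <;> cases m <;> rfl

lemma faceEq_false {A : List CLtr} (hA : IsColouring A) (hD : IsDCode (A.map CLtr.a))
    (hbase : ∀ x ∈ A.head?, x.inL = false ∧ x.inR = false) : FaceEq A := by
  have hb : baseVal A = false := by
    cases A with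
    | nil => rfl
    | cons x A =>
      obtain ⟨h1, h2⟩ := hbase x (by simp)
      simp [baseVal, h1, h2]
  have hw := weak_rcc hA (isCode_real hD) (map_real_pair [] A).symm hbase
  rw [← real_add hA hD] at hw
  have hn := nbit_face hA hD false 0
  rw [hb] at hn
  simp only [nbit, Bool.xor_false, Bool.false_eq_true, if_false, zero_add, add_zero] at hn
  rcases hw with hw | hw
  · have h1 := arf_mk_leq hw
    rw [mk_real, mk_real, hn] at h1
    have h0 : cost A = 0 := by simpa using h1
    refine ⟨fun _ => hw.passEq, fun h => ?_⟩
    rw [h0] at h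
    exact absurd h (by decide)
  · have h1 := arf_mk_leq hw
    rw [arf_mk_addT, mk_real, mk_real, hn] at h1
    refine ⟨fun h => ?_, fun _ => hw.passEq⟩
    rw [h, add_zero] at h1
    exact absurd h1 (by simp)

lemma faceEq_true {A : List CLtr} (hA : IsColouring A) (hD : IsDCode (A.map CLtr.a))
    (hbase : ∀ x ∈ A.head?, x.inL = true ∧ x.inR = true) : FaceEq A := by
  have e1 : (A.map comc).map CLtr.a = A.map CLtr.a := by
    rw [List.map_map]; rfl
  have e2 : (A.map comc).map CLtr.add = A.map CLtr.add := by
    rw [List.map_map]
    apply List.map_congr_left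
    rintro ⟨a, iL, iR, oL, oR⟩ _
    simp only [Function.comp, CLtr.add, comc, CLtr.jump]
    cases iL <;> cases iR <;> cases oL <;> cases oR <;> rfl
  have e3 : cost (A.map comc) = cost A := by
    have hS : ∀ x ∈ A, x.a.lab ∈ (A.map (fun x => x.a.lab)).toFinset := by
      intro x hx
      rw [List.mem_toFinset, List.mem_map]
      exact ⟨x, hx, rfl⟩
    rw [cost_eq A _ hS, cost_eq (A.map comc) (A.map (fun x => x.a.lab)).toFinset]
    · apply Finset.sum_congr rfl
      intro c _
      have h1 : (A.map comc).filter (fun x => x.a.lab = c) =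
          (A.filter (fun x => x.a.lab = c)).map comc := by
        rw [List.filter_map]; rfl
      rw [h1]
      rcases face_pair hA hD c with h | ⟨t, μ, x, y, h, hx, hy, hc⟩
      · rw [h]; rfl
      · rw [h]
        simp only [List.map_cons, List.map_nil, costφ, costPair, comc]
        simp
    · intro x hx
      rw [List.mem_map] at hx
      obtain ⟨x, hx, rfl⟩ := hx
      exact hS x hx
  have h := faceEq_false (isColouring_comc hA) (by rw [e1]; exact hD) (by
    intro x hx
    rw [List.head?_map] at hx
    cases h : A.head? with
    | none => rw [h] at hx; simp at hx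
    | some y =>
      rw [h] at hx
      simp only [Option.map_some, Option.mem_def, Option.some.injEq] at hx
      subst hx
      obtain ⟨h1, h2⟩ := hbase y (by rw [h]; rfl)
      simp [comc, h1, h2])
  unfold FaceEq at h ⊢
  rwa [e1, e2, e3] at h

lemma cost_rotc {x : CLtr} {B : List CLtr} (hA : IsColouring (x :: B))
    (hD : IsDCode ((x :: B).map CLtr.a)) : cost (rotc x B) = cost (x :: B) := by
  have hS : ∀ y ∈ x :: B, y.a.lab ∈ ((x :: B).map (fun x => x.a.lab)).toFinset := by
    intro x hx
    rw [List.mem_toFinset, List.mem_map]
    exact ⟨x, hx, rfl⟩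
  rw [cost_eq (x :: B) _ hS, cost_eq (rotc x B) ((x :: B).map (fun x => x.a.lab)).toFinset]
  · apply Finset.sum_congr rfl
    intro c _
    have h1 : (rotc x B).filter (fun x => x.a.lab = c) =
        (B.filter (fun x => x.a.lab = c) ++ [x].filter (fun x => x.a.lab = c)).map
          (rgc x.a.lab) := by
      rw [rotc, List.filter_map, ← List.filter_append]; rfl
    by_cases hc : x.a.lab = c
    · rcases face_pair hA hD c with h | ⟨t, μ, x', y, h, hx, hy, hco⟩
      · rw [List.filter_cons_of_pos (by simpa using hc)] at h
        simp at h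
      · rw [h1, h]
        rw [List.filter_cons_of_pos (by simpa using hc)] at h
        rw [List.cons.injEq] at h
        obtain ⟨rfl, h⟩ := h
        rw [h]
        simp only [List.filter_cons, decide_true, if_true, List.filter_nil, List.map_cons,
          List.cons_append, List.nil_append, List.map_nil, costφ, rgc, rg, hx, hy]
        cases t <;> cases μ <;> simp <;> rfl
    · have e : [x].filter (fun x => x.a.lab = c) = [] := by
        rw [List.filter_cons_of_neg (by simpa using hc)]; rfl
      rw [h1, e, List.append_nil, List.filter_cons_of_neg (by simpa using hc)]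
      congr 2
      conv_rhs => rw [← List.map_id (B.filter _)]
      apply List.map_congr_left
      intro y hy
      have hy2 : y.a.lab = c := by simpa using (List.mem_filter.1 hy).2
      have : y.a.lab ≠ x.a.lab := by rw [hy2]; exact fun h => hc h.symm
      obtain ⟨⟨l, t, m⟩, iL, iR, oL, oR⟩ := y
      simp only [rgc, rg, id_eq]
      simp only at this
      simp [this]
  · intro y hy
    rw [rotc, List.mem_map] at hy
    obtain ⟨y, hy, rfl⟩ := hy
    apply hS y
    rw [List.mem_append, List.mem_singleton] at hy
    rw [List.mem_cons]; tauto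

lemma rotc_a (x : CLtr) (B : List CLtr) :
    (rotc x B).map CLtr.a = rotw x.a (B.map CLtr.a) := by
  rw [rotc, rotw_eq]
  simp only [List.map_append, List.map_map, List.map_cons, List.map_nil]
  rfl

lemma rotc_add (x : CLtr) (B : List CLtr) :
    (rotc x B).map CLtr.add = rotw x.add (B.map CLtr.add) := by
  have key : ∀ y : CLtr, (rgc x.a.lab y).add = rg x.add.lab y.add := by
    rintro ⟨⟨l, t, m⟩, iL, iR, oL, oR⟩
    simp only [rgc, rg, CLtr.add, CLtr.jump]
    by_cases hb : l = x.a.lab <;> simp only [hb, decide_true, decide_false] <;> cases m <;>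
      cases iL <;> cases iR <;> cases oL <;> cases oR <;> rfl
  rw [rotc, rotw_eq]
  simp only [List.map_append, List.map_map, List.map_cons, List.map_nil, Function.comp_def, key]

lemma isDCode_rotw {a : DLtr} {w : List DLtr} (hD : IsDCode (a :: w)) : IsDCode (rotw a w) := by
  obtain ⟨x, v, e1, e2⟩ := real_rot hD
  have h := isCode_real hD
  rw [e1, isCode_rot_iff, ← e2] at h
  have h2 := isDCode_mk h
  rwa [mk_real] at h2

lemma faceEq_rot {x : CLtr} {B : List CLtr} (hA : IsColouring (x :: B))
    (hD : IsDCode ((x :: B).map CLtr.a)) (h : FaceEq (rotc x B)) : FaceEq (x :: B) := by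
  have hD2 := isDCode_add hA hD
  obtain ⟨u, v, e1, e2⟩ := real_rot hD
  obtain ⟨u', v', e1', e2'⟩ := real_rot hD2
  unfold FaceEq at h ⊢
  rw [cost_rotc hA hD, rotc_a, rotc_add, e2, e2'] at h
  rw [List.map_cons, List.map_cons, e1, e1']
  have r1 : PassEq (u :: v) (v ++ [u]) := Relation.EqvGen.rel _ _ (Step.rot u v)
  have r2 : PassEq (u' :: v') (v' ++ [u']) := Relation.EqvGen.rel _ _ (Step.rot u' v')
  refine ⟨fun hc => (r1.trans (h.1 hc)).trans r2.symm, fun hc => (r1.trans (h.2 hc)).trans ?_⟩
  apply (addT_rot _).symm
  rw [← e1']
  exact isCode_real hD2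

lemma faceEq_of_index (n : ℕ) : ∀ (A : List CLtr), IsColouring A → IsDCode (A.map CLtr.a) →
    (∃ x, A[n]? = some x ∧ x.inL = x.inR) → FaceEq A := by
  induction n with
  | zero =>
    rintro A hA hD ⟨x, hx, h1⟩
    cases A with
    | nil => simp at hx
    | cons y A =>
      simp only [List.getElem?_cons_zero, Option.some.injEq] at hx
      subst hx
      cases h2 : y.inL with
      | false =>
        apply faceEq_false hA hD
        intro z hz
        simp only [List.head?_cons, Option.mem_def, Option.some.injEq] at hz
        subst hz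
        exact ⟨h2, h1 ▸ h2⟩
      | true =>
        apply faceEq_true hA hD
        intro z hz
        simp only [List.head?_cons, Option.mem_def, Option.some.injEq] at hz
        subst hz
        exact ⟨h2, h1 ▸ h2⟩
  | succ n ih =>
    rintro A hA hD ⟨x, hx, h1⟩
    cases A with
    | nil => simp at hx
    | cons y B =>
      rw [List.getElem?_cons_succ] at hx
      have hb : n < B.length := by
        rw [List.getElem?_eq_some_iff] at hx
        exact hx.1
      apply faceEq_rot hA hD
      apply ih _ (isColouring_rotc hA)
      · rw [rotc_a]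
        exact isDCode_rotw hD
      · refine ⟨rgc y.a.lab x, ?_, h1⟩
        rw [rotc, List.getElem?_map, List.getElem?_append_left hb, hx]
        rfl

lemma faceEq_all {A : List CLtr} (hA : IsColouring A) (hD : IsDCode (A.map CLtr.a)) :
    FaceEq A := by
  by_cases h : ∃ x ∈ A, x.inL = x.inR
  · obtain ⟨x, hx, h1⟩ := h
    obtain ⟨n, hn⟩ := List.mem_iff_getElem?.1 hx
    exact faceEq_of_index n A hA hD ⟨x, hn, h1⟩
  · have h0 : ∀ x ∈ A, (xor x.inL x.inR) = true := by
      intro x hx
      have h1 : x.inL ≠ x.inR := fun h2 => h ⟨x, hx, h2⟩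
      revert h1
      cases x.inL <;> cases x.inR <;> simp
    have h1 : ∀ x ∈ A, (xor x.outL x.outR) = true := by
      intro x hx
      have key : ∀ L : List CLtr, List.IsChain (fun x y : CLtr => x.outL = y.inL ∧ x.outR = y.inR) L →
          ∀ x ∈ L, (∀ y ∈ L, (xor y.inL y.inR) = true) → (xor x.outL x.outR) = true ∨
            L.getLast? = some x := by
        intro L
        induction L with
        | nil => simp
        | cons z L ih =>
          intro hL x hx hall
          cases L with
          | nil =>
            right
            simp only [List.mem_singleton] at hx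
            subst hx
            rfl
          | cons z' L =>
            rw [List.isChain_cons_cons] at hL
            rw [List.mem_cons] at hx
            rcases hx with rfl | hx
            · left
              rw [hL.1.1, hL.1.2]
              exact hall z' (by simp)
            · rcases ih hL.2 x hx (fun y hy => hall y (List.mem_cons_of_mem _ hy)) with h3 | h3
              · exact Or.inl h3
              · right
                rw [List.getLast?_cons_cons]
                exact h3
      cases A with
      | nil => simp at hx
      | cons a A =>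
        have hch := hA.1
        rw [List.take_succ_cons, List.take_zero, List.isChain_append] at hch
        rcases key _ hch.1 x hx h0 with h3 | h3
        · exact h3
        · obtain ⟨h4, h5⟩ := hch.2.2 x h3 a (by simp)
          rw [h4, h5]
          exact h0 a (by simp)
    have hadd : A.map CLtr.add = A.map CLtr.a := by
      apply List.map_congr_left
      intro x hx
      have e1 := h0 x hx
      have e2 := h1 x hx
      obtain ⟨⟨l, t, m⟩, iL, iR, oL, oR⟩ := x
      simp only [CLtr.add, CLtr.jump] at e1 e2 ⊢
      rw [e1, e2]
      simp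
    have hcost : cost A = 0 := by
      rw [cost_eq A (A.map (fun x => x.a.lab)).toFinset (fun x hx => by
        rw [List.mem_toFinset, List.mem_map]
        exact ⟨x, hx, rfl⟩)]
      apply Finset.sum_eq_zero
      intro c _
      rcases face_pair hA hD c with h | ⟨t, μ, x, y, h, hx, hy, hc⟩
      · rw [h]; rfl
      · have mx : x ∈ A := by
          have : x ∈ A.filter (fun x => x.a.lab = c) := by rw [h]; simp
          exact (List.mem_filter.mp this).1
        have my : y ∈ A := by
          have : y ∈ A.filter (fun x => x.a.lab = c) := by rw [h]; simp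
          exact (List.mem_filter.mp this).1
        rw [h]
        simp only [List.map_cons, List.map_nil, costφ, costPair, h0 x mx, h0 y my, h1 x mx,
          h1 y my]
        simp [bz]
    refine ⟨fun _ => ?_, fun h => ?_⟩
    · rw [hadd]
      exact PassEq.refl _
    · rw [hcost] at h
      exact absurd h (by decide)

theorem psi_face {A : List CLtr} (hA : IsColouring A) (h : Bool) (β : ZMod 2)
    (hD : IsDCode (A.map CLtr.a)) :
    PassEq (Psi ⟨A.map CLtr.a, h, β⟩) (Psi ⟨A.map CLtr.add, xor h (baseVal A), β⟩) := by
  obtain ⟨h0, h1⟩ := faceEq_all hA hD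
  have hc := isCode_real hD
  have hc' := isCode_real (isDCode_add hA hD)
  unfold Psi
  rw [nbit_face hA hD h β]
  rcases zmod2_cases (cost A) with hcost | hcost
  · have h2 := h0 hcost
    rw [hcost, add_zero]
    simp only
    split_ifs
    · exact h2
    · exact h2.addT hc
  · have h2 := h1 hcost
    rw [hcost]
    simp only
    rcases zmod2_cases (nbit ⟨A.map CLtr.a, h, β⟩) with hn | hn
    · rw [hn, if_pos rfl, if_neg (by decide)]
      exact h2
    · rw [hn, if_neg (by decide), if_pos (by decide)]
      exact (h2.addT hc).trans (addT_addT hc').passEq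

end VPass
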