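import Pool.Agent.VPass.FlatDot
import Pool.Agent.VPass.Delta

/-!
# Flat Reidemeister moves act on the Gauss codes

MODULE FlatStep.  `real (fill C t) = fill C' s` by `smap_fill`; for `r1`, `r2` the words `s` are
those of a Reidemeister move and `arf`, `dot` do not change.  For `r3` the words are
`triWord c o ov`, where `ov i = !m i` if strand `i` comes before strand `i + 1` in the order of the
holes and `ov i = m i` otherwise.  If `ov` is not constant this is `RMove.r3` and `arf` does not
change; if it is constant then `arf` changes by 1, and `delta_move` gives `WEq`, whose alternative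
is decided by `arf_mk_leq`, `arf_mk_addT`.  `dot _ false 0 true` never changes (FlatDot.lean).
-/

namespace VPass

/-! ## The Gauss codes -/

/-- The letter of the realisation. -/
def rf (seen : Bool) (a : DLtr) : Ltr :=
  ⟨a.lab, if seen then a.mark else !a.mark, a.tail == (if seen then a.mark else !a.mark)⟩

lemma real_eq (w : List DLtr) : real w = smap DLtr.lab rf [] w := rfl

/-- The words of the realisation of a filled template. -/
def rsw {k : ℕ} (l : List (Fin k)) (t : Fin k → List DLtr) (i : Fin k) : List Ltr :=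
  smap DLtr.lab rf (before DLtr.lab t l i) (t i)

lemma map_lab_smap (s : List ℕ) (w : List Ltr) :
    (smap Ltr.lab mkf s w).map DLtr.lab = w.map Ltr.lab := by
  induction w generalizing s with
  | nil => rfl
  | cons a w ih =>
    simp only [smap, List.map_cons, ih]
    rfl

lemma mem_smap_lab' {l : List ℕ} {w : List DLtr} {x : Ltr} (h : x ∈ smap DLtr.lab rf l w) :
    ∃ a ∈ w, a.lab = x.lab := by
  induction w generalizing l with
  | nil => simp [smap] at h
  | cons a w ih =>
    simp only [smap, List.mem_cons] at h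
    rcases h with rfl | h
    · exact ⟨a, by simp, rfl⟩
    · obtain ⟨b, hb, e⟩ := ih h
      exact ⟨b, by simp [hb], e⟩

lemma rsw_sw {k : ℕ} (l : List (Fin k)) (t : Fin k → List Ltr) (i : Fin k) :
    rsw l (sw l t) i = t i := by
  unfold rsw
  have e : before DLtr.lab (sw l t) l i = before Ltr.lab t l i := by
    unfold before
    congr 1
    funext j
    exact map_lab_smap _ _
  rw [e]
  unfold sw
  rw [seen_smap_smap Ltr.lab DLtr.lab _ _ (fun s a => rfl)]
  apply seen_smap_id
  rintro s ⟨c, o, p⟩
  cases s <;> cases o <;> cases p <;> rfl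

set_option maxRecDepth 100000 in
theorem fs_sw_r3_check : ∀ (o0 o1 o2 m0 m1 m2 : Bool) (a b c : Fin 3), [a, b, c].Nodup →
    ∃ v0 v1 v2 : Bool,
      (∀ i, sw [a, b, c] (triWord Fin.val ![o0, o1, o2] ![v0, v1, v2]) i =
        triDWord Fin.val ![o0, o1, o2] ![m0, m1, m2] i) ∧
      (∀ i, sw [a, b, c] (fun i => (triWord Fin.val ![o0, o1, o2] ![v0, v1, v2] i).reverse) i =
        (triDWord Fin.val ![o0, o1, o2] ![m0, m1, m2] i).reverse) := by
  decide +kernel

lemma fs_triDWord_relab (f : ℕ → ℕ) (c : Fin 3 → ℕ) (o m : Fin 3 → Bool) (i : Fin 3) :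
    (triDWord c o m i).map (DLtr.relab f) = triDWord (fun j => f (c j)) o m i := by
  simp only [triDWord]
  split_ifs <;> rfl

lemma fs_sw_r3 {c : Fin 3 → ℕ} (hc : Function.Injective c) (o m : Fin 3 → Bool)
    {l : List (Fin 3)} (hl : l.Perm (List.finRange 3)) :
    ∃ ov : Fin 3 → Bool, sw l (triWord c o ov) = triDWord c o m ∧
      sw l (fun i => (triWord c o ov i).reverse) = fun i => (triDWord c o m i).reverse := by
  obtain ⟨f, hf, hfc⟩ := exists_extend c hc
  have key : ∀ ov : Fin 3 → Bool, triWord c o ov =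
      fun i => (triWord Fin.val ![o 0, o 1, o 2] ![ov 0, ov 1, ov 2] i).map (Ltr.relab f) := by
    intro ov
    funext i
    rw [← eq_vec3 o, ← eq_vec3 ov]
    simp only [triWord]
    split_ifs <;> simp only [List.map_cons, List.map_nil, Ltr.relab, hfc]
  have key2 : ∀ ov : Fin 3 → Bool, (fun i => (triWord c o ov i).reverse) =
      fun i => ((triWord Fin.val ![o 0, o 1, o 2] ![ov 0, ov 1, ov 2] i).reverse).map
        (Ltr.relab f) := by
    intro ov
    funext i
    rw [key, List.map_reverse]
  obtain ⟨a, b, c', rfl, hab⟩ := arf_perm_three hl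
  obtain ⟨v0, v1, v2, k1, k2⟩ := fs_sw_r3_check (o 0) (o 1) (o 2) (m 0) (m 1) (m 2) a b c' hab
  have hfc' : (fun j : Fin 3 => f (j : ℕ)) = c := funext hfc
  refine ⟨![v0, v1, v2], ?_, ?_⟩
  · rw [key]
    funext i
    rw [sw_relab hf]
    have := k1 i
    simp only [Matrix.cons_val_zero, Matrix.cons_val_one, Matrix.cons_val] at this ⊢
    rw [this, fs_triDWord_relab, hfc', ← eq_vec3 o, ← eq_vec3 m]
  · rw [key2]
    funext i
    rw [sw_relab hf (t := fun i =>
      (triWord Fin.val ![o 0, o 1, o 2] ![(![v0, v1, v2] : Fin 3 → Bool) 0,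
        (![v0, v1, v2] : Fin 3 → Bool) 1, (![v0, v1, v2] : Fin 3 → Bool) 2] i).reverse)]
    have := k2 i
    simp only [Matrix.cons_val_zero, Matrix.cons_val_one, Matrix.cons_val] at this ⊢
    rw [this, List.map_reverse, fs_triDWord_relab, hfc', ← eq_vec3 o, ← eq_vec3 m]

lemma fs_fresh {k : ℕ} {C : List (DLtr ⊕ Fin k)} {C' : List (Ltr ⊕ Fin k)} {l : List (Fin k)}
    {t : Fin k → List DLtr} (h : DFresh C t)
    (hm : ∀ b, Sum.inl b ∈ C' → ∃ a, Sum.inl a ∈ C ∧ ∃ s, b = rf s a) :
    Fresh C' (rsw l t) := by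
  intro i a ha b hb
  obtain ⟨x, hx, e⟩ := mem_smap_lab' ha
  obtain ⟨y, hy, s, rfl⟩ := hm b hb
  rw [← e]
  exact h i x hx y hy

lemma fs_rsw_r1 (c : ℕ) (t : Bool) :
    rsw [0] ![[⟨c, t, false⟩, ⟨c, !t, false⟩]] =
      (![[⟨c, true, t⟩, ⟨c, !true, t⟩]] : Fin 1 → List Ltr) := by
  funext i
  fin_cases i
  cases t <;> simp [rsw, smap, rf, before]

lemma fs_rsw_nil1 (l : List (Fin 1)) : rsw l ![[]] = (![[]] : Fin 1 → List Ltr) := by
  funext i
  fin_cases i
  rfl

lemma fs_rsw_r2 {c d : ℕ} (hcd : c ≠ d) (t dir : Bool) {l : List (Fin 2)}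
    (hl : l.Perm (List.finRange 2)) :
    ∃ o s : Bool, rsw l ![[⟨c, t, false⟩, ⟨d, !t, false⟩],
      if dir then [⟨c, !t, false⟩, ⟨d, t, false⟩] else [⟨d, t, false⟩, ⟨c, !t, false⟩]] =
      ![[⟨c, o, s⟩, ⟨d, o, !s⟩],
        if dir then [⟨c, !o, s⟩, ⟨d, !o, !s⟩] else [⟨d, !o, !s⟩, ⟨c, !o, s⟩]] := by
  obtain ⟨a, b, rfl, hab⟩ := arf_perm_two hl
  fin_cases a <;> fin_cases b
  · simp at hab
  · refine ⟨true, t, ?_⟩
    funext i
    fin_cases i <;> cases dir <;> cases t <;>
      simp [rsw, smap, rf, before, hcd, hcd.symm]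
  · refine ⟨false, !t, ?_⟩
    funext i
    fin_cases i <;> cases dir <;> cases t <;>
      simp [rsw, smap, rf, before, hcd, hcd.symm]
  · simp at hab

lemma fs_rsw_nil2 (l : List (Fin 2)) : rsw l ![[], []] = (![[], []] : Fin 2 → List Ltr) := by
  funext i
  fin_cases i <;> rfl

/-- The realisations of the two sides of a flat move. -/
theorem weq_flat {k : ℕ} {C : List (DLtr ⊕ Fin k)} {t t' : Fin k → List DLtr}
    (hC : IsTmpl C) (h1 : DFresh C t) (h2 : DFresh C t') (m : FMove t t')
    (hD : IsDCode (fill C t)) : WEq (real (fill C t)) (real (fill C t')) := by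
  obtain ⟨C', hh, hm, e1, e2⟩ := smap_fill DLtr.lab rf hC (t := t) h1
  have e2' := e2 t' h2
  have hC' : IsTmpl C' := by unfold IsTmpl; rw [hh]; exact hC
  have f1 : Fresh C' (rsw (holes C) t) := fs_fresh h1 hm
  have f2 : Fresh C' (rsw (holes C) t') := fs_fresh h2 hm
  have r1 : real (fill C t) = fill C' (rsw (holes C) t) := e1
  have r2 : real (fill C t') = fill C' (rsw (holes C) t') := e2'
  have hcode : IsCode (fill C' (rsw (holes C) t)) := by rw [← r1]; exact isCode_real hD
  rw [r1, r2]
  have hl : (holes C).Perm (List.finRange k) := hC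
  generalize holes C = l at f1 f2 hcode hl
  cases m with
  | r1 c t =>
    rw [arf_perm_one hl, fs_rsw_r1] at f1
    rw [arf_perm_one hl, fs_rsw_nil1] at f2
    rw [arf_perm_one hl, fs_rsw_r1, fs_rsw_nil1]
    exact Or.inl ((LStep.reid hC' f1 f2 (RMove.r1 c true t)).leq)
  | r2 c d hcd t dir =>
    obtain ⟨o, s, hos⟩ := fs_rsw_r2 hcd t dir hl
    rw [hos] at f1
    rw [fs_rsw_nil2] at f2
    rw [hos, fs_rsw_nil2]
    exact Or.inl ((LStep.reid hC' f1 f2 (RMove.r2 c d hcd o s dir)).leq)
  | r3 c hc o m =>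
    obtain ⟨ov, k1, k2⟩ := fs_sw_r3 hc o m hl
    have q1 : rsw l (triDWord c o m) = triWord c o ov := by
      rw [← k1]
      funext i
      exact rsw_sw l (triWord c o ov) i
    have q2 : rsw l (fun i => (triDWord c o m i).reverse) =
        fun i => (triWord c o ov i).reverse := by
      rw [← k2]
      funext i
      exact rsw_sw l (fun i => (triWord c o ov i).reverse) i
    rw [q1] at f1 hcode
    rw [q2] at f2
    rw [q1, q2]
    by_cases hv : ov 0 = ov 1 ∧ ov 1 = ov 2
    · have hov : ov = fun _ => ov 0 := by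
        funext i
        fin_cases i
        · rfl
        · exact hv.1.symm
        · exact (hv.1.trans hv.2).symm
      rw [hov] at f1 f2 hcode ⊢
      have hM := delta_move c hc o (ov 0)
      exact hM.2.2 C' hC' f1 f2 ((isCode_fill_iff hC' f1 hM.1).1 hcode)
    · exact Or.inl ((LStep.reid hC' f1 f2 (RMove.r3 c hc o ov hv)).leq)

/-! ## The intersection number with the curve -/

theorem dot_one_flat {k : ℕ} {C : List (DLtr ⊕ Fin k)} {t t' : Fin k → List DLtr}
    (hC : IsTmpl C) (h1 : DFresh C t) (h2 : DFresh C t') (m : FMove t t') :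
    dot (fill C t) false (fun _ => false) true = dot (fill C t') false (fun _ => false) true := by
  cases m with
  | r1 c t =>
    obtain ⟨f, hf, hfc⟩ := exists_extend ![c] (fun i j _ => Subsingleton.elim i j)
    have h0 : f 0 = c := hfc 0
    refine fs_dot_fill (n := 1) hC h1 hf ![[⟨0, t, false⟩, ⟨0, !t, false⟩]] ![[]]
      (by intro i; fin_cases i; simp [DLtr.relab, h0]) (by intro i; fin_cases i; rfl)
      (by
        intro c hc
        obtain rfl : c = 0 := by omega
        exact ⟨0, ⟨0, t, false⟩, by simp, rfl⟩)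
      (by intro i; fin_cases i; simp) (by intro i; fin_cases i; simp)
      (by
        intro i s
        fin_cases i
        simp [fin, dstep])
      ?_
    intro l hl st
    rw [arf_perm_one hl, eq_vec1 st]
    simp only [Finset.sum_range_succ, Finset.sum_range_zero, zero_add]
    rw [fs_r1_dot t (st 0)]
    rfl
  | r2 c d hcd t dir =>
    obtain ⟨f, hf, hfc⟩ := exists_extend ![c, d] (by
      intro i j e
      fin_cases i <;> fin_cases j <;> simp_all)
    have h0 : f 0 = c := hfc 0
    have h1' : f 1 = d := hfc 1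
    refine fs_dot_fill (n := 2) hC h1 hf ![[⟨0, t, false⟩, ⟨1, !t, false⟩],
        if dir then [⟨0, !t, false⟩, ⟨1, t, false⟩] else [⟨1, t, false⟩, ⟨0, !t, false⟩]] ![[], []]
      (by intro i; fin_cases i <;> cases dir <;> simp [DLtr.relab, h0, h1'])
      (by intro i; fin_cases i <;> rfl)
      (by
        intro c hc
        rcases (show c = 0 ∨ c = 1 by omega) with rfl | rfl
        · exact ⟨0, ⟨0, t, false⟩, by simp, rfl⟩
        · exact ⟨0, ⟨1, !t, false⟩, by simp, rfl⟩)
      (by intro i; fin_cases i <;> cases dir <;> simp) (by intro i; fin_cases i <;> simp)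
      (by
        intro i s
        fin_cases i <;> cases dir <;> simp [fin, dstep])
      ?_
    intro l hl st
    obtain ⟨a, b, rfl, hab⟩ := arf_perm_two hl
    rw [eq_vec2 st]
    simp only [Finset.sum_range_succ, Finset.sum_range_zero, zero_add]
    rw [fs_r2_dot t dir a b hab (st 0) (st 1)]
    have z : ∀ c, fsLoc [a, b] ![st 0, st 1] ![[], []] c = 0 := by
      intro c
      have : [a, b].flatMap (fun i => (scan dstep (![st 0, st 1] i)
          ((![[], []] : Fin 2 → List DLtr) i)).filter
            (fun x => decide (x.2.lab = c))) = [] := by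
        rw [List.flatMap_eq_nil_iff]
        intro i _
        fin_cases i <;> rfl
      unfold fsLoc
      rw [this]
      rfl
    rw [z, z, add_zero]
  | r3 c hc o m =>
    obtain ⟨f, hf, hfc⟩ := exists_extend c hc
    have key : ∀ i, triDWord c o m i =
        (triDWord Fin.val ![o 0, o 1, o 2] ![m 0, m 1, m 2] i).map (DLtr.relab f) := by
      intro i
      rw [← eq_vec3 o, ← eq_vec3 m, fs_triDWord_relab]
      congr 1
      funext j
      exact (hfc j).symm
    refine fs_dot_fill (n := 3) hC h1 hf (triDWord Fin.val ![o 0, o 1, o 2] ![m 0, m 1, m 2])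
      (fun i => (triDWord Fin.val ![o 0, o 1, o 2] ![m 0, m 1, m 2] i).reverse)
      key (by intro i; rw [key, List.map_reverse])
      (by
        intro c hc
        refine ⟨⟨c, hc⟩, ⟨c, (o ⟨c, hc⟩ == o (⟨c, hc⟩ + 1)), m ⟨c, hc⟩⟩, ?_, rfl⟩
        rw [← eq_vec3 o, ← eq_vec3 m]
        simp only [triDWord]
        split_ifs <;> simp)
      (by
        intro i a ha
        simp only [triDWord] at ha
        split_ifs at ha <;>
        · simp only [List.mem_cons, List.not_mem_nil, or_false] at ha
          rcases ha with rfl | rfl <;> exact Fin.isLt _)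
      (by
        intro i a ha
        simp only [triDWord, List.mem_reverse] at ha
        split_ifs at ha <;>
        · simp only [List.mem_cons, List.not_mem_nil, or_false] at ha
          rcases ha with rfl | rfl <;> exact Fin.isLt _)
      (by
        intro i s
        simp only [triDWord]
        split_ifs <;> simp [fin, dstep, Bool.xor_assoc, Bool.xor_comm, Bool.xor_left_comm])
      ?_
    intro l hl st
    obtain ⟨a, b, c', rfl, hab⟩ := arf_perm_three hl
    rw [eq_vec3 st]
    simp only [Finset.sum_range_succ, Finset.sum_range_zero, zero_add]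
    exact fs_r3_dot _ _ _ _ _ _ a b c' hab (st 0) (st 1) (st 2)

theorem psi_flat {k : ℕ} {C : List (DLtr ⊕ Fin k)} {t t' : Fin k → List DLtr} (hC : IsTmpl C)
    (h1 : DFresh C t) (h2 : DFresh C t') (m : FMove t t') (h : Bool) (β : ZMod 2)
    (hD : IsDCode (fill C t)) :
    PassEq (Psi ⟨fill C t, h, β⟩) (Psi ⟨fill C t', h, β⟩) := by
  have hW := weq_flat hC h1 h2 m hD
  have hdot := dot_one_flat hC h1 h2 m
  have hcode := isCode_real hD
  have a1 : arf (fill C t) = arf (mk (real (fill C t))) := by rw [mk_real]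
  have a2 : arf (fill C t') = arf (mk (real (fill C t'))) := by rw [mk_real]
  rcases hW with hL | hL
  · have ha : arf (fill C t) = arf (fill C t') := by rw [a1, a2, arf_mk_leq hL]
    have hn : nbit ⟨fill C t, h, β⟩ = nbit ⟨fill C t', h, β⟩ := by
      simp only [nbit, ha, hdot]
    simp only [Psi]
    rw [hn]
    split_ifs
    · exact hL.passEq
    · exact (addT_congr hL).passEq
  · have hcode' : IsCode (real (fill C t')) := isCode_addT.1 (hL.isCode_iff.1 hcode)
    have ha : arf (fill C t) = arf (fill C t') + 1 := by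
      rw [a1, a2, arf_mk_leq hL, arf_mk_addT]
    have hn : nbit ⟨fill C t, h, β⟩ = nbit ⟨fill C t', h, β⟩ + 1 := by
      simp only [nbit, ha, hdot]
      ring
    simp only [Psi]
    rw [hn]
    rcases zmod2_cases (nbit ⟨fill C t', h, β⟩) with h0 | h0
    · rw [h0, if_neg (by decide), if_pos rfl]
      exact ((addT_congr hL).trans (addT_addT hcode')).passEq
    · rw [h0, if_pos (by decide), if_neg (by decide)]
      exact hL.passEq

end VPass
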