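import Pool.Agent.VPass.Forward
import Pool.Agent.VPass.FlatStep
import Pool.Agent.VPass.FaceStep

/-!
# Classification of virtual knots up to pass equivalence
-/

namespace VPass

/-- A decorated letter seen as a letter of a Gauss code. -/
def toLtr (a : DLtr) : Ltr := ⟨a.lab, a.tail, a.mark⟩

lemma toLtr_inj : Function.Injective toLtr := by
  intro a b h
  have h1 : a.lab = b.lab := congrArg Ltr.lab h
  have h2 : a.tail = b.tail := by
    have : (toLtr a).ov = (toLtr b).ov := by rw [h]
    exact this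
  have h3 : a.mark = b.mark := by
    have : (toLtr a).pos = (toLtr b).pos := by rw [h]
    exact this
  exact DLtr.ext h1 h2 h3

lemma filter_toLtr (w : List DLtr) (c : ℕ) :
    (w.map toLtr).filter (fun a => a.lab = c) = (w.filter (fun a => a.lab = c)).map toLtr := by
  rw [List.filter_map]
  rfl

lemma isDCode_iff (w : List DLtr) : IsDCode w ↔ IsCode (w.map toLtr) := by
  constructor
  · intro H c
    rw [filter_toLtr]
    rcases H c with h | ⟨o, s, h⟩
    · left; rw [h]; rfl
    · right; rw [h]; exact ⟨o, s, rfl⟩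
  · intro H c
    have h := H c
    rw [filter_toLtr] at h
    rcases h with h | ⟨o, s, h⟩
    · left; exact List.map_eq_nil_iff.1 h
    · right
      refine ⟨o, s, ?_⟩
      apply toLtr_inj.list_map
      rw [h]; rfl

/-- The words of a flat triangle as words of a Gauss code. -/
lemma triDWord_filter {c : Fin 3 → ℕ} (hc : Function.Injective c) (o m : Fin 3 → Bool)
    (i j : Fin 3) : ((triDWord c o m i).map toLtr).filter (fun a => a.lab = c j) =
      (if i = j then [⟨c j, o j == o (j + 1), m j⟩]
        else if i = j + 1 then [⟨c j, !(o j == o (j + 1)), m j⟩] else []) := by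
  have h01 : c 0 ≠ c 1 := fun h => absurd (hc h) (by decide)
  have h02 : c 0 ≠ c 2 := fun h => absurd (hc h) (by decide)
  have h12 : c 1 ≠ c 2 := fun h => absurd (hc h) (by decide)
  have e02 : (0 : Fin 3) + 2 = 2 := rfl
  have e12 : (1 : Fin 3) + 2 = 0 := rfl
  have e22 : (2 : Fin 3) + 2 = 1 := rfl
  have e01 : (0 : Fin 3) + 1 = 1 := rfl
  have e11 : (1 : Fin 3) + 1 = 2 := rfl
  have e21 : (2 : Fin 3) + 1 = 0 := rfl
  fin_cases i <;> fin_cases j <;>
    simp only [triDWord, Fin.zero_eta, Fin.mk_one, Fin.reduceFinMk, Fin.isValue, e02, e12, e22,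
      e01, e11, e21] <;>
    split_ifs <;>
    simp_all [h01.symm, h02.symm, h12.symm, toLtr]

lemma triDWord_mem {c : Fin 3 → ℕ} {o m : Fin 3 → Bool} {i : Fin 3} {a : DLtr}
    (h : a ∈ triDWord c o m i) : ∃ j, a.lab = c j := by
  unfold triDWord at h
  simp only at h
  split_ifs at h
  · simp only [List.mem_cons, List.not_mem_nil, or_false] at h
    rcases h with rfl | rfl
    · exact ⟨_, rfl⟩
    · exact ⟨_, rfl⟩
  · simp only [List.mem_cons, List.not_mem_nil, or_false] at h
    rcases h with rfl | rfl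
    · exact ⟨_, rfl⟩
    · exact ⟨_, rfl⟩

lemma triD_balanced {c : Fin 3 → ℕ} (hc : Function.Injective c) (o m : Fin 3 → Bool) :
    Balanced (fun i => (triDWord c o m i).map toLtr) := by
  apply balanced_of_pairs
  intro c' hc'
  obtain ⟨i, a, ha, rfl⟩ := mem_labs.1 hc'
  obtain ⟨b, hb, rfl⟩ := List.mem_map.1 ha
  obtain ⟨j, hj⟩ := triDWord_mem hb
  have hj' : (toLtr b).lab = c j := hj
  rw [hj']
  refine ⟨j, j + 1, o j == o (j + 1), m j, ?_, ?_, ?_, ?_⟩
  · exact code_fin3_ne_succ j
  · rw [triDWord_filter hc, if_pos rfl]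
  · rw [triDWord_filter hc, if_neg (code_fin3_ne_succ j).symm, if_pos rfl]
  · intro m h1 h2
    rw [triDWord_filter hc, if_neg h1, if_neg h2]

lemma triD_balanced_rev {c : Fin 3 → ℕ} (hc : Function.Injective c) (o m : Fin 3 → Bool) :
    Balanced (fun i => ((triDWord c o m i).reverse).map toLtr) := by
  apply balanced_of_pairs
  intro c' hc'
  obtain ⟨i, a, ha, rfl⟩ := mem_labs.1 hc'
  obtain ⟨b, hb, rfl⟩ := List.mem_map.1 ha
  obtain ⟨j, hj⟩ := triDWord_mem (List.mem_reverse.1 hb)
  have hj' : (toLtr b).lab = c j := hj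
  rw [hj']
  refine ⟨j, j + 1, o j == o (j + 1), m j, ?_, ?_, ?_, ?_⟩
  · exact code_fin3_ne_succ j
  · rw [List.map_reverse, List.filter_reverse, triDWord_filter hc, if_pos rfl]; rfl
  · rw [List.map_reverse, List.filter_reverse, triDWord_filter hc,
      if_neg (code_fin3_ne_succ j).symm, if_pos rfl]; rfl
  · intro m h1 h2
    rw [List.map_reverse, List.filter_reverse, triDWord_filter hc, if_neg h1, if_neg h2]; rfl

theorem FMove.balanced {k : ℕ} {t t' : Fin k → List DLtr} (h : FMove t t') :
    Balanced (fun i => (t i).map toLtr) ∧ Balanced (fun i => (t' i).map toLtr) := by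
  cases h with
  | r1 c s =>
    refine ⟨?_, code_balanced_nil (fun i => by fin_cases i; rfl)⟩
    intro c' hc' l hl
    obtain ⟨i, a, ha, rfl⟩ := mem_labs.1 hc'
    fin_cases i
    have hac : a.lab = c := by
      simp only [Fin.zero_eta, Fin.isValue, Matrix.cons_val_fin_one, List.map_cons, List.map_nil,
        List.mem_cons, List.not_mem_nil, or_false, toLtr] at ha
      rcases ha with rfl | rfl <;> rfl
    rw [hac]
    refine ⟨s, false, ?_⟩
    rw [code_flatMap_single (i := 0) l hl _ (fun m hm => absurd (Subsingleton.elim m 0) hm)]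
    simp [toLtr]
  | r2 c d h s dir =>
    refine ⟨?_, code_balanced_nil (fun i => by fin_cases i <;> rfl)⟩
    apply balanced_of_pairs
    intro c' hc'
    have hcd : c' = c ∨ c' = d := by
      obtain ⟨i, a, ha, rfl⟩ := mem_labs.1 hc'
      fin_cases i <;> cases dir <;> simp [toLtr] at ha <;> rcases ha with rfl | rfl <;> simp
    rcases hcd with rfl | rfl
    · refine ⟨0, 1, s, false, by decide, ?_, ?_, ?_⟩
      · simp [h.symm, toLtr]
      · cases dir <;> simp [h.symm, toLtr]
      · intro m h1 h2; fin_cases m <;> simp_all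
    · refine ⟨0, 1, !s, false, by decide, ?_, ?_, ?_⟩
      · simp [h, toLtr]
      · cases dir <;> simp [h, toLtr]
      · intro m h1 h2; fin_cases m <;> simp_all
  | r3 c hc o m => exact ⟨triD_balanced hc o m, triD_balanced_rev hc o m⟩

lemma isDCode_fill_iff {k : ℕ} {C : List (DLtr ⊕ Fin k)} {t : Fin k → List DLtr} (hC : IsTmpl C)
    (h : DFresh C t) (hb : Balanced (fun i => (t i).map toLtr)) :
    IsDCode (fill C t) ↔ IsCode (ctx (tmap toLtr C)) := by
  rw [isDCode_iff, ← fill_tmap]
  apply isCode_fill_iff (hC.tmap toLtr) _ hb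
  intro i a ha b hb'
  obtain ⟨a', ha', rfl⟩ := List.mem_map.1 ha
  have : ∃ b', Sum.inl b' ∈ C ∧ toLtr b' = b := by
    simp only [tmap, List.mem_map] at hb'
    obtain ⟨x, hx, hx'⟩ := hb'
    rcases x with b' | j
    · simp only [Sum.map_inl, Sum.inl.injEq] at hx'
      exact ⟨b', hx, hx'⟩
    · simp at hx'
  obtain ⟨b', hb1, rfl⟩ := this
  exact h i a' ha' b' hb1

/-- Changing the marks by a function of the label. -/
lemma isDCode_remark (g : ℕ → Bool) (w : List DLtr) :
    IsDCode w ↔ IsDCode (w.map (fun b => ⟨b.lab, b.tail, xor b.mark (g b.lab)⟩)) := by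
  have key : ∀ (g : ℕ → Bool) (w : List DLtr), IsDCode w →
      IsDCode (w.map (fun b => ⟨b.lab, b.tail, xor b.mark (g b.lab)⟩)) := by
    intro g w H c
    have e : (w.map (fun b : DLtr => (⟨b.lab, b.tail, xor b.mark (g b.lab)⟩ : DLtr))).filter
        (fun a => a.lab = c) = (w.filter (fun a => a.lab = c)).map
          (fun b : DLtr => (⟨b.lab, b.tail, xor b.mark (g b.lab)⟩ : DLtr)) := by
      rw [List.filter_map]; rfl
    rcases H c with h | ⟨t, m, h⟩
    · left; rw [e, h]; rfl
    · right
      refine ⟨t, xor m (g c), ?_⟩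
      rw [e, h]; rfl
  refine ⟨key g w, fun H => ?_⟩
  have h := key g _ H
  rw [List.map_map] at h
  have e : ((fun b : DLtr => (⟨b.lab, b.tail, xor b.mark (g b.lab)⟩ : DLtr)) ∘
      (fun b : DLtr => (⟨b.lab, b.tail, xor b.mark (g b.lab)⟩ : DLtr))) = id := by
    funext b
    cases b
    simp
  rw [e, List.map_id] at h
  exact h

lemma jump_eq_of_corner {x y : CLtr} (h : CornerOK x y) : x.jump = y.jump := by
  obtain ⟨h1, h2, h3, h4⟩ := h
  simp only [CLtr.jump]
  rw [h1, ← h2, h3, ← h4]
  cases y.outL <;> cases y.inL <;> cases y.outR <;> cases y.inR <;> rfl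

lemma filter_map_eq_pair {α β : Type*} (g : α → β) (l : List α) {b b' : β}
    (h : l.map g = [b, b']) : ∃ x y, l = [x, y] ∧ g x = b ∧ g y = b' := by
  match l, h with
  | [x, y], h =>
    simp only [List.map_cons, List.map_nil, List.cons.injEq, and_true] at h
    exact ⟨x, y, rfl, h.1, h.2⟩

lemma isDCode_face {A : List CLtr} (hA : IsColouring A) :
    IsDCode (A.map CLtr.a) ↔ IsDCode (A.map CLtr.add) := by
  have e1 : ∀ c, (A.map CLtr.a).filter (fun a => a.lab = c) =
      (A.filter (fun x => x.a.lab = c)).map CLtr.a := by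
    intro c; rw [List.filter_map]; rfl
  have e2 : ∀ c, (A.map CLtr.add).filter (fun a => a.lab = c) =
      (A.filter (fun x => x.a.lab = c)).map CLtr.add := by
    intro c; rw [List.filter_map]; rfl
  have key : ∀ x ∈ A, ∀ y ∈ A, x.a.lab = y.a.lab → x.a.tail = !y.a.tail → x.jump = y.jump := by
    intro x hx y hy hl ht
    cases hy' : y.a.tail
    · rw [hy'] at ht
      exact jump_eq_of_corner (hA.2 x hx y hy hl ht hy')
    · rw [hy'] at ht
      exact (jump_eq_of_corner (hA.2 y hy x hx hl.symm hy' ht)).symm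
  constructor
  · intro H c
    rcases H c with h | ⟨t, m, h⟩
    · left
      rw [e1] at h
      rw [e2, List.map_eq_nil_iff.1 h]; rfl
    · right
      rw [e1] at h
      obtain ⟨x, y, hxy, hx, hy⟩ := filter_map_eq_pair _ _ h
      have hxA : x ∈ A := List.mem_of_mem_filter (by rw [hxy]; simp)
      have hyA : y ∈ A := List.mem_of_mem_filter (by rw [hxy]; simp)
      have hj := key x hxA y hyA (by rw [hx, hy]) (by rw [hx, hy]; simp)
      refine ⟨t, xor m x.jump, ?_⟩
      rw [e2, hxy]
      simp only [List.map_cons, List.map_nil, CLtr.add, hx, hy, hj]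
  · intro H c
    rcases H c with h | ⟨t, m, h⟩
    · left
      rw [e2] at h
      rw [e1, List.map_eq_nil_iff.1 h]; rfl
    · right
      rw [e2] at h
      obtain ⟨x, y, hxy, hx, hy⟩ := filter_map_eq_pair _ _ h
      have hxA : x ∈ A := List.mem_of_mem_filter (by rw [hxy]; simp)
      have hyA : y ∈ A := List.mem_of_mem_filter (by rw [hxy]; simp)
      have hx1 : x.a.lab = c := congrArg DLtr.lab hx
      have hy1 : y.a.lab = c := congrArg DLtr.lab hy
      have hx2 : x.a.tail = t := congrArg DLtr.tail hx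
      have hy2 : y.a.tail = !t := congrArg DLtr.tail hy
      have hx3 : xor x.a.mark x.jump = m := congrArg DLtr.mark hx
      have hy3 : xor y.a.mark y.jump = m := congrArg DLtr.mark hy
      have hj := key x hxA y hyA (by rw [hx1, hy1]) (by rw [hx2, hy2]; simp)
      refine ⟨t, x.a.mark, ?_⟩
      rw [e1, hxy]
      simp only [List.map_cons, List.map_nil, List.cons.injEq, and_true]
      refine ⟨DLtr.ext hx1 hx2 rfl, DLtr.ext hy1 hy2 ?_⟩
      have := hx3.trans hy3.symm
      rw [hj] at this
      revert this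
      cases x.a.mark <;> cases y.a.mark <;> cases y.jump <;> simp

theorem isDCode_dstep {D D' : Deco} (h : DStep D D') : IsDCode D.w ↔ IsDCode D'.w := by
  cases h with
  | flat hC h1 h2 m h β =>
    exact (isDCode_fill_iff hC h1 m.balanced.1).trans (isDCode_fill_iff hC h2 m.balanced.2).symm
  | relab f hf w h β =>
    simp only
    rw [isDCode_iff, isDCode_iff, isCode_relab_iff hf, List.map_map, List.map_map]
    rfl
  | face A hA h β => exact isDCode_face hA
  | curve w h β => exact Iff.rfl
  | rot a w h β =>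
    simp only
    rw [← isDCode_remark (fun c => decide (c = a.lab)), isDCode_iff, isDCode_iff, List.map_append,
      List.map_cons, List.map_cons, List.map_nil]
    exact isCode_rot_iff _ _

lemma real_relab {f : ℕ → ℕ} (hf : Function.Injective f) (w : List DLtr) :
    real (w.map (fun a => ⟨f a.lab, a.tail, a.mark⟩)) = (real w).map (Ltr.relab f) := by
  have h := fwd_mk_relab hf (real w)
  rw [mk_real] at h
  rw [← h, real_mk]

theorem psi_relab {f : ℕ → ℕ} (hf : Function.Injective f) (w : List DLtr) (h : Bool)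
    (β : ZMod 2) :
    PassEq (Psi ⟨w, h, β⟩) (Psi ⟨w.map (fun a => ⟨f a.lab, a.tail, a.mark⟩), h, β⟩) := by
  have h1 : arf (w.map (fun a => (⟨f a.lab, a.tail, a.mark⟩ : DLtr))) = arf w := by
    have h2 := arf_mk_relab hf (real w)
    rw [← real_relab hf, mk_real, mk_real] at h2
    exact h2
  have h2 : dot (w.map (fun a => (⟨f a.lab, a.tail, a.mark⟩ : DLtr))) false (fun _ => false) true =
      dot w false (fun _ => false) true := by
    unfold dot
    rw [List.map_map]
    have e : (fun a : DLtr => ((a, false) : DLtr × Bool)) ∘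
        (fun a => (⟨f a.lab, a.tail, a.mark⟩ : DLtr)) =
        (fun x : DLtr × Bool => ((⟨f x.1.lab, x.1.tail, x.1.mark⟩ : DLtr), x.2)) ∘
          (fun a : DLtr => ((a, false) : DLtr × Bool)) := rfl
    rw [e, ← List.map_map]
    refine lsum_map (fun a : DLtr × Bool => a.1.lab) dstep2 dotφ (fun a : DLtr × Bool => a.1.lab)
      dstep2 dotφ (fun x : DLtr × Bool => ((⟨f x.1.lab, x.1.tail, x.1.mark⟩ : DLtr), x.2)) f hf
      (fun _ => rfl) (fun _ _ => rfl) ?_ _ _
    intro l
    match l with
    | [] => rfl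
    | [x] => rfl
    | [x, y] => rfl
    | x :: y :: z :: l => rfl
  have h3 : nbit ⟨w.map (fun a => (⟨f a.lab, a.tail, a.mark⟩ : DLtr)), h, β⟩ =
      nbit ⟨w, h, β⟩ := by
    simp only [nbit, h1, h2]
  unfold Psi
  rw [h3]
  simp only
  rw [real_relab hf]
  split_ifs
  · exact (LEq.relab hf _).passEq
  · exact (addT_congr (LEq.relab hf _)).passEq

theorem psi_step {D D' : Deco} (h : DStep D D') (hD : IsDCode D.w) :
    PassEq (Psi D) (Psi D') := by
  cases h with
  | flat hC h1 h2 m h β => exact psi_flat hC h1 h2 m h β hD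
  | relab f hf w h β => exact psi_relab hf w h β
  | face A hA h β => exact psi_face hA h β hD
  | curve w h β => exact psi_curve h β hD
  | rot a w h β => exact psi_rot h β hD

theorem psi_deq {D D' : Deco} (h : DEq D D') (hD : IsDCode D.w) : PassEq (Psi D) (Psi D') := by
  have key : (IsDCode D.w ↔ IsDCode D'.w) ∧ (IsDCode D.w → PassEq (Psi D) (Psi D')) := by
    clear hD
    induction h with
    | rel _ _ h => exact ⟨isDCode_dstep h, psi_step h⟩
    | refl _ => exact ⟨Iff.rfl, fun _ => PassEq.refl _⟩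
    | symm _ _ _ ih => exact ⟨ih.1.symm, fun hD => (ih.2 (ih.1.2 hD)).symm⟩
    | trans _ _ _ _ _ ih1 ih2 =>
      exact ⟨ih1.1.trans ih2.1, fun hD => (ih1.2 hD).trans (ih2.2 (ih1.1.1 hD))⟩
  exact key.2 hD

theorem isCode_psi {D : Deco} (hD : IsDCode D.w) : IsCode (Psi D) := by
  unfold Psi
  split_ifs
  · exact isCode_real hD
  · exact isCode_addT.2 (isCode_real hD)

/-- **Classification of virtual knots up to pass equivalence.** -/
theorem classification :
    (∀ w w' : List Ltr, IsCode w → IsCode w' → (PassEq w w' ↔ DEq (dec w) (dec w'))) ∧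
    (∀ D : Deco, IsDCode D.w → ∃ w, IsCode w ∧ DEq (dec w) D) := by
  refine ⟨fun w w' hw hw' => ⟨fun h => forward h hw, fun h => ?_⟩, fun D hD => ?_⟩
  · have := psi_deq h (isDCode_mk hw)
    rwa [Psi_dec, Psi_dec] at this
  · exact ⟨Psi D, isCode_psi hD, dec_psi D hD⟩

end VPass
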