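import Pool.Agent.VPass.ArfInv

/-!
# Flat Reidemeister moves and the intersection number with the curve: finite checks

Part of MODULE FlatStep.  The intersection number of a cycle with the curve itself is a local sum
over the crossings whose state is the value of the cycle only.
-/

namespace VPass

/-- The contribution of a crossing to the intersection number with the curve. -/
def fsφ (l : List (Bool × DLtr)) : ZMod 2 := dotφ (l.map (fun x => ((x.1, true), (x.2, false))))

lemma fs_scan (h : Bool) (w : List DLtr) :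
    scan dstep2 (h, true) (w.map (fun a => (a, false))) =
      (scan dstep h w).map (fun x => ((x.1, true), (x.2, false))) := by
  induction w generalizing h with
  | nil => rfl
  | cons a w ih =>
    simp only [List.map_cons, scan]
    rw [show dstep2 (h, true) (a, false) = (dstep h a, true) from rfl, ih]

lemma fs_dot (w : List DLtr) (h : Bool) :
    dot w h (fun _ => false) true = lsum DLtr.lab dstep fsφ h w := by
  unfold dot lsum fsφ
  rw [fs_scan]
  have e : ((w.map (fun a => (a, false))).map (fun a : DLtr × Bool => a.1.lab)) =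
      w.map DLtr.lab := by
    rw [List.map_map]
    rfl
  rw [e]
  apply Finset.sum_congr rfl
  intro c _
  rw [List.filter_map]
  rfl

/-- The local contribution of the label `c` to the intersection number. -/
def fsLoc {k : ℕ} (l : List (Fin k)) (st : Fin k → Bool) (u : Fin k → List DLtr) (c : ℕ) :
    ZMod 2 :=
  fsφ (l.flatMap (fun i => (scan dstep (st i) (u i)).filter (fun x => x.2.lab = c)))

lemma fs_φ_relab {f : ℕ → ℕ} (l : List (Bool × DLtr)) :
    fsφ (l.map (Prod.map id (DLtr.relab f))) = fsφ l := by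
  rcases l with _ | ⟨x, _ | ⟨y, _ | ⟨z, l⟩⟩⟩ <;> rfl

lemma fs_loc_relab {k : ℕ} {f : ℕ → ℕ} (hf : Function.Injective f) (l : List (Fin k))
    (st : Fin k → Bool) (u : Fin k → List DLtr) (c : ℕ) :
    fsLoc l st (fun i => (u i).map (DLtr.relab f)) (f c) = fsLoc l st u c := by
  unfold fsLoc
  rw [← fs_φ_relab (f := f) (l.flatMap (fun i =>
    (scan dstep (st i) (u i)).filter (fun x => decide (x.2.lab = c))))]
  congr 1
  rw [List.map_flatMap]
  congr 1
  funext i
  rw [scan_relab, List.filter_map]
  congr 1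
  apply List.filter_congr
  intro x _
  simp [DLtr.relab, hf.eq_iff]

/-- Reduction of the invariance of the intersection number to a finite check. -/
theorem fs_dot_fill {k n : ℕ} {C : List (DLtr ⊕ Fin k)} {t t' : Fin k → List DLtr}
    (hC : IsTmpl C) (h : DFresh C t)
    {f : ℕ → ℕ} (hf : Function.Injective f) (u u' : Fin k → List DLtr)
    (hu : ∀ i, t i = (u i).map (DLtr.relab f)) (hu' : ∀ i, t' i = (u' i).map (DLtr.relab f))
    (hn : ∀ c < n, ∃ i, ∃ a ∈ u i, a.lab = c)
    (hn1 : ∀ i, ∀ a ∈ u i, a.lab < n) (hn' : ∀ i, ∀ a ∈ u' i, a.lab < n)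
    (hfin : ∀ i s, fin dstep s (u i) = fin dstep s (u' i))
    (H : ∀ l : List (Fin k), l.Perm (List.finRange k) → ∀ st : Fin k → Bool,
      ∑ c ∈ Finset.range n, fsLoc l st u c = ∑ c ∈ Finset.range n, fsLoc l st u' c) :
    dot (fill C t) false (fun _ => false) true = dot (fill C t') false (fun _ => false) true := by
  obtain rfl : t = fun i => (u i).map (DLtr.relab f) := funext hu
  obtain rfl : t' = fun i => (u' i).map (DLtr.relab f) := funext hu'
  rw [fs_dot, fs_dot]
  have key := lsum_fill DLtr.lab dstep fsφ rfl (k := k) (C := C)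
    (t := fun i => (u i).map (DLtr.relab f))
    (t' := fun i => (u' i).map (DLtr.relab f))
    (fun i s => by
      rw [fin_relab, fin_relab]
      exact hfin i s)
    ((Finset.range n).image f)
    (by
      intro i a ha
      obtain ⟨b', hb', rfl⟩ := List.mem_map.1 ha
      exact Finset.mem_image.2 ⟨b'.lab, Finset.mem_range.2 (hn1 i b' hb'), rfl⟩)
    (by
      intro i a ha
      obtain ⟨b', hb', rfl⟩ := List.mem_map.1 ha
      exact Finset.mem_image.2 ⟨b'.lab, Finset.mem_range.2 (hn' i b' hb'), rfl⟩)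
    (by
      intro b hb hc
      obtain ⟨c, hc1, hc2⟩ := Finset.mem_image.1 hc
      obtain ⟨i, a, ha, rfl⟩ := hn c (Finset.mem_range.1 hc1)
      exact h i _ (List.mem_map_of_mem ha) b hb hc2.symm)
    0
    (by
      intro st
      rw [add_zero, Finset.sum_image (fun x _ y _ e => hf e),
        Finset.sum_image (fun x _ y _ e => hf e)]
      have e1 : ∀ c, fsφ ((holes C).flatMap (fun i =>
          (scan dstep (st i) ((u i).map (DLtr.relab f))).filter
            (fun x => decide (x.2.lab = f c)))) = fsLoc (holes C) st u c := fun c =>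
        fs_loc_relab hf (holes C) st u c
      have e2 : ∀ c, fsφ ((holes C).flatMap (fun i =>
          (scan dstep (st i) ((u' i).map (DLtr.relab f))).filter
            (fun x => decide (x.2.lab = f c)))) = fsLoc (holes C) st u' c := fun c =>
        fs_loc_relab hf (holes C) st u' c
      rw [Finset.sum_congr rfl (fun c _ => e1 c), Finset.sum_congr rfl (fun c _ => e2 c)]
      exact H _ hC st)
    hC false
  rw [add_zero] at key
  exact key

set_option maxRecDepth 100000 in
theorem fs_r1_dot : ∀ (t : Bool) (s0 : Bool),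
    fsLoc [0] ![s0] ![[⟨0, t, false⟩, ⟨0, !t, false⟩]] 0 = 0 := by
  decide +kernel

set_option maxRecDepth 100000 in
theorem fs_r2_dot : ∀ (t dir : Bool) (a b : Fin 2), [a, b].Nodup → ∀ s0 s1 : Bool,
    fsLoc [a, b] ![s0, s1] ![[⟨0, t, false⟩, ⟨1, !t, false⟩],
      if dir then [⟨0, !t, false⟩, ⟨1, t, false⟩] else [⟨1, t, false⟩, ⟨0, !t, false⟩]] 0 +
    fsLoc [a, b] ![s0, s1] ![[⟨0, t, false⟩, ⟨1, !t, false⟩],
      if dir then [⟨0, !t, false⟩, ⟨1, t, false⟩] else [⟨1, t, false⟩, ⟨0, !t, false⟩]] 1 = 0 := by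
  decide +kernel

set_option maxRecDepth 100000 in
theorem fs_r3_dot : ∀ (o0 o1 o2 m0 m1 m2 : Bool),
    ∀ (a b c : Fin 3), [a, b, c].Nodup → ∀ s0 s1 s2 : Bool,
    fsLoc [a, b, c] ![s0, s1, s2]
      (triDWord Fin.val ![o0, o1, o2] ![m0, m1, m2]) 0 +
    fsLoc [a, b, c] ![s0, s1, s2]
      (triDWord Fin.val ![o0, o1, o2] ![m0, m1, m2]) 1 +
    fsLoc [a, b, c] ![s0, s1, s2]
      (triDWord Fin.val ![o0, o1, o2] ![m0, m1, m2]) 2 =
    fsLoc [a, b, c] ![s0, s1, s2]
      (fun i => (triDWord Fin.val ![o0, o1, o2] ![m0, m1, m2] i).reverse) 0 +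
    fsLoc [a, b, c] ![s0, s1, s2]
      (fun i => (triDWord Fin.val ![o0, o1, o2] ![m0, m1, m2] i).reverse) 1 +
    fsLoc [a, b, c] ![s0, s1, s2]
      (fun i => (triDWord Fin.val ![o0, o1, o2] ![m0, m1, m2] i).reverse) 2 := by
  decide +kernel

end VPass
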