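import Pool.Agent.VPass.FwdMoves

/-!
# Pass equivalent codes have equivalent decorated flat diagrams

MODULE Forward.
-/

namespace VPass

lemma isCode_step {w w' : List Ltr} (h : Step w w') : IsCode w ↔ IsCode w' :=
  PassEq.isCode_iff (Relation.EqvGen.rel _ _ h)

lemma forward_step {w w' : List Ltr} (h : Step w w') (hw : IsCode w) : DEq (dec w) (dec w') := by
  cases h with
  | long h =>
    cases h with
    | reid hC h h' m => exact forward_reid hC h h' m hw
    | pass hC h h' m => exact forward_pass hC h h' m hw
    | relab f hf => exact forward_relab hf _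
  | rot a w => exact forward_rot a w hw

theorem forward {w w' : List Ltr} (h : PassEq w w') (hw : IsCode w) : DEq (dec w) (dec w') := by
  have key : (IsCode w ↔ IsCode w') ∧ (IsCode w → DEq (dec w) (dec w')) := by
    clear hw
    induction h with
    | rel _ _ h => exact ⟨isCode_step h, forward_step h⟩
    | refl _ => exact ⟨Iff.rfl, fun _ => DEq.refl _⟩
    | symm _ _ _ ih => exact ⟨ih.1.symm, fun hw => (ih.2 (ih.1.2 hw)).symm⟩
    | trans _ _ _ _ _ ih1 ih2 =>
      exact ⟨ih1.1.trans ih2.1, fun hw => (ih1.2 hw).trans (ih2.2 (ih1.1.1 hw))⟩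
  exact key.2 hw

/-- a local flat trefoil can be removed -/
theorem tref_remove (w : List DLtr) (h : Bool) (β : ZMod 2) :
    DEq ⟨trefD ++ w.map (fun a : DLtr => ⟨a.lab + 3, a.tail, a.mark⟩), h, β⟩ ⟨w, h, β⟩ := by
  set w' : List DLtr := w.map (fun a : DLtr => ⟨a.lab + 3, a.tail, a.mark⟩) with hw'
  have hw3 : ∀ b ∈ w', 3 ≤ b.lab := by
    intro b hb
    obtain ⟨c, -, rfl⟩ := List.mem_map.1 hb
    simp
  -- the marks of the trefoil are removed
  have s1 : DEq ⟨trefD ++ w', h, β⟩
      ⟨[⟨0, true, false⟩, ⟨1, false, false⟩, ⟨2, true, false⟩, ⟨0, false, false⟩,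
        ⟨1, true, false⟩, ⟨2, false, false⟩] ++ w', h, β⟩ := by
    have h1 := face_local (k := 1) (C := Sum.inr 0 :: w'.map Sum.inl) (by simp [IsTmpl]; rfl)
      (fun _ => trefC) (by
        intro i a ha b hb
        have hb' : b ∈ w' := by simpa using hb
        have := hw3 b hb'
        have h2 : a.lab < 3 := by
          simp only [trefC, List.map_cons, List.map_nil, List.mem_cons, List.not_mem_nil, or_false] at ha
          rcases ha with h | h | h | h | h | h <;> subst h <;> simp
        omega) (fun _ => by decide) (fun _ => by decide) (fun _ => by decide)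
      (fun _ _ => by unfold CornerOK; decide) h β
    have h2 := h1.deq
    simp only [fill_cons_inr, fill_map_inl] at h2
    exact h2
  have s2 : DEq ⟨[⟨0, true, false⟩, ⟨1, false, false⟩, ⟨2, true, false⟩, ⟨0, false, false⟩,
        ⟨1, true, false⟩, ⟨2, false, false⟩] ++ w', h, β⟩
      ⟨[⟨2, true, false⟩, ⟨2, false, false⟩] ++ w', h, β⟩ := by
    have h1 := DStep.flat (k := 2) (C := Sum.inr 0 :: Sum.inl ⟨2, true, false⟩ :: Sum.inr 1 ::
      Sum.inl ⟨2, false, false⟩ :: w'.map Sum.inl) (by
        simp only [IsTmpl, holes_cons_inr, holes_cons_inl, holes_map_inl]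
        decide)
      (by
        intro i a ha b hb
        have h2 : a.lab < 2 := by
          fin_cases i
          · simp at ha; rcases ha with h | h <;> subst h <;> simp
          · simp at ha; rcases ha with h | h <;> subst h <;> simp
        have hb' : 2 ≤ b.lab := by
          simp at hb
          rcases hb with h | h | h
          · subst h; simp
          · subst h; simp
          · have := hw3 b h; omega
        omega) (by
        intro i a ha
        fin_cases i <;> simp at ha) (FMove.r2 0 1 (by decide) true true) h β
    have h2 := h1.deq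
    simp only [fill_cons_inr, fill_cons_inl, fill_map_inl] at h2
    exact h2
  have s3 : DEq ⟨[⟨2, true, false⟩, ⟨2, false, false⟩] ++ w', h, β⟩ ⟨w', h, β⟩ := by
    have h1 := DStep.flat (k := 1) (C := Sum.inr 0 :: w'.map Sum.inl) (by simp [IsTmpl]; rfl)
      (by
        intro i a ha b hb
        have h2 : a.lab = 2 := by
          fin_cases i
          simp at ha; rcases ha with h | h <;> subst h <;> simp
        have hb' : b ∈ w' := by simpa using hb
        have := hw3 b hb'
        omega) (by
        intro i a ha
        fin_cases i; simp at ha) (FMove.r1 2 true) h β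
    have h2 := h1.deq
    simp only [fill_cons_inr, fill_map_inl] at h2
    exact h2
  have s4 : DEq ⟨w, h, β⟩ ⟨w', h, β⟩ :=
    (DStep.relab (· + 3) (fun _ _ h => by simpa using h) w h β).deq
  exact ((s1.trans s2).trans s3).trans s4.symm

/-- A decorated flat diagram is equivalent to the decoration of its realisation. -/
theorem dec_psi (D : Deco) (hD : IsDCode D.w) : DEq (dec (Psi D)) D := by
  have h1 := DEq.norm D hD
  rcases zmod2_cases (nbit D) with h2 | h2
  · rw [h2, add_zero] at h1
    refine DEq.trans ?_ h1.symm
    simp only [Psi, h2, if_true, dec, mk_real]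
    exact DEq.refl _
  · rw [h2] at h1
    refine DEq.trans ?_ h1.symm
    have h3 : ¬ ((1 : ZMod 2) = 0) := by decide
    simp only [Psi, h2, h3, if_false, dec]
    rw [arf_mk_addT, fwd_mk_addT, mk_real]
    exact tref_remove _ _ _

end VPass
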