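import Pool.Agent.VPass.RotStep

/-!
# The map from Gauss codes to decorated flat diagrams: relabelling, rotation, local trefoils

Used by `Forward.lean`.
-/

namespace VPass

lemma DEq.refl (D : Deco) : DEq D D := Relation.EqvGen.refl _
lemma DEq.symm {D D' : Deco} (h : DEq D D') : DEq D' D := Relation.EqvGen.symm _ _ h
lemma DEq.trans {D D' D'' : Deco} (h : DEq D D') (h' : DEq D' D'') : DEq D D'' :=
  Relation.EqvGen.trans _ _ _ h h'
lemma DStep.deq {D D' : Deco} (h : DStep D D') : DEq D D' := Relation.EqvGen.rel _ _ h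

lemma fwd_smap_relab {f : ℕ → ℕ} (hf : Function.Injective f) (F : Bool → Ltr → DLtr)
    (hF : ∀ b a, F b (a.relab f) = ⟨f (F b a).lab, (F b a).tail, (F b a).mark⟩) (w : List Ltr) :
    ∀ s : List ℕ, smap Ltr.lab F (s.map f) (w.map (Ltr.relab f)) =
      (smap Ltr.lab F s w).map (fun a : DLtr => ⟨f a.lab, a.tail, a.mark⟩) := by
  induction w with
  | nil => intro s; rfl
  | cons a w ih =>
    intro s
    rw [List.map_cons, smap, smap, List.map_cons, ← ih (a.lab :: s), List.map_cons]
    congr 1
    rw [hF, relab_lab]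
    have h1 : (f a.lab ∈ s.map f) ↔ a.lab ∈ s := List.mem_map_of_injective hf
    simp only [h1]

lemma fwd_mk_relab {f : ℕ → ℕ} (hf : Function.Injective f) (w : List Ltr) :
    mk (w.map (Ltr.relab f)) = (mk w).map (fun a : DLtr => ⟨f a.lab, a.tail, a.mark⟩) := by
  unfold mk
  rw [← fwd_smap_relab hf _ _ w []]
  · rfl
  · intro b a; rfl

theorem forward_relab {f : ℕ → ℕ} (hf : Function.Injective f) (w : List Ltr) :
    DEq (dec w) (dec (w.map (Ltr.relab f))) := by
  unfold dec
  rw [arf_mk_relab hf, fwd_mk_relab hf]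
  exact (DStep.relab f hf (mk w) false _).deq

/-- every decorated flat diagram is equivalent to one with the value `false` on the base edge -/
theorem DEq.norm (D : Deco) (hD : IsDCode D.w) : DEq D ⟨D.w, false, arf D.w + nbit D⟩ := by
  obtain ⟨w, h, β⟩ := D
  have h2 : ∀ x y z : ZMod 2, z + (x + y) = x → z = y := by decide
  have h3 : ∀ x y : ZMod 2, x + (y + x) = y := by decide
  cases h
  · have e : arf w + nbit ⟨w, false, β⟩ = β := by
      simp only [nbit, Bool.false_eq_true, if_false, add_zero]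
      exact h3 _ _
    rw [e]
    exact DEq.refl _
  · have h4 := nbit_curve hD true β
    have h5 : β + dot w true (fun _ => false) true = arf w + nbit ⟨w, true, β⟩ := by
      rw [← h4]
      simp only [nbit, Bool.not_true, Bool.false_eq_true, if_false, add_zero]
      exact (h3 _ _).symm
    have h6 := (DStep.curve w true β).deq
    rw [h5] at h6
    exact h6

lemma isDCode_rotw {a : DLtr} {w : List DLtr} (hD : IsDCode (a :: w)) : IsDCode (rotw a w) := by
  have h1 : IsCode (real (a :: w)) := isCode_real hD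
  obtain ⟨x, v, e1, e2⟩ := real_rot hD
  have h2 : IsCode (v ++ [x]) := (isCode_rot_iff x v).1 (e1 ▸ h1)
  have h3 := isDCode_mk h2
  rw [← e2, mk_real] at h3
  exact h3

theorem forward_rot (a : Ltr) (w : List Ltr) (hw : IsCode (a :: w)) :
    DEq (dec (a :: w)) (dec (w ++ [a])) := by
  obtain ⟨b, v, hb⟩ : ∃ b v, mk (a :: w) = b :: v := ⟨_, _, rfl⟩
  have hD : IsDCode (b :: v) := hb ▸ isDCode_mk hw
  obtain ⟨x, u, e1, e2⟩ := real_rot hD
  rw [← hb, real_mk, List.cons.injEq] at e1
  obtain ⟨rfl, rfl⟩ := e1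
  have h1 : mk (w ++ [a]) = rotw b v := by rw [← e2, mk_real]
  have h2 : DEq (dec (a :: w)) ⟨rotw b v, !(xor false b.mark),
      arf (b :: v) + dot (b :: v) false (fun c => c.lab = b.lab) false⟩ := by
    unfold dec
    rw [hb]
    exact (DStep.rot b v false _).deq
  have h3 := DEq.norm _ (show IsDCode (Deco.w ⟨rotw b v, !(xor false b.mark),
      arf (b :: v) + dot (b :: v) false (fun c => c.lab = b.lab) false⟩) from isDCode_rotw hD)
  rw [nbit_rot hD] at h3
  have h4 : nbit ⟨b :: v, false, arf (b :: v)⟩ = 0 := by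
    have h5 : ∀ x : ZMod 2, x + x = 0 := by decide
    simp [nbit, h5]
  rw [h4, add_zero] at h3
  refine h2.trans (h3.trans ?_)
  unfold dec
  rw [h1]
  exact DEq.refl _

/-- the coloured word of the flat trefoil: the central triangle and the two inner bigons -/
def trefC : List CLtr :=
  [⟨⟨0, true, false⟩, false, false, true, true⟩,
   ⟨⟨1, false, true⟩, true, true, false, true⟩,
   ⟨⟨2, true, false⟩, false, true, false, true⟩,
   ⟨⟨0, false, false⟩, false, true, false, true⟩,
   ⟨⟨1, true, true⟩, false, true, true, true⟩,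
   ⟨⟨2, false, false⟩, true, true, false, false⟩]

/-- the decorated code of a local trefoil -/
def trefD : List DLtr :=
  [⟨0, true, false⟩, ⟨1, false, true⟩, ⟨2, true, false⟩, ⟨0, false, false⟩, ⟨1, true, true⟩,
    ⟨2, false, false⟩]

lemma fwd_mk_addT (w : List Ltr) :
    mk (addT w) = trefD ++ (mk w).map (fun a : DLtr => ⟨a.lab + 3, a.tail, a.mark⟩) := by
  obtain ⟨s', h1, h2⟩ := smap_append Ltr.lab
    (fun seen a => (⟨a.lab, a.tail, if seen then a.ov else !a.ov⟩ : DLtr)) (tref 0 1 2)
    (w.map (Ltr.relab (· + 3))) []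
  have h3 := fwd_mk_relab (f := (· + 3)) (fun _ _ h => by simpa using h) w
  unfold addT
  rw [mk, h2]
  congr 1
  rw [← h3, mk]
  apply smap_congr
  intro a ha
  obtain ⟨b, -, rfl⟩ := List.mem_map.1 ha
  rw [h1]
  simp only [List.not_mem_nil, false_or, iff_false]
  intro h4
  obtain ⟨c, hc, hc'⟩ := List.mem_map.1 h4
  have h5 : (Ltr.relab (· + 3) b).lab = b.lab + 3 := rfl
  rcases mem_tref hc with h | h | h <;> omega

end VPass
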