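import Pool.Agent.VPass.FaceLocal
import Pool.Agent.VPass.FwdRest

/-!
# The moves of long virtual knots give equivalent decorated flat diagrams

MODULE Forward, part FwdMoves.
-/

namespace VPass

/-- Words of two letters with colours `l`, `r` on the sides of the middle edge only. -/
def CLtr.fmPair (l r : Bool) : List DLtr → List CLtr
  | [a, b] => [⟨a, false, false, l, r⟩, ⟨b, l, r, false, false⟩]
  | _ => []

/-- Relabelling of coloured letters. -/
def CLtr.fmRelab (f : ℕ → ℕ) (x : CLtr) : CLtr := ⟨x.a.relab f, x.inL, x.inR, x.outL, x.outR⟩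

instance fm_dec_corner (x y : CLtr) : Decidable (CornerOK x y) := by unfold CornerOK; infer_instance

/-- The local conditions on a family of coloured words. -/
def FmCorners {k : ℕ} (T : Fin k → List CLtr) : Prop :=
  ∀ i j, ∀ x ∈ T i, ∀ y ∈ T j, x.a.lab = y.a.lab → x.a.tail = true →
      y.a.tail = false → CornerOK x y

instance fm_dec_corners {k : ℕ} (T : Fin k → List CLtr) : Decidable (FmCorners T) := by
  unfold FmCorners; infer_instance

lemma fm_pair_chain (l r : Bool) (w : List DLtr) :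
    List.IsChain (fun x y : CLtr => x.outL = y.inL ∧ x.outR = y.inR) (CLtr.fmPair l r w) := by
  rcases w with _ | ⟨a, _ | ⟨b, _ | ⟨c, w⟩⟩⟩ <;> simp [CLtr.fmPair]

lemma fm_pair_head (l r : Bool) (w : List DLtr) : ∀ x ∈ (CLtr.fmPair l r w).head?,
    x.inL = false ∧ x.inR = false := by
  rcases w with _ | ⟨a, _ | ⟨b, _ | ⟨c, w⟩⟩⟩ <;> simp [CLtr.fmPair]

lemma fm_pair_last (l r : Bool) (w : List DLtr) : ∀ x ∈ (CLtr.fmPair l r w).getLast?,
    x.outL = false ∧ x.outR = false := by
  rcases w with _ | ⟨a, _ | ⟨b, _ | ⟨c, w⟩⟩⟩ <;> simp [CLtr.fmPair]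

lemma fm_relab_chain (f : ℕ → ℕ) {w : List CLtr}
    (h : List.IsChain (fun x y : CLtr => x.outL = y.inL ∧ x.outR = y.inR) w) :
    List.IsChain (fun x y : CLtr => x.outL = y.inL ∧ x.outR = y.inR)
      (w.map (CLtr.fmRelab f)) := by
  rw [List.isChain_map]
  exact h

/-- A local face move which colours the middle edges of words of length two. -/
theorem fm_face_pair {k : ℕ} {C : List (DLtr ⊕ Fin k)} (hC : IsTmpl C) {f : ℕ → ℕ}
    (hf : Function.Injective f) (s s' : Fin k → List DLtr) (L R : Fin k → Bool)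
    (h1 : DFresh C (fun i => (s i).map (DLtr.relab f)))
    (e1 : ∀ i, (CLtr.fmPair (L i) (R i) (s i)).map CLtr.a = s i)
    (e2 : ∀ i, (CLtr.fmPair (L i) (R i) (s i)).map CLtr.add = s' i)
    (hc : FmCorners (fun i => CLtr.fmPair (L i) (R i) (s i))) (h : Bool) (β : ZMod 2) :
    DStep ⟨fill C (fun i => (s i).map (DLtr.relab f)), h, β⟩
      ⟨fill C (fun i => (s' i).map (DLtr.relab f)), h, β⟩ := by
  have E1 : (fun i => (s i).map (DLtr.relab f)) =
      fun i => ((CLtr.fmPair (L i) (R i) (s i)).map (CLtr.fmRelab f)).map CLtr.a := by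
    funext i
    conv_lhs => rw [← e1 i]
    rw [List.map_map, List.map_map]
    rfl
  have E2 : (fun i => (s' i).map (DLtr.relab f)) =
      fun i => ((CLtr.fmPair (L i) (R i) (s i)).map (CLtr.fmRelab f)).map CLtr.add := by
    funext i
    conv_lhs => rw [← e2 i]
    rw [List.map_map, List.map_map]
    rfl
  rw [E1] at h1
  rw [E1, E2]
  refine face_local hC _ h1 (fun i => fm_relab_chain f (fm_pair_chain _ _ _)) ?_ ?_ ?_ h β
  · intro i x hx
    rw [List.head?_map] at hx
    simp only [Option.mem_def, Option.map_eq_some_iff] at hx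
    obtain ⟨y, hy, rfl⟩ := hx
    exact fm_pair_head _ _ _ y hy
  · intro i x hx
    rw [List.getLast?_map] at hx
    simp only [Option.mem_def, Option.map_eq_some_iff] at hx
    obtain ⟨y, hy, rfl⟩ := hx
    exact fm_pair_last _ _ _ y hy
  · intro i j x hx y hy
    obtain ⟨x', hx', rfl⟩ := List.mem_map.1 hx
    obtain ⟨y', hy', rfl⟩ := List.mem_map.1 hy
    intro e h2 h3
    exact hc i j x' hx' y' hy' (hf e) h2 h3

/-- The colours of the central square of two crossing bands. -/
def fmSqL (left above : Bool) (i : Fin 4) : Bool := if i = 0 ∨ i = 1 then !above else !left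

def fmSqR (left above : Bool) (i : Fin 4) : Bool := if i = 0 ∨ i = 1 then above else left

set_option maxRecDepth 100000 in
theorem fm_pass_check : ∀ (up left above : Bool) (a b c d : Fin 4), [a, b, c, d].Nodup →
    (∀ i, (CLtr.fmPair (fmSqL left above i) (fmSqR left above i)
      (sw [a, b, c, d] (passWord Fin.val up left above) i)).map CLtr.a =
      sw [a, b, c, d] (passWord Fin.val up left above) i) ∧
    (∀ i, (CLtr.fmPair (fmSqL left above i) (fmSqR left above i)
      (sw [a, b, c, d] (passWord Fin.val up left above) i)).map CLtr.add =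
      sw [a, b, c, d] (passWord Fin.val (!up) left above) i) ∧
    FmCorners (fun i => CLtr.fmPair (fmSqL left above i) (fmSqR left above i)
      (sw [a, b, c, d] (passWord Fin.val up left above) i)) := by
  decide +kernel

/-! ## Common part -/

lemma fm_dfresh_sw {k : ℕ} {C : List (Ltr ⊕ Fin k)} {C' : List (DLtr ⊕ Fin k)} {l : List (Fin k)}
    {t : Fin k → List Ltr} (h : Fresh C t)
    (hm : ∀ b, Sum.inl b ∈ C' → ∃ a, Sum.inl a ∈ C ∧ ∃ s, b = mkf s a) :
    DFresh C' (fun i => sw l t i) := by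
  intro i a ha b hb
  obtain ⟨x, hx, e⟩ := mem_smap_lab ha
  obtain ⟨y, hy, s, rfl⟩ := hm b hb
  rw [← e]
  exact h i x hx y hy

lemma fm_dfresh_of_labs {k : ℕ} {C : List (DLtr ⊕ Fin k)} {t t' : Fin k → List DLtr}
    (h : DFresh C t) (H : ∀ i, ∀ a ∈ t' i, ∃ j, ∃ b ∈ t j, b.lab = a.lab) : DFresh C t' := by
  intro i a ha b hb
  obtain ⟨j, c, hc, e⟩ := H i a ha
  rw [← e]
  exact h j c hc b hb

lemma fm_dfresh_nil {k : ℕ} {C : List (DLtr ⊕ Fin k)} {t : Fin k → List DLtr}
    (H : ∀ i, t i = []) : DFresh C t := by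
  intro i a ha
  rw [H i] at ha
  simp at ha

/-- The decorated diagrams of the two sides of a move. -/
theorem fm_dec_fill {k : ℕ} {C : List (Ltr ⊕ Fin k)} {t t' : Fin k → List Ltr} (hC : IsTmpl C)
    (h : Fresh C t) (h' : Fresh C t') (ha : arf (mk (fill C t)) = arf (mk (fill C t'))) :
    ∃ C' : List (DLtr ⊕ Fin k), ∃ l : List (Fin k), ∃ β, IsTmpl C' ∧ l.Perm (List.finRange k) ∧
      DFresh C' (sw l t) ∧ DFresh C' (sw l t') ∧
      dec (fill C t) = ⟨fill C' (sw l t), false, β⟩ ∧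
      dec (fill C t') = ⟨fill C' (sw l t'), false, β⟩ := by
  obtain ⟨C', hh, hm, e1, e2⟩ := smap_fill Ltr.lab mkf hC (t := t)
    (fun i a ha b hb => h i a ha b hb)
  have e2' := e2 t' (fun i a ha b hb => h' i a ha b hb)
  refine ⟨C', holes C, arf (mk (fill C t)), ?_, hC, fm_dfresh_sw h hm, fm_dfresh_sw h' hm, ?_, ?_⟩
  · unfold IsTmpl; rw [hh]; exact hC
  · rw [dec, mk_eq, e1]; rfl
  · rw [dec, ← ha, mk_eq, mk_eq, e2']; rfl

theorem forward_pass {C : List (Ltr ⊕ Fin 4)} {t t' : Fin 4 → List Ltr} (hC : IsTmpl C)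
    (h : Fresh C t) (h' : Fresh C t') (m : PMove t t') (hw : IsCode (fill C t)) :
    DEq (dec (fill C t)) (dec (fill C t')) := by
  obtain ⟨C', l, β, hC', hl, f1, f2, e1, e2⟩ := fm_dec_fill hC h h' (arf_mk_pmove hC h h' m)
  rw [e1, e2]
  cases m with
  | pass c hc up left above =>
    obtain ⟨f, hf, hfc⟩ := exists_extend c hc
    have key : ∀ up, passWord c up left above =
        fun i => (passWord Fin.val up left above i).map (Ltr.relab f) := by
      intro up
      funext i
      fin_cases i <;> cases left <;> cases above <;>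
        simp only [passWord, List.map_cons, List.map_nil, List.map_reverse, Ltr.relab, hfc,
          if_true, Bool.false_eq_true, if_false]
    have key2 : ∀ up, sw l (passWord c up left above) =
        fun i => (sw l (passWord Fin.val up left above) i).map (DLtr.relab f) := by
      intro up
      funext i
      rw [key, sw_relab hf]
    obtain ⟨a, b, c', d, rfl, hab⟩ := arf_perm_four hl
    rw [key2] at f1
    rw [key2, key2]
    obtain ⟨k1, k2, k3⟩ := fm_pass_check up left above a b c' d hab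
    exact (fm_face_pair hC' hf _ _ _ _ f1 k1 k2 k3 false β).deq

/-! ## First Reidemeister move -/

lemma fm_mono_a (t m : Bool) : ∀ i : Fin 1, (CLtr.fmPair (![!t] i) (![t] i)
    ((![[⟨0, t, m⟩, ⟨0, !t, m⟩]] : Fin 1 → List DLtr) i)).map CLtr.a =
      (![[⟨0, t, m⟩, ⟨0, !t, m⟩]] : Fin 1 → List DLtr) i := by
  revert t m; decide +kernel

lemma fm_mono_add (t m : Bool) : ∀ i : Fin 1, (CLtr.fmPair (![!t] i) (![t] i)
    ((![[⟨0, t, m⟩, ⟨0, !t, m⟩]] : Fin 1 → List DLtr) i)).map CLtr.add =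
      (![[⟨0, t, !m⟩, ⟨0, !t, !m⟩]] : Fin 1 → List DLtr) i := by
  revert t m; decide +kernel

lemma fm_mono_corner (t m : Bool) : FmCorners (fun i : Fin 1 => CLtr.fmPair (![!t] i) (![t] i)
    ((![[⟨0, t, m⟩, ⟨0, !t, m⟩]] : Fin 1 → List DLtr) i)) := by
  revert t m; decide +kernel

/-- Removal of an isolated crossing, marked or not. -/
theorem fm_deq_r1 {C : List (DLtr ⊕ Fin 1)} (hC : IsTmpl C) (c : ℕ) (t m : Bool)
    (h1 : DFresh C ![[⟨c, t, m⟩, ⟨c, !t, m⟩]]) (h : Bool) (β : ZMod 2) :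
    DEq ⟨fill C ![[⟨c, t, m⟩, ⟨c, !t, m⟩]], h, β⟩ ⟨fill C ![[]], h, β⟩ := by
  have hn : DFresh C ![[]] := fm_dfresh_nil (by intro i; fin_cases i; rfl)
  have hflat : ∀ m', DFresh C ![[⟨c, t, m'⟩, ⟨c, !t, m'⟩]] := by
    intro m'
    refine fm_dfresh_of_labs h1 ?_
    intro i a ha
    fin_cases i
    simp only [Fin.zero_eta, Fin.isValue, Matrix.cons_val_fin_one, List.mem_cons,
      List.not_mem_nil, or_false] at ha
    refine ⟨0, ⟨c, t, m⟩, by simp, ?_⟩
    rcases ha with rfl | rfl <;> rfl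
  have key : DEq ⟨fill C ![[⟨c, t, false⟩, ⟨c, !t, false⟩]], h, β⟩ ⟨fill C ![[]], h, β⟩ :=
    (DStep.flat hC (hflat false) hn (FMove.r1 c t) h β).deq
  cases m with
  | false => exact key
  | true =>
    obtain ⟨f, hf, hfc⟩ := exists_extend ![c] (fun i j _ => Subsingleton.elim i j)
    have h0 : f 0 = c := hfc 0
    have hW : ∀ m', (![[⟨c, t, m'⟩, ⟨c, !t, m'⟩]] : Fin 1 → List DLtr) =
        fun i => ((![[⟨0, t, m'⟩, ⟨0, !t, m'⟩]] : Fin 1 → List DLtr) i).map (DLtr.relab f) := by
      intro m'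
      funext i
      fin_cases i
      simp [DLtr.relab, h0]
    refine Relation.EqvGen.trans _ _ _ ?_ key
    have h1' := hflat true
    rw [hW] at h1'
    rw [hW true, hW false]
    exact (fm_face_pair hC hf _ _ _ _ h1' (fm_mono_a t true) (fm_mono_add t true) (fm_mono_corner t true)
      h β).deq

lemma fm_sw_r1 (c : ℕ) (o s : Bool) : sw [0] ![[⟨c, o, s⟩, ⟨c, !o, s⟩]] =
    (![[⟨c, o == s, !o⟩, ⟨c, !(o == s), !o⟩]] : Fin 1 → List DLtr) := by
  funext i
  fin_cases i
  cases o <;> cases s <;> simp [sw, smap, mkf, before, Ltr.tail]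

lemma fm_sw_nil1 : sw [0] ![[]] = (![[]] : Fin 1 → List DLtr) := by
  funext i
  fin_cases i
  rfl

/-! ## Second Reidemeister move -/

/-- The words of a fmBigon. -/
def fmBigon (c d : ℕ) (t m dir : Bool) : Fin 2 → List DLtr :=
  ![[⟨c, t, m⟩, ⟨d, !t, m⟩],
    if dir then [⟨c, !t, m⟩, ⟨d, t, m⟩] else [⟨d, t, m⟩, ⟨c, !t, m⟩]]

lemma fm_bigon_a (t m dir : Bool) : ∀ i : Fin 2,
    (CLtr.fmPair (![t == dir, !t] i) (![!(t == dir), t] i) (fmBigon 0 1 t m dir i)).map CLtr.a =
      fmBigon 0 1 t m dir i := by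
  revert t m dir; decide +kernel

lemma fm_bigon_add (t m dir : Bool) : ∀ i : Fin 2,
    (CLtr.fmPair (![t == dir, !t] i) (![!(t == dir), t] i) (fmBigon 0 1 t m dir i)).map CLtr.add =
      fmBigon 0 1 t (!m) dir i := by
  revert t m dir; decide +kernel

lemma fm_bigon_corner (t m dir : Bool) : FmCorners (fun i : Fin 2 =>
    CLtr.fmPair (![t == dir, !t] i) (![!(t == dir), t] i) (fmBigon 0 1 t m dir i)) := by
  revert t m dir; decide +kernel

/-- Removal of a fmBigon, marked or not. -/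
theorem fm_deq_r2 {C : List (DLtr ⊕ Fin 2)} (hC : IsTmpl C) {c d : ℕ} (hcd : c ≠ d)
    (t m dir : Bool) (h1 : DFresh C (fmBigon c d t m dir)) (h : Bool) (β : ZMod 2) :
    DEq ⟨fill C (fmBigon c d t m dir), h, β⟩ ⟨fill C ![[], []], h, β⟩ := by
  have hn : DFresh C ![[], []] := fm_dfresh_nil (by intro i; fin_cases i <;> rfl)
  have hflat : ∀ m', DFresh C (fmBigon c d t m' dir) := by
    intro m'
    refine fm_dfresh_of_labs h1 ?_
    intro i a ha
    refine ⟨i, ⟨a.lab, a.tail, m⟩, ?_, rfl⟩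
    fin_cases i
    · simp only [fmBigon, Fin.zero_eta, Fin.isValue, Matrix.cons_val_zero, List.mem_cons,
        List.not_mem_nil, or_false] at ha ⊢
      rcases ha with rfl | rfl <;> simp
    · cases dir <;>
      · simp only [fmBigon, Fin.mk_one, Fin.isValue, Matrix.cons_val_one, Matrix.cons_val_fin_one,
          List.mem_cons, List.not_mem_nil, or_false, if_true, Bool.false_eq_true, if_false] at ha ⊢
        rcases ha with rfl | rfl <;> simp
  have key : DEq ⟨fill C (fmBigon c d t false dir), h, β⟩ ⟨fill C ![[], []], h, β⟩ :=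
    (DStep.flat hC (hflat false) hn (FMove.r2 c d hcd t dir) h β).deq
  cases m with
  | false => exact key
  | true =>
    obtain ⟨f, hf, hfc⟩ := exists_extend ![c, d] (by
      intro i j e
      fin_cases i <;> fin_cases j <;> simp_all)
    have h0 : f 0 = c := hfc 0
    have h1' : f 1 = d := hfc 1
    have hW : ∀ m', fmBigon c d t m' dir =
        fun i => (fmBigon 0 1 t m' dir i).map (DLtr.relab f) := by
      intro m'
      funext i
      fin_cases i <;> cases dir <;> simp [fmBigon, DLtr.relab, h0, h1']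
    refine Relation.EqvGen.trans _ _ _ ?_ key
    have h2' := hflat true
    rw [hW] at h2'
    rw [hW true, hW false]
    exact (fm_face_pair hC hf _ _ _ _ h2' (fm_bigon_a t true dir) (fm_bigon_add t true dir)
      (fm_bigon_corner t true dir) h β).deq

lemma fm_sw_r2 {c d : ℕ} (hcd : c ≠ d) (o s dir : Bool) {l : List (Fin 2)}
    (hl : l.Perm (List.finRange 2)) :
    ∃ m, sw l ![[⟨c, o, s⟩, ⟨d, o, !s⟩],
      if dir then [⟨c, !o, s⟩, ⟨d, !o, !s⟩] else [⟨d, !o, !s⟩, ⟨c, !o, s⟩]] =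
      fmBigon c d (o == s) m dir := by
  obtain ⟨a, b, rfl, hab⟩ := arf_perm_two hl
  fin_cases a <;> fin_cases b
  · simp at hab
  · refine ⟨!o, ?_⟩
    funext i
    fin_cases i <;> cases dir <;> cases o <;> cases s <;>
      simp [sw, smap, mkf, before, Ltr.tail, fmBigon, hcd, hcd.symm]
  · refine ⟨o, ?_⟩
    funext i
    fin_cases i <;> cases dir <;> cases o <;> cases s <;>
      simp [sw, smap, mkf, before, Ltr.tail, fmBigon, hcd, hcd.symm]
  · simp at hab

lemma fm_sw_nil2 (l : List (Fin 2)) : sw l ![[], []] = (![[], []] : Fin 2 → List DLtr) := by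
  funext i
  fin_cases i <;> rfl

/-! ## Third Reidemeister move -/

set_option maxRecDepth 100000 in
theorem fm_sw_r3_check : ∀ (o0 o1 o2 v0 v1 v2 : Bool) (a b c : Fin 3), [a, b, c].Nodup →
    ∃ m0 m1 m2 : Bool,
      (∀ i, sw [a, b, c] (triWord Fin.val ![o0, o1, o2] ![v0, v1, v2]) i =
        triDWord Fin.val ![o0, o1, o2] ![m0, m1, m2] i) ∧
      (∀ i, sw [a, b, c] (fun i => (triWord Fin.val ![o0, o1, o2] ![v0, v1, v2] i).reverse) i =
        (triDWord Fin.val ![o0, o1, o2] ![m0, m1, m2] i).reverse) := by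
  decide +kernel

lemma fm_triDWord_relab (f : ℕ → ℕ) (c : Fin 3 → ℕ) (o m : Fin 3 → Bool) (i : Fin 3) :
    (triDWord c o m i).map (DLtr.relab f) = triDWord (fun j => f (c j)) o m i := by
  simp only [triDWord]
  split_ifs <;> rfl

lemma fm_sw_r3 {c : Fin 3 → ℕ} (hc : Function.Injective c) (o ov : Fin 3 → Bool) {l : List (Fin 3)}
    (hl : l.Perm (List.finRange 3)) :
    ∃ m : Fin 3 → Bool, sw l (triWord c o ov) = triDWord c o m ∧
      sw l (fun i => (triWord c o ov i).reverse) = fun i => (triDWord c o m i).reverse := by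
  obtain ⟨f, hf, hfc⟩ := exists_extend c hc
  have key : triWord c o ov =
      fun i => (triWord Fin.val ![o 0, o 1, o 2] ![ov 0, ov 1, ov 2] i).map (Ltr.relab f) := by
    funext i
    rw [← eq_vec3 o, ← eq_vec3 ov]
    simp only [triWord]
    split_ifs <;> simp only [List.map_cons, List.map_nil, Ltr.relab, hfc]
  have key2 : (fun i => (triWord c o ov i).reverse) =
      fun i => ((triWord Fin.val ![o 0, o 1, o 2] ![ov 0, ov 1, ov 2] i).reverse).map
        (Ltr.relab f) := by
    funext i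
    rw [key, List.map_reverse]
  obtain ⟨a, b, c', rfl, hab⟩ := arf_perm_three hl
  obtain ⟨m0, m1, m2, k1, k2⟩ := fm_sw_r3_check (o 0) (o 1) (o 2) (ov 0) (ov 1) (ov 2) a b c' hab
  have hfc' : (fun j : Fin 3 => f (j : ℕ)) = c := funext hfc
  refine ⟨![m0, m1, m2], ?_, ?_⟩
  · rw [key]
    funext i
    rw [sw_relab hf, k1, fm_triDWord_relab, hfc', ← eq_vec3 o]
  · rw [key2]
    funext i
    rw [sw_relab hf (t := fun i =>
      (triWord Fin.val ![o 0, o 1, o 2] ![ov 0, ov 1, ov 2] i).reverse), k2, List.map_reverse,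
      fm_triDWord_relab, hfc', ← eq_vec3 o]

theorem forward_reid {k : ℕ} {C : List (Ltr ⊕ Fin k)} {t t' : Fin k → List Ltr} (hC : IsTmpl C)
    (h : Fresh C t) (h' : Fresh C t') (m : RMove t t') (hw : IsCode (fill C t)) :
    DEq (dec (fill C t)) (dec (fill C t')) := by
  obtain ⟨C', l, β, hC', hl, f1, f2, e1, e2⟩ := fm_dec_fill hC h h' (arf_mk_rmove hC h h' m)
  rw [e1, e2]
  cases m with
  | r1 c o s =>
    rw [arf_perm_one hl, fm_sw_r1] at f1
    rw [arf_perm_one hl, fm_sw_r1, fm_sw_nil1]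
    exact fm_deq_r1 hC' c _ _ f1 false β
  | r2 c d hcd o s dir =>
    obtain ⟨m, hm⟩ := fm_sw_r2 hcd o s dir hl
    rw [hm] at f1
    rw [hm, fm_sw_nil2]
    exact fm_deq_r2 hC' hcd _ _ _ f1 false β
  | r3 c hc o ov hv =>
    obtain ⟨m, k1, k2⟩ := fm_sw_r3 hc o ov hl
    rw [k1] at f1
    rw [k2] at f2
    rw [k1, k2]
    exact (DStep.flat hC' f1 f2 (FMove.r3 c hc o m) false β).deq

end VPass
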