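import Pool.Agent.VPass.Deco
import Pool.Agent.VPass.Basic

/-!
# Local sums under replacement of the words in a template

MODULE LSum.  For a label of the template, the filtered scan is that of the template letters (the
states there do not change since the words `t i` and `t' i` have the same effect on the state); for
a label of the words it is the concatenation over the holes.  So the difference of the two sums is
local.
-/

namespace VPass

lemma lsum_mem_scan {σ α : Type*} (δ : σ → α → σ) {x : σ × α} {w : List α} {s : σ} (h : x ∈ scan δ s w) :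
    x.2 ∈ w := by
  induction w generalizing s with
  | nil => simp [scan] at h
  | cons a w ih =>
    rw [scan, List.mem_cons] at h
    rcases h with h | h
    · rw [h]; exact List.mem_cons_self
    · exact List.mem_cons_of_mem _ (ih h)

lemma lsum_scan_append {σ α : Type*} (δ : σ → α → σ) (s : σ) (w w' : List α) :
    scan δ s (w ++ w') = scan δ s w ++ scan δ (fin δ s w) w' := by
  induction w generalizing s with
  | nil => rfl
  | cons a w ih =>
    rw [List.cons_append, scan, ih]
    rfl

theorem lsum_eq_of_subset {σ α : Type*} (lab : α → ℕ) (δ : σ → α → σ)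
    (φ : List (σ × α) → ZMod 2) (hφ : φ [] = 0) (s : σ) (w : List α) (S : Finset ℕ)
    (hS : ∀ a ∈ w, lab a ∈ S) :
    lsum lab δ φ s w = ∑ c ∈ S, φ ((scan δ s w).filter (fun x => lab x.2 = c)) := by
  unfold lsum
  apply Finset.sum_subset
  · intro c hc
    rw [List.mem_toFinset, List.mem_map] at hc
    obtain ⟨a, ha, rfl⟩ := hc
    exact hS a ha
  · intro c _ hc
    rw [List.mem_toFinset, List.mem_map] at hc
    have : (scan δ s w).filter (fun x => lab x.2 = c) = [] := by
      rw [List.filter_eq_nil_iff]
      intro x hx h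
      exact hc ⟨x.2, lsum_mem_scan δ hx, by simpa using h⟩
    rw [this, hφ]

/-- labels of the words -/
lemma lsum_scan_word {σ α : Type*} (lab : α → ℕ) (δ : σ → α → σ) {k : ℕ}
    {t t' : Fin k → List α} (hfin : ∀ i s, fin δ s (t i) = fin δ s (t' i))
    (S : Finset ℕ) (C : List (α ⊕ Fin k)) (hnd : (holes C).Nodup)
    (hSC : ∀ b, Sum.inl b ∈ C → lab b ∉ S) (s : σ) :
    ∃ st : Fin k → σ, ∀ c ∈ S,
      (scan δ s (fill C t)).filter (fun x => lab x.2 = c) = (holes C).flatMap
        (fun i => (scan δ (st i) (t i)).filter (fun x => lab x.2 = c)) ∧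
      (scan δ s (fill C t')).filter (fun x => lab x.2 = c) = (holes C).flatMap
        (fun i => (scan δ (st i) (t' i)).filter (fun x => lab x.2 = c)) := by
  induction C generalizing s with
  | nil => exact ⟨fun _ => s, fun c _ => ⟨by simp [scan], by simp [scan]⟩⟩
  | cons y C ih =>
    cases y with
    | inl a =>
      rw [holes_cons_inl] at hnd
      obtain ⟨st, hst⟩ := ih hnd (fun b hb => hSC b (List.mem_cons_of_mem _ hb)) (δ s a)
      refine ⟨st, fun c hc => ?_⟩
      have ha : ¬ (lab a = c) := by
        intro h
        exact hSC a List.mem_cons_self (h ▸ hc)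
      rw [fill_cons_inl, fill_cons_inl, holes_cons_inl, scan, scan, List.filter_cons_of_neg (by simpa using ha),
        List.filter_cons_of_neg (by simpa using ha)]
      exact hst c hc
    | inr i =>
      rw [holes_cons_inr, List.nodup_cons] at hnd
      obtain ⟨st, hst⟩ := ih hnd.2 (fun b hb => hSC b (List.mem_cons_of_mem _ hb)) (fin δ s (t i))
      refine ⟨Function.update st i s, fun c hc => ?_⟩
      obtain ⟨h1, h2⟩ := hst c hc
      rw [fill_cons_inr, fill_cons_inr, holes_cons_inr, lsum_scan_append, lsum_scan_append, List.filter_append,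
        List.filter_append, h1, ← hfin, h2, List.flatMap_cons, List.flatMap_cons, Function.update_self]
      have key : ∀ u : Fin k → List α, (holes C).flatMap
          (fun j => (scan δ (st j) (u j)).filter (fun x => lab x.2 = c)) =
          (holes C).flatMap (fun j => (scan δ (Function.update st i s j) (u j)).filter (fun x => lab x.2 = c)) := by
        intro u
        rw [List.flatMap_def, List.flatMap_def]
        congr 1
        apply List.map_congr_left
        intro j hj
        rw [Function.update_of_ne]
        rintro rfl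
        exact hnd.1 hj
      exact ⟨by rw [key t], by rw [key t']⟩

/-- labels of the template -/
lemma lsum_scan_tmpl {σ α : Type*} (lab : α → ℕ) (δ : σ → α → σ) {k : ℕ}
    {t t' : Fin k → List α} (hfin : ∀ i s, fin δ s (t i) = fin δ s (t' i))
    (S : Finset ℕ) (hS : ∀ i, ∀ a ∈ t i, lab a ∈ S) (hS' : ∀ i, ∀ a ∈ t' i, lab a ∈ S)
    (C : List (α ⊕ Fin k)) (s : σ) {c : ℕ} (hc : c ∉ S) :
    (scan δ s (fill C t)).filter (fun x => lab x.2 = c) =
      (scan δ s (fill C t')).filter (fun x => lab x.2 = c) := by
  induction C generalizing s with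
  | nil => rfl
  | cons y C ih =>
    cases y with
    | inl a =>
      rw [fill_cons_inl, fill_cons_inl, scan, scan]
      by_cases h : lab a = c
      · rw [List.filter_cons_of_pos (by simpa using h), List.filter_cons_of_pos (by simpa using h), ih]
      · rw [List.filter_cons_of_neg (by simpa using h), List.filter_cons_of_neg (by simpa using h), ih]
    | inr i =>
      have key : ∀ u : Fin k → List α, (∀ i, ∀ a ∈ u i, lab a ∈ S) → ∀ s,
          (scan δ s (u i)).filter (fun x => lab x.2 = c) = [] := by
        intro u hu s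
        rw [List.filter_eq_nil_iff]
        intro x hx h
        apply hc
        have := hu i x.2 (lsum_mem_scan δ hx)
        have h' : lab x.2 = c := by simpa using h
        rwa [h'] at this
      rw [fill_cons_inr, fill_cons_inr, lsum_scan_append, lsum_scan_append, List.filter_append, List.filter_append,
        key t hS, key t' hS', List.nil_append, List.nil_append, ← hfin, ih]

theorem lsum_fill {σ α : Type*} (lab : α → ℕ) (δ : σ → α → σ)
    (φ : List (σ × α) → ZMod 2) (hφ : φ [] = 0) {k : ℕ} {C : List (α ⊕ Fin k)}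
    {t t' : Fin k → List α}
    (hfin : ∀ i s, fin δ s (t i) = fin δ s (t' i))
    (S : Finset ℕ) (hS : ∀ i, ∀ a ∈ t i, lab a ∈ S) (hS' : ∀ i, ∀ a ∈ t' i, lab a ∈ S)
    (hSC : ∀ b, Sum.inl b ∈ C → lab b ∉ S) (ε : ZMod 2)
    (H : ∀ s : Fin k → σ,
      ∑ c ∈ S, φ ((holes C).flatMap
        (fun i => (scan δ (s i) (t i)).filter (fun x => lab x.2 = c))) =
      ∑ c ∈ S, φ ((holes C).flatMap
        (fun i => (scan δ (s i) (t' i)).filter (fun x => lab x.2 = c))) + ε)
    (hC : IsTmpl C) (s : σ) :
    lsum lab δ φ s (fill C t) = lsum lab δ φ s (fill C t') + ε := by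
  have hnd : (holes C).Nodup := hC.nodup_iff.mpr (List.nodup_finRange k)
  set T : Finset ℕ := ((fill C t).map lab).toFinset ∪ ((fill C t').map lab).toFinset with hT
  have e1 := lsum_eq_of_subset lab δ φ hφ s (fill C t) (S ∪ T) (by
    intro a ha
    rw [Finset.mem_union, hT, Finset.mem_union, List.mem_toFinset, List.mem_map]
    exact Or.inr (Or.inl ⟨a, ha, rfl⟩))
  have e2 := lsum_eq_of_subset lab δ φ hφ s (fill C t') (S ∪ T) (by
    intro a ha
    rw [Finset.mem_union, hT, Finset.mem_union, List.mem_toFinset, List.mem_toFinset, List.mem_map, List.mem_map]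
    exact Or.inr (Or.inr ⟨a, ha, rfl⟩))
  have hd : Disjoint S (T \ S) := Finset.disjoint_sdiff
  have hu : S ∪ T = S ∪ (T \ S) := by rw [Finset.union_sdiff_self_eq_union]
  rw [e1, e2, hu, Finset.sum_union hd, Finset.sum_union hd]
  obtain ⟨st, hst⟩ := lsum_scan_word lab δ hfin S C hnd hSC s
  rw [Finset.sum_congr rfl (fun c hc => congrArg φ (hst c hc).1),
    Finset.sum_congr rfl (fun c hc => congrArg φ (hst c hc).2), H st]
  have e3 : ∑ c ∈ T \ S, φ ((scan δ s (fill C t)).filter (fun x => lab x.2 = c)) =
      ∑ c ∈ T \ S, φ ((scan δ s (fill C t')).filter (fun x => lab x.2 = c)) := by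
    apply Finset.sum_congr rfl
    intro c hc
    rw [lsum_scan_tmpl lab δ hfin S hS hS' C s (Finset.mem_sdiff.mp hc).2]
  rw [e3]
  ring

/-- Relabelling does not change a local sum. -/
theorem lsum_map {σ α β : Type*} (lab : α → ℕ) (δ : σ → α → σ) (φ : List (σ × α) → ZMod 2)
    (lab' : β → ℕ) (δ' : σ → β → σ) (φ' : List (σ × β) → ZMod 2) (g : α → β) (f : ℕ → ℕ)
    (hf : Function.Injective f) (hlab : ∀ a, lab' (g a) = f (lab a))
    (hδ : ∀ s a, δ' s (g a) = δ s a) (hφ : ∀ l, φ' (l.map (Prod.map id g)) = φ l)
    (s : σ) (w : List α) :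
    lsum lab' δ' φ' s (w.map g) = lsum lab δ φ s w := by
  have hscan : ∀ s, scan δ' s (w.map g) = (scan δ s w).map (Prod.map id g) := by
    induction w with
    | nil => intro s; rfl
    | cons a w ih =>
      intro s
      rw [List.map_cons, scan, scan, List.map_cons, ih, hδ]
      rfl
  have hset : ((w.map g).map lab').toFinset = ((w.map lab).toFinset).image f := by
    ext c
    simp only [List.mem_toFinset, List.mem_map, Finset.mem_image]
    constructor
    · rintro ⟨b, ⟨a, ha, rfl⟩, rfl⟩
      exact ⟨lab a, ⟨a, ha, rfl⟩, (hlab a).symm⟩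
    · rintro ⟨c', ⟨a, ha, rfl⟩, rfl⟩
      exact ⟨g a, ⟨a, ha, rfl⟩, hlab a⟩
  unfold lsum
  rw [hset, Finset.sum_image (fun x _ y _ h => hf h)]
  apply Finset.sum_congr rfl
  intro c _
  rw [hscan, List.filter_map, hφ]
  congr 1
  apply List.filter_congr
  intro x _
  simp only [Function.comp, Prod.map, id, hlab]
  rw [decide_eq_decide]
  exact hf.eq_iff

end VPass
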