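import Pool.Agent.VPass.Basic

/-!
# Checking explicit chains of moves
-/

namespace VPass

/-- Boolean form of `Fresh`. -/
def freshB {k : ℕ} (C : List (Ltr ⊕ Fin k)) (t : Fin k → List Ltr) : Bool :=
  C.all (fun x => match x with
    | Sum.inl b => (List.finRange k).all (fun i => (t i).all (fun a => !(b.lab == a.lab)))
    | Sum.inr _ => true)

lemma fresh_of_freshB {k : ℕ} {C : List (Ltr ⊕ Fin k)} {t : Fin k → List Ltr}
    (h : freshB C t = true) : Fresh C t := by
  intro i a ha b hb e
  have h1 := List.all_eq_true.1 h _ hb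
  have h2 := List.all_eq_true.1 h1 i (List.mem_finRange i)
  have h3 := List.all_eq_true.1 h2 a ha
  simp [e] at h3

/-- Boolean form of the side conditions of `TEq.lift'`. -/
def liftOK {k k' : ℕ} (s s' : Fin k → List Ltr) (D : Fin k' → List (Ltr ⊕ Fin k))
    (u u' : Fin k' → List Ltr) : Bool :=
  decide (((List.finRange k').flatMap (fun j => holes (D j))).Perm (List.finRange k)) &&
  (List.finRange k').all (fun j =>
    freshB (D j) s && freshB (D j) s' && decide (fill (D j) s = u j) &&
      decide (fill (D j) s' = u' j))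

lemma liftOK_iff {k k' : ℕ} {s s' : Fin k → List Ltr} {D : Fin k' → List (Ltr ⊕ Fin k)}
    {u u' : Fin k' → List Ltr} (hc : liftOK s s' D u u' = true) :
    ((List.finRange k').flatMap (fun j => holes (D j))).Perm (List.finRange k) ∧
    (∀ j, Fresh (D j) s) ∧ (∀ j, Fresh (D j) s') ∧ (∀ j, fill (D j) s = u j) ∧
    (∀ j, fill (D j) s' = u' j) := by
  unfold liftOK at hc
  rw [Bool.and_eq_true] at hc
  have h2 : ∀ j, freshB (D j) s = true ∧ freshB (D j) s' = true ∧ fill (D j) s = u j ∧
      fill (D j) s' = u' j := by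
    intro j
    have := List.all_eq_true.1 hc.2 j (List.mem_finRange j)
    simp only [Bool.and_eq_true, decide_eq_true_eq] at this
    exact ⟨this.1.1.1, this.1.1.2, this.1.2, this.2⟩
  exact ⟨of_decide_eq_true hc.1, (fun j => fresh_of_freshB (h2 j).1),
    (fun j => fresh_of_freshB (h2 j).2.1), (fun j => (h2 j).2.2.1), (fun j => (h2 j).2.2.2)⟩

lemma TEq.by {k k' : ℕ} {s s' : Fin k → List Ltr} (h : TEq s s')
    (D : Fin k' → List (Ltr ⊕ Fin k)) {u u' : Fin k' → List Ltr}
    (hc : liftOK s s' D u u' = true) : TEq u u' := by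
  obtain ⟨h1, h2, h3, h4, h5⟩ := liftOK_iff hc
  exact h.lift' D u u' h1 h2 h3 h4 h5

/-- Swapping two labels. -/
def swapR (a b x : ℕ) : ℕ := if x = a then b else if x = b then a else x

lemma swapR_inj (a b : ℕ) : Function.Injective (swapR a b) := by
  intro x y h
  unfold swapR at h
  split_ifs at h <;> omega

lemma mem_labs_map {k : ℕ} {t : Fin k → List Ltr} {f : ℕ → ℕ} {c : ℕ} (h : c ∈ labs t) :
    f c ∈ labs (fun i => (t i).map (Ltr.relab f)) := by
  obtain ⟨i, a, ha, rfl⟩ := mem_labs.1 h
  exact mem_labs.2 ⟨i, a.relab f, List.mem_map.2 ⟨a, ha, rfl⟩, rfl⟩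

lemma TEq.swap {k : ℕ} (t : Fin k → List Ltr) (a b : ℕ) (h : a ∈ labs t ∨ b ∈ labs t) :
    TEq t (fun i => (t i).map (Ltr.relab (swapR a b))) := by
  intro C hC h1 h2
  rw [fresh_iff] at h1 h2
  have ha : ∀ x, Sum.inl x ∈ C → x.lab ≠ a := by
    rintro x hx rfl
    rcases h with h | h
    · exact h1 x hx h
    · apply h2 x hx
      have := mem_labs_map (f := swapR x.lab b) h
      have e : swapR x.lab b b = x.lab := by unfold swapR; split_ifs with h <;> simp_all
      rwa [e] at this
  have hb : ∀ x, Sum.inl x ∈ C → x.lab ≠ b := by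
    rintro x hx rfl
    rcases h with h | h
    · apply h2 x hx
      have := mem_labs_map (f := swapR a x.lab) h
      have e : swapR a x.lab a = x.lab := by unfold swapR; simp
      rwa [e] at this
    · exact h1 x hx h
  have e : (fill C t).map (Ltr.relab (swapR a b)) =
      fill C (fun i => (t i).map (Ltr.relab (swapR a b))) := by
    rw [← fill_tmap]
    congr 1
    unfold tmap
    conv_rhs => rw [← List.map_id C]
    apply List.map_congr_left
    intro x hx
    cases x with
    | inr i => rfl
    | inl y =>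
      simp only [Sum.map_inl, id_eq, Sum.inl.injEq]
      ext <;> simp [Ltr.relab, swapR, ha y hx, hb y hx]
  rw [← e]
  exact LEq.relab (swapR_inj a b) _

def swpOK {k : ℕ} (a b : ℕ) (t t' : Fin k → List Ltr) : Bool :=
  (decide (a ∈ labs t) || decide (b ∈ labs t)) &&
    (List.finRange k).all (fun i => decide ((t i).map (Ltr.relab (swapR a b)) = t' i))

lemma swpOK_iff {k : ℕ} {a b : ℕ} {t t' : Fin k → List Ltr} (h : swpOK a b t t' = true) :
    (a ∈ labs t ∨ b ∈ labs t) ∧ (fun i => (t i).map (Ltr.relab (swapR a b))) = t' := by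
  unfold swpOK at h
  rw [Bool.and_eq_true, Bool.or_eq_true, decide_eq_true_eq, decide_eq_true_eq] at h
  refine ⟨h.1, ?_⟩
  funext i
  exact of_decide_eq_true (List.all_eq_true.1 h.2 i (List.mem_finRange i))

lemma TEq.swp (a b : ℕ) {k : ℕ} {t t' : Fin k → List Ltr} (h : swpOK a b t t' = true) :
    TEq t t' := by
  obtain ⟨h1, h2⟩ := swpOK_iff h
  rw [← h2]
  exact TEq.swap t a b h1

/-- Extension of a list of labels. -/
def extv {n : ℕ} (c : Fin n → ℕ) (x : ℕ) : ℕ := if h : x < n then c ⟨x, h⟩ else x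

lemma extv_injOn {n : ℕ} {c : Fin n → ℕ} (hc : Function.Injective c) {S : Finset ℕ}
    (hS : ∀ x ∈ S, x < n) : Set.InjOn (extv c) S := by
  intro x hx y hy e
  have h1 := hS x hx
  have h2 := hS y hy
  simp only [extv, h1, h2, dite_true] at e
  simpa using congrArg Fin.val (hc e)

def labB (n : ℕ) {k : ℕ} (t : Fin k → List Ltr) : Bool :=
  (List.finRange k).all (fun i => (t i).all (fun a => decide (a.lab < n)))

lemma labB_iff {n : ℕ} {k : ℕ} {t : Fin k → List Ltr} (h : labB n t = true) :
    ∀ x ∈ labs t, x < n := by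
  intro x hx
  obtain ⟨i, a, ha, rfl⟩ := mem_labs.1 hx
  have h2 := List.all_eq_true.1 h i (List.mem_finRange i)
  exact of_decide_eq_true (List.all_eq_true.1 h2 a ha)

/-- From the labels `0, 1, …` to arbitrary labels. -/
lemma TEq.ext {k n : ℕ} {t t' : Fin k → List Ltr} (h : TEq t t') {c : Fin n → ℕ}
    (hc : Function.Injective c) (h1 : labB n t = true) (h2 : labB n t' = true) :
    TEq (fun i => (t i).map (Ltr.relab (extv c))) (fun i => (t' i).map (Ltr.relab (extv c))) := by
  apply h.relab
  apply extv_injOn hc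
  intro x hx
  rcases Finset.mem_union.1 hx with hx | hx
  · exact labB_iff h1 x hx
  · exact labB_iff h2 x hx

end VPass
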