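import Pool.Agent.VPass.Lift

/-!
# Exact macros (generated)

MODULE Macros (helper11).
-/

namespace VPass

/-! ### Antiparallel clasps may be switched -/

theorem flipClasp_ff : TEq ![[⟨1, true, false⟩, ⟨0, false, false⟩], [⟨0, true, false⟩, ⟨1, false, false⟩]]
    ![[⟨1, false, true⟩, ⟨0, true, true⟩], [⟨0, false, true⟩, ⟨1, true, true⟩]] := by
  refine TEq.trans (t' := ![[⟨1, true, false⟩, ⟨2, true, true⟩, ⟨2, false, true⟩, ⟨0, false, false⟩], [⟨0, true, false⟩, ⟨1, false, false⟩]])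
    (TEq.by ((RMove.r1 2 true true).teq).symm ![[Sum.inl ⟨1, true, false⟩, Sum.inr 0, Sum.inl ⟨0, false, false⟩], [Sum.inl ⟨0, true, false⟩, Sum.inl ⟨1, false, false⟩]] (by decide +kernel)) ?_
  refine TEq.trans (t' := ![[⟨1, true, false⟩, ⟨2, true, true⟩, ⟨2, false, true⟩, ⟨0, false, false⟩], [⟨0, true, false⟩, ⟨3, true, true⟩, ⟨3, false, true⟩, ⟨1, false, false⟩]])
    (TEq.by ((RMove.r1 3 true true).teq).symm ![[Sum.inl ⟨1, true, false⟩, Sum.inl ⟨2, true, true⟩, Sum.inl ⟨2, false, true⟩, Sum.inl ⟨0, false, false⟩], [Sum.inl ⟨0, true, false⟩, Sum.inr 0, Sum.inl ⟨1, false, false⟩]] (by decide +kernel)) ?_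
  refine TEq.trans (t' := ![[⟨1, false, true⟩, ⟨2, false, false⟩, ⟨2, true, false⟩, ⟨0, true, true⟩], [⟨0, false, true⟩, ⟨3, false, false⟩, ⟨3, true, false⟩, ⟨1, true, true⟩]])
    (TEq.by (PMove.pass ![0, 2, 1, 3] (by decide) false false false).teq ![[Sum.inr 3, Sum.inr 0], [Sum.inr 2, Sum.inr 1]] (by decide +kernel)) ?_
  refine TEq.trans (t' := ![[⟨1, false, true⟩, ⟨2, false, false⟩, ⟨2, true, false⟩, ⟨0, true, true⟩], [⟨0, false, true⟩, ⟨1, true, true⟩]])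
    (TEq.by (RMove.r1 3 false false).teq ![[Sum.inl ⟨1, false, true⟩, Sum.inl ⟨2, false, false⟩, Sum.inl ⟨2, true, false⟩, Sum.inl ⟨0, true, true⟩], [Sum.inl ⟨0, false, true⟩, Sum.inr 0, Sum.inl ⟨1, true, true⟩]] (by decide +kernel)) ?_
  exact (TEq.by (RMove.r1 2 false false).teq ![[Sum.inl ⟨1, false, true⟩, Sum.inr 0, Sum.inl ⟨0, true, true⟩], [Sum.inl ⟨0, false, true⟩, Sum.inl ⟨1, true, true⟩]] (by decide +kernel))

theorem flipClasp_ft : TEq ![[⟨1, false, true⟩, ⟨0, true, true⟩], [⟨0, false, true⟩, ⟨1, true, true⟩]]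
    ![[⟨1, true, false⟩, ⟨0, false, false⟩], [⟨0, true, false⟩, ⟨1, false, false⟩]] := by
  refine TEq.trans (t' := ![[⟨1, false, true⟩, ⟨2, false, false⟩, ⟨2, true, false⟩, ⟨0, true, true⟩], [⟨0, false, true⟩, ⟨1, true, true⟩]])
    (TEq.by ((RMove.r1 2 false false).teq).symm ![[Sum.inl ⟨1, false, true⟩, Sum.inr 0, Sum.inl ⟨0, true, true⟩], [Sum.inl ⟨0, false, true⟩, Sum.inl ⟨1, true, true⟩]] (by decide +kernel)) ?_
  refine TEq.trans (t' := ![[⟨1, false, true⟩, ⟨2, false, false⟩, ⟨2, true, false⟩, ⟨0, true, true⟩], [⟨0, false, true⟩, ⟨3, false, false⟩, ⟨3, true, false⟩, ⟨1, true, true⟩]])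
    (TEq.by ((RMove.r1 3 false false).teq).symm ![[Sum.inl ⟨1, false, true⟩, Sum.inl ⟨2, false, false⟩, Sum.inl ⟨2, true, false⟩, Sum.inl ⟨0, true, true⟩], [Sum.inl ⟨0, false, true⟩, Sum.inr 0, Sum.inl ⟨1, true, true⟩]] (by decide +kernel)) ?_
  refine TEq.trans (t' := ![[⟨1, true, false⟩, ⟨2, true, true⟩, ⟨2, false, true⟩, ⟨0, false, false⟩], [⟨0, true, false⟩, ⟨3, true, true⟩, ⟨3, false, true⟩, ⟨1, false, false⟩]])
    (TEq.by (PMove.pass ![0, 2, 1, 3] (by decide) true false false).teq ![[Sum.inr 3, Sum.inr 0], [Sum.inr 2, Sum.inr 1]] (by decide +kernel)) ?_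
  refine TEq.trans (t' := ![[⟨1, true, false⟩, ⟨2, true, true⟩, ⟨2, false, true⟩, ⟨0, false, false⟩], [⟨0, true, false⟩, ⟨1, false, false⟩]])
    (TEq.by (RMove.r1 3 true true).teq ![[Sum.inl ⟨1, true, false⟩, Sum.inl ⟨2, true, true⟩, Sum.inl ⟨2, false, true⟩, Sum.inl ⟨0, false, false⟩], [Sum.inl ⟨0, true, false⟩, Sum.inr 0, Sum.inl ⟨1, false, false⟩]] (by decide +kernel)) ?_
  exact (TEq.by (RMove.r1 2 true true).teq ![[Sum.inl ⟨1, true, false⟩, Sum.inr 0, Sum.inl ⟨0, false, false⟩], [Sum.inl ⟨0, true, false⟩, Sum.inl ⟨1, false, false⟩]] (by decide +kernel))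

theorem flipClasp_tf : TEq ![[⟨0, false, false⟩, ⟨1, true, false⟩], [⟨1, false, false⟩, ⟨0, true, false⟩]]
    ![[⟨0, true, true⟩, ⟨1, false, true⟩], [⟨1, true, true⟩, ⟨0, false, true⟩]] := by
  refine TEq.trans (t' := ![[⟨0, false, false⟩, ⟨2, false, true⟩, ⟨2, true, true⟩, ⟨1, true, false⟩], [⟨1, false, false⟩, ⟨0, true, false⟩]])
    (TEq.by ((RMove.r1 2 false true).teq).symm ![[Sum.inl ⟨0, false, false⟩, Sum.inr 0, Sum.inl ⟨1, true, false⟩], [Sum.inl ⟨1, false, false⟩, Sum.inl ⟨0, true, false⟩]] (by decide +kernel)) ?_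
  refine TEq.trans (t' := ![[⟨0, false, false⟩, ⟨2, false, true⟩, ⟨2, true, true⟩, ⟨1, true, false⟩], [⟨1, false, false⟩, ⟨3, false, true⟩, ⟨3, true, true⟩, ⟨0, true, false⟩]])
    (TEq.by ((RMove.r1 3 false true).teq).symm ![[Sum.inl ⟨0, false, false⟩, Sum.inl ⟨2, false, true⟩, Sum.inl ⟨2, true, true⟩, Sum.inl ⟨1, true, false⟩], [Sum.inl ⟨1, false, false⟩, Sum.inr 0, Sum.inl ⟨0, true, false⟩]] (by decide +kernel)) ?_
  refine TEq.trans (t' := ![[⟨0, true, true⟩, ⟨2, true, false⟩, ⟨2, false, false⟩, ⟨1, false, true⟩], [⟨1, true, true⟩, ⟨3, true, false⟩, ⟨3, false, false⟩, ⟨0, false, true⟩]])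
    (TEq.by (PMove.pass ![0, 2, 1, 3] (by decide) false true true).teq ![[Sum.inr 0, Sum.inr 3], [Sum.inr 1, Sum.inr 2]] (by decide +kernel)) ?_
  refine TEq.trans (t' := ![[⟨0, true, true⟩, ⟨2, true, false⟩, ⟨2, false, false⟩, ⟨1, false, true⟩], [⟨1, true, true⟩, ⟨0, false, true⟩]])
    (TEq.by (RMove.r1 3 true false).teq ![[Sum.inl ⟨0, true, true⟩, Sum.inl ⟨2, true, false⟩, Sum.inl ⟨2, false, false⟩, Sum.inl ⟨1, false, true⟩], [Sum.inl ⟨1, true, true⟩, Sum.inr 0, Sum.inl ⟨0, false, true⟩]] (by decide +kernel)) ?_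
  exact (TEq.by (RMove.r1 2 true false).teq ![[Sum.inl ⟨0, true, true⟩, Sum.inr 0, Sum.inl ⟨1, false, true⟩], [Sum.inl ⟨1, true, true⟩, Sum.inl ⟨0, false, true⟩]] (by decide +kernel))

theorem flipClasp_tt : TEq ![[⟨0, true, true⟩, ⟨1, false, true⟩], [⟨1, true, true⟩, ⟨0, false, true⟩]]
    ![[⟨0, false, false⟩, ⟨1, true, false⟩], [⟨1, false, false⟩, ⟨0, true, false⟩]] := by
  refine TEq.trans (t' := ![[⟨0, true, true⟩, ⟨2, true, false⟩, ⟨2, false, false⟩, ⟨1, false, true⟩], [⟨1, true, true⟩, ⟨0, false, true⟩]])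
    (TEq.by ((RMove.r1 2 true false).teq).symm ![[Sum.inl ⟨0, true, true⟩, Sum.inr 0, Sum.inl ⟨1, false, true⟩], [Sum.inl ⟨1, true, true⟩, Sum.inl ⟨0, false, true⟩]] (by decide +kernel)) ?_
  refine TEq.trans (t' := ![[⟨0, true, true⟩, ⟨2, true, false⟩, ⟨2, false, false⟩, ⟨1, false, true⟩], [⟨1, true, true⟩, ⟨3, true, false⟩, ⟨3, false, false⟩, ⟨0, false, true⟩]])
    (TEq.by ((RMove.r1 3 true false).teq).symm ![[Sum.inl ⟨0, true, true⟩, Sum.inl ⟨2, true, false⟩, Sum.inl ⟨2, false, false⟩, Sum.inl ⟨1, false, true⟩], [Sum.inl ⟨1, true, true⟩, Sum.inr 0, Sum.inl ⟨0, false, true⟩]] (by decide +kernel)) ?_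
  refine TEq.trans (t' := ![[⟨0, false, false⟩, ⟨2, false, true⟩, ⟨2, true, true⟩, ⟨1, true, false⟩], [⟨1, false, false⟩, ⟨3, false, true⟩, ⟨3, true, true⟩, ⟨0, true, false⟩]])
    (TEq.by (PMove.pass ![0, 2, 1, 3] (by decide) true true true).teq ![[Sum.inr 0, Sum.inr 3], [Sum.inr 1, Sum.inr 2]] (by decide +kernel)) ?_
  refine TEq.trans (t' := ![[⟨0, false, false⟩, ⟨2, false, true⟩, ⟨2, true, true⟩, ⟨1, true, false⟩], [⟨1, false, false⟩, ⟨0, true, false⟩]])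
    (TEq.by (RMove.r1 3 false true).teq ![[Sum.inl ⟨0, false, false⟩, Sum.inl ⟨2, false, true⟩, Sum.inl ⟨2, true, true⟩, Sum.inl ⟨1, true, false⟩], [Sum.inl ⟨1, false, false⟩, Sum.inr 0, Sum.inl ⟨0, true, false⟩]] (by decide +kernel)) ?_
  exact (TEq.by (RMove.r1 2 false true).teq ![[Sum.inl ⟨0, false, false⟩, Sum.inr 0, Sum.inl ⟨1, true, false⟩], [Sum.inl ⟨1, false, false⟩, Sum.inl ⟨0, true, false⟩]] (by decide +kernel))

/-- The two crossings of a clasp of two antiparallel edges may be switched. -/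
theorem flipClasp (c : Fin 2 → ℕ) (hc : Function.Injective c) (t σ : Bool) :
    TEq ![legP (c 0) (c 1) t σ, legQ (c 0) (c 1) t σ]
      ![legP (c 0) (c 1) t (!σ), legQ (c 0) (c 1) t (!σ)] := by
  have key : ∀ u : Bool, (fun i => ((![legP 0 1 t u, legQ 0 1 t u] : Fin 2 → List Ltr) i).map
      (Ltr.relab (extv c))) = ![legP (c 0) (c 1) t u, legQ (c 0) (c 1) t u] := by
    intro u; funext i; fin_cases i <;> cases t <;> cases u <;> rfl
  have h : TEq ![legP 0 1 t σ, legQ 0 1 t σ] ![legP 0 1 t (!σ), legQ 0 1 t (!σ)] := by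
    cases t <;> cases σ
    · exact flipClasp_ff
    · exact flipClasp_ft
    · exact flipClasp_tf
    · exact flipClasp_tt
  have := h.ext hc (by cases t <;> cases σ <;> decide) (by cases t <;> cases σ <;> decide)
  rwa [key, key] at this

/-! ### Triangles of even type may be switched -/

theorem flipTri_fff_fft : TEq ![[⟨0, false, false⟩, ⟨2, false, true⟩], [⟨1, false, false⟩, ⟨0, true, false⟩], [⟨2, true, true⟩, ⟨1, true, false⟩]]
    ![[⟨0, true, true⟩, ⟨2, true, false⟩], [⟨1, true, true⟩, ⟨0, false, true⟩], [⟨2, false, false⟩, ⟨1, false, true⟩]] := by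
  refine TEq.trans (t' := ![[⟨0, false, false⟩, ⟨2, false, true⟩], [⟨1, false, false⟩, ⟨3, false, true⟩, ⟨3, true, true⟩, ⟨0, true, false⟩], [⟨2, true, true⟩, ⟨1, true, false⟩]])
    (TEq.by ((RMove.r1 3 false true).teq).symm ![[Sum.inl ⟨0, false, false⟩, Sum.inl ⟨2, false, true⟩], [Sum.inl ⟨1, false, false⟩, Sum.inr 0, Sum.inl ⟨0, true, false⟩], [Sum.inl ⟨2, true, true⟩, Sum.inl ⟨1, true, false⟩]] (by decide +kernel)) ?_
  refine TEq.trans (t' := ![[⟨0, true, true⟩, ⟨2, true, false⟩], [⟨1, true, true⟩, ⟨3, true, false⟩, ⟨3, false, false⟩, ⟨0, false, true⟩], [⟨2, false, false⟩, ⟨1, false, true⟩]])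
    (TEq.by (PMove.pass ![0, 2, 1, 3] (by decide) false true true).teq ![[Sum.inr 0], [Sum.inr 1, Sum.inr 2], [Sum.inr 3]] (by decide +kernel)) ?_
  exact (TEq.by (RMove.r1 3 true false).teq ![[Sum.inl ⟨0, true, true⟩, Sum.inl ⟨2, true, false⟩], [Sum.inl ⟨1, true, true⟩, Sum.inr 0, Sum.inl ⟨0, false, true⟩], [Sum.inl ⟨2, false, false⟩, Sum.inl ⟨1, false, true⟩]] (by decide +kernel))

theorem flipTri_fff_ftf : TEq ![[⟨0, false, false⟩, ⟨2, true, false⟩], [⟨1, true, true⟩, ⟨0, true, false⟩], [⟨2, false, false⟩, ⟨1, false, true⟩]]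
    ![[⟨0, true, true⟩, ⟨2, false, true⟩], [⟨1, false, false⟩, ⟨0, false, true⟩], [⟨2, true, true⟩, ⟨1, true, false⟩]] := by
  refine TEq.trans (t' := ![[⟨0, false, false⟩, ⟨3, false, true⟩, ⟨3, true, true⟩, ⟨2, true, false⟩], [⟨1, true, true⟩, ⟨0, true, false⟩], [⟨2, false, false⟩, ⟨1, false, true⟩]])
    (TEq.by ((RMove.r1 3 false true).teq).symm ![[Sum.inl ⟨0, false, false⟩, Sum.inr 0, Sum.inl ⟨2, true, false⟩], [Sum.inl ⟨1, true, true⟩, Sum.inl ⟨0, true, false⟩], [Sum.inl ⟨2, false, false⟩, Sum.inl ⟨1, false, true⟩]] (by decide +kernel)) ?_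
  refine TEq.trans (t' := ![[⟨0, true, true⟩, ⟨3, true, false⟩, ⟨3, false, false⟩, ⟨2, false, true⟩], [⟨1, false, false⟩, ⟨0, false, true⟩], [⟨2, true, true⟩, ⟨1, true, false⟩]])
    (TEq.by (PMove.pass ![0, 3, 2, 1] (by decide) false true true).teq ![[Sum.inr 0, Sum.inr 3], [Sum.inr 2], [Sum.inr 1]] (by decide +kernel)) ?_
  exact (TEq.by (RMove.r1 3 true false).teq ![[Sum.inl ⟨0, true, true⟩, Sum.inr 0, Sum.inl ⟨2, false, true⟩], [Sum.inl ⟨1, false, false⟩, Sum.inl ⟨0, false, true⟩], [Sum.inl ⟨2, true, true⟩, Sum.inl ⟨1, true, false⟩]] (by decide +kernel))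

theorem flipTri_fff_ftt : TEq ![[⟨0, false, false⟩, ⟨2, false, true⟩], [⟨1, true, true⟩, ⟨0, true, false⟩], [⟨2, true, true⟩, ⟨1, false, true⟩]]
    ![[⟨0, true, true⟩, ⟨2, true, false⟩], [⟨1, false, false⟩, ⟨0, false, true⟩], [⟨2, false, false⟩, ⟨1, true, false⟩]] := by
  refine TEq.trans (t' := ![[⟨0, false, false⟩, ⟨2, false, true⟩], [⟨1, true, true⟩, ⟨0, true, false⟩], [⟨2, true, true⟩, ⟨3, true, false⟩, ⟨3, false, false⟩, ⟨1, false, true⟩]])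
    (TEq.by ((RMove.r1 3 true false).teq).symm ![[Sum.inl ⟨0, false, false⟩, Sum.inl ⟨2, false, true⟩], [Sum.inl ⟨1, true, true⟩, Sum.inl ⟨0, true, false⟩], [Sum.inl ⟨2, true, true⟩, Sum.inr 0, Sum.inl ⟨1, false, true⟩]] (by decide +kernel)) ?_
  refine TEq.trans (t' := ![[⟨0, true, true⟩, ⟨2, true, false⟩], [⟨1, false, false⟩, ⟨0, false, true⟩], [⟨2, false, false⟩, ⟨3, false, true⟩, ⟨3, true, true⟩, ⟨1, true, false⟩]])
    (TEq.by (PMove.pass ![0, 2, 3, 1] (by decide) false true true).teq ![[Sum.inr 0], [Sum.inr 2], [Sum.inr 3, Sum.inr 1]] (by decide +kernel)) ?_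
  exact (TEq.by (RMove.r1 3 false true).teq ![[Sum.inl ⟨0, true, true⟩, Sum.inl ⟨2, true, false⟩], [Sum.inl ⟨1, false, false⟩, Sum.inl ⟨0, false, true⟩], [Sum.inl ⟨2, false, false⟩, Sum.inr 0, Sum.inl ⟨1, true, false⟩]] (by decide +kernel))

theorem flipTri_fft_fft : TEq ![[⟨0, false, false⟩, ⟨2, false, false⟩], [⟨1, false, true⟩, ⟨0, true, false⟩], [⟨1, true, true⟩, ⟨2, true, false⟩]]
    ![[⟨0, true, true⟩, ⟨2, true, true⟩], [⟨1, true, false⟩, ⟨0, false, true⟩], [⟨1, false, false⟩, ⟨2, false, true⟩]] := by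
  refine TEq.trans (t' := ![[⟨0, false, false⟩, ⟨3, true, true⟩, ⟨3, false, true⟩, ⟨2, false, false⟩], [⟨1, false, true⟩, ⟨0, true, false⟩], [⟨1, true, true⟩, ⟨2, true, false⟩]])
    (TEq.by ((RMove.r1 3 true true).teq).symm ![[Sum.inl ⟨0, false, false⟩, Sum.inr 0, Sum.inl ⟨2, false, false⟩], [Sum.inl ⟨1, false, true⟩, Sum.inl ⟨0, true, false⟩], [Sum.inl ⟨1, true, true⟩, Sum.inl ⟨2, true, false⟩]] (by decide +kernel)) ?_
  refine TEq.trans (t' := ![[⟨0, false, false⟩, ⟨3, true, true⟩, ⟨4, true, false⟩, ⟨5, true, true⟩, ⟨3, false, true⟩, ⟨2, false, false⟩], [⟨1, false, true⟩, ⟨4, false, false⟩, ⟨5, false, true⟩, ⟨0, true, false⟩], [⟨1, true, true⟩, ⟨2, true, false⟩]])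
    (TEq.by ((RMove.r2 4 5 (by decide) true false true).teq).symm ![[Sum.inl ⟨0, false, false⟩, Sum.inl ⟨3, true, true⟩, Sum.inr 0, Sum.inl ⟨3, false, true⟩, Sum.inl ⟨2, false, false⟩], [Sum.inl ⟨1, false, true⟩, Sum.inr 1, Sum.inl ⟨0, true, false⟩], [Sum.inl ⟨1, true, true⟩, Sum.inl ⟨2, true, false⟩]] (by decide +kernel)) ?_
  refine TEq.trans (t' := ![[⟨0, false, false⟩, ⟨3, false, false⟩, ⟨4, false, true⟩, ⟨5, true, true⟩, ⟨3, true, false⟩, ⟨2, true, true⟩], [⟨1, true, false⟩, ⟨4, true, true⟩, ⟨5, false, true⟩, ⟨0, true, false⟩], [⟨1, false, false⟩, ⟨2, false, true⟩]])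
    (TEq.by (PMove.pass ![1, 2, 3, 4] (by decide) true true false).teq ![[Sum.inl ⟨0, false, false⟩, Sum.inr 1, Sum.inl ⟨5, true, true⟩, Sum.inr 3], [Sum.inr 2, Sum.inl ⟨5, false, true⟩, Sum.inl ⟨0, true, false⟩], [Sum.inr 0]] (by decide +kernel)) ?_
  refine TEq.trans (t' := ![[⟨0, false, false⟩, ⟨4, false, true⟩, ⟨3, false, false⟩, ⟨3, true, false⟩, ⟨5, true, true⟩, ⟨2, true, true⟩], [⟨1, true, false⟩, ⟨5, false, true⟩, ⟨4, true, true⟩, ⟨0, true, false⟩], [⟨1, false, false⟩, ⟨2, false, true⟩]])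
    (TEq.by (RMove.r3 ![3, 5, 4] (by decide) ![false, false, false] ![false, true, true] (by decide)).teq ![[Sum.inl ⟨0, false, false⟩, Sum.inr 0, Sum.inr 1, Sum.inl ⟨2, true, true⟩], [Sum.inl ⟨1, true, false⟩, Sum.inr 2, Sum.inl ⟨0, true, false⟩], [Sum.inl ⟨1, false, false⟩, Sum.inl ⟨2, false, true⟩]] (by decide +kernel)) ?_
  refine TEq.trans (t' := ![[⟨3, false, false⟩, ⟨3, true, false⟩, ⟨5, true, true⟩, ⟨2, true, true⟩], [⟨1, true, false⟩, ⟨5, false, true⟩], [⟨1, false, false⟩, ⟨2, false, true⟩]])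
    (TEq.by (RMove.r2 0 4 (by decide) false false false).teq ![[Sum.inr 0, Sum.inl ⟨3, false, false⟩, Sum.inl ⟨3, true, false⟩, Sum.inl ⟨5, true, true⟩, Sum.inl ⟨2, true, true⟩], [Sum.inl ⟨1, true, false⟩, Sum.inl ⟨5, false, true⟩, Sum.inr 1], [Sum.inl ⟨1, false, false⟩, Sum.inl ⟨2, false, true⟩]] (by decide +kernel)) ?_
  refine TEq.trans (t' := ![[⟨5, true, true⟩, ⟨2, true, true⟩], [⟨1, true, false⟩, ⟨5, false, true⟩], [⟨1, false, false⟩, ⟨2, false, true⟩]])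
    (TEq.by (RMove.r1 3 false false).teq ![[Sum.inr 0, Sum.inl ⟨5, true, true⟩, Sum.inl ⟨2, true, true⟩], [Sum.inl ⟨1, true, false⟩, Sum.inl ⟨5, false, true⟩], [Sum.inl ⟨1, false, false⟩, Sum.inl ⟨2, false, true⟩]] (by decide +kernel)) ?_
  exact (TEq.swp 5 0 (by decide +kernel))

theorem flipTri_fft_ftf : TEq ![[⟨0, false, false⟩, ⟨2, true, true⟩], [⟨1, true, false⟩, ⟨0, true, false⟩], [⟨1, false, false⟩, ⟨2, false, true⟩]]
    ![[⟨0, true, true⟩, ⟨2, false, false⟩], [⟨1, false, true⟩, ⟨0, false, true⟩], [⟨1, true, true⟩, ⟨2, true, false⟩]] := by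
  refine TEq.trans (t' := ![[⟨0, false, false⟩, ⟨2, true, true⟩], [⟨1, true, false⟩, ⟨0, true, false⟩, ⟨3, true, true⟩, ⟨3, false, true⟩], [⟨1, false, false⟩, ⟨2, false, true⟩]])
    (TEq.by ((RMove.r1 3 true true).teq).symm ![[Sum.inl ⟨0, false, false⟩, Sum.inl ⟨2, true, true⟩], [Sum.inl ⟨1, true, false⟩, Sum.inl ⟨0, true, false⟩, Sum.inr 0], [Sum.inl ⟨1, false, false⟩, Sum.inl ⟨2, false, true⟩]] (by decide +kernel)) ?_
  refine TEq.trans (t' := ![[⟨4, true, true⟩, ⟨5, true, false⟩, ⟨0, false, false⟩, ⟨2, true, true⟩], [⟨1, true, false⟩, ⟨0, true, false⟩, ⟨3, true, true⟩, ⟨3, false, true⟩, ⟨5, false, false⟩, ⟨4, false, true⟩], [⟨1, false, false⟩, ⟨2, false, true⟩]])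
    (TEq.by ((RMove.r2 4 5 (by decide) true true false).teq).symm ![[Sum.inr 0, Sum.inl ⟨0, false, false⟩, Sum.inl ⟨2, true, true⟩], [Sum.inl ⟨1, true, false⟩, Sum.inl ⟨0, true, false⟩, Sum.inl ⟨3, true, true⟩, Sum.inl ⟨3, false, true⟩, Sum.inr 1], [Sum.inl ⟨1, false, false⟩, Sum.inl ⟨2, false, true⟩]] (by decide +kernel)) ?_
  refine TEq.trans (t' := ![[⟨4, true, true⟩, ⟨0, false, false⟩, ⟨5, true, false⟩, ⟨2, true, true⟩], [⟨1, true, false⟩, ⟨3, true, true⟩, ⟨0, true, false⟩, ⟨5, false, false⟩, ⟨3, false, true⟩, ⟨4, false, true⟩], [⟨1, false, false⟩, ⟨2, false, true⟩]])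
    (TEq.by (RMove.r3 ![0, 3, 5] (by decide) ![true, true, true] ![false, true, false] (by decide)).teq ![[Sum.inl ⟨4, true, true⟩, Sum.inr 0, Sum.inl ⟨2, true, true⟩], [Sum.inl ⟨1, true, false⟩, Sum.inr 1, Sum.inr 2, Sum.inl ⟨4, false, true⟩], [Sum.inl ⟨1, false, false⟩, Sum.inl ⟨2, false, true⟩]] (by decide +kernel)) ?_
  refine TEq.trans (t' := ![[⟨4, true, true⟩, ⟨0, false, false⟩, ⟨5, false, true⟩, ⟨2, false, false⟩], [⟨1, false, true⟩, ⟨3, false, false⟩, ⟨0, true, false⟩, ⟨5, true, true⟩, ⟨3, true, false⟩, ⟨4, false, true⟩], [⟨1, true, true⟩, ⟨2, true, false⟩]])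
    (TEq.by (PMove.pass ![1, 2, 5, 3] (by decide) false true false).teq ![[Sum.inl ⟨4, true, true⟩, Sum.inl ⟨0, false, false⟩, Sum.inr 3], [Sum.inr 2, Sum.inl ⟨0, true, false⟩, Sum.inr 1, Sum.inl ⟨4, false, true⟩], [Sum.inr 0]] (by decide +kernel)) ?_
  refine TEq.trans (t' := ![[⟨4, true, true⟩, ⟨2, false, false⟩], [⟨1, false, true⟩, ⟨3, false, false⟩, ⟨3, true, false⟩, ⟨4, false, true⟩], [⟨1, true, true⟩, ⟨2, true, false⟩]])
    (TEq.by (RMove.r2 0 5 (by decide) true false true).teq ![[Sum.inl ⟨4, true, true⟩, Sum.inr 1, Sum.inl ⟨2, false, false⟩], [Sum.inl ⟨1, false, true⟩, Sum.inl ⟨3, false, false⟩, Sum.inr 0, Sum.inl ⟨3, true, false⟩, Sum.inl ⟨4, false, true⟩], [Sum.inl ⟨1, true, true⟩, Sum.inl ⟨2, true, false⟩]] (by decide +kernel)) ?_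
  refine TEq.trans (t' := ![[⟨4, true, true⟩, ⟨2, false, false⟩], [⟨1, false, true⟩, ⟨4, false, true⟩], [⟨1, true, true⟩, ⟨2, true, false⟩]])
    (TEq.by (RMove.r1 3 false false).teq ![[Sum.inl ⟨4, true, true⟩, Sum.inl ⟨2, false, false⟩], [Sum.inl ⟨1, false, true⟩, Sum.inr 0, Sum.inl ⟨4, false, true⟩], [Sum.inl ⟨1, true, true⟩, Sum.inl ⟨2, true, false⟩]] (by decide +kernel)) ?_
  exact (TEq.swp 4 0 (by decide +kernel))

theorem flipTri_ftf_ftf : TEq ![[⟨0, false, true⟩, ⟨2, true, false⟩], [⟨0, true, true⟩, ⟨1, true, false⟩], [⟨2, false, false⟩, ⟨1, false, false⟩]]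
    ![[⟨0, true, false⟩, ⟨2, false, true⟩], [⟨0, false, false⟩, ⟨1, false, true⟩], [⟨2, true, true⟩, ⟨1, true, true⟩]] := by
  refine TEq.trans (t' := ![[⟨0, false, true⟩, ⟨2, true, false⟩], [⟨0, true, true⟩, ⟨1, true, false⟩], [⟨2, false, false⟩, ⟨3, true, true⟩, ⟨3, false, true⟩, ⟨1, false, false⟩]])
    (TEq.by ((RMove.r1 3 true true).teq).symm ![[Sum.inl ⟨0, false, true⟩, Sum.inl ⟨2, true, false⟩], [Sum.inl ⟨0, true, true⟩, Sum.inl ⟨1, true, false⟩], [Sum.inl ⟨2, false, false⟩, Sum.inr 0, Sum.inl ⟨1, false, false⟩]] (by decide +kernel)) ?_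
  refine TEq.trans (t' := ![[⟨0, false, true⟩, ⟨4, false, false⟩, ⟨5, false, true⟩, ⟨2, true, false⟩], [⟨0, true, true⟩, ⟨1, true, false⟩], [⟨2, false, false⟩, ⟨3, true, true⟩, ⟨4, true, false⟩, ⟨5, true, true⟩, ⟨3, false, true⟩, ⟨1, false, false⟩]])
    (TEq.by ((RMove.r2 4 5 (by decide) false false true).teq).symm ![[Sum.inl ⟨0, false, true⟩, Sum.inr 0, Sum.inl ⟨2, true, false⟩], [Sum.inl ⟨0, true, true⟩, Sum.inl ⟨1, true, false⟩], [Sum.inl ⟨2, false, false⟩, Sum.inl ⟨3, true, true⟩, Sum.inr 1, Sum.inl ⟨3, false, true⟩, Sum.inl ⟨1, false, false⟩]] (by decide +kernel)) ?_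
  refine TEq.trans (t' := ![[⟨0, true, false⟩, ⟨4, true, true⟩, ⟨5, false, true⟩, ⟨2, true, false⟩], [⟨0, false, false⟩, ⟨1, false, true⟩], [⟨2, false, false⟩, ⟨3, false, false⟩, ⟨4, false, true⟩, ⟨5, true, true⟩, ⟨3, true, false⟩, ⟨1, true, true⟩]])
    (TEq.by (PMove.pass ![0, 1, 3, 4] (by decide) true true false).teq ![[Sum.inr 2, Sum.inl ⟨5, false, true⟩, Sum.inl ⟨2, true, false⟩], [Sum.inr 0], [Sum.inl ⟨2, false, false⟩, Sum.inr 1, Sum.inl ⟨5, true, true⟩, Sum.inr 3]] (by decide +kernel)) ?_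
  refine TEq.trans (t' := ![[⟨0, true, false⟩, ⟨4, true, true⟩, ⟨2, true, false⟩, ⟨5, false, true⟩], [⟨0, false, false⟩, ⟨1, false, true⟩], [⟨3, false, false⟩, ⟨2, false, false⟩, ⟨4, false, true⟩, ⟨3, true, false⟩, ⟨5, true, true⟩, ⟨1, true, true⟩]])
    (TEq.by (RMove.r3 ![2, 5, 3] (by decide) ![false, false, true] ![false, false, true] (by decide)).teq ![[Sum.inl ⟨0, true, false⟩, Sum.inl ⟨4, true, true⟩, Sum.inr 1], [Sum.inl ⟨0, false, false⟩, Sum.inl ⟨1, false, true⟩], [Sum.inr 0, Sum.inl ⟨4, false, true⟩, Sum.inr 2, Sum.inl ⟨1, true, true⟩]] (by decide +kernel)) ?_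
  refine TEq.trans (t' := ![[⟨0, true, false⟩, ⟨5, false, true⟩], [⟨0, false, false⟩, ⟨1, false, true⟩], [⟨3, false, false⟩, ⟨3, true, false⟩, ⟨5, true, true⟩, ⟨1, true, true⟩]])
    (TEq.by (RMove.r2 2 4 (by decide) false false false).teq ![[Sum.inl ⟨0, true, false⟩, Sum.inr 1, Sum.inl ⟨5, false, true⟩], [Sum.inl ⟨0, false, false⟩, Sum.inl ⟨1, false, true⟩], [Sum.inl ⟨3, false, false⟩, Sum.inr 0, Sum.inl ⟨3, true, false⟩, Sum.inl ⟨5, true, true⟩, Sum.inl ⟨1, true, true⟩]] (by decide +kernel)) ?_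
  refine TEq.trans (t' := ![[⟨0, true, false⟩, ⟨5, false, true⟩], [⟨0, false, false⟩, ⟨1, false, true⟩], [⟨5, true, true⟩, ⟨1, true, true⟩]])
    (TEq.by (RMove.r1 3 false false).teq ![[Sum.inl ⟨0, true, false⟩, Sum.inl ⟨5, false, true⟩], [Sum.inl ⟨0, false, false⟩, Sum.inl ⟨1, false, true⟩], [Sum.inr 0, Sum.inl ⟨5, true, true⟩, Sum.inl ⟨1, true, true⟩]] (by decide +kernel)) ?_
  exact (TEq.swp 5 2 (by decide +kernel))

theorem flipTri_ftf_ftt : TEq ![[⟨0, false, true⟩, ⟨2, false, true⟩], [⟨0, true, true⟩, ⟨1, true, false⟩], [⟨2, true, true⟩, ⟨1, false, false⟩]]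
    ![[⟨0, true, false⟩, ⟨2, true, false⟩], [⟨0, false, false⟩, ⟨1, false, true⟩], [⟨2, false, false⟩, ⟨1, true, true⟩]] := by
  refine TEq.trans (t' := ![[⟨0, false, true⟩, ⟨2, false, true⟩, ⟨3, false, false⟩, ⟨3, true, false⟩], [⟨0, true, true⟩, ⟨1, true, false⟩], [⟨2, true, true⟩, ⟨1, false, false⟩]])
    (TEq.by ((RMove.r1 3 false false).teq).symm ![[Sum.inl ⟨0, false, true⟩, Sum.inl ⟨2, false, true⟩, Sum.inr 0], [Sum.inl ⟨0, true, true⟩, Sum.inl ⟨1, true, false⟩], [Sum.inl ⟨2, true, true⟩, Sum.inl ⟨1, false, false⟩]] (by decide +kernel)) ?_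
  refine TEq.trans (t' := ![[⟨0, false, true⟩, ⟨2, false, true⟩, ⟨3, false, false⟩, ⟨4, true, true⟩, ⟨5, true, false⟩, ⟨3, true, false⟩], [⟨0, true, true⟩, ⟨1, true, false⟩], [⟨2, true, true⟩, ⟨5, false, false⟩, ⟨4, false, true⟩, ⟨1, false, false⟩]])
    (TEq.by ((RMove.r2 4 5 (by decide) true true false).teq).symm ![[Sum.inl ⟨0, false, true⟩, Sum.inl ⟨2, false, true⟩, Sum.inl ⟨3, false, false⟩, Sum.inr 0, Sum.inl ⟨3, true, false⟩], [Sum.inl ⟨0, true, true⟩, Sum.inl ⟨1, true, false⟩], [Sum.inl ⟨2, true, true⟩, Sum.inr 1, Sum.inl ⟨1, false, false⟩]] (by decide +kernel)) ?_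
  refine TEq.trans (t' := ![[⟨0, false, true⟩, ⟨3, false, false⟩, ⟨2, false, true⟩, ⟨4, true, true⟩, ⟨3, true, false⟩, ⟨5, true, false⟩], [⟨0, true, true⟩, ⟨1, true, false⟩], [⟨5, false, false⟩, ⟨2, true, true⟩, ⟨4, false, true⟩, ⟨1, false, false⟩]])
    (TEq.by (RMove.r3 ![2, 5, 3] (by decide) ![false, true, true] ![false, false, true] (by decide)).teq ![[Sum.inl ⟨0, false, true⟩, Sum.inr 0, Sum.inl ⟨4, true, true⟩, Sum.inr 2], [Sum.inl ⟨0, true, true⟩, Sum.inl ⟨1, true, false⟩], [Sum.inr 1, Sum.inl ⟨4, false, true⟩, Sum.inl ⟨1, false, false⟩]] (by decide +kernel)) ?_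
  refine TEq.trans (t' := ![[⟨0, true, false⟩, ⟨3, true, true⟩, ⟨2, false, true⟩, ⟨4, false, false⟩, ⟨3, false, true⟩, ⟨5, true, false⟩], [⟨0, false, false⟩, ⟨1, false, true⟩], [⟨5, false, false⟩, ⟨2, true, true⟩, ⟨4, true, false⟩, ⟨1, true, true⟩]])
    (TEq.by (PMove.pass ![0, 1, 4, 3] (by decide) true true false).teq ![[Sum.inr 2, Sum.inl ⟨2, false, true⟩, Sum.inr 1, Sum.inl ⟨5, true, false⟩], [Sum.inr 0], [Sum.inl ⟨5, false, false⟩, Sum.inl ⟨2, true, true⟩, Sum.inr 3]] (by decide +kernel)) ?_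
  refine TEq.trans (t' := ![[⟨0, true, false⟩, ⟨3, true, true⟩, ⟨3, false, true⟩, ⟨5, true, false⟩], [⟨0, false, false⟩, ⟨1, false, true⟩], [⟨5, false, false⟩, ⟨1, true, true⟩]])
    (TEq.by (RMove.r2 2 4 (by decide) false true true).teq ![[Sum.inl ⟨0, true, false⟩, Sum.inl ⟨3, true, true⟩, Sum.inr 0, Sum.inl ⟨3, false, true⟩, Sum.inl ⟨5, true, false⟩], [Sum.inl ⟨0, false, false⟩, Sum.inl ⟨1, false, true⟩], [Sum.inl ⟨5, false, false⟩, Sum.inr 1, Sum.inl ⟨1, true, true⟩]] (by decide +kernel)) ?_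
  refine TEq.trans (t' := ![[⟨0, true, false⟩, ⟨5, true, false⟩], [⟨0, false, false⟩, ⟨1, false, true⟩], [⟨5, false, false⟩, ⟨1, true, true⟩]])
    (TEq.by (RMove.r1 3 true true).teq ![[Sum.inl ⟨0, true, false⟩, Sum.inr 0, Sum.inl ⟨5, true, false⟩], [Sum.inl ⟨0, false, false⟩, Sum.inl ⟨1, false, true⟩], [Sum.inl ⟨5, false, false⟩, Sum.inl ⟨1, true, true⟩]] (by decide +kernel)) ?_
  exact (TEq.swp 5 2 (by decide +kernel))

theorem flipTri_ftt_fft : TEq ![[⟨0, false, true⟩, ⟨2, false, false⟩], [⟨0, true, true⟩, ⟨1, false, false⟩], [⟨1, true, false⟩, ⟨2, true, false⟩]]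
    ![[⟨0, true, false⟩, ⟨2, true, true⟩], [⟨0, false, false⟩, ⟨1, true, true⟩], [⟨1, false, true⟩, ⟨2, false, true⟩]] := by
  refine TEq.trans (t' := ![[⟨0, false, true⟩, ⟨2, false, false⟩], [⟨0, true, true⟩, ⟨1, false, false⟩], [⟨1, true, false⟩, ⟨3, false, true⟩, ⟨3, true, true⟩, ⟨2, true, false⟩]])
    (TEq.by ((RMove.r1 3 false true).teq).symm ![[Sum.inl ⟨0, false, true⟩, Sum.inl ⟨2, false, false⟩], [Sum.inl ⟨0, true, true⟩, Sum.inl ⟨1, false, false⟩], [Sum.inl ⟨1, true, false⟩, Sum.inr 0, Sum.inl ⟨2, true, false⟩]] (by decide +kernel)) ?_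
  refine TEq.trans (t' := ![[⟨0, false, true⟩, ⟨2, false, false⟩], [⟨0, true, true⟩, ⟨4, true, false⟩, ⟨5, true, true⟩, ⟨1, false, false⟩], [⟨1, true, false⟩, ⟨3, false, true⟩, ⟨4, false, false⟩, ⟨5, false, true⟩, ⟨3, true, true⟩, ⟨2, true, false⟩]])
    (TEq.by ((RMove.r2 4 5 (by decide) true false true).teq).symm ![[Sum.inl ⟨0, false, true⟩, Sum.inl ⟨2, false, false⟩], [Sum.inl ⟨0, true, true⟩, Sum.inr 0, Sum.inl ⟨1, false, false⟩], [Sum.inl ⟨1, true, false⟩, Sum.inl ⟨3, false, true⟩, Sum.inr 1, Sum.inl ⟨3, true, true⟩, Sum.inl ⟨2, true, false⟩]] (by decide +kernel)) ?_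
  refine TEq.trans (t' := ![[⟨0, true, false⟩, ⟨2, true, true⟩], [⟨0, false, false⟩, ⟨4, false, true⟩, ⟨5, true, true⟩, ⟨1, false, false⟩], [⟨1, true, false⟩, ⟨3, true, false⟩, ⟨4, true, true⟩, ⟨5, false, true⟩, ⟨3, false, false⟩, ⟨2, false, true⟩]])
    (TEq.by (PMove.pass ![0, 4, 3, 2] (by decide) true true false).teq ![[Sum.inr 2], [Sum.inr 0, Sum.inl ⟨5, true, true⟩, Sum.inl ⟨1, false, false⟩], [Sum.inl ⟨1, true, false⟩, Sum.inr 3, Sum.inl ⟨5, false, true⟩, Sum.inr 1]] (by decide +kernel)) ?_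
  refine TEq.trans (t' := ![[⟨0, true, false⟩, ⟨2, true, true⟩], [⟨0, false, false⟩, ⟨4, false, true⟩, ⟨1, false, false⟩, ⟨5, true, true⟩], [⟨3, true, false⟩, ⟨1, true, false⟩, ⟨4, true, true⟩, ⟨3, false, false⟩, ⟨5, false, true⟩, ⟨2, false, true⟩]])
    (TEq.by (RMove.r3 ![1, 3, 5] (by decide) ![true, true, false] ![false, true, false] (by decide)).teq ![[Sum.inl ⟨0, true, false⟩, Sum.inl ⟨2, true, true⟩], [Sum.inl ⟨0, false, false⟩, Sum.inl ⟨4, false, true⟩, Sum.inr 0], [Sum.inr 1, Sum.inl ⟨4, true, true⟩, Sum.inr 2, Sum.inl ⟨2, false, true⟩]] (by decide +kernel)) ?_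
  refine TEq.trans (t' := ![[⟨0, true, false⟩, ⟨2, true, true⟩], [⟨0, false, false⟩, ⟨5, true, true⟩], [⟨3, true, false⟩, ⟨3, false, false⟩, ⟨5, false, true⟩, ⟨2, false, true⟩]])
    (TEq.by (RMove.r2 1 4 (by decide) true false false).teq ![[Sum.inl ⟨0, true, false⟩, Sum.inl ⟨2, true, true⟩], [Sum.inl ⟨0, false, false⟩, Sum.inr 1, Sum.inl ⟨5, true, true⟩], [Sum.inl ⟨3, true, false⟩, Sum.inr 0, Sum.inl ⟨3, false, false⟩, Sum.inl ⟨5, false, true⟩, Sum.inl ⟨2, false, true⟩]] (by decide +kernel)) ?_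
  refine TEq.trans (t' := ![[⟨0, true, false⟩, ⟨2, true, true⟩], [⟨0, false, false⟩, ⟨5, true, true⟩], [⟨5, false, true⟩, ⟨2, false, true⟩]])
    (TEq.by (RMove.r1 3 true false).teq ![[Sum.inl ⟨0, true, false⟩, Sum.inl ⟨2, true, true⟩], [Sum.inl ⟨0, false, false⟩, Sum.inl ⟨5, true, true⟩], [Sum.inr 0, Sum.inl ⟨5, false, true⟩, Sum.inl ⟨2, false, true⟩]] (by decide +kernel)) ?_
  exact (TEq.swp 5 1 (by decide +kernel))

theorem flipTri_ftt_ftt : TEq ![[⟨0, false, true⟩, ⟨2, false, false⟩], [⟨0, true, true⟩, ⟨1, true, true⟩], [⟨1, false, true⟩, ⟨2, true, false⟩]]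
    ![[⟨0, true, false⟩, ⟨2, true, true⟩], [⟨0, false, false⟩, ⟨1, false, false⟩], [⟨1, true, false⟩, ⟨2, false, true⟩]] := by
  refine TEq.trans (t' := ![[⟨0, false, true⟩, ⟨2, false, false⟩], [⟨0, true, true⟩, ⟨1, true, true⟩, ⟨3, true, false⟩, ⟨3, false, false⟩], [⟨1, false, true⟩, ⟨2, true, false⟩]])
    (TEq.by ((RMove.r1 3 true false).teq).symm ![[Sum.inl ⟨0, false, true⟩, Sum.inl ⟨2, false, false⟩], [Sum.inl ⟨0, true, true⟩, Sum.inl ⟨1, true, true⟩, Sum.inr 0], [Sum.inl ⟨1, false, true⟩, Sum.inl ⟨2, true, false⟩]] (by decide +kernel)) ?_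
  refine TEq.trans (t' := ![[⟨0, false, true⟩, ⟨2, false, false⟩], [⟨0, true, true⟩, ⟨1, true, true⟩, ⟨3, true, false⟩, ⟨4, false, true⟩, ⟨5, false, false⟩, ⟨3, false, false⟩], [⟨1, false, true⟩, ⟨5, true, false⟩, ⟨4, true, true⟩, ⟨2, true, false⟩]])
    (TEq.by ((RMove.r2 4 5 (by decide) false true false).teq).symm ![[Sum.inl ⟨0, false, true⟩, Sum.inl ⟨2, false, false⟩], [Sum.inl ⟨0, true, true⟩, Sum.inl ⟨1, true, true⟩, Sum.inl ⟨3, true, false⟩, Sum.inr 0, Sum.inl ⟨3, false, false⟩], [Sum.inl ⟨1, false, true⟩, Sum.inr 1, Sum.inl ⟨2, true, false⟩]] (by decide +kernel)) ?_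
  refine TEq.trans (t' := ![[⟨0, false, true⟩, ⟨2, false, false⟩], [⟨0, true, true⟩, ⟨3, true, false⟩, ⟨1, true, true⟩, ⟨4, false, true⟩, ⟨3, false, false⟩, ⟨5, false, false⟩], [⟨5, true, false⟩, ⟨1, false, true⟩, ⟨4, true, true⟩, ⟨2, true, false⟩]])
    (TEq.by (RMove.r3 ![1, 3, 5] (by decide) ![false, true, false] ![false, true, false] (by decide)).teq ![[Sum.inl ⟨0, false, true⟩, Sum.inl ⟨2, false, false⟩], [Sum.inl ⟨0, true, true⟩, Sum.inr 1, Sum.inl ⟨4, false, true⟩, Sum.inr 2], [Sum.inr 0, Sum.inl ⟨4, true, true⟩, Sum.inl ⟨2, true, false⟩]] (by decide +kernel)) ?_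
  refine TEq.trans (t' := ![[⟨0, true, false⟩, ⟨2, true, true⟩], [⟨0, false, false⟩, ⟨3, false, true⟩, ⟨1, true, true⟩, ⟨4, true, false⟩, ⟨3, true, true⟩, ⟨5, false, false⟩], [⟨5, true, false⟩, ⟨1, false, true⟩, ⟨4, false, false⟩, ⟨2, false, true⟩]])
    (TEq.by (PMove.pass ![0, 3, 4, 2] (by decide) true true false).teq ![[Sum.inr 2], [Sum.inr 0, Sum.inl ⟨1, true, true⟩, Sum.inr 3, Sum.inl ⟨5, false, false⟩], [Sum.inl ⟨5, true, false⟩, Sum.inl ⟨1, false, true⟩, Sum.inr 1]] (by decide +kernel)) ?_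
  refine TEq.trans (t' := ![[⟨0, true, false⟩, ⟨2, true, true⟩], [⟨0, false, false⟩, ⟨3, false, true⟩, ⟨3, true, true⟩, ⟨5, false, false⟩], [⟨5, true, false⟩, ⟨2, false, true⟩]])
    (TEq.by (RMove.r2 1 4 (by decide) false true true).teq ![[Sum.inl ⟨0, true, false⟩, Sum.inl ⟨2, true, true⟩], [Sum.inl ⟨0, false, false⟩, Sum.inl ⟨3, false, true⟩, Sum.inr 1, Sum.inl ⟨3, true, true⟩, Sum.inl ⟨5, false, false⟩], [Sum.inl ⟨5, true, false⟩, Sum.inr 0, Sum.inl ⟨2, false, true⟩]] (by decide +kernel)) ?_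
  refine TEq.trans (t' := ![[⟨0, true, false⟩, ⟨2, true, true⟩], [⟨0, false, false⟩, ⟨5, false, false⟩], [⟨5, true, false⟩, ⟨2, false, true⟩]])
    (TEq.by (RMove.r1 3 false true).teq ![[Sum.inl ⟨0, true, false⟩, Sum.inl ⟨2, true, true⟩], [Sum.inl ⟨0, false, false⟩, Sum.inr 0, Sum.inl ⟨5, false, false⟩], [Sum.inl ⟨5, true, false⟩, Sum.inl ⟨2, false, true⟩]] (by decide +kernel)) ?_
  exact (TEq.swp 5 1 (by decide +kernel))

theorem flipTri_tff_fft : TEq ![[⟨2, false, false⟩, ⟨0, false, true⟩], [⟨1, false, false⟩, ⟨0, true, true⟩], [⟨2, true, false⟩, ⟨1, true, false⟩]]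
    ![[⟨2, true, true⟩, ⟨0, true, false⟩], [⟨1, true, true⟩, ⟨0, false, false⟩], [⟨2, false, true⟩, ⟨1, false, true⟩]] := by
  refine TEq.trans (t' := ![[⟨2, false, false⟩, ⟨0, false, true⟩], [⟨1, false, false⟩, ⟨0, true, true⟩], [⟨2, true, false⟩, ⟨1, true, false⟩, ⟨3, true, true⟩, ⟨3, false, true⟩]])
    (TEq.by ((RMove.r1 3 true true).teq).symm ![[Sum.inl ⟨2, false, false⟩, Sum.inl ⟨0, false, true⟩], [Sum.inl ⟨1, false, false⟩, Sum.inl ⟨0, true, true⟩], [Sum.inl ⟨2, true, false⟩, Sum.inl ⟨1, true, false⟩, Sum.inr 0]] (by decide +kernel)) ?_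
  refine TEq.trans (t' := ![[⟨2, false, false⟩, ⟨0, false, true⟩], [⟨4, true, true⟩, ⟨5, true, false⟩, ⟨1, false, false⟩, ⟨0, true, true⟩], [⟨2, true, false⟩, ⟨1, true, false⟩, ⟨3, true, true⟩, ⟨3, false, true⟩, ⟨5, false, false⟩, ⟨4, false, true⟩]])
    (TEq.by ((RMove.r2 4 5 (by decide) true true false).teq).symm ![[Sum.inl ⟨2, false, false⟩, Sum.inl ⟨0, false, true⟩], [Sum.inr 0, Sum.inl ⟨1, false, false⟩, Sum.inl ⟨0, true, true⟩], [Sum.inl ⟨2, true, false⟩, Sum.inl ⟨1, true, false⟩, Sum.inl ⟨3, true, true⟩, Sum.inl ⟨3, false, true⟩, Sum.inr 1]] (by decide +kernel)) ?_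
  refine TEq.trans (t' := ![[⟨2, false, false⟩, ⟨0, false, true⟩], [⟨4, true, true⟩, ⟨1, false, false⟩, ⟨5, true, false⟩, ⟨0, true, true⟩], [⟨2, true, false⟩, ⟨3, true, true⟩, ⟨1, true, false⟩, ⟨5, false, false⟩, ⟨3, false, true⟩, ⟨4, false, true⟩]])
    (TEq.by (RMove.r3 ![1, 3, 5] (by decide) ![true, true, true] ![false, true, false] (by decide)).teq ![[Sum.inl ⟨2, false, false⟩, Sum.inl ⟨0, false, true⟩], [Sum.inl ⟨4, true, true⟩, Sum.inr 0, Sum.inl ⟨0, true, true⟩], [Sum.inl ⟨2, true, false⟩, Sum.inr 1, Sum.inr 2, Sum.inl ⟨4, false, true⟩]] (by decide +kernel)) ?_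
  refine TEq.trans (t' := ![[⟨2, true, true⟩, ⟨0, true, false⟩], [⟨4, true, true⟩, ⟨1, false, false⟩, ⟨5, false, true⟩, ⟨0, false, false⟩], [⟨2, false, true⟩, ⟨3, false, false⟩, ⟨1, true, false⟩, ⟨5, true, true⟩, ⟨3, true, false⟩, ⟨4, false, true⟩]])
    (TEq.by (PMove.pass ![0, 5, 3, 2] (by decide) true false true).teq ![[Sum.inr 2], [Sum.inl ⟨4, true, true⟩, Sum.inl ⟨1, false, false⟩, Sum.inr 0], [Sum.inr 1, Sum.inl ⟨1, true, false⟩, Sum.inr 3, Sum.inl ⟨4, false, true⟩]] (by decide +kernel)) ?_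
  refine TEq.trans (t' := ![[⟨2, true, true⟩, ⟨0, true, false⟩], [⟨4, true, true⟩, ⟨0, false, false⟩], [⟨2, false, true⟩, ⟨3, false, false⟩, ⟨3, true, false⟩, ⟨4, false, true⟩]])
    (TEq.by (RMove.r2 1 5 (by decide) true false true).teq ![[Sum.inl ⟨2, true, true⟩, Sum.inl ⟨0, true, false⟩], [Sum.inl ⟨4, true, true⟩, Sum.inr 1, Sum.inl ⟨0, false, false⟩], [Sum.inl ⟨2, false, true⟩, Sum.inl ⟨3, false, false⟩, Sum.inr 0, Sum.inl ⟨3, true, false⟩, Sum.inl ⟨4, false, true⟩]] (by decide +kernel)) ?_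
  refine TEq.trans (t' := ![[⟨2, true, true⟩, ⟨0, true, false⟩], [⟨4, true, true⟩, ⟨0, false, false⟩], [⟨2, false, true⟩, ⟨4, false, true⟩]])
    (TEq.by (RMove.r1 3 false false).teq ![[Sum.inl ⟨2, true, true⟩, Sum.inl ⟨0, true, false⟩], [Sum.inl ⟨4, true, true⟩, Sum.inl ⟨0, false, false⟩], [Sum.inl ⟨2, false, true⟩, Sum.inr 0, Sum.inl ⟨4, false, true⟩]] (by decide +kernel)) ?_
  exact (TEq.swp 4 1 (by decide +kernel))

theorem flipTri_tff_ftt : TEq ![[⟨2, false, false⟩, ⟨0, false, true⟩], [⟨1, true, true⟩, ⟨0, true, true⟩], [⟨2, true, false⟩, ⟨1, false, true⟩]]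
    ![[⟨2, true, true⟩, ⟨0, true, false⟩], [⟨1, false, false⟩, ⟨0, false, false⟩], [⟨2, false, true⟩, ⟨1, true, false⟩]] := by
  refine TEq.trans (t' := ![[⟨2, false, false⟩, ⟨0, false, true⟩], [⟨1, true, true⟩, ⟨3, false, false⟩, ⟨3, true, false⟩, ⟨0, true, true⟩], [⟨2, true, false⟩, ⟨1, false, true⟩]])
    (TEq.by ((RMove.r1 3 false false).teq).symm ![[Sum.inl ⟨2, false, false⟩, Sum.inl ⟨0, false, true⟩], [Sum.inl ⟨1, true, true⟩, Sum.inr 0, Sum.inl ⟨0, true, true⟩], [Sum.inl ⟨2, true, false⟩, Sum.inl ⟨1, false, true⟩]] (by decide +kernel)) ?_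
  refine TEq.trans (t' := ![[⟨2, false, false⟩, ⟨0, false, true⟩], [⟨1, true, true⟩, ⟨3, false, false⟩, ⟨4, false, true⟩, ⟨5, false, false⟩, ⟨3, true, false⟩, ⟨0, true, true⟩], [⟨2, true, false⟩, ⟨4, true, true⟩, ⟨5, true, false⟩, ⟨1, false, true⟩]])
    (TEq.by ((RMove.r2 4 5 (by decide) false true true).teq).symm ![[Sum.inl ⟨2, false, false⟩, Sum.inl ⟨0, false, true⟩], [Sum.inl ⟨1, true, true⟩, Sum.inl ⟨3, false, false⟩, Sum.inr 0, Sum.inl ⟨3, true, false⟩, Sum.inl ⟨0, true, true⟩], [Sum.inl ⟨2, true, false⟩, Sum.inr 1, Sum.inl ⟨1, false, true⟩]] (by decide +kernel)) ?_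
  refine TEq.trans (t' := ![[⟨2, true, true⟩, ⟨0, true, false⟩], [⟨1, true, true⟩, ⟨3, true, true⟩, ⟨4, true, false⟩, ⟨5, false, false⟩, ⟨3, false, true⟩, ⟨0, false, false⟩], [⟨2, false, true⟩, ⟨4, false, false⟩, ⟨5, true, false⟩, ⟨1, false, true⟩]])
    (TEq.by (PMove.pass ![0, 3, 4, 2] (by decide) true false true).teq ![[Sum.inr 2], [Sum.inl ⟨1, true, true⟩, Sum.inr 3, Sum.inl ⟨5, false, false⟩, Sum.inr 0], [Sum.inr 1, Sum.inl ⟨5, true, false⟩, Sum.inl ⟨1, false, true⟩]] (by decide +kernel)) ?_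
  refine TEq.trans (t' := ![[⟨2, true, true⟩, ⟨0, true, false⟩], [⟨1, true, true⟩, ⟨4, true, false⟩, ⟨3, true, true⟩, ⟨3, false, true⟩, ⟨5, false, false⟩, ⟨0, false, false⟩], [⟨2, false, true⟩, ⟨5, true, false⟩, ⟨4, false, false⟩, ⟨1, false, true⟩]])
    (TEq.by (RMove.r3 ![3, 5, 4] (by decide) ![false, false, false] ![true, false, false] (by decide)).teq ![[Sum.inl ⟨2, true, true⟩, Sum.inl ⟨0, true, false⟩], [Sum.inl ⟨1, true, true⟩, Sum.inr 0, Sum.inr 1, Sum.inl ⟨0, false, false⟩], [Sum.inl ⟨2, false, true⟩, Sum.inr 2, Sum.inl ⟨1, false, true⟩]] (by decide +kernel)) ?_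
  refine TEq.trans (t' := ![[⟨2, true, true⟩, ⟨0, true, false⟩], [⟨3, true, true⟩, ⟨3, false, true⟩, ⟨5, false, false⟩, ⟨0, false, false⟩], [⟨2, false, true⟩, ⟨5, true, false⟩]])
    (TEq.by (RMove.r2 1 4 (by decide) true true false).teq ![[Sum.inl ⟨2, true, true⟩, Sum.inl ⟨0, true, false⟩], [Sum.inr 0, Sum.inl ⟨3, true, true⟩, Sum.inl ⟨3, false, true⟩, Sum.inl ⟨5, false, false⟩, Sum.inl ⟨0, false, false⟩], [Sum.inl ⟨2, false, true⟩, Sum.inl ⟨5, true, false⟩, Sum.inr 1]] (by decide +kernel)) ?_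
  refine TEq.trans (t' := ![[⟨2, true, true⟩, ⟨0, true, false⟩], [⟨5, false, false⟩, ⟨0, false, false⟩], [⟨2, false, true⟩, ⟨5, true, false⟩]])
    (TEq.by (RMove.r1 3 true true).teq ![[Sum.inl ⟨2, true, true⟩, Sum.inl ⟨0, true, false⟩], [Sum.inr 0, Sum.inl ⟨5, false, false⟩, Sum.inl ⟨0, false, false⟩], [Sum.inl ⟨2, false, true⟩, Sum.inl ⟨5, true, false⟩]] (by decide +kernel)) ?_
  exact (TEq.swp 5 1 (by decide +kernel))

theorem flipTri_tft_ftf : TEq ![[⟨2, true, false⟩, ⟨0, false, true⟩], [⟨1, true, false⟩, ⟨0, true, true⟩], [⟨1, false, false⟩, ⟨2, false, false⟩]]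
    ![[⟨2, false, true⟩, ⟨0, true, false⟩], [⟨1, false, true⟩, ⟨0, false, false⟩], [⟨1, true, true⟩, ⟨2, true, true⟩]] := by
  refine TEq.trans (t' := ![[⟨2, true, false⟩, ⟨0, false, true⟩], [⟨1, true, false⟩, ⟨0, true, true⟩], [⟨1, false, false⟩, ⟨2, false, false⟩, ⟨3, false, true⟩, ⟨3, true, true⟩]])
    (TEq.by ((RMove.r1 3 false true).teq).symm ![[Sum.inl ⟨2, true, false⟩, Sum.inl ⟨0, false, true⟩], [Sum.inl ⟨1, true, false⟩, Sum.inl ⟨0, true, true⟩], [Sum.inl ⟨1, false, false⟩, Sum.inl ⟨2, false, false⟩, Sum.inr 0]] (by decide +kernel)) ?_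
  refine TEq.trans (t' := ![[⟨4, false, true⟩, ⟨5, false, false⟩, ⟨2, true, false⟩, ⟨0, false, true⟩], [⟨1, true, false⟩, ⟨0, true, true⟩], [⟨1, false, false⟩, ⟨2, false, false⟩, ⟨3, false, true⟩, ⟨3, true, true⟩, ⟨5, true, false⟩, ⟨4, true, true⟩]])
    (TEq.by ((RMove.r2 4 5 (by decide) false true false).teq).symm ![[Sum.inr 0, Sum.inl ⟨2, true, false⟩, Sum.inl ⟨0, false, true⟩], [Sum.inl ⟨1, true, false⟩, Sum.inl ⟨0, true, true⟩], [Sum.inl ⟨1, false, false⟩, Sum.inl ⟨2, false, false⟩, Sum.inl ⟨3, false, true⟩, Sum.inl ⟨3, true, true⟩, Sum.inr 1]] (by decide +kernel)) ?_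
  refine TEq.trans (t' := ![[⟨4, false, true⟩, ⟨2, true, false⟩, ⟨5, false, false⟩, ⟨0, false, true⟩], [⟨1, true, false⟩, ⟨0, true, true⟩], [⟨1, false, false⟩, ⟨3, false, true⟩, ⟨2, false, false⟩, ⟨5, true, false⟩, ⟨3, true, true⟩, ⟨4, true, true⟩]])
    (TEq.by (RMove.r3 ![2, 5, 3] (by decide) ![false, false, false] ![false, false, true] (by decide)).teq ![[Sum.inl ⟨4, false, true⟩, Sum.inr 1, Sum.inl ⟨0, false, true⟩], [Sum.inl ⟨1, true, false⟩, Sum.inl ⟨0, true, true⟩], [Sum.inl ⟨1, false, false⟩, Sum.inr 0, Sum.inr 2, Sum.inl ⟨4, true, true⟩]] (by decide +kernel)) ?_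
  refine TEq.trans (t' := ![[⟨4, false, true⟩, ⟨2, true, false⟩, ⟨5, true, true⟩, ⟨0, true, false⟩], [⟨1, false, true⟩, ⟨0, false, false⟩], [⟨1, true, true⟩, ⟨3, true, false⟩, ⟨2, false, false⟩, ⟨5, false, true⟩, ⟨3, false, false⟩, ⟨4, true, true⟩]])
    (TEq.by (PMove.pass ![0, 1, 3, 5] (by decide) true false true).teq ![[Sum.inl ⟨4, false, true⟩, Sum.inl ⟨2, true, false⟩, Sum.inr 2], [Sum.inr 0], [Sum.inr 3, Sum.inl ⟨2, false, false⟩, Sum.inr 1, Sum.inl ⟨4, true, true⟩]] (by decide +kernel)) ?_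
  refine TEq.trans (t' := ![[⟨4, false, true⟩, ⟨0, true, false⟩], [⟨1, false, true⟩, ⟨0, false, false⟩], [⟨1, true, true⟩, ⟨3, true, false⟩, ⟨3, false, false⟩, ⟨4, true, true⟩]])
    (TEq.by (RMove.r2 2 5 (by decide) true false true).teq ![[Sum.inl ⟨4, false, true⟩, Sum.inr 0, Sum.inl ⟨0, true, false⟩], [Sum.inl ⟨1, false, true⟩, Sum.inl ⟨0, false, false⟩], [Sum.inl ⟨1, true, true⟩, Sum.inl ⟨3, true, false⟩, Sum.inr 1, Sum.inl ⟨3, false, false⟩, Sum.inl ⟨4, true, true⟩]] (by decide +kernel)) ?_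
  refine TEq.trans (t' := ![[⟨4, false, true⟩, ⟨0, true, false⟩], [⟨1, false, true⟩, ⟨0, false, false⟩], [⟨1, true, true⟩, ⟨4, true, true⟩]])
    (TEq.by (RMove.r1 3 true false).teq ![[Sum.inl ⟨4, false, true⟩, Sum.inl ⟨0, true, false⟩], [Sum.inl ⟨1, false, true⟩, Sum.inl ⟨0, false, false⟩], [Sum.inl ⟨1, true, true⟩, Sum.inr 0, Sum.inl ⟨4, true, true⟩]] (by decide +kernel)) ?_
  exact (TEq.swp 4 2 (by decide +kernel))

theorem flipTri_tft_ftt : TEq ![[⟨2, false, true⟩, ⟨0, false, true⟩], [⟨1, true, false⟩, ⟨0, true, true⟩], [⟨1, false, false⟩, ⟨2, true, true⟩]]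
    ![[⟨2, true, false⟩, ⟨0, true, false⟩], [⟨1, false, true⟩, ⟨0, false, false⟩], [⟨1, true, true⟩, ⟨2, false, false⟩]] := by
  refine TEq.trans (t' := ![[⟨2, false, true⟩, ⟨3, true, false⟩, ⟨3, false, false⟩, ⟨0, false, true⟩], [⟨1, true, false⟩, ⟨0, true, true⟩], [⟨1, false, false⟩, ⟨2, true, true⟩]])
    (TEq.by ((RMove.r1 3 true false).teq).symm ![[Sum.inl ⟨2, false, true⟩, Sum.inr 0, Sum.inl ⟨0, false, true⟩], [Sum.inl ⟨1, true, false⟩, Sum.inl ⟨0, true, true⟩], [Sum.inl ⟨1, false, false⟩, Sum.inl ⟨2, true, true⟩]] (by decide +kernel)) ?_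
  refine TEq.trans (t' := ![[⟨2, false, true⟩, ⟨3, true, false⟩, ⟨4, true, true⟩, ⟨5, true, false⟩, ⟨3, false, false⟩, ⟨0, false, true⟩], [⟨1, true, false⟩, ⟨0, true, true⟩], [⟨1, false, false⟩, ⟨4, false, true⟩, ⟨5, false, false⟩, ⟨2, true, true⟩]])
    (TEq.by ((RMove.r2 4 5 (by decide) true true true).teq).symm ![[Sum.inl ⟨2, false, true⟩, Sum.inl ⟨3, true, false⟩, Sum.inr 0, Sum.inl ⟨3, false, false⟩, Sum.inl ⟨0, false, true⟩], [Sum.inl ⟨1, true, false⟩, Sum.inl ⟨0, true, true⟩], [Sum.inl ⟨1, false, false⟩, Sum.inr 1, Sum.inl ⟨2, true, true⟩]] (by decide +kernel)) ?_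
  refine TEq.trans (t' := ![[⟨2, false, true⟩, ⟨3, false, true⟩, ⟨4, false, false⟩, ⟨5, true, false⟩, ⟨3, true, true⟩, ⟨0, true, false⟩], [⟨1, false, true⟩, ⟨0, false, false⟩], [⟨1, true, true⟩, ⟨4, true, false⟩, ⟨5, false, false⟩, ⟨2, true, true⟩]])
    (TEq.by (PMove.pass ![0, 1, 4, 3] (by decide) true false true).teq ![[Sum.inl ⟨2, false, true⟩, Sum.inr 1, Sum.inl ⟨5, true, false⟩, Sum.inr 2], [Sum.inr 0], [Sum.inr 3, Sum.inl ⟨5, false, false⟩, Sum.inl ⟨2, true, true⟩]] (by decide +kernel)) ?_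
  refine TEq.trans (t' := ![[⟨2, false, true⟩, ⟨4, false, false⟩, ⟨3, false, true⟩, ⟨3, true, true⟩, ⟨5, true, false⟩, ⟨0, true, false⟩], [⟨1, false, true⟩, ⟨0, false, false⟩], [⟨1, true, true⟩, ⟨5, false, false⟩, ⟨4, true, false⟩, ⟨2, true, true⟩]])
    (TEq.by (RMove.r3 ![3, 4, 5] (by decide) ![true, true, true] ![true, false, false] (by decide)).teq ![[Sum.inl ⟨2, false, true⟩, Sum.inr 1, Sum.inr 0, Sum.inl ⟨0, true, false⟩], [Sum.inl ⟨1, false, true⟩, Sum.inl ⟨0, false, false⟩], [Sum.inl ⟨1, true, true⟩, Sum.inr 2, Sum.inl ⟨2, true, true⟩]] (by decide +kernel)) ?_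
  refine TEq.trans (t' := ![[⟨3, false, true⟩, ⟨3, true, true⟩, ⟨5, true, false⟩, ⟨0, true, false⟩], [⟨1, false, true⟩, ⟨0, false, false⟩], [⟨1, true, true⟩, ⟨5, false, false⟩]])
    (TEq.by (RMove.r2 2 4 (by decide) false true false).teq ![[Sum.inr 0, Sum.inl ⟨3, false, true⟩, Sum.inl ⟨3, true, true⟩, Sum.inl ⟨5, true, false⟩, Sum.inl ⟨0, true, false⟩], [Sum.inl ⟨1, false, true⟩, Sum.inl ⟨0, false, false⟩], [Sum.inl ⟨1, true, true⟩, Sum.inl ⟨5, false, false⟩, Sum.inr 1]] (by decide +kernel)) ?_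
  refine TEq.trans (t' := ![[⟨5, true, false⟩, ⟨0, true, false⟩], [⟨1, false, true⟩, ⟨0, false, false⟩], [⟨1, true, true⟩, ⟨5, false, false⟩]])
    (TEq.by (RMove.r1 3 false true).teq ![[Sum.inr 0, Sum.inl ⟨5, true, false⟩, Sum.inl ⟨0, true, false⟩], [Sum.inl ⟨1, false, true⟩, Sum.inl ⟨0, false, false⟩], [Sum.inl ⟨1, true, true⟩, Sum.inl ⟨5, false, false⟩]] (by decide +kernel)) ?_
  exact (TEq.swp 5 2 (by decide +kernel))

theorem flipTri_ttf_fft : TEq ![[⟨2, false, false⟩, ⟨0, false, false⟩], [⟨0, true, false⟩, ⟨1, false, true⟩], [⟨2, true, false⟩, ⟨1, true, true⟩]]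
    ![[⟨2, true, true⟩, ⟨0, true, true⟩], [⟨0, false, true⟩, ⟨1, true, false⟩], [⟨2, false, true⟩, ⟨1, false, false⟩]] := by
  refine TEq.trans (t' := ![[⟨2, false, false⟩, ⟨0, false, false⟩, ⟨3, false, true⟩, ⟨3, true, true⟩], [⟨0, true, false⟩, ⟨1, false, true⟩], [⟨2, true, false⟩, ⟨1, true, true⟩]])
    (TEq.by ((RMove.r1 3 false true).teq).symm ![[Sum.inl ⟨2, false, false⟩, Sum.inl ⟨0, false, false⟩, Sum.inr 0], [Sum.inl ⟨0, true, false⟩, Sum.inl ⟨1, false, true⟩], [Sum.inl ⟨2, true, false⟩, Sum.inl ⟨1, true, true⟩]] (by decide +kernel)) ?_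
  refine TEq.trans (t' := ![[⟨2, false, false⟩, ⟨0, false, false⟩, ⟨3, false, true⟩, ⟨4, true, false⟩, ⟨5, true, true⟩, ⟨3, true, true⟩], [⟨0, true, false⟩, ⟨5, false, true⟩, ⟨4, false, false⟩, ⟨1, false, true⟩], [⟨2, true, false⟩, ⟨1, true, true⟩]])
    (TEq.by ((RMove.r2 4 5 (by decide) true false false).teq).symm ![[Sum.inl ⟨2, false, false⟩, Sum.inl ⟨0, false, false⟩, Sum.inl ⟨3, false, true⟩, Sum.inr 0, Sum.inl ⟨3, true, true⟩], [Sum.inl ⟨0, true, false⟩, Sum.inr 1, Sum.inl ⟨1, false, true⟩], [Sum.inl ⟨2, true, false⟩, Sum.inl ⟨1, true, true⟩]] (by decide +kernel)) ?_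
  refine TEq.trans (t' := ![[⟨2, false, false⟩, ⟨3, false, true⟩, ⟨0, false, false⟩, ⟨4, true, false⟩, ⟨3, true, true⟩, ⟨5, true, true⟩], [⟨5, false, true⟩, ⟨0, true, false⟩, ⟨4, false, false⟩, ⟨1, false, true⟩], [⟨2, true, false⟩, ⟨1, true, true⟩]])
    (TEq.by (RMove.r3 ![0, 3, 5] (by decide) ![false, true, false] ![true, false, true] (by decide)).teq ![[Sum.inl ⟨2, false, false⟩, Sum.inr 1, Sum.inl ⟨4, true, false⟩, Sum.inr 2], [Sum.inr 0, Sum.inl ⟨4, false, false⟩, Sum.inl ⟨1, false, true⟩], [Sum.inl ⟨2, true, false⟩, Sum.inl ⟨1, true, true⟩]] (by decide +kernel)) ?_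
  refine TEq.trans (t' := ![[⟨2, true, true⟩, ⟨3, true, false⟩, ⟨0, false, false⟩, ⟨4, false, true⟩, ⟨3, false, false⟩, ⟨5, true, true⟩], [⟨5, false, true⟩, ⟨0, true, false⟩, ⟨4, true, true⟩, ⟨1, true, false⟩], [⟨2, false, true⟩, ⟨1, false, false⟩]])
    (TEq.by (PMove.pass ![1, 2, 3, 4] (by decide) true false true).teq ![[Sum.inr 3, Sum.inl ⟨0, false, false⟩, Sum.inr 1, Sum.inl ⟨5, true, true⟩], [Sum.inl ⟨5, false, true⟩, Sum.inl ⟨0, true, false⟩, Sum.inr 2], [Sum.inr 0]] (by decide +kernel)) ?_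
  refine TEq.trans (t' := ![[⟨2, true, true⟩, ⟨3, true, false⟩, ⟨3, false, false⟩, ⟨5, true, true⟩], [⟨5, false, true⟩, ⟨1, true, false⟩], [⟨2, false, true⟩, ⟨1, false, false⟩]])
    (TEq.by (RMove.r2 0 4 (by decide) true false true).teq ![[Sum.inl ⟨2, true, true⟩, Sum.inl ⟨3, true, false⟩, Sum.inr 1, Sum.inl ⟨3, false, false⟩, Sum.inl ⟨5, true, true⟩], [Sum.inl ⟨5, false, true⟩, Sum.inr 0, Sum.inl ⟨1, true, false⟩], [Sum.inl ⟨2, false, true⟩, Sum.inl ⟨1, false, false⟩]] (by decide +kernel)) ?_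
  refine TEq.trans (t' := ![[⟨2, true, true⟩, ⟨5, true, true⟩], [⟨5, false, true⟩, ⟨1, true, false⟩], [⟨2, false, true⟩, ⟨1, false, false⟩]])
    (TEq.by (RMove.r1 3 true false).teq ![[Sum.inl ⟨2, true, true⟩, Sum.inr 0, Sum.inl ⟨5, true, true⟩], [Sum.inl ⟨5, false, true⟩, Sum.inl ⟨1, true, false⟩], [Sum.inl ⟨2, false, true⟩, Sum.inl ⟨1, false, false⟩]] (by decide +kernel)) ?_
  exact (TEq.swp 5 0 (by decide +kernel))

theorem flipTri_ttf_ftf : TEq ![[⟨2, true, true⟩, ⟨0, false, false⟩], [⟨0, true, false⟩, ⟨1, true, false⟩], [⟨2, false, true⟩, ⟨1, false, false⟩]]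
    ![[⟨2, false, false⟩, ⟨0, true, true⟩], [⟨0, false, true⟩, ⟨1, false, true⟩], [⟨2, true, false⟩, ⟨1, true, true⟩]] := by
  refine TEq.trans (t' := ![[⟨2, true, true⟩, ⟨0, false, false⟩], [⟨0, true, false⟩, ⟨3, false, true⟩, ⟨3, true, true⟩, ⟨1, true, false⟩], [⟨2, false, true⟩, ⟨1, false, false⟩]])
    (TEq.by ((RMove.r1 3 false true).teq).symm ![[Sum.inl ⟨2, true, true⟩, Sum.inl ⟨0, false, false⟩], [Sum.inl ⟨0, true, false⟩, Sum.inr 0, Sum.inl ⟨1, true, false⟩], [Sum.inl ⟨2, false, true⟩, Sum.inl ⟨1, false, false⟩]] (by decide +kernel)) ?_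
  refine TEq.trans (t' := ![[⟨2, true, true⟩, ⟨4, true, false⟩, ⟨5, true, true⟩, ⟨0, false, false⟩], [⟨0, true, false⟩, ⟨3, false, true⟩, ⟨4, false, false⟩, ⟨5, false, true⟩, ⟨3, true, true⟩, ⟨1, true, false⟩], [⟨2, false, true⟩, ⟨1, false, false⟩]])
    (TEq.by ((RMove.r2 4 5 (by decide) true false true).teq).symm ![[Sum.inl ⟨2, true, true⟩, Sum.inr 0, Sum.inl ⟨0, false, false⟩], [Sum.inl ⟨0, true, false⟩, Sum.inl ⟨3, false, true⟩, Sum.inr 1, Sum.inl ⟨3, true, true⟩, Sum.inl ⟨1, true, false⟩], [Sum.inl ⟨2, false, true⟩, Sum.inl ⟨1, false, false⟩]] (by decide +kernel)) ?_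
  refine TEq.trans (t' := ![[⟨2, false, false⟩, ⟨4, false, true⟩, ⟨5, true, true⟩, ⟨0, false, false⟩], [⟨0, true, false⟩, ⟨3, true, false⟩, ⟨4, true, true⟩, ⟨5, false, true⟩, ⟨3, false, false⟩, ⟨1, false, true⟩], [⟨2, true, false⟩, ⟨1, true, true⟩]])
    (TEq.by (PMove.pass ![1, 2, 4, 3] (by decide) false false true).teq ![[Sum.inr 3, Sum.inl ⟨5, true, true⟩, Sum.inl ⟨0, false, false⟩], [Sum.inl ⟨0, true, false⟩, Sum.inr 1, Sum.inl ⟨5, false, true⟩, Sum.inr 2], [Sum.inr 0]] (by decide +kernel)) ?_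
  refine TEq.trans (t' := ![[⟨2, false, false⟩, ⟨4, false, true⟩, ⟨0, false, false⟩, ⟨5, true, true⟩], [⟨3, true, false⟩, ⟨0, true, false⟩, ⟨4, true, true⟩, ⟨3, false, false⟩, ⟨5, false, true⟩, ⟨1, false, true⟩], [⟨2, true, false⟩, ⟨1, true, true⟩]])
    (TEq.by (RMove.r3 ![0, 3, 5] (by decide) ![true, true, false] ![false, true, false] (by decide)).teq ![[Sum.inl ⟨2, false, false⟩, Sum.inl ⟨4, false, true⟩, Sum.inr 0], [Sum.inr 1, Sum.inl ⟨4, true, true⟩, Sum.inr 2, Sum.inl ⟨1, false, true⟩], [Sum.inl ⟨2, true, false⟩, Sum.inl ⟨1, true, true⟩]] (by decide +kernel)) ?_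
  refine TEq.trans (t' := ![[⟨2, false, false⟩, ⟨5, true, true⟩], [⟨3, true, false⟩, ⟨3, false, false⟩, ⟨5, false, true⟩, ⟨1, false, true⟩], [⟨2, true, false⟩, ⟨1, true, true⟩]])
    (TEq.by (RMove.r2 0 4 (by decide) true false false).teq ![[Sum.inl ⟨2, false, false⟩, Sum.inr 1, Sum.inl ⟨5, true, true⟩], [Sum.inl ⟨3, true, false⟩, Sum.inr 0, Sum.inl ⟨3, false, false⟩, Sum.inl ⟨5, false, true⟩, Sum.inl ⟨1, false, true⟩], [Sum.inl ⟨2, true, false⟩, Sum.inl ⟨1, true, true⟩]] (by decide +kernel)) ?_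
  refine TEq.trans (t' := ![[⟨2, false, false⟩, ⟨5, true, true⟩], [⟨5, false, true⟩, ⟨1, false, true⟩], [⟨2, true, false⟩, ⟨1, true, true⟩]])
    (TEq.by (RMove.r1 3 true false).teq ![[Sum.inl ⟨2, false, false⟩, Sum.inl ⟨5, true, true⟩], [Sum.inr 0, Sum.inl ⟨5, false, true⟩, Sum.inl ⟨1, false, true⟩], [Sum.inl ⟨2, true, false⟩, Sum.inl ⟨1, true, true⟩]] (by decide +kernel)) ?_
  exact (TEq.swp 5 0 (by decide +kernel))

theorem flipTri_ttt_fft : TEq ![[⟨2, false, true⟩, ⟨0, false, false⟩], [⟨0, true, false⟩, ⟨1, false, false⟩], [⟨1, true, false⟩, ⟨2, true, true⟩]]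
    ![[⟨2, true, false⟩, ⟨0, true, true⟩], [⟨0, false, true⟩, ⟨1, true, true⟩], [⟨1, false, true⟩, ⟨2, false, false⟩]] := by
  refine TEq.trans (t' := ![[⟨2, false, true⟩, ⟨0, false, false⟩], [⟨0, true, false⟩, ⟨3, true, true⟩, ⟨3, false, true⟩, ⟨1, false, false⟩], [⟨1, true, false⟩, ⟨2, true, true⟩]])
    (TEq.by ((RMove.r1 3 true true).teq).symm ![[Sum.inl ⟨2, false, true⟩, Sum.inl ⟨0, false, false⟩], [Sum.inl ⟨0, true, false⟩, Sum.inr 0, Sum.inl ⟨1, false, false⟩], [Sum.inl ⟨1, true, false⟩, Sum.inl ⟨2, true, true⟩]] (by decide +kernel)) ?_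
  refine TEq.trans (t' := ![[⟨2, true, false⟩, ⟨0, true, true⟩], [⟨0, false, true⟩, ⟨3, false, false⟩, ⟨3, true, false⟩, ⟨1, true, true⟩], [⟨1, false, true⟩, ⟨2, false, false⟩]])
    (TEq.by (PMove.pass ![0, 2, 1, 3] (by decide) false false false).teq ![[Sum.inr 0], [Sum.inr 2, Sum.inr 1], [Sum.inr 3]] (by decide +kernel)) ?_
  exact (TEq.by (RMove.r1 3 false false).teq ![[Sum.inl ⟨2, true, false⟩, Sum.inl ⟨0, true, true⟩], [Sum.inl ⟨0, false, true⟩, Sum.inr 0, Sum.inl ⟨1, true, true⟩], [Sum.inl ⟨1, false, true⟩, Sum.inl ⟨2, false, false⟩]] (by decide +kernel))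

theorem flipTri_ttt_ftf : TEq ![[⟨2, true, false⟩, ⟨0, false, false⟩], [⟨0, true, false⟩, ⟨1, true, true⟩], [⟨1, false, true⟩, ⟨2, false, false⟩]]
    ![[⟨2, false, true⟩, ⟨0, true, true⟩], [⟨0, false, true⟩, ⟨1, false, false⟩], [⟨1, true, false⟩, ⟨2, true, true⟩]] := by
  refine TEq.trans (t' := ![[⟨2, true, false⟩, ⟨3, true, true⟩, ⟨3, false, true⟩, ⟨0, false, false⟩], [⟨0, true, false⟩, ⟨1, true, true⟩], [⟨1, false, true⟩, ⟨2, false, false⟩]])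
    (TEq.by ((RMove.r1 3 true true).teq).symm ![[Sum.inl ⟨2, true, false⟩, Sum.inr 0, Sum.inl ⟨0, false, false⟩], [Sum.inl ⟨0, true, false⟩, Sum.inl ⟨1, true, true⟩], [Sum.inl ⟨1, false, true⟩, Sum.inl ⟨2, false, false⟩]] (by decide +kernel)) ?_
  refine TEq.trans (t' := ![[⟨2, false, true⟩, ⟨3, false, false⟩, ⟨3, true, false⟩, ⟨0, true, true⟩], [⟨0, false, true⟩, ⟨1, false, false⟩], [⟨1, true, false⟩, ⟨2, true, true⟩]])
    (TEq.by (PMove.pass ![0, 3, 2, 1] (by decide) false false false).teq ![[Sum.inr 3, Sum.inr 0], [Sum.inr 2], [Sum.inr 1]] (by decide +kernel)) ?_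
  exact (TEq.by (RMove.r1 3 false false).teq ![[Sum.inl ⟨2, false, true⟩, Sum.inr 0, Sum.inl ⟨0, true, true⟩], [Sum.inl ⟨0, false, true⟩, Sum.inl ⟨1, false, false⟩], [Sum.inl ⟨1, true, false⟩, Sum.inl ⟨2, true, true⟩]] (by decide +kernel))

theorem flipTri_ttt_ftt : TEq ![[⟨2, false, true⟩, ⟨0, false, false⟩], [⟨0, true, false⟩, ⟨1, true, true⟩], [⟨1, false, true⟩, ⟨2, true, true⟩]]
    ![[⟨2, true, false⟩, ⟨0, true, true⟩], [⟨0, false, true⟩, ⟨1, false, false⟩], [⟨1, true, false⟩, ⟨2, false, false⟩]] := by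
  refine TEq.trans (t' := ![[⟨2, false, true⟩, ⟨0, false, false⟩], [⟨0, true, false⟩, ⟨1, true, true⟩], [⟨1, false, true⟩, ⟨3, false, false⟩, ⟨3, true, false⟩, ⟨2, true, true⟩]])
    (TEq.by ((RMove.r1 3 false false).teq).symm ![[Sum.inl ⟨2, false, true⟩, Sum.inl ⟨0, false, false⟩], [Sum.inl ⟨0, true, false⟩, Sum.inl ⟨1, true, true⟩], [Sum.inl ⟨1, false, true⟩, Sum.inr 0, Sum.inl ⟨2, true, true⟩]] (by decide +kernel)) ?_
  refine TEq.trans (t' := ![[⟨2, true, false⟩, ⟨0, true, true⟩], [⟨0, false, true⟩, ⟨1, false, false⟩], [⟨1, true, false⟩, ⟨3, true, true⟩, ⟨3, false, true⟩, ⟨2, false, false⟩]])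
    (TEq.by (PMove.pass ![0, 2, 3, 1] (by decide) false false false).teq ![[Sum.inr 0], [Sum.inr 2], [Sum.inr 1, Sum.inr 3]] (by decide +kernel)) ?_
  exact (TEq.by (RMove.r1 3 true true).teq ![[Sum.inl ⟨2, true, false⟩, Sum.inl ⟨0, true, true⟩], [Sum.inl ⟨0, false, true⟩, Sum.inl ⟨1, false, false⟩], [Sum.inl ⟨1, true, false⟩, Sum.inr 0, Sum.inl ⟨2, false, false⟩]] (by decide +kernel))

/-- The triangles which may be switched exactly. -/
def triExact (o ov : Fin 3 → Bool) : Bool :=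
  !(ov 0 == ov 1 && ov 1 == ov 2) &&
    ((o 0 == o 1 && o 1 == o 2) ||
      (if o 0 == o 1 then triPos o ov 1 != triPos o ov 2
        else if o 1 == o 2 then triPos o ov 0 != triPos o ov 2
        else triPos o ov 0 != triPos o ov 1))

theorem flipTri_c (o ov : Fin 3 → Bool) (h : triExact o ov = true) :
    TEq (triWord ![0, 1, 2] o ov) (triWord ![0, 1, 2] o (fun i => !(ov i))) := by
  have e : ∀ u : Fin 3 → Bool, u = ![u 0, u 1, u 2] := by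
    intro u; funext i; fin_cases i <;> rfl
  have ew : ∀ w : Fin 3 → List Ltr, w = ![w 0, w 1, w 2] := by
    intro u; funext i; fin_cases i <;> rfl
  have e2 : (fun i => !(ov i)) = ![!(ov 0), !(ov 1), !(ov 2)] := by
    funext i; fin_cases i <;> rfl
  rw [e2]
  rw [e o, e ov] at h ⊢
  generalize o 0 = o0 at h ⊢
  generalize o 1 = o1 at h ⊢
  generalize o 2 = o2 at h ⊢
  generalize ov 0 = v0 at h ⊢
  generalize ov 1 = v1 at h ⊢
  generalize ov 2 = v2 at h ⊢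
  rw [ew (triWord _ _ _), ew (triWord _ _ ![!_, _, _])]
  cases o0 <;> cases o1 <;> cases o2 <;> cases v0 <;> cases v1 <;> cases v2 <;>
    first
    | (exfalso; revert h; decide)
    | skip
  · exact flipTri_fff_fft
  · exact flipTri_fff_ftf
  · exact flipTri_fff_ftt
  · exact (flipTri_fff_ftt).symm
  · exact (flipTri_fff_ftf).symm
  · exact (flipTri_fff_fft).symm
  · exact flipTri_fft_fft
  · exact flipTri_fft_ftf
  · exact (flipTri_fft_ftf).symm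
  · exact (flipTri_fft_fft).symm
  · exact flipTri_ftf_ftf
  · exact flipTri_ftf_ftt
  · exact (flipTri_ftf_ftt).symm
  · exact (flipTri_ftf_ftf).symm
  · exact flipTri_ftt_fft
  · exact flipTri_ftt_ftt
  · exact (flipTri_ftt_ftt).symm
  · exact (flipTri_ftt_fft).symm
  · exact flipTri_tff_fft
  · exact flipTri_tff_ftt
  · exact (flipTri_tff_ftt).symm
  · exact (flipTri_tff_fft).symm
  · exact flipTri_tft_ftf
  · exact flipTri_tft_ftt
  · exact (flipTri_tft_ftt).symm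
  · exact (flipTri_tft_ftf).symm
  · exact flipTri_ttf_fft
  · exact flipTri_ttf_ftf
  · exact (flipTri_ttf_ftf).symm
  · exact (flipTri_ttf_fft).symm
  · exact flipTri_ttt_fft
  · exact flipTri_ttt_ftf
  · exact flipTri_ttt_ftt
  · exact (flipTri_ttt_ftt).symm
  · exact (flipTri_ttt_ftf).symm
  · exact (flipTri_ttt_fft).symm

/-- A triangle of even type may be switched. -/
theorem flipTri (c : Fin 3 → ℕ) (hc : Function.Injective c) (o ov : Fin 3 → Bool)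
    (h : triExact o ov = true) :
    TEq (triWord c o ov) (triWord c o (fun i => !(ov i))) := by
  have key : ∀ u : Fin 3 → Bool, (fun i => (triWord ![0, 1, 2] o u i).map
      (Ltr.relab (extv c))) = triWord c o u := by
    intro u; funext i; fin_cases i <;> simp [triWord] <;> split_ifs <;> simp [Ltr.relab, extv]
  have hl : ∀ u : Fin 3 → Bool, labB 3 (triWord ![0, 1, 2] o u) = true := by
    intro u
    simp only [labB, List.all_eq_true, decide_eq_true_eq, List.mem_finRange, true_imp_iff]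
    intro i
    fin_cases i <;> simp [triWord] <;> split_ifs <;> simp
  have := (flipTri_c o ov h).ext hc (hl _) (hl _)
  rwa [key, key] at this

/-! ### Local trefoils -/

/-- One half of a local trefoil. -/
def kay (a b : ℕ) : List Ltr := [⟨a, true, true⟩, ⟨b, false, true⟩, ⟨a, false, true⟩, ⟨b, true, true⟩]

/-- The other half of a local trefoil. -/
def kay' (a b : ℕ) : List Ltr := [⟨a, false, true⟩, ⟨b, true, true⟩, ⟨a, true, true⟩, ⟨b, false, true⟩]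

theorem kay_kay_c : TEq ![[⟨0, true, true⟩, ⟨1, false, true⟩, ⟨0, false, true⟩, ⟨1, true, true⟩, ⟨2, true, true⟩, ⟨3, false, true⟩, ⟨2, false, true⟩, ⟨3, true, true⟩]]
    ![[]] := by
  refine TEq.trans (t' := ![[⟨0, true, true⟩, ⟨4, true, true⟩, ⟨5, true, false⟩, ⟨1, false, true⟩, ⟨0, false, true⟩, ⟨1, true, true⟩, ⟨2, true, true⟩, ⟨3, false, true⟩, ⟨4, false, true⟩, ⟨5, false, false⟩, ⟨2, false, true⟩, ⟨3, true, true⟩]])
    (TEq.by ((RMove.r2 4 5 (by decide) true true true).teq).symm ![[Sum.inl ⟨0, true, true⟩, Sum.inr 0, Sum.inl ⟨1, false, true⟩, Sum.inl ⟨0, false, true⟩, Sum.inl ⟨1, true, true⟩, Sum.inl ⟨2, true, true⟩, Sum.inl ⟨3, false, true⟩, Sum.inr 1, Sum.inl ⟨2, false, true⟩, Sum.inl ⟨3, true, true⟩]] (by decide +kernel)) ?_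
  refine TEq.trans (t' := ![[⟨0, true, true⟩, ⟨4, true, true⟩, ⟨5, false, true⟩, ⟨1, true, false⟩, ⟨0, false, true⟩, ⟨1, false, false⟩, ⟨2, false, false⟩, ⟨3, false, true⟩, ⟨4, false, true⟩, ⟨5, true, true⟩, ⟨2, true, false⟩, ⟨3, true, true⟩]])
    (TEq.by (flipTri ![1, 5, 2] (by decide) ![false, false, true] ![true, true, false] (by decide)) ![[Sum.inl ⟨0, true, true⟩, Sum.inl ⟨4, true, true⟩, Sum.inr 1, Sum.inl ⟨0, false, true⟩, Sum.inr 0, Sum.inl ⟨3, false, true⟩, Sum.inl ⟨4, false, true⟩, Sum.inr 2, Sum.inl ⟨3, true, true⟩]] (by decide +kernel)) ?_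
  refine TEq.trans (t' := ![[⟨0, true, true⟩, ⟨4, true, true⟩, ⟨5, false, true⟩, ⟨1, true, false⟩, ⟨0, false, true⟩, ⟨1, false, false⟩, ⟨4, false, true⟩, ⟨5, true, true⟩]])
    (TEq.by (RMove.r2 2 3 (by decide) true false true).teq ![[Sum.inl ⟨0, true, true⟩, Sum.inl ⟨4, true, true⟩, Sum.inl ⟨5, false, true⟩, Sum.inl ⟨1, true, false⟩, Sum.inl ⟨0, false, true⟩, Sum.inl ⟨1, false, false⟩, Sum.inr 1, Sum.inl ⟨4, false, true⟩, Sum.inl ⟨5, true, true⟩, Sum.inr 0]] (by decide +kernel)) ?_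
  refine TEq.trans (t' := ![[⟨0, false, false⟩, ⟨4, false, false⟩, ⟨5, false, true⟩, ⟨1, false, true⟩, ⟨0, true, false⟩, ⟨1, true, true⟩, ⟨4, true, false⟩, ⟨5, true, true⟩]])
    (TEq.by (flipTri ![0, 1, 4] (by decide) ![false, false, true] ![true, true, false] (by decide)) ![[Sum.inr 0, Sum.inl ⟨5, false, true⟩, Sum.inr 1, Sum.inr 2, Sum.inl ⟨5, true, true⟩]] (by decide +kernel)) ?_
  refine TEq.trans (t' := ![[⟨0, false, false⟩, ⟨1, false, true⟩, ⟨0, true, false⟩, ⟨1, true, true⟩]])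
    (TEq.by (RMove.r2 4 5 (by decide) true false true).teq ![[Sum.inl ⟨0, false, false⟩, Sum.inr 1, Sum.inl ⟨1, false, true⟩, Sum.inl ⟨0, true, false⟩, Sum.inl ⟨1, true, true⟩, Sum.inr 0]] (by decide +kernel)) ?_
  exact (TEq.by (RMove.r2 0 1 (by decide) true false true).teq ![[Sum.inr 1, Sum.inr 0]] (by decide +kernel))

theorem kay_kay (c : Fin 4 → ℕ) (hc : Function.Injective c) :
    TEq ![kay (c 0) (c 1) ++ kay (c 2) (c 3)] ![[]] := by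
  have e1 : (fun i => ((![[⟨0, true, true⟩, ⟨1, false, true⟩, ⟨0, false, true⟩, ⟨1, true, true⟩, ⟨2, true, true⟩, ⟨3, false, true⟩, ⟨2, false, true⟩, ⟨3, true, true⟩]] : Fin 1 → List Ltr) i).map (Ltr.relab (extv c))) =
      ![kay (c 0) (c 1) ++ kay (c 2) (c 3)] := by
    funext i; fin_cases i; rfl
  have e2 : (fun i => ((![[]] : Fin 1 → List Ltr) i).map (Ltr.relab (extv c))) =
      ![[]] := by
    funext i; fin_cases i; rfl
  have := TEq.ext (n := 4) kay_kay_c hc (by decide) (by decide)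
  rwa [e1, e2] at this

theorem kay'_kay'_c : TEq ![[⟨0, false, true⟩, ⟨1, true, true⟩, ⟨0, true, true⟩, ⟨1, false, true⟩, ⟨2, false, true⟩, ⟨3, true, true⟩, ⟨2, true, true⟩, ⟨3, false, true⟩]]
    ![[]] := by
  refine TEq.trans (t' := ![[⟨0, false, true⟩, ⟨4, false, true⟩, ⟨5, false, false⟩, ⟨1, true, true⟩, ⟨0, true, true⟩, ⟨1, false, true⟩, ⟨2, false, true⟩, ⟨3, true, true⟩, ⟨4, true, true⟩, ⟨5, true, false⟩, ⟨2, true, true⟩, ⟨3, false, true⟩]])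
    (TEq.by ((RMove.r2 4 5 (by decide) false true true).teq).symm ![[Sum.inl ⟨0, false, true⟩, Sum.inr 0, Sum.inl ⟨1, true, true⟩, Sum.inl ⟨0, true, true⟩, Sum.inl ⟨1, false, true⟩, Sum.inl ⟨2, false, true⟩, Sum.inl ⟨3, true, true⟩, Sum.inr 1, Sum.inl ⟨2, true, true⟩, Sum.inl ⟨3, false, true⟩]] (by decide +kernel)) ?_
  refine TEq.trans (t' := ![[⟨0, false, true⟩, ⟨4, false, true⟩, ⟨5, true, true⟩, ⟨1, false, false⟩, ⟨0, true, true⟩, ⟨1, true, false⟩, ⟨2, true, false⟩, ⟨3, true, true⟩, ⟨4, true, true⟩, ⟨5, false, true⟩, ⟨2, false, false⟩, ⟨3, false, true⟩]])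
    (TEq.by (flipTri ![1, 2, 5] (by decide) ![true, true, false] ![true, false, true] (by decide)) ![[Sum.inl ⟨0, false, true⟩, Sum.inl ⟨4, false, true⟩, Sum.inr 0, Sum.inl ⟨0, true, true⟩, Sum.inr 1, Sum.inl ⟨3, true, true⟩, Sum.inl ⟨4, true, true⟩, Sum.inr 2, Sum.inl ⟨3, false, true⟩]] (by decide +kernel)) ?_
  refine TEq.trans (t' := ![[⟨0, false, true⟩, ⟨4, false, true⟩, ⟨5, true, true⟩, ⟨1, false, false⟩, ⟨0, true, true⟩, ⟨1, true, false⟩, ⟨4, true, true⟩, ⟨5, false, true⟩]])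
    (TEq.by (RMove.r2 2 3 (by decide) true false true).teq ![[Sum.inl ⟨0, false, true⟩, Sum.inl ⟨4, false, true⟩, Sum.inl ⟨5, true, true⟩, Sum.inl ⟨1, false, false⟩, Sum.inl ⟨0, true, true⟩, Sum.inl ⟨1, true, false⟩, Sum.inr 0, Sum.inl ⟨4, true, true⟩, Sum.inl ⟨5, false, true⟩, Sum.inr 1]] (by decide +kernel)) ?_
  refine TEq.trans (t' := ![[⟨0, true, false⟩, ⟨4, true, false⟩, ⟨5, true, true⟩, ⟨1, true, true⟩, ⟨0, false, false⟩, ⟨1, false, true⟩, ⟨4, false, false⟩, ⟨5, false, true⟩]])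
    (TEq.by (flipTri ![0, 4, 1] (by decide) ![true, true, false] ![true, false, true] (by decide)) ![[Sum.inr 1, Sum.inl ⟨5, true, true⟩, Sum.inr 0, Sum.inr 2, Sum.inl ⟨5, false, true⟩]] (by decide +kernel)) ?_
  refine TEq.trans (t' := ![[⟨0, true, false⟩, ⟨1, true, true⟩, ⟨0, false, false⟩, ⟨1, false, true⟩]])
    (TEq.by (RMove.r2 4 5 (by decide) true false true).teq ![[Sum.inl ⟨0, true, false⟩, Sum.inr 0, Sum.inl ⟨1, true, true⟩, Sum.inl ⟨0, false, false⟩, Sum.inl ⟨1, false, true⟩, Sum.inr 1]] (by decide +kernel)) ?_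
  exact (TEq.by (RMove.r2 0 1 (by decide) true false true).teq ![[Sum.inr 0, Sum.inr 1]] (by decide +kernel))

theorem kay'_kay' (c : Fin 4 → ℕ) (hc : Function.Injective c) :
    TEq ![kay' (c 0) (c 1) ++ kay' (c 2) (c 3)] ![[]] := by
  have e1 : (fun i => ((![[⟨0, false, true⟩, ⟨1, true, true⟩, ⟨0, true, true⟩, ⟨1, false, true⟩, ⟨2, false, true⟩, ⟨3, true, true⟩, ⟨2, true, true⟩, ⟨3, false, true⟩]] : Fin 1 → List Ltr) i).map (Ltr.relab (extv c))) =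
      ![kay' (c 0) (c 1) ++ kay' (c 2) (c 3)] := by
    funext i; fin_cases i; rfl
  have e2 : (fun i => ((![[]] : Fin 1 → List Ltr) i).map (Ltr.relab (extv c))) =
      ![[]] := by
    funext i; fin_cases i; rfl
  have := TEq.ext (n := 4) kay'_kay'_c hc (by decide) (by decide)
  rwa [e1, e2] at this

theorem kay_kay'_c : TEq ![[⟨0, true, true⟩, ⟨1, false, true⟩, ⟨0, false, true⟩, ⟨1, true, true⟩, ⟨2, false, true⟩, ⟨3, true, true⟩, ⟨2, true, true⟩, ⟨3, false, true⟩]]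
    ![[⟨0, true, true⟩, ⟨1, false, true⟩, ⟨2, true, true⟩, ⟨0, false, true⟩, ⟨1, true, true⟩, ⟨2, false, true⟩]] := by
  refine TEq.trans (t' := ![[⟨0, true, true⟩, ⟨4, true, true⟩, ⟨4, false, true⟩, ⟨1, false, true⟩, ⟨0, false, true⟩, ⟨1, true, true⟩, ⟨2, false, true⟩, ⟨3, true, true⟩, ⟨2, true, true⟩, ⟨3, false, true⟩]])
    (TEq.by ((RMove.r1 4 true true).teq).symm ![[Sum.inl ⟨0, true, true⟩, Sum.inr 0, Sum.inl ⟨1, false, true⟩, Sum.inl ⟨0, false, true⟩, Sum.inl ⟨1, true, true⟩, Sum.inl ⟨2, false, true⟩, Sum.inl ⟨3, true, true⟩, Sum.inl ⟨2, true, true⟩, Sum.inl ⟨3, false, true⟩]] (by decide +kernel)) ?_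
  refine TEq.trans (t' := ![[⟨4, true, true⟩, ⟨0, true, true⟩, ⟨1, false, true⟩, ⟨4, false, true⟩, ⟨1, true, true⟩, ⟨0, false, true⟩, ⟨2, false, true⟩, ⟨3, true, true⟩, ⟨2, true, true⟩, ⟨3, false, true⟩]])
    (TEq.by (RMove.r3 ![0, 4, 1] (by decide) ![false, true, true] ![false, true, false] (by decide)).teq ![[Sum.inr 1, Sum.inr 2, Sum.inr 0, Sum.inl ⟨2, false, true⟩, Sum.inl ⟨3, true, true⟩, Sum.inl ⟨2, true, true⟩, Sum.inl ⟨3, false, true⟩]] (by decide +kernel)) ?_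
  refine TEq.trans (t' := ![[⟨4, true, true⟩, ⟨5, false, true⟩, ⟨6, false, false⟩, ⟨0, true, true⟩, ⟨1, false, true⟩, ⟨4, false, true⟩, ⟨1, true, true⟩, ⟨0, false, true⟩, ⟨2, false, true⟩, ⟨3, true, true⟩, ⟨5, true, true⟩, ⟨6, true, false⟩, ⟨2, true, true⟩, ⟨3, false, true⟩]])
    (TEq.by ((RMove.r2 5 6 (by decide) false true true).teq).symm ![[Sum.inl ⟨4, true, true⟩, Sum.inr 0, Sum.inl ⟨0, true, true⟩, Sum.inl ⟨1, false, true⟩, Sum.inl ⟨4, false, true⟩, Sum.inl ⟨1, true, true⟩, Sum.inl ⟨0, false, true⟩, Sum.inl ⟨2, false, true⟩, Sum.inl ⟨3, true, true⟩, Sum.inr 1, Sum.inl ⟨2, true, true⟩, Sum.inl ⟨3, false, true⟩]] (by decide +kernel)) ?_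
  refine TEq.trans (t' := ![[⟨4, true, true⟩, ⟨5, false, true⟩, ⟨6, true, true⟩, ⟨0, false, false⟩, ⟨1, false, true⟩, ⟨4, false, true⟩, ⟨1, true, true⟩, ⟨0, true, false⟩, ⟨2, true, false⟩, ⟨3, true, true⟩, ⟨5, true, true⟩, ⟨6, false, true⟩, ⟨2, false, false⟩, ⟨3, false, true⟩]])
    (TEq.by (flipTri ![0, 2, 6] (by decide) ![true, true, false] ![true, false, true] (by decide)) ![[Sum.inl ⟨4, true, true⟩, Sum.inl ⟨5, false, true⟩, Sum.inr 0, Sum.inl ⟨1, false, true⟩, Sum.inl ⟨4, false, true⟩, Sum.inl ⟨1, true, true⟩, Sum.inr 1, Sum.inl ⟨3, true, true⟩, Sum.inl ⟨5, true, true⟩, Sum.inr 2, Sum.inl ⟨3, false, true⟩]] (by decide +kernel)) ?_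
  refine TEq.trans (t' := ![[⟨4, true, true⟩, ⟨5, false, true⟩, ⟨6, true, true⟩, ⟨0, false, false⟩, ⟨1, false, true⟩, ⟨4, false, true⟩, ⟨1, true, true⟩, ⟨0, true, false⟩, ⟨5, true, true⟩, ⟨6, false, true⟩]])
    (TEq.by (RMove.r2 2 3 (by decide) true false true).teq ![[Sum.inl ⟨4, true, true⟩, Sum.inl ⟨5, false, true⟩, Sum.inl ⟨6, true, true⟩, Sum.inl ⟨0, false, false⟩, Sum.inl ⟨1, false, true⟩, Sum.inl ⟨4, false, true⟩, Sum.inl ⟨1, true, true⟩, Sum.inl ⟨0, true, false⟩, Sum.inr 0, Sum.inl ⟨5, true, true⟩, Sum.inl ⟨6, false, true⟩, Sum.inr 1]] (by decide +kernel)) ?_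
  refine TEq.trans (t' := ![[⟨4, true, true⟩, ⟨5, false, true⟩, ⟨6, true, true⟩, ⟨4, false, true⟩, ⟨5, true, true⟩, ⟨6, false, true⟩]])
    (TEq.by (RMove.r2 0 1 (by decide) false false false).teq ![[Sum.inl ⟨4, true, true⟩, Sum.inl ⟨5, false, true⟩, Sum.inl ⟨6, true, true⟩, Sum.inr 0, Sum.inl ⟨4, false, true⟩, Sum.inr 1, Sum.inl ⟨5, true, true⟩, Sum.inl ⟨6, false, true⟩]] (by decide +kernel)) ?_
  refine TEq.trans (t' := ![[⟨0, true, true⟩, ⟨5, false, true⟩, ⟨6, true, true⟩, ⟨0, false, true⟩, ⟨5, true, true⟩, ⟨6, false, true⟩]])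
    (TEq.swp 4 0 (by decide +kernel)) ?_
  refine TEq.trans (t' := ![[⟨0, true, true⟩, ⟨1, false, true⟩, ⟨6, true, true⟩, ⟨0, false, true⟩, ⟨1, true, true⟩, ⟨6, false, true⟩]])
    (TEq.swp 5 1 (by decide +kernel)) ?_
  exact (TEq.swp 6 2 (by decide +kernel))

theorem kay_kay' (c : Fin 4 → ℕ) (hc : Function.Injective c) :
    TEq ![kay (c 0) (c 1) ++ kay' (c 2) (c 3)] ![tref (c 0) (c 1) (c 2)] := by
  have e1 : (fun i => ((![[⟨0, true, true⟩, ⟨1, false, true⟩, ⟨0, false, true⟩, ⟨1, true, true⟩, ⟨2, false, true⟩, ⟨3, true, true⟩, ⟨2, true, true⟩, ⟨3, false, true⟩]] : Fin 1 → List Ltr) i).map (Ltr.relab (extv c))) =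
      ![kay (c 0) (c 1) ++ kay' (c 2) (c 3)] := by
    funext i; fin_cases i; rfl
  have e2 : (fun i => ((![[⟨0, true, true⟩, ⟨1, false, true⟩, ⟨2, true, true⟩, ⟨0, false, true⟩, ⟨1, true, true⟩, ⟨2, false, true⟩]] : Fin 1 → List Ltr) i).map (Ltr.relab (extv c))) =
      ![tref (c 0) (c 1) (c 2)] := by
    funext i; fin_cases i; rfl
  have := TEq.ext (n := 4) kay_kay'_c hc (by decide) (by decide)
  rwa [e1, e2] at this

theorem kay'_kay_c : TEq ![[⟨0, false, true⟩, ⟨1, true, true⟩, ⟨0, true, true⟩, ⟨1, false, true⟩, ⟨2, true, true⟩, ⟨3, false, true⟩, ⟨2, false, true⟩, ⟨3, true, true⟩]]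
    ![[⟨0, true, true⟩, ⟨1, false, true⟩, ⟨2, true, true⟩, ⟨0, false, true⟩, ⟨1, true, true⟩, ⟨2, false, true⟩]] := by
  refine TEq.trans (t' := ![[⟨0, false, true⟩, ⟨4, false, true⟩, ⟨4, true, true⟩, ⟨1, true, true⟩, ⟨0, true, true⟩, ⟨1, false, true⟩, ⟨2, true, true⟩, ⟨3, false, true⟩, ⟨2, false, true⟩, ⟨3, true, true⟩]])
    (TEq.by ((RMove.r1 4 false true).teq).symm ![[Sum.inl ⟨0, false, true⟩, Sum.inr 0, Sum.inl ⟨1, true, true⟩, Sum.inl ⟨0, true, true⟩, Sum.inl ⟨1, false, true⟩, Sum.inl ⟨2, true, true⟩, Sum.inl ⟨3, false, true⟩, Sum.inl ⟨2, false, true⟩, Sum.inl ⟨3, true, true⟩]] (by decide +kernel)) ?_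
  refine TEq.trans (t' := ![[⟨4, false, true⟩, ⟨0, false, true⟩, ⟨1, true, true⟩, ⟨4, true, true⟩, ⟨1, false, true⟩, ⟨0, true, true⟩, ⟨2, true, true⟩, ⟨3, false, true⟩, ⟨2, false, true⟩, ⟨3, true, true⟩]])
    (TEq.by (RMove.r3 ![0, 1, 4] (by decide) ![false, true, false] ![false, false, true] (by decide)).teq ![[Sum.inr 0, Sum.inr 2, Sum.inr 1, Sum.inl ⟨2, true, true⟩, Sum.inl ⟨3, false, true⟩, Sum.inl ⟨2, false, true⟩, Sum.inl ⟨3, true, true⟩]] (by decide +kernel)) ?_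
  refine TEq.trans (t' := ![[⟨4, false, true⟩, ⟨5, true, true⟩, ⟨6, true, false⟩, ⟨0, false, true⟩, ⟨1, true, true⟩, ⟨4, true, true⟩, ⟨1, false, true⟩, ⟨0, true, true⟩, ⟨2, true, true⟩, ⟨3, false, true⟩, ⟨5, false, true⟩, ⟨6, false, false⟩, ⟨2, false, true⟩, ⟨3, true, true⟩]])
    (TEq.by ((RMove.r2 5 6 (by decide) true true true).teq).symm ![[Sum.inl ⟨4, false, true⟩, Sum.inr 0, Sum.inl ⟨0, false, true⟩, Sum.inl ⟨1, true, true⟩, Sum.inl ⟨4, true, true⟩, Sum.inl ⟨1, false, true⟩, Sum.inl ⟨0, true, true⟩, Sum.inl ⟨2, true, true⟩, Sum.inl ⟨3, false, true⟩, Sum.inr 1, Sum.inl ⟨2, false, true⟩, Sum.inl ⟨3, true, true⟩]] (by decide +kernel)) ?_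
  refine TEq.trans (t' := ![[⟨4, false, true⟩, ⟨5, true, true⟩, ⟨6, false, true⟩, ⟨0, true, false⟩, ⟨1, true, true⟩, ⟨4, true, true⟩, ⟨1, false, true⟩, ⟨0, false, false⟩, ⟨2, false, false⟩, ⟨3, false, true⟩, ⟨5, false, true⟩, ⟨6, true, true⟩, ⟨2, true, false⟩, ⟨3, true, true⟩]])
    (TEq.by (flipTri ![0, 6, 2] (by decide) ![false, false, true] ![true, true, false] (by decide)) ![[Sum.inl ⟨4, false, true⟩, Sum.inl ⟨5, true, true⟩, Sum.inr 1, Sum.inl ⟨1, true, true⟩, Sum.inl ⟨4, true, true⟩, Sum.inl ⟨1, false, true⟩, Sum.inr 0, Sum.inl ⟨3, false, true⟩, Sum.inl ⟨5, false, true⟩, Sum.inr 2, Sum.inl ⟨3, true, true⟩]] (by decide +kernel)) ?_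
  refine TEq.trans (t' := ![[⟨4, false, true⟩, ⟨5, true, true⟩, ⟨6, false, true⟩, ⟨4, true, true⟩, ⟨2, false, false⟩, ⟨3, false, true⟩, ⟨5, false, true⟩, ⟨6, true, true⟩, ⟨2, true, false⟩, ⟨3, true, true⟩]])
    (TEq.by (RMove.r2 0 1 (by decide) true false false).teq ![[Sum.inl ⟨4, false, true⟩, Sum.inl ⟨5, true, true⟩, Sum.inl ⟨6, false, true⟩, Sum.inr 0, Sum.inl ⟨4, true, true⟩, Sum.inr 1, Sum.inl ⟨2, false, false⟩, Sum.inl ⟨3, false, true⟩, Sum.inl ⟨5, false, true⟩, Sum.inl ⟨6, true, true⟩, Sum.inl ⟨2, true, false⟩, Sum.inl ⟨3, true, true⟩]] (by decide +kernel)) ?_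
  refine TEq.trans (t' := ![[⟨4, false, true⟩, ⟨5, true, true⟩, ⟨0, true, true⟩, ⟨0, false, true⟩, ⟨6, false, true⟩, ⟨4, true, true⟩, ⟨2, false, false⟩, ⟨3, false, true⟩, ⟨5, false, true⟩, ⟨6, true, true⟩, ⟨2, true, false⟩, ⟨3, true, true⟩]])
    (TEq.by ((RMove.r1 0 true true).teq).symm ![[Sum.inl ⟨4, false, true⟩, Sum.inl ⟨5, true, true⟩, Sum.inr 0, Sum.inl ⟨6, false, true⟩, Sum.inl ⟨4, true, true⟩, Sum.inl ⟨2, false, false⟩, Sum.inl ⟨3, false, true⟩, Sum.inl ⟨5, false, true⟩, Sum.inl ⟨6, true, true⟩, Sum.inl ⟨2, true, false⟩, Sum.inl ⟨3, true, true⟩]] (by decide +kernel)) ?_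
  refine TEq.trans (t' := ![[⟨4, false, true⟩, ⟨5, true, true⟩, ⟨0, true, true⟩, ⟨0, false, true⟩, ⟨6, false, true⟩, ⟨4, true, true⟩, ⟨5, false, true⟩, ⟨6, true, true⟩]])
    (TEq.by (RMove.r2 2 3 (by decide) true false true).teq ![[Sum.inl ⟨4, false, true⟩, Sum.inl ⟨5, true, true⟩, Sum.inl ⟨0, true, true⟩, Sum.inl ⟨0, false, true⟩, Sum.inl ⟨6, false, true⟩, Sum.inl ⟨4, true, true⟩, Sum.inr 1, Sum.inl ⟨5, false, true⟩, Sum.inl ⟨6, true, true⟩, Sum.inr 0]] (by decide +kernel)) ?_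
  refine TEq.trans (t' := ![[⟨4, false, true⟩, ⟨0, true, true⟩, ⟨5, true, true⟩, ⟨6, false, true⟩, ⟨0, false, true⟩, ⟨4, true, true⟩, ⟨6, true, true⟩, ⟨5, false, true⟩]])
    (TEq.by (RMove.r3 ![0, 6, 5] (by decide) ![true, true, false] ![true, false, false] (by decide)).teq ![[Sum.inl ⟨4, false, true⟩, Sum.inr 0, Sum.inr 1, Sum.inl ⟨4, true, true⟩, Sum.inr 2]] (by decide +kernel)) ?_
  refine TEq.trans (t' := ![[⟨0, true, true⟩, ⟨4, false, true⟩, ⟨5, true, true⟩, ⟨0, false, true⟩, ⟨6, false, true⟩, ⟨6, true, true⟩, ⟨4, true, true⟩, ⟨5, false, true⟩]])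
    (TEq.by (RMove.r3 ![0, 4, 6] (by decide) ![true, false, true] ![false, false, true] (by decide)).teq ![[Sum.inr 1, Sum.inl ⟨5, true, true⟩, Sum.inr 0, Sum.inr 2, Sum.inl ⟨5, false, true⟩]] (by decide +kernel)) ?_
  refine TEq.trans (t' := ![[⟨0, true, true⟩, ⟨4, false, true⟩, ⟨5, true, true⟩, ⟨0, false, true⟩, ⟨4, true, true⟩, ⟨5, false, true⟩]])
    (TEq.by (RMove.r1 6 false true).teq ![[Sum.inl ⟨0, true, true⟩, Sum.inl ⟨4, false, true⟩, Sum.inl ⟨5, true, true⟩, Sum.inl ⟨0, false, true⟩, Sum.inr 0, Sum.inl ⟨4, true, true⟩, Sum.inl ⟨5, false, true⟩]] (by decide +kernel)) ?_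
  refine TEq.trans (t' := ![[⟨0, true, true⟩, ⟨1, false, true⟩, ⟨5, true, true⟩, ⟨0, false, true⟩, ⟨1, true, true⟩, ⟨5, false, true⟩]])
    (TEq.swp 4 1 (by decide +kernel)) ?_
  exact (TEq.swp 5 2 (by decide +kernel))

theorem kay'_kay (c : Fin 4 → ℕ) (hc : Function.Injective c) :
    TEq ![kay' (c 0) (c 1) ++ kay (c 2) (c 3)] ![tref (c 0) (c 1) (c 2)] := by
  have e1 : (fun i => ((![[⟨0, false, true⟩, ⟨1, true, true⟩, ⟨0, true, true⟩, ⟨1, false, true⟩, ⟨2, true, true⟩, ⟨3, false, true⟩, ⟨2, false, true⟩, ⟨3, true, true⟩]] : Fin 1 → List Ltr) i).map (Ltr.relab (extv c))) =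
      ![kay' (c 0) (c 1) ++ kay (c 2) (c 3)] := by
    funext i; fin_cases i; rfl
  have e2 : (fun i => ((![[⟨0, true, true⟩, ⟨1, false, true⟩, ⟨2, true, true⟩, ⟨0, false, true⟩, ⟨1, true, true⟩, ⟨2, false, true⟩]] : Fin 1 → List Ltr) i).map (Ltr.relab (extv c))) =
      ![tref (c 0) (c 1) (c 2)] := by
    funext i; fin_cases i; rfl
  have := TEq.ext (n := 4) kay'_kay_c hc (by decide) (by decide)
  rwa [e1, e2] at this

theorem tref_slide_ff : TEq ![[⟨0, true, true⟩, ⟨1, false, true⟩, ⟨2, true, true⟩, ⟨0, false, true⟩, ⟨1, true, true⟩, ⟨2, false, true⟩, ⟨3, false, false⟩], [⟨3, true, false⟩]]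
    ![[⟨3, false, false⟩, ⟨0, true, true⟩, ⟨1, false, true⟩, ⟨2, true, true⟩, ⟨0, false, true⟩, ⟨1, true, true⟩, ⟨2, false, true⟩], [⟨3, true, false⟩]] := by
  refine TEq.trans (t' := ![[⟨0, true, true⟩, ⟨1, false, true⟩, ⟨4, false, false⟩, ⟨5, false, true⟩, ⟨2, true, true⟩, ⟨0, false, true⟩, ⟨1, true, true⟩, ⟨2, false, true⟩, ⟨3, false, false⟩], [⟨3, true, false⟩, ⟨5, true, true⟩, ⟨4, true, false⟩]])
    (TEq.by ((RMove.r2 4 5 (by decide) false false false).teq).symm ![[Sum.inl ⟨0, true, true⟩, Sum.inl ⟨1, false, true⟩, Sum.inr 0, Sum.inl ⟨2, true, true⟩, Sum.inl ⟨0, false, true⟩, Sum.inl ⟨1, true, true⟩, Sum.inl ⟨2, false, true⟩, Sum.inl ⟨3, false, false⟩], [Sum.inl ⟨3, true, false⟩, Sum.inr 1]] (by decide +kernel)) ?_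
  refine TEq.trans (t' := ![[⟨0, true, true⟩, ⟨1, false, true⟩, ⟨4, false, false⟩, ⟨2, true, true⟩, ⟨5, false, true⟩, ⟨0, false, true⟩, ⟨1, true, true⟩, ⟨3, false, false⟩, ⟨2, false, true⟩], [⟨5, true, true⟩, ⟨3, true, false⟩, ⟨4, true, false⟩]])
    (TEq.by (RMove.r3 ![2, 3, 5] (by decide) ![true, true, true] ![true, false, true] (by decide)).teq ![[Sum.inl ⟨0, true, true⟩, Sum.inl ⟨1, false, true⟩, Sum.inl ⟨4, false, false⟩, Sum.inr 0, Sum.inl ⟨0, false, true⟩, Sum.inl ⟨1, true, true⟩, Sum.inr 1], [Sum.inr 2, Sum.inl ⟨4, true, false⟩]] (by decide +kernel)) ?_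
  refine TEq.trans (t' := ![[⟨0, true, true⟩, ⟨4, false, false⟩, ⟨1, false, true⟩, ⟨2, true, true⟩, ⟨5, false, true⟩, ⟨0, false, true⟩, ⟨3, false, false⟩, ⟨1, true, true⟩, ⟨2, false, true⟩], [⟨5, true, true⟩, ⟨4, true, false⟩, ⟨3, true, false⟩]])
    (TEq.by (RMove.r3 ![1, 3, 4] (by decide) ![false, true, true] ![false, false, true] (by decide)).teq ![[Sum.inl ⟨0, true, true⟩, Sum.inr 0, Sum.inl ⟨2, true, true⟩, Sum.inl ⟨5, false, true⟩, Sum.inl ⟨0, false, true⟩, Sum.inr 1, Sum.inl ⟨2, false, true⟩], [Sum.inl ⟨5, true, true⟩, Sum.inr 2]] (by decide +kernel)) ?_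
  refine TEq.trans (t' := ![[⟨4, false, false⟩, ⟨0, true, true⟩, ⟨1, false, true⟩, ⟨2, true, true⟩, ⟨5, false, true⟩, ⟨3, false, false⟩, ⟨0, false, true⟩, ⟨1, true, true⟩, ⟨2, false, true⟩], [⟨5, true, true⟩, ⟨3, true, false⟩, ⟨4, true, false⟩]])
    (TEq.by (RMove.r3 ![0, 4, 3] (by decide) ![false, true, true] ![false, false, true] (by decide)).teq ![[Sum.inr 1, Sum.inl ⟨1, false, true⟩, Sum.inl ⟨2, true, true⟩, Sum.inl ⟨5, false, true⟩, Sum.inr 0, Sum.inl ⟨1, true, true⟩, Sum.inl ⟨2, false, true⟩], [Sum.inl ⟨5, true, true⟩, Sum.inr 2]] (by decide +kernel)) ?_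
  refine TEq.trans (t' := ![[⟨4, false, false⟩, ⟨0, true, true⟩, ⟨1, false, true⟩, ⟨2, true, true⟩, ⟨0, false, true⟩, ⟨1, true, true⟩, ⟨2, false, true⟩], [⟨4, true, false⟩]])
    (TEq.by (RMove.r2 5 3 (by decide) false true true).teq ![[Sum.inl ⟨4, false, false⟩, Sum.inl ⟨0, true, true⟩, Sum.inl ⟨1, false, true⟩, Sum.inl ⟨2, true, true⟩, Sum.inr 0, Sum.inl ⟨0, false, true⟩, Sum.inl ⟨1, true, true⟩, Sum.inl ⟨2, false, true⟩], [Sum.inr 1, Sum.inl ⟨4, true, false⟩]] (by decide +kernel)) ?_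
  exact (TEq.swp 4 3 (by decide +kernel))

theorem tref_slide_ft : TEq ![[⟨0, true, true⟩, ⟨1, false, true⟩, ⟨2, true, true⟩, ⟨0, false, true⟩, ⟨1, true, true⟩, ⟨2, false, true⟩, ⟨3, false, true⟩], [⟨3, true, true⟩]]
    ![[⟨3, false, true⟩, ⟨0, true, true⟩, ⟨1, false, true⟩, ⟨2, true, true⟩, ⟨0, false, true⟩, ⟨1, true, true⟩, ⟨2, false, true⟩], [⟨3, true, true⟩]] := by
  refine TEq.trans (t' := ![[⟨0, true, true⟩, ⟨1, false, true⟩, ⟨4, false, true⟩, ⟨5, false, false⟩, ⟨2, true, true⟩, ⟨0, false, true⟩, ⟨1, true, true⟩, ⟨2, false, true⟩, ⟨3, false, true⟩], [⟨4, true, true⟩, ⟨5, true, false⟩, ⟨3, true, true⟩]])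
    (TEq.by ((RMove.r2 4 5 (by decide) false true true).teq).symm ![[Sum.inl ⟨0, true, true⟩, Sum.inl ⟨1, false, true⟩, Sum.inr 0, Sum.inl ⟨2, true, true⟩, Sum.inl ⟨0, false, true⟩, Sum.inl ⟨1, true, true⟩, Sum.inl ⟨2, false, true⟩, Sum.inl ⟨3, false, true⟩], [Sum.inr 1, Sum.inl ⟨3, true, true⟩]] (by decide +kernel)) ?_
  refine TEq.trans (t' := ![[⟨0, true, true⟩, ⟨1, false, true⟩, ⟨4, false, true⟩, ⟨2, true, true⟩, ⟨5, false, false⟩, ⟨0, false, true⟩, ⟨1, true, true⟩, ⟨3, false, true⟩, ⟨2, false, true⟩], [⟨4, true, true⟩, ⟨3, true, true⟩, ⟨5, true, false⟩]])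
    (TEq.by (RMove.r3 ![2, 3, 5] (by decide) ![true, true, false] ![true, false, true] (by decide)).teq ![[Sum.inl ⟨0, true, true⟩, Sum.inl ⟨1, false, true⟩, Sum.inl ⟨4, false, true⟩, Sum.inr 0, Sum.inl ⟨0, false, true⟩, Sum.inl ⟨1, true, true⟩, Sum.inr 1], [Sum.inl ⟨4, true, true⟩, Sum.inr 2]] (by decide +kernel)) ?_
  refine TEq.trans (t' := ![[⟨0, true, true⟩, ⟨4, false, true⟩, ⟨1, false, true⟩, ⟨2, true, true⟩, ⟨5, false, false⟩, ⟨0, false, true⟩, ⟨3, false, true⟩, ⟨1, true, true⟩, ⟨2, false, true⟩], [⟨3, true, true⟩, ⟨4, true, true⟩, ⟨5, true, false⟩]])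
    (TEq.by (RMove.r3 ![1, 3, 4] (by decide) ![false, true, false] ![false, false, true] (by decide)).teq ![[Sum.inl ⟨0, true, true⟩, Sum.inr 0, Sum.inl ⟨2, true, true⟩, Sum.inl ⟨5, false, false⟩, Sum.inl ⟨0, false, true⟩, Sum.inr 1, Sum.inl ⟨2, false, true⟩], [Sum.inr 2, Sum.inl ⟨5, true, false⟩]] (by decide +kernel)) ?_
  refine TEq.trans (t' := ![[⟨4, false, true⟩, ⟨0, true, true⟩, ⟨1, false, true⟩, ⟨2, true, true⟩, ⟨5, false, false⟩, ⟨3, false, true⟩, ⟨0, false, true⟩, ⟨1, true, true⟩, ⟨2, false, true⟩], [⟨4, true, true⟩, ⟨3, true, true⟩, ⟨5, true, false⟩]])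
    (TEq.by (RMove.r3 ![0, 4, 3] (by decide) ![false, true, false] ![false, false, true] (by decide)).teq ![[Sum.inr 1, Sum.inl ⟨1, false, true⟩, Sum.inl ⟨2, true, true⟩, Sum.inl ⟨5, false, false⟩, Sum.inr 0, Sum.inl ⟨1, true, true⟩, Sum.inl ⟨2, false, true⟩], [Sum.inr 2, Sum.inl ⟨5, true, false⟩]] (by decide +kernel)) ?_
  refine TEq.trans (t' := ![[⟨4, false, true⟩, ⟨0, true, true⟩, ⟨1, false, true⟩, ⟨2, true, true⟩, ⟨0, false, true⟩, ⟨1, true, true⟩, ⟨2, false, true⟩], [⟨4, true, true⟩]])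
    (TEq.by (RMove.r2 3 5 (by decide) true true false).teq ![[Sum.inl ⟨4, false, true⟩, Sum.inl ⟨0, true, true⟩, Sum.inl ⟨1, false, true⟩, Sum.inl ⟨2, true, true⟩, Sum.inr 1, Sum.inl ⟨0, false, true⟩, Sum.inl ⟨1, true, true⟩, Sum.inl ⟨2, false, true⟩], [Sum.inl ⟨4, true, true⟩, Sum.inr 0]] (by decide +kernel)) ?_
  exact (TEq.swp 4 3 (by decide +kernel))

theorem tref_slide_tf : TEq ![[⟨0, true, true⟩, ⟨1, false, true⟩, ⟨2, true, true⟩, ⟨0, false, true⟩, ⟨1, true, true⟩, ⟨2, false, true⟩, ⟨3, true, false⟩], [⟨3, false, false⟩]]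
    ![[⟨3, true, false⟩, ⟨0, true, true⟩, ⟨1, false, true⟩, ⟨2, true, true⟩, ⟨0, false, true⟩, ⟨1, true, true⟩, ⟨2, false, true⟩], [⟨3, false, false⟩]] := by
  refine TEq.trans (t' := ![[⟨0, true, true⟩, ⟨1, false, true⟩, ⟨4, true, false⟩, ⟨5, true, true⟩, ⟨2, true, true⟩, ⟨0, false, true⟩, ⟨1, true, true⟩, ⟨2, false, true⟩, ⟨3, true, false⟩], [⟨4, false, false⟩, ⟨5, false, true⟩, ⟨3, false, false⟩]])
    (TEq.by ((RMove.r2 4 5 (by decide) true false true).teq).symm ![[Sum.inl ⟨0, true, true⟩, Sum.inl ⟨1, false, true⟩, Sum.inr 0, Sum.inl ⟨2, true, true⟩, Sum.inl ⟨0, false, true⟩, Sum.inl ⟨1, true, true⟩, Sum.inl ⟨2, false, true⟩, Sum.inl ⟨3, true, false⟩], [Sum.inr 1, Sum.inl ⟨3, false, false⟩]] (by decide +kernel)) ?_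
  refine TEq.trans (t' := ![[⟨0, true, true⟩, ⟨1, false, true⟩, ⟨4, true, false⟩, ⟨2, true, true⟩, ⟨5, true, true⟩, ⟨0, false, true⟩, ⟨1, true, true⟩, ⟨3, true, false⟩, ⟨2, false, true⟩], [⟨4, false, false⟩, ⟨3, false, false⟩, ⟨5, false, true⟩]])
    (TEq.by (RMove.r3 ![2, 3, 5] (by decide) ![true, true, false] ![true, true, false] (by decide)).teq ![[Sum.inl ⟨0, true, true⟩, Sum.inl ⟨1, false, true⟩, Sum.inl ⟨4, true, false⟩, Sum.inr 0, Sum.inl ⟨0, false, true⟩, Sum.inl ⟨1, true, true⟩, Sum.inr 1], [Sum.inl ⟨4, false, false⟩, Sum.inr 2]] (by decide +kernel)) ?_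
  refine TEq.trans (t' := ![[⟨0, true, true⟩, ⟨4, true, false⟩, ⟨1, false, true⟩, ⟨2, true, true⟩, ⟨5, true, true⟩, ⟨0, false, true⟩, ⟨3, true, false⟩, ⟨1, true, true⟩, ⟨2, false, true⟩], [⟨3, false, false⟩, ⟨4, false, false⟩, ⟨5, false, true⟩]])
    (TEq.by (RMove.r3 ![1, 3, 4] (by decide) ![false, true, false] ![false, true, false] (by decide)).teq ![[Sum.inl ⟨0, true, true⟩, Sum.inr 0, Sum.inl ⟨2, true, true⟩, Sum.inl ⟨5, true, true⟩, Sum.inl ⟨0, false, true⟩, Sum.inr 1, Sum.inl ⟨2, false, true⟩], [Sum.inr 2, Sum.inl ⟨5, false, true⟩]] (by decide +kernel)) ?_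
  refine TEq.trans (t' := ![[⟨4, true, false⟩, ⟨0, true, true⟩, ⟨1, false, true⟩, ⟨2, true, true⟩, ⟨5, true, true⟩, ⟨3, true, false⟩, ⟨0, false, true⟩, ⟨1, true, true⟩, ⟨2, false, true⟩], [⟨4, false, false⟩, ⟨3, false, false⟩, ⟨5, false, true⟩]])
    (TEq.by (RMove.r3 ![0, 4, 3] (by decide) ![false, true, false] ![false, true, false] (by decide)).teq ![[Sum.inr 1, Sum.inl ⟨1, false, true⟩, Sum.inl ⟨2, true, true⟩, Sum.inl ⟨5, true, true⟩, Sum.inr 0, Sum.inl ⟨1, true, true⟩, Sum.inl ⟨2, false, true⟩], [Sum.inr 2, Sum.inl ⟨5, false, true⟩]] (by decide +kernel)) ?_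
  refine TEq.trans (t' := ![[⟨4, true, false⟩, ⟨0, true, true⟩, ⟨1, false, true⟩, ⟨2, true, true⟩, ⟨0, false, true⟩, ⟨1, true, true⟩, ⟨2, false, true⟩], [⟨4, false, false⟩]])
    (TEq.by (RMove.r2 3 5 (by decide) false false false).teq ![[Sum.inl ⟨4, true, false⟩, Sum.inl ⟨0, true, true⟩, Sum.inl ⟨1, false, true⟩, Sum.inl ⟨2, true, true⟩, Sum.inr 1, Sum.inl ⟨0, false, true⟩, Sum.inl ⟨1, true, true⟩, Sum.inl ⟨2, false, true⟩], [Sum.inl ⟨4, false, false⟩, Sum.inr 0]] (by decide +kernel)) ?_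
  exact (TEq.swp 4 3 (by decide +kernel))

theorem tref_slide_tt : TEq ![[⟨0, true, true⟩, ⟨1, false, true⟩, ⟨2, true, true⟩, ⟨0, false, true⟩, ⟨1, true, true⟩, ⟨2, false, true⟩, ⟨3, true, true⟩], [⟨3, false, true⟩]]
    ![[⟨3, true, true⟩, ⟨0, true, true⟩, ⟨1, false, true⟩, ⟨2, true, true⟩, ⟨0, false, true⟩, ⟨1, true, true⟩, ⟨2, false, true⟩], [⟨3, false, true⟩]] := by
  refine TEq.trans (t' := ![[⟨0, true, true⟩, ⟨1, false, true⟩, ⟨4, true, true⟩, ⟨5, true, false⟩, ⟨2, true, true⟩, ⟨0, false, true⟩, ⟨1, true, true⟩, ⟨2, false, true⟩, ⟨3, true, true⟩], [⟨3, false, true⟩, ⟨5, false, false⟩, ⟨4, false, true⟩]])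
    (TEq.by ((RMove.r2 4 5 (by decide) true true false).teq).symm ![[Sum.inl ⟨0, true, true⟩, Sum.inl ⟨1, false, true⟩, Sum.inr 0, Sum.inl ⟨2, true, true⟩, Sum.inl ⟨0, false, true⟩, Sum.inl ⟨1, true, true⟩, Sum.inl ⟨2, false, true⟩, Sum.inl ⟨3, true, true⟩], [Sum.inl ⟨3, false, true⟩, Sum.inr 1]] (by decide +kernel)) ?_
  refine TEq.trans (t' := ![[⟨0, true, true⟩, ⟨1, false, true⟩, ⟨4, true, true⟩, ⟨2, true, true⟩, ⟨5, true, false⟩, ⟨0, false, true⟩, ⟨1, true, true⟩, ⟨3, true, true⟩, ⟨2, false, true⟩], [⟨5, false, false⟩, ⟨3, false, true⟩, ⟨4, false, true⟩]])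
    (TEq.by (RMove.r3 ![2, 3, 5] (by decide) ![true, true, true] ![true, true, false] (by decide)).teq ![[Sum.inl ⟨0, true, true⟩, Sum.inl ⟨1, false, true⟩, Sum.inl ⟨4, true, true⟩, Sum.inr 0, Sum.inl ⟨0, false, true⟩, Sum.inl ⟨1, true, true⟩, Sum.inr 1], [Sum.inr 2, Sum.inl ⟨4, false, true⟩]] (by decide +kernel)) ?_
  refine TEq.trans (t' := ![[⟨0, true, true⟩, ⟨4, true, true⟩, ⟨1, false, true⟩, ⟨2, true, true⟩, ⟨5, true, false⟩, ⟨0, false, true⟩, ⟨3, true, true⟩, ⟨1, true, true⟩, ⟨2, false, true⟩], [⟨5, false, false⟩, ⟨4, false, true⟩, ⟨3, false, true⟩]])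
    (TEq.by (RMove.r3 ![1, 3, 4] (by decide) ![false, true, true] ![false, true, false] (by decide)).teq ![[Sum.inl ⟨0, true, true⟩, Sum.inr 0, Sum.inl ⟨2, true, true⟩, Sum.inl ⟨5, true, false⟩, Sum.inl ⟨0, false, true⟩, Sum.inr 1, Sum.inl ⟨2, false, true⟩], [Sum.inl ⟨5, false, false⟩, Sum.inr 2]] (by decide +kernel)) ?_
  refine TEq.trans (t' := ![[⟨4, true, true⟩, ⟨0, true, true⟩, ⟨1, false, true⟩, ⟨2, true, true⟩, ⟨5, true, false⟩, ⟨3, true, true⟩, ⟨0, false, true⟩, ⟨1, true, true⟩, ⟨2, false, true⟩], [⟨5, false, false⟩, ⟨3, false, true⟩, ⟨4, false, true⟩]])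
    (TEq.by (RMove.r3 ![0, 4, 3] (by decide) ![false, true, true] ![false, true, false] (by decide)).teq ![[Sum.inr 1, Sum.inl ⟨1, false, true⟩, Sum.inl ⟨2, true, true⟩, Sum.inl ⟨5, true, false⟩, Sum.inr 0, Sum.inl ⟨1, true, true⟩, Sum.inl ⟨2, false, true⟩], [Sum.inl ⟨5, false, false⟩, Sum.inr 2]] (by decide +kernel)) ?_
  refine TEq.trans (t' := ![[⟨4, true, true⟩, ⟨0, true, true⟩, ⟨1, false, true⟩, ⟨2, true, true⟩, ⟨0, false, true⟩, ⟨1, true, true⟩, ⟨2, false, true⟩], [⟨4, false, true⟩]])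
    (TEq.by (RMove.r2 5 3 (by decide) true false true).teq ![[Sum.inl ⟨4, true, true⟩, Sum.inl ⟨0, true, true⟩, Sum.inl ⟨1, false, true⟩, Sum.inl ⟨2, true, true⟩, Sum.inr 0, Sum.inl ⟨0, false, true⟩, Sum.inl ⟨1, true, true⟩, Sum.inl ⟨2, false, true⟩], [Sum.inr 1, Sum.inl ⟨4, false, true⟩]] (by decide +kernel)) ?_
  exact (TEq.swp 4 3 (by decide +kernel))

/-- A local trefoil passes a letter. -/
theorem tref_slide (c : Fin 4 → ℕ) (hc : Function.Injective c) (o s : Bool) :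
    TEq ![tref (c 0) (c 1) (c 2) ++ [⟨c 3, o, s⟩], [⟨c 3, !o, s⟩]]
      ![⟨c 3, o, s⟩ :: tref (c 0) (c 1) (c 2), [⟨c 3, !o, s⟩]] := by
  have e1 : (fun i => ((![tref 0 1 2 ++ [⟨3, o, s⟩], [⟨3, !o, s⟩]] : Fin 2 → List Ltr) i).map
      (Ltr.relab (extv c))) = ![tref (c 0) (c 1) (c 2) ++ [⟨c 3, o, s⟩], [⟨c 3, !o, s⟩]] := by
    funext i; fin_cases i <;> rfl
  have e2 : (fun i => ((![⟨3, o, s⟩ :: tref 0 1 2, [⟨3, !o, s⟩]] : Fin 2 → List Ltr) i).map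
      (Ltr.relab (extv c))) = ![⟨c 3, o, s⟩ :: tref (c 0) (c 1) (c 2), [⟨c 3, !o, s⟩]] := by
    funext i; fin_cases i <;> rfl
  have h : TEq ![tref 0 1 2 ++ [⟨3, o, s⟩], [⟨3, !o, s⟩]]
      ![⟨3, o, s⟩ :: tref 0 1 2, [⟨3, !o, s⟩]] := by
    cases o <;> cases s
    · exact tref_slide_ff
    · exact tref_slide_ft
    · exact tref_slide_tf
    · exact tref_slide_tt
  have := h.ext hc (by cases o <;> cases s <;> decide) (by cases o <;> cases s <;> decide)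
  rwa [e1, e2] at this

theorem tref_tref_c : TEq ![[⟨0, true, true⟩, ⟨1, false, true⟩, ⟨2, true, true⟩, ⟨0, false, true⟩, ⟨1, true, true⟩, ⟨2, false, true⟩, ⟨3, true, true⟩, ⟨4, false, true⟩, ⟨5, true, true⟩, ⟨3, false, true⟩, ⟨4, true, true⟩, ⟨5, false, true⟩]] ![[]] := by
  refine TEq.trans (t' := ![[⟨0, true, true⟩, ⟨1, false, true⟩, ⟨2, true, true⟩, ⟨0, false, true⟩, ⟨1, true, true⟩, ⟨2, false, true⟩, ⟨3, true, true⟩, ⟨4, false, true⟩, ⟨3, false, true⟩, ⟨4, true, true⟩, ⟨5, false, true⟩, ⟨6, true, true⟩, ⟨5, true, true⟩, ⟨6, false, true⟩]])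
    (TEq.by (kay_kay' ![3, 4, 5, 6] (by decide)).symm ![[Sum.inl ⟨0, true, true⟩, Sum.inl ⟨1, false, true⟩, Sum.inl ⟨2, true, true⟩, Sum.inl ⟨0, false, true⟩, Sum.inl ⟨1, true, true⟩, Sum.inl ⟨2, false, true⟩, Sum.inr 0]] (by decide +kernel)) ?_
  refine TEq.trans (t' := ![[⟨3, true, true⟩, ⟨0, true, true⟩, ⟨1, false, true⟩, ⟨2, true, true⟩, ⟨0, false, true⟩, ⟨1, true, true⟩, ⟨2, false, true⟩, ⟨4, false, true⟩, ⟨3, false, true⟩, ⟨4, true, true⟩, ⟨5, false, true⟩, ⟨6, true, true⟩, ⟨5, true, true⟩, ⟨6, false, true⟩]])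
    (TEq.by (tref_slide ![0, 1, 2, 3] (by decide) true true) ![[Sum.inr 0, Sum.inl ⟨4, false, true⟩, Sum.inr 1, Sum.inl ⟨4, true, true⟩, Sum.inl ⟨5, false, true⟩, Sum.inl ⟨6, true, true⟩, Sum.inl ⟨5, true, true⟩, Sum.inl ⟨6, false, true⟩]] (by decide +kernel)) ?_
  refine TEq.trans (t' := ![[⟨3, true, true⟩, ⟨4, false, true⟩, ⟨0, true, true⟩, ⟨1, false, true⟩, ⟨2, true, true⟩, ⟨0, false, true⟩, ⟨1, true, true⟩, ⟨2, false, true⟩, ⟨3, false, true⟩, ⟨4, true, true⟩, ⟨5, false, true⟩, ⟨6, true, true⟩, ⟨5, true, true⟩, ⟨6, false, true⟩]])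
    (TEq.by (tref_slide ![0, 1, 2, 4] (by decide) false true) ![[Sum.inl ⟨3, true, true⟩, Sum.inr 0, Sum.inl ⟨3, false, true⟩, Sum.inr 1, Sum.inl ⟨5, false, true⟩, Sum.inl ⟨6, true, true⟩, Sum.inl ⟨5, true, true⟩, Sum.inl ⟨6, false, true⟩]] (by decide +kernel)) ?_
  refine TEq.trans (t' := ![[⟨3, true, true⟩, ⟨4, false, true⟩, ⟨3, false, true⟩, ⟨0, true, true⟩, ⟨1, false, true⟩, ⟨2, true, true⟩, ⟨0, false, true⟩, ⟨1, true, true⟩, ⟨2, false, true⟩, ⟨4, true, true⟩, ⟨5, false, true⟩, ⟨6, true, true⟩, ⟨5, true, true⟩, ⟨6, false, true⟩]])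
    (TEq.by (tref_slide ![0, 1, 2, 3] (by decide) false true) ![[Sum.inr 1, Sum.inl ⟨4, false, true⟩, Sum.inr 0, Sum.inl ⟨4, true, true⟩, Sum.inl ⟨5, false, true⟩, Sum.inl ⟨6, true, true⟩, Sum.inl ⟨5, true, true⟩, Sum.inl ⟨6, false, true⟩]] (by decide +kernel)) ?_
  refine TEq.trans (t' := ![[⟨3, true, true⟩, ⟨4, false, true⟩, ⟨3, false, true⟩, ⟨4, true, true⟩, ⟨0, true, true⟩, ⟨1, false, true⟩, ⟨2, true, true⟩, ⟨0, false, true⟩, ⟨1, true, true⟩, ⟨2, false, true⟩, ⟨5, false, true⟩, ⟨6, true, true⟩, ⟨5, true, true⟩, ⟨6, false, true⟩]])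
    (TEq.by (tref_slide ![0, 1, 2, 4] (by decide) true true) ![[Sum.inl ⟨3, true, true⟩, Sum.inr 1, Sum.inl ⟨3, false, true⟩, Sum.inr 0, Sum.inl ⟨5, false, true⟩, Sum.inl ⟨6, true, true⟩, Sum.inl ⟨5, true, true⟩, Sum.inl ⟨6, false, true⟩]] (by decide +kernel)) ?_
  refine TEq.trans (t' := ![[⟨3, true, true⟩, ⟨4, false, true⟩, ⟨3, false, true⟩, ⟨4, true, true⟩, ⟨0, true, true⟩, ⟨1, false, true⟩, ⟨0, false, true⟩, ⟨1, true, true⟩, ⟨2, false, true⟩, ⟨7, true, true⟩, ⟨2, true, true⟩, ⟨7, false, true⟩, ⟨5, false, true⟩, ⟨6, true, true⟩, ⟨5, true, true⟩, ⟨6, false, true⟩]])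
    (TEq.by (kay_kay' ![0, 1, 2, 7] (by decide)).symm ![[Sum.inl ⟨3, true, true⟩, Sum.inl ⟨4, false, true⟩, Sum.inl ⟨3, false, true⟩, Sum.inl ⟨4, true, true⟩, Sum.inr 0, Sum.inl ⟨5, false, true⟩, Sum.inl ⟨6, true, true⟩, Sum.inl ⟨5, true, true⟩, Sum.inl ⟨6, false, true⟩]] (by decide +kernel)) ?_
  refine TEq.trans (t' := ![[⟨2, false, true⟩, ⟨7, true, true⟩, ⟨2, true, true⟩, ⟨7, false, true⟩, ⟨5, false, true⟩, ⟨6, true, true⟩, ⟨5, true, true⟩, ⟨6, false, true⟩]])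
    (TEq.by (kay_kay ![3, 4, 0, 1] (by decide)) ![[Sum.inr 0, Sum.inl ⟨2, false, true⟩, Sum.inl ⟨7, true, true⟩, Sum.inl ⟨2, true, true⟩, Sum.inl ⟨7, false, true⟩, Sum.inl ⟨5, false, true⟩, Sum.inl ⟨6, true, true⟩, Sum.inl ⟨5, true, true⟩, Sum.inl ⟨6, false, true⟩]] (by decide +kernel)) ?_
  exact (TEq.by (kay'_kay' ![2, 7, 5, 6] (by decide)) ![[Sum.inr 0]] (by decide +kernel))

/-- Two local trefoils cancel. -/
theorem tref_tref (c : Fin 6 → ℕ) (hc : Function.Injective c) :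
    TEq ![tref (c 0) (c 1) (c 2) ++ tref (c 3) (c 4) (c 5)] ![[]] := by
  have e1 : (fun i => ((![tref 0 1 2 ++ tref 3 4 5] : Fin 1 → List Ltr) i).map
      (Ltr.relab (extv c))) = ![tref (c 0) (c 1) (c 2) ++ tref (c 3) (c 4) (c 5)] := by
    funext i; fin_cases i; rfl
  have e2 : (fun i => ((![[]] : Fin 1 → List Ltr) i).map (Ltr.relab (extv c))) = ![[]] := by
    funext i; fin_cases i; rfl
  have h0 : TEq ![tref 0 1 2 ++ tref 3 4 5] ![[]] := tref_tref_c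
  have := h0.ext hc (by decide) (by decide)
  rwa [e1, e2] at this

end VPass
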