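import Pool.Agent.VPass.Code
import Pool.Agent.VPass.Macros

/-!
# Local trefoils

MODULE Tref (uses the macro file for the letter slides and `T T ~ 1`).
-/

namespace VPass

/-- A local trefoil is added at the base point. -/
def addT (w : List Ltr) : List Ltr := tref 0 1 2 ++ w.map (Ltr.relab (· + 3))

section aux

lemma tref_ctx_nil {α : Type*} {k : ℕ} : ctx ([] : List (α ⊕ Fin k)) = [] := rfl

lemma tref_ctx_cons_inl {α : Type*} {k : ℕ} (a : α) (C : List (α ⊕ Fin k)) :
    ctx (Sum.inl a :: C) = a :: ctx C := by simp [ctx]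

lemma tref_ctx_cons_inr {α : Type*} {k : ℕ} (i : Fin k) (C : List (α ⊕ Fin k)) :
    ctx (Sum.inr i :: C) = ctx C := by simp [ctx, List.filterMap_cons]

lemma tref_ctx_map_inl {α : Type*} {k : ℕ} (w : List α) :
    ctx (w.map (Sum.inl : α → α ⊕ Fin k)) = w := by
  induction w with
  | nil => rfl
  | cons a w ih => simp [tref_ctx_cons_inl, ih]

lemma tref_ctx_tmap {α β : Type*} {k : ℕ} (f : α → β) (C : List (α ⊕ Fin k)) :
    ctx (tmap f C) = (ctx C).map f := by
  induction C with
  | nil => rfl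
  | cons x C ih =>
    cases x with
    | inl a =>
      have : tmap f (Sum.inl a :: C) = Sum.inl (f a) :: tmap f C := rfl
      rw [this, tref_ctx_cons_inl, tref_ctx_cons_inl, ih, List.map_cons]
    | inr i =>
      have : tmap f (Sum.inr i :: C) = Sum.inr i :: tmap f C := rfl
      rw [this, tref_ctx_cons_inr, tref_ctx_cons_inr, ih]

lemma tref_add3_inj : Function.Injective (fun x : ℕ => x + 3) := fun _ _ h => by simpa using h

lemma tref_isCode_relab {f : ℕ → ℕ} (hf : Function.Injective f) {w : List Ltr} :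
    IsCode (w.map (Ltr.relab f)) ↔ IsCode w := ((LEq.relab hf w).isCode_iff).symm

lemma tref_map_relab_relab (f g : ℕ → ℕ) (w : List Ltr) :
    (w.map (Ltr.relab f)).map (Ltr.relab g) = w.map (Ltr.relab (fun x => g (f x))) := by
  rw [List.map_map]; rfl

lemma tref_relab (f : ℕ → ℕ) (a b c : ℕ) :
    (tref a b c).map (Ltr.relab f) = tref (f a) (f b) (f c) := rfl

lemma mem_tref {a b c : ℕ} {x : Ltr} (h : x ∈ tref a b c) : x.lab = a ∨ x.lab = b ∨ x.lab = c := by
  simp only [tref, List.mem_cons, List.not_mem_nil, or_false] at h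
  rcases h with h | h | h | h | h | h <;> subst h <;> simp

lemma labs_tref (a b c : ℕ) : labs ![tref a b c] = {a, b, c} := by
  ext x
  rw [mem_labs]
  constructor
  · rintro ⟨i, y, hy, rfl⟩
    have : i = 0 := Subsingleton.elim _ _
    subst this
    simpa using mem_tref hy
  · intro h
    simp only [Finset.mem_insert, Finset.mem_singleton] at h
    rcases h with rfl | rfl | rfl
    · exact ⟨0, ⟨x, true, true⟩, by simp [tref], rfl⟩
    · exact ⟨0, ⟨x, false, true⟩, by simp [tref], rfl⟩
    · exact ⟨0, ⟨x, true, true⟩, by simp [tref], rfl⟩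

lemma tref_perm_finRange_one {l : List (Fin 1)} (h : l.Perm (List.finRange 1)) : l = [0] := by
  have : List.finRange 1 = [0] := by decide
  rw [this] at h
  exact List.perm_singleton.1 h

lemma balanced_tref {a b c : ℕ} (hab : a ≠ b) (hbc : b ≠ c) (hac : a ≠ c) :
    Balanced ![tref a b c] := by
  intro x hx l hl
  rw [tref_perm_finRange_one hl]
  rw [labs_tref] at hx
  simp only [Finset.mem_insert, Finset.mem_singleton] at hx
  rcases hx with rfl | rfl | rfl
  · exact ⟨true, true, by simp [tref, hab.symm, hac.symm]⟩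
  · exact ⟨false, true, by simp [tref, hab, hbc.symm]⟩
  · exact ⟨true, true, by simp [tref, hac, hbc]⟩

/-- words around -/
lemma tref_isTmpl_one {α : Type*} (u v : List α) :
    IsTmpl (u.map Sum.inl ++ (Sum.inr 0 : α ⊕ Fin 1) :: v.map Sum.inl) := by
  unfold IsTmpl
  simp only [holes_append, holes_map_inl, holes_cons_inr, List.nil_append]
  decide

lemma tref_isTmpl_two {α : Type*} (u v w : List α) :
    IsTmpl (u.map Sum.inl ++ (Sum.inr 0 : α ⊕ Fin 2) :: (v.map Sum.inl ++
      (Sum.inr 1 : α ⊕ Fin 2) :: w.map Sum.inl)) := by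
  unfold IsTmpl
  simp only [holes_append, holes_map_inl, holes_cons_inr, List.nil_append]
  decide

lemma tref_isTmpl_two' {α : Type*} (u v w : List α) :
    IsTmpl (u.map Sum.inl ++ (Sum.inr 1 : α ⊕ Fin 2) :: (v.map Sum.inl ++
      (Sum.inr 0 : α ⊕ Fin 2) :: w.map Sum.inl)) := by
  unfold IsTmpl
  simp only [holes_append, holes_map_inl, holes_cons_inr, List.nil_append]
  decide

end aux

theorem isCode_addT {w : List Ltr} : IsCode (addT w) ↔ IsCode w := by
  have h := isCode_fill_iff (C := ([] : List Ltr).map Sum.inl ++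
      (Sum.inr 0 : Ltr ⊕ Fin 1) :: (w.map (Ltr.relab (fun x => x + 3))).map Sum.inl)
    (t := ![tref 0 1 2]) (tref_isTmpl_one _ _) ?_ (balanced_tref (by decide) (by decide) (by decide))
  · simp only [List.map_nil, List.nil_append, fill_cons_inr, fill_map_inl, Matrix.cons_val_fin_one,
      tref_ctx_cons_inr, tref_ctx_map_inl] at h
    exact h.trans (tref_isCode_relab tref_add3_inj)
  · rw [fresh_iff]
    intro b hb
    rw [labs_tref]
    simp only [List.map_nil, List.nil_append, List.mem_cons, reduceCtorEq, false_or, List.mem_map,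
      Sum.inl.injEq, exists_eq_right] at hb
    obtain ⟨y, -, rfl⟩ := hb
    simp only [relab_lab, Finset.mem_insert, Finset.mem_singleton]
    omega

/-- adding a word in front of a template move -/
lemma addT_fill_congr {k : ℕ} {C : List (Ltr ⊕ Fin k)} {t t' : Fin k → List Ltr} (hC : IsTmpl C)
    (h : Fresh C t) (h' : Fresh C t') (m : TEq t t') :
    LEq (addT (fill C t)) (addT (fill C t')) := by
  have key : ∀ u : Fin k → List Ltr, addT (fill C u) =
      fill ((tref 0 1 2).map Sum.inl ++ tmap (Ltr.relab (fun x => x + 3)) C)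
        (fun i => (u i).map (Ltr.relab (fun x => x + 3))) := by
    intro u
    rw [fill_append, fill_map_inl, fill_tmap]; rfl
  rw [key, key]
  have fr : ∀ u : Fin k → List Ltr, Fresh C u →
      Fresh ((tref 0 1 2).map Sum.inl ++ tmap (Ltr.relab (fun x => x + 3)) C)
        (fun i => (u i).map (Ltr.relab (fun x => x + 3))) := by
    intro u hu i a ha b hb e
    obtain ⟨a', ha', rfl⟩ := List.mem_map.1 ha
    rcases List.mem_append.1 hb with hb | hb
    · obtain ⟨b', hb', e'⟩ := List.mem_map.1 hb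
      rw [Sum.inl.injEq] at e'
      subst e'
      have := mem_tref hb'
      simp only [relab_lab] at e
      omega
    · obtain ⟨b', hb', rfl⟩ := mem_tmap_inl hb
      simp only [relab_lab, Nat.add_right_cancel_iff] at e
      exact hu i a' ha' b' hb' e
  refine (m.relab (f := fun x => x + 3) (tref_add3_inj.injOn)) _ ?_ (fr _ h) (fr _ h')
  unfold IsTmpl
  rw [holes_append, holes_map_inl, List.nil_append, holes_tmap]
  exact hC

theorem addT_congr {w w' : List Ltr} (h : LEq w w') : LEq (addT w) (addT w') := by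
  induction h with
  | rel x y h =>
    cases h with
    | reid hC h h' m => exact addT_fill_congr hC h h' m.teq
    | pass hC h h' m => exact addT_fill_congr hC h h' m.teq
    | relab f hf w =>
      have e : addT (x.map (Ltr.relab f)) =
          (addT x).map (Ltr.relab (fun n => if n < 3 then n else f (n - 3) + 3)) := by
        unfold addT
        rw [List.map_append, tref_map_relab_relab, tref_map_relab_relab, tref_relab]
        congr 1
      rw [e]
      refine LEq.relab ?_ _
      intro m n hmn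
      simp only at hmn
      split_ifs at hmn with h1 h2 h2
      · exact hmn
      · omega
      · omega
      · have := hf (Nat.add_right_cancel hmn)
        omega
  | refl x => exact LEq.refl _
  | symm x y _ ih => exact ih.symm
  | trans x y z _ _ ih1 ih2 => exact ih1.trans ih2

/-- A letter of a code and its partner. -/
lemma tref_partner_split {u v : List Ltr} {x : Ltr} (hw : IsCode (u ++ x :: v)) :
    (∃ v₁ v₂, v = v₁ ++ ⟨x.lab, !x.ov, x.pos⟩ :: v₂ ∧ (∀ y ∈ u, y.lab ≠ x.lab) ∧
      (∀ y ∈ v₁, y.lab ≠ x.lab) ∧ (∀ y ∈ v₂, y.lab ≠ x.lab)) ∨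
    (∃ u₁ u₂, u = u₁ ++ ⟨x.lab, !x.ov, x.pos⟩ :: u₂ ∧ (∀ y ∈ v, y.lab ≠ x.lab) ∧
      (∀ y ∈ u₁, y.lab ≠ x.lab) ∧ (∀ y ∈ u₂, y.lab ≠ x.lab)) := by
  have hx := hw x.lab
  rw [List.filter_append, List.filter_cons_of_pos (by simp)] at hx
  rcases hx with hx | ⟨o, s, hx⟩
  · simp at hx
  rcases hu : u.filter (fun a => a.lab = x.lab) with _ | ⟨y, l⟩
  · rw [hu, List.nil_append] at hx
    obtain ⟨hxe, hv⟩ := List.cons_eq_cons.1 hx
    have ho : o = x.ov := by rw [hxe]
    have hs : s = x.pos := by rw [hxe]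
    rw [ho, hs] at hv
    left
    obtain ⟨v₁, v₂, e, h1, _, h2⟩ := List.filter_eq_cons_iff.1 hv
    refine ⟨v₁, v₂, e, ?_, ?_, ?_⟩
    · intro y hy
      simpa using List.filter_eq_nil_iff.1 hu y hy
    · intro y hy; simpa using h1 y hy
    · intro y hy
      simpa using List.filter_eq_nil_iff.1 h2 y hy
  · rw [hu, List.cons_append] at hx
    obtain ⟨hye, hx⟩ := List.cons_eq_cons.1 hx
    rcases l with _ | ⟨z, l⟩
    · rw [List.nil_append] at hx
      obtain ⟨hxe, hv⟩ := List.cons_eq_cons.1 hx
      have ho : (!o) = x.ov := by rw [hxe]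
      have hs : s = x.pos := by rw [hxe]
      right
      obtain ⟨u₁, u₂, e, h1, _, h2⟩ := List.filter_eq_cons_iff.1 hu
      have hy : y = ⟨x.lab, !x.ov, x.pos⟩ := by
        rw [hye, ← ho, ← hs, Bool.not_not]
      refine ⟨u₁, u₂, ?_, ?_, ?_, ?_⟩
      · rw [e, hy]
      · intro y hy
        simpa using List.filter_eq_nil_iff.1 hv y hy
      · intro y hy; simpa using h1 y hy
      · intro y hy
        simpa using List.filter_eq_nil_iff.1 h2 y hy
    · rw [List.cons_append] at hx
      have := (List.cons_eq_cons.1 hx).2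
      simp at this

lemma tref_fresh_two {C : List (Ltr ⊕ Fin 2)} {a b c : ℕ} {x : Ltr}
    (hC : ∀ y, Sum.inl y ∈ C → y.lab ≠ x.lab ∧ y.lab ≠ a ∧ y.lab ≠ b ∧ y.lab ≠ c)
    {t : Fin 2 → List Ltr} (ht : ∀ i, ∀ y ∈ t i, y.lab = x.lab ∨ y.lab = a ∨ y.lab = b ∨ y.lab = c) :
    Fresh C t := by
  intro i y hy z hz e
  obtain ⟨h1, h2, h3, h4⟩ := hC z hz
  rcases ht i y hy with h | h | h | h
  · exact h1 (e.trans h)
  · exact h2 (e.trans h)
  · exact h3 (e.trans h)
  · exact h4 (e.trans h)

/-- A trefoil passes one letter. -/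
lemma slide_one {u v : List Ltr} {x : Ltr} (hw : IsCode (u ++ x :: v)) {a b c : ℕ} (hab : a ≠ b)
    (hbc : b ≠ c) (hac : a ≠ c)
    (h : ∀ y ∈ u ++ x :: v, y.lab ≠ a ∧ y.lab ≠ b ∧ y.lab ≠ c) :
    LEq (u ++ x :: (tref a b c ++ v)) (u ++ (tref a b c ++ x :: v)) := by
  have hx := h x (by simp)
  have hinj : Function.Injective ![a, b, c, x.lab] := by
    obtain ⟨h1, h2, h3⟩ := hx
    intro i j e
    fin_cases i <;> fin_cases j <;> simp at e <;> first | rfl | exact absurd e ‹_› |
      exact absurd e.symm ‹_›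
  have hT := tref_slide ![a, b, c, x.lab] hinj x.ov x.pos
  simp only [Matrix.cons_val_zero, Matrix.cons_val_one, Matrix.cons_val] at hT
  have ht : ∀ i, ∀ y ∈ (![tref a b c ++ [x], [⟨x.lab, !x.ov, x.pos⟩]] : Fin 2 → List Ltr) i,
      y.lab = x.lab ∨ y.lab = a ∨ y.lab = b ∨ y.lab = c := by
    intro i y hy
    fin_cases i
    · simp only [Fin.zero_eta, Matrix.cons_val_zero, List.mem_append, List.mem_singleton] at hy
      rcases hy with hy | rfl
      · exact Or.inr (mem_tref hy)
      · exact Or.inl rfl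
    · simp only [Fin.mk_one, Matrix.cons_val_one, Matrix.cons_val_fin_one, List.mem_singleton] at hy
      subst hy
      exact Or.inl rfl
  have ht' : ∀ i, ∀ y ∈ (![x :: tref a b c, [⟨x.lab, !x.ov, x.pos⟩]] : Fin 2 → List Ltr) i,
      y.lab = x.lab ∨ y.lab = a ∨ y.lab = b ∨ y.lab = c := by
    intro i y hy
    fin_cases i
    · simp only [Fin.zero_eta, Matrix.cons_val_zero, List.mem_cons] at hy
      rcases hy with rfl | hy
      · exact Or.inl rfl
      · exact Or.inr (mem_tref hy)
    · simp only [Fin.mk_one, Matrix.cons_val_one, Matrix.cons_val_fin_one, List.mem_singleton] at hy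
      subst hy
      exact Or.inl rfl
  rcases tref_partner_split hw with ⟨v₁, v₂, rfl, h1, h2, h3⟩ | ⟨u₁, u₂, rfl, h1, h2, h3⟩
  · have hC : ∀ y, Sum.inl y ∈ (u.map Sum.inl ++ (Sum.inr 0 : Ltr ⊕ Fin 2) :: (v₁.map Sum.inl ++
        (Sum.inr 1 : Ltr ⊕ Fin 2) :: v₂.map Sum.inl)) →
        y.lab ≠ x.lab ∧ y.lab ≠ a ∧ y.lab ≠ b ∧ y.lab ≠ c := by
      intro y hy
      simp only [List.mem_append, List.mem_map, Sum.inl.injEq, exists_eq_right, List.mem_cons,
        reduceCtorEq, false_or] at hy
      rcases hy with hy | hy | hy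
      · exact ⟨h1 y hy, h y (by simp [hy])⟩
      · exact ⟨h2 y hy, h y (by simp [hy])⟩
      · exact ⟨h3 y hy, h y (by simp [hy])⟩
    have := hT.symm _ (tref_isTmpl_two u v₁ v₂) (tref_fresh_two hC ht') (tref_fresh_two hC ht)
    simpa using this
  · have hC : ∀ y, Sum.inl y ∈ (u₁.map Sum.inl ++ (Sum.inr 1 : Ltr ⊕ Fin 2) :: (u₂.map Sum.inl ++
        (Sum.inr 0 : Ltr ⊕ Fin 2) :: v.map Sum.inl)) →
        y.lab ≠ x.lab ∧ y.lab ≠ a ∧ y.lab ≠ b ∧ y.lab ≠ c := by
      intro y hy
      simp only [List.mem_append, List.mem_map, Sum.inl.injEq, exists_eq_right, List.mem_cons,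
        reduceCtorEq, false_or] at hy
      rcases hy with hy | hy | hy
      · exact ⟨h2 y hy, h y (by simp [hy])⟩
      · exact ⟨h3 y hy, h y (by simp [hy])⟩
      · exact ⟨h1 y hy, h y (by simp [hy])⟩
    have := hT.symm _ (tref_isTmpl_two' u₁ u₂ v) (tref_fresh_two hC ht') (tref_fresh_two hC ht)
    simpa using this

/-- A trefoil at the base point has canonical labels. -/
lemma tref_front {w : List Ltr} {a b c : ℕ} (hab : a ≠ b) (hbc : b ≠ c) (hac : a ≠ c)
    (h : ∀ x ∈ w, x.lab ≠ a ∧ x.lab ≠ b ∧ x.lab ≠ c) :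
    LEq (tref a b c ++ w) (addT w) := by
  let g : ℕ → ℕ := fun x => if x = a then 0 else if x = b then 1 else if x = c then 2 else x + 3
  have hg : Function.Injective g := by
    intro x y e
    simp only [g] at e
    split_ifs at e <;> first | (subst_vars; rfl) | omega
  have e : addT w = (tref a b c ++ w).map (Ltr.relab g) := by
    unfold addT
    rw [List.map_append, tref_relab]
    have ga : g a = 0 := by simp [g]
    have gb : g b = 1 := by simp [g, hab.symm]
    have gc : g c = 2 := by simp [g, hac.symm, hbc.symm]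
    rw [ga, gb, gc]
    congr 1
    apply List.map_congr_left
    intro x hx
    obtain ⟨h1, h2, h3⟩ := h x hx
    ext <;> simp [Ltr.relab, g, h1, h2, h3]
  rw [e]
  exact LEq.relab hg _

/-- A trefoil inserted anywhere is equivalent to a trefoil at the base point. -/
theorem slide {u v : List Ltr} (hw : IsCode (u ++ v)) {a b c : ℕ} (hab : a ≠ b) (hbc : b ≠ c)
    (hac : a ≠ c) (h : ∀ x ∈ u ++ v, x.lab ≠ a ∧ x.lab ≠ b ∧ x.lab ≠ c) :
    LEq (u ++ tref a b c ++ v) (addT (u ++ v)) := by
  induction u using List.reverseRecOn generalizing v with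
  | nil => exact tref_front hab hbc hac h
  | append_singleton u x ih =>
    have e : u ++ [x] ++ v = u ++ x :: v := by simp
    rw [e] at hw h ⊢
    have h1 := slide_one hw hab hbc hac h
    have h2 := ih hw h
    rw [List.append_assoc] at h2
    have e' : u ++ [x] ++ tref a b c ++ v = u ++ x :: (tref a b c ++ v) := by simp
    rw [e']
    exact h1.trans h2

theorem addT_addT {w : List Ltr} (hw : IsCode w) : LEq (addT (addT w)) w := by
  have _ := hw
  have hinj : Function.Injective (fun i : Fin 6 => (i : ℕ)) := Fin.val_injective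
  have hT := tref_tref (fun i : Fin 6 => (i : ℕ)) hinj
  have key := hT (([] : List Ltr).map Sum.inl ++
      (Sum.inr 0 : Ltr ⊕ Fin 1) :: (w.map (Ltr.relab (fun x => x + 3 + 3))).map Sum.inl)
    (tref_isTmpl_one _ _) ?_ ?_
  · simp only [List.map_nil, List.nil_append, fill_cons_inr, fill_map_inl,
      Matrix.cons_val_fin_one] at key
    have e : addT (addT w) = tref 0 1 2 ++ tref 3 4 5 ++
        w.map (Ltr.relab (fun x => x + 3 + 3)) := by
      unfold addT
      rw [List.map_append, tref_map_relab_relab, tref_relab, List.append_assoc]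
    rw [e]
    refine LEq.trans key (LEq.relab ?_ w).symm
    intro x y e
    simpa using e
  · rw [fresh_iff]
    intro b hb hc
    simp only [List.map_nil, List.nil_append, List.mem_cons, reduceCtorEq, false_or, List.mem_map,
      Sum.inl.injEq, exists_eq_right] at hb
    obtain ⟨y, -, rfl⟩ := hb
    obtain ⟨i, z, hz, e⟩ := mem_labs.1 hc
    have hi : i = 0 := Subsingleton.elim _ _
    subst hi
    simp only [Matrix.cons_val_fin_one, List.mem_append] at hz
    simp only [relab_lab] at e
    rcases hz with hz | hz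
    · have := mem_tref hz
      simp at this
      omega
    · have := mem_tref hz
      simp at this
      omega
  · rw [fresh_iff]
    intro b hb hc
    obtain ⟨i, z, hz, e⟩ := mem_labs.1 hc
    have hi : i = 0 := Subsingleton.elim _ _
    subst hi
    simp at hz

theorem addT_rot {a : Ltr} {w : List Ltr} (hw : IsCode (a :: w)) :
    PassEq (addT (a :: w)) (addT (w ++ [a])) := by
  have hw' : IsCode ([] ++ a.relab (· + 3) :: w.map (Ltr.relab (· + 3))) := by
    have := (tref_isCode_relab tref_add3_inj).2 hw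
    simpa using this
  have h1 := slide_one hw' (a := 0) (b := 1) (c := 2) (by decide) (by decide) (by decide) ?_
  · have e1 : addT (a :: w) = [] ++ (tref 0 1 2 ++ a.relab (· + 3) :: w.map (Ltr.relab (· + 3))) := by
      simp [addT]
    have e2 : addT (w ++ [a]) = (tref 0 1 2 ++ w.map (Ltr.relab (· + 3))) ++ [a.relab (· + 3)] := by
      simp [addT]
    rw [e1, e2]
    refine (LEq.passEq h1.symm).trans ?_
    exact Relation.EqvGen.rel _ _ (Step.rot _ _)
  · intro y hy
    simp only [List.nil_append, List.mem_cons, List.mem_map] at hy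
    rcases hy with rfl | ⟨z, -, rfl⟩ <;> simp only [relab_lab] <;> omega

theorem PassEq.addT {w w' : List Ltr} (h : PassEq w w') (hw : IsCode w) :
    PassEq (addT w) (addT w') := by
  induction h with
  | rel x y h =>
    cases h with
    | long h => exact (addT_congr h.leq).passEq
    | rot a w => exact addT_rot hw
  | refl x => exact PassEq.refl _
  | symm x y h ih => exact (ih ((PassEq.isCode_iff h).2 hw)).symm
  | trans x y z h1 h2 ih1 ih2 => exact (ih1 hw).trans (ih2 ((PassEq.isCode_iff h1).1 hw))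

/-- Equivalence of long codes up to local trefoils. -/
def WEq (w w' : List Ltr) : Prop := LEq w w' ∨ LEq w (addT w')

theorem WEq.refl (w : List Ltr) : WEq w w := Or.inl (LEq.refl w)

theorem WEq.symm {w w' : List Ltr} (hw : IsCode w') (h : WEq w w') : WEq w' w := by
  rcases h with h | h
  · exact Or.inl h.symm
  · exact Or.inr (((addT_congr h).trans (addT_addT hw)).symm)

theorem WEq.trans {w w' w'' : List Ltr} (hw : IsCode w'') (h : WEq w w') (h' : WEq w' w'') :
    WEq w w'' := by
  rcases h with h | h <;> rcases h' with h' | h'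
  · exact Or.inl (h.trans h')
  · exact Or.inr (h.trans h')
  · exact Or.inr (h.trans (addT_congr h'))
  · exact Or.inl (h.trans ((addT_congr h').trans (addT_addT hw)))

lemma WEq.congr {w w' u u' : List Ltr} (h : LEq w u) (h' : LEq w' u') (hu : WEq u u') :
    WEq w w' := by
  rcases hu with hu | hu
  · exact Or.inl ((h.trans hu).trans h'.symm)
  · exact Or.inr ((h.trans hu).trans (addT_congr h'.symm))

/-- Families of words interchangeable up to local trefoils. -/
def TEqM {k : ℕ} (t t' : Fin k → List Ltr) : Prop :=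
  Balanced t ∧ Balanced t' ∧
  ∀ C : List (Ltr ⊕ Fin k), IsTmpl C → Fresh C t → Fresh C t' → IsCode (ctx C) →
    WEq (fill C t) (fill C t')

theorem TEq.toM {k : ℕ} {t t' : Fin k → List Ltr} (h : TEq t t') (hb : Balanced t)
    (hb' : Balanced t') : TEqM t t' :=
  ⟨hb, hb', fun C hC h1 h2 _ => Or.inl (h C hC h1 h2)⟩

theorem TEqM.symm {k : ℕ} {t t' : Fin k → List Ltr} (h : TEqM t t') : TEqM t' t :=
  ⟨h.2.1, h.1, fun C hC h1 h2 hc =>
    WEq.symm ((isCode_fill_iff hC h1 h.2.1).2 hc) (h.2.2 C hC h2 h1 hc)⟩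

/-- Moving the labels of the template away from a finite set. -/
lemma weq_of_shift {k : ℕ} {t t' : Fin k → List Ltr} {C : List (Ltr ⊕ Fin k)}
    (N : ℕ)
    (H : ∀ M, N ≤ M → (∀ x ∈ labs t ∪ labs t', x < M) →
      WEq (fill (tmap (Ltr.relab (shiftOff (labs t ∪ labs t') M)) C) t)
        (fill (tmap (Ltr.relab (shiftOff (labs t ∪ labs t') M)) C) t')) :
    WEq (fill C t) (fill C t') := by
  set S := labs t ∪ labs t' with hS
  obtain ⟨M, hM⟩ : ∃ M, N ≤ M ∧ ∀ x ∈ S, x < M := by
    refine ⟨max N (S.sup id + 1), le_max_left _ _, fun x hx => ?_⟩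
    have : x ≤ S.sup id := Finset.le_sup (f := id) hx
    exact lt_of_lt_of_le (Nat.lt_succ_of_le this) (le_max_right _ _)
  have hinj := shiftOff_inj hM.2
  have hid : ∀ x ∈ S, shiftOff S M x = x := fun x hx => by simp [shiftOff, hx]
  have e1 : (fill C t).map (Ltr.relab (shiftOff S M)) =
      fill (tmap (Ltr.relab (shiftOff S M)) C) t := by
    rw [← fill_tmap]
    congr 1
    funext i
    exact map_relab_eq hid (fun a ha => Finset.mem_union_left _ (labIn_labs t i a ha))
  have e2 : (fill C t').map (Ltr.relab (shiftOff S M)) =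
      fill (tmap (Ltr.relab (shiftOff S M)) C) t' := by
    rw [← fill_tmap]
    congr 1
    funext i
    exact map_relab_eq hid (fun a ha => Finset.mem_union_right _ (labIn_labs t' i a ha))
  have := H M hM.1 hM.2
  rw [← e1, ← e2] at this
  exact WEq.congr (LEq.relab hinj _) (LEq.relab hinj _) this

theorem TEqM.trans {k : ℕ} {t t' t'' : Fin k → List Ltr} (h : TEqM t t') (h' : TEqM t' t'') :
    TEqM t t'' := by
  refine ⟨h.1, h'.2.1, ?_⟩
  intro C hC h1 h2 hc
  refine weq_of_shift ((labs t').sup id + 1) (fun M hN hM => ?_)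
  set S := labs t ∪ labs t''
  have hlab : ∀ b, Sum.inl b ∈ tmap (Ltr.relab (shiftOff S M)) C → M ≤ b.lab := by
    intro b hb
    obtain ⟨a, ha, rfl⟩ := mem_tmap_inl hb
    have : a.lab ∉ S := by
      simp only [S, Finset.mem_union, not_or]
      exact ⟨fresh_iff.1 h1 a ha, fresh_iff.1 h2 a ha⟩
    simp [shiftOff, this]
  have hT : IsTmpl (tmap (Ltr.relab (shiftOff S M)) C) := hC.tmap _
  have f1 : Fresh (tmap (Ltr.relab (shiftOff S M)) C) t := by
    rw [fresh_iff]; intro b hb hc
    have := hM _ (Finset.mem_union_left _ hc); have := hlab b hb; omega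
  have f3 : Fresh (tmap (Ltr.relab (shiftOff S M)) C) t'' := by
    rw [fresh_iff]; intro b hb hc
    have := hM _ (Finset.mem_union_right _ hc); have := hlab b hb; omega
  have f2 : Fresh (tmap (Ltr.relab (shiftOff S M)) C) t' := by
    rw [fresh_iff]; intro b hb hc
    have h3 : b.lab ≤ (labs t').sup id := Finset.le_sup (f := id) hc
    have := hlab b hb; omega
  have hc' : IsCode (ctx (tmap (Ltr.relab (shiftOff S M)) C)) := by
    rw [tref_ctx_tmap]
    exact (tref_isCode_relab (shiftOff_inj hM)).2 hc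
  exact WEq.trans ((isCode_fill_iff hT f3 h'.2.1).2 hc') (h.2.2 _ hT f1 f2 hc')
    (h'.2.2 _ hT f2 f3 hc')

lemma tref_mem_fill_of_mem_holes {k : ℕ} (E : List (Ltr ⊕ Fin k)) (u : Fin k → List Ltr) (i : Fin k)
    (hi : i ∈ holes E) : ∀ a ∈ u i, a ∈ fill E u := by
  intro a ha
  induction E with
  | nil => simp at hi
  | cons x E ih =>
    cases x with
    | inl b => simp only [holes_cons_inl] at hi; simp [ih hi]
    | inr l =>
      simp only [holes_cons_inr, List.mem_cons] at hi
      rcases hi with rfl | hi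
      · simp [ha]
      · simp [ih hi]

lemma tref_fresh_comp {k k' : ℕ} {s : Fin k → List Ltr} {C : List (Ltr ⊕ Fin k')}
    {D : Fin k' → List (Ltr ⊕ Fin k)}
    (hD : ((List.finRange k').flatMap (fun j => holes (D j))).Perm (List.finRange k))
    (h1 : ∀ j, Fresh (D j) s) (f1 : Fresh C (fun j => fill (D j) s)) : Fresh (comp C D) s := by
  intro i a ha b hb
  rcases mem_comp_inl hb with hb | ⟨j, hb⟩
  · have : i ∈ (List.finRange k').flatMap (fun j => holes (D j)) :=
      hD.mem_iff.2 (List.mem_finRange i)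
    obtain ⟨j, _, hj⟩ := List.mem_flatMap.1 this
    exact f1 j a (tref_mem_fill_of_mem_holes _ _ i hj a ha) b hb
  · exact h1 j i a ha b hb

theorem TEqM.lift' {k k' : ℕ} {s s' : Fin k → List Ltr} (h : TEqM s s')
    (D : Fin k' → List (Ltr ⊕ Fin k)) (u u' : Fin k' → List Ltr)
    (hD : ((List.finRange k').flatMap (fun j => holes (D j))).Perm (List.finRange k))
    (h1 : ∀ j, Fresh (D j) s) (h2 : ∀ j, Fresh (D j) s')
    (e1 : ∀ j, fill (D j) s = u j) (e2 : ∀ j, fill (D j) s' = u' j)
    (hu : Balanced u) (hu' : Balanced u') : TEqM u u' := by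
  refine ⟨hu, hu', ?_⟩
  obtain rfl := funext e1
  obtain rfl := funext e2
  intro C hC f1 f2 hc
  have g1 := tref_fresh_comp hD h1 f1
  have g2 := tref_fresh_comp hD h2 f2
  have hT : IsTmpl (comp C D) := hC.comp hD
  have hcode : IsCode (ctx (comp C D)) := by
    rw [← isCode_fill_iff hT g1 h.1, fill_comp, isCode_fill_iff hC f1 hu]
    exact hc
  rw [← fill_comp, ← fill_comp]
  exact h.2.2 _ hT g1 g2 hcode

lemma Balanced.relab {k : ℕ} {t : Fin k → List Ltr} (h : Balanced t) {f : ℕ → ℕ}
    (hf : Set.InjOn f (labs t : Finset ℕ)) :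
    Balanced (fun i => (t i).map (Ltr.relab f)) := by
  intro c hc l hl
  obtain ⟨i, a, ha, rfl⟩ := mem_labs.1 hc
  obtain ⟨a', ha', rfl⟩ := List.mem_map.1 ha
  have hm : a'.lab ∈ labs t := mem_labs.2 ⟨i, a', ha', rfl⟩
  obtain ⟨o, s, e⟩ := h a'.lab hm l hl
  refine ⟨o, s, ?_⟩
  have key : ∀ i, ((t i).map (Ltr.relab f)).filter (fun a => a.lab = (a'.relab f).lab) =
      ((t i).filter (fun a => a.lab = a'.lab)).map (Ltr.relab f) := by
    intro i
    rw [List.filter_map]
    congr 1
    apply List.filter_congr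
    intro x hx
    have hx' : x.lab ∈ labs t := mem_labs.2 ⟨i, x, hx, rfl⟩
    simp only [Function.comp_apply, relab_lab]
    apply decide_eq_decide.2
    constructor
    · intro e; exact hf (Finset.mem_coe.2 hx') (Finset.mem_coe.2 hm) e
    · intro e; rw [e]
  simp only [key]
  rw [← List.map_flatMap, e]
  rfl

theorem TEqM.relab {k : ℕ} {t t' : Fin k → List Ltr} (h : TEqM t t') {f : ℕ → ℕ}
    (hf : Set.InjOn f (labs t ∪ labs t' : Finset ℕ)) :
    TEqM (fun i => (t i).map (Ltr.relab f)) (fun i => (t' i).map (Ltr.relab f)) := by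
  classical
  refine ⟨h.1.relab (hf.mono (by simp)), h.2.1.relab (hf.mono (by simp)), ?_⟩
  intro C hC h1 h2 hc
  set S := labs t ∪ labs t' with hS
  obtain ⟨M, hM⟩ : ∃ M, ∀ x ∈ S, x < M :=
    ⟨S.sup id + 1, fun x hx => Nat.lt_succ_of_le (Finset.le_sup (f := id) hx)⟩
  -- inverse relabelling
  let g : ℕ → ℕ := fun x => if hx : ∃ i ∈ S, f i = x then hx.choose else x + M
  have hg : ∀ i ∈ S, g (f i) = i := by
    intro i hi
    have hx : ∃ j ∈ S, f j = f i := ⟨i, hi, rfl⟩
    simp only [g, dif_pos hx]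
    exact hf (Finset.mem_coe.2 hx.choose_spec.1) (Finset.mem_coe.2 hi) hx.choose_spec.2
  have hgS : ∀ x, (∃ i ∈ S, f i = x) → g x ∈ S := by
    rintro x ⟨i, hi, rfl⟩; rw [hg i hi]; exact hi
  have hgn : ∀ x, (¬ ∃ i ∈ S, f i = x) → g x = x + M := by
    intro x hx; simp only [g, dif_neg hx]
  have hinj : Function.Injective g := by
    intro x y e
    by_cases hx : ∃ i ∈ S, f i = x
    · obtain ⟨i, hi, rfl⟩ := hx
      by_cases hy : ∃ i ∈ S, f i = y
      · obtain ⟨j, hj, rfl⟩ := hy
        rw [hg i hi, hg j hj] at e; rw [e]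
      · rw [hg i hi, hgn y hy] at e
        have := hM i hi; omega
    · by_cases hy : ∃ i ∈ S, f i = y
      · obtain ⟨j, hj, rfl⟩ := hy
        rw [hg j hj, hgn x hx] at e
        have := hM j hj; omega
      · rw [hgn x hx, hgn y hy] at e; omega
  have key : ∀ u : Fin k → List Ltr, (∀ c ∈ labs u, c ∈ S) →
      (fill C (fun i => (u i).map (Ltr.relab f))).map (Ltr.relab g) =
        fill (tmap (Ltr.relab g) C) u := by
    intro u hu
    rw [← fill_tmap]
    congr 1
    funext i
    rw [List.map_map]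
    conv_rhs => rw [← List.map_id (u i)]
    apply List.map_congr_left
    intro a ha
    have : a.lab ∈ S := hu _ (labIn_labs u i a ha)
    ext <;> simp [Ltr.relab, hg _ this]
  have k1 := key t (fun c hc => Finset.mem_union_left _ hc)
  have k2 := key t' (fun c hc => Finset.mem_union_right _ hc)
  have hCl : ∀ b, Sum.inl b ∈ C → (¬ ∃ i ∈ S, f i = b.lab) := by
    rintro b hb ⟨i, hi, e⟩
    rcases Finset.mem_union.1 hi with hi | hi
    · obtain ⟨j, a, ha, rfl⟩ := mem_labs.1 hi
      exact h1 j (a.relab f) (List.mem_map.2 ⟨a, ha, rfl⟩) b hb e.symm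
    · obtain ⟨j, a, ha, rfl⟩ := mem_labs.1 hi
      exact h2 j (a.relab f) (List.mem_map.2 ⟨a, ha, rfl⟩) b hb e.symm
  have hlab : ∀ b, Sum.inl b ∈ tmap (Ltr.relab g) C → M ≤ b.lab := by
    intro b hb
    obtain ⟨a, ha, rfl⟩ := mem_tmap_inl hb
    simp only [relab_lab, hgn _ (hCl a ha)]; omega
  have f1 : Fresh (tmap (Ltr.relab g) C) t := by
    rw [fresh_iff]; intro b hb hc
    have := hM _ (Finset.mem_union_left _ hc); have := hlab b hb; omega
  have f2 : Fresh (tmap (Ltr.relab g) C) t' := by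
    rw [fresh_iff]; intro b hb hc
    have := hM _ (Finset.mem_union_right _ hc); have := hlab b hb; omega
  have hc' : IsCode (ctx (tmap (Ltr.relab g) C)) := by
    rw [tref_ctx_tmap]
    exact (tref_isCode_relab hinj).2 hc
  have := h.2.2 _ (hC.tmap _) f1 f2 hc'
  rw [← k1, ← k2] at this
  exact WEq.congr (LEq.relab hinj _) (LEq.relab hinj _) this

end VPass
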