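import Pool.Agent.VPass.Seen
import Pool.Agent.VPass.Tref
import Pool.Agent.VPass.LSum

/-!
# The inverse of the classification map: definitions
-/

namespace VPass

/-- The corrected bit of a decorated flat diagram. -/
def nbit (D : Deco) : ZMod 2 :=
  D.β + arf D.w + (if D.h then dot D.w false (fun _ => false) true else 0)

/-- The Gauss code of a decorated flat diagram: its realisation, with a local trefoil if the
corrected bit is `1`. -/
def Psi (D : Deco) : List Ltr := if nbit D = 0 then real D.w else addT (real D.w)

theorem zmod2_cases (x : ZMod 2) : x = 0 ∨ x = 1 := by
  revert x; decide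

theorem Psi_dec (w : List Ltr) : Psi (dec w) = w := by
  have h : nbit (dec w) = 0 := by
    have h2 : ∀ x : ZMod 2, x + x = 0 := by decide
    simp [nbit, dec, h2]
  simp only [Psi, h, if_true]
  exact real_mk w

end VPass
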