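import Pool.Agent.VPass.ArfInv

/-!
# Change of the base point, and addition of the curve

MODULE RotStep.
-/

namespace VPass

/-- the decorated flat code after moving the base point past the first letter -/
def rotw (a : DLtr) (w : List DLtr) : List DLtr :=
  (w ++ [a]).map (fun b => ⟨b.lab, b.tail, xor b.mark (b.lab = a.lab)⟩)

/-- the change of the marks at the label `c` -/
def rg (c : ℕ) (b : DLtr) : DLtr := ⟨b.lab, b.tail, xor b.mark (b.lab = c)⟩

lemma rotw_eq (a : DLtr) (w : List DLtr) : rotw a w = w.map (rg a.lab) ++ [rg a.lab a] := by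
  simp [rotw, rg]

/-- the other letter of the crossing of the first letter -/
lemma filter_first {a : DLtr} {w : List DLtr} (hD : IsDCode (a :: w)) :
    w.filter (fun b => b.lab = a.lab) = [⟨a.lab, !a.tail, a.mark⟩] := by
  rcases hD a.lab with h | ⟨t, m, h⟩
  · rw [List.filter_cons_of_pos (by simp)] at h
    simp at h
  · rw [List.filter_cons_of_pos (by simp)] at h
    rw [List.cons.injEq] at h
    obtain ⟨h1, h2⟩ := h
    rw [h2]
    have h3 : a.tail = t := by rw [h1]
    have h4 : a.mark = m := by rw [h1]
    rw [h3, h4]

lemma filter_other {a : DLtr} {w : List DLtr} (hD : IsDCode (a :: w)) {d : ℕ} (hd : d ≠ a.lab) :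
    w.filter (fun b => b.lab = d) = [] ∨
      ∃ t m, w.filter (fun b => b.lab = d) = [⟨d, t, m⟩, ⟨d, !t, m⟩] := by
  have h := hD d
  rw [List.filter_cons_of_neg (by simpa using Ne.symm hd)] at h
  exact h

/-! ### The realisation -/

lemma smap_rg_none (f : Bool → DLtr → Ltr) (c : ℕ) (w : List DLtr)
    (hw : w.filter (fun b => b.lab = c) = []) :
    ∀ s s' : List ℕ, (∀ x, x ≠ c → (x ∈ s ↔ x ∈ s')) →
      smap DLtr.lab f s (w.map (rg c)) = smap DLtr.lab f s' w := by
  induction w with
  | nil => intros; rfl
  | cons b w ih =>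
    intro s s' hs
    have hb : b.lab ≠ c := by
      intro h
      rw [List.filter_cons_of_pos (by simpa using h)] at hw
      simp at hw
    rw [List.filter_cons_of_neg (by simpa using hb)] at hw
    have e : rg c b = b := by
      ext <;> simp [rg, hb]
    rw [List.map_cons, smap, smap, e, ih hw (b.lab :: s) (b.lab :: s')]
    · congr 2
      exact decide_eq_decide.2 (hs _ hb)
    · intro x hx
      simp only [List.mem_cons, hs x hx]

lemma smap_rg_one (c : ℕ) (a' : DLtr) (w : List DLtr)
    (hw : w.filter (fun b => b.lab = c) = [a']) :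
    ∀ s s' : List ℕ, c ∉ s → c ∈ s' → (∀ x, x ≠ c → (x ∈ s ↔ x ∈ s')) →
      smap DLtr.lab (fun seen a =>
          let ov := if seen then a.mark else !a.mark
          (⟨a.lab, ov, a.tail == ov⟩ : Ltr)) s (w.map (rg c)) =
        smap DLtr.lab (fun seen a =>
          let ov := if seen then a.mark else !a.mark
          (⟨a.lab, ov, a.tail == ov⟩ : Ltr)) s' w := by
  induction w with
  | nil => simp at hw
  | cons b w ih =>
    intro s s' hs hs' hss
    by_cases hb : b.lab = c
    · rw [List.filter_cons_of_pos (by simpa using hb), List.cons.injEq] at hw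
      rw [List.map_cons, smap, smap, smap_rg_none _ c w hw.2 ((rg c b).lab :: s) (b.lab :: s')]
      · congr 1
        have e1 : (rg c b).lab = c := hb
        rw [e1, hb]
        simp [hs, hs', rg, hb]
      · intro x hx
        have e1 : (rg c b).lab = c := hb
        rw [e1, hb]
        simp only [List.mem_cons, hss x hx]
    · rw [List.filter_cons_of_neg (by simpa using hb)] at hw
      have e : rg c b = b := by
        ext <;> simp [rg, hb]
      rw [List.map_cons, smap, smap, e, ih hw (b.lab :: s) (b.lab :: s')]
      · congr 2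
        have : b.lab ∈ s ↔ b.lab ∈ s' := hss _ hb
        simp only [this]
      · simp [hs, Ne.symm hb]
      · simp [hs']
      · intro x hx
        simp only [List.mem_cons, hss x hx]

lemma smap_append {α β : Type*} (lab : α → ℕ) (f : Bool → α → β) (u v : List α) :
    ∀ s : List ℕ, ∃ s' : List ℕ, (∀ x, x ∈ s' ↔ x ∈ s ∨ x ∈ u.map lab) ∧
      smap lab f s (u ++ v) = smap lab f s u ++ smap lab f s' v := by
  induction u with
  | nil => intro s; exact ⟨s, by simp, rfl⟩
  | cons a u ih =>
    intro s
    obtain ⟨s', h1, h2⟩ := ih (lab a :: s)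
    refine ⟨s', ?_, ?_⟩
    · intro x
      rw [h1]
      simp only [List.mem_cons, List.map_cons]
      tauto
    · rw [List.cons_append, smap, smap, h2, List.cons_append]

theorem real_rot {a : DLtr} {w : List DLtr} (hD : IsDCode (a :: w)) :
    ∃ (x : Ltr) (v : List Ltr), real (a :: w) = x :: v ∧ real (rotw a w) = v ++ [x] := by
  have hf := filter_first hD
  have hmem : a.lab ∈ (w.map (rg a.lab)).map DLtr.lab := by
    have h1 : (⟨a.lab, !a.tail, a.mark⟩ : DLtr) ∈ w.filter (fun b => b.lab = a.lab) := by
      rw [hf]; simp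
    have h2 := (List.mem_filter.1 h1).1
    rw [List.map_map, List.mem_map]
    exact ⟨_, h2, rfl⟩
  obtain ⟨s', hs', e⟩ := smap_append DLtr.lab (fun seen a =>
          let ov := if seen then a.mark else !a.mark
          (⟨a.lab, ov, a.tail == ov⟩ : Ltr)) (w.map (rg a.lab)) [rg a.lab a] []
  refine ⟨_, _, rfl, ?_⟩
  rw [rotw_eq, real, e, smap_rg_one a.lab _ w hf [] [a.lab] (by simp) (by simp)
    (by intro x hx; simp [hx])]
  congr 1
  have hin : a.lab ∈ s' := (hs' _).2 (Or.inr hmem)
  rw [smap, smap]
  congr 1
  have e1 : (rg a.lab a).lab = a.lab := rfl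
  rw [e1]
  simp [hin, rg]

/-! ### Scans -/

lemma scan_map {σ τ α β : Type*} (δ : σ → α → σ) (δ' : τ → β → τ) (F : σ → τ) (g : α → β)
    (h : ∀ s a, δ' (F s) (g a) = F (δ s a)) (w : List α) : ∀ (s : σ) (s' : τ), s' = F s →
    scan δ' s' (w.map g) = (scan δ s w).map (Prod.map F g) := by
  induction w with
  | nil => intros; rfl
  | cons a w ih =>
    intro s s' hs
    rw [List.map_cons, scan, scan, List.map_cons, ih (δ s a) _ (by rw [hs, h]), hs]
    rfl

lemma fin_map {σ τ α β : Type*} (δ : σ → α → σ) (δ' : τ → β → τ) (F : σ → τ) (g : α → β)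
    (h : ∀ s a, δ' (F s) (g a) = F (δ s a)) (w : List α) : ∀ (s : σ) (s' : τ), s' = F s →
    fin δ' s' (w.map g) = F (fin δ s w) := by
  induction w with
  | nil => intro s s' hs; exact hs
  | cons a w ih =>
    intro s s' hs
    have := ih (δ s a) (δ' s' (g a)) (by rw [hs, h])
    exact this

lemma scan_filter_snd {σ α : Type*} (lab : α → ℕ) (δ : σ → α → σ) (d : ℕ) (w : List α) :
    ∀ s : σ, ((scan δ s w).filter (fun x => lab x.2 = d)).map Prod.snd =
      w.filter (fun a => lab a = d) := by
  induction w with
  | nil => intro s; rfl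
  | cons a w ih =>
    intro s
    rw [scan]
    by_cases h : lab a = d
    · rw [List.filter_cons_of_pos (by simpa using h), List.filter_cons_of_pos (by simpa using h),
        List.map_cons, ih]
    · rw [List.filter_cons_of_neg (by simpa using h), List.filter_cons_of_neg (by simpa using h), ih]

/-- the joint scan of the cycle and of the lobe of the crossing `c` -/
def jst (c : ℕ) (s : Bool × Bool) (b : DLtr) : Bool × Bool := (xor s.1 b.mark, xor s.2 (b.lab = c))

/-- the parity of a function on the letters with equal values on the two letters of a crossing -/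
lemma sum_fiber (f : DLtr → ZMod 2) (w : List DLtr) : ∀ S : Finset ℕ, (∀ a ∈ w, a.lab ∈ S) →
    (w.map f).sum = ∑ c ∈ S, ((w.filter (fun a => a.lab = c)).map f).sum := by
  induction w with
  | nil => intro S _; simp
  | cons a w ih =>
    intro S hS
    have h1 := ih S (fun b hb => hS b (List.mem_cons_of_mem _ hb))
    have h2 : ∀ c, (((a :: w).filter (fun b => b.lab = c)).map f).sum =
        (if a.lab = c then f a else 0) + ((w.filter (fun b => b.lab = c)).map f).sum := by
      intro c
      by_cases h : a.lab = c
      · rw [List.filter_cons_of_pos (by simpa using h), if_pos h, List.map_cons, List.sum_cons]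
      · rw [List.filter_cons_of_neg (by simpa using h), if_neg h, zero_add]
    rw [List.map_cons, List.sum_cons, h1, Finset.sum_congr rfl (fun c _ => h2 c),
      Finset.sum_add_distrib, Finset.sum_ite_eq, if_pos (hS a List.mem_cons_self)]

lemma sum_even {w : List DLtr} (hD : IsDCode w) (f : DLtr → ZMod 2)
    (hf : ∀ c t m, f ⟨c, t, m⟩ = f ⟨c, !t, m⟩) : (w.map f).sum = 0 := by
  rw [sum_fiber f w (w.map DLtr.lab).toFinset (fun a ha => by
    rw [List.mem_toFinset]; exact List.mem_map_of_mem ha)]
  apply Finset.sum_eq_zero
  intro c _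
  rcases hD c with h | ⟨t, m, h⟩
  · rw [h]; rfl
  · rw [h]
    simp only [List.map_cons, List.map_nil, List.sum_cons, List.sum_nil, add_zero]
    rw [← hf c t m]
    exact CharTwo.add_self_eq_zero _

lemma bz_xor (a b : Bool) : bz (xor a b) = bz a + bz b := by
  revert a b; decide

lemma bz_inj {a b : Bool} (h : bz a = bz b) : a = b := by
  revert a b; decide

lemma fin_jst (c : ℕ) (w : List DLtr) : ∀ s : Bool × Bool,
    bz (fin (jst c) s w).1 = bz s.1 + (w.map (fun b => bz b.mark)).sum ∧
    bz (fin (jst c) s w).2 = bz s.2 + (w.map (fun b => bz (decide (b.lab = c)))).sum := by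
  induction w with
  | nil => intro s; simp [fin]
  | cons a w ih =>
    intro s
    have h := ih (jst c s a)
    have e : fin (jst c) s (a :: w) = fin (jst c) (jst c s a) w := rfl
    rw [e]
    refine ⟨h.1.trans ?_, h.2.trans ?_⟩
    · simp only [jst, bz_xor, List.map_cons, List.sum_cons, add_assoc]
    · simp only [jst, bz_xor, List.map_cons, List.sum_cons, add_assoc]

lemma fin_jst_code (c : ℕ) {w : List DLtr} (hD : IsDCode w) (s : Bool × Bool) :
    fin (jst c) s w = s := by
  have h := fin_jst c w s
  rw [sum_even hD (fun b => bz b.mark) (fun _ _ _ => rfl),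
    sum_even hD (fun b => bz (decide (b.lab = c))) (fun _ _ _ => rfl), add_zero, add_zero] at h
  exact Prod.ext (bz_inj h.1) (bz_inj h.2)

lemma jst_false (c : ℕ) (w : List DLtr) (hw : w.filter (fun b => b.lab = c) = []) :
    ∀ k : Bool, ∀ x ∈ scan (jst c) (k, false) w, x.1.2 = false := by
  induction w with
  | nil => intro k x hx; simp [scan] at hx
  | cons b w ih =>
    intro k x hx
    have hb : b.lab ≠ c := by
      intro h
      rw [List.filter_cons_of_pos (by simpa using h)] at hw
      simp at hw
    rw [List.filter_cons_of_neg (by simpa using hb)] at hw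
    rw [scan, List.mem_cons] at hx
    rcases hx with rfl | hx
    · rfl
    · have e : jst c (k, false) b = (xor k b.mark, false) := by simp [jst, hb]
      rw [e] at hx
      exact ih hw _ x hx

lemma jst_mono (c : ℕ) (w : List DLtr) (hw : (w.filter (fun b => b.lab = c)).length ≤ 1) :
    ∀ k : Bool, (scan (jst c) (k, true) w).Pairwise (fun x y => y.1.2 = true → x.1.2 = true) := by
  induction w with
  | nil => intro k; simp [scan]
  | cons b w ih =>
    intro k
    rw [scan, List.pairwise_cons]
    refine ⟨fun _ _ _ => rfl, ?_⟩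
    by_cases hb : b.lab = c
    · rw [List.filter_cons_of_pos (by simpa using hb), List.length_cons] at hw
      have hw0 : w.filter (fun b => b.lab = c) = [] := List.length_eq_zero_iff.1 (by omega)
      have e : jst c (k, true) b = (xor k b.mark, false) := by simp [jst, hb]
      rw [e]
      apply List.pairwise_of_forall_mem_list
      intro x _ y hy h
      rw [jst_false c w hw0 _ y hy] at h
      simp at h
    · rw [List.filter_cons_of_neg (by simpa using hb)] at hw
      have e : jst c (k, true) b = (xor k b.mark, true) := by simp [jst, hb]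
      rw [e]
      exact ih hw _

/-- The shape of the filtered joint scan for a label other than that of the first letter. -/
lemma joint_other {a : DLtr} {w : List DLtr} (hD : IsDCode (a :: w)) {d : ℕ} (hd : d ≠ a.lab)
    (k : Bool) :
    (scan (jst a.lab) (k, true) w).filter (fun x => x.2.lab = d) = [] ∨
      ∃ k1 l1 k2 l2 t m, (scan (jst a.lab) (k, true) w).filter (fun x => x.2.lab = d) =
        [((k1, l1), ⟨d, t, m⟩), ((k2, l2), ⟨d, !t, m⟩)] ∧ (l2 = true → l1 = true) := by
  have h1 := scan_filter_snd DLtr.lab (jst a.lab) d w (k, true)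
  have hmono := jst_mono a.lab w (by rw [filter_first hD]; simp) k
  have hmono' := hmono.filter (fun x => decide (x.2.lab = d))
  rcases filter_other hD hd with h | ⟨t, m, h⟩
  · left
    rw [h] at h1
    exact List.map_eq_nil_iff.1 h1
  · right
    rw [h] at h1
    obtain ⟨⟨⟨k1, l1⟩, p⟩, Q, hQ, hp, h2⟩ := List.map_eq_cons_iff.1 h1
    obtain ⟨⟨⟨k2, l2⟩, q⟩, R, hR, hq, h3⟩ := List.map_eq_cons_iff.1 h2
    have h4 : R = [] := List.map_eq_nil_iff.1 h3
    simp only at hp hq
    subst hp hq h4 hR
    rw [hQ] at hmono' ⊢
    refine ⟨k1, l1, k2, l2, t, m, rfl, ?_⟩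
    rw [List.pairwise_cons] at hmono'
    exact hmono'.1 _ (List.mem_cons_self)

/-- The filtered joint scan for the label of the first letter. -/
lemma joint_first {a : DLtr} {w : List DLtr} (hD : IsDCode (a :: w)) (k : Bool) :
    ∃ k1, (scan (jst a.lab) (k, true) w).filter (fun x => x.2.lab = a.lab) =
        [((k1, true), ⟨a.lab, !a.tail, a.mark⟩)] := by
  have key : ∀ (v : List DLtr) (b : DLtr), v.filter (fun b => b.lab = a.lab) = [b] → ∀ k : Bool,
      ∃ k1, (scan (jst a.lab) (k, true) v).filter (fun x => x.2.lab = a.lab) =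
        [((k1, true), b)] := by
    intro v
    induction v with
    | nil => intro b h; simp at h
    | cons b v ih =>
      intro b' h k
      by_cases hb : b.lab = a.lab
      · rw [List.filter_cons_of_pos (by simpa using hb), List.cons.injEq] at h
        rw [scan, List.filter_cons_of_pos (by simpa using hb)]
        refine ⟨k, ?_⟩
        have h2 := scan_filter_snd DLtr.lab (jst a.lab) a.lab v (jst a.lab (k, true) b)
        rw [h.2] at h2
        rw [List.map_eq_nil_iff.1 h2, h.1]
      · rw [List.filter_cons_of_neg (by simpa using hb)] at h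
        rw [scan, List.filter_cons_of_neg (by simpa using hb)]
        have e : jst a.lab (k, true) b = (xor k b.mark, true) := by simp [jst, hb]
        rw [e]
        exact ih b' h _
  exact key w _ (filter_first hD) k

lemma lsum_eq_sum {σ α : Type*} (lab : α → ℕ) (δ : σ → α → σ)
    (φ : List (σ × α) → ZMod 2) (hφ : φ [] = 0) (s : σ) (w : List α) (S : Finset ℕ)
    (hS : ∀ a ∈ w, lab a ∈ S) (P : List (σ × α)) (hP : scan δ s w = P) :
    lsum lab δ φ s w = ∑ c ∈ S, φ (P.filter (fun x => lab x.2 = c)) := by
  subst hP
  exact lsum_eq_of_subset lab δ φ hφ s w S hS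

lemma filter_map_lab {σ τ α β : Type*} (F : σ → τ) (g : α → β) (lab : α → ℕ) (lab' : β → ℕ)
    (h : ∀ a, lab' (g a) = lab a) (d : ℕ) (P : List (σ × α)) :
    (P.map (Prod.map F g)).filter (fun x => lab' x.2 = d) =
      (P.filter (fun x => lab x.2 = d)).map (Prod.map F g) := by
  rw [List.filter_map]
  congr 1
  apply List.filter_congr
  intro x _
  simp [Function.comp, h]

/-- The identity for a crossing which is not moved. -/
lemma id_other (h m k1 l1 k2 l2 t m' : Bool) (d : ℕ) (hl : l2 = true → l1 = true) :
    dotφ [((xor k1 h, l1), ((⟨d, t, m'⟩ : DLtr), false)),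
        ((xor k2 h, l2), ((⟨d, !t, m'⟩ : DLtr), false))] +
      arfφ [(xor (xor k1 l1) (!m), (⟨d, t, xor m' false⟩ : DLtr)),
        (xor (xor k2 l2) (!m), (⟨d, !t, xor m' false⟩ : DLtr))] +
      (if (!(xor h m)) = true then
        dotφ [((xor (xor k1 l1) (!m), true), ((⟨d, t, xor m' false⟩ : DLtr), false)),
          ((xor (xor k2 l2) (!m), true), ((⟨d, !t, xor m' false⟩ : DLtr), false))] else 0) =
      arfφ [(k1, (⟨d, t, m'⟩ : DLtr)), (k2, (⟨d, !t, m'⟩ : DLtr))] +
      (if h = true then dotφ [((k1, true), ((⟨d, t, m'⟩ : DLtr), false)),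
        ((k2, true), ((⟨d, !t, m'⟩ : DLtr), false))] else 0) := by
  cases h <;> cases m <;> cases k1 <;> cases l1 <;> cases k2 <;> cases l2 <;> cases t <;>
    cases m' <;> first | rfl | exact absurd (hl rfl) (by decide)

/-- The identity for the crossing which is moved. -/
lemma id_first (h m k1 t : Bool) (c : ℕ) :
    dotφ [((xor false h, false), ((⟨c, t, m⟩ : DLtr), true)),
        ((xor k1 h, true), ((⟨c, !t, m⟩ : DLtr), true))] +
      arfφ [(xor (xor k1 true) (!m), (⟨c, !t, xor m true⟩ : DLtr)),
        (!m, (⟨c, t, xor m true⟩ : DLtr))] +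
      (if (!(xor h m)) = true then
        dotφ [((xor (xor k1 true) (!m), true), ((⟨c, !t, xor m true⟩ : DLtr), false)),
          ((!m, true), ((⟨c, t, xor m true⟩ : DLtr), false))] else 0) =
      arfφ [(false, (⟨c, t, m⟩ : DLtr)), (k1, (⟨c, !t, m⟩ : DLtr))] +
      (if h = true then dotφ [((false, true), ((⟨c, t, m⟩ : DLtr), false)),
        ((k1, true), ((⟨c, !t, m⟩ : DLtr), false))] else 0) := by
  cases h <;> cases m <;> cases k1 <;> cases t <;> rfl

lemma id_curve (k1 k2 t m : Bool) (d : ℕ) :
    dotφ [((!k1, true), ((⟨d, t, m⟩ : DLtr), false)), ((!k2, true), ((⟨d, !t, m⟩ : DLtr), false))] =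
      dotφ [((k1, true), ((⟨d, t, m⟩ : DLtr), false)),
        ((k2, true), ((⟨d, !t, m⟩ : DLtr), false))] := by
  cases k1 <;> cases k2 <;> cases t <;> cases m <;> rfl

theorem nbit_rot {a : DLtr} {w : List DLtr} (hD : IsDCode (a :: w)) (h : Bool) (β : ZMod 2) :
    nbit ⟨rotw a w, !(xor h a.mark), β + dot (a :: w) h (fun b => b.lab = a.lab) false⟩ =
      nbit ⟨a :: w, h, β⟩ := by
  set P := scan (jst a.lab) (a.mark, true) w with hP
  have hJ : scan (jst a.lab) (false, false) (a :: w) = ((false, false), a) :: P := by
    rw [scan]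
    congr 1
    simp [jst, hP]
  have hend : fin (jst a.lab) (a.mark, true) w = (false, false) := by
    have h1 := fin_jst_code a.lab hD (false, false)
    have e : fin (jst a.lab) (false, false) (a :: w)
        = fin (jst a.lab) (jst a.lab (false, false) a) w := rfl
    rw [e] at h1
    have e2 : jst a.lab (false, false) a = (a.mark, true) := by simp [jst]
    rwa [e2] at h1
  set S : Finset ℕ := ((a :: w).map DLtr.lab).toFinset with hS
  have hmem : ∀ b ∈ a :: w, b.lab ∈ S := fun b hb => by
    rw [hS, List.mem_toFinset]; exact List.mem_map_of_mem hb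
  have hmemr : ∀ b ∈ w.map (rg a.lab) ++ [rg a.lab a], b.lab ∈ S := by
    intro b hb
    rw [List.mem_append, List.mem_map, List.mem_singleton] at hb
    rcases hb with ⟨b', hb', rfl⟩ | rfl
    · exact hmem b' (List.mem_cons_of_mem _ hb')
    · exact hmem a List.mem_cons_self
  -- the five sums
  have e1 : arf (a :: w) = ∑ d ∈ S, arfφ (((((false, false), a) :: P).filter
      (fun x => x.2.lab = d)).map (Prod.map Prod.fst id)) := by
    have hs : scan dstep false (a :: w) = (((false, false), a) :: P).map (Prod.map Prod.fst id) := by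
      rw [← hJ, ← scan_map (jst a.lab) dstep Prod.fst id (fun s b => rfl) (a :: w) (false, false)
        false rfl, List.map_id]
    rw [arf, lsum_eq_sum DLtr.lab dstep arfφ rfl false (a :: w) S hmem _ hs]
    apply Finset.sum_congr rfl
    intro d _
    rw [filter_map_lab Prod.fst id DLtr.lab DLtr.lab (fun _ => rfl)]
  have e2 : arf (rotw a w) = ∑ d ∈ S, arfφ ((P.filter (fun x => x.2.lab = d)).map
      (Prod.map (fun s : Bool × Bool => xor (xor s.1 s.2) (!a.mark)) (rg a.lab)) ++
        ([((!a.mark), rg a.lab a)] : List (Bool × DLtr)).filter (fun x => x.2.lab = d)) := by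
    have hst : ∀ (s : Bool × Bool) (b : DLtr),
        dstep ((fun s : Bool × Bool => xor (xor s.1 s.2) (!a.mark)) s) (rg a.lab b) =
        (fun s : Bool × Bool => xor (xor s.1 s.2) (!a.mark)) (jst a.lab s b) := by
      intro s b
      simp only [dstep, rg, jst]
      rcases s with ⟨k, l⟩
      cases k <;> cases l <;> cases b.mark <;> cases a.mark <;> cases (decide (b.lab = a.lab)) <;> rfl
    have hs : scan dstep false (w.map (rg a.lab) ++ [rg a.lab a]) =
        P.map (Prod.map (fun s : Bool × Bool => xor (xor s.1 s.2) (!a.mark)) (rg a.lab)) ++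
          [((!a.mark), rg a.lab a)] := by
      rw [lsum_scan_append, scan_map (jst a.lab) dstep _ (rg a.lab) hst w (a.mark, true) false
        (by cases a.mark <;> rfl), fin_map (jst a.lab) dstep _ (rg a.lab) hst w (a.mark, true) false
        (by cases a.mark <;> rfl), hend]
      simp [scan, hP]
    rw [rotw_eq, arf, lsum_eq_sum DLtr.lab dstep arfφ rfl false _ S hmemr _ hs]
    apply Finset.sum_congr rfl
    intro d _
    rw [List.filter_append, filter_map_lab _ (rg a.lab) DLtr.lab DLtr.lab (fun _ => rfl)]
  have e3 : dot (a :: w) h (fun b => b.lab = a.lab) false = ∑ d ∈ S,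
      dotφ (((((false, false), a) :: P).filter (fun x => x.2.lab = d)).map
        (Prod.map (fun s : Bool × Bool => (xor s.1 h, s.2))
          (fun b : DLtr => (b, decide (b.lab = a.lab))))) := by
    have hst : ∀ (s : Bool × Bool) (b : DLtr),
        dstep2 ((fun s : Bool × Bool => (xor s.1 h, s.2)) s) (b, decide (b.lab = a.lab)) =
        (fun s : Bool × Bool => (xor s.1 h, s.2)) (jst a.lab s b) := by
      intro s b
      simp only [dstep2, jst]
      rcases s with ⟨k, l⟩
      cases k <;> cases l <;> cases b.mark <;> cases h <;> rfl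
    have hs : scan dstep2 (h, false) ((a :: w).map (fun b : DLtr => (b, decide (b.lab = a.lab)))) =
        (((false, false), a) :: P).map (Prod.map (fun s : Bool × Bool => (xor s.1 h, s.2))
          (fun b : DLtr => (b, decide (b.lab = a.lab)))) := by
      rw [← hJ, scan_map (jst a.lab) dstep2 _ (fun b : DLtr => (b, decide (b.lab = a.lab))) hst
        (a :: w) (false, false) (h, false) (by cases h <;> rfl)]
    rw [dot, lsum_eq_sum _ dstep2 dotφ rfl (h, false) _ S (by
      intro x hx
      obtain ⟨b, hb, rfl⟩ := List.mem_map.1 hx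
      exact hmem b hb) _ hs]
    apply Finset.sum_congr rfl
    intro d _
    rw [filter_map_lab _ (fun b : DLtr => (b, decide (b.lab = a.lab))) DLtr.lab
      (fun x : DLtr × Bool => x.1.lab) (fun _ => rfl)]
  have e4 : dot (rotw a w) false (fun _ => false) true = ∑ d ∈ S,
      dotφ ((P.filter (fun x => x.2.lab = d)).map
        (Prod.map (fun s : Bool × Bool => (xor (xor s.1 s.2) (!a.mark), true))
          (fun b : DLtr => (rg a.lab b, false))) ++
        ([(((!a.mark), true), (rg a.lab a, false))] :
          List ((Bool × Bool) × (DLtr × Bool))).filter (fun x => x.2.1.lab = d)) := by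
    have hst : ∀ (s : Bool × Bool) (b : DLtr),
        dstep2 ((fun s : Bool × Bool => (xor (xor s.1 s.2) (!a.mark), true)) s) (rg a.lab b, false) =
        (fun s : Bool × Bool => (xor (xor s.1 s.2) (!a.mark), true)) (jst a.lab s b) := by
      intro s b
      simp only [dstep2, rg, jst]
      rcases s with ⟨k, l⟩
      cases k <;> cases l <;> cases b.mark <;> cases a.mark <;> cases (decide (b.lab = a.lab)) <;> rfl
    have hs : scan dstep2 (false, true)
        ((w.map (rg a.lab) ++ [rg a.lab a]).map (fun b : DLtr => (b, false))) =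
        P.map (Prod.map (fun s : Bool × Bool => (xor (xor s.1 s.2) (!a.mark), true))
          (fun b : DLtr => (rg a.lab b, false))) ++
          [(((!a.mark), true), (rg a.lab a, false))] := by
      rw [List.map_append, List.map_map, lsum_scan_append]
      have hc : ((fun b : DLtr => (b, false)) ∘ rg a.lab) = (fun b : DLtr => (rg a.lab b, false)) := rfl
      rw [hc, scan_map (jst a.lab) dstep2 _ (fun b : DLtr => (rg a.lab b, false)) hst w
        (a.mark, true) (false, true) (by cases a.mark <;> rfl),
        fin_map (jst a.lab) dstep2 _ (fun b : DLtr => (rg a.lab b, false)) hst w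
        (a.mark, true) (false, true) (by cases a.mark <;> rfl), hend]
      simp [scan, hP]
    rw [rotw_eq, dot, lsum_eq_sum _ dstep2 dotφ rfl (false, true) _ S (by
      intro x hx
      obtain ⟨b, hb, rfl⟩ := List.mem_map.1 hx
      exact hmemr b hb) _ hs]
    apply Finset.sum_congr rfl
    intro d _
    rw [List.filter_append, filter_map_lab _ (fun b : DLtr => (rg a.lab b, false)) DLtr.lab
      (fun x : DLtr × Bool => x.1.lab) (fun _ => rfl)]
  have e5 : dot (a :: w) false (fun _ => false) true = ∑ d ∈ S,
      dotφ (((((false, false), a) :: P).filter (fun x => x.2.lab = d)).map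
        (Prod.map (fun s : Bool × Bool => (s.1, true)) (fun b : DLtr => (b, false)))) := by
    have hst : ∀ (s : Bool × Bool) (b : DLtr),
        dstep2 ((fun s : Bool × Bool => (s.1, true)) s) (b, false) =
        (fun s : Bool × Bool => (s.1, true)) (jst a.lab s b) := by
      intro s b
      rfl
    have hs : scan dstep2 (false, true) ((a :: w).map (fun b : DLtr => (b, false))) =
        (((false, false), a) :: P).map (Prod.map (fun s : Bool × Bool => (s.1, true))
          (fun b : DLtr => (b, false))) := by
      rw [← hJ, scan_map (jst a.lab) dstep2 _ (fun b : DLtr => (b, false)) hst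
        (a :: w) (false, false) (false, true) rfl]
    rw [dot, lsum_eq_sum _ dstep2 dotφ rfl (false, true) _ S (by
      intro x hx
      obtain ⟨b, hb, rfl⟩ := List.mem_map.1 hx
      exact hmem b hb) _ hs]
    apply Finset.sum_congr rfl
    intro d _
    rw [filter_map_lab _ (fun b : DLtr => (b, false)) DLtr.lab
      (fun x : DLtr × Bool => x.1.lab) (fun _ => rfl)]
  -- the identity for one label
  have key : ∀ d ∈ S,
      dotφ (((((false, false), a) :: P).filter (fun x => x.2.lab = d)).map
        (Prod.map (fun s : Bool × Bool => (xor s.1 h, s.2))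
          (fun b : DLtr => (b, decide (b.lab = a.lab))))) +
      arfφ ((P.filter (fun x => x.2.lab = d)).map
        (Prod.map (fun s : Bool × Bool => xor (xor s.1 s.2) (!a.mark)) (rg a.lab)) ++
          ([((!a.mark), rg a.lab a)] : List (Bool × DLtr)).filter (fun x => x.2.lab = d)) +
      (if (!(xor h a.mark)) = true then dotφ ((P.filter (fun x => x.2.lab = d)).map
        (Prod.map (fun s : Bool × Bool => (xor (xor s.1 s.2) (!a.mark), true))
          (fun b : DLtr => (rg a.lab b, false))) ++
        ([(((!a.mark), true), (rg a.lab a, false))] :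
          List ((Bool × Bool) × (DLtr × Bool))).filter (fun x => x.2.1.lab = d)) else 0) =
      arfφ (((((false, false), a) :: P).filter
        (fun x => x.2.lab = d)).map (Prod.map Prod.fst id)) +
      (if h = true then dotφ (((((false, false), a) :: P).filter (fun x => x.2.lab = d)).map
        (Prod.map (fun s : Bool × Bool => (s.1, true)) (fun b : DLtr => (b, false)))) else 0) := by
    intro d _
    by_cases hd : d = a.lab
    · subst hd
      obtain ⟨k1, hk⟩ := joint_first hD a.mark
      rw [← hP] at hk
      rw [List.filter_cons_of_pos (by simp), List.filter_cons_of_pos (by simp [rg]),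
        List.filter_cons_of_pos (by simp [rg]), hk]
      simp only [List.map_cons, List.map_nil, Prod.map, List.filter_nil, List.cons_append,
        List.nil_append, rg, decide_true, id]
      exact id_first h a.mark k1 a.tail a.lab
    · rw [List.filter_cons_of_neg (by simpa using Ne.symm hd),
        List.filter_cons_of_neg (by simpa [rg] using Ne.symm hd),
        List.filter_cons_of_neg (by simpa [rg] using Ne.symm hd), List.filter_nil, List.filter_nil,
        List.append_nil, List.append_nil]
      rcases joint_other hD hd a.mark with hk | ⟨k1, l1, k2, l2, t, m', hk, hl⟩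
      · rw [← hP] at hk
        rw [hk]
        simp only [List.map_nil, arfφ, dotφ]
        simp
      · rw [← hP] at hk
        rw [hk]
        simp only [List.map_cons, List.map_nil, Prod.map, rg, id, hd, decide_false]
        exact id_other h a.mark k1 l1 k2 l2 t m' d hl
  have hsum := Finset.sum_congr (rfl : S = S) key
  simp only [nbit]
  rw [e1, e2, e3, e4, e5]
  rw [Finset.sum_add_distrib, Finset.sum_add_distrib, Finset.sum_add_distrib] at hsum
  have hif1 : ∀ (c : Prop) [Decidable c] (f : ℕ → ZMod 2),
      (∑ d ∈ S, if c then f d else 0) = if c then ∑ d ∈ S, f d else 0 := by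
    intro c _ f
    split_ifs <;> simp
  rw [hif1, hif1] at hsum
  rw [add_assoc β, add_assoc β, hsum, add_assoc]

theorem nbit_curve {w : List DLtr} (hD : IsDCode w) (h : Bool) (β : ZMod 2) :
    nbit ⟨w, !h, β + dot w h (fun _ => false) true⟩ = nbit ⟨w, h, β⟩ := by
  have hdot : dot w true (fun _ => false) true = dot w false (fun _ => false) true := by
    set P := scan dstep2 (false, true) (w.map (fun b : DLtr => (b, false))) with hP
    set S : Finset ℕ := (w.map DLtr.lab).toFinset with hS
    have hmem : ∀ x ∈ w.map (fun b : DLtr => (b, false)), x.1.lab ∈ S := by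
      intro x hx
      obtain ⟨b, hb, rfl⟩ := List.mem_map.1 hx
      rw [hS, List.mem_toFinset]; exact List.mem_map_of_mem hb
    have hG : ∀ (v : List DLtr) (k : Bool),
        ∀ x ∈ scan dstep2 (k, true) (v.map (fun b : DLtr => (b, false))), x.1.2 = true ∧ x.2.2 = false := by
      intro v
      induction v with
      | nil => intro k x hx; simp [scan] at hx
      | cons b v ih =>
        intro k x hx
        rw [List.map_cons, scan, List.mem_cons] at hx
        rcases hx with rfl | hx
        · exact ⟨rfl, rfl⟩
        · exact ih _ x hx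
    have hs : scan dstep2 (true, true) (w.map (fun b : DLtr => (b, false))) =
        P.map (Prod.map (fun s : Bool × Bool => (!s.1, s.2)) id) := by
      rw [hP, ← scan_map dstep2 dstep2 (fun s : Bool × Bool => (!s.1, s.2)) id
        (by intro s b; simp only [dstep2, id]; rcases s with ⟨k, l⟩; cases k <;> cases b.1.mark <;> rfl)
        (w.map (fun b : DLtr => (b, false))) (false, true) (true, true) rfl, List.map_id]
    rw [dot, dot, lsum_eq_sum _ dstep2 dotφ rfl (true, true) _ S hmem _ hs,
      lsum_eq_sum _ dstep2 dotφ rfl (false, true) _ S hmem P hP.symm]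
    apply Finset.sum_congr rfl
    intro d _
    rw [filter_map_lab _ id (fun x : DLtr × Bool => x.1.lab)
      (fun x : DLtr × Bool => x.1.lab) (fun _ => rfl)]
    have h1 := scan_filter_snd (fun x : DLtr × Bool => x.1.lab) dstep2 d
      (w.map (fun b : DLtr => (b, false))) (false, true)
    rw [← hP] at h1
    have h2 : (w.map (fun b : DLtr => (b, false))).filter
        (fun x : DLtr × Bool => x.1.lab = d) =
        (w.filter (fun b => b.lab = d)).map (fun b : DLtr => (b, false)) := by
      rw [List.filter_map]
      rfl
    rw [h2] at h1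
    rcases hD d with h3 | ⟨t, m, h3⟩
    · rw [h3, List.map_nil] at h1
      rw [List.map_eq_nil_iff.1 h1]
      rfl
    · rw [h3, List.map_cons, List.map_cons, List.map_nil] at h1
      obtain ⟨⟨⟨k1, l1⟩, p⟩, Q, hQ, hp, h4⟩ := List.map_eq_cons_iff.1 h1
      obtain ⟨⟨⟨k2, l2⟩, q⟩, R, hR, hq, h5⟩ := List.map_eq_cons_iff.1 h4
      have h6 : R = [] := List.map_eq_nil_iff.1 h5
      simp only at hp hq
      subst hp hq h6 hR
      have hl1 : l1 = true := by
        have : ((k1, l1), ((⟨d, t, m⟩ : DLtr), false)) ∈ P := by
          have : ((k1, l1), ((⟨d, t, m⟩ : DLtr), false)) ∈ P.filter (fun x => x.2.1.lab = d) := by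
            rw [hQ]; simp
          exact (List.mem_filter.1 this).1
        exact (hG w false _ this).1
      have hl2 : l2 = true := by
        have : ((k2, l2), ((⟨d, !t, m⟩ : DLtr), false)) ∈ P := by
          have : ((k2, l2), ((⟨d, !t, m⟩ : DLtr), false)) ∈ P.filter (fun x => x.2.1.lab = d) := by
            rw [hQ]; simp
          exact (List.mem_filter.1 this).1
        exact (hG w false _ this).1
      subst hl1 hl2
      rw [hQ]
      simp only [List.map_cons, List.map_nil, Prod.map, id]
      exact id_curve k1 k2 t m d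
  simp only [nbit]
  cases h
  · simp only [Bool.not_false, if_true, Bool.false_eq_true, if_false, add_zero]
    generalize dot w false (fun _ => false) true = x
    generalize arf w = y
    revert β x y
    decide
  · simp only [Bool.not_true, if_true, Bool.false_eq_true, if_false, add_zero]
    rw [hdot]
    ring

theorem psi_rot {a : DLtr} {w : List DLtr} (h : Bool) (β : ZMod 2) (hD : IsDCode (a :: w)) :
    PassEq (Psi ⟨a :: w, h, β⟩)
      (Psi ⟨rotw a w, !(xor h a.mark), β + dot (a :: w) h (fun b => b.lab = a.lab) false⟩) := by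
  obtain ⟨x, v, e1, e2⟩ := real_rot hD
  simp only [Psi]
  rw [nbit_rot hD, e1, e2]
  split_ifs
  · exact Relation.EqvGen.rel _ _ (Step.rot x v)
  · apply addT_rot
    rw [← e1]
    exact isCode_real hD

theorem psi_curve {w : List DLtr} (h : Bool) (β : ZMod 2) (hD : IsDCode w) :
    PassEq (Psi ⟨w, h, β⟩) (Psi ⟨w, !h, β + dot w h (fun _ => false) true⟩) := by
  simp only [Psi]
  rw [nbit_curve hD]
  exact PassEq.refl _

end VPass
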