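import Pool.Agent.VPass.Deco
import Pool.Agent.VPass.Code

/-!
# The maps `smap` (first / second letter of a crossing), `mk` and `real`

MODULE Seen.
-/

namespace VPass

/-- The realisation of a decorated flat code: unmarked crossings are descending (first letter over),
marked crossings are ascending. -/
def real (w : List DLtr) : List Ltr :=
  smap DLtr.lab (fun seen a =>
    let ov := if seen then a.mark else !a.mark
    ⟨a.lab, ov, a.tail == ov⟩) [] w

lemma seen_smap_smap {α β γ : Type*} (lab : α → ℕ) (lab' : β → ℕ) (f : Bool → α → β)
    (g : Bool → β → γ) (hl : ∀ s a, lab' (f s a) = lab a) (w : List α) (s : List ℕ) :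
    smap lab' g s (smap lab f s w) = smap lab (fun b a => g b (f b a)) s w := by
  induction w generalizing s with
  | nil => rfl
  | cons a w ih =>
    simp only [smap, hl]
    rw [ih]

lemma seen_smap_id {α : Type*} (lab : α → ℕ) (f : Bool → α → α) (hf : ∀ s a, f s a = a)
    (w : List α) (s : List ℕ) : smap lab f s w = w := by
  induction w generalizing s with
  | nil => rfl
  | cons a w ih =>
    simp only [smap, hf]
    rw [ih]

lemma seen_filter_of_mem {α β : Type*} (lab : α → ℕ) (lab' : β → ℕ) (f : Bool → α → β)
    (hl : ∀ s a, lab' (f s a) = lab a) (c : ℕ) (w : List α) (s : List ℕ) (hc : c ∈ s) :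
    (smap lab f s w).filter (fun b => lab' b = c) =
      (w.filter (fun a => lab a = c)).map (f true) := by
  induction w generalizing s with
  | nil => rfl
  | cons a w ih =>
    have h1 : c ∈ lab a :: s := List.mem_cons_of_mem _ hc
    by_cases h : lab a = c
    · have h2 : lab a ∈ s := by rw [h]; exact hc
      simp [smap, h, h2, hl, ih _ h1, List.filter_cons, hc]
      rw [← h] at ih ⊢
      exact ih _ (List.mem_cons_self)
    · simp [smap, h, hl, List.filter_cons]
      exact ih _ h1

lemma seen_filter_nil {α β : Type*} (lab : α → ℕ) (lab' : β → ℕ) (f : Bool → α → β)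
    (hl : ∀ s a, lab' (f s a) = lab a) (c : ℕ) (w : List α) (s : List ℕ)
    (hw : w.filter (fun a => lab a = c) = []) :
    (smap lab f s w).filter (fun b => lab' b = c) = [] := by
  induction w generalizing s with
  | nil => rfl
  | cons a w ih =>
    by_cases h : lab a = c
    · simp [List.filter_cons, h] at hw
    · simp only [List.filter_cons, h, decide_false, Bool.false_eq_true, if_false] at hw
      simp only [smap, List.filter_cons, hl, h, decide_false, Bool.false_eq_true, if_false]
      exact ih _ hw

lemma seen_filter_cons {α β : Type*} (lab : α → ℕ) (lab' : β → ℕ) (f : Bool → α → β)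
    (hl : ∀ s a, lab' (f s a) = lab a) (c : ℕ) (w : List α) (s : List ℕ) (hc : c ∉ s)
    {a : α} {l : List α} (hw : w.filter (fun a => lab a = c) = a :: l) :
    (smap lab f s w).filter (fun b => lab' b = c) = f false a :: l.map (f true) := by
  induction w generalizing s with
  | nil => simp at hw
  | cons b w ih =>
    by_cases h : lab b = c
    · simp only [List.filter_cons, h, decide_true, if_true, List.cons.injEq] at hw
      obtain ⟨rfl, hw⟩ := hw
      have h2 : lab b ∉ s := by rw [h]; exact hc
      simp only [smap, List.filter_cons, hl, h, decide_true, if_true, hc, decide_false]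
      rw [seen_filter_of_mem lab lab' f hl c w (c :: s) List.mem_cons_self, hw]
    · simp only [List.filter_cons, h, decide_false, Bool.false_eq_true, if_false] at hw
      simp only [smap, List.filter_cons, hl, h, decide_false, Bool.false_eq_true, if_false]
      refine ih _ ?_ hw
      simp only [List.mem_cons, not_or]
      exact ⟨fun h' => h h'.symm, hc⟩

theorem real_mk (w : List Ltr) : real (mk w) = w := by
  unfold real mk
  rw [seen_smap_smap Ltr.lab DLtr.lab _ _ (fun s a => rfl)]
  apply seen_smap_id
  rintro s ⟨c, o, p⟩
  cases s <;> cases o <;> cases p <;> rfl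

theorem mk_real (w : List DLtr) : mk (real w) = w := by
  unfold real mk
  rw [seen_smap_smap DLtr.lab Ltr.lab _ _ (fun s a => rfl)]
  apply seen_smap_id
  rintro s ⟨c, o, p⟩
  cases s <;> cases o <;> cases p <;> rfl

theorem isDCode_mk {w : List Ltr} (h : IsCode w) : IsDCode (mk w) := by
  intro c
  rcases h c with h | ⟨o, s, h⟩
  · left
    exact seen_filter_nil Ltr.lab DLtr.lab _ (fun s a => rfl) c w [] h
  · right
    refine ⟨(o == s), !o, ?_⟩
    unfold mk
    rw [seen_filter_cons Ltr.lab DLtr.lab _ (fun s a => rfl) c w [] (by simp) h]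
    cases o <;> cases s <;> rfl

theorem isCode_real {w : List DLtr} (h : IsDCode w) : IsCode (real w) := by
  intro c
  rcases h c with h | ⟨o, s, h⟩
  · left
    exact seen_filter_nil DLtr.lab Ltr.lab _ (fun s a => rfl) c w [] h
  · right
    refine ⟨!s, (o == !s), ?_⟩
    unfold real
    rw [seen_filter_cons DLtr.lab Ltr.lab _ (fun s a => rfl) c w [] (by simp) h]
    cases o <;> cases s <;> rfl

/-- The labels of the words of the holes before the hole `i`, in the order `l` of the holes. -/
def before {α : Type*} (lab : α → ℕ) {k : ℕ} (t : Fin k → List α) (l : List (Fin k)) (i : Fin k) :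
    List ℕ :=
  (l.takeWhile (fun j => j ≠ i)).flatMap (fun j => (t j).map lab)

/-- `smap` depends only on the set of labels already seen among the labels of the word. -/
theorem smap_congr {α β : Type*} (lab : α → ℕ) (f : Bool → α → β) (s s' : List ℕ) (w : List α)
    (h : ∀ a ∈ w, lab a ∈ s ↔ lab a ∈ s') : smap lab f s w = smap lab f s' w := by
  induction w generalizing s s' with
  | nil => rfl
  | cons a w ih =>
    have h1 : decide (lab a ∈ s) = decide (lab a ∈ s') := by
      rw [decide_eq_decide]
      exact h a List.mem_cons_self
    simp only [smap, h1]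
    congr 1
    apply ih
    intro b hb
    simp only [List.mem_cons]
    rw [h b (List.mem_cons_of_mem _ hb)]

lemma seen_smap_append {α β : Type*} (lab : α → ℕ) (f : Bool → α → β) (u w : List α)
    (s : List ℕ) :
    smap lab f s (u ++ w) = smap lab f s u ++ smap lab f (s ++ u.map lab) w := by
  induction u generalizing s with
  | nil => simp [smap]
  | cons a u ih =>
    simp only [List.cons_append, smap, List.map_cons, List.cons.injEq, true_and]
    rw [ih]
    congr 1
    apply smap_congr
    intro b _
    simp only [List.mem_append, List.mem_cons]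
    tauto

/-- The template of `smap_fill`. -/
def smapT {α β : Type*} (lab : α → ℕ) (f : Bool → α → β) {k : ℕ} :
    List ℕ → List (α ⊕ Fin k) → List (β ⊕ Fin k)
  | _, [] => []
  | s, Sum.inl a :: C => Sum.inl (f (decide (lab a ∈ s)) a) :: smapT lab f (lab a :: s) C
  | s, Sum.inr i :: C => Sum.inr i :: smapT lab f s C

lemma seen_holes_smapT {α β : Type*} (lab : α → ℕ) (f : Bool → α → β) {k : ℕ}
    (C : List (α ⊕ Fin k)) (s : List ℕ) : holes (smapT lab f s C) = holes C := by
  induction C generalizing s with
  | nil => rfl
  | cons x C ih =>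
    rcases x with a | i
    · simp only [smapT, holes_cons_inl]
      exact ih _
    · simp only [smapT, holes_cons_inr]
      rw [ih]

lemma seen_mem_smapT {α β : Type*} (lab : α → ℕ) (f : Bool → α → β) {k : ℕ}
    (C : List (α ⊕ Fin k)) (s : List ℕ) (b : β) (h : Sum.inl b ∈ smapT lab f s C) :
    ∃ a, Sum.inl a ∈ C ∧ ∃ s, b = f s a := by
  induction C generalizing s with
  | nil => simp [smapT] at h
  | cons x C ih =>
    rcases x with a | i
    · simp only [smapT, List.mem_cons, Sum.inl.injEq] at h
      rcases h with h | h
      · exact ⟨a, List.mem_cons_self, _, h⟩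
      · obtain ⟨a', ha', s', hs'⟩ := ih _ h
        exact ⟨a', List.mem_cons_of_mem _ ha', s', hs'⟩
    · simp only [smapT, List.mem_cons, reduceCtorEq, false_or] at h
      obtain ⟨a', ha', s', hs'⟩ := ih _ h
      exact ⟨a', List.mem_cons_of_mem _ ha', s', hs'⟩

lemma seen_fill_congr {α : Type*} {k : ℕ} (C : List (α ⊕ Fin k)) (t t' : Fin k → List α)
    (h : ∀ i ∈ holes C, t i = t' i) : fill C t = fill C t' := by
  induction C with
  | nil => rfl
  | cons x C ih =>
    rcases x with a | i
    · simp only [fill_cons_inl]
      rw [ih]
      intro i hi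
      exact h i (by rw [holes_cons_inl]; exact hi)
    · simp only [fill_cons_inr]
      rw [ih, h i (by rw [holes_cons_inr]; exact List.mem_cons_self)]
      intro j hj
      exact h j (by rw [holes_cons_inr]; exact List.mem_cons_of_mem _ hj)

lemma seen_fill_aux {α β : Type*} (lab : α → ℕ) (f : Bool → α → β) {k : ℕ}
    (C : List (α ⊕ Fin k)) (hC : (holes C).Nodup) (t : Fin k → List α)
    (h : ∀ i, ∀ a ∈ t i, ∀ b, Sum.inl b ∈ C → lab b ≠ lab a) (s s0 : List ℕ)
    (hs : ∀ b, Sum.inl b ∈ C → (lab b ∈ s ↔ lab b ∈ s0)) :
    smap lab f s (fill C t) =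
      fill (smapT lab f s0 C) (fun i => smap lab f (s ++ before lab t (holes C) i) (t i)) := by
  induction C generalizing s s0 with
  | nil => rfl
  | cons x C ih =>
    rcases x with a | i
    · have h1 : decide (lab a ∈ s) = decide (lab a ∈ s0) := by
        rw [decide_eq_decide]
        exact hs a List.mem_cons_self
      simp only [fill_cons_inl, smap, smapT, holes_cons_inl, h1]
      rw [holes_cons_inl] at hC
      congr 1
      rw [ih hC (fun i a ha b hb => h i a ha b (List.mem_cons_of_mem _ hb)) (lab a :: s)
        (lab a :: s0) ?_]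
      · apply seen_fill_congr
        intro i _
        apply smap_congr
        intro b hb
        have h2 : lab b ≠ lab a := (h i b hb a List.mem_cons_self).symm
        simp [h2]
      · intro b hb
        simp only [List.mem_cons]
        rw [hs b (List.mem_cons_of_mem _ hb)]
    · rw [holes_cons_inr, List.nodup_cons] at hC
      simp only [fill_cons_inr, smapT, holes_cons_inr]
      rw [seen_smap_append]
      congr 1
      · simp [before]
      · rw [ih hC.2 (fun i a ha b hb => h i a ha b (List.mem_cons_of_mem _ hb)) (s ++ (t i).map lab)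
          s0 ?_]
        · apply seen_fill_congr
          intro j hj
          rw [seen_holes_smapT] at hj
          have hij : i ≠ j := fun h' => hC.1 (h' ▸ hj)
          simp [before, hij, List.append_assoc]
        · intro b hb
          rw [← hs b (List.mem_cons_of_mem _ hb)]
          simp only [List.mem_append, List.mem_map]
          constructor
          · rintro (h' | ⟨c, hc, hc'⟩)
            · exact h'
            · exact absurd hc'.symm (h i c hc b (List.mem_cons_of_mem _ hb))
          · exact Or.inl

/-- `smap` of a filled template: the template letters only see the template, the words only see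
the words. -/
theorem smap_fill {α β : Type*} (lab : α → ℕ) (f : Bool → α → β) {k : ℕ} {C : List (α ⊕ Fin k)}
    (hC : IsTmpl C) {t : Fin k → List α}
    (h : ∀ i, ∀ a ∈ t i, ∀ b, Sum.inl b ∈ C → lab b ≠ lab a) :
    ∃ C' : List (β ⊕ Fin k), holes C' = holes C ∧
      (∀ b, Sum.inl b ∈ C' → ∃ a, Sum.inl a ∈ C ∧ ∃ s, b = f s a) ∧
      smap lab f [] (fill C t) =
        fill C' (fun i => smap lab f (before lab t (holes C) i) (t i)) ∧
      (∀ t' : Fin k → List α, (∀ i, ∀ a ∈ t' i, ∀ b, Sum.inl b ∈ C → lab b ≠ lab a) →
        smap lab f [] (fill C t') =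
          fill C' (fun i => smap lab f (before lab t' (holes C) i) (t' i))) := by
  have hn : (holes C).Nodup := hC.nodup_iff.mpr (List.nodup_finRange k)
  have key : ∀ t' : Fin k → List α, (∀ i, ∀ a ∈ t' i, ∀ b, Sum.inl b ∈ C → lab b ≠ lab a) →
      smap lab f [] (fill C t') =
        fill (smapT lab f [] C) (fun i => smap lab f (before lab t' (holes C) i) (t' i)) := by
    intro t' ht'
    have := seen_fill_aux lab f C hn t' ht' [] [] (fun _ _ => Iff.rfl)
    simpa using this
  exact ⟨smapT lab f [] C, seen_holes_smapT lab f C [], seen_mem_smapT lab f C [], key t h, key⟩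

end VPass
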