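import Pool.Agent.VPass.Delta

/-!
# One step of the walk of a clasp (generated)

MODULE WalkStep (helper11).
-/

namespace VPass

theorem walk_fffff : TEqM ![[⟨1, true, false⟩, ⟨0, false, false⟩], [⟨2, true, false⟩, ⟨0, true, false⟩, ⟨1, false, false⟩], [⟨2, false, false⟩]]
    ![[⟨0, false, false⟩, ⟨1, true, false⟩], [⟨2, false, true⟩], [⟨2, true, true⟩, ⟨0, true, false⟩, ⟨1, false, false⟩]] := by
  refine TEqM.trans (t' := ![[⟨1, true, false⟩, ⟨0, false, false⟩, ⟨3, true, true⟩, ⟨4, true, false⟩], [⟨2, true, false⟩, ⟨0, true, false⟩, ⟨1, false, false⟩], [⟨2, false, false⟩, ⟨3, false, true⟩, ⟨4, false, false⟩]])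
    (TEqM.byE ((RMove.r2 3 4 (by decide) true true true).teq).symm ![[Sum.inl ⟨1, true, false⟩, Sum.inl ⟨0, false, false⟩, Sum.inr 0], [Sum.inl ⟨2, true, false⟩, Sum.inl ⟨0, true, false⟩, Sum.inl ⟨1, false, false⟩], [Sum.inl ⟨2, false, false⟩, Sum.inr 1]] (by decide +kernel)) ?_
  refine TEqM.trans (t' := ![[⟨1, true, false⟩, ⟨0, true, true⟩, ⟨3, false, false⟩, ⟨4, true, false⟩], [⟨2, false, true⟩, ⟨0, false, true⟩, ⟨1, false, false⟩], [⟨2, true, true⟩, ⟨3, true, false⟩, ⟨4, false, false⟩]])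
    (TEqM.byE (flipTri ![0, 2, 3] (by decide) ![false, false, true] ![false, true, false] (by decide)) ![[Sum.inl ⟨1, true, false⟩, Sum.inr 0, Sum.inl ⟨4, true, false⟩], [Sum.inr 1, Sum.inl ⟨1, false, false⟩], [Sum.inr 2, Sum.inl ⟨4, false, false⟩]] (by decide +kernel)) ?_
  refine TEqM.trans (t' := ![[⟨3, false, false⟩, ⟨4, true, false⟩], [⟨2, false, true⟩], [⟨2, true, true⟩, ⟨3, true, false⟩, ⟨4, false, false⟩]])
    (TEqM.byE (RMove.r2 0 1 (by decide) false true false).teq ![[Sum.inr 1, Sum.inl ⟨3, false, false⟩, Sum.inl ⟨4, true, false⟩], [Sum.inl ⟨2, false, true⟩, Sum.inr 0], [Sum.inl ⟨2, true, true⟩, Sum.inl ⟨3, true, false⟩, Sum.inl ⟨4, false, false⟩]] (by decide +kernel)) ?_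
  refine TEqM.trans (t' := ![[⟨0, false, false⟩, ⟨4, true, false⟩], [⟨2, false, true⟩], [⟨2, true, true⟩, ⟨0, true, false⟩, ⟨4, false, false⟩]])
    (TEqM.swpE 3 0 (by decide +kernel)) ?_
  exact (TEqM.swpE 4 1 (by decide +kernel))

theorem walk_fffft : TEqM ![[⟨1, false, true⟩, ⟨0, true, true⟩], [⟨2, true, false⟩, ⟨0, false, true⟩, ⟨1, true, true⟩], [⟨2, false, false⟩]]
    ![[⟨0, false, false⟩, ⟨1, true, false⟩], [⟨2, false, true⟩], [⟨2, true, true⟩, ⟨0, true, false⟩, ⟨1, false, false⟩]] := by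
  refine TEqM.trans (t' := ![[⟨1, false, true⟩, ⟨0, true, true⟩, ⟨3, true, true⟩, ⟨4, true, false⟩], [⟨2, true, false⟩, ⟨0, false, true⟩, ⟨1, true, true⟩], [⟨2, false, false⟩, ⟨3, false, true⟩, ⟨4, false, false⟩]])
    (TEqM.byE ((RMove.r2 3 4 (by decide) true true true).teq).symm ![[Sum.inl ⟨1, false, true⟩, Sum.inl ⟨0, true, true⟩, Sum.inr 0], [Sum.inl ⟨2, true, false⟩, Sum.inl ⟨0, false, true⟩, Sum.inl ⟨1, true, true⟩], [Sum.inl ⟨2, false, false⟩, Sum.inr 1]] (by decide +kernel)) ?_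
  refine TEqM.trans (t' := ![[⟨1, false, true⟩, ⟨0, false, false⟩, ⟨3, false, false⟩, ⟨4, true, false⟩], [⟨2, false, true⟩, ⟨0, true, false⟩, ⟨1, true, true⟩], [⟨2, true, true⟩, ⟨3, true, false⟩, ⟨4, false, false⟩]])
    (TEqM.byE (flipTri ![0, 2, 3] (by decide) ![false, false, true] ![true, true, false] (by decide)) ![[Sum.inl ⟨1, false, true⟩, Sum.inr 0, Sum.inl ⟨4, true, false⟩], [Sum.inr 1, Sum.inl ⟨1, true, true⟩], [Sum.inr 2, Sum.inl ⟨4, false, false⟩]] (by decide +kernel)) ?_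
  refine TEqM.trans (t' := ![[⟨3, false, false⟩, ⟨4, true, false⟩], [⟨2, false, true⟩], [⟨2, true, true⟩, ⟨3, true, false⟩, ⟨4, false, false⟩]])
    (TEqM.byE (RMove.r2 0 1 (by decide) true false false).teq ![[Sum.inr 1, Sum.inl ⟨3, false, false⟩, Sum.inl ⟨4, true, false⟩], [Sum.inl ⟨2, false, true⟩, Sum.inr 0], [Sum.inl ⟨2, true, true⟩, Sum.inl ⟨3, true, false⟩, Sum.inl ⟨4, false, false⟩]] (by decide +kernel)) ?_
  refine TEqM.trans (t' := ![[⟨0, false, false⟩, ⟨4, true, false⟩], [⟨2, false, true⟩], [⟨2, true, true⟩, ⟨0, true, false⟩, ⟨4, false, false⟩]])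
    (TEqM.swpE 3 0 (by decide +kernel)) ?_
  exact (TEqM.swpE 4 1 (by decide +kernel))

theorem walk_ffftf : TEqM ![[⟨1, true, false⟩, ⟨0, false, false⟩], [⟨2, false, true⟩, ⟨0, true, false⟩, ⟨1, false, false⟩], [⟨2, true, true⟩]]
    ![[⟨0, true, true⟩, ⟨1, false, true⟩], [⟨2, true, false⟩], [⟨2, false, false⟩, ⟨0, false, true⟩, ⟨1, true, true⟩]] := by
  refine TEqM.trans (t' := ![[⟨1, true, false⟩, ⟨0, false, false⟩, ⟨3, false, false⟩, ⟨4, false, true⟩], [⟨2, false, true⟩, ⟨0, true, false⟩, ⟨1, false, false⟩], [⟨2, true, true⟩, ⟨3, true, false⟩, ⟨4, true, true⟩]])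
    (TEqM.byE ((RMove.r2 3 4 (by decide) false false true).teq).symm ![[Sum.inl ⟨1, true, false⟩, Sum.inl ⟨0, false, false⟩, Sum.inr 0], [Sum.inl ⟨2, false, true⟩, Sum.inl ⟨0, true, false⟩, Sum.inl ⟨1, false, false⟩], [Sum.inl ⟨2, true, true⟩, Sum.inr 1]] (by decide +kernel)) ?_
  refine TEqM.trans (t' := ![[⟨1, true, false⟩, ⟨0, true, true⟩, ⟨3, true, true⟩, ⟨4, false, true⟩], [⟨2, true, false⟩, ⟨0, false, true⟩, ⟨1, false, false⟩], [⟨2, false, false⟩, ⟨3, false, true⟩, ⟨4, true, true⟩]])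
    (TEqM.byE (flipTri ![0, 2, 3] (by decide) ![false, false, true] ![false, false, true] (by decide)) ![[Sum.inl ⟨1, true, false⟩, Sum.inr 0, Sum.inl ⟨4, false, true⟩], [Sum.inr 1, Sum.inl ⟨1, false, false⟩], [Sum.inr 2, Sum.inl ⟨4, true, true⟩]] (by decide +kernel)) ?_
  refine TEqM.trans (t' := ![[⟨3, true, true⟩, ⟨4, false, true⟩], [⟨2, true, false⟩], [⟨2, false, false⟩, ⟨3, false, true⟩, ⟨4, true, true⟩]])
    (TEqM.byE (RMove.r2 0 1 (by decide) false true false).teq ![[Sum.inr 1, Sum.inl ⟨3, true, true⟩, Sum.inl ⟨4, false, true⟩], [Sum.inl ⟨2, true, false⟩, Sum.inr 0], [Sum.inl ⟨2, false, false⟩, Sum.inl ⟨3, false, true⟩, Sum.inl ⟨4, true, true⟩]] (by decide +kernel)) ?_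
  refine TEqM.trans (t' := ![[⟨0, true, true⟩, ⟨4, false, true⟩], [⟨2, true, false⟩], [⟨2, false, false⟩, ⟨0, false, true⟩, ⟨4, true, true⟩]])
    (TEqM.swpE 3 0 (by decide +kernel)) ?_
  exact (TEqM.swpE 4 1 (by decide +kernel))

theorem walk_ffftt : TEqM ![[⟨1, false, true⟩, ⟨0, true, true⟩], [⟨2, false, true⟩, ⟨0, false, true⟩, ⟨1, true, true⟩], [⟨2, true, true⟩]]
    ![[⟨0, true, true⟩, ⟨1, false, true⟩], [⟨2, true, false⟩], [⟨2, false, false⟩, ⟨0, false, true⟩, ⟨1, true, true⟩]] := by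
  refine TEqM.trans (t' := ![[⟨1, false, true⟩, ⟨0, true, true⟩, ⟨3, false, false⟩, ⟨4, false, true⟩], [⟨2, false, true⟩, ⟨0, false, true⟩, ⟨1, true, true⟩], [⟨2, true, true⟩, ⟨3, true, false⟩, ⟨4, true, true⟩]])
    (TEqM.byE ((RMove.r2 3 4 (by decide) false false true).teq).symm ![[Sum.inl ⟨1, false, true⟩, Sum.inl ⟨0, true, true⟩, Sum.inr 0], [Sum.inl ⟨2, false, true⟩, Sum.inl ⟨0, false, true⟩, Sum.inl ⟨1, true, true⟩], [Sum.inl ⟨2, true, true⟩, Sum.inr 1]] (by decide +kernel)) ?_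
  refine TEqM.trans (t' := ![[⟨1, false, true⟩, ⟨0, false, false⟩, ⟨3, true, true⟩, ⟨4, false, true⟩], [⟨2, true, false⟩, ⟨0, true, false⟩, ⟨1, true, true⟩], [⟨2, false, false⟩, ⟨3, false, true⟩, ⟨4, true, true⟩]])
    (TEqM.byE (flipTri ![0, 2, 3] (by decide) ![false, false, true] ![true, false, true] (by decide)) ![[Sum.inl ⟨1, false, true⟩, Sum.inr 0, Sum.inl ⟨4, false, true⟩], [Sum.inr 1, Sum.inl ⟨1, true, true⟩], [Sum.inr 2, Sum.inl ⟨4, true, true⟩]] (by decide +kernel)) ?_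
  refine TEqM.trans (t' := ![[⟨3, true, true⟩, ⟨4, false, true⟩], [⟨2, true, false⟩], [⟨2, false, false⟩, ⟨3, false, true⟩, ⟨4, true, true⟩]])
    (TEqM.byE (RMove.r2 0 1 (by decide) true false false).teq ![[Sum.inr 1, Sum.inl ⟨3, true, true⟩, Sum.inl ⟨4, false, true⟩], [Sum.inl ⟨2, true, false⟩, Sum.inr 0], [Sum.inl ⟨2, false, false⟩, Sum.inl ⟨3, false, true⟩, Sum.inl ⟨4, true, true⟩]] (by decide +kernel)) ?_
  refine TEqM.trans (t' := ![[⟨0, true, true⟩, ⟨4, false, true⟩], [⟨2, true, false⟩], [⟨2, false, false⟩, ⟨0, false, true⟩, ⟨4, true, true⟩]])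
    (TEqM.swpE 3 0 (by decide +kernel)) ?_
  exact (TEqM.swpE 4 1 (by decide +kernel))

theorem walk_fftff : TEqM ![[⟨1, true, false⟩, ⟨0, false, false⟩], [⟨2, false, false⟩, ⟨0, true, false⟩, ⟨1, false, false⟩], [⟨2, true, false⟩]]
    ![[⟨1, true, false⟩, ⟨0, false, false⟩], [⟨2, true, true⟩], [⟨0, true, false⟩, ⟨1, false, false⟩, ⟨2, false, true⟩]] := by
  refine TEqM.trans (t' := ![[⟨1, true, false⟩, ⟨0, false, false⟩, ⟨3, false, true⟩, ⟨4, false, false⟩], [⟨2, false, false⟩, ⟨0, true, false⟩, ⟨1, false, false⟩], [⟨4, true, false⟩, ⟨3, true, true⟩, ⟨2, true, false⟩]])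
    (TEqM.byE ((RMove.r2 3 4 (by decide) false true false).teq).symm ![[Sum.inl ⟨1, true, false⟩, Sum.inl ⟨0, false, false⟩, Sum.inr 0], [Sum.inl ⟨2, false, false⟩, Sum.inl ⟨0, true, false⟩, Sum.inl ⟨1, false, false⟩], [Sum.inr 1, Sum.inl ⟨2, true, false⟩]] (by decide +kernel)) ?_
  refine TEqM.trans (t' := ![[⟨1, true, false⟩, ⟨0, true, true⟩, ⟨3, true, false⟩, ⟨4, false, false⟩], [⟨2, true, true⟩, ⟨0, false, true⟩, ⟨1, false, false⟩], [⟨4, true, false⟩, ⟨3, false, false⟩, ⟨2, false, true⟩]])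
    (TEqM.byE (flipTri ![0, 2, 3] (by decide) ![false, false, false] ![false, false, true] (by decide)) ![[Sum.inl ⟨1, true, false⟩, Sum.inr 0, Sum.inl ⟨4, false, false⟩], [Sum.inr 1, Sum.inl ⟨1, false, false⟩], [Sum.inl ⟨4, true, false⟩, Sum.inr 2]] (by decide +kernel)) ?_
  refine TEqM.trans (t' := ![[⟨3, true, false⟩, ⟨4, false, false⟩], [⟨2, true, true⟩], [⟨4, true, false⟩, ⟨3, false, false⟩, ⟨2, false, true⟩]])
    (TEqM.byE (RMove.r2 0 1 (by decide) false true false).teq ![[Sum.inr 1, Sum.inl ⟨3, true, false⟩, Sum.inl ⟨4, false, false⟩], [Sum.inl ⟨2, true, true⟩, Sum.inr 0], [Sum.inl ⟨4, true, false⟩, Sum.inl ⟨3, false, false⟩, Sum.inl ⟨2, false, true⟩]] (by decide +kernel)) ?_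
  refine TEqM.trans (t' := ![[⟨1, true, false⟩, ⟨4, false, false⟩], [⟨2, true, true⟩], [⟨4, true, false⟩, ⟨1, false, false⟩, ⟨2, false, true⟩]])
    (TEqM.swpE 3 1 (by decide +kernel)) ?_
  exact (TEqM.swpE 4 0 (by decide +kernel))

theorem walk_fftft : TEqM ![[⟨1, false, true⟩, ⟨0, true, true⟩], [⟨2, false, false⟩, ⟨0, false, true⟩, ⟨1, true, true⟩], [⟨2, true, false⟩]]
    ![[⟨1, true, false⟩, ⟨0, false, false⟩], [⟨2, true, true⟩], [⟨0, true, false⟩, ⟨1, false, false⟩, ⟨2, false, true⟩]] := by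
  refine TEqM.trans (t' := ![[⟨1, false, true⟩, ⟨0, true, true⟩, ⟨3, false, true⟩, ⟨4, false, false⟩], [⟨2, false, false⟩, ⟨0, false, true⟩, ⟨1, true, true⟩], [⟨4, true, false⟩, ⟨3, true, true⟩, ⟨2, true, false⟩]])
    (TEqM.byE ((RMove.r2 3 4 (by decide) false true false).teq).symm ![[Sum.inl ⟨1, false, true⟩, Sum.inl ⟨0, true, true⟩, Sum.inr 0], [Sum.inl ⟨2, false, false⟩, Sum.inl ⟨0, false, true⟩, Sum.inl ⟨1, true, true⟩], [Sum.inr 1, Sum.inl ⟨2, true, false⟩]] (by decide +kernel)) ?_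
  refine TEqM.trans (t' := ![[⟨1, false, true⟩, ⟨0, false, false⟩, ⟨3, true, false⟩, ⟨4, false, false⟩], [⟨2, true, true⟩, ⟨0, true, false⟩, ⟨1, true, true⟩], [⟨4, true, false⟩, ⟨3, false, false⟩, ⟨2, false, true⟩]])
    (TEqM.byE (flipTri ![0, 2, 3] (by decide) ![false, false, false] ![true, false, true] (by decide)) ![[Sum.inl ⟨1, false, true⟩, Sum.inr 0, Sum.inl ⟨4, false, false⟩], [Sum.inr 1, Sum.inl ⟨1, true, true⟩], [Sum.inl ⟨4, true, false⟩, Sum.inr 2]] (by decide +kernel)) ?_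
  refine TEqM.trans (t' := ![[⟨3, true, false⟩, ⟨4, false, false⟩], [⟨2, true, true⟩], [⟨4, true, false⟩, ⟨3, false, false⟩, ⟨2, false, true⟩]])
    (TEqM.byE (RMove.r2 0 1 (by decide) true false false).teq ![[Sum.inr 1, Sum.inl ⟨3, true, false⟩, Sum.inl ⟨4, false, false⟩], [Sum.inl ⟨2, true, true⟩, Sum.inr 0], [Sum.inl ⟨4, true, false⟩, Sum.inl ⟨3, false, false⟩, Sum.inl ⟨2, false, true⟩]] (by decide +kernel)) ?_
  refine TEqM.trans (t' := ![[⟨1, true, false⟩, ⟨4, false, false⟩], [⟨2, true, true⟩], [⟨4, true, false⟩, ⟨1, false, false⟩, ⟨2, false, true⟩]])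
    (TEqM.swpE 3 1 (by decide +kernel)) ?_
  exact (TEqM.swpE 4 0 (by decide +kernel))

theorem walk_ffttf : TEqM ![[⟨1, true, false⟩, ⟨0, false, false⟩], [⟨2, true, true⟩, ⟨0, true, false⟩, ⟨1, false, false⟩], [⟨2, false, true⟩]]
    ![[⟨1, true, false⟩, ⟨0, false, false⟩], [⟨2, false, false⟩], [⟨0, true, false⟩, ⟨1, false, false⟩, ⟨2, true, false⟩]] := by
  refine TEqM.trans (t' := ![[⟨1, true, false⟩, ⟨0, false, false⟩, ⟨3, false, true⟩, ⟨4, false, false⟩], [⟨2, true, true⟩, ⟨0, true, false⟩, ⟨1, false, false⟩], [⟨4, true, false⟩, ⟨3, true, true⟩, ⟨2, false, true⟩]])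
    (TEqM.byE ((RMove.r2 3 4 (by decide) false true false).teq).symm ![[Sum.inl ⟨1, true, false⟩, Sum.inl ⟨0, false, false⟩, Sum.inr 0], [Sum.inl ⟨2, true, true⟩, Sum.inl ⟨0, true, false⟩, Sum.inl ⟨1, false, false⟩], [Sum.inr 1, Sum.inl ⟨2, false, true⟩]] (by decide +kernel)) ?_
  refine TEqM.trans (t' := ![[⟨1, true, false⟩, ⟨0, true, true⟩, ⟨3, true, false⟩, ⟨4, false, false⟩], [⟨2, false, false⟩, ⟨0, false, true⟩, ⟨1, false, false⟩], [⟨4, true, false⟩, ⟨3, false, false⟩, ⟨2, true, false⟩]])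
    (TEqM.byE (flipTri ![0, 2, 3] (by decide) ![false, false, false] ![false, true, true] (by decide)) ![[Sum.inl ⟨1, true, false⟩, Sum.inr 0, Sum.inl ⟨4, false, false⟩], [Sum.inr 1, Sum.inl ⟨1, false, false⟩], [Sum.inl ⟨4, true, false⟩, Sum.inr 2]] (by decide +kernel)) ?_
  refine TEqM.trans (t' := ![[⟨3, true, false⟩, ⟨4, false, false⟩], [⟨2, false, false⟩], [⟨4, true, false⟩, ⟨3, false, false⟩, ⟨2, true, false⟩]])
    (TEqM.byE (RMove.r2 0 1 (by decide) false true false).teq ![[Sum.inr 1, Sum.inl ⟨3, true, false⟩, Sum.inl ⟨4, false, false⟩], [Sum.inl ⟨2, false, false⟩, Sum.inr 0], [Sum.inl ⟨4, true, false⟩, Sum.inl ⟨3, false, false⟩, Sum.inl ⟨2, true, false⟩]] (by decide +kernel)) ?_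
  refine TEqM.trans (t' := ![[⟨1, true, false⟩, ⟨4, false, false⟩], [⟨2, false, false⟩], [⟨4, true, false⟩, ⟨1, false, false⟩, ⟨2, true, false⟩]])
    (TEqM.swpE 3 1 (by decide +kernel)) ?_
  exact (TEqM.swpE 4 0 (by decide +kernel))

theorem walk_ffttt : TEqM ![[⟨1, false, true⟩, ⟨0, true, true⟩], [⟨2, true, true⟩, ⟨0, false, true⟩, ⟨1, true, true⟩], [⟨2, false, true⟩]]
    ![[⟨1, false, true⟩, ⟨0, true, true⟩], [⟨2, false, false⟩], [⟨0, false, true⟩, ⟨1, true, true⟩, ⟨2, true, false⟩]] := by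
  refine TEqM.trans (t' := ![[⟨1, false, true⟩, ⟨0, true, true⟩, ⟨3, true, false⟩, ⟨4, true, true⟩], [⟨2, true, true⟩, ⟨0, false, true⟩, ⟨1, true, true⟩], [⟨4, false, true⟩, ⟨3, false, false⟩, ⟨2, false, true⟩]])
    (TEqM.byE ((RMove.r2 3 4 (by decide) true false false).teq).symm ![[Sum.inl ⟨1, false, true⟩, Sum.inl ⟨0, true, true⟩, Sum.inr 0], [Sum.inl ⟨2, true, true⟩, Sum.inl ⟨0, false, true⟩, Sum.inl ⟨1, true, true⟩], [Sum.inr 1, Sum.inl ⟨2, false, true⟩]] (by decide +kernel)) ?_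
  refine TEqM.trans (t' := ![[⟨1, false, true⟩, ⟨0, false, false⟩, ⟨3, false, true⟩, ⟨4, true, true⟩], [⟨2, false, false⟩, ⟨0, true, false⟩, ⟨1, true, true⟩], [⟨4, false, true⟩, ⟨3, true, true⟩, ⟨2, true, false⟩]])
    (TEqM.byE (flipTri ![0, 2, 3] (by decide) ![false, false, false] ![true, true, false] (by decide)) ![[Sum.inl ⟨1, false, true⟩, Sum.inr 0, Sum.inl ⟨4, true, true⟩], [Sum.inr 1, Sum.inl ⟨1, true, true⟩], [Sum.inl ⟨4, false, true⟩, Sum.inr 2]] (by decide +kernel)) ?_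
  refine TEqM.trans (t' := ![[⟨3, false, true⟩, ⟨4, true, true⟩], [⟨2, false, false⟩], [⟨4, false, true⟩, ⟨3, true, true⟩, ⟨2, true, false⟩]])
    (TEqM.byE (RMove.r2 0 1 (by decide) true false false).teq ![[Sum.inr 1, Sum.inl ⟨3, false, true⟩, Sum.inl ⟨4, true, true⟩], [Sum.inl ⟨2, false, false⟩, Sum.inr 0], [Sum.inl ⟨4, false, true⟩, Sum.inl ⟨3, true, true⟩, Sum.inl ⟨2, true, false⟩]] (by decide +kernel)) ?_
  refine TEqM.trans (t' := ![[⟨1, false, true⟩, ⟨4, true, true⟩], [⟨2, false, false⟩], [⟨4, false, true⟩, ⟨1, true, true⟩, ⟨2, true, false⟩]])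
    (TEqM.swpE 3 1 (by decide +kernel)) ?_
  exact (TEqM.swpE 4 0 (by decide +kernel))

theorem walk_ftfff : TEqM ![[⟨0, false, false⟩, ⟨1, true, false⟩], [⟨0, true, false⟩, ⟨1, false, false⟩, ⟨2, true, false⟩], [⟨2, false, false⟩]]
    ![[⟨1, true, false⟩, ⟨0, false, false⟩], [⟨2, false, true⟩], [⟨0, true, false⟩, ⟨1, false, false⟩, ⟨2, true, true⟩]] := by
  refine TEqM.trans (t' := ![[⟨0, true, true⟩, ⟨1, false, true⟩], [⟨0, false, true⟩, ⟨1, true, true⟩, ⟨2, true, false⟩], [⟨2, false, false⟩]])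
    (TEqM.by (flipPar ![0, 1] (by decide) true false) ![[Sum.inr 0], [Sum.inr 1, Sum.inl ⟨2, true, false⟩], [Sum.inl ⟨2, false, false⟩]] (by decide +kernel)) ?_
  refine TEqM.trans (t' := ![[⟨0, true, true⟩, ⟨1, false, true⟩, ⟨3, false, true⟩, ⟨4, false, false⟩], [⟨0, false, true⟩, ⟨1, true, true⟩, ⟨2, true, false⟩], [⟨4, true, false⟩, ⟨3, true, true⟩, ⟨2, false, false⟩]])
    (TEqM.byE ((RMove.r2 3 4 (by decide) false true false).teq).symm ![[Sum.inl ⟨0, true, true⟩, Sum.inl ⟨1, false, true⟩, Sum.inr 0], [Sum.inl ⟨0, false, true⟩, Sum.inl ⟨1, true, true⟩, Sum.inl ⟨2, true, false⟩], [Sum.inr 1, Sum.inl ⟨2, false, false⟩]] (by decide +kernel)) ?_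
  refine TEqM.trans (t' := ![[⟨0, true, true⟩, ⟨1, true, false⟩, ⟨3, true, false⟩, ⟨4, false, false⟩], [⟨0, false, true⟩, ⟨1, false, false⟩, ⟨2, false, true⟩], [⟨4, true, false⟩, ⟨3, false, false⟩, ⟨2, true, true⟩]])
    (TEqM.byE (flipTri ![1, 2, 3] (by decide) ![false, true, false] ![false, true, true] (by decide)) ![[Sum.inl ⟨0, true, true⟩, Sum.inr 0, Sum.inl ⟨4, false, false⟩], [Sum.inl ⟨0, false, true⟩, Sum.inr 1], [Sum.inl ⟨4, true, false⟩, Sum.inr 2]] (by decide +kernel)) ?_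
  refine TEqM.trans (t' := ![[⟨3, true, false⟩, ⟨4, false, false⟩], [⟨2, false, true⟩], [⟨4, true, false⟩, ⟨3, false, false⟩, ⟨2, true, true⟩]])
    (TEqM.byE (RMove.r2 0 1 (by decide) false true true).teq ![[Sum.inr 1, Sum.inl ⟨3, true, false⟩, Sum.inl ⟨4, false, false⟩], [Sum.inr 0, Sum.inl ⟨2, false, true⟩], [Sum.inl ⟨4, true, false⟩, Sum.inl ⟨3, false, false⟩, Sum.inl ⟨2, true, true⟩]] (by decide +kernel)) ?_
  refine TEqM.trans (t' := ![[⟨1, true, false⟩, ⟨4, false, false⟩], [⟨2, false, true⟩], [⟨4, true, false⟩, ⟨1, false, false⟩, ⟨2, true, true⟩]])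
    (TEqM.swpE 3 1 (by decide +kernel)) ?_
  exact (TEqM.swpE 4 0 (by decide +kernel))

theorem walk_ftfft : TEqM ![[⟨0, true, true⟩, ⟨1, false, true⟩], [⟨0, false, true⟩, ⟨1, true, true⟩, ⟨2, true, false⟩], [⟨2, false, false⟩]]
    ![[⟨1, true, false⟩, ⟨0, false, false⟩], [⟨2, false, true⟩], [⟨0, true, false⟩, ⟨1, false, false⟩, ⟨2, true, true⟩]] := by
  refine TEqM.trans (t' := ![[⟨0, true, true⟩, ⟨1, false, true⟩, ⟨3, false, true⟩, ⟨4, false, false⟩], [⟨0, false, true⟩, ⟨1, true, true⟩, ⟨2, true, false⟩], [⟨4, true, false⟩, ⟨3, true, true⟩, ⟨2, false, false⟩]])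
    (TEqM.byE ((RMove.r2 3 4 (by decide) false true false).teq).symm ![[Sum.inl ⟨0, true, true⟩, Sum.inl ⟨1, false, true⟩, Sum.inr 0], [Sum.inl ⟨0, false, true⟩, Sum.inl ⟨1, true, true⟩, Sum.inl ⟨2, true, false⟩], [Sum.inr 1, Sum.inl ⟨2, false, false⟩]] (by decide +kernel)) ?_
  refine TEqM.trans (t' := ![[⟨0, true, true⟩, ⟨1, true, false⟩, ⟨3, true, false⟩, ⟨4, false, false⟩], [⟨0, false, true⟩, ⟨1, false, false⟩, ⟨2, false, true⟩], [⟨4, true, false⟩, ⟨3, false, false⟩, ⟨2, true, true⟩]])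
    (TEqM.byE (flipTri ![1, 2, 3] (by decide) ![false, true, false] ![false, true, true] (by decide)) ![[Sum.inl ⟨0, true, true⟩, Sum.inr 0, Sum.inl ⟨4, false, false⟩], [Sum.inl ⟨0, false, true⟩, Sum.inr 1], [Sum.inl ⟨4, true, false⟩, Sum.inr 2]] (by decide +kernel)) ?_
  refine TEqM.trans (t' := ![[⟨3, true, false⟩, ⟨4, false, false⟩], [⟨2, false, true⟩], [⟨4, true, false⟩, ⟨3, false, false⟩, ⟨2, true, true⟩]])
    (TEqM.byE (RMove.r2 0 1 (by decide) false true true).teq ![[Sum.inr 1, Sum.inl ⟨3, true, false⟩, Sum.inl ⟨4, false, false⟩], [Sum.inr 0, Sum.inl ⟨2, false, true⟩], [Sum.inl ⟨4, true, false⟩, Sum.inl ⟨3, false, false⟩, Sum.inl ⟨2, true, true⟩]] (by decide +kernel)) ?_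
  refine TEqM.trans (t' := ![[⟨1, true, false⟩, ⟨4, false, false⟩], [⟨2, false, true⟩], [⟨4, true, false⟩, ⟨1, false, false⟩, ⟨2, true, true⟩]])
    (TEqM.swpE 3 1 (by decide +kernel)) ?_
  exact (TEqM.swpE 4 0 (by decide +kernel))

theorem walk_ftftf : TEqM ![[⟨0, false, false⟩, ⟨1, true, false⟩], [⟨0, true, false⟩, ⟨1, false, false⟩, ⟨2, false, true⟩], [⟨2, true, true⟩]]
    ![[⟨1, true, false⟩, ⟨0, false, false⟩], [⟨2, true, false⟩], [⟨0, true, false⟩, ⟨1, false, false⟩, ⟨2, false, false⟩]] := by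
  refine TEqM.trans (t' := ![[⟨0, false, false⟩, ⟨1, true, false⟩, ⟨3, false, true⟩, ⟨4, false, false⟩], [⟨0, true, false⟩, ⟨1, false, false⟩, ⟨2, false, true⟩], [⟨4, true, false⟩, ⟨3, true, true⟩, ⟨2, true, true⟩]])
    (TEqM.byE ((RMove.r2 3 4 (by decide) false true false).teq).symm ![[Sum.inl ⟨0, false, false⟩, Sum.inl ⟨1, true, false⟩, Sum.inr 0], [Sum.inl ⟨0, true, false⟩, Sum.inl ⟨1, false, false⟩, Sum.inl ⟨2, false, true⟩], [Sum.inr 1, Sum.inl ⟨2, true, true⟩]] (by decide +kernel)) ?_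
  refine TEqM.trans (t' := ![[⟨0, false, false⟩, ⟨1, false, true⟩, ⟨3, true, false⟩, ⟨4, false, false⟩], [⟨0, true, false⟩, ⟨1, true, true⟩, ⟨2, true, false⟩], [⟨4, true, false⟩, ⟨3, false, false⟩, ⟨2, false, false⟩]])
    (TEqM.byE (flipTri ![1, 2, 3] (by decide) ![false, true, false] ![true, false, true] (by decide)) ![[Sum.inl ⟨0, false, false⟩, Sum.inr 0, Sum.inl ⟨4, false, false⟩], [Sum.inl ⟨0, true, false⟩, Sum.inr 1], [Sum.inl ⟨4, true, false⟩, Sum.inr 2]] (by decide +kernel)) ?_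
  refine TEqM.trans (t' := ![[⟨3, true, false⟩, ⟨4, false, false⟩], [⟨2, true, false⟩], [⟨4, true, false⟩, ⟨3, false, false⟩, ⟨2, false, false⟩]])
    (TEqM.byE (RMove.r2 0 1 (by decide) true false true).teq ![[Sum.inr 1, Sum.inl ⟨3, true, false⟩, Sum.inl ⟨4, false, false⟩], [Sum.inr 0, Sum.inl ⟨2, true, false⟩], [Sum.inl ⟨4, true, false⟩, Sum.inl ⟨3, false, false⟩, Sum.inl ⟨2, false, false⟩]] (by decide +kernel)) ?_
  refine TEqM.trans (t' := ![[⟨1, true, false⟩, ⟨4, false, false⟩], [⟨2, true, false⟩], [⟨4, true, false⟩, ⟨1, false, false⟩, ⟨2, false, false⟩]])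
    (TEqM.swpE 3 1 (by decide +kernel)) ?_
  exact (TEqM.swpE 4 0 (by decide +kernel))

theorem walk_ftftt : TEqM ![[⟨0, true, true⟩, ⟨1, false, true⟩], [⟨0, false, true⟩, ⟨1, true, true⟩, ⟨2, false, true⟩], [⟨2, true, true⟩]]
    ![[⟨1, true, false⟩, ⟨0, false, false⟩], [⟨2, true, false⟩], [⟨0, true, false⟩, ⟨1, false, false⟩, ⟨2, false, false⟩]] := by
  refine TEqM.trans (t' := ![[⟨0, false, false⟩, ⟨1, true, false⟩], [⟨0, true, false⟩, ⟨1, false, false⟩, ⟨2, false, true⟩], [⟨2, true, true⟩]])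
    (TEqM.by (flipPar ![0, 1] (by decide) true true) ![[Sum.inr 0], [Sum.inr 1, Sum.inl ⟨2, false, true⟩], [Sum.inl ⟨2, true, true⟩]] (by decide +kernel)) ?_
  refine TEqM.trans (t' := ![[⟨0, false, false⟩, ⟨1, true, false⟩, ⟨3, false, true⟩, ⟨4, false, false⟩], [⟨0, true, false⟩, ⟨1, false, false⟩, ⟨2, false, true⟩], [⟨4, true, false⟩, ⟨3, true, true⟩, ⟨2, true, true⟩]])
    (TEqM.byE ((RMove.r2 3 4 (by decide) false true false).teq).symm ![[Sum.inl ⟨0, false, false⟩, Sum.inl ⟨1, true, false⟩, Sum.inr 0], [Sum.inl ⟨0, true, false⟩, Sum.inl ⟨1, false, false⟩, Sum.inl ⟨2, false, true⟩], [Sum.inr 1, Sum.inl ⟨2, true, true⟩]] (by decide +kernel)) ?_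
  refine TEqM.trans (t' := ![[⟨0, false, false⟩, ⟨1, false, true⟩, ⟨3, true, false⟩, ⟨4, false, false⟩], [⟨0, true, false⟩, ⟨1, true, true⟩, ⟨2, true, false⟩], [⟨4, true, false⟩, ⟨3, false, false⟩, ⟨2, false, false⟩]])
    (TEqM.byE (flipTri ![1, 2, 3] (by decide) ![false, true, false] ![true, false, true] (by decide)) ![[Sum.inl ⟨0, false, false⟩, Sum.inr 0, Sum.inl ⟨4, false, false⟩], [Sum.inl ⟨0, true, false⟩, Sum.inr 1], [Sum.inl ⟨4, true, false⟩, Sum.inr 2]] (by decide +kernel)) ?_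
  refine TEqM.trans (t' := ![[⟨3, true, false⟩, ⟨4, false, false⟩], [⟨2, true, false⟩], [⟨4, true, false⟩, ⟨3, false, false⟩, ⟨2, false, false⟩]])
    (TEqM.byE (RMove.r2 0 1 (by decide) true false true).teq ![[Sum.inr 1, Sum.inl ⟨3, true, false⟩, Sum.inl ⟨4, false, false⟩], [Sum.inr 0, Sum.inl ⟨2, true, false⟩], [Sum.inl ⟨4, true, false⟩, Sum.inl ⟨3, false, false⟩, Sum.inl ⟨2, false, false⟩]] (by decide +kernel)) ?_
  refine TEqM.trans (t' := ![[⟨1, true, false⟩, ⟨4, false, false⟩], [⟨2, true, false⟩], [⟨4, true, false⟩, ⟨1, false, false⟩, ⟨2, false, false⟩]])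
    (TEqM.swpE 3 1 (by decide +kernel)) ?_
  exact (TEqM.swpE 4 0 (by decide +kernel))

theorem walk_fttff : TEqM ![[⟨0, false, false⟩, ⟨1, true, false⟩], [⟨0, true, false⟩, ⟨1, false, false⟩, ⟨2, false, false⟩], [⟨2, true, false⟩]]
    ![[⟨0, false, false⟩, ⟨1, true, false⟩], [⟨2, true, true⟩], [⟨2, false, true⟩, ⟨0, true, false⟩, ⟨1, false, false⟩]] := by
  refine TEqM.trans (t' := ![[⟨0, false, false⟩, ⟨1, true, false⟩, ⟨3, true, true⟩, ⟨4, true, false⟩], [⟨0, true, false⟩, ⟨1, false, false⟩, ⟨2, false, false⟩], [⟨2, true, false⟩, ⟨3, false, true⟩, ⟨4, false, false⟩]])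
    (TEqM.byE ((RMove.r2 3 4 (by decide) true true true).teq).symm ![[Sum.inl ⟨0, false, false⟩, Sum.inl ⟨1, true, false⟩, Sum.inr 0], [Sum.inl ⟨0, true, false⟩, Sum.inl ⟨1, false, false⟩, Sum.inl ⟨2, false, false⟩], [Sum.inl ⟨2, true, false⟩, Sum.inr 1]] (by decide +kernel)) ?_
  refine TEqM.trans (t' := ![[⟨0, false, false⟩, ⟨1, false, true⟩, ⟨3, false, false⟩, ⟨4, true, false⟩], [⟨0, true, false⟩, ⟨1, true, true⟩, ⟨2, true, true⟩], [⟨2, false, true⟩, ⟨3, true, false⟩, ⟨4, false, false⟩]])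
    (TEqM.byE (flipTri ![1, 2, 3] (by decide) ![false, true, true] ![true, false, false] (by decide)) ![[Sum.inl ⟨0, false, false⟩, Sum.inr 0, Sum.inl ⟨4, true, false⟩], [Sum.inl ⟨0, true, false⟩, Sum.inr 1], [Sum.inr 2, Sum.inl ⟨4, false, false⟩]] (by decide +kernel)) ?_
  refine TEqM.trans (t' := ![[⟨3, false, false⟩, ⟨4, true, false⟩], [⟨2, true, true⟩], [⟨2, false, true⟩, ⟨3, true, false⟩, ⟨4, false, false⟩]])
    (TEqM.byE (RMove.r2 0 1 (by decide) true false true).teq ![[Sum.inr 1, Sum.inl ⟨3, false, false⟩, Sum.inl ⟨4, true, false⟩], [Sum.inr 0, Sum.inl ⟨2, true, true⟩], [Sum.inl ⟨2, false, true⟩, Sum.inl ⟨3, true, false⟩, Sum.inl ⟨4, false, false⟩]] (by decide +kernel)) ?_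
  refine TEqM.trans (t' := ![[⟨0, false, false⟩, ⟨4, true, false⟩], [⟨2, true, true⟩], [⟨2, false, true⟩, ⟨0, true, false⟩, ⟨4, false, false⟩]])
    (TEqM.swpE 3 0 (by decide +kernel)) ?_
  exact (TEqM.swpE 4 1 (by decide +kernel))

theorem walk_fttft : TEqM ![[⟨0, true, true⟩, ⟨1, false, true⟩], [⟨0, false, true⟩, ⟨1, true, true⟩, ⟨2, false, false⟩], [⟨2, true, false⟩]]
    ![[⟨0, true, true⟩, ⟨1, false, true⟩], [⟨2, true, true⟩], [⟨2, false, true⟩, ⟨0, false, true⟩, ⟨1, true, true⟩]] := by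
  refine TEqM.trans (t' := ![[⟨0, true, true⟩, ⟨1, false, true⟩, ⟨3, false, false⟩, ⟨4, false, true⟩], [⟨0, false, true⟩, ⟨1, true, true⟩, ⟨2, false, false⟩], [⟨2, true, false⟩, ⟨3, true, false⟩, ⟨4, true, true⟩]])
    (TEqM.byE ((RMove.r2 3 4 (by decide) false false true).teq).symm ![[Sum.inl ⟨0, true, true⟩, Sum.inl ⟨1, false, true⟩, Sum.inr 0], [Sum.inl ⟨0, false, true⟩, Sum.inl ⟨1, true, true⟩, Sum.inl ⟨2, false, false⟩], [Sum.inl ⟨2, true, false⟩, Sum.inr 1]] (by decide +kernel)) ?_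
  refine TEqM.trans (t' := ![[⟨0, true, true⟩, ⟨1, true, false⟩, ⟨3, true, true⟩, ⟨4, false, true⟩], [⟨0, false, true⟩, ⟨1, false, false⟩, ⟨2, true, true⟩], [⟨2, false, true⟩, ⟨3, false, true⟩, ⟨4, true, true⟩]])
    (TEqM.byE (flipTri ![1, 2, 3] (by decide) ![false, true, true] ![false, false, true] (by decide)) ![[Sum.inl ⟨0, true, true⟩, Sum.inr 0, Sum.inl ⟨4, false, true⟩], [Sum.inl ⟨0, false, true⟩, Sum.inr 1], [Sum.inr 2, Sum.inl ⟨4, true, true⟩]] (by decide +kernel)) ?_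
  refine TEqM.trans (t' := ![[⟨3, true, true⟩, ⟨4, false, true⟩], [⟨2, true, true⟩], [⟨2, false, true⟩, ⟨3, false, true⟩, ⟨4, true, true⟩]])
    (TEqM.byE (RMove.r2 0 1 (by decide) false true true).teq ![[Sum.inr 1, Sum.inl ⟨3, true, true⟩, Sum.inl ⟨4, false, true⟩], [Sum.inr 0, Sum.inl ⟨2, true, true⟩], [Sum.inl ⟨2, false, true⟩, Sum.inl ⟨3, false, true⟩, Sum.inl ⟨4, true, true⟩]] (by decide +kernel)) ?_
  refine TEqM.trans (t' := ![[⟨0, true, true⟩, ⟨4, false, true⟩], [⟨2, true, true⟩], [⟨2, false, true⟩, ⟨0, false, true⟩, ⟨4, true, true⟩]])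
    (TEqM.swpE 3 0 (by decide +kernel)) ?_
  exact (TEqM.swpE 4 1 (by decide +kernel))

theorem walk_ftttf : TEqM ![[⟨0, false, false⟩, ⟨1, true, false⟩], [⟨0, true, false⟩, ⟨1, false, false⟩, ⟨2, true, true⟩], [⟨2, false, true⟩]]
    ![[⟨0, false, false⟩, ⟨1, true, false⟩], [⟨2, false, false⟩], [⟨2, true, false⟩, ⟨0, true, false⟩, ⟨1, false, false⟩]] := by
  refine TEqM.trans (t' := ![[⟨0, false, false⟩, ⟨1, true, false⟩, ⟨3, true, true⟩, ⟨4, true, false⟩], [⟨0, true, false⟩, ⟨1, false, false⟩, ⟨2, true, true⟩], [⟨2, false, true⟩, ⟨3, false, true⟩, ⟨4, false, false⟩]])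
    (TEqM.byE ((RMove.r2 3 4 (by decide) true true true).teq).symm ![[Sum.inl ⟨0, false, false⟩, Sum.inl ⟨1, true, false⟩, Sum.inr 0], [Sum.inl ⟨0, true, false⟩, Sum.inl ⟨1, false, false⟩, Sum.inl ⟨2, true, true⟩], [Sum.inl ⟨2, false, true⟩, Sum.inr 1]] (by decide +kernel)) ?_
  refine TEqM.trans (t' := ![[⟨0, false, false⟩, ⟨1, false, true⟩, ⟨3, false, false⟩, ⟨4, true, false⟩], [⟨0, true, false⟩, ⟨1, true, true⟩, ⟨2, false, false⟩], [⟨2, true, false⟩, ⟨3, true, false⟩, ⟨4, false, false⟩]])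
    (TEqM.byE (flipTri ![1, 2, 3] (by decide) ![false, true, true] ![true, true, false] (by decide)) ![[Sum.inl ⟨0, false, false⟩, Sum.inr 0, Sum.inl ⟨4, true, false⟩], [Sum.inl ⟨0, true, false⟩, Sum.inr 1], [Sum.inr 2, Sum.inl ⟨4, false, false⟩]] (by decide +kernel)) ?_
  refine TEqM.trans (t' := ![[⟨3, false, false⟩, ⟨4, true, false⟩], [⟨2, false, false⟩], [⟨2, true, false⟩, ⟨3, true, false⟩, ⟨4, false, false⟩]])
    (TEqM.byE (RMove.r2 0 1 (by decide) true false true).teq ![[Sum.inr 1, Sum.inl ⟨3, false, false⟩, Sum.inl ⟨4, true, false⟩], [Sum.inr 0, Sum.inl ⟨2, false, false⟩], [Sum.inl ⟨2, true, false⟩, Sum.inl ⟨3, true, false⟩, Sum.inl ⟨4, false, false⟩]] (by decide +kernel)) ?_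
  refine TEqM.trans (t' := ![[⟨0, false, false⟩, ⟨4, true, false⟩], [⟨2, false, false⟩], [⟨2, true, false⟩, ⟨0, true, false⟩, ⟨4, false, false⟩]])
    (TEqM.swpE 3 0 (by decide +kernel)) ?_
  exact (TEqM.swpE 4 1 (by decide +kernel))

theorem walk_ftttt : TEqM ![[⟨0, true, true⟩, ⟨1, false, true⟩], [⟨0, false, true⟩, ⟨1, true, true⟩, ⟨2, true, true⟩], [⟨2, false, true⟩]]
    ![[⟨0, true, true⟩, ⟨1, false, true⟩], [⟨2, false, false⟩], [⟨2, true, false⟩, ⟨0, false, true⟩, ⟨1, true, true⟩]] := by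
  refine TEqM.trans (t' := ![[⟨0, true, true⟩, ⟨1, false, true⟩, ⟨3, false, false⟩, ⟨4, false, true⟩], [⟨0, false, true⟩, ⟨1, true, true⟩, ⟨2, true, true⟩], [⟨2, false, true⟩, ⟨3, true, false⟩, ⟨4, true, true⟩]])
    (TEqM.byE ((RMove.r2 3 4 (by decide) false false true).teq).symm ![[Sum.inl ⟨0, true, true⟩, Sum.inl ⟨1, false, true⟩, Sum.inr 0], [Sum.inl ⟨0, false, true⟩, Sum.inl ⟨1, true, true⟩, Sum.inl ⟨2, true, true⟩], [Sum.inl ⟨2, false, true⟩, Sum.inr 1]] (by decide +kernel)) ?_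
  refine TEqM.trans (t' := ![[⟨0, true, true⟩, ⟨1, true, false⟩, ⟨3, true, true⟩, ⟨4, false, true⟩], [⟨0, false, true⟩, ⟨1, false, false⟩, ⟨2, false, false⟩], [⟨2, true, false⟩, ⟨3, false, true⟩, ⟨4, true, true⟩]])
    (TEqM.byE (flipTri ![1, 2, 3] (by decide) ![false, true, true] ![false, true, true] (by decide)) ![[Sum.inl ⟨0, true, true⟩, Sum.inr 0, Sum.inl ⟨4, false, true⟩], [Sum.inl ⟨0, false, true⟩, Sum.inr 1], [Sum.inr 2, Sum.inl ⟨4, true, true⟩]] (by decide +kernel)) ?_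
  refine TEqM.trans (t' := ![[⟨3, true, true⟩, ⟨4, false, true⟩], [⟨2, false, false⟩], [⟨2, true, false⟩, ⟨3, false, true⟩, ⟨4, true, true⟩]])
    (TEqM.byE (RMove.r2 0 1 (by decide) false true true).teq ![[Sum.inr 1, Sum.inl ⟨3, true, true⟩, Sum.inl ⟨4, false, true⟩], [Sum.inr 0, Sum.inl ⟨2, false, false⟩], [Sum.inl ⟨2, true, false⟩, Sum.inl ⟨3, false, true⟩, Sum.inl ⟨4, true, true⟩]] (by decide +kernel)) ?_
  refine TEqM.trans (t' := ![[⟨0, true, true⟩, ⟨4, false, true⟩], [⟨2, false, false⟩], [⟨2, true, false⟩, ⟨0, false, true⟩, ⟨4, true, true⟩]])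
    (TEqM.swpE 3 0 (by decide +kernel)) ?_
  exact (TEqM.swpE 4 1 (by decide +kernel))

theorem walk_tffff : TEqM ![[⟨1, true, false⟩, ⟨0, false, false⟩], [⟨2, true, false⟩, ⟨1, false, false⟩, ⟨0, true, false⟩], [⟨2, false, false⟩]]
    ![[⟨0, false, false⟩, ⟨1, true, false⟩], [⟨2, false, true⟩], [⟨2, true, true⟩, ⟨1, false, false⟩, ⟨0, true, false⟩]] := by
  refine TEqM.trans (t' := ![[⟨1, false, true⟩, ⟨0, true, true⟩], [⟨2, true, false⟩, ⟨1, true, true⟩, ⟨0, false, true⟩], [⟨2, false, false⟩]])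
    (TEqM.by (flipPar ![0, 1] (by decide) false false) ![[Sum.inr 0], [Sum.inl ⟨2, true, false⟩, Sum.inr 1], [Sum.inl ⟨2, false, false⟩]] (by decide +kernel)) ?_
  refine TEqM.trans (t' := ![[⟨3, false, false⟩, ⟨4, false, true⟩, ⟨1, false, true⟩, ⟨0, true, true⟩], [⟨2, true, false⟩, ⟨1, true, true⟩, ⟨0, false, true⟩], [⟨2, false, false⟩, ⟨4, true, true⟩, ⟨3, true, false⟩]])
    (TEqM.byE ((RMove.r2 3 4 (by decide) false false false).teq).symm ![[Sum.inr 0, Sum.inl ⟨1, false, true⟩, Sum.inl ⟨0, true, true⟩], [Sum.inl ⟨2, true, false⟩, Sum.inl ⟨1, true, true⟩, Sum.inl ⟨0, false, true⟩], [Sum.inl ⟨2, false, false⟩, Sum.inr 1]] (by decide +kernel)) ?_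
  refine TEqM.trans (t' := ![[⟨3, false, false⟩, ⟨4, true, false⟩, ⟨1, true, false⟩, ⟨0, true, true⟩], [⟨2, false, true⟩, ⟨1, false, false⟩, ⟨0, false, true⟩], [⟨2, true, true⟩, ⟨4, false, false⟩, ⟨3, true, false⟩]])
    (TEqM.byE (flipTri ![1, 2, 4] (by decide) ![true, false, true] ![false, true, true] (by decide)) ![[Sum.inl ⟨3, false, false⟩, Sum.inr 0, Sum.inl ⟨0, true, true⟩], [Sum.inr 1, Sum.inl ⟨0, false, true⟩], [Sum.inr 2, Sum.inl ⟨3, true, false⟩]] (by decide +kernel)) ?_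
  refine TEqM.trans (t' := ![[⟨3, false, false⟩, ⟨4, true, false⟩], [⟨2, false, true⟩], [⟨2, true, true⟩, ⟨4, false, false⟩, ⟨3, true, false⟩]])
    (TEqM.byE (RMove.r2 1 0 (by decide) true false true).teq ![[Sum.inl ⟨3, false, false⟩, Sum.inl ⟨4, true, false⟩, Sum.inr 0], [Sum.inl ⟨2, false, true⟩, Sum.inr 1], [Sum.inl ⟨2, true, true⟩, Sum.inl ⟨4, false, false⟩, Sum.inl ⟨3, true, false⟩]] (by decide +kernel)) ?_
  refine TEqM.trans (t' := ![[⟨0, false, false⟩, ⟨4, true, false⟩], [⟨2, false, true⟩], [⟨2, true, true⟩, ⟨4, false, false⟩, ⟨0, true, false⟩]])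
    (TEqM.swpE 3 0 (by decide +kernel)) ?_
  exact (TEqM.swpE 4 1 (by decide +kernel))

theorem walk_tffft : TEqM ![[⟨1, false, true⟩, ⟨0, true, true⟩], [⟨2, true, false⟩, ⟨1, true, true⟩, ⟨0, false, true⟩], [⟨2, false, false⟩]]
    ![[⟨0, false, false⟩, ⟨1, true, false⟩], [⟨2, false, true⟩], [⟨2, true, true⟩, ⟨1, false, false⟩, ⟨0, true, false⟩]] := by
  refine TEqM.trans (t' := ![[⟨3, false, false⟩, ⟨4, false, true⟩, ⟨1, false, true⟩, ⟨0, true, true⟩], [⟨2, true, false⟩, ⟨1, true, true⟩, ⟨0, false, true⟩], [⟨2, false, false⟩, ⟨4, true, true⟩, ⟨3, true, false⟩]])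
    (TEqM.byE ((RMove.r2 3 4 (by decide) false false false).teq).symm ![[Sum.inr 0, Sum.inl ⟨1, false, true⟩, Sum.inl ⟨0, true, true⟩], [Sum.inl ⟨2, true, false⟩, Sum.inl ⟨1, true, true⟩, Sum.inl ⟨0, false, true⟩], [Sum.inl ⟨2, false, false⟩, Sum.inr 1]] (by decide +kernel)) ?_
  refine TEqM.trans (t' := ![[⟨3, false, false⟩, ⟨4, true, false⟩, ⟨1, true, false⟩, ⟨0, true, true⟩], [⟨2, false, true⟩, ⟨1, false, false⟩, ⟨0, false, true⟩], [⟨2, true, true⟩, ⟨4, false, false⟩, ⟨3, true, false⟩]])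
    (TEqM.byE (flipTri ![1, 2, 4] (by decide) ![true, false, true] ![false, true, true] (by decide)) ![[Sum.inl ⟨3, false, false⟩, Sum.inr 0, Sum.inl ⟨0, true, true⟩], [Sum.inr 1, Sum.inl ⟨0, false, true⟩], [Sum.inr 2, Sum.inl ⟨3, true, false⟩]] (by decide +kernel)) ?_
  refine TEqM.trans (t' := ![[⟨3, false, false⟩, ⟨4, true, false⟩], [⟨2, false, true⟩], [⟨2, true, true⟩, ⟨4, false, false⟩, ⟨3, true, false⟩]])
    (TEqM.byE (RMove.r2 1 0 (by decide) true false true).teq ![[Sum.inl ⟨3, false, false⟩, Sum.inl ⟨4, true, false⟩, Sum.inr 0], [Sum.inl ⟨2, false, true⟩, Sum.inr 1], [Sum.inl ⟨2, true, true⟩, Sum.inl ⟨4, false, false⟩, Sum.inl ⟨3, true, false⟩]] (by decide +kernel)) ?_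
  refine TEqM.trans (t' := ![[⟨0, false, false⟩, ⟨4, true, false⟩], [⟨2, false, true⟩], [⟨2, true, true⟩, ⟨4, false, false⟩, ⟨0, true, false⟩]])
    (TEqM.swpE 3 0 (by decide +kernel)) ?_
  exact (TEqM.swpE 4 1 (by decide +kernel))

theorem walk_tfftf : TEqM ![[⟨1, true, false⟩, ⟨0, false, false⟩], [⟨2, false, true⟩, ⟨1, false, false⟩, ⟨0, true, false⟩], [⟨2, true, true⟩]]
    ![[⟨0, false, false⟩, ⟨1, true, false⟩], [⟨2, true, false⟩], [⟨2, false, false⟩, ⟨1, false, false⟩, ⟨0, true, false⟩]] := by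
  refine TEqM.trans (t' := ![[⟨3, false, false⟩, ⟨4, false, true⟩, ⟨1, true, false⟩, ⟨0, false, false⟩], [⟨2, false, true⟩, ⟨1, false, false⟩, ⟨0, true, false⟩], [⟨2, true, true⟩, ⟨4, true, true⟩, ⟨3, true, false⟩]])
    (TEqM.byE ((RMove.r2 3 4 (by decide) false false false).teq).symm ![[Sum.inr 0, Sum.inl ⟨1, true, false⟩, Sum.inl ⟨0, false, false⟩], [Sum.inl ⟨2, false, true⟩, Sum.inl ⟨1, false, false⟩, Sum.inl ⟨0, true, false⟩], [Sum.inl ⟨2, true, true⟩, Sum.inr 1]] (by decide +kernel)) ?_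
  refine TEqM.trans (t' := ![[⟨3, false, false⟩, ⟨4, true, false⟩, ⟨1, false, true⟩, ⟨0, false, false⟩], [⟨2, true, false⟩, ⟨1, true, true⟩, ⟨0, true, false⟩], [⟨2, false, false⟩, ⟨4, false, false⟩, ⟨3, true, false⟩]])
    (TEqM.byE (flipTri ![1, 2, 4] (by decide) ![true, false, true] ![true, false, true] (by decide)) ![[Sum.inl ⟨3, false, false⟩, Sum.inr 0, Sum.inl ⟨0, false, false⟩], [Sum.inr 1, Sum.inl ⟨0, true, false⟩], [Sum.inr 2, Sum.inl ⟨3, true, false⟩]] (by decide +kernel)) ?_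
  refine TEqM.trans (t' := ![[⟨3, false, false⟩, ⟨4, true, false⟩], [⟨2, true, false⟩], [⟨2, false, false⟩, ⟨4, false, false⟩, ⟨3, true, false⟩]])
    (TEqM.byE (RMove.r2 1 0 (by decide) false true true).teq ![[Sum.inl ⟨3, false, false⟩, Sum.inl ⟨4, true, false⟩, Sum.inr 0], [Sum.inl ⟨2, true, false⟩, Sum.inr 1], [Sum.inl ⟨2, false, false⟩, Sum.inl ⟨4, false, false⟩, Sum.inl ⟨3, true, false⟩]] (by decide +kernel)) ?_
  refine TEqM.trans (t' := ![[⟨0, false, false⟩, ⟨4, true, false⟩], [⟨2, true, false⟩], [⟨2, false, false⟩, ⟨4, false, false⟩, ⟨0, true, false⟩]])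
    (TEqM.swpE 3 0 (by decide +kernel)) ?_
  exact (TEqM.swpE 4 1 (by decide +kernel))

theorem walk_tfftt : TEqM ![[⟨1, false, true⟩, ⟨0, true, true⟩], [⟨2, false, true⟩, ⟨1, true, true⟩, ⟨0, false, true⟩], [⟨2, true, true⟩]]
    ![[⟨0, false, false⟩, ⟨1, true, false⟩], [⟨2, true, false⟩], [⟨2, false, false⟩, ⟨1, false, false⟩, ⟨0, true, false⟩]] := by
  refine TEqM.trans (t' := ![[⟨1, true, false⟩, ⟨0, false, false⟩], [⟨2, false, true⟩, ⟨1, false, false⟩, ⟨0, true, false⟩], [⟨2, true, true⟩]])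
    (TEqM.by (flipPar ![0, 1] (by decide) false true) ![[Sum.inr 0], [Sum.inl ⟨2, false, true⟩, Sum.inr 1], [Sum.inl ⟨2, true, true⟩]] (by decide +kernel)) ?_
  refine TEqM.trans (t' := ![[⟨3, false, false⟩, ⟨4, false, true⟩, ⟨1, true, false⟩, ⟨0, false, false⟩], [⟨2, false, true⟩, ⟨1, false, false⟩, ⟨0, true, false⟩], [⟨2, true, true⟩, ⟨4, true, true⟩, ⟨3, true, false⟩]])
    (TEqM.byE ((RMove.r2 3 4 (by decide) false false false).teq).symm ![[Sum.inr 0, Sum.inl ⟨1, true, false⟩, Sum.inl ⟨0, false, false⟩], [Sum.inl ⟨2, false, true⟩, Sum.inl ⟨1, false, false⟩, Sum.inl ⟨0, true, false⟩], [Sum.inl ⟨2, true, true⟩, Sum.inr 1]] (by decide +kernel)) ?_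
  refine TEqM.trans (t' := ![[⟨3, false, false⟩, ⟨4, true, false⟩, ⟨1, false, true⟩, ⟨0, false, false⟩], [⟨2, true, false⟩, ⟨1, true, true⟩, ⟨0, true, false⟩], [⟨2, false, false⟩, ⟨4, false, false⟩, ⟨3, true, false⟩]])
    (TEqM.byE (flipTri ![1, 2, 4] (by decide) ![true, false, true] ![true, false, true] (by decide)) ![[Sum.inl ⟨3, false, false⟩, Sum.inr 0, Sum.inl ⟨0, false, false⟩], [Sum.inr 1, Sum.inl ⟨0, true, false⟩], [Sum.inr 2, Sum.inl ⟨3, true, false⟩]] (by decide +kernel)) ?_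
  refine TEqM.trans (t' := ![[⟨3, false, false⟩, ⟨4, true, false⟩], [⟨2, true, false⟩], [⟨2, false, false⟩, ⟨4, false, false⟩, ⟨3, true, false⟩]])
    (TEqM.byE (RMove.r2 1 0 (by decide) false true true).teq ![[Sum.inl ⟨3, false, false⟩, Sum.inl ⟨4, true, false⟩, Sum.inr 0], [Sum.inl ⟨2, true, false⟩, Sum.inr 1], [Sum.inl ⟨2, false, false⟩, Sum.inl ⟨4, false, false⟩, Sum.inl ⟨3, true, false⟩]] (by decide +kernel)) ?_
  refine TEqM.trans (t' := ![[⟨0, false, false⟩, ⟨4, true, false⟩], [⟨2, true, false⟩], [⟨2, false, false⟩, ⟨4, false, false⟩, ⟨0, true, false⟩]])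
    (TEqM.swpE 3 0 (by decide +kernel)) ?_
  exact (TEqM.swpE 4 1 (by decide +kernel))

theorem walk_tftff : TEqM ![[⟨1, true, false⟩, ⟨0, false, false⟩], [⟨2, false, false⟩, ⟨1, false, false⟩, ⟨0, true, false⟩], [⟨2, true, false⟩]]
    ![[⟨1, true, false⟩, ⟨0, false, false⟩], [⟨2, true, true⟩], [⟨1, false, false⟩, ⟨0, true, false⟩, ⟨2, false, true⟩]] := by
  refine TEqM.trans (t' := ![[⟨3, true, false⟩, ⟨4, true, true⟩, ⟨1, true, false⟩, ⟨0, false, false⟩], [⟨2, false, false⟩, ⟨1, false, false⟩, ⟨0, true, false⟩], [⟨3, false, false⟩, ⟨4, false, true⟩, ⟨2, true, false⟩]])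
    (TEqM.byE ((RMove.r2 3 4 (by decide) true false true).teq).symm ![[Sum.inr 0, Sum.inl ⟨1, true, false⟩, Sum.inl ⟨0, false, false⟩], [Sum.inl ⟨2, false, false⟩, Sum.inl ⟨1, false, false⟩, Sum.inl ⟨0, true, false⟩], [Sum.inr 1, Sum.inl ⟨2, true, false⟩]] (by decide +kernel)) ?_
  refine TEqM.trans (t' := ![[⟨3, true, false⟩, ⟨4, false, false⟩, ⟨1, false, true⟩, ⟨0, false, false⟩], [⟨2, true, true⟩, ⟨1, true, true⟩, ⟨0, true, false⟩], [⟨3, false, false⟩, ⟨4, true, false⟩, ⟨2, false, true⟩]])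
    (TEqM.byE (flipTri ![1, 2, 4] (by decide) ![true, false, false] ![true, false, false] (by decide)) ![[Sum.inl ⟨3, true, false⟩, Sum.inr 0, Sum.inl ⟨0, false, false⟩], [Sum.inr 1, Sum.inl ⟨0, true, false⟩], [Sum.inl ⟨3, false, false⟩, Sum.inr 2]] (by decide +kernel)) ?_
  refine TEqM.trans (t' := ![[⟨3, true, false⟩, ⟨4, false, false⟩], [⟨2, true, true⟩], [⟨3, false, false⟩, ⟨4, true, false⟩, ⟨2, false, true⟩]])
    (TEqM.byE (RMove.r2 1 0 (by decide) false true true).teq ![[Sum.inl ⟨3, true, false⟩, Sum.inl ⟨4, false, false⟩, Sum.inr 0], [Sum.inl ⟨2, true, true⟩, Sum.inr 1], [Sum.inl ⟨3, false, false⟩, Sum.inl ⟨4, true, false⟩, Sum.inl ⟨2, false, true⟩]] (by decide +kernel)) ?_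
  refine TEqM.trans (t' := ![[⟨1, true, false⟩, ⟨4, false, false⟩], [⟨2, true, true⟩], [⟨1, false, false⟩, ⟨4, true, false⟩, ⟨2, false, true⟩]])
    (TEqM.swpE 3 1 (by decide +kernel)) ?_
  exact (TEqM.swpE 4 0 (by decide +kernel))

theorem walk_tftft : TEqM ![[⟨1, false, true⟩, ⟨0, true, true⟩], [⟨2, false, false⟩, ⟨1, true, true⟩, ⟨0, false, true⟩], [⟨2, true, false⟩]]
    ![[⟨1, false, true⟩, ⟨0, true, true⟩], [⟨2, true, true⟩], [⟨1, true, true⟩, ⟨0, false, true⟩, ⟨2, false, true⟩]] := by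
  refine TEqM.trans (t' := ![[⟨3, false, true⟩, ⟨4, false, false⟩, ⟨1, false, true⟩, ⟨0, true, true⟩], [⟨2, false, false⟩, ⟨1, true, true⟩, ⟨0, false, true⟩], [⟨3, true, true⟩, ⟨4, true, false⟩, ⟨2, true, false⟩]])
    (TEqM.byE ((RMove.r2 3 4 (by decide) false true true).teq).symm ![[Sum.inr 0, Sum.inl ⟨1, false, true⟩, Sum.inl ⟨0, true, true⟩], [Sum.inl ⟨2, false, false⟩, Sum.inl ⟨1, true, true⟩, Sum.inl ⟨0, false, true⟩], [Sum.inr 1, Sum.inl ⟨2, true, false⟩]] (by decide +kernel)) ?_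
  refine TEqM.trans (t' := ![[⟨3, false, true⟩, ⟨4, true, true⟩, ⟨1, true, false⟩, ⟨0, true, true⟩], [⟨2, true, true⟩, ⟨1, false, false⟩, ⟨0, false, true⟩], [⟨3, true, true⟩, ⟨4, false, true⟩, ⟨2, false, true⟩]])
    (TEqM.byE (flipTri ![1, 2, 4] (by decide) ![true, false, false] ![false, false, true] (by decide)) ![[Sum.inl ⟨3, false, true⟩, Sum.inr 0, Sum.inl ⟨0, true, true⟩], [Sum.inr 1, Sum.inl ⟨0, false, true⟩], [Sum.inl ⟨3, true, true⟩, Sum.inr 2]] (by decide +kernel)) ?_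
  refine TEqM.trans (t' := ![[⟨3, false, true⟩, ⟨4, true, true⟩], [⟨2, true, true⟩], [⟨3, true, true⟩, ⟨4, false, true⟩, ⟨2, false, true⟩]])
    (TEqM.byE (RMove.r2 1 0 (by decide) true false true).teq ![[Sum.inl ⟨3, false, true⟩, Sum.inl ⟨4, true, true⟩, Sum.inr 0], [Sum.inl ⟨2, true, true⟩, Sum.inr 1], [Sum.inl ⟨3, true, true⟩, Sum.inl ⟨4, false, true⟩, Sum.inl ⟨2, false, true⟩]] (by decide +kernel)) ?_
  refine TEqM.trans (t' := ![[⟨1, false, true⟩, ⟨4, true, true⟩], [⟨2, true, true⟩], [⟨1, true, true⟩, ⟨4, false, true⟩, ⟨2, false, true⟩]])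
    (TEqM.swpE 3 1 (by decide +kernel)) ?_
  exact (TEqM.swpE 4 0 (by decide +kernel))

theorem walk_tfttf : TEqM ![[⟨1, true, false⟩, ⟨0, false, false⟩], [⟨2, true, true⟩, ⟨1, false, false⟩, ⟨0, true, false⟩], [⟨2, false, true⟩]]
    ![[⟨1, true, false⟩, ⟨0, false, false⟩], [⟨2, false, false⟩], [⟨1, false, false⟩, ⟨0, true, false⟩, ⟨2, true, false⟩]] := by
  refine TEqM.trans (t' := ![[⟨3, true, false⟩, ⟨4, true, true⟩, ⟨1, true, false⟩, ⟨0, false, false⟩], [⟨2, true, true⟩, ⟨1, false, false⟩, ⟨0, true, false⟩], [⟨3, false, false⟩, ⟨4, false, true⟩, ⟨2, false, true⟩]])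
    (TEqM.byE ((RMove.r2 3 4 (by decide) true false true).teq).symm ![[Sum.inr 0, Sum.inl ⟨1, true, false⟩, Sum.inl ⟨0, false, false⟩], [Sum.inl ⟨2, true, true⟩, Sum.inl ⟨1, false, false⟩, Sum.inl ⟨0, true, false⟩], [Sum.inr 1, Sum.inl ⟨2, false, true⟩]] (by decide +kernel)) ?_
  refine TEqM.trans (t' := ![[⟨3, true, false⟩, ⟨4, false, false⟩, ⟨1, false, true⟩, ⟨0, false, false⟩], [⟨2, false, false⟩, ⟨1, true, true⟩, ⟨0, true, false⟩], [⟨3, false, false⟩, ⟨4, true, false⟩, ⟨2, true, false⟩]])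
    (TEqM.byE (flipTri ![1, 2, 4] (by decide) ![true, false, false] ![true, true, false] (by decide)) ![[Sum.inl ⟨3, true, false⟩, Sum.inr 0, Sum.inl ⟨0, false, false⟩], [Sum.inr 1, Sum.inl ⟨0, true, false⟩], [Sum.inl ⟨3, false, false⟩, Sum.inr 2]] (by decide +kernel)) ?_
  refine TEqM.trans (t' := ![[⟨3, true, false⟩, ⟨4, false, false⟩], [⟨2, false, false⟩], [⟨3, false, false⟩, ⟨4, true, false⟩, ⟨2, true, false⟩]])
    (TEqM.byE (RMove.r2 1 0 (by decide) false true true).teq ![[Sum.inl ⟨3, true, false⟩, Sum.inl ⟨4, false, false⟩, Sum.inr 0], [Sum.inl ⟨2, false, false⟩, Sum.inr 1], [Sum.inl ⟨3, false, false⟩, Sum.inl ⟨4, true, false⟩, Sum.inl ⟨2, true, false⟩]] (by decide +kernel)) ?_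
  refine TEqM.trans (t' := ![[⟨1, true, false⟩, ⟨4, false, false⟩], [⟨2, false, false⟩], [⟨1, false, false⟩, ⟨4, true, false⟩, ⟨2, true, false⟩]])
    (TEqM.swpE 3 1 (by decide +kernel)) ?_
  exact (TEqM.swpE 4 0 (by decide +kernel))

theorem walk_tfttt : TEqM ![[⟨1, false, true⟩, ⟨0, true, true⟩], [⟨2, true, true⟩, ⟨1, true, true⟩, ⟨0, false, true⟩], [⟨2, false, true⟩]]
    ![[⟨1, false, true⟩, ⟨0, true, true⟩], [⟨2, false, false⟩], [⟨1, true, true⟩, ⟨0, false, true⟩, ⟨2, true, false⟩]] := by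
  refine TEqM.trans (t' := ![[⟨3, false, true⟩, ⟨4, false, false⟩, ⟨1, false, true⟩, ⟨0, true, true⟩], [⟨2, true, true⟩, ⟨1, true, true⟩, ⟨0, false, true⟩], [⟨3, true, true⟩, ⟨4, true, false⟩, ⟨2, false, true⟩]])
    (TEqM.byE ((RMove.r2 3 4 (by decide) false true true).teq).symm ![[Sum.inr 0, Sum.inl ⟨1, false, true⟩, Sum.inl ⟨0, true, true⟩], [Sum.inl ⟨2, true, true⟩, Sum.inl ⟨1, true, true⟩, Sum.inl ⟨0, false, true⟩], [Sum.inr 1, Sum.inl ⟨2, false, true⟩]] (by decide +kernel)) ?_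
  refine TEqM.trans (t' := ![[⟨3, false, true⟩, ⟨4, true, true⟩, ⟨1, true, false⟩, ⟨0, true, true⟩], [⟨2, false, false⟩, ⟨1, false, false⟩, ⟨0, false, true⟩], [⟨3, true, true⟩, ⟨4, false, true⟩, ⟨2, true, false⟩]])
    (TEqM.byE (flipTri ![1, 2, 4] (by decide) ![true, false, false] ![false, true, true] (by decide)) ![[Sum.inl ⟨3, false, true⟩, Sum.inr 0, Sum.inl ⟨0, true, true⟩], [Sum.inr 1, Sum.inl ⟨0, false, true⟩], [Sum.inl ⟨3, true, true⟩, Sum.inr 2]] (by decide +kernel)) ?_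
  refine TEqM.trans (t' := ![[⟨3, false, true⟩, ⟨4, true, true⟩], [⟨2, false, false⟩], [⟨3, true, true⟩, ⟨4, false, true⟩, ⟨2, true, false⟩]])
    (TEqM.byE (RMove.r2 1 0 (by decide) true false true).teq ![[Sum.inl ⟨3, false, true⟩, Sum.inl ⟨4, true, true⟩, Sum.inr 0], [Sum.inl ⟨2, false, false⟩, Sum.inr 1], [Sum.inl ⟨3, true, true⟩, Sum.inl ⟨4, false, true⟩, Sum.inl ⟨2, true, false⟩]] (by decide +kernel)) ?_
  refine TEqM.trans (t' := ![[⟨1, false, true⟩, ⟨4, true, true⟩], [⟨2, false, false⟩], [⟨1, true, true⟩, ⟨4, false, true⟩, ⟨2, true, false⟩]])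
    (TEqM.swpE 3 1 (by decide +kernel)) ?_
  exact (TEqM.swpE 4 0 (by decide +kernel))

theorem walk_ttfff : TEqM ![[⟨0, false, false⟩, ⟨1, true, false⟩], [⟨1, false, false⟩, ⟨0, true, false⟩, ⟨2, true, false⟩], [⟨2, false, false⟩]]
    ![[⟨1, true, false⟩, ⟨0, false, false⟩], [⟨2, false, true⟩], [⟨1, false, false⟩, ⟨0, true, false⟩, ⟨2, true, true⟩]] := by
  refine TEqM.trans (t' := ![[⟨3, true, false⟩, ⟨4, true, true⟩, ⟨0, false, false⟩, ⟨1, true, false⟩], [⟨1, false, false⟩, ⟨0, true, false⟩, ⟨2, true, false⟩], [⟨3, false, false⟩, ⟨4, false, true⟩, ⟨2, false, false⟩]])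
    (TEqM.byE ((RMove.r2 3 4 (by decide) true false true).teq).symm ![[Sum.inr 0, Sum.inl ⟨0, false, false⟩, Sum.inl ⟨1, true, false⟩], [Sum.inl ⟨1, false, false⟩, Sum.inl ⟨0, true, false⟩, Sum.inl ⟨2, true, false⟩], [Sum.inr 1, Sum.inl ⟨2, false, false⟩]] (by decide +kernel)) ?_
  refine TEqM.trans (t' := ![[⟨3, true, false⟩, ⟨4, false, false⟩, ⟨0, true, true⟩, ⟨1, true, false⟩], [⟨1, false, false⟩, ⟨0, false, true⟩, ⟨2, false, true⟩], [⟨3, false, false⟩, ⟨4, true, false⟩, ⟨2, true, true⟩]])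
    (TEqM.byE (flipTri ![0, 2, 4] (by decide) ![true, true, false] ![false, true, false] (by decide)) ![[Sum.inl ⟨3, true, false⟩, Sum.inr 0, Sum.inl ⟨1, true, false⟩], [Sum.inl ⟨1, false, false⟩, Sum.inr 1], [Sum.inl ⟨3, false, false⟩, Sum.inr 2]] (by decide +kernel)) ?_
  refine TEqM.trans (t' := ![[⟨3, true, false⟩, ⟨4, false, false⟩], [⟨2, false, true⟩], [⟨3, false, false⟩, ⟨4, true, false⟩, ⟨2, true, true⟩]])
    (TEqM.byE (RMove.r2 0 1 (by decide) true true false).teq ![[Sum.inl ⟨3, true, false⟩, Sum.inl ⟨4, false, false⟩, Sum.inr 0], [Sum.inr 1, Sum.inl ⟨2, false, true⟩], [Sum.inl ⟨3, false, false⟩, Sum.inl ⟨4, true, false⟩, Sum.inl ⟨2, true, true⟩]] (by decide +kernel)) ?_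
  refine TEqM.trans (t' := ![[⟨1, true, false⟩, ⟨4, false, false⟩], [⟨2, false, true⟩], [⟨1, false, false⟩, ⟨4, true, false⟩, ⟨2, true, true⟩]])
    (TEqM.swpE 3 1 (by decide +kernel)) ?_
  exact (TEqM.swpE 4 0 (by decide +kernel))

theorem walk_ttfft : TEqM ![[⟨0, true, true⟩, ⟨1, false, true⟩], [⟨1, true, true⟩, ⟨0, false, true⟩, ⟨2, true, false⟩], [⟨2, false, false⟩]]
    ![[⟨1, true, false⟩, ⟨0, false, false⟩], [⟨2, false, true⟩], [⟨1, false, false⟩, ⟨0, true, false⟩, ⟨2, true, true⟩]] := by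
  refine TEqM.trans (t' := ![[⟨3, true, false⟩, ⟨4, true, true⟩, ⟨0, true, true⟩, ⟨1, false, true⟩], [⟨1, true, true⟩, ⟨0, false, true⟩, ⟨2, true, false⟩], [⟨3, false, false⟩, ⟨4, false, true⟩, ⟨2, false, false⟩]])
    (TEqM.byE ((RMove.r2 3 4 (by decide) true false true).teq).symm ![[Sum.inr 0, Sum.inl ⟨0, true, true⟩, Sum.inl ⟨1, false, true⟩], [Sum.inl ⟨1, true, true⟩, Sum.inl ⟨0, false, true⟩, Sum.inl ⟨2, true, false⟩], [Sum.inr 1, Sum.inl ⟨2, false, false⟩]] (by decide +kernel)) ?_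
  refine TEqM.trans (t' := ![[⟨3, true, false⟩, ⟨4, false, false⟩, ⟨0, false, false⟩, ⟨1, false, true⟩], [⟨1, true, true⟩, ⟨0, true, false⟩, ⟨2, false, true⟩], [⟨3, false, false⟩, ⟨4, true, false⟩, ⟨2, true, true⟩]])
    (TEqM.byE (flipTri ![0, 2, 4] (by decide) ![true, true, false] ![true, true, false] (by decide)) ![[Sum.inl ⟨3, true, false⟩, Sum.inr 0, Sum.inl ⟨1, false, true⟩], [Sum.inl ⟨1, true, true⟩, Sum.inr 1], [Sum.inl ⟨3, false, false⟩, Sum.inr 2]] (by decide +kernel)) ?_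
  refine TEqM.trans (t' := ![[⟨3, true, false⟩, ⟨4, false, false⟩], [⟨2, false, true⟩], [⟨3, false, false⟩, ⟨4, true, false⟩, ⟨2, true, true⟩]])
    (TEqM.byE (RMove.r2 0 1 (by decide) false false false).teq ![[Sum.inl ⟨3, true, false⟩, Sum.inl ⟨4, false, false⟩, Sum.inr 0], [Sum.inr 1, Sum.inl ⟨2, false, true⟩], [Sum.inl ⟨3, false, false⟩, Sum.inl ⟨4, true, false⟩, Sum.inl ⟨2, true, true⟩]] (by decide +kernel)) ?_
  refine TEqM.trans (t' := ![[⟨1, true, false⟩, ⟨4, false, false⟩], [⟨2, false, true⟩], [⟨1, false, false⟩, ⟨4, true, false⟩, ⟨2, true, true⟩]])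
    (TEqM.swpE 3 1 (by decide +kernel)) ?_
  exact (TEqM.swpE 4 0 (by decide +kernel))

theorem walk_ttftf : TEqM ![[⟨0, false, false⟩, ⟨1, true, false⟩], [⟨1, false, false⟩, ⟨0, true, false⟩, ⟨2, false, true⟩], [⟨2, true, true⟩]]
    ![[⟨1, false, true⟩, ⟨0, true, true⟩], [⟨2, true, false⟩], [⟨1, true, true⟩, ⟨0, false, true⟩, ⟨2, false, false⟩]] := by
  refine TEqM.trans (t' := ![[⟨3, false, true⟩, ⟨4, false, false⟩, ⟨0, false, false⟩, ⟨1, true, false⟩], [⟨1, false, false⟩, ⟨0, true, false⟩, ⟨2, false, true⟩], [⟨3, true, true⟩, ⟨4, true, false⟩, ⟨2, true, true⟩]])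
    (TEqM.byE ((RMove.r2 3 4 (by decide) false true true).teq).symm ![[Sum.inr 0, Sum.inl ⟨0, false, false⟩, Sum.inl ⟨1, true, false⟩], [Sum.inl ⟨1, false, false⟩, Sum.inl ⟨0, true, false⟩, Sum.inl ⟨2, false, true⟩], [Sum.inr 1, Sum.inl ⟨2, true, true⟩]] (by decide +kernel)) ?_
  refine TEqM.trans (t' := ![[⟨3, false, true⟩, ⟨4, true, true⟩, ⟨0, true, true⟩, ⟨1, true, false⟩], [⟨1, false, false⟩, ⟨0, false, true⟩, ⟨2, true, false⟩], [⟨3, true, true⟩, ⟨4, false, true⟩, ⟨2, false, false⟩]])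
    (TEqM.byE (flipTri ![0, 2, 4] (by decide) ![true, true, false] ![false, false, true] (by decide)) ![[Sum.inl ⟨3, false, true⟩, Sum.inr 0, Sum.inl ⟨1, true, false⟩], [Sum.inl ⟨1, false, false⟩, Sum.inr 1], [Sum.inl ⟨3, true, true⟩, Sum.inr 2]] (by decide +kernel)) ?_
  refine TEqM.trans (t' := ![[⟨3, false, true⟩, ⟨4, true, true⟩], [⟨2, true, false⟩], [⟨3, true, true⟩, ⟨4, false, true⟩, ⟨2, false, false⟩]])
    (TEqM.byE (RMove.r2 0 1 (by decide) true true false).teq ![[Sum.inl ⟨3, false, true⟩, Sum.inl ⟨4, true, true⟩, Sum.inr 0], [Sum.inr 1, Sum.inl ⟨2, true, false⟩], [Sum.inl ⟨3, true, true⟩, Sum.inl ⟨4, false, true⟩, Sum.inl ⟨2, false, false⟩]] (by decide +kernel)) ?_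
  refine TEqM.trans (t' := ![[⟨1, false, true⟩, ⟨4, true, true⟩], [⟨2, true, false⟩], [⟨1, true, true⟩, ⟨4, false, true⟩, ⟨2, false, false⟩]])
    (TEqM.swpE 3 1 (by decide +kernel)) ?_
  exact (TEqM.swpE 4 0 (by decide +kernel))

theorem walk_ttftt : TEqM ![[⟨0, true, true⟩, ⟨1, false, true⟩], [⟨1, true, true⟩, ⟨0, false, true⟩, ⟨2, false, true⟩], [⟨2, true, true⟩]]
    ![[⟨1, false, true⟩, ⟨0, true, true⟩], [⟨2, true, false⟩], [⟨1, true, true⟩, ⟨0, false, true⟩, ⟨2, false, false⟩]] := by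
  refine TEqM.trans (t' := ![[⟨3, false, true⟩, ⟨4, false, false⟩, ⟨0, true, true⟩, ⟨1, false, true⟩], [⟨1, true, true⟩, ⟨0, false, true⟩, ⟨2, false, true⟩], [⟨3, true, true⟩, ⟨4, true, false⟩, ⟨2, true, true⟩]])
    (TEqM.byE ((RMove.r2 3 4 (by decide) false true true).teq).symm ![[Sum.inr 0, Sum.inl ⟨0, true, true⟩, Sum.inl ⟨1, false, true⟩], [Sum.inl ⟨1, true, true⟩, Sum.inl ⟨0, false, true⟩, Sum.inl ⟨2, false, true⟩], [Sum.inr 1, Sum.inl ⟨2, true, true⟩]] (by decide +kernel)) ?_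
  refine TEqM.trans (t' := ![[⟨3, false, true⟩, ⟨4, true, true⟩, ⟨0, false, false⟩, ⟨1, false, true⟩], [⟨1, true, true⟩, ⟨0, true, false⟩, ⟨2, true, false⟩], [⟨3, true, true⟩, ⟨4, false, true⟩, ⟨2, false, false⟩]])
    (TEqM.byE (flipTri ![0, 2, 4] (by decide) ![true, true, false] ![true, false, true] (by decide)) ![[Sum.inl ⟨3, false, true⟩, Sum.inr 0, Sum.inl ⟨1, false, true⟩], [Sum.inl ⟨1, true, true⟩, Sum.inr 1], [Sum.inl ⟨3, true, true⟩, Sum.inr 2]] (by decide +kernel)) ?_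
  refine TEqM.trans (t' := ![[⟨3, false, true⟩, ⟨4, true, true⟩], [⟨2, true, false⟩], [⟨3, true, true⟩, ⟨4, false, true⟩, ⟨2, false, false⟩]])
    (TEqM.byE (RMove.r2 0 1 (by decide) false false false).teq ![[Sum.inl ⟨3, false, true⟩, Sum.inl ⟨4, true, true⟩, Sum.inr 0], [Sum.inr 1, Sum.inl ⟨2, true, false⟩], [Sum.inl ⟨3, true, true⟩, Sum.inl ⟨4, false, true⟩, Sum.inl ⟨2, false, false⟩]] (by decide +kernel)) ?_
  refine TEqM.trans (t' := ![[⟨1, false, true⟩, ⟨4, true, true⟩], [⟨2, true, false⟩], [⟨1, true, true⟩, ⟨4, false, true⟩, ⟨2, false, false⟩]])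
    (TEqM.swpE 3 1 (by decide +kernel)) ?_
  exact (TEqM.swpE 4 0 (by decide +kernel))

theorem walk_tttff : TEqM ![[⟨0, false, false⟩, ⟨1, true, false⟩], [⟨1, false, false⟩, ⟨0, true, false⟩, ⟨2, false, false⟩], [⟨2, true, false⟩]]
    ![[⟨0, false, false⟩, ⟨1, true, false⟩], [⟨2, true, true⟩], [⟨2, false, true⟩, ⟨1, false, false⟩, ⟨0, true, false⟩]] := by
  refine TEqM.trans (t' := ![[⟨3, false, false⟩, ⟨4, false, true⟩, ⟨0, false, false⟩, ⟨1, true, false⟩], [⟨1, false, false⟩, ⟨0, true, false⟩, ⟨2, false, false⟩], [⟨2, true, false⟩, ⟨4, true, true⟩, ⟨3, true, false⟩]])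
    (TEqM.byE ((RMove.r2 3 4 (by decide) false false false).teq).symm ![[Sum.inr 0, Sum.inl ⟨0, false, false⟩, Sum.inl ⟨1, true, false⟩], [Sum.inl ⟨1, false, false⟩, Sum.inl ⟨0, true, false⟩, Sum.inl ⟨2, false, false⟩], [Sum.inl ⟨2, true, false⟩, Sum.inr 1]] (by decide +kernel)) ?_
  refine TEqM.trans (t' := ![[⟨3, false, false⟩, ⟨4, true, false⟩, ⟨0, true, true⟩, ⟨1, true, false⟩], [⟨1, false, false⟩, ⟨0, false, true⟩, ⟨2, true, true⟩], [⟨2, false, true⟩, ⟨4, false, false⟩, ⟨3, true, false⟩]])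
    (TEqM.byE (flipTri ![0, 2, 4] (by decide) ![true, true, true] ![false, false, true] (by decide)) ![[Sum.inl ⟨3, false, false⟩, Sum.inr 0, Sum.inl ⟨1, true, false⟩], [Sum.inl ⟨1, false, false⟩, Sum.inr 1], [Sum.inr 2, Sum.inl ⟨3, true, false⟩]] (by decide +kernel)) ?_
  refine TEqM.trans (t' := ![[⟨3, false, false⟩, ⟨4, true, false⟩], [⟨2, true, true⟩], [⟨2, false, true⟩, ⟨4, false, false⟩, ⟨3, true, false⟩]])
    (TEqM.byE (RMove.r2 0 1 (by decide) true true false).teq ![[Sum.inl ⟨3, false, false⟩, Sum.inl ⟨4, true, false⟩, Sum.inr 0], [Sum.inr 1, Sum.inl ⟨2, true, true⟩], [Sum.inl ⟨2, false, true⟩, Sum.inl ⟨4, false, false⟩, Sum.inl ⟨3, true, false⟩]] (by decide +kernel)) ?_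
  refine TEqM.trans (t' := ![[⟨0, false, false⟩, ⟨4, true, false⟩], [⟨2, true, true⟩], [⟨2, false, true⟩, ⟨4, false, false⟩, ⟨0, true, false⟩]])
    (TEqM.swpE 3 0 (by decide +kernel)) ?_
  exact (TEqM.swpE 4 1 (by decide +kernel))

theorem walk_tttft : TEqM ![[⟨0, true, true⟩, ⟨1, false, true⟩], [⟨1, true, true⟩, ⟨0, false, true⟩, ⟨2, false, false⟩], [⟨2, true, false⟩]]
    ![[⟨0, false, false⟩, ⟨1, true, false⟩], [⟨2, true, true⟩], [⟨2, false, true⟩, ⟨1, false, false⟩, ⟨0, true, false⟩]] := by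
  refine TEqM.trans (t' := ![[⟨3, false, false⟩, ⟨4, false, true⟩, ⟨0, true, true⟩, ⟨1, false, true⟩], [⟨1, true, true⟩, ⟨0, false, true⟩, ⟨2, false, false⟩], [⟨2, true, false⟩, ⟨4, true, true⟩, ⟨3, true, false⟩]])
    (TEqM.byE ((RMove.r2 3 4 (by decide) false false false).teq).symm ![[Sum.inr 0, Sum.inl ⟨0, true, true⟩, Sum.inl ⟨1, false, true⟩], [Sum.inl ⟨1, true, true⟩, Sum.inl ⟨0, false, true⟩, Sum.inl ⟨2, false, false⟩], [Sum.inl ⟨2, true, false⟩, Sum.inr 1]] (by decide +kernel)) ?_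
  refine TEqM.trans (t' := ![[⟨3, false, false⟩, ⟨4, true, false⟩, ⟨0, false, false⟩, ⟨1, false, true⟩], [⟨1, true, true⟩, ⟨0, true, false⟩, ⟨2, true, true⟩], [⟨2, false, true⟩, ⟨4, false, false⟩, ⟨3, true, false⟩]])
    (TEqM.byE (flipTri ![0, 2, 4] (by decide) ![true, true, true] ![true, false, true] (by decide)) ![[Sum.inl ⟨3, false, false⟩, Sum.inr 0, Sum.inl ⟨1, false, true⟩], [Sum.inl ⟨1, true, true⟩, Sum.inr 1], [Sum.inr 2, Sum.inl ⟨3, true, false⟩]] (by decide +kernel)) ?_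
  refine TEqM.trans (t' := ![[⟨3, false, false⟩, ⟨4, true, false⟩], [⟨2, true, true⟩], [⟨2, false, true⟩, ⟨4, false, false⟩, ⟨3, true, false⟩]])
    (TEqM.byE (RMove.r2 0 1 (by decide) false false false).teq ![[Sum.inl ⟨3, false, false⟩, Sum.inl ⟨4, true, false⟩, Sum.inr 0], [Sum.inr 1, Sum.inl ⟨2, true, true⟩], [Sum.inl ⟨2, false, true⟩, Sum.inl ⟨4, false, false⟩, Sum.inl ⟨3, true, false⟩]] (by decide +kernel)) ?_
  refine TEqM.trans (t' := ![[⟨0, false, false⟩, ⟨4, true, false⟩], [⟨2, true, true⟩], [⟨2, false, true⟩, ⟨4, false, false⟩, ⟨0, true, false⟩]])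
    (TEqM.swpE 3 0 (by decide +kernel)) ?_
  exact (TEqM.swpE 4 1 (by decide +kernel))

theorem walk_ttttf : TEqM ![[⟨0, false, false⟩, ⟨1, true, false⟩], [⟨1, false, false⟩, ⟨0, true, false⟩, ⟨2, true, true⟩], [⟨2, false, true⟩]]
    ![[⟨0, false, false⟩, ⟨1, true, false⟩], [⟨2, false, false⟩], [⟨2, true, false⟩, ⟨1, false, false⟩, ⟨0, true, false⟩]] := by
  refine TEqM.trans (t' := ![[⟨3, false, false⟩, ⟨4, false, true⟩, ⟨0, false, false⟩, ⟨1, true, false⟩], [⟨1, false, false⟩, ⟨0, true, false⟩, ⟨2, true, true⟩], [⟨2, false, true⟩, ⟨4, true, true⟩, ⟨3, true, false⟩]])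
    (TEqM.byE ((RMove.r2 3 4 (by decide) false false false).teq).symm ![[Sum.inr 0, Sum.inl ⟨0, false, false⟩, Sum.inl ⟨1, true, false⟩], [Sum.inl ⟨1, false, false⟩, Sum.inl ⟨0, true, false⟩, Sum.inl ⟨2, true, true⟩], [Sum.inl ⟨2, false, true⟩, Sum.inr 1]] (by decide +kernel)) ?_
  refine TEqM.trans (t' := ![[⟨3, false, false⟩, ⟨4, true, false⟩, ⟨0, true, true⟩, ⟨1, true, false⟩], [⟨1, false, false⟩, ⟨0, false, true⟩, ⟨2, false, false⟩], [⟨2, true, false⟩, ⟨4, false, false⟩, ⟨3, true, false⟩]])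
    (TEqM.byE (flipTri ![0, 2, 4] (by decide) ![true, true, true] ![false, true, true] (by decide)) ![[Sum.inl ⟨3, false, false⟩, Sum.inr 0, Sum.inl ⟨1, true, false⟩], [Sum.inl ⟨1, false, false⟩, Sum.inr 1], [Sum.inr 2, Sum.inl ⟨3, true, false⟩]] (by decide +kernel)) ?_
  refine TEqM.trans (t' := ![[⟨3, false, false⟩, ⟨4, true, false⟩], [⟨2, false, false⟩], [⟨2, true, false⟩, ⟨4, false, false⟩, ⟨3, true, false⟩]])
    (TEqM.byE (RMove.r2 0 1 (by decide) true true false).teq ![[Sum.inl ⟨3, false, false⟩, Sum.inl ⟨4, true, false⟩, Sum.inr 0], [Sum.inr 1, Sum.inl ⟨2, false, false⟩], [Sum.inl ⟨2, true, false⟩, Sum.inl ⟨4, false, false⟩, Sum.inl ⟨3, true, false⟩]] (by decide +kernel)) ?_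
  refine TEqM.trans (t' := ![[⟨0, false, false⟩, ⟨4, true, false⟩], [⟨2, false, false⟩], [⟨2, true, false⟩, ⟨4, false, false⟩, ⟨0, true, false⟩]])
    (TEqM.swpE 3 0 (by decide +kernel)) ?_
  exact (TEqM.swpE 4 1 (by decide +kernel))

theorem walk_ttttt : TEqM ![[⟨0, true, true⟩, ⟨1, false, true⟩], [⟨1, true, true⟩, ⟨0, false, true⟩, ⟨2, true, true⟩], [⟨2, false, true⟩]]
    ![[⟨0, true, true⟩, ⟨1, false, true⟩], [⟨2, false, false⟩], [⟨2, true, false⟩, ⟨1, true, true⟩, ⟨0, false, true⟩]] := by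
  refine TEqM.trans (t' := ![[⟨3, true, true⟩, ⟨4, true, false⟩, ⟨0, true, true⟩, ⟨1, false, true⟩], [⟨1, true, true⟩, ⟨0, false, true⟩, ⟨2, true, true⟩], [⟨2, false, true⟩, ⟨4, false, false⟩, ⟨3, false, true⟩]])
    (TEqM.byE ((RMove.r2 3 4 (by decide) true true false).teq).symm ![[Sum.inr 0, Sum.inl ⟨0, true, true⟩, Sum.inl ⟨1, false, true⟩], [Sum.inl ⟨1, true, true⟩, Sum.inl ⟨0, false, true⟩, Sum.inl ⟨2, true, true⟩], [Sum.inl ⟨2, false, true⟩, Sum.inr 1]] (by decide +kernel)) ?_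
  refine TEqM.trans (t' := ![[⟨3, true, true⟩, ⟨4, false, true⟩, ⟨0, false, false⟩, ⟨1, false, true⟩], [⟨1, true, true⟩, ⟨0, true, false⟩, ⟨2, false, false⟩], [⟨2, true, false⟩, ⟨4, true, true⟩, ⟨3, false, true⟩]])
    (TEqM.byE (flipTri ![0, 2, 4] (by decide) ![true, true, true] ![true, true, false] (by decide)) ![[Sum.inl ⟨3, true, true⟩, Sum.inr 0, Sum.inl ⟨1, false, true⟩], [Sum.inl ⟨1, true, true⟩, Sum.inr 1], [Sum.inr 2, Sum.inl ⟨3, false, true⟩]] (by decide +kernel)) ?_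
  refine TEqM.trans (t' := ![[⟨3, true, true⟩, ⟨4, false, true⟩], [⟨2, false, false⟩], [⟨2, true, false⟩, ⟨4, true, true⟩, ⟨3, false, true⟩]])
    (TEqM.byE (RMove.r2 0 1 (by decide) false false false).teq ![[Sum.inl ⟨3, true, true⟩, Sum.inl ⟨4, false, true⟩, Sum.inr 0], [Sum.inr 1, Sum.inl ⟨2, false, false⟩], [Sum.inl ⟨2, true, false⟩, Sum.inl ⟨4, true, true⟩, Sum.inl ⟨3, false, true⟩]] (by decide +kernel)) ?_
  refine TEqM.trans (t' := ![[⟨0, true, true⟩, ⟨4, false, true⟩], [⟨2, false, false⟩], [⟨2, true, false⟩, ⟨4, true, true⟩, ⟨0, false, true⟩]])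
    (TEqM.swpE 3 0 (by decide +kernel)) ?_
  exact (TEqM.swpE 4 1 (by decide +kernel))

theorem walk_c (s f τ ς σ : Bool) :
    ∃ σ', TEqM
      ![legP 0 1 f σ,
        if f then legQ 0 1 s σ ++ [⟨2, τ == ς, ς⟩] else ⟨2, τ == ς, ς⟩ :: legQ 0 1 s σ,
        [⟨2, !(τ == ς), ς⟩]]
      ![legP 0 1 (f == τ) σ',
        [⟨2, !(τ == ς), !ς⟩],
        if (f == τ) then ⟨2, τ == ς, !ς⟩ :: legQ 0 1 s σ' else legQ 0 1 s σ' ++ [⟨2, τ == ς, !ς⟩]] := by
  cases s <;> cases f <;> cases τ <;> cases ς <;> cases σ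
  · exact ⟨false, walk_fffff⟩
  · exact ⟨false, walk_fffft⟩
  · exact ⟨true, walk_ffftf⟩
  · exact ⟨true, walk_ffftt⟩
  · exact ⟨false, walk_fftff⟩
  · exact ⟨false, walk_fftft⟩
  · exact ⟨false, walk_ffttf⟩
  · exact ⟨true, walk_ffttt⟩
  · exact ⟨false, walk_ftfff⟩
  · exact ⟨false, walk_ftfft⟩
  · exact ⟨false, walk_ftftf⟩
  · exact ⟨false, walk_ftftt⟩
  · exact ⟨false, walk_fttff⟩
  · exact ⟨true, walk_fttft⟩
  · exact ⟨false, walk_ftttf⟩
  · exact ⟨true, walk_ftttt⟩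
  · exact ⟨false, walk_tffff⟩
  · exact ⟨false, walk_tffft⟩
  · exact ⟨false, walk_tfftf⟩
  · exact ⟨false, walk_tfftt⟩
  · exact ⟨false, walk_tftff⟩
  · exact ⟨true, walk_tftft⟩
  · exact ⟨false, walk_tfttf⟩
  · exact ⟨true, walk_tfttt⟩
  · exact ⟨false, walk_ttfff⟩
  · exact ⟨false, walk_ttfft⟩
  · exact ⟨true, walk_ttftf⟩
  · exact ⟨true, walk_ttftt⟩
  · exact ⟨false, walk_tttff⟩
  · exact ⟨false, walk_tttft⟩
  · exact ⟨false, walk_ttttf⟩
  · exact ⟨true, walk_ttttt⟩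

/-- The leg `q` of a clasp passes a crossing `x`, which is switched.  `τ`, `ς`: tail and sign of the
letter at which the leg arrives, forward if `f` (then the clasp is on the left of its edge), else
backward (then it is on the right).  Modulo local trefoils. -/
theorem walk_step (c : Fin 3 → ℕ) (hc : Function.Injective c) (s f τ ς σ : Bool) :
    ∃ σ', TEqM
      ![legP (c 0) (c 1) f σ,
        if f then legQ (c 0) (c 1) s σ ++ [⟨c 2, τ == ς, ς⟩]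
        else ⟨c 2, τ == ς, ς⟩ :: legQ (c 0) (c 1) s σ,
        [⟨c 2, !(τ == ς), ς⟩]]
      ![legP (c 0) (c 1) (f == τ) σ',
        [⟨c 2, !(τ == ς), !ς⟩],
        if (f == τ) then ⟨c 2, τ == ς, !ς⟩ :: legQ (c 0) (c 1) s σ'
        else legQ (c 0) (c 1) s σ' ++ [⟨c 2, τ == ς, !ς⟩]] := by
  obtain ⟨σ', h⟩ := walk_c s f τ ς σ
  refine ⟨σ', ?_⟩
  have e1 : (fun i => ((![legP 0 1 f σ,
        if f then legQ 0 1 s σ ++ [⟨2, τ == ς, ς⟩] else ⟨2, τ == ς, ς⟩ :: legQ 0 1 s σ,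
        [⟨2, !(τ == ς), ς⟩]] : Fin 3 → List Ltr) i).map (Ltr.relab (extv c))) =
      ![legP (c 0) (c 1) f σ,
        if f then legQ (c 0) (c 1) s σ ++ [⟨c 2, τ == ς, ς⟩]
        else ⟨c 2, τ == ς, ς⟩ :: legQ (c 0) (c 1) s σ,
        [⟨c 2, !(τ == ς), ς⟩]] := by
    funext i
    fin_cases i <;> cases f <;> cases s <;> rfl
  have e2 : (fun i => ((![legP 0 1 (f == τ) σ',
        [⟨2, !(τ == ς), !ς⟩],
        if (f == τ) then ⟨2, τ == ς, !ς⟩ :: legQ 0 1 s σ' else legQ 0 1 s σ' ++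
          [⟨2, τ == ς, !ς⟩]] : Fin 3 → List Ltr) i).map (Ltr.relab (extv c))) =
      ![legP (c 0) (c 1) (f == τ) σ',
        [⟨c 2, !(τ == ς), !ς⟩],
        if (f == τ) then ⟨c 2, τ == ς, !ς⟩ :: legQ (c 0) (c 1) s σ'
        else legQ (c 0) (c 1) s σ' ++ [⟨c 2, τ == ς, !ς⟩]] := by
    funext i
    fin_cases i <;> cases f <;> cases s <;> cases τ <;> rfl
  have := h.ext hc
    (by cases s <;> cases f <;> cases τ <;> cases ς <;> cases σ <;> decide)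
    (by cases s <;> cases f <;> cases τ <;> cases ς <;> cases σ' <;> decide)
  rwa [e1, e2] at this

theorem self_ff : TEq ![[⟨1, true, false⟩, ⟨0, false, false⟩, ⟨0, true, false⟩, ⟨1, false, false⟩]]
    ![[]] := by
  refine TEq.trans (t' := ![[⟨1, true, false⟩, ⟨1, false, false⟩]])
    (TEq.by (RMove.r1 0 false false).teq ![[Sum.inl ⟨1, true, false⟩, Sum.inr 0, Sum.inl ⟨1, false, false⟩]] (by decide +kernel)) ?_
  exact (TEq.by (RMove.r1 1 true false).teq ![[Sum.inr 0]] (by decide +kernel))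

theorem self'_ff : TEq ![[⟨0, true, false⟩, ⟨1, false, false⟩, ⟨1, true, false⟩, ⟨0, false, false⟩]]
    ![[]] := by
  refine TEq.trans (t' := ![[⟨0, true, false⟩, ⟨0, false, false⟩]])
    (TEq.by (RMove.r1 1 false false).teq ![[Sum.inl ⟨0, true, false⟩, Sum.inr 0, Sum.inl ⟨0, false, false⟩]] (by decide +kernel)) ?_
  exact (TEq.by (RMove.r1 0 true false).teq ![[Sum.inr 0]] (by decide +kernel))

theorem self_ft : TEq ![[⟨1, false, true⟩, ⟨0, true, true⟩, ⟨0, false, true⟩, ⟨1, true, true⟩]]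
    ![[]] := by
  refine TEq.trans (t' := ![[⟨1, false, true⟩, ⟨1, true, true⟩]])
    (TEq.by (RMove.r1 0 true true).teq ![[Sum.inl ⟨1, false, true⟩, Sum.inr 0, Sum.inl ⟨1, true, true⟩]] (by decide +kernel)) ?_
  exact (TEq.by (RMove.r1 1 false true).teq ![[Sum.inr 0]] (by decide +kernel))

theorem self'_ft : TEq ![[⟨0, false, true⟩, ⟨1, true, true⟩, ⟨1, false, true⟩, ⟨0, true, true⟩]]
    ![[]] := by
  refine TEq.trans (t' := ![[⟨0, false, true⟩, ⟨0, true, true⟩]])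
    (TEq.by (RMove.r1 1 true true).teq ![[Sum.inl ⟨0, false, true⟩, Sum.inr 0, Sum.inl ⟨0, true, true⟩]] (by decide +kernel)) ?_
  exact (TEq.by (RMove.r1 0 false true).teq ![[Sum.inr 0]] (by decide +kernel))

theorem self_tf : TEq ![[⟨0, false, false⟩, ⟨1, true, false⟩, ⟨1, false, false⟩, ⟨0, true, false⟩]]
    ![[]] := by
  refine TEq.trans (t' := ![[⟨0, false, false⟩, ⟨0, true, false⟩]])
    (TEq.by (RMove.r1 1 true false).teq ![[Sum.inl ⟨0, false, false⟩, Sum.inr 0, Sum.inl ⟨0, true, false⟩]] (by decide +kernel)) ?_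
  exact (TEq.by (RMove.r1 0 false false).teq ![[Sum.inr 0]] (by decide +kernel))

theorem self'_tf : TEq ![[⟨1, false, false⟩, ⟨0, true, false⟩, ⟨0, false, false⟩, ⟨1, true, false⟩]]
    ![[]] := by
  refine TEq.trans (t' := ![[⟨1, false, false⟩, ⟨1, true, false⟩]])
    (TEq.by (RMove.r1 0 true false).teq ![[Sum.inl ⟨1, false, false⟩, Sum.inr 0, Sum.inl ⟨1, true, false⟩]] (by decide +kernel)) ?_
  exact (TEq.by (RMove.r1 1 false false).teq ![[Sum.inr 0]] (by decide +kernel))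

theorem self_tt : TEq ![[⟨0, true, true⟩, ⟨1, false, true⟩, ⟨1, true, true⟩, ⟨0, false, true⟩]]
    ![[]] := by
  refine TEq.trans (t' := ![[⟨0, true, true⟩, ⟨0, false, true⟩]])
    (TEq.by (RMove.r1 1 false true).teq ![[Sum.inl ⟨0, true, true⟩, Sum.inr 0, Sum.inl ⟨0, false, true⟩]] (by decide +kernel)) ?_
  exact (TEq.by (RMove.r1 0 true true).teq ![[Sum.inr 0]] (by decide +kernel))

theorem self'_tt : TEq ![[⟨1, true, true⟩, ⟨0, false, true⟩, ⟨0, true, true⟩, ⟨1, false, true⟩]]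
    ![[]] := by
  refine TEq.trans (t' := ![[⟨1, true, true⟩, ⟨1, false, true⟩]])
    (TEq.by (RMove.r1 0 false true).teq ![[Sum.inl ⟨1, true, true⟩, Sum.inr 0, Sum.inl ⟨1, false, true⟩]] (by decide +kernel)) ?_
  exact (TEq.by (RMove.r1 1 true true).teq ![[Sum.inr 0]] (by decide +kernel))

/-- A clasp of an edge with itself, on the same side, is trivial. -/
theorem self_clasp (c : Fin 2 → ℕ) (hc : Function.Injective c) (s σ : Bool) :
    TEq ![legP (c 0) (c 1) s σ ++ legQ (c 0) (c 1) s σ] ![[]] ∧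
    TEq ![legQ (c 0) (c 1) s σ ++ legP (c 0) (c 1) s σ] ![[]] := by
  have e0 : (fun i => ((![[]] : Fin 1 → List Ltr) i).map (Ltr.relab (extv c))) = ![[]] := by
    funext i; fin_cases i; rfl
  constructor
  · have e1 : (fun i => ((![legP 0 1 s σ ++ legQ 0 1 s σ] : Fin 1 → List Ltr) i).map
        (Ltr.relab (extv c))) = ![legP (c 0) (c 1) s σ ++ legQ (c 0) (c 1) s σ] := by
      funext i; fin_cases i; cases s <;> rfl
    have h : TEq ![legP 0 1 s σ ++ legQ 0 1 s σ] ![[]] := by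
      cases s <;> cases σ
      · exact self_ff
      · exact self_ft
      · exact self_tf
      · exact self_tt
    have := h.ext hc (by cases s <;> cases σ <;> decide) (by decide)
    rwa [e1, e0] at this
  · have e1 : (fun i => ((![legQ 0 1 s σ ++ legP 0 1 s σ] : Fin 1 → List Ltr) i).map
        (Ltr.relab (extv c))) = ![legQ (c 0) (c 1) s σ ++ legP (c 0) (c 1) s σ] := by
      funext i; fin_cases i; cases s <;> rfl
    have h : TEq ![legQ 0 1 s σ ++ legP 0 1 s σ] ![[]] := by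
      cases s <;> cases σ
      · exact self'_ff
      · exact self'_ft
      · exact self'_tf
      · exact self'_tt
    have := h.ext hc (by cases s <;> cases σ <;> decide) (by decide)
    rwa [e1, e0] at this

end VPass
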