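import Pool.Agent.VPass.Psi
import Pool.Agent.VPass.WalkStep

/-!
# Region crossing changes modulo local trefoils: the walk of a clasp

MODULE Walk.

States `(i, f)`: the walk arrives at the letter `i` (index in the code), forward (`f = true`, along
the edge before the letter, the face on its left) or backward (`f = false`, along the edge after the
letter, the face on its right).  `next (i, f) = (j + 1, true)` if `f = tail i`, else
`(j - 1, false)`, where `j` is the index of the other letter of the crossing of `i`.  The colour of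
a state is `A[i].inL` if `f`, `A[i].outR` otherwise; it is constant along orbits by `CornerOK` and
the chain condition.  The letter `i` is switched iff an odd number of the four states
`(i, ±), (j, ±)` are coloured.

Orbits of colour 1 do not contain `(0, true)`, `(n - 1, false)`, so there is no wrap around.

One orbit `O` (colour 1, not touching the base edge, and not all sides): start at a state `v0 ∈ O`
whose edge has its other side not in `O`.  The leg `legP` of a clasp is placed on the
edge of `v0`, on the side `s = v0.2`; the other leg `legQ` next to it, between `legP` and the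
letter `v0.1` (`self_clasp`).  `walk_step` moves the leg `legQ` from the edge before (after) the
letter `i` to the edge after (before) the letter `j` and switches the crossing.
After the whole orbit it arrives at the other side of `legP` (`self_clasp` again).
-/

namespace VPass

/-- Region crossing change: the crossings at which the boundary of the coloured faces turns are
switched. -/
def flipBy (A : List CLtr) (w : List Ltr) : List Ltr :=
  List.zipWith (fun x a => if x.jump then a.flip else a) A w

/-! ### Words inserted in the gaps of a code -/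

/-- Words inserted in the gaps of a code: `ins g` before the letter of index `g`. -/
def wv (ins : ℕ → List Ltr) : ℕ → List Ltr → List Ltr
  | k, [] => ins k
  | k, x :: w => ins k ++ x :: wv ins (k + 1) w

/-- The template with hole `0` in the gap `gp` and holes `1`, `2` at the letters `i`, `j`. -/
def wt (gp i j : ℕ) : ℕ → List Ltr → List (Ltr ⊕ Fin 3)
  | k, [] => if k = gp then [Sum.inr 0] else []
  | k, x :: w => (if k = gp then [Sum.inr 0] else []) ++
      (if k = i then Sum.inr 1 else if k = j then Sum.inr 2 else Sum.inl x) :: wt gp i j (k + 1) w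

/-- The code with the letters `i`, `j` replaced. -/
def rp (i j : ℕ) (xi xj : Ltr) : ℕ → List Ltr → List Ltr
  | _, [] => []
  | k, x :: w => (if k = i then xi else if k = j then xj else x) :: rp i j xi xj (k + 1) w

lemma rp_length (i j : ℕ) (xi xj : Ltr) (k : ℕ) (w : List Ltr) :
    (rp i j xi xj k w).length = w.length := by
  induction w generalizing k with
  | nil => rfl
  | cons x w ih => simp [rp, ih]

lemma rp_getElem (i j : ℕ) (xi xj : Ltr) (k : ℕ) (w : List Ltr) (m : ℕ) (hm : m < w.length)
    (hm' : m < (rp i j xi xj k w).length) :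
    (rp i j xi xj k w)[m] = if k + m = i then xi else if k + m = j then xj else w[m] := by
  induction w generalizing k m with
  | nil => simp at hm
  | cons x w ih =>
    cases m with
    | zero => simp [rp]
    | succ m =>
      simp only [rp, List.getElem_cons_succ]
      rw [ih (k + 1) m (by simpa using hm)]
      have : k + 1 + m = k + (m + 1) := by omega
      rw [this]

/-- The words in the gaps: `P` in the gap `gp`, and `Q` before (`v.2 = true`) or after the letter
`v.1`. -/
def insQ (gp : ℕ) (P Q : List Ltr) (v : ℕ × Bool) (g : ℕ) : List Ltr :=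
  (if v.2 = false ∧ g = v.1 + 1 then Q else []) ++ (if g = gp then P else []) ++
    (if v.2 = true ∧ g = v.1 then Q else [])

lemma insQ_conv1 {gp : ℕ} (P Q : List Ltr) {j : ℕ} (h : j + 1 ≠ gp) :
    insQ gp P Q (j, false) = insQ gp P Q (j + 1, true) := by
  funext g
  unfold insQ
  by_cases h1 : g = j + 1
  · have h2 : g ≠ gp := by omega
    simp [h1, h]
  · simp [h1]

lemma insQ_conv2 {gp : ℕ} (P Q : List Ltr) {j : ℕ} (hj : 1 ≤ j) (h : j ≠ gp) :
    insQ gp P Q (j, true) = insQ gp P Q (j - 1, false) := by
  funext g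
  unfold insQ
  have e : j - 1 + 1 = j := by omega
  by_cases h1 : g = j
  · simp [h1, h, e]
  · simp [h1, e]

lemma fill_wt {gp i j : ℕ} {P Q : List Ltr} {v : ℕ × Bool} {xi xj : Ltr} {t : Fin 3 → List Ltr}
    (hij : i ≠ j) (hv : v.1 = i ∨ v.1 = j) (h0 : t 0 = P)
    (h1 : t 1 = (if v = (i, true) then Q else []) ++ xi :: (if v = (i, false) then Q else []))
    (h2 : t 2 = (if v = (j, true) then Q else []) ++ xj :: (if v = (j, false) then Q else []))
    (k : ℕ) (w : List Ltr) (hk : v.1 < k + w.length) :
    (if v.2 = false ∧ k = v.1 + 1 then Q else []) ++ fill (wt gp i j k w) t =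
      wv (insQ gp P Q v) k (rp i j xi xj k w) := by
  obtain ⟨a, b⟩ := v
  induction w generalizing k with
  | nil =>
    simp only [List.length_nil, Nat.add_zero] at hk
    have h3 : k ≠ a := by omega
    by_cases hg : k = gp
    · simp [wt, wv, rp, insQ, h0, hg]
      intro _ h4
      omega
    · simp [wt, wv, rp, insQ, h3, hg]
  | cons x w ih =>
    have ih' := ih (k + 1) (by simpa [Nat.add_assoc, Nat.add_comm 1] using hk)
    have e0 : fill (if k = gp then [Sum.inr (0 : Fin 3)] else []) t =
        if k = gp then P else [] := by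
      split_ifs <;> simp [h0]
    simp only [wt, fill_append, e0, rp, wv, insQ]
    rw [← ih']
    by_cases hi : k = i
    · subst hi
      simp only [if_true, fill_cons_inr, h1]
      have hb : (k + 1 = a + 1) ↔ (k = a) := by omega
      simp only [hb]
      cases b <;> by_cases ha : k = a <;>
        simp [ha, List.append_assoc, eq_comm]
      all_goals simp_all [eq_comm]
    · simp only [hi, if_false]
      by_cases hj : k = j
      · subst hj
        simp only [if_true, fill_cons_inr, h2]
        have hb : (k + 1 = a + 1) ↔ (k = a) := by omega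
        simp only [hb]
        cases b <;> by_cases ha : k = a <;>
          simp [ha, List.append_assoc, eq_comm]
        all_goals simp_all [eq_comm]
      · have ha : k ≠ a := by
          rintro rfl
          rcases hv with h | h
          · exact hi h
          · exact hj h
        simp [hj, fill_cons_inl, ha]

/-! ### The template -/

lemma wt_count (gp i j : ℕ) (hij : i ≠ j) (k : ℕ) (w : List Ltr) :
    (holes (wt gp i j k w)).count 0 = (if k ≤ gp ∧ gp ≤ k + w.length then 1 else 0) ∧
    (holes (wt gp i j k w)).count 1 = (if k ≤ i ∧ i < k + w.length then 1 else 0) ∧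
    (holes (wt gp i j k w)).count 2 = (if k ≤ j ∧ j < k + w.length then 1 else 0) := by
  induction w generalizing k with
  | nil =>
    simp only [wt, List.length_nil, Nat.add_zero]
    by_cases h : k = gp
    · subst h
      refine ⟨by simp, ?_, ?_⟩ <;> simp
    · simp only [h, if_false, holes_nil, List.count_nil]
      refine ⟨?_, ?_, ?_⟩
      · rw [if_neg (by omega)]
      · rw [if_neg (by omega)]
      · rw [if_neg (by omega)]
  | cons x w ih =>
    obtain ⟨h0, h1, h2⟩ := ih (k + 1)
    have e : holes (wt gp i j k (x :: w)) = (if k = gp then [0] else []) ++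
        ((if k = i then [1] else if k = j then [2] else []) ++ holes (wt gp i j (k + 1) w)) := by
      simp only [wt]
      split_ifs <;> simp
    rw [e]
    simp only [List.count_append, h0, h1, h2, List.length_cons]
    refine ⟨?_, ?_, ?_⟩
    · have a1 : List.count (0 : Fin 3) (if k = gp then [0] else []) = if k = gp then 1 else 0 := by
        split_ifs <;> rfl
      have a2 : List.count (0 : Fin 3) (if k = i then [1] else if k = j then [2] else []) = 0 := by
        split_ifs <;> rfl
      rw [a1, a2]
      split_ifs <;> omega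
    · have a1 : List.count (1 : Fin 3) (if k = gp then [0] else []) = 0 := by
        split_ifs <;> rfl
      have a2 : List.count (1 : Fin 3) (if k = i then [1] else if k = j then [2] else []) =
          if k = i then 1 else 0 := by
        split_ifs <;> rfl
      rw [a1, a2]
      split_ifs <;> omega
    · have a1 : List.count (2 : Fin 3) (if k = gp then [0] else []) = 0 := by
        split_ifs <;> rfl
      have a2 : List.count (2 : Fin 3) (if k = i then [1] else if k = j then [2] else []) =
          if k = j then 1 else 0 := by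
        by_cases h3 : k = i
        · subst h3
          simp [hij]
        · simp only [h3, if_false]
          split_ifs <;> rfl
      rw [a1, a2]
      split_ifs <;> omega

lemma wt_isTmpl {gp i j : ℕ} (hij : i ≠ j) {w : List Ltr} (hg : gp ≤ w.length)
    (hi : i < w.length) (hj : j < w.length) : IsTmpl (wt gp i j 0 w) := by
  obtain ⟨h0, h1, h2⟩ := wt_count gp i j hij 0 w
  unfold IsTmpl
  rw [List.perm_iff_count]
  intro a
  fin_cases a
  · simpa [hg] using h0
  · simpa [hi] using h1
  · simpa [hj] using h2

lemma mem_ctx {k : ℕ} {C : List (Ltr ⊕ Fin k)} {b : Ltr} (h : Sum.inl b ∈ C) : b ∈ ctx C := by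
  induction C with
  | nil => simp at h
  | cons x C ih =>
    cases x with
    | inl a =>
      rw [code_ctx_cons_inl]
      rcases List.mem_cons.1 h with h | h
      · rw [Sum.inl.injEq] at h
        simp [h]
      · exact List.mem_cons_of_mem _ (ih h)
    | inr i =>
      rw [code_ctx_cons_inr]
      rcases List.mem_cons.1 h with h | h
      · exact absurd h (by simp)
      · exact ih h

lemma ctx_append {k : ℕ} (C D : List (Ltr ⊕ Fin k)) : ctx (C ++ D) = ctx C ++ ctx D := by
  simp [ctx]

lemma wt_ctx {gp i j c : ℕ} (k : ℕ) (w : List Ltr)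
    (h : ∀ m (hm : m < w.length), w[m].lab = c ↔ (k + m = i ∨ k + m = j)) :
    ctx (wt gp i j k w) = w.filter (fun a => a.lab ≠ c) := by
  induction w generalizing k with
  | nil =>
    simp only [wt]
    split_ifs <;> simp
  | cons x w ih =>
    have h0 := h 0 (by simp)
    have ih' := ih (k + 1) (fun m hm => by
      have := h (m + 1) (by simpa using hm)
      simp only [List.getElem_cons_succ] at this
      rw [this]
      constructor <;> rintro (h | h) <;> [left; right; left; right] <;> omega)
    simp only [List.getElem_cons_zero, Nat.add_zero] at h0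
    have e : ctx (wt gp i j k (x :: w)) = (if k = i ∨ k = j then [] else [x]) ++
        ctx (wt gp i j (k + 1) w) := by
      simp only [wt, ctx_append]
      by_cases h1 : k = gp <;> by_cases h2 : k = i <;> by_cases h3 : k = j <;> simp [h1, h2, h3]
      all_goals simp_all
    rw [e, ih', List.filter_cons]
    by_cases hc : x.lab = c
    · have := h0.1 hc
      simp [hc, this]
    · have : ¬ (k = i ∨ k = j) := fun h => hc (h0.2 h)
      simp [hc, this]

lemma isCode_filter {w : List Ltr} (hw : IsCode w) (c : ℕ) :
    IsCode (w.filter (fun a => a.lab ≠ c)) := by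
  intro d
  rw [List.filter_filter]
  by_cases h : d = c
  · left
    subst h
    rw [List.filter_eq_nil_iff]
    intro a _
    simp
  · have e : w.filter (fun a => decide (a.lab = d) && decide (a.lab ≠ c)) =
        w.filter (fun a => a.lab = d) := by
      apply List.filter_congr
      intro a _
      by_cases h1 : a.lab = d
      · have h2 : a.lab ≠ c := by rw [h1]; exact h
        simp [h1, h]
      · simp [h1]
    rw [e]
    exact hw d

/-! ### Partners -/

lemma code_split {w : List Ltr} {i : ℕ} (hi : i < w.length) (p : Ltr → Bool) :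
    w.filter p = (w.take i).filter p ++ (if p w[i] then [w[i]] else []) ++
      (w.drop (i + 1)).filter p := by
  conv_lhs => rw [← List.take_append_drop i w, List.drop_eq_getElem_cons hi]
  rw [List.filter_append, List.filter_cons]
  split_ifs <;> simp

lemma code_exists_partner {w : List Ltr} (hw : IsCode w) {i : ℕ} (hi : i < w.length) :
    ∃ j, ∃ hj : j < w.length, j ≠ i ∧ w[j].lab = w[i].lab := by
  by_contra hcon
  push Not at hcon
  have h1 : (w.take i).filter (fun a => a.lab = w[i].lab) = [] := by
    rw [List.filter_eq_nil_iff]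
    intro a ha
    obtain ⟨m, hm, rfl⟩ := List.mem_iff_getElem.1 ha
    rw [List.length_take] at hm
    rw [List.getElem_take]
    simpa using hcon m (by omega) (by omega)
  have h2 : (w.drop (i + 1)).filter (fun a => a.lab = w[i].lab) = [] := by
    rw [List.filter_eq_nil_iff]
    intro a ha
    obtain ⟨m, hm, rfl⟩ := List.mem_iff_getElem.1 ha
    rw [List.length_drop] at hm
    rw [List.getElem_drop]
    simpa using hcon (i + 1 + m) (by omega) (by omega)
  have h3 := code_split hi (fun a => a.lab = w[i].lab)
  rw [h1, h2] at h3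
  simp only [decide_true, if_true, List.nil_append, List.append_nil] at h3
  rcases hw w[i].lab with h | ⟨o, s, h⟩
  · rw [h3] at h; simp at h
  · rw [h3] at h; simp at h

lemma code_pair_lt {w : List Ltr} (hw : IsCode w) {i j : ℕ} (hi : i < w.length)
    (hj : j < w.length) (hij : i < j) (hl : w[j].lab = w[i].lab) :
    w[j] = ⟨w[i].lab, !w[i].ov, w[i].pos⟩ ∧
      ∀ m (hm : m < w.length), w[m].lab = w[i].lab → m = i ∨ m = j := by
  set c := w[i].lab with hc
  have h3 := code_split hi (fun a => a.lab = c)
  have hj' : j - (i + 1) < (w.drop (i + 1)).length := by rw [List.length_drop]; omega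
  have h4 := code_split hj' (fun a => a.lab = c)
  have e1 : (w.drop (i + 1))[j - (i + 1)] = w[j] := by
    rw [List.getElem_drop]
    congr 1
    omega
  rw [e1] at h4
  simp only [← hc, hl, decide_true, if_true] at h3 h4
  rw [h4] at h3
  rcases hw c with h | ⟨o, s, h⟩
  · rw [h3] at h; simp at h
  · rw [h3] at h
    have hlen := congrArg List.length h
    simp only [List.length_append, List.length_cons, List.length_nil] at hlen
    have n1 : (w.take i).filter (fun a => a.lab = c) = [] := List.length_eq_zero_iff.1 (by omega)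
    have n2 : ((w.drop (i + 1)).take (j - (i + 1))).filter (fun a => a.lab = c) = [] :=
      List.length_eq_zero_iff.1 (by omega)
    have n3 : ((w.drop (i + 1)).drop (j - (i + 1) + 1)).filter (fun a => a.lab = c) = [] :=
      List.length_eq_zero_iff.1 (by omega)
    rw [n1, n2, n3] at h
    simp only [List.nil_append, List.append_nil, List.cons_append, List.cons.injEq,
      and_true] at h
    refine ⟨?_, ?_⟩
    · rw [h.2, h.1]
    · intro m hm hm'
      by_contra hcon
      push Not at hcon
      rcases lt_trichotomy m i with h5 | h5 | h5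
      · have : w[m] ∈ (w.take i).filter (fun a => a.lab = c) := by
          rw [List.mem_filter]
          refine ⟨List.mem_take_iff_getElem.2 ⟨m, by omega, rfl⟩, by simpa using hm'⟩
        rw [n1] at this
        simp at this
      · exact hcon.1 h5
      · rcases lt_trichotomy m j with h6 | h6 | h6
        · have : w[m] ∈ ((w.drop (i + 1)).take (j - (i + 1))).filter (fun a => a.lab = c) := by
            rw [List.mem_filter]
            refine ⟨List.mem_take_iff_getElem.2 ⟨m - (i + 1), by rw [List.length_drop]; omega, ?_⟩,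
              by simpa using hm'⟩
            rw [List.getElem_drop]
            congr 1
            omega
          rw [n2] at this
          simp at this
        · exact hcon.2 h6
        · have : w[m] ∈ ((w.drop (i + 1)).drop (j - (i + 1) + 1)).filter
              (fun a => a.lab = c) := by
            rw [List.mem_filter]
            refine ⟨?_, by simpa using hm'⟩
            rw [List.drop_drop, List.mem_drop_iff_getElem]
            refine ⟨m - (i + 1 + (j - (i + 1) + 1)), by omega, ?_⟩
            congr 1
            omega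
          rw [n3] at this
          simp at this

lemma code_pair {w : List Ltr} (hw : IsCode w) {i j : ℕ} (hi : i < w.length)
    (hj : j < w.length) (hij : i ≠ j) (hl : w[j].lab = w[i].lab) :
    w[j] = ⟨w[i].lab, !w[i].ov, w[i].pos⟩ ∧
      ∀ m (hm : m < w.length), w[m].lab = w[i].lab → m = i ∨ m = j := by
  rcases lt_or_gt_of_ne hij with h | h
  · exact code_pair_lt hw hi hj h hl
  · obtain ⟨h1, h2⟩ := code_pair_lt hw hj hi h hl.symm
    refine ⟨?_, fun m hm e => ?_⟩
    · ext
      · exact hl
      · rw [h1]; simp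
      · rw [h1]
    · exact (h2 m hm (e.trans hl.symm)).symm

/-! ### One step of the walk -/

/-- Switching of the crossings `c` with `q c`. -/
def flipP (q : ℕ → Bool) (w : List Ltr) : List Ltr := w.map (fun a => if q a.lab then a.flip else a)

@[simp] lemma flip_lab (a : Ltr) : a.flip.lab = a.lab := rfl
@[simp] lemma flip_tail (a : Ltr) : a.flip.tail = a.tail := by
  unfold Ltr.tail Ltr.flip
  cases a.ov <;> cases a.pos <;> rfl
lemma flip_flip (a : Ltr) : a.flip.flip = a := by
  ext <;> simp [Ltr.flip]

lemma flipP_length (q : ℕ → Bool) (w : List Ltr) : (flipP q w).length = w.length := by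
  simp [flipP]

lemma flipP_congr {q q' : ℕ → Bool} {w : List Ltr} (h : ∀ a ∈ w, q a.lab = q' a.lab) :
    flipP q w = flipP q' w := by
  unfold flipP
  apply List.map_congr_left
  intro a ha
  rw [h a ha]

lemma flipP_flipP (q q' : ℕ → Bool) (w : List Ltr) :
    flipP q (flipP q' w) = flipP (fun c => xor (q c) (q' c)) w := by
  unfold flipP
  rw [List.map_map]
  apply List.map_congr_left
  intro a _
  simp only [Function.comp_apply]
  by_cases h1 : q' a.lab = true <;> by_cases h2 : q a.lab = true <;> simp [h1, h2, flip_flip]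

lemma flipP_false {q : ℕ → Bool} {w : List Ltr} (h : ∀ a ∈ w, q a.lab = false) :
    flipP q w = w := by
  unfold flipP
  conv_rhs => rw [← List.map_id w]
  apply List.map_congr_left
  intro a ha
  simp [h a ha]

lemma isCode_flipP {w : List Ltr} (hw : IsCode w) (q : ℕ → Bool) : IsCode (flipP q w) := by
  intro c
  have e : (flipP q w).filter (fun a => a.lab = c) =
      (w.filter (fun a => a.lab = c)).map (fun a => if q a.lab then a.flip else a) := by
    unfold flipP
    rw [List.filter_map]
    congr 1
    apply List.filter_congr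
    intro a _
    simp only [Function.comp_apply]
    cases q a.lab <;> simp
  rw [e]
  rcases hw c with h | ⟨o, s, h⟩
  · left; rw [h]; rfl
  · right
    rw [h]
    cases hq : q c
    · exact ⟨o, s, by simp [hq]⟩
    · exact ⟨!o, !s, by simp [hq, Ltr.flip]⟩

/-- **One step of the walk.** -/
lemma walk_word {w : List Ltr} (hw : IsCode w) {i j : ℕ} (hi : i < w.length) (hj : j < w.length)
    (hij : i ≠ j) (hl : w[j].lab = w[i].lab) {gp : ℕ} (hg : gp ≤ w.length) {d e : ℕ}
    (hde : d ≠ e) (hd : ∀ a ∈ w, a.lab ≠ d) (he : ∀ a ∈ w, a.lab ≠ e) (s f σ : Bool) :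
    ∃ σ', WEq (wv (insQ gp (legP d e f σ) (legQ d e s σ) (i, f)) 0 w)
      (wv (insQ gp (legP d e (f == w[i].tail) σ') (legQ d e s σ') (j, !(f == w[i].tail))) 0
        (flipP (fun c => c = w[i].lab) w)) ∧
      IsCode (wv (insQ gp (legP d e (f == w[i].tail) σ') (legQ d e s σ')
        (j, !(f == w[i].tail))) 0 (flipP (fun c => c = w[i].lab) w)) := by
  obtain ⟨hp1, hp2⟩ := code_pair hw hi hj hij hl
  set c := w[i].lab with hc
  have hdc : d ≠ c := fun h => hd _ (List.getElem_mem hi) (by rw [h])
  have hec : e ≠ c := fun h => he _ (List.getElem_mem hi) (by rw [h])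
  have hinj : Function.Injective ![d, e, c] := by
    intro x y hxy
    fin_cases x <;> fin_cases y <;> simp_all
  obtain ⟨σ', hM⟩ := walk_step ![d, e, c] hinj s f w[i].tail w[i].pos σ
  refine ⟨σ', ?_⟩
  have hov : (w[i].tail == w[i].pos) = w[i].ov := by
    unfold Ltr.tail
    cases w[i].ov <;> cases w[i].pos <;> rfl
  rw [hov] at hM
  have c0 : (![d, e, c] : Fin 3 → ℕ) 0 = d := rfl
  have c1 : (![d, e, c] : Fin 3 → ℕ) 1 = e := rfl
  have c2 : (![d, e, c] : Fin 3 → ℕ) 2 = c := rfl
  rw [c0, c1, c2] at hM
  have hwi : (⟨c, w[i].ov, w[i].pos⟩ : Ltr) = w[i] := by ext <;> simp [hc]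
  have hmem : ∀ m (hm : m < w.length), w[m].lab = c ↔ (0 + m = i ∨ 0 + m = j) := by
    intro m hm
    constructor
    · intro h
      have := hp2 m hm h
      rwa [Nat.zero_add]
    · rintro (h | h)
      · have : m = i := by omega
        subst this; exact hc.symm
      · have : m = j := by omega
        subst this; exact hl
  have hctx : ctx (wt gp i j 0 w) = w.filter (fun a => a.lab ≠ c) := wt_ctx 0 w hmem
  have hT : ∀ b, Sum.inl b ∈ wt gp i j 0 w → b ∈ w ∧ b.lab ≠ c := by
    intro b hb
    have := mem_ctx hb
    rw [hctx, List.mem_filter] at this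
    exact ⟨this.1, by simpa using this.2⟩
  have hlabP : ∀ t' σ'', ∀ a ∈ legP d e t' σ'', a.lab = d ∨ a.lab = e := by
    intro t' σ'' a ha
    unfold legP at ha
    split_ifs at ha <;> simp only [List.mem_cons, List.not_mem_nil, or_false] at ha <;>
      rcases ha with rfl | rfl <;> simp
  have hlabQ : ∀ t' σ'', ∀ a ∈ legQ d e t' σ'', a.lab = d ∨ a.lab = e := by
    intro t' σ'' a ha
    unfold legQ at ha
    split_ifs at ha <;> simp only [List.mem_cons, List.not_mem_nil, or_false] at ha <;>
      rcases ha with rfl | rfl <;> simp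
  have hfr : ∀ t : Fin 3 → List Ltr, (∀ m, ∀ a ∈ t m, a.lab = d ∨ a.lab = e ∨ a.lab = c) →
      Fresh (wt gp i j 0 w) t := by
    intro t ht m a ha b hb hba
    obtain ⟨h1, h2⟩ := hT b hb
    rcases ht m a ha with h | h | h
    · exact hd b h1 (hba.trans h)
    · exact he b h1 (hba.trans h)
    · exact h2 (hba.trans h)
  have hcode : IsCode (ctx (wt gp i j 0 w)) := by
    rw [hctx]; exact isCode_filter hw c
  have hf1 := hfr ![legP d e f σ,
        if f then legQ d e s σ ++ [⟨c, w[i].ov, w[i].pos⟩]
        else ⟨c, w[i].ov, w[i].pos⟩ :: legQ d e s σ,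
        [⟨c, !w[i].ov, w[i].pos⟩]] (by
      intro m a ha
      fin_cases m
      · rcases hlabP _ _ a (by simpa using ha) with h | h <;> simp [h]
      · have ha' : a ∈ legQ d e s σ ∨ a = ⟨c, w[i].ov, w[i].pos⟩ := by
          cases f
          · simpa [or_comm] using ha
          · simpa using ha
        rcases ha' with h | h
        · rcases hlabQ _ _ a h with h | h <;> simp [h]
        · simp [h]
      · have ha' : a = ⟨c, !w[i].ov, w[i].pos⟩ := by simpa using ha
        simp [ha'])
  have hf2 := hfr ![legP d e (f == w[i].tail) σ',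
        [⟨c, !w[i].ov, !w[i].pos⟩],
        if (f == w[i].tail) then ⟨c, w[i].ov, !w[i].pos⟩ :: legQ d e s σ'
        else legQ d e s σ' ++ [⟨c, w[i].ov, !w[i].pos⟩]] (by
      intro m a ha
      fin_cases m
      · rcases hlabP _ _ a (by simpa using ha) with h | h <;> simp [h]
      · have ha' : a = ⟨c, !w[i].ov, !w[i].pos⟩ := by simpa using ha
        simp [ha']
      · have ha' : a ∈ legQ d e s σ' ∨ a = ⟨c, w[i].ov, !w[i].pos⟩ := by
          cases hft : (f == w[i].tail)
          · simpa [hft] using ha
          · simpa [hft, or_comm] using ha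
        rcases ha' with h | h
        · rcases hlabQ _ _ a h with h | h <;> simp [h]
        · simp [h])
  have hT' := wt_isTmpl hij hg hi hj
  have H := hM.2.2 (wt gp i j 0 w) hT' hf1 hf2 hcode
  have H2 := (isCode_fill_iff hT' hf2 hM.2.1).2 hcode
  have r1 : rp i j w[i] w[j] 0 w = w := by
    apply List.ext_getElem (rp_length _ _ _ _ _ _)
    intro m hm1 hm2
    rw [rp_getElem i j w[i] w[j] 0 w m hm2 hm1]
    split_ifs with h1 h2
    · have : m = i := by omega
      subst this; rfl
    · have : m = j := by omega
      subst this; rfl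
    · rfl
  have r2 : rp i j w[i].flip w[j].flip 0 w = flipP (fun c' => c' = c) w := by
    apply List.ext_getElem (by rw [rp_length, flipP_length])
    intro m hm1 hm2
    have hm3 : m < w.length := by rwa [rp_length] at hm1
    rw [rp_getElem i j _ _ 0 w m hm3 hm1]
    simp only [flipP, List.getElem_map]
    have := hmem m hm3
    split_ifs with h1 h2 h3 h4 h5
    · have : m = i := by omega
      subst this; rfl
    · exact absurd (decide_eq_true (this.2 (Or.inl h1))) h2
    · have : m = j := by omega
      subst this; rfl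
    · exact absurd (decide_eq_true (this.2 (Or.inr h3))) h4
    · rcases this.1 (of_decide_eq_true h5) with h6 | h6
      · exact absurd h6 h1
      · exact absurd h6 h3
    · rfl
  have f1 := fill_wt (gp := gp) (i := i) (j := j) (P := legP d e f σ) (Q := legQ d e s σ)
    (v := (i, f)) (xi := w[i]) (xj := w[j])
    (t := ![legP d e f σ,
        if f then legQ d e s σ ++ [⟨c, w[i].ov, w[i].pos⟩]
        else ⟨c, w[i].ov, w[i].pos⟩ :: legQ d e s σ,
        [⟨c, !w[i].ov, w[i].pos⟩]]) hij (Or.inl rfl) rfl
    (by cases f <;> simp [hwi]) (by simp [hij, hp1]) 0 w (by simpa using hi)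
  have f2 := fill_wt (gp := gp) (i := i) (j := j) (P := legP d e (f == w[i].tail) σ')
    (Q := legQ d e s σ')
    (v := (j, !(f == w[i].tail))) (xi := w[i].flip) (xj := w[j].flip)
    (t := ![legP d e (f == w[i].tail) σ',
        [⟨c, !w[i].ov, !w[i].pos⟩],
        if (f == w[i].tail) then ⟨c, w[i].ov, !w[i].pos⟩ :: legQ d e s σ'
        else legQ d e s σ' ++ [⟨c, w[i].ov, !w[i].pos⟩]]) hij (Or.inr rfl) rfl
    (by simp [Ne.symm hij, Ltr.flip, hc])
    (by cases hft : (f == w[i].tail) <;> simp [hp1, Ltr.flip]) 0 w
    (by simpa using hj)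
  rw [r1] at f1
  rw [r2] at f2
  simp only [and_false, (show ∀ n, (0 = n + 1) = False from fun n => by simp), if_false,
    List.nil_append] at f1 f2
  rw [f1, f2] at H
  rw [f2] at H2
  exact ⟨H, H2⟩

/-! ### Insertion of a trivial word -/

/-- The template with one hole in the gap `gp`. -/
def wt1 (gp : ℕ) : ℕ → List Ltr → List (Ltr ⊕ Fin 1)
  | k, [] => if k = gp then [Sum.inr 0] else []
  | k, x :: w => (if k = gp then [Sum.inr 0] else []) ++ Sum.inl x :: wt1 gp (k + 1) w

lemma fill_wt1 (gp : ℕ) (X : List Ltr) (k : ℕ) (w : List Ltr) :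
    fill (wt1 gp k w) ![X] = wv (fun g => if g = gp then X else []) k w := by
  induction w generalizing k with
  | nil => by_cases h : k = gp <;> simp [wt1, wv, h]
  | cons x w ih => by_cases h : k = gp <;> simp [wt1, wv, h, ih]

lemma wv_nil (k : ℕ) (w : List Ltr) : wv (fun _ => []) k w = w := by
  induction w generalizing k with
  | nil => rfl
  | cons x w ih => simp [wv, ih]

lemma wt1_count (gp k : ℕ) (w : List Ltr) :
    (holes (wt1 gp k w)).count 0 = (if k ≤ gp ∧ gp ≤ k + w.length then 1 else 0) := by
  induction w generalizing k with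
  | nil =>
    simp only [wt1, List.length_nil, Nat.add_zero]
    by_cases h : k = gp
    · simp [h]
    · simp only [h, if_false, holes_nil, List.count_nil]
      rw [if_neg (by omega)]
  | cons x w ih =>
    simp only [wt1, holes_append, holes_cons_inl, List.count_append, ih, List.length_cons]
    by_cases h : k = gp
    · subst h
      simp
    · simp only [h, if_false, holes_nil, List.count_nil]
      split_ifs <;> omega

lemma wt1_isTmpl {gp : ℕ} {w : List Ltr} (hg : gp ≤ w.length) : IsTmpl (wt1 gp 0 w) := by
  have h0 := wt1_count gp 0 w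
  unfold IsTmpl
  rw [List.perm_iff_count]
  intro a
  fin_cases a
  simpa [hg] using h0

lemma wt1_mem {gp k : ℕ} {w : List Ltr} {b : Ltr} (h : Sum.inl b ∈ wt1 gp k w) : b ∈ w := by
  induction w generalizing k with
  | nil =>
    simp only [wt1] at h
    split_ifs at h <;> simp at h
  | cons x w ih =>
    simp only [wt1, List.mem_append, List.mem_cons] at h
    rcases h with h | h | h
    · split_ifs at h <;> simp at h
    · rw [Sum.inl.injEq] at h
      simp [h]
    · exact List.mem_cons_of_mem _ (ih h)

lemma leq_wv {X : List Ltr} (hX : TEq ![X] ![[]]) {gp : ℕ} {w : List Ltr} (hg : gp ≤ w.length)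
    (hf : ∀ a ∈ X, ∀ b ∈ w, b.lab ≠ a.lab) :
    LEq (wv (fun g => if g = gp then X else []) 0 w) w := by
  have h := hX (wt1 gp 0 w) (wt1_isTmpl hg) (by
    intro i a ha b hb
    fin_cases i
    exact hf a (by simpa using ha) b (wt1_mem hb)) (by
    intro i a ha b hb
    fin_cases i
    simp at ha)
  rw [fill_wt1, fill_wt1] at h
  have e : (fun g => if g = gp then ([] : List Ltr) else []) = fun _ => [] := by
    funext g
    simp
  rw [e, wv_nil] at h
  exact h

/-- The gap of the edge of a state. -/
def gapv (v : ℕ × Bool) : ℕ := if v.2 then v.1 else v.1 + 1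

lemma insQ_self {gp : ℕ} (P Q : List Ltr) {v : ℕ × Bool} (h : gapv v = gp) :
    insQ gp P Q v = fun g => if g = gp then (if v.2 then P ++ Q else Q ++ P) else [] := by
  obtain ⟨i, f⟩ := v
  subst h
  funext g
  cases f
  · by_cases hg : g = i + 1 <;> simp [insQ, gapv, hg]
  · by_cases hg : g = i <;> simp [insQ, gapv, hg]

lemma clasp_trivial {d e : ℕ} (hde : d ≠ e) (s σ b : Bool) :
    TEq ![if b = true then legP d e s σ ++ legQ d e s σ else legQ d e s σ ++ legP d e s σ]
      ![[]] := by
  have hinj : Function.Injective ![d, e] := by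
    intro x y hxy
    fin_cases x <;> fin_cases y <;> simp_all
  obtain ⟨h1, h2⟩ := self_clasp ![d, e] hinj s σ
  cases b
  · exact h2
  · exact h1

/-! ### The flat structure of a code -/

/-- Labels, tails and partners of the letters of a code, by their indices. -/
structure FlatStr (n : ℕ) (lab : ℕ → ℕ) (tl : ℕ → Bool) (pr : ℕ → ℕ) : Prop where
  lt : ∀ i < n, pr i < n
  ne : ∀ i < n, pr i ≠ i
  inv : ∀ i < n, pr (pr i) = i
  lab_pr : ∀ i < n, lab (pr i) = lab i
  tl_pr : ∀ i < n, tl (pr i) = !tl i
  uniq : ∀ i < n, ∀ k < n, lab k = lab i → k = i ∨ k = pr i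

/-- The code has the labels and tails of the flat structure. -/
def Rz (n : ℕ) (lab : ℕ → ℕ) (tl : ℕ → Bool) (w : List Ltr) : Prop :=
  w.length = n ∧ ∀ i (h : i < w.length), w[i].lab = lab i ∧ w[i].tail = tl i

lemma Rz.flipP {n : ℕ} {lab : ℕ → ℕ} {tl : ℕ → Bool} {w : List Ltr} (h : Rz n lab tl w)
    (q : ℕ → Bool) : Rz n lab tl (flipP q w) := by
  refine ⟨by rw [flipP_length]; exact h.1, ?_⟩
  intro i hi
  have hi' : i < w.length := by rwa [flipP_length] at hi
  obtain ⟨h1, h2⟩ := h.2 i hi'
  simp only [VPass.flipP, List.getElem_map]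
  split_ifs
  · exact ⟨h1, by rw [flip_tail]; exact h2⟩
  · exact ⟨h1, h2⟩

/-- The next state of the walk. -/
def nx (tl : ℕ → Bool) (pr : ℕ → ℕ) (v : ℕ × Bool) : ℕ × Bool :=
  if v.2 = tl v.1 then (pr v.1 + 1, true) else (pr v.1 - 1, false)

/-- A set of states closed under the walk and not touching the base edge. -/
structure Good (n : ℕ) (tl : ℕ → Bool) (pr : ℕ → ℕ) (O : Finset (ℕ × Bool)) : Prop where
  lt : ∀ v ∈ O, v.1 < n
  zero : (0, true) ∉ O
  nx : ∀ v ∈ O, nx tl pr v ∈ O
  pos : ∀ v ∈ O, v.2 ≠ tl v.1 → 1 ≤ pr v.1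

variable {n : ℕ} {lab : ℕ → ℕ} {tl : ℕ → Bool} {pr : ℕ → ℕ}

lemma nx_inj (hF : FlatStr n lab tl pr) {O : Finset (ℕ × Bool)} (hO : Good n tl pr O)
    {u v : ℕ × Bool} (hu : u ∈ O) (hv : v ∈ O) (h : nx tl pr u = nx tl pr v) : u = v := by
  obtain ⟨i, f⟩ := u
  obtain ⟨j, g⟩ := v
  have hi : i < n := hO.lt _ hu
  have hj : j < n := hO.lt _ hv
  have pi := hO.pos _ hu
  have pj := hO.pos _ hv
  simp only [nx] at h
  simp only at pi pj
  by_cases h1 : f = tl i <;> by_cases h2 : g = tl j
  · simp only [h1, h2, if_true, Prod.mk.injEq, and_true] at h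
    have h3 : pr i = pr j := by omega
    have h4 : i = j := by rw [← hF.inv i hi, h3, hF.inv j hj]
    rw [h1, h2, h4]
  · simp only [h1, h2, if_true, if_false, Prod.mk.injEq, reduceCtorEq, and_false] at h
  · simp only [h1, h2, if_true, if_false, Prod.mk.injEq, reduceCtorEq, and_false] at h
  · simp only [h1, h2, if_false, Prod.mk.injEq, and_true] at h
    have h5 := pi h1
    have h6 := pj h2
    have h3 : pr i = pr j := by omega
    have h4 : i = j := by rw [← hF.inv i hi, h3, hF.inv j hj]
    subst h4
    have h7 : f = g := by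
      cases f <;> cases g <;> cases htl : tl i <;> simp_all
    rw [h7]

/-- The other side of the edge of a state. -/
def opp (v : ℕ × Bool) : ℕ × Bool := if v.2 then (v.1 - 1, false) else (v.1 + 1, true)

lemma exists_start (hF : FlatStr n lab tl pr) {O : Finset (ℕ × Bool)} (hO : Good n tl pr O)
    (hne : O.Nonempty) : ∃ v ∈ O, opp v ∉ O := by
  by_contra hcon
  push Not at hcon
  have step : ∀ i, (i, true) ∈ O → (i + 1, true) ∈ O := by
    intro i hi
    have hin : i < n := hO.lt _ hi
    have h1 := hO.nx _ hi
    simp only [nx] at h1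
    cases ht : tl i
    · have hp : 1 ≤ pr i := hO.pos _ hi (by simp [ht])
      simp only [ht, reduceCtorEq, if_false] at h1
      have h2 := hcon _ h1
      have e : opp (pr i - 1, false) = (pr i, true) := by
        simp only [opp, Bool.false_eq_true, if_false, Prod.mk.injEq, and_true]
        omega
      rw [e] at h2
      have h3 := hO.nx _ h2
      have e3 : nx tl pr (pr i, true) = (i + 1, true) := by
        simp [nx, hF.tl_pr i hin, ht, hF.inv i hin]
      rwa [e3] at h3
    · simp only [ht, if_true] at h1
      have h2 := hcon _ h1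
      have e : opp (pr i + 1, true) = (pr i, false) := by
        simp [opp]
      rw [e] at h2
      have h3 := hO.nx _ h2
      have e3 : nx tl pr (pr i, false) = (i + 1, true) := by
        simp [nx, hF.tl_pr i hin, ht, hF.inv i hin]
      rwa [e3] at h3
  have all : ∀ i k, (i, true) ∈ O → (i + k, true) ∈ O := by
    intro i k hi
    induction k with
    | zero => exact hi
    | succ k ih => exact step _ ih
  obtain ⟨⟨i, f⟩, hv⟩ := hne
  cases f
  · have h1 : (i + 1, true) ∈ O := by simpa [opp] using hcon _ hv
    have h2 := hO.lt _ (all _ n h1)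
    simp only at h2
    omega
  · have h2 := hO.lt _ (all _ n hv)
    simp only at h2
    omega

lemma gapv_eq {v v0 : ℕ × Bool} (h : gapv v = gapv v0) : v = v0 ∨ v = opp v0 := by
  obtain ⟨i, f⟩ := v
  obtain ⟨j, g⟩ := v0
  cases f <;> cases g <;> simp only [gapv, opp, if_true, Bool.false_eq_true, if_false,
    Prod.mk.injEq, and_true, reduceCtorEq, and_false, or_false, false_or] at h ⊢ <;> omega

lemma insQ_nx {gp : ℕ} (P Q : List Ltr) {v : ℕ × Bool} (h1 : v.2 ≠ tl v.1 → 1 ≤ pr v.1)
    (h2 : gapv (nx tl pr v) ≠ gp) :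
    insQ gp P Q (pr v.1, !(v.2 == tl v.1)) = insQ gp P Q (nx tl pr v) := by
  by_cases h : v.2 = tl v.1
  · have e : (v.2 == tl v.1) = true := by simp [h]
    simp only [nx, h, if_true, gapv] at h2 ⊢
    simp only [beq_self_eq_true, Bool.not_true]
    exact insQ_conv1 P Q h2
  · have e : (v.2 == tl v.1) = false := by simpa using h
    have h3 := h1 h
    simp only [nx, h, if_false, gapv, Bool.false_eq_true] at h2 ⊢
    rw [e]
    simp only [Bool.not_false]
    exact insQ_conv2 P Q h3 (by omega)

lemma gapv_nx {v : ℕ × Bool} (h1 : v.2 ≠ tl v.1 → 1 ≤ pr v.1) :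
    gapv (pr v.1, !(v.2 == tl v.1)) = gapv (nx tl pr v) := by
  by_cases h : v.2 = tl v.1
  · simp [nx, h, gapv]
  · have e : (v.2 == tl v.1) = false := by simpa using h
    have h3 := h1 h
    simp only [nx, h, if_false, gapv, Bool.false_eq_true, e, Bool.not_false, if_true]
    omega

lemma nx_snd (v : ℕ × Bool) : (nx tl pr v).2 = (v.2 == tl v.1) := by
  by_cases h : v.2 = tl v.1
  · simp [nx, h]
  · have e : (v.2 == tl v.1) = false := by simpa using h
    simp [nx, h, e]

/-! ### Walking along an orbit -/

/-- The crossings switched in the first `k` steps of a walk `v`. -/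
def qk (lab : ℕ → ℕ) (v : ℕ → ℕ × Bool) (k c : ℕ) : Bool :=
  Nat.bodd ((Finset.range k).filter (fun l => lab (v l).1 = c)).card

lemma qk_zero (lab : ℕ → ℕ) (v : ℕ → ℕ × Bool) (c : ℕ) : qk lab v 0 c = false := by
  simp [qk]

lemma qk_succ (lab : ℕ → ℕ) (v : ℕ → ℕ × Bool) (k c : ℕ) :
    qk lab v (k + 1) c = xor (decide (c = lab (v k).1)) (qk lab v k c) := by
  unfold qk
  rw [Finset.range_add_one, Finset.filter_insert]
  by_cases h : lab (v k).1 = c
  · rw [if_pos h, Finset.card_insert_of_notMem (by simp)]
    simp [h]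
  · have h' : ¬ c = lab (v k).1 := fun h' => h h'.symm
    rw [if_neg h]
    simp [h']

lemma iter_mem {O : Finset (ℕ × Bool)} (hO : Good n tl pr O) {v0 : ℕ × Bool} (hv0 : v0 ∈ O)
    (k : ℕ) : (nx tl pr)^[k] v0 ∈ O := by
  induction k with
  | zero => exact hv0
  | succ k ih => rw [Function.iterate_succ_apply']; exact hO.nx _ ih

lemma lab_legP {d e : ℕ} {t σ : Bool} {a : Ltr} (ha : a ∈ legP d e t σ) :
    a.lab = d ∨ a.lab = e := by
  unfold legP at ha
  split_ifs at ha <;> simp only [List.mem_cons, List.not_mem_nil, or_false] at ha <;>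
    rcases ha with rfl | rfl <;> simp

lemma lab_legQ {d e : ℕ} {t σ : Bool} {a : Ltr} (ha : a ∈ legQ d e t σ) :
    a.lab = d ∨ a.lab = e := by
  unfold legQ at ha
  split_ifs at ha <;> simp only [List.mem_cons, List.not_mem_nil, or_false] at ha <;>
    rcases ha with rfl | rfl <;> simp

lemma leq_self {w : List Ltr} {v : ℕ × Bool} {gp : ℕ} (hv : gapv v = gp) (hg : gp ≤ w.length)
    {d e : ℕ} (hde : d ≠ e) (hd : ∀ a ∈ w, a.lab ≠ d) (he : ∀ a ∈ w, a.lab ≠ e) (s σ : Bool) :
    LEq (wv (insQ gp (legP d e s σ) (legQ d e s σ) v) 0 w) w := by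
  rw [insQ_self _ _ hv]
  apply leq_wv (clasp_trivial hde s σ v.2) hg
  intro a ha b hb
  have h : a.lab = d ∨ a.lab = e := by
    split_ifs at ha <;> rcases List.mem_append.1 ha with h | h
    · exact lab_legP h
    · exact lab_legQ h
    · exact lab_legQ h
    · exact lab_legP h
  rcases h with h | h
  · rw [h]; exact hd b hb
  · rw [h]; exact he b hb

lemma fresh_flipP {w : List Ltr} {d : ℕ} (hd : ∀ a ∈ w, a.lab ≠ d) (q : ℕ → Bool) :
    ∀ a ∈ flipP q w, a.lab ≠ d := by
  intro a ha
  unfold flipP at ha
  obtain ⟨b, hb, rfl⟩ := List.mem_map.1 ha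
  split_ifs
  · rw [flip_lab]; exact hd b hb
  · exact hd b hb

/-- One step, in terms of the flat structure. -/
lemma walk_one (hF : FlatStr n lab tl pr) {w : List Ltr} (hw : IsCode w) (hr : Rz n lab tl w)
    {v : ℕ × Bool} (hv : v.1 < n) {gp : ℕ} (hg : gp ≤ n) {d e : ℕ}
    (hde : d ≠ e) (hd : ∀ a ∈ w, a.lab ≠ d) (he : ∀ a ∈ w, a.lab ≠ e) (s σ : Bool) :
    ∃ σ', WEq (wv (insQ gp (legP d e v.2 σ) (legQ d e s σ) v) 0 w)
      (wv (insQ gp (legP d e (nx tl pr v).2 σ') (legQ d e s σ') (pr v.1, !(v.2 == tl v.1))) 0
        (flipP (fun c => c = lab v.1) w)) ∧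
      IsCode (wv (insQ gp (legP d e (nx tl pr v).2 σ') (legQ d e s σ')
        (pr v.1, !(v.2 == tl v.1))) 0 (flipP (fun c => c = lab v.1) w)) := by
  obtain ⟨hn, hr⟩ := hr
  subst hn
  obtain ⟨h1, h2⟩ := hr v.1 hv
  obtain ⟨h3, h4⟩ := hr (pr v.1) (hF.lt _ hv)
  obtain ⟨σ', H⟩ := walk_word hw hv (hF.lt _ hv) (Ne.symm (hF.ne _ hv))
    (by rw [h3, h1]; exact hF.lab_pr _ hv) hg hde hd he s v.2 σ
  refine ⟨σ', ?_⟩
  rw [h1, h2] at H
  rw [nx_snd]
  exact H

/-- The walk along an orbit. -/
lemma walk_orbit (hF : FlatStr n lab tl pr) {w : List Ltr} (hw : IsCode w) (hr : Rz n lab tl w)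
    {O : Finset (ℕ × Bool)} (hO : Good n tl pr O) {v0 : ℕ × Bool} (hv0 : v0 ∈ O)
    (hop : opp v0 ∉ O) {m : ℕ} (hm : 0 < m) (hm0 : (nx tl pr)^[m] v0 = v0)
    (hmin : ∀ k, 0 < k → k < m → (nx tl pr)^[k] v0 ≠ v0) :
    WEq w (flipP (qk lab (fun k => (nx tl pr)^[k] v0) m) w) := by
  set v : ℕ → ℕ × Bool := fun k => (nx tl pr)^[k] v0 with hv
  have vs : ∀ k, v (k + 1) = nx tl pr (v k) := fun k => Function.iterate_succ_apply' _ _ _
  have vO : ∀ k, v k ∈ O := iter_mem hO hv0
  have v00 : v 0 = v0 := rfl
  -- fresh labels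
  obtain ⟨M, hM⟩ : ∃ M, ∀ a ∈ w, a.lab < M := by
    refine ⟨(w.map Ltr.lab).sum + 1, fun a ha => ?_⟩
    have := List.single_le_sum (l := w.map Ltr.lab) (by simp) a.lab (List.mem_map_of_mem ha)
    omega
  have hd : ∀ a ∈ w, a.lab ≠ M := fun a ha => (hM a ha).ne
  have he : ∀ a ∈ w, a.lab ≠ M + 1 := fun a ha => by have := hM a ha; omega
  have hde : M ≠ M + 1 := by omega
  set gp := gapv v0 with hgp
  have hgn : gp ≤ n := by
    have := hO.lt _ hv0
    rw [hgp]
    unfold gapv
    split_ifs <;> omega
  have hgw : gp ≤ w.length := by rw [hr.1]; exact hgn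
  have key : ∀ k, k < m → ∃ σ, WEq w (wv (insQ gp (legP M (M + 1) (v k).2 σ)
      (legQ M (M + 1) v0.2 σ) (v k)) 0 (flipP (qk lab v k) w)) := by
    intro k hk
    induction k with
    | zero =>
      refine ⟨false, ?_⟩
      rw [v00, flipP_false (q := qk lab v 0) (fun a _ => qk_zero _ _ _)]
      exact Or.inl (leq_self hgp.symm hgw hde hd he v0.2 false).symm
    | succ k ih =>
      obtain ⟨σ, hσ⟩ := ih (by omega)
      obtain ⟨σ', H1, H2⟩ := walk_one hF (isCode_flipP hw (qk lab v k)) (hr.flipP _)
        (hO.lt _ (vO k)) hgn hde (fresh_flipP hd _) (fresh_flipP he _) v0.2 σ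
      refine ⟨σ', ?_⟩
      have hne : gapv (nx tl pr (v k)) ≠ gp := by
        intro h
        rw [← vs] at h
        rcases gapv_eq h with h | h
        · exact hmin (k + 1) (by omega) hk h
        · exact hop (h ▸ vO (k + 1))
      rw [insQ_nx _ _ (hO.pos _ (vO k)) hne, ← vs, flipP_flipP] at H1 H2
      have eq : (fun c => xor (decide (c = lab (v k).1)) (qk lab v k c)) = qk lab v (k + 1) := by
        funext c
        rw [qk_succ]
      rw [eq] at H1 H2
      exact WEq.trans H2 hσ H1
  obtain ⟨k, rfl⟩ : ∃ k, m = k + 1 := ⟨m - 1, by omega⟩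
  obtain ⟨σ, hσ⟩ := key k (by omega)
  obtain ⟨σ', H1, H2⟩ := walk_one hF (isCode_flipP hw (qk lab v k)) (hr.flipP _)
    (hO.lt _ (vO k)) hgn hde (fresh_flipP hd _) (fresh_flipP he _) v0.2 σ
  have hv1 : nx tl pr (v k) = v0 := by
    rw [← vs]; exact hm0
  rw [hv1, flipP_flipP] at H1 H2
  have eq : (fun c => xor (decide (c = lab (v k).1)) (qk lab v k c)) = qk lab v (k + 1) := by
    funext c
    rw [qk_succ]
  rw [eq] at H1 H2
  have hgap : gapv (pr (v k).1, !((v k).2 == tl (v k).1)) = gp := by
    rw [gapv_nx (hO.pos _ (vO k)), hv1]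
  have H3 := leq_self (w := flipP (qk lab v (k + 1)) w) hgap (by rw [flipP_length]; exact hgw) hde
    (fresh_flipP hd _) (fresh_flipP he _) v0.2 σ'
  have H4 := WEq.trans H2 hσ H1
  exact WEq.congr (LEq.refl w) H3.symm H4

/-! ### Orbits -/

lemma exists_period (hF : FlatStr n lab tl pr) {O : Finset (ℕ × Bool)} (hO : Good n tl pr O)
    {v0 : ℕ × Bool} (hv0 : v0 ∈ O) :
    ∃ m, 0 < m ∧ (nx tl pr)^[m] v0 = v0 ∧ ∀ k, 0 < k → k < m → (nx tl pr)^[k] v0 ≠ v0 := by
  have desc : ∀ a k, (nx tl pr)^[a] v0 = (nx tl pr)^[a + k] v0 → (nx tl pr)^[k] v0 = v0 := by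
    intro a k h
    induction a with
    | zero => rw [Nat.zero_add] at h; exact h.symm
    | succ a ih =>
      have e : a + 1 + k = (a + k) + 1 := by omega
      rw [e, Function.iterate_succ_apply', Function.iterate_succ_apply'] at h
      exact ih (nx_inj hF hO (iter_mem hO hv0 _) (iter_mem hO hv0 _) h)
  have hex : ∃ m, 0 < m ∧ (nx tl pr)^[m] v0 = v0 := by
    obtain ⟨x, y, hxy, h⟩ := Finite.exists_ne_map_eq_of_infinite
      (fun k : ℕ => (⟨(nx tl pr)^[k] v0, iter_mem hO hv0 k⟩ : {v // v ∈ O}))
    have h' : (nx tl pr)^[x] v0 = (nx tl pr)^[y] v0 := congrArg Subtype.val h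
    rcases lt_or_gt_of_ne hxy with hlt | hlt
    · refine ⟨y - x, by omega, desc x (y - x) ?_⟩
      rw [h']
      congr 1
      omega
    · refine ⟨x - y, by omega, desc y (x - y) ?_⟩
      rw [← h']
      congr 1
      omega
  classical
  refine ⟨Nat.find hex, (Nat.find_spec hex).1, (Nat.find_spec hex).2, ?_⟩
  intro k hk hkm h
  exact Nat.find_min hex hkm ⟨hk, h⟩

/-- The crossings switched by a set of states. -/
def qO (lab : ℕ → ℕ) (O : Finset (ℕ × Bool)) (c : ℕ) : Bool :=
  Nat.bodd (O.filter (fun u => lab u.1 = c)).card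

lemma qO_sdiff {P O : Finset (ℕ × Bool)} (h : P ⊆ O) (c : ℕ) :
    qO lab O c = xor (qO lab P c) (qO lab (O \ P) c) := by
  unfold qO
  have e : (O.filter (fun u => lab u.1 = c)).card = (P.filter (fun u => lab u.1 = c)).card +
      ((O \ P).filter (fun u => lab u.1 = c)).card := by
    rw [← Finset.card_union_of_disjoint, ← Finset.filter_union, Finset.union_sdiff_of_subset h]
    exact Finset.disjoint_filter_filter Finset.disjoint_sdiff
  rw [e, Nat.bodd_add]

/-- The orbit. -/
def orb (tl : ℕ → Bool) (pr : ℕ → ℕ) (v0 : ℕ × Bool) (m : ℕ) : Finset (ℕ × Bool) :=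
  (Finset.range m).image (fun k => (nx tl pr)^[k] v0)

lemma orb_subset {O : Finset (ℕ × Bool)} (hO : Good n tl pr O) {v0 : ℕ × Bool} (hv0 : v0 ∈ O)
    (m : ℕ) : orb tl pr v0 m ⊆ O := by
  intro v hv
  unfold orb at hv
  obtain ⟨k, _, rfl⟩ := Finset.mem_image.1 hv
  exact iter_mem hO hv0 k

lemma orb_good (hF : FlatStr n lab tl pr) {O : Finset (ℕ × Bool)} (hO : Good n tl pr O)
    {v0 : ℕ × Bool} (hv0 : v0 ∈ O) {m : ℕ} (hm : 0 < m) (hm0 : (nx tl pr)^[m] v0 = v0) :
    Good n tl pr (O \ orb tl pr v0 m) where
  lt v hv := hO.lt v (Finset.mem_sdiff.1 hv).1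
  zero h := hO.zero (Finset.mem_sdiff.1 h).1
  pos v hv := hO.pos v (Finset.mem_sdiff.1 hv).1
  nx v hv := by
    obtain ⟨h1, h2⟩ := Finset.mem_sdiff.1 hv
    refine Finset.mem_sdiff.2 ⟨hO.nx v h1, fun h3 => h2 ?_⟩
    unfold orb at h3 ⊢
    obtain ⟨k, hk, hk'⟩ := Finset.mem_image.1 h3
    rw [Finset.mem_range] at hk
    rcases Nat.eq_zero_or_pos k with h0 | h0
    · subst h0
      obtain ⟨l, rfl⟩ : ∃ l, m = l + 1 := ⟨m - 1, by omega⟩
      refine Finset.mem_image.2 ⟨l, Finset.mem_range.2 (by omega), ?_⟩
      apply nx_inj hF hO (iter_mem hO hv0 l) h1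
      rw [← Function.iterate_succ_apply' (f := VPass.nx tl pr), hm0]
      exact hk'
    · obtain ⟨l, rfl⟩ : ∃ l, k = l + 1 := ⟨k - 1, by omega⟩
      refine Finset.mem_image.2 ⟨l, Finset.mem_range.2 (by omega), ?_⟩
      apply nx_inj hF hO (iter_mem hO hv0 l) h1
      rw [← Function.iterate_succ_apply' (f := VPass.nx tl pr)]
      exact hk'

lemma qk_orb (hF : FlatStr n lab tl pr) {O : Finset (ℕ × Bool)} (hO : Good n tl pr O)
    {v0 : ℕ × Bool} (hv0 : v0 ∈ O) {m : ℕ}
    (hmin : ∀ k, 0 < k → k < m → (nx tl pr)^[k] v0 ≠ v0) (c : ℕ) :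
    qk lab (fun k => (nx tl pr)^[k] v0) m c = qO lab (orb tl pr v0 m) c := by
  unfold qk qO orb
  rw [Finset.filter_image, Finset.card_image_of_injOn]
  intro k hk l hl hkl
  have hk' : k < m := by
    have := (Finset.mem_filter.1 hk).1
    simpa using this
  have hl' : l < m := by
    have := (Finset.mem_filter.1 hl).1
    simpa using this
  have desc : ∀ a k, (nx tl pr)^[a] v0 = (nx tl pr)^[a + k] v0 → (nx tl pr)^[k] v0 = v0 := by
    intro a k h
    induction a with
    | zero => rw [Nat.zero_add] at h; exact h.symm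
    | succ a ih =>
      have e : a + 1 + k = (a + k) + 1 := by omega
      rw [e, Function.iterate_succ_apply', Function.iterate_succ_apply'] at h
      exact ih (nx_inj hF hO (iter_mem hO hv0 _) (iter_mem hO hv0 _) h)
  simp only at hkl
  rcases lt_trichotomy k l with h | h | h
  · exfalso
    apply hmin (l - k) (by omega) (by omega)
    apply desc k
    rw [hkl]
    congr 1
    omega
  · exact h
  · exfalso
    apply hmin (k - l) (by omega) (by omega)
    apply desc l
    rw [← hkl]
    congr 1
    omega

/-- Switching the crossings of a good set of states. -/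
lemma weak_good (hF : FlatStr n lab tl pr) (N : ℕ) : ∀ O : Finset (ℕ × Bool), O.card ≤ N →
    Good n tl pr O → ∀ {w : List Ltr}, IsCode w → Rz n lab tl w →
    WEq w (flipP (qO lab O) w) := by
  induction N with
  | zero =>
    intro O hc _ w _ _
    have hO : O = ∅ := Finset.card_eq_zero.1 (by omega)
    subst hO
    rw [flipP_false (fun a _ => by simp [qO])]
    exact WEq.refl w
  | succ N ih =>
    intro O hc hO w hw hr
    rcases O.eq_empty_or_nonempty with rfl | hne
    · rw [flipP_false (fun a _ => by simp [qO])]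
      exact WEq.refl w
    · obtain ⟨v0, hv0, hop⟩ := exists_start hF hO hne
      obtain ⟨m, hm, hm0, hmin⟩ := exists_period hF hO hv0
      have hsub := orb_subset hO hv0 m
      have h0 : v0 ∈ orb tl pr v0 m :=
        Finset.mem_image.2 ⟨0, Finset.mem_range.2 hm, rfl⟩
      have hcard : (O \ orb tl pr v0 m).card ≤ N := by
        rw [Finset.card_sdiff_of_subset hsub]
        have : 0 < (orb tl pr v0 m).card := Finset.card_pos.2 ⟨v0, h0⟩
        omega
      have h1 := ih _ hcard (orb_good hF hO hv0 hm hm0) hw hr
      have h2 := walk_orbit hF (isCode_flipP hw (qO lab (O \ orb tl pr v0 m))) (hr.flipP _) hO hv0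
        hop hm hm0 hmin
      rw [flipP_flipP] at h2
      have e : (fun c => xor (qk lab (fun k => (nx tl pr)^[k] v0) m c)
          (qO lab (O \ orb tl pr v0 m) c)) = qO lab O := by
        funext c
        rw [qk_orb hF hO hv0 hmin, qO_sdiff hsub c]
      rw [e] at h2
      exact WEq.trans (isCode_flipP hw _) h1 h2

/-- The number of states of a crossing modulo 2. -/
lemma qO_eq (hF : FlatStr n lab tl pr) (y : ℕ × Bool → Bool) {i : ℕ} (hi : i < n) :
    qO lab (((Finset.range n) ×ˢ Finset.univ).filter (fun v => y v = true)) (lab i) =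
      xor (xor (y (i, true)) (y (i, false))) (xor (y (pr i, true)) (y (pr i, false))) := by
  have hj := hF.lt i hi
  have hij := hF.ne i hi
  have e : (((Finset.range n) ×ˢ (Finset.univ : Finset Bool)).filter (fun v => y v = true)).filter
      (fun u => lab u.1 = lab i) =
      ({(i, true), (i, false), (pr i, true), (pr i, false)} : Finset (ℕ × Bool)).filter
        (fun v => y v = true) := by
    ext ⟨a, b⟩
    simp only [Finset.mem_filter, Finset.mem_product, Finset.mem_range, Finset.mem_univ, and_true,
      Finset.mem_insert, Finset.mem_singleton, Prod.mk.injEq]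
    constructor
    · rintro ⟨⟨h1, h2⟩, h3⟩
      refine ⟨?_, h2⟩
      rcases hF.uniq i hi a h1 h3 with rfl | rfl <;> cases b <;> simp
    · rintro ⟨h1, h2⟩
      rcases h1 with ⟨rfl, rfl⟩ | ⟨rfl, rfl⟩ | ⟨rfl, rfl⟩ | ⟨rfl, rfl⟩
      · exact ⟨⟨hi, h2⟩, rfl⟩
      · exact ⟨⟨hi, h2⟩, rfl⟩
      · exact ⟨⟨hj, h2⟩, hF.lab_pr i hi⟩
      · exact ⟨⟨hj, h2⟩, hF.lab_pr i hi⟩
  unfold qO
  rw [e, Finset.card_filter, Finset.sum_insert (by simp [Ne.symm hij]),
    Finset.sum_insert (by simp [Ne.symm hij]), Finset.sum_insert (by simp), Finset.sum_singleton]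
  cases y (i, true) <;> cases y (i, false) <;> cases y (pr i, true) <;> cases y (pr i, false) <;>
    rfl

/-! ### Region crossing changes -/

lemma exists_flatStr {w : List Ltr} (hw : IsCode w) :
    ∃ (lab : ℕ → ℕ) (tl : ℕ → Bool) (pr : ℕ → ℕ), FlatStr w.length lab tl pr ∧
      Rz w.length lab tl w := by
  classical
  have hp : ∀ i, ∃ j, ∀ hi : i < w.length, ∃ hj : j < w.length, j ≠ i ∧ w[j].lab = w[i].lab := by
    intro i
    by_cases hi : i < w.length
    · obtain ⟨j, hj, h1, h2⟩ := code_exists_partner hw hi
      exact ⟨j, fun _ => ⟨hj, h1, h2⟩⟩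
    · exact ⟨0, fun h => absurd h hi⟩
  choose pr hpr using hp
  refine ⟨fun i => if h : i < w.length then w[i].lab else 0,
    fun i => if h : i < w.length then w[i].tail else false, pr, ?_, rfl, ?_⟩
  · have lt : ∀ i, i < w.length → pr i < w.length := fun i hi => (hpr i hi).1
    have ne : ∀ i, i < w.length → pr i ≠ i := fun i hi => (hpr i hi).2.1
    have lb : ∀ i (hi : i < w.length), (w[pr i]'(lt i hi)).lab = w[i].lab :=
      fun i hi => (hpr i hi).2.2
    refine ⟨lt, ne, ?_, ?_, ?_, ?_⟩
    · intro i hi
      have h1 := lt i hi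
      have h2 := lt _ h1
      have h3 : w[pr (pr i)].lab = w[i].lab := (lb _ h1).trans (lb i hi)
      rcases (code_pair hw hi h1 (Ne.symm (ne i hi)) (lb i hi)).2 _ h2 h3 with h | h
      · exact h
      · exact absurd h (ne _ h1)
    · intro i hi
      simp only [hi, lt i hi, dif_pos]
      exact lb i hi
    · intro i hi
      simp only [hi, lt i hi, dif_pos]
      rw [(code_pair hw hi (lt i hi) (Ne.symm (ne i hi)) (lb i hi)).1]
      unfold Ltr.tail
      cases w[i].ov <;> cases w[i].pos <;> rfl
    · intro i hi k hk h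
      simp only [hi, hk, dif_pos] at h
      exact (code_pair hw hi (lt i hi) (Ne.symm (ne i hi)) (lb i hi)).2 k hk h
  · intro i hi
    simp [hi]

/-- **Region crossing changes away from the base edge are trivial modulo local trefoils.** -/
theorem weak_rcc {A : List CLtr} (hA : IsColouring A) {w : List Ltr} (hw : IsCode w)
    (hmk : A.map (fun x => (x.a.lab, x.a.tail)) = w.map (fun a => (a.lab, a.tail)))
    (hbase : ∀ x ∈ A.head?, x.inL = false ∧ x.inR = false) : WEq w (flipBy A w) := by
  obtain ⟨lab, tl, pr, hF, hr⟩ := exists_flatStr hw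
  have hlen : A.length = w.length := by
    have := congrArg List.length hmk
    simpa using this
  have hlt : ∀ i (h1 : i < A.length) (h2 : i < w.length), A[i].a.lab = lab i ∧
      A[i].a.tail = tl i := by
    intro i h1 h2
    have h3 : (A.map (fun x => (x.a.lab, x.a.tail)))[i]'(by simpa using h1) =
        (w.map (fun a => (a.lab, a.tail)))[i]'(by simpa using h2) := by
      simp only [hmk]
    simp only [List.getElem_map, Prod.mk.injEq] at h3
    obtain ⟨h4, h5⟩ := hr.2 i h2
    exact ⟨h3.1.trans h4, h3.2.trans h5⟩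
  obtain ⟨hch, hco⟩ := hA
  rw [List.isChain_iff_getElem] at hch
  have hch1 : ∀ i (h : i + 1 < A.length), A[i].outL = A[i + 1].inL ∧ A[i].outR = A[i + 1].inR := by
    intro i h
    have := hch i (by simp; omega)
    rwa [List.getElem_append_left (by omega), List.getElem_append_left (by omega)] at this
  have hb0 : ∀ h : 0 < A.length, A[0].inL = false ∧ A[0].inR = false := by
    intro h
    apply hbase
    rw [List.head?_eq_getElem?]
    simp [h]
  have hch0 : ∀ i (h : i + 1 = A.length), A[i].outL = false ∧ A[i].outR = false := by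
    intro i h
    have h1 := hch i (by simp; omega)
    have h0 : 0 < A.length := by omega
    rw [List.getElem_append_left (by omega), List.getElem_append_right (by omega)] at h1
    simp only [List.getElem_take, h, Nat.sub_self] at h1
    obtain ⟨h2, h3⟩ := hb0 h0
    exact ⟨h1.1.trans h2, h1.2.trans h3⟩
  have hcorner : ∀ i (h : i < A.length) (h' : pr i < A.length), tl i = true →
      CornerOK A[i] A[pr i] := by
    intro i h h' ht
    have hi : i < w.length := by omega
    have hj : pr i < w.length := by omega
    refine hco _ (List.getElem_mem h) _ (List.getElem_mem h') ?_ ?_ ?_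
    · rw [(hlt i h hi).1, (hlt _ h' hj).1]
      exact (hF.lab_pr i hi).symm
    · rw [(hlt i h hi).2, ht]
    · rw [(hlt _ h' hj).2, hF.tl_pr i hi, ht]
      rfl
  -- the colour of a state
  set y : ℕ × Bool → Bool := fun v =>
    if h : v.1 < A.length then (if v.2 then A[v.1].inL else A[v.1].outR) else false with hy
  have yt : ∀ i (h : i < A.length), y (i, true) = A[i].inL := by
    intro i h
    simp [hy, h]
  have yf : ∀ i (h : i < A.length), y (i, false) = A[i].outR := by
    intro i h
    simp [hy, h]
  set Y := ((Finset.range w.length) ×ˢ (Finset.univ : Finset Bool)).filter (fun v => y v = true)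
    with hY
  have memY : ∀ v, v ∈ Y ↔ v.1 < w.length ∧ y v = true := by
    intro v
    simp [hY]
  -- forward and backward steps
  have fwd : ∀ j (h : j < A.length), A[j].outL = true → (j + 1, true) ∈ Y := by
    intro j h ho
    rcases Nat.lt_or_ge (j + 1) A.length with h1 | h1
    · rw [memY, yt _ h1]
      exact ⟨by simp only; omega, by rw [← (hch1 j h1).1]; exact ho⟩
    · exfalso
      have := (hch0 j (by omega)).1
      rw [this] at ho
      exact absurd ho (by simp)
  have bwd : ∀ j (h : j < A.length), A[j].inR = true → 1 ≤ j ∧ (j - 1, false) ∈ Y := by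
    intro j h ho
    rcases Nat.eq_zero_or_pos j with h1 | h1
    · exfalso
      subst h1
      have := (hb0 h).2
      rw [this] at ho
      exact absurd ho (by simp)
    · refine ⟨h1, ?_⟩
      obtain ⟨k, rfl⟩ : ∃ k, j = k + 1 := ⟨j - 1, by omega⟩
      have h2 : k < A.length := by omega
      simp only [Nat.add_sub_cancel]
      rw [memY, yf _ h2]
      exact ⟨by simp only; omega, by rw [(hch1 k h).2]; exact ho⟩
  have main : ∀ v ∈ Y, nx tl pr v ∈ Y ∧ (v.2 ≠ tl v.1 → 1 ≤ pr v.1) := by
    rintro ⟨i, f⟩ hv
    obtain ⟨hi, hyv⟩ := (memY _).1 hv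
    simp only at hi
    have hiA : i < A.length := by omega
    have hj := hF.lt i hi
    have hjA : pr i < A.length := by omega
    cases ht : tl i
    · -- the letter `i` is a head
      have hc := hcorner (pr i) hjA (by rw [hF.inv i hi]; exact hiA) (by
        rw [hF.tl_pr i hi, ht]; rfl)
      simp only [hF.inv i hi] at hc
      obtain ⟨c1, c2, c3, c4⟩ := hc
      cases f
      · rw [yf _ hiA] at hyv
        have h1 : A[pr i].outL = true := by rw [c1]; exact hyv
        have h2 := fwd _ hjA h1
        refine ⟨?_, fun h => absurd rfl h⟩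
        simp only [nx, ht, if_true]
        exact h2
      · rw [yt _ hiA] at hyv
        have h1 : A[pr i].inR = true := by rw [c3]; exact hyv
        obtain ⟨h2, h3⟩ := bwd _ hjA h1
        refine ⟨?_, fun _ => h2⟩
        simp only [nx, ht, reduceCtorEq, if_false]
        exact h3
    · -- the letter `i` is a tail
      obtain ⟨c1, c2, c3, c4⟩ := hcorner i hiA hjA ht
      cases f
      · rw [yf _ hiA] at hyv
        have h1 : A[pr i].inR = true := by rw [c4]; exact hyv
        obtain ⟨h2, h3⟩ := bwd _ hjA h1
        refine ⟨?_, fun _ => h2⟩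
        simp only [nx, ht, reduceCtorEq, if_false]
        exact h3
      · rw [yt _ hiA] at hyv
        have h1 : A[pr i].outL = true := by rw [c2]; exact hyv
        have h2 := fwd _ hjA h1
        refine ⟨?_, fun h => absurd rfl h⟩
        simp only [nx, ht, if_true]
        exact h2
  have hGood : Good w.length tl pr Y := by
    refine ⟨fun v hv => ((memY v).1 hv).1, ?_, fun v hv => (main v hv).1,
      fun v hv => (main v hv).2⟩
    intro h
    obtain ⟨h1, h2⟩ := (memY _).1 h
    simp only at h1
    have h3 : 0 < A.length := by omega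
    rw [yt 0 h3, (hb0 h3).1] at h2
    exact absurd h2 (by simp)
  have hfin := weak_good hF Y.card Y le_rfl hGood hw hr
  have efl : flipP (qO lab Y) w = flipBy A w := by
    apply List.ext_getElem
    · simp [flipP, flipBy, hlen]
    · intro i h1 h2
      have hi : i < w.length := by rwa [flipP_length] at h1
      have hiA : i < A.length := by omega
      have hj := hF.lt i hi
      have hjA : pr i < A.length := by omega
      simp only [flipP, flipBy, List.getElem_map, List.getElem_zipWith]
      have e1 : qO lab Y w[i].lab = A[i].jump := by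
        rw [(hr.2 i hi).1, hY, qO_eq hF y hi, yt i hiA, yf i hiA, yt _ hjA, yf _ hjA]
        unfold CLtr.jump
        cases ht : tl i
        · have hc := hcorner (pr i) hjA (by rw [hF.inv i hi]; exact hiA) (by
            rw [hF.tl_pr i hi, ht]; rfl)
          simp only [hF.inv i hi] at hc
          obtain ⟨c1, c2, c3, c4⟩ := hc
          rw [c4, c2]
          cases A[i].inL <;> cases A[i].outR <;> cases A[pr i].inL <;>
            cases A[pr i].outR <;> rfl
        · obtain ⟨c1, c2, c3, c4⟩ := hcorner i hiA hjA ht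
          rw [c1, c3]
          cases A[i].inL <;> cases A[i].outR <;> cases A[pr i].inL <;>
            cases A[pr i].outR <;> rfl
      rw [e1]
  rw [← efl]
  exact hfin

end VPass
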